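import Mathlib

/-!
Counting integers in a short interval subject to sieve conditions with two forbidden residue
classes for every odd prime and one for the prime two.
-/

namespace Pool.Agent.H91.Gold

open Finset

/-- Indicator of the residue class of `c` modulo `q`. -/
noncomputable def ind (q : ℕ) (c a : ℤ) : ℝ := if a ≡ c [ZMOD q] then 1 else 0

theorem ind_nonneg (q : ℕ) (c a : ℤ) : 0 ≤ ind q c a := by
  unfold ind; split_ifs <;> norm_num

theorem count_class (lo : ℤ) (X q : ℕ) (c : ℤ) (hq : 0 < q) :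
    |∑ a ∈ Ioc lo (lo + X), ind q c a - (X : ℝ) / q| ≤ 1 := by
  have h1 : ∑ a ∈ Ioc lo (lo + X), ind q c a
      = (((Ioc lo (lo + X)).filter (fun a => a ≡ c [ZMOD q])).card : ℝ) := by
    unfold ind
    rw [Finset.sum_ite]
    simp
  have hq' : (0 : ℤ) < q := by exact_mod_cast hq
  have h2 := Int.Ioc_filter_modEq_card lo (lo + X) hq' c
  have h3 : (((Ioc lo (lo + X)).filter (fun a => a ≡ c [ZMOD q])).card : ℤ)
      = ⌊((lo + X : ℤ) - c : ℚ) / ((q : ℤ) : ℚ)⌋ - ⌊((lo : ℤ) - c : ℚ) / ((q : ℤ) : ℚ)⌋ := by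
    rw [h2]
    apply max_eq_left
    rw [sub_nonneg]
    apply Int.floor_le_floor
    have : (0 : ℚ) < ((q : ℤ) : ℚ) := by exact_mod_cast hq'
    apply div_le_div_of_nonneg_right _ this.le
    push_cast
    have : (0 : ℚ) ≤ X := by positivity
    linarith
  have h4 : (((Ioc lo (lo + X)).filter (fun a => a ≡ c [ZMOD q])).card : ℚ)
      = (⌊((lo + X : ℤ) - c : ℚ) / ((q : ℤ) : ℚ)⌋ : ℚ) - (⌊((lo : ℤ) - c : ℚ) / ((q : ℤ) : ℚ)⌋ : ℚ) := by
    exact_mod_cast h3
  have e1 := Int.floor_le (((lo + X : ℤ) - c : ℚ) / ((q : ℤ) : ℚ))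
  have e2 := Int.lt_floor_add_one (((lo + X : ℤ) - c : ℚ) / ((q : ℤ) : ℚ))
  have e3 := Int.floor_le (((lo : ℤ) - c : ℚ) / ((q : ℤ) : ℚ))
  have e4 := Int.lt_floor_add_one (((lo : ℤ) - c : ℚ) / ((q : ℤ) : ℚ))
  have e5 : (((lo + X : ℤ) - c : ℚ) / ((q : ℤ) : ℚ)) = (((lo : ℤ) - c : ℚ) / ((q : ℤ) : ℚ)) + (X : ℚ) / q := by
    have : (q : ℚ) ≠ 0 := by positivity
    push_cast
    field_simp
    ring
  have h5 : |(((Ioc lo (lo + X)).filter (fun a => a ≡ c [ZMOD q])).card : ℚ) - (X : ℚ) / q| ≤ 1 := by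
    rw [h4, abs_le]
    constructor <;> linarith
  rw [h1]
  have h6 : ((|(((Ioc lo (lo + X)).filter (fun a => a ≡ c [ZMOD q])).card : ℚ) - (X : ℚ) / q| : ℚ) : ℝ) ≤ ((1 : ℚ) : ℝ) := by
    exact_mod_cast h5
  push_cast at h6
  exact h6

/-- The second forbidden residue at the prime `p`. -/
def rt (N : ℤ) (p : ℕ) : ℤ := if (p : ℤ) ∣ N then 1 else N

/-- The forbidden residues at the prime `p`. -/
def Rs (N : ℤ) (p : ℕ) : Finset ℤ := if p = 2 then {0} else {0, rt N p}

/-- The number of forbidden residues at `p`. -/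
noncomputable def rho (p : ℕ) : ℝ := if p = 2 then 1 else 2

/-- The density of the forbidden residues at `p`. -/
noncomputable def g (p : ℕ) : ℝ := rho p / p

theorem rho_pos (p : ℕ) : 0 < rho p := by unfold rho; split_ifs <;> norm_num

theorem rho_le (p : ℕ) : rho p ≤ 2 := by unfold rho; split_ifs <;> norm_num

theorem g_nonneg (p : ℕ) : 0 ≤ g p := by
  unfold g; have := rho_pos p; positivity

theorem g_two : g 2 = 1 / 2 := by unfold g rho; norm_num

theorem g_odd {p : ℕ} (hp : p ≠ 2) : g p = 2 / p := by unfold g rho; simp [hp]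

theorem g_le {p : ℕ} (hp : p.Prime) : g p ≤ 2 / 3 := by
  rcases eq_or_ne p 2 with rfl | h
  · rw [g_two]; norm_num
  · rw [g_odd h]
    have h3 : 3 ≤ p := by
      have := hp.two_le; omega
    have h3' : (3 : ℝ) ≤ p := by exact_mod_cast h3
    apply div_le_div_of_nonneg_left _ _ h3' <;> norm_num

theorem rt_not_dvd {N : ℤ} {p : ℕ} (hp : p.Prime) : ¬ (p : ℤ) ∣ rt N p := by
  unfold rt
  split_ifs with h
  · intro h1
    have := Int.le_of_dvd one_pos h1
    have h2 := hp.two_le
    omega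
  · exact h

theorem rt_ne_zero {N : ℤ} {p : ℕ} (hp : p.Prime) : rt N p ≠ 0 := by
  intro h
  apply rt_not_dvd (N := N) hp
  rw [h]
  exact dvd_zero _

theorem card_Rs {N : ℤ} {p : ℕ} (hp : p.Prime) : ((Rs N p).card : ℝ) = rho p := by
  unfold Rs rho
  split_ifs with h
  · simp
  · rw [card_pair (rt_ne_zero hp).symm]; norm_num

/-- The event that `a` lies in a forbidden residue class at `p`. -/
def Om (N : ℤ) (p : ℕ) (a : ℤ) : Prop := ∃ r ∈ Rs N p, a ≡ r [ZMOD p]

open Classical in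
/-- Indicator of the event `Om`. -/
noncomputable def u (N : ℤ) (p : ℕ) (a : ℤ) : ℝ := if Om N p a then 1 else 0

theorem u_nonneg (N : ℤ) (p : ℕ) (a : ℤ) : 0 ≤ u N p a := by
  unfold u; split_ifs <;> norm_num

theorem u_le_one (N : ℤ) (p : ℕ) (a : ℤ) : u N p a ≤ 1 := by
  unfold u; split_ifs <;> norm_num

theorem u_eq {N : ℤ} {p : ℕ} (hp : p.Prime) (a : ℤ) :
    u N p a = ∑ r ∈ Rs N p, ind p r a := by
  unfold u Om Rs ind
  split_ifs with h2 h3 h3
  · rw [sum_singleton]
    simp only [mem_singleton, exists_eq_left] at h3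
    rw [if_pos h3]
  · rw [sum_singleton]
    simp only [mem_singleton, exists_eq_left] at h3
    rw [if_neg h3]
  · rw [sum_pair (rt_ne_zero hp).symm]
    simp only [mem_insert, mem_singleton, exists_eq_or_imp, exists_eq_left] at h3
    rcases h3 with h3 | h3
    · have h4 : ¬ a ≡ rt N p [ZMOD p] := by
        intro h4
        apply rt_not_dvd (N := N) hp
        have := (h3.symm.trans h4)
        rw [Int.modEq_iff_dvd] at this
        simpa using this
      simp [h3, h4]
    · have h4 : ¬ a ≡ 0 [ZMOD p] := by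
        intro h4
        apply rt_not_dvd (N := N) hp
        have := (h4.symm.trans h3)
        rw [Int.modEq_iff_dvd] at this
        simpa using this
      simp [h3, h4]
  · rw [sum_pair (rt_ne_zero hp).symm]
    simp only [mem_insert, mem_singleton, exists_eq_or_imp, exists_eq_left, not_or] at h3
    simp [h3.1, h3.2]

theorem ind_mul (q p : ℕ) (hc : Nat.Coprime p q) (c r : ℤ) :
    ∃ c' : ℤ, ∀ a, ind q c a * ind p r a = ind (q * p) c' a := by
  have hc' : IsCoprime (q : ℤ) (p : ℤ) := Nat.isCoprime_iff_coprime.2 hc.symm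
  obtain ⟨x, y, hxy⟩ := hc'
  refine ⟨c * (y * p) + r * (x * q), fun a => ?_⟩
  have h1 : c * (y * p) + r * (x * q) ≡ c [ZMOD q] := by
    rw [Int.modEq_iff_dvd]
    exact ⟨c * x - r * x, by linear_combination - c * hxy⟩
  have h2 : c * (y * p) + r * (x * q) ≡ r [ZMOD p] := by
    rw [Int.modEq_iff_dvd]
    exact ⟨r * y - c * y, by linear_combination - r * hxy⟩
  have key : a ≡ c * (y * p) + r * (x * q) [ZMOD (q * p : ℕ)] ↔ (a ≡ c [ZMOD q] ∧ a ≡ r [ZMOD p]) := by
    push_cast
    rw [← Int.modEq_and_modEq_iff_modEq_mul (by simpa using hc.symm)]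
    constructor
    · rintro ⟨a1, a2⟩
      exact ⟨a1.trans h1, a2.trans h2⟩
    · rintro ⟨a1, a2⟩
      exact ⟨a1.trans h1.symm, a2.trans h2.symm⟩
  unfold ind
  simp only [key]
  by_cases e1 : a ≡ c [ZMOD q] <;> by_cases e2 : a ≡ r [ZMOD p] <;> simp [e1, e2]

/-- The weighted count over the interval `(lo, lo + X]`. -/
noncomputable def W (N lo : ℤ) (X : ℕ) (q : ℕ) (c : ℤ) (D : Finset ℕ) (F : ℤ → ℝ) : ℝ :=
  ∑ a ∈ Ioc lo (lo + X), ind q c a * (∏ p ∈ D, u N p a) * F a

theorem W_insert (N lo : ℤ) (X : ℕ) (F : ℤ → ℝ) {q p : ℕ} (hp : p.Prime) (hpq : Nat.Coprime p q) (c : ℤ)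
    {D : Finset ℕ} (hD : p ∉ D) :
    ∃ c' : ℤ → ℤ, W N lo X q c (insert p D) F = ∑ r ∈ Rs N p, W N lo X (q * p) (c' r) D F := by
  choose c' hc' using fun r => ind_mul q p hpq c r
  refine ⟨c', ?_⟩
  unfold W
  rw [sum_comm]
  apply sum_congr rfl
  intro a _
  rw [prod_insert hD, u_eq hp]
  have : ind q c a * ((∑ r ∈ Rs N p, ind p r a) * ∏ x ∈ D, u N x a) * F a
      = ∑ r ∈ Rs N p, (ind q c a * ind p r a) * (∏ x ∈ D, u N x a) * F a := by
    rw [sum_mul, mul_sum, sum_mul]
    apply sum_congr rfl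
    intro r _
    ring
  rw [this]
  apply sum_congr rfl
  intro r _
  rw [hc']

/-- `F` behaves like a sieve weight built from primes in `S` with main value `M` and error `E`. -/
def Sv (N lo : ℤ) (X : ℕ) (S : Finset ℕ) (F : ℤ → ℝ) (M E : ℝ) : Prop :=
  ∀ (q : ℕ) (c : ℤ) (D : Finset ℕ), 0 < q → (∀ p ∈ D, p.Prime) → Disjoint D S →
    (∀ p ∈ D, Nat.Coprime p q) → (∀ p ∈ S, Nat.Coprime p q) →
    |W N lo X q c D F - (X : ℝ) / q * (∏ p ∈ D, g p) * M| ≤ (∏ p ∈ D, rho p) * E

theorem Sv_one (N lo : ℤ) (X : ℕ) : Sv N lo X ∅ (fun _ => 1) 1 1 := by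
  intro q c D
  induction D using Finset.induction_on generalizing q c with
  | empty =>
    intro hq _ _ _ _
    unfold W
    simpa using count_class lo X q c hq
  | insert p D hpD ih =>
    intro hq hD hdis hcop _
    have hp : p.Prime := hD p (mem_insert_self _ _)
    have hpq : Nat.Coprime p q := hcop p (mem_insert_self _ _)
    obtain ⟨c', hc'⟩ := W_insert N lo X (fun _ => (1 : ℝ)) hp hpq c hpD
    have h1 : ∀ r ∈ Rs N p, |W N lo X (q * p) (c' r) D (fun _ => 1)
        - (X : ℝ) / (q * p : ℕ) * (∏ p ∈ D, g p) * 1| ≤ (∏ p ∈ D, rho p) * 1 := by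
      intro r _
      apply ih (q * p) (c' r) (Nat.mul_pos hq hp.pos) (fun x hx => hD x (mem_insert_of_mem hx))
        (by simp)
      · intro x hx
        apply Nat.Coprime.mul_right (hcop x (mem_insert_of_mem hx))
        rw [Nat.coprime_primes (hD x (mem_insert_of_mem hx)) hp]
        rintro rfl
        exact hpD hx
      · simp
    rw [hc', prod_insert hpD, prod_insert hpD]
    have h2 : (X : ℝ) / q * (g p * ∏ p ∈ D, g p) * 1
        = ∑ r ∈ Rs N p, (X : ℝ) / (q * p : ℕ) * (∏ p ∈ D, g p) * 1 := by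
      rw [sum_const, nsmul_eq_mul, card_Rs hp]
      unfold g
      have : (p : ℝ) ≠ 0 := by exact_mod_cast hp.pos.ne'
      have : (q : ℝ) ≠ 0 := by exact_mod_cast hq.ne'
      push_cast
      field_simp
    have h3 : rho p * (∏ p ∈ D, rho p) * 1 = ∑ r ∈ Rs N p, (∏ p ∈ D, rho p) * 1 := by
      rw [sum_const, nsmul_eq_mul, card_Rs hp]; ring
    rw [h2, h3, ← sum_sub_distrib]
    exact (abs_sum_le_sum_abs _ _).trans (sum_le_sum h1)

theorem Sv.mono {N lo : ℤ} {X : ℕ} {S S' : Finset ℕ} {F : ℤ → ℝ} {M E E' : ℝ}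
    (h : Sv N lo X S F M E) (hS : S ⊆ S') (hE : E ≤ E') : Sv N lo X S' F M E' := by
  intro q c D hq hD hdis h1 h2
  refine (h q c D hq hD (disjoint_of_subset_right hS hdis) h1 (fun p hp => h2 p (hS hp))).trans ?_
  apply mul_le_mul_of_nonneg_left hE
  exact prod_nonneg (fun p _ => (rho_pos p).le)

theorem Sv.E_nonneg {N lo : ℤ} {X : ℕ} {S : Finset ℕ} {F : ℤ → ℝ} {M E : ℝ}
    (h : Sv N lo X S F M E) : 0 ≤ E := by
  have := h 1 0 ∅ one_pos (by simp) (by simp) (by simp) (by simp)
  simp only [prod_empty, one_mul] at this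
  exact (abs_nonneg _).trans this

theorem Sv.add {N lo : ℤ} {X : ℕ} {S : Finset ℕ} {F F' : ℤ → ℝ} {M M' E E' : ℝ}
    (h : Sv N lo X S F M E) (h' : Sv N lo X S F' M' E') :
    Sv N lo X S (fun a => F a + F' a) (M + M') (E + E') := by
  intro q c D hq hD hdis h1 h2
  have e1 := h q c D hq hD hdis h1 h2
  have e2 := h' q c D hq hD hdis h1 h2
  have : W N lo X q c D (fun a => F a + F' a) = W N lo X q c D F + W N lo X q c D F' := by
    unfold W
    rw [← sum_add_distrib]
    apply sum_congr rfl; intro a _; ring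
  rw [this]
  have : W N lo X q c D F + W N lo X q c D F' - (X : ℝ) / q * (∏ p ∈ D, g p) * (M + M')
    = (W N lo X q c D F - (X : ℝ) / q * (∏ p ∈ D, g p) * M)
      + (W N lo X q c D F' - (X : ℝ) / q * (∏ p ∈ D, g p) * M') := by ring
  rw [this, mul_add]
  exact (abs_add_le _ _).trans (add_le_add e1 e2)

theorem Sv.smul {N lo : ℤ} {X : ℕ} {S : Finset ℕ} {F : ℤ → ℝ} {M E : ℝ}
    (h : Sv N lo X S F M E) (k : ℝ) :
    Sv N lo X S (fun a => k * F a) (k * M) (|k| * E) := by
  intro q c D hq hD hdis h1 h2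
  have e1 := h q c D hq hD hdis h1 h2
  have : W N lo X q c D (fun a => k * F a) = k * W N lo X q c D F := by
    unfold W
    rw [mul_sum]
    apply sum_congr rfl; intro a _; ring
  rw [this]
  have : k * W N lo X q c D F - (X : ℝ) / q * (∏ p ∈ D, g p) * (k * M)
    = k * (W N lo X q c D F - (X : ℝ) / q * (∏ p ∈ D, g p) * M) := by ring
  rw [this, abs_mul]
  calc |k| * |W N lo X q c D F - (X : ℝ) / q * (∏ p ∈ D, g p) * M|
      ≤ |k| * ((∏ p ∈ D, rho p) * E) := mul_le_mul_of_nonneg_left e1 (abs_nonneg _)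
    _ = (∏ p ∈ D, rho p) * (|k| * E) := by ring

theorem Sv.sum {N lo : ℤ} {X : ℕ} {S : Finset ℕ} {ι : Type*} (T : Finset ι) (F : ι → ℤ → ℝ)
    (M E : ι → ℝ) (h : ∀ i ∈ T, Sv N lo X S (F i) (M i) (E i)) :
    Sv N lo X S (fun a => ∑ i ∈ T, F i a) (∑ i ∈ T, M i) (∑ i ∈ T, E i) := by
  classical
  induction T using Finset.induction_on with
  | empty =>
    intro q c D _ _ _ _ _
    unfold W
    simp
  | insert i T hi ih =>
    have e1 := h i (mem_insert_self _ _)
    have e2 := ih (fun j hj => h j (mem_insert_of_mem hj))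
    simp only [sum_insert hi]
    exact e1.add e2

/-- Multiplication by a product of events. -/
theorem Sv.mul_prod {N lo : ℤ} {X : ℕ} {S : Finset ℕ} {F : ℤ → ℝ} {M E : ℝ}
    (h : Sv N lo X S F M E) (B : Finset ℕ) (hB : ∀ p ∈ B, p.Prime) (hBS : Disjoint B S) :
    Sv N lo X (S ∪ B) (fun a => (∏ p ∈ B, u N p a) * F a) ((∏ p ∈ B, g p) * M)
      ((∏ p ∈ B, rho p) * E) := by
  intro q c D hq hD hdis h1 h2
  have hDB : Disjoint D B := disjoint_of_subset_right subset_union_right hdis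
  have hDS : Disjoint D S := disjoint_of_subset_right subset_union_left hdis
  have e := h q c (D ∪ B) hq (fun p hp => by
    rcases mem_union.1 hp with hp | hp
    · exact hD p hp
    · exact hB p hp) (disjoint_union_left.2 ⟨hDS, hBS⟩) (fun p hp => by
    rcases mem_union.1 hp with hp | hp
    · exact h1 p hp
    · exact h2 p (mem_union_right _ hp)) (fun p hp => h2 p (mem_union_left _ hp))
  have e1 : W N lo X q c D (fun a => (∏ p ∈ B, u N p a) * F a) = W N lo X q c (D ∪ B) F := by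
    unfold W
    apply sum_congr rfl; intro a _
    rw [prod_union hDB]; ring
  rw [e1]
  rw [prod_union hDB, prod_union hDB] at e
  calc |W N lo X q c (D ∪ B) F - (X : ℝ) / q * (∏ p ∈ D, g p) * ((∏ p ∈ B, g p) * M)|
      = |W N lo X q c (D ∪ B) F - (X : ℝ) / q * ((∏ p ∈ D, g p) * ∏ p ∈ B, g p) * M| := by
        congr 1; ring
    _ ≤ ((∏ p ∈ D, rho p) * ∏ p ∈ B, rho p) * E := e
    _ = (∏ p ∈ D, rho p) * ((∏ p ∈ B, rho p) * E) := by ring

/-- Elementary symmetric function of the values of `x` on `B`. -/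
noncomputable def es (x : ℕ → ℝ) (B : Finset ℕ) (k : ℕ) : ℝ := ∑ t ∈ B.powersetCard k, ∏ p ∈ t, x p

theorem es_zero (x : ℕ → ℝ) (B : Finset ℕ) : es x B 0 = 1 := by
  unfold es; simp

theorem es_empty_succ (x : ℕ → ℝ) (k : ℕ) : es x ∅ (k + 1) = 0 := by
  unfold es
  rw [powersetCard_eq_empty.2 (by simp)]
  simp

theorem es_insert (x : ℕ → ℝ) {B : Finset ℕ} {p : ℕ} (hp : p ∉ B) (k : ℕ) :
    es x (insert p B) (k + 1) = es x B (k + 1) + x p * es x B k := by
  unfold es
  rw [powersetCard_succ_insert hp, sum_union]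
  · congr 1
    rw [sum_image]
    · rw [mul_sum]
      apply sum_congr rfl
      intro t ht
      rw [prod_insert]
      intro h
      exact hp ((mem_powersetCard.1 ht).1 h)
    · intro s hs t ht hst
      have hps : p ∉ s := fun h => hp ((mem_powersetCard.1 hs).1 h)
      have hpt : p ∉ t := fun h => hp ((mem_powersetCard.1 ht).1 h)
      have := congrArg (fun z => z.erase p) hst
      simpa [erase_insert hps, erase_insert hpt] using this
  · rw [disjoint_left]
    intro s hs hs'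
    rw [mem_image] at hs'
    obtain ⟨t, _, rfl⟩ := hs'
    exact hp ((mem_powersetCard.1 hs).1 (mem_insert_self _ _))

theorem es_nonneg {x : ℕ → ℝ} {B : Finset ℕ} (hx : ∀ p ∈ B, 0 ≤ x p) (k : ℕ) : 0 ≤ es x B k := by
  unfold es
  apply sum_nonneg
  intro t ht
  apply prod_nonneg
  intro p hp
  exact hx p ((mem_powersetCard.1 ht).1 hp)

/-- Multiplication by an elementary symmetric function of events. -/
theorem Sv.mul_es {N lo : ℤ} {X : ℕ} {S : Finset ℕ} {F : ℤ → ℝ} {M E : ℝ}
    (h : Sv N lo X S F M E) (B : Finset ℕ) (hB : ∀ p ∈ B, p.Prime) (hBS : Disjoint B S) (k : ℕ) :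
    Sv N lo X (S ∪ B) (fun a => es (fun p => u N p a) B k * F a) (es g B k * M)
      (es rho B k * E) := by
  have := Sv.sum (N := N) (lo := lo) (X := X) (S := S ∪ B) (B.powersetCard k)
    (fun t a => (∏ p ∈ t, u N p a) * F a) (fun t => (∏ p ∈ t, g p) * M)
    (fun t => (∏ p ∈ t, rho p) * E) (by
      intro t ht
      have htB := (mem_powersetCard.1 ht).1
      have := h.mul_prod t (fun p hp => hB p (htB hp)) (disjoint_of_subset_left htB hBS)
      exact this.mono (union_subset_union_right htB) le_rfl)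
  unfold es
  simp only [sum_mul]
  exact this

/-- Truncated inclusion-exclusion sum. -/
noncomputable def tr (x : ℕ → ℝ) (B : Finset ℕ) (b : ℕ) : ℝ :=
  ∑ k ∈ range (b + 1), (-1 : ℝ) ^ k * es x B k

theorem tr_zero (x : ℕ → ℝ) (B : Finset ℕ) : tr x B 0 = 1 := by
  unfold tr; simp [es_zero]

theorem tr_succ (x : ℕ → ℝ) (B : Finset ℕ) (b : ℕ) :
    tr x B (b + 1) = tr x B b + (-1 : ℝ) ^ (b + 1) * es x B (b + 1) := by
  unfold tr; rw [sum_range_succ]

theorem tr_empty (x : ℕ → ℝ) (b : ℕ) : tr x ∅ b = 1 := by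
  induction b with
  | zero => exact tr_zero _ _
  | succ b ih => rw [tr_succ, ih, es_empty_succ]; ring

theorem tr_insert_succ (x : ℕ → ℝ) {B : Finset ℕ} {p : ℕ} (hp : p ∉ B) (b : ℕ) :
    tr x (insert p B) (b + 1) = tr x B (b + 1) - x p * tr x B b := by
  induction b with
  | zero =>
    rw [tr_succ, tr_succ, tr_zero, tr_zero, es_insert x hp, es_zero]
    ring
  | succ b ih =>
    rw [tr_succ x (insert p B) (b + 1), ih, tr_succ x B (b + 1), tr_succ x B b, es_insert x hp]
    ring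

/-- Bonferroni inequalities for products. -/
theorem bonferroni {x : ℕ → ℝ} (B : Finset ℕ) (hx : ∀ p ∈ B, 0 ≤ x p ∧ x p ≤ 1) (b : ℕ) :
    0 ≤ (-1 : ℝ) ^ b * (tr x B b - ∏ p ∈ B, (1 - x p)) := by
  induction B using Finset.induction_on generalizing b with
  | empty => rw [tr_empty]; simp
  | insert p B hp ih =>
    have hx' : ∀ q ∈ B, 0 ≤ x q ∧ x q ≤ 1 := fun q hq => hx q (mem_insert_of_mem hq)
    have hp0 := (hx p (mem_insert_self _ _)).1
    have hp1 := (hx p (mem_insert_self _ _)).2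
    have hprod : 0 ≤ ∏ q ∈ B, (1 - x q) := prod_nonneg (fun q hq => by linarith [(hx' q hq).2])
    have hprod1 : ∏ q ∈ B, (1 - x q) ≤ 1 :=
      prod_le_one (fun q hq => by linarith [(hx' q hq).2]) (fun q hq => by linarith [(hx' q hq).1])
    rw [prod_insert hp]
    cases b with
    | zero =>
      rw [tr_zero]
      simp only [pow_zero, one_mul]
      nlinarith
    | succ b =>
      rw [tr_insert_succ x hp]
      have h1 := ih hx' (b + 1)
      have h2 := ih hx' b
      have : (-1 : ℝ) ^ (b + 1) * (tr x B (b + 1) - x p * tr x B b - (1 - x p) * ∏ q ∈ B, (1 - x q))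
        = (-1 : ℝ) ^ (b + 1) * (tr x B (b + 1) - ∏ q ∈ B, (1 - x q))
          + x p * ((-1 : ℝ) ^ b * (tr x B b - ∏ q ∈ B, (1 - x q))) := by
        rw [pow_succ]; ring
      rw [this]
      have := mul_nonneg hp0 h2
      linarith

theorem bonferroni_even {x : ℕ → ℝ} (B : Finset ℕ) (hx : ∀ p ∈ B, 0 ≤ x p ∧ x p ≤ 1) {b : ℕ}
    (hb : Even b) : ∏ p ∈ B, (1 - x p) ≤ tr x B b := by
  have := bonferroni B hx b
  rw [hb.neg_one_pow] at this
  linarith

theorem bonferroni_odd {x : ℕ → ℝ} (B : Finset ℕ) (hx : ∀ p ∈ B, 0 ≤ x p ∧ x p ≤ 1) {b : ℕ}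
    (hb : Odd b) : tr x B b ≤ ∏ p ∈ B, (1 - x p) := by
  have := bonferroni B hx b
  rw [hb.neg_one_pow] at this
  linarith

theorem es_le {x : ℕ → ℝ} (B : Finset ℕ) (hx : ∀ p ∈ B, 0 ≤ x p) (k : ℕ) :
    es x B k ≤ (∑ p ∈ B, x p) ^ k / k.factorial := by
  induction B using Finset.induction_on generalizing k with
  | empty =>
    cases k with
    | zero => simp [es_zero]
    | succ k => rw [es_empty_succ]; simp
  | insert p B hp ih =>
    have hx' : ∀ q ∈ B, 0 ≤ x q := fun q hq => hx q (mem_insert_of_mem hq)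
    have hp0 := hx p (mem_insert_self _ _)
    cases k with
    | zero => simp [es_zero]
    | succ k =>
      rw [es_insert x hp, sum_insert hp]
      have h1 := ih hx' (k + 1)
      have h2 := ih hx' k
      have h3 := mul_le_mul_of_nonneg_left h2 hp0
      set L := ∑ q ∈ B, x q with hL
      have hL0 : 0 ≤ L := sum_nonneg hx'
      have h4 : L ^ (k + 1) + (k + 1 : ℕ) * x p * L ^ k ≤ (x p + L) ^ (k + 1) := by
        rcases eq_or_lt_of_le hL0 with h0 | h0
        · rw [← h0]
          cases k with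
          | zero => simp
          | succ k => simp; positivity
        · have := one_add_mul_le_pow (a := x p / L) (by
            have : 0 ≤ x p / L := by positivity
            linarith) (k + 1)
          have h5 : (x p + L) ^ (k + 1) = L ^ (k + 1) * (1 + x p / L) ^ (k + 1) := by
            rw [← mul_pow]; congr 1; field_simp; ring
          rw [h5]
          calc L ^ (k + 1) + (k + 1 : ℕ) * x p * L ^ k
              = L ^ (k + 1) * (1 + (k + 1 : ℕ) * (x p / L)) := by
                rw [pow_succ]; field_simp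
            _ ≤ L ^ (k + 1) * (1 + x p / L) ^ (k + 1) :=
                mul_le_mul_of_nonneg_left (by exact_mod_cast this) (by positivity)
      have hf : (0 : ℝ) < (k + 1).factorial := by positivity
      have hf' : (0 : ℝ) < k.factorial := by positivity
      have h6 : ((k + 1).factorial : ℝ) = (k + 1) * k.factorial := by
        rw [Nat.factorial_succ]; push_cast; ring
      calc es x B (k + 1) + x p * es x B k
          ≤ L ^ (k + 1) / (k + 1).factorial + x p * (L ^ k / k.factorial) := add_le_add h1 h3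
        _ = (L ^ (k + 1) + (k + 1 : ℕ) * x p * L ^ k) / (k + 1).factorial := by
            rw [h6]; push_cast; field_simp
        _ ≤ (x p + L) ^ (k + 1) / (k + 1).factorial := by
            apply div_le_div_of_nonneg_right h4 hf.le

end Pool.Agent.H91.Gold
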