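import Mathlib
import Pool.Agent.H91.GoldSieve

/-!
The chain of blocks (Brun and Hooley) for the sieve of `GoldSieve`.
-/

namespace Pool.Agent.H91.Gold

open Finset

theorem Sv.congr {N lo : ℤ} {X : ℕ} {S : Finset ℕ} {F F' : ℤ → ℝ} {M M' E E' : ℝ}
    (h : Sv N lo X S F M E) (hF : ∀ a, F a = F' a) (hM : M = M') (hE : E = E') :
    Sv N lo X S F' M' E' := by
  have : F = F' := funext hF
  subst this hM hE
  exact h

/-- Multiplication by a truncated inclusion-exclusion sum. -/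
theorem Sv.mul_tr {N lo : ℤ} {X : ℕ} {S : Finset ℕ} {F : ℤ → ℝ} {M E : ℝ}
    (h : Sv N lo X S F M E) (B : Finset ℕ) (hB : ∀ p ∈ B, p.Prime) (hBS : Disjoint B S) (b : ℕ) :
    Sv N lo X (S ∪ B) (fun a => tr (fun p => u N p a) B b * F a) (tr g B b * M)
      ((∑ k ∈ range (b + 1), es rho B k) * E) := by
  have := Sv.sum (N := N) (lo := lo) (X := X) (S := S ∪ B) (range (b + 1))
    (fun k a => (-1 : ℝ) ^ k * (es (fun p => u N p a) B k * F a)) (fun k => (-1 : ℝ) ^ k * (es g B k * M))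
    (fun k => |(-1 : ℝ) ^ k| * (es rho B k * E)) (by
      intro k _
      exact (h.mul_es B hB hBS k).smul ((-1 : ℝ) ^ k))
  apply this.congr
  · intro a
    unfold tr
    rw [sum_mul]
    apply sum_congr rfl; intro k _; ring
  · unfold tr
    rw [sum_mul]
    apply sum_congr rfl; intro k _; ring
  · rw [sum_mul]
    apply sum_congr rfl; intro k _
    rw [abs_pow]; simp

/-- Indicator that no forbidden class is met for the primes in `S`. -/
noncomputable def nf (N : ℤ) (S : Finset ℕ) (a : ℤ) : ℝ := ∏ p ∈ S, (1 - u N p a)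

theorem nf_nonneg (N : ℤ) (S : Finset ℕ) (a : ℤ) : 0 ≤ nf N S a :=
  prod_nonneg (fun p _ => by linarith [u_le_one N p a])

theorem nf_union (N : ℤ) {S B : Finset ℕ} (h : Disjoint B S) (a : ℤ) :
    nf N (S ∪ B) a = nf N S a * nf N B a := by
  unfold nf; rw [prod_union h.symm]

/-- The exact density of the integers without forbidden classes for the primes in `S`. -/
noncomputable def VV (S : Finset ℕ) : ℝ := ∏ p ∈ S, (1 - g p)

theorem VV_union {S B : Finset ℕ} (h : Disjoint B S) : VV (S ∪ B) = VV S * VV B := by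
  unfold VV; rw [prod_union h.symm]

theorem VV_pos {S : Finset ℕ} (h : ∀ p ∈ S, p.Prime) : 0 < VV S := by
  apply prod_pos
  intro p hp
  linarith [g_le (h p hp)]

/-- Existence of an upper and a lower sieve weight built with the same blocks. -/
def Chain (N lo : ℤ) (X : ℕ) (S : Finset ℕ) (F G EU EL : ℝ) : Prop :=
  ∃ (U L : ℤ → ℝ) (MU ML : ℝ), (∀ a, nf N S a ≤ U a) ∧ (∀ a, L a ≤ nf N S a) ∧
    Sv N lo X S U MU EU ∧ Sv N lo X S L ML EL ∧ VV S ≤ MU ∧ MU ≤ F * VV S ∧ (1 - G) * MU ≤ ML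

theorem Chain_empty (N lo : ℤ) (X : ℕ) : Chain N lo X ∅ 1 0 1 1 := by
  refine ⟨fun _ => 1, fun _ => 1, 1, 1, ?_, ?_, Sv_one N lo X, Sv_one N lo X, ?_, ?_, ?_⟩
  · intro a; simp [nf]
  · intro a; simp [nf]
  · simp [VV]
  · simp [VV]
  · simp

theorem Chain.mono {N lo : ℤ} {X : ℕ} {S : Finset ℕ} {F G EU EL F' G' EU' EL' : ℝ}
    (h : Chain N lo X S F G EU EL) (hS : ∀ p ∈ S, p.Prime) (hF : F ≤ F') (hG : G ≤ G')
    (hU : EU ≤ EU') (hL : EL ≤ EL') : Chain N lo X S F' G' EU' EL' := by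
  obtain ⟨U, L, MU, ML, h1, h2, h3, h4, h5, h6, h7⟩ := h
  refine ⟨U, L, MU, ML, h1, h2, h3.mono le_rfl hU, h4.mono le_rfl hL, h5, ?_, ?_⟩
  · exact h6.trans (mul_le_mul_of_nonneg_right hF (VV_pos hS).le)
  · refine le_trans ?_ h7
    apply mul_le_mul_of_nonneg_right (by linarith)
    exact (VV_pos hS).le.trans h5

theorem Chain.step {N lo : ℤ} {X : ℕ} {S B : Finset ℕ} {F G EU EL : ℝ}
    (h : Chain N lo X S F G EU EL) (hS : ∀ p ∈ S, p.Prime) (hB : ∀ p ∈ B, p.Prime) (hBS : Disjoint B S)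
    {b : ℕ} (hb : Even b) {ε A T : ℝ} (hε : es g B (b + 1) ≤ ε * VV B)
    (hA : ∑ k ∈ range (b + 1), es rho B k ≤ A) (hT : es rho B (b + 1) ≤ T) :
    Chain N lo X (S ∪ B) (F * (1 + ε)) (G + ε) (A * EU) (A * EL + T * EU) := by
  obtain ⟨U, L, MU, ML, h1, h2, h3, h4, h5, h6, h7⟩ := h
  have hEU := h3.E_nonneg
  have hEL := h4.E_nonneg
  have hu : ∀ a, ∀ p ∈ B, 0 ≤ u N p a ∧ u N p a ≤ 1 := fun a p _ => ⟨u_nonneg N p a, u_le_one N p a⟩
  have hg : ∀ p ∈ B, 0 ≤ g p ∧ g p ≤ 1 := fun p hp => ⟨g_nonneg p, by linarith [g_le (hB p hp)]⟩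
  have hVB := VV_pos hB
  have hVS := VV_pos hS
  have hes : 0 ≤ es g B (b + 1) := es_nonneg (fun p hp => (hg p hp).1) _
  have hε0 : 0 ≤ ε := by
    by_contra hc
    push Not at hc
    nlinarith
  have t1 : VV B ≤ tr g B b := bonferroni_even B hg hb
  have t2 : tr g B b ≤ VV B + es g B (b + 1) := by
    have := bonferroni_odd B hg (b := b + 1) hb.add_one
    rw [tr_succ, hb.add_one.neg_one_pow] at this
    have e : VV B = ∏ p ∈ B, (1 - g p) := rfl
    linarith
  have hMU : 0 < MU := lt_of_lt_of_le hVS h5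
  refine ⟨fun a => tr (fun p => u N p a) B b * U a,
    fun a => tr (fun p => u N p a) B b * L a + (-1) * (es (fun p => u N p a) B (b + 1) * U a),
    tr g B b * MU, tr g B b * ML + (-1) * (es g B (b + 1) * MU), ?_, ?_, ?_, ?_, ?_, ?_, ?_⟩
  · intro a
    rw [nf_union N hBS, mul_comm]
    apply mul_le_mul _ (h1 a) (nf_nonneg _ _ _)
    · exact (nf_nonneg N B a).trans (bonferroni_even B (hu a) hb)
    · exact bonferroni_even B (hu a) hb
  · intro a
    rw [nf_union N hBS, mul_comm (nf N S a)]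
    have e1 : nf N B a ≤ tr (fun p => u N p a) B b := bonferroni_even B (hu a) hb
    have e2 : tr (fun p => u N p a) B b - es (fun p => u N p a) B (b + 1) ≤ nf N B a := by
      have := bonferroni_odd B (hu a) (b := b + 1) hb.add_one
      rw [tr_succ, hb.add_one.neg_one_pow] at this
      have e : nf N B a = ∏ p ∈ B, (1 - u N p a) := rfl
      linarith
    have e3 : 0 ≤ es (fun p => u N p a) B (b + 1) := es_nonneg (fun p hp => (hu a p hp).1) _
    have e4 := nf_nonneg N B a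
    have e5 := nf_nonneg N S a
    have e6 : tr (fun p => u N p a) B b * L a ≤ tr (fun p => u N p a) B b * nf N S a :=
      mul_le_mul_of_nonneg_left (h2 a) (e4.trans e1)
    have e7 : es (fun p => u N p a) B (b + 1) * nf N S a ≤ es (fun p => u N p a) B (b + 1) * U a :=
      mul_le_mul_of_nonneg_left (h1 a) e3
    nlinarith [mul_le_mul_of_nonneg_right e2 e5]
  · have := (h3.mul_tr B hB hBS b)
    exact this.mono le_rfl (mul_le_mul_of_nonneg_right hA hEU)
  · have k1 := (h4.mul_tr B hB hBS b)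
    have k2 := (h3.mul_es B hB hBS (b + 1)).smul (-1)
    refine (k1.add k2).mono le_rfl ?_
    rw [abs_neg, abs_one, one_mul]
    exact add_le_add (mul_le_mul_of_nonneg_right hA hEL) (mul_le_mul_of_nonneg_right hT hEU)
  · rw [VV_union hBS, mul_comm]
    exact mul_le_mul t1 h5 hVS.le (hVB.le.trans t1)
  · rw [VV_union hBS]
    calc tr g B b * MU ≤ ((1 + ε) * VV B) * (F * VV S) := by
          apply mul_le_mul _ h6 hMU.le (by positivity)
          linarith
      _ = F * (1 + ε) * (VV S * VV B) := by ring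
  · have k1 : (1 - G) * MU * tr g B b ≤ ML * tr g B b :=
      mul_le_mul_of_nonneg_right h7 (hVB.le.trans t1)
    have k2 : es g B (b + 1) ≤ ε * tr g B b := hε.trans (mul_le_mul_of_nonneg_left t1 hε0)
    have k3 := mul_le_mul_of_nonneg_right k2 hMU.le
    nlinarith

/-- Enlarging the set of primes without changing the weights; only the upper bound survives. -/
theorem Chain.skip {N lo : ℤ} {X : ℕ} {S B : Finset ℕ} {F G EU EL : ℝ}
    (h : Chain N lo X S F G EU EL) (hS : ∀ p ∈ S, p.Prime) (hB : ∀ p ∈ B, p.Prime) (hBS : Disjoint B S)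
    {v : ℝ} (hv : 1 ≤ v * VV B) : Chain N lo X (S ∪ B) (F * v) 1 EU EU := by
  obtain ⟨U, L, MU, ML, h1, h2, h3, h4, h5, h6, h7⟩ := h
  have hg : ∀ p ∈ B, 0 ≤ g p ∧ g p ≤ 1 := fun p hp => ⟨g_nonneg p, by linarith [g_le (hB p hp)]⟩
  have hVB := VV_pos hB
  have hVS := VV_pos hS
  have hMU : 0 < MU := lt_of_lt_of_le hVS h5
  have hVB1 : VV B ≤ 1 := prod_le_one (fun p hp => by linarith [(hg p hp).2]) (fun p hp => by linarith [(hg p hp).1])
  have hF : 0 < F := by
    by_contra hc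
    push Not at hc
    nlinarith
  refine ⟨U, fun _ => 0 * 1, MU, 0 * 1, ?_, ?_, h3.mono subset_union_left le_rfl, ?_, ?_, ?_, ?_⟩
  · intro a
    rw [nf_union N hBS]
    have e1 : nf N B a ≤ 1 := prod_le_one (fun p hp => by linarith [u_le_one N p a])
      (fun p hp => by linarith [u_nonneg N p a])
    have e2 := nf_nonneg N S a
    have e3 := h1 a
    nlinarith
  · intro a
    rw [zero_mul]
    exact nf_nonneg _ _ _
  · have := ((Sv_one N lo X).smul 0).mono (empty_subset (S ∪ B)) (E' := EU) (by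
      have := h3.E_nonneg
      simpa using this)
    exact this
  · rw [VV_union hBS]
    nlinarith
  · rw [VV_union hBS]
    calc MU ≤ F * VV S := h6
      _ = F * VV S * 1 := by ring
      _ ≤ F * VV S * (v * VV B) := mul_le_mul_of_nonneg_left hv (by positivity)
      _ = F * v * (VV S * VV B) := by ring
  · simp

end Pool.Agent.H91.Gold
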