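import Mathlib
import Pool.Agent.H91.GoldChain

/-!
The logarithmic weights of Richert combined with the sieve of `GoldChain`.
-/

namespace Pool.Agent.H91.Gold

open Finset

theorem Chain.lower {N lo : ℤ} {X : ℕ} {S : Finset ℕ} {F G EU EL : ℝ}
    (h : Chain N lo X S F G EU EL) (hG : G ≤ 1) :
    (X : ℝ) * ((1 - G) * VV S) - EL ≤ ∑ a ∈ Ioc lo (lo + X), nf N S a := by
  obtain ⟨U, L, MU, ML, h1, h2, h3, h4, h5, h6, h7⟩ := h
  have e := h4 1 0 ∅ one_pos (by simp) (by simp) (by simp) (by simp)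
  simp only [prod_empty, one_mul, mul_one, Nat.cast_one, div_one] at e
  have e1 := (abs_le.1 e).1
  have e2 : W N lo X 1 0 ∅ L = ∑ a ∈ Ioc lo (lo + X), L a := by
    unfold W ind
    apply sum_congr rfl
    intro a _
    simp [Int.modEq_one]
  rw [e2] at e1
  have e3 : ∑ a ∈ Ioc lo (lo + X), L a ≤ ∑ a ∈ Ioc lo (lo + X), nf N S a :=
    sum_le_sum (fun a _ => h2 a)
  have e4 : (X : ℝ) * ((1 - G) * VV S) ≤ X * ML := by
    apply mul_le_mul_of_nonneg_left _ (Nat.cast_nonneg X)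
    exact (mul_le_mul_of_nonneg_left h5 (by linarith)).trans h7
  linarith

theorem Chain.upper {N lo : ℤ} {X : ℕ} {S : Finset ℕ} {F G EU EL : ℝ}
    (h : Chain N lo X S F G EU EL) {q : ℕ} (hq : 0 < q) (hc : ∀ p ∈ S, Nat.Coprime p q) (c : ℤ) :
    ∑ a ∈ Ioc lo (lo + X), ind q c a * nf N S a ≤ (X : ℝ) / q * (F * VV S) + EU := by
  obtain ⟨U, L, MU, ML, h1, h2, h3, h4, h5, h6, h7⟩ := h
  have e := h3 q c ∅ hq (by simp) (by simp) (by simp) hc
  simp only [prod_empty, one_mul, mul_one] at e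
  have e1 := (abs_le.1 e).2
  have e2 : W N lo X q c ∅ U = ∑ a ∈ Ioc lo (lo + X), ind q c a * U a := by
    unfold W
    apply sum_congr rfl
    intro a _
    simp
  rw [e2] at e1
  have e3 : ∑ a ∈ Ioc lo (lo + X), ind q c a * nf N S a ≤ ∑ a ∈ Ioc lo (lo + X), ind q c a * U a :=
    sum_le_sum (fun a _ => mul_le_mul_of_nonneg_left (h1 a) (ind_nonneg _ _ _))
  have e4 : (X : ℝ) / q * MU ≤ X / q * (F * VV S) :=
    mul_le_mul_of_nonneg_left h6 (by positivity)
  linarith

/-- The combined weight of `a`. -/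
noncomputable def wt (N : ℤ) (P : Finset ℕ) (w : ℕ → ℝ) (a : ℤ) : ℝ :=
  ∑ p ∈ P, (w p * (ind p 0 a + ind p N a) + (ind (p ^ 2) 0 a + ind (p ^ 2) N a))

theorem exists_of_sieve {N lo : ℤ} {X : ℕ} {S P : Finset ℕ} {F G EU EL : ℝ}
    (h : Chain N lo X S F G EU EL) (hG : G ≤ 1) (hS : ∀ p ∈ S, p.Prime) (hP : ∀ p ∈ P, p.Prime)
    (hSP : Disjoint S P)
    (w Fp Gp EUp ELp : ℕ → ℝ) (hw : ∀ p ∈ P, 0 ≤ w p)
    (hup : ∀ p ∈ P, Chain N lo X S (Fp p) (Gp p) (EUp p) (ELp p))
    (hlt : ∑ p ∈ P, (2 * w p * ((X : ℝ) / p * (Fp p * VV S) + EUp p)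
        + 2 * ((X : ℝ) / (p ^ 2 : ℕ) * (Fp p * VV S) + EUp p))
      < (X : ℝ) * ((1 - G) * VV S) - EL) :
    ∃ a ∈ Ioc lo (lo + X), nf N S a ≠ 0 ∧ wt N P w a < 1 := by
  by_contra hcon
  push Not at hcon
  have h1 : ∑ a ∈ Ioc lo (lo + X), nf N S a * (1 - wt N P w a) ≤ 0 := by
    apply sum_nonpos
    intro a ha
    by_cases h0 : nf N S a = 0
    · rw [h0]; simp
    · have := hcon a ha h0
      have := nf_nonneg N S a
      nlinarith
  have h2 : ∑ a ∈ Ioc lo (lo + X), nf N S a * wt N P w a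
      ≤ ∑ p ∈ P, (2 * w p * ((X : ℝ) / p * (Fp p * VV S) + EUp p)
        + 2 * ((X : ℝ) / (p ^ 2 : ℕ) * (Fp p * VV S) + EUp p)) := by
    unfold wt
    simp only [mul_sum]
    rw [sum_comm]
    apply sum_le_sum
    intro p hp
    have hpp := hP p hp
    have hc1 : ∀ r ∈ S, Nat.Coprime r p := by
      intro r hr
      rw [Nat.coprime_primes (hS r hr) hpp]
      rintro rfl
      exact disjoint_left.1 hSP hr hp
    have hc2 : ∀ r ∈ S, Nat.Coprime r (p ^ 2) := fun r hr => Nat.Coprime.pow_right 2 (hc1 r hr)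
    have a1 := (hup p hp).upper hpp.pos hc1 0
    have a2 := (hup p hp).upper hpp.pos hc1 N
    have a3 := (hup p hp).upper (pow_pos hpp.pos 2) hc2 0
    have a4 := (hup p hp).upper (pow_pos hpp.pos 2) hc2 N
    have hwp := hw p hp
    have : ∑ a ∈ Ioc lo (lo + X), nf N S a * (w p * (ind p 0 a + ind p N a)
          + (ind (p ^ 2) 0 a + ind (p ^ 2) N a))
        = w p * (∑ a ∈ Ioc lo (lo + X), ind p 0 a * nf N S a + ∑ a ∈ Ioc lo (lo + X), ind p N a * nf N S a)
          + (∑ a ∈ Ioc lo (lo + X), ind (p ^ 2) 0 a * nf N S a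
            + ∑ a ∈ Ioc lo (lo + X), ind (p ^ 2) N a * nf N S a) := by
      rw [← sum_add_distrib, ← sum_add_distrib, mul_sum, ← sum_add_distrib]
      apply sum_congr rfl
      intro a _
      ring
    rw [this]
    have b1 : w p * (∑ a ∈ Ioc lo (lo + X), ind p 0 a * nf N S a + ∑ a ∈ Ioc lo (lo + X), ind p N a * nf N S a)
        ≤ w p * (2 * ((X : ℝ) / p * (Fp p * VV S) + EUp p)) := by
      apply mul_le_mul_of_nonneg_left _ hwp
      linarith
    linarith
  have h3 := h.lower hG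
  have h4 : ∑ a ∈ Ioc lo (lo + X), nf N S a * (1 - wt N P w a)
      = ∑ a ∈ Ioc lo (lo + X), nf N S a - ∑ a ∈ Ioc lo (lo + X), nf N S a * wt N P w a := by
    rw [← sum_sub_distrib]
    apply sum_congr rfl
    intro a _
    ring
  linarith

/-- The primes in the interval `(x, y]`. -/
def Pr (x y : ℕ) : Finset ℕ := (Ioc x y).filter Nat.Prime

theorem mem_Pr {x y p : ℕ} : p ∈ Pr x y ↔ (x < p ∧ p ≤ y) ∧ p.Prime := by
  unfold Pr; simp

theorem prime_of_Pr {x y p : ℕ} (h : p ∈ Pr x y) : p.Prime := (mem_Pr.1 h).2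

theorem Pr_union {x y z : ℕ} (h1 : x ≤ y) (h2 : y ≤ z) : Pr x y ∪ Pr y z = Pr x z := by
  ext p
  simp only [mem_union, mem_Pr]
  constructor
  · rintro (⟨⟨a, b⟩, c⟩ | ⟨⟨a, b⟩, c⟩)
    · exact ⟨⟨a, b.trans h2⟩, c⟩
    · exact ⟨⟨lt_of_le_of_lt h1 a, b⟩, c⟩
  · rintro ⟨⟨a, b⟩, c⟩
    rcases le_or_gt p y with h | h
    · exact Or.inl ⟨⟨a, h⟩, c⟩
    · exact Or.inr ⟨⟨h, b⟩, c⟩

theorem Pr_disjoint {x y z t : ℕ} (h : y ≤ z) : Disjoint (Pr z t) (Pr x y) := by
  rw [disjoint_left]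
  intro p h1 h2
  have := (mem_Pr.1 h1).1.1
  have := (mem_Pr.1 h2).1.2
  omega

/-- If the weight is small then `a` has few prime factors. -/
theorem omega_bound {z y : ℕ} (hy : 2 ≤ y) (hzy : z ≤ y) {a : ℕ} (ha : a ≠ 0)
    (h1 : ∀ p, p.Prime → p ≤ z → ¬ p ∣ a)
    (h2 : ∀ p ∈ Pr z y, ¬ p ^ 2 ∣ a) :
    (ArithmeticFunction.cardFactors a : ℝ) ≤ Real.log a / Real.log y
      + ∑ p ∈ Pr z y, (1 - Real.log p / Real.log y) * (if p ∣ a then 1 else 0) := by
  have hly : 0 < Real.log y := Real.log_pos (by exact_mod_cast hy)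
  have e1 : (ArithmeticFunction.cardFactors a : ℝ) = ∑ p ∈ a.primeFactors, (a.factorization p : ℝ) := by
    rw [ArithmeticFunction.cardFactors_eq_sum_factorization]
    unfold Finsupp.sum
    push_cast
    rfl
  have e2 : Real.log a = ∑ p ∈ a.primeFactors, (a.factorization p : ℝ) * Real.log p := by
    rw [Real.log_nat_eq_sum_factorization]
    rfl
  have e3 : (ArithmeticFunction.cardFactors a : ℝ) - Real.log a / Real.log y
      = ∑ p ∈ a.primeFactors, (a.factorization p : ℝ) * (1 - Real.log p / Real.log y) := by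
    rw [e1, e2, sum_div, ← sum_sub_distrib]
    apply sum_congr rfl
    intro p _
    ring
  have e4 : ∑ p ∈ a.primeFactors, (a.factorization p : ℝ) * (1 - Real.log p / Real.log y)
      ≤ ∑ p ∈ a.primeFactors.filter (fun p => p ∈ Pr z y), (1 - Real.log p / Real.log y) := by
    rw [sum_filter]
    apply sum_le_sum
    intro p hp
    have hpp := Nat.prime_of_mem_primeFactors hp
    have hpd := Nat.dvd_of_mem_primeFactors hp
    split_ifs with hc
    · have hsq := h2 p hc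
      have hf : a.factorization p ≤ 1 := by
        by_contra hcon
        push Not at hcon
        exact hsq ((hpp.pow_dvd_iff_le_factorization ha).2 hcon)
      have hle : Real.log p ≤ Real.log y :=
        Real.log_le_log (by exact_mod_cast hpp.pos) (by exact_mod_cast (mem_Pr.1 hc).1.2)
      have hf' : (a.factorization p : ℝ) ≤ 1 := by exact_mod_cast hf
      have : 0 ≤ 1 - Real.log p / Real.log y := by
        rw [sub_nonneg, div_le_one hly]; exact hle
      nlinarith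
    · have hgt : y < p := by
        by_contra hcon
        push Not at hcon
        apply hc
        rw [mem_Pr]
        refine ⟨⟨?_, hcon⟩, hpp⟩
        by_contra hcon2
        push Not at hcon2
        exact h1 p hpp hcon2 hpd
      have hle : Real.log y ≤ Real.log p :=
        Real.log_le_log (by positivity) (by exact_mod_cast hgt.le)
      have : 1 - Real.log p / Real.log y ≤ 0 := by
        rw [sub_nonpos, one_le_div hly]; exact hle
      have hf : (0 : ℝ) ≤ a.factorization p := by positivity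
      nlinarith
  have e5 : ∑ p ∈ a.primeFactors.filter (fun p => p ∈ Pr z y), (1 - Real.log p / Real.log y)
      = ∑ p ∈ Pr z y, (1 - Real.log p / Real.log y) * (if p ∣ a then 1 else 0) := by
    simp only [mul_ite, mul_one, mul_zero]
    rw [← sum_filter]
    apply sum_congr _ (fun _ _ => rfl)
    ext p
    simp only [mem_filter, Nat.mem_primeFactors]
    constructor
    · rintro ⟨⟨a1, a2, a3⟩, a4⟩
      exact ⟨a4, a2⟩
    · rintro ⟨a1, a2⟩
      exact ⟨⟨prime_of_Pr a1, a2, ha⟩, a1⟩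
  linarith

end Pool.Agent.H91.Gold
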