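import Mathlib
import Pool.Agent.H91.GoldWeight
import Pool.Agent.H91.GoldMertens

/-!
Numerical data on the primes up to `1024` and the resulting bounds for `∑ 1/p`.
-/

namespace Pool.Agent.H91.Gold

open Finset
open scoped ArithmeticFunction.vonMangoldt

/-- Computable primality test, correct below `1156`. -/
def isP (n : ℕ) : Bool := 2 ≤ n && (List.range 33).all (fun m => m < 2 || n ≤ m || n % m != 0)

theorem isP_iff {n : ℕ} (hn : n < 1156) : isP n = true ↔ n.Prime := by
  unfold isP
  simp only [Bool.and_eq_true, decide_eq_true_eq, List.all_eq_true, List.mem_range, Bool.or_eq_true,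
    bne_iff_ne, ne_eq]
  constructor
  · rintro ⟨h1, h2⟩
    by_contra hnp
    have h3 := Nat.minFac_sq_le_self (by omega) hnp
    have h4 := Nat.minFac_dvd n
    have h5 : 2 ≤ n.minFac := (Nat.minFac_prime (by omega)).two_le
    have h6 : n.minFac < 34 := by
      by_contra h
      push Not at h
      nlinarith
    have h7 : n.minFac < n := by
      rcases lt_or_eq_of_le (Nat.minFac_le (by omega : 0 < n)) with h | h
      · exact h
      · exact absurd (h ▸ Nat.minFac_prime (by omega)) hnp
    have h8 : n.minFac ≠ 33 := by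
      intro h
      have := Nat.minFac_prime (n := n) (by omega)
      rw [h] at this
      norm_num at this
    rcases h2 n.minFac (by omega) with (h | h) | h
    · omega
    · omega
    · exact h (Nat.mod_eq_zero_of_dvd h4)
  · intro hp
    refine ⟨hp.two_le, fun m _ => ?_⟩
    by_cases h1 : m < 2
    · exact Or.inl (Or.inl h1)
    · by_cases h2 : n ≤ m
      · exact Or.inl (Or.inr h2)
      · right
        intro h3
        have := (Nat.dvd_prime hp).1 (Nat.dvd_of_mod_eq_zero h3)
        omega

/-- The proper prime powers up to `1024`. -/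
def ppow : List (ℕ × ℕ) :=
  [(2, 2), (2, 3), (2, 4), (2, 5), (2, 6), (2, 7), (2, 8), (2, 9), (2, 10), (3, 2), (3, 3), (3, 4),
    (3, 5), (3, 6), (5, 2), (5, 3), (5, 4), (7, 2), (7, 3), (11, 2), (13, 2), (17, 2), (19, 2),
    (23, 2), (29, 2), (31, 2)]

/-- Base of a prime power below `1024` (the value `1` otherwise). -/
def lam (d : ℕ) : ℕ :=
  if isP d then d
  else match ppow.find? (fun x => x.1 ^ x.2 == d) with
    | some x => x.1
    | none => 1

theorem ppow_prime : ∀ x ∈ ppow, x.1.Prime ∧ x.2 ≠ 0 := by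
  have h : ∀ x ∈ ppow, isP x.1 = true ∧ x.1 < 1156 ∧ x.2 ≠ 0 := by decide +kernel
  intro x hx
  have := h x hx
  exact ⟨(isP_iff this.2.1).1 this.1, this.2.2⟩

theorem log_lam_le {d : ℕ} (hd : d ≤ 1024) : Real.log (lam d) ≤ Λ d := by
  unfold lam
  by_cases h : isP d = true
  · rw [if_pos h, ArithmeticFunction.vonMangoldt_apply_prime ((isP_iff (by omega)).1 h)]
  · rw [if_neg h]
    cases hf : ppow.find? (fun x => x.1 ^ x.2 == d) with
    | none =>
      simp only [Nat.cast_one, Real.log_one]
      exact ArithmeticFunction.vonMangoldt_nonneg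
    | some x =>
      simp only
      have h1 := List.find?_some hf
      have h2 := List.mem_of_find?_eq_some hf
      have h3 := ppow_prime x h2
      simp only [beq_iff_eq] at h1
      rw [← h1, ArithmeticFunction.vonMangoldt_apply_pow h3.2,
        ArithmeticFunction.vonMangoldt_apply_prime h3.1]

theorem lam_prod : 2 ^ 597566 ≤ (List.range' 1 1024).foldr (fun d r => lam d ^ (65536 / d) * r) 1 := by
  decide +kernel

theorem lam_pos (d : ℕ) : 0 < lam d := by
  unfold lam
  by_cases h : isP d = true
  · rw [if_pos h]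
    unfold isP at h
    simp only [Bool.and_eq_true, decide_eq_true_eq] at h
    omega
  · rw [if_neg h]
    cases hf : ppow.find? (fun x => x.1 ^ x.2 == d) with
    | none => norm_num
    | some x =>
      simp only
      exact (ppow_prime x (List.mem_of_find?_eq_some hf)).1.pos

theorem log_fold (l : List ℕ) :
    Real.log ((l.foldr (fun d r => lam d ^ (65536 / d) * r) 1 : ℕ) : ℝ)
      = (l.map (fun d => ((65536 / d : ℕ) : ℝ) * Real.log (lam d))).sum
      ∧ 0 < l.foldr (fun d r => lam d ^ (65536 / d) * r) 1 := by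
  induction l with
  | nil => simp
  | cons d l ih =>
    have h1 : 0 < lam d ^ (65536 / d) := pow_pos (lam_pos d) _
    refine ⟨?_, ?_⟩
    · rw [List.foldr_cons, List.map_cons, List.sum_cons, ← ih.1, Nat.cast_mul, Real.log_mul,
        Nat.cast_pow, Real.log_pow]
      · exact_mod_cast h1.ne'
      · exact_mod_cast ih.2.ne'
    · rw [List.foldr_cons]
      exact Nat.mul_pos h1 ih.2

theorem Mt_1024 : (6.3202 : ℝ) ≤ Mt 1024 := by
  have h1 : Real.log ((2 ^ 597566 : ℕ) : ℝ) ≤ Real.log (((List.range' 1 1024).foldr (fun d r => lam d ^ (65536 / d) * r) 1 : ℕ) : ℝ) := by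
    apply Real.log_le_log (by positivity)
    exact_mod_cast lam_prod
  rw [(log_fold _).1] at h1
  have h2 : ((List.range' 1 1024).map (fun d => ((65536 / d : ℕ) : ℝ) * Real.log (lam d))).sum
      = ∑ d ∈ Ioc 0 1024, ((65536 / d : ℕ) : ℝ) * Real.log (lam d) := rfl
  rw [h2] at h1
  have h3 : ∑ d ∈ Ioc 0 1024, ((65536 / d : ℕ) : ℝ) * Real.log (lam d) ≤ 65536 * Mt 1024 := by
    unfold Mt
    rw [mul_sum]
    apply sum_le_sum
    intro d hd
    rw [mem_Ioc] at hd
    have k1 := log_lam_le hd.2
    have k2 := @Nat.cast_div_le ℝ _ _ _ 65536 d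
    have k3 : 0 ≤ Real.log (lam d) := Real.log_natCast_nonneg _
    have k4 : (0 : ℝ) < d := by exact_mod_cast hd.1
    calc ((65536 / d : ℕ) : ℝ) * Real.log (lam d) ≤ ((65536 : ℕ) : ℝ) / d * Λ d := by
          apply mul_le_mul k2 k1 k3 (by positivity)
      _ = 65536 * (Λ d / d) := by push_cast; ring
  rw [Nat.cast_pow, Real.log_pow] at h1
  have l2 := Real.log_two_gt_d9
  push_cast at h1
  nlinarith

/-- Passing from a Mertens type bound for `∑ log p / p` to one for `∑ 1 / p`. -/
theorem mertens_gen {w z : ℕ} (hw : 2 ≤ w) (hwz : w ≤ z) {c : ℝ} (hc : 0 ≤ c)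
    (h : ∀ m, w ≤ m → m ≤ z → Mt m - Mt w ≤ Real.log m - Real.log w + c) :
    ∑ p ∈ Pr w z, (1 : ℝ) / p ≤ Real.log (Real.log z / Real.log w) + c / Real.log w := by
  have hlw : 0 < Real.log w := Real.log_pos (by exact_mod_cast (by omega : 1 < w))
  have hlog : ∀ k : ℕ, w ≤ k → 0 < Real.log k := by
    intro k hk
    apply Real.log_pos
    exact_mod_cast (by omega : 1 < k)
  have h1 : ∑ p ∈ Pr w z, (1 : ℝ) / p
      = ∑ k ∈ Ioc w z, (if k.Prime then Real.log k / k else 0) * (1 / Real.log k) := by
    unfold Pr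
    rw [sum_filter]
    apply sum_congr rfl
    intro k hk
    rw [mem_Ioc] at hk
    split_ifs with hp
    · have := (hlog k hk.1.le).ne'
      field_simp
    · simp
  have h2 : ∑ k ∈ Ioc w z, (if k.Prime then Real.log k / k else 0) * (1 / Real.log k)
      ≤ ∑ k ∈ Ioc w z, (Real.log k - Real.log (k - 1 : ℕ)) * (1 / Real.log k)
        + c * (1 / Real.log ((w + 1 : ℕ) : ℝ)) := by
    apply abel_le hwz hc
    · intro k hk1 _
      have := hlog k hk1.le
      positivity
    · have := hlog (w + 1) (by omega)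
      positivity
    · intro k hk1 _
      have := hlog k hk1.le
      apply one_div_le_one_div_of_le this
      apply Real.log_le_log
      · exact_mod_cast (by omega : 0 < k)
      · push_cast; linarith
    · intro m hm1 hm2
      have e1 : ∑ k ∈ Ioc w m, (Real.log k - Real.log (k - 1 : ℕ)) = Real.log m - Real.log w := by
        clear hm2
        induction m, hm1 using Nat.le_induction with
        | base => simp
        | succ m hm ih =>
          rw [sum_Ioc_succ_top (by omega), ih]
          simp
      have e2 : ∑ k ∈ Ioc w m, (if k.Prime then Real.log k / k else 0) ≤ Mt m - Mt w := by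
        have e3 : Mt m - Mt w = ∑ k ∈ Ioc w m, Λ k / k := by
          unfold Mt
          rw [← sum_Ioc_consecutive _ (Nat.zero_le w) hm1]
          ring
        rw [e3]
        apply sum_le_sum
        intro k _
        split_ifs with hp
        · rw [ArithmeticFunction.vonMangoldt_apply_prime hp]
        · have := ArithmeticFunction.vonMangoldt_nonneg (n := k)
          positivity
      rw [e1]
      exact e2.trans (h m hm1 hm2)
  have h3 : ∀ m, w ≤ m → ∑ k ∈ Ioc w m, (Real.log k - Real.log (k - 1 : ℕ)) * (1 / Real.log k)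
      ≤ Real.log (Real.log m) - Real.log (Real.log w) := by
    intro m hm
    induction m, hm using Nat.le_induction with
    | base => simp
    | succ m hm ih =>
      rw [sum_Ioc_succ_top (by omega)]
      have a1 := hlog m hm
      have a2 := hlog (m + 1) (by omega)
      have a3 : (Real.log ((m + 1 : ℕ) : ℝ) - Real.log (m + 1 - 1 : ℕ)) * (1 / Real.log ((m + 1 : ℕ) : ℝ))
          ≤ Real.log (Real.log ((m + 1 : ℕ) : ℝ)) - Real.log (Real.log m) := by
        have b1 := Real.log_le_sub_one_of_pos (x := Real.log m / Real.log ((m + 1 : ℕ) : ℝ)) (by positivity)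
        rw [Real.log_div a1.ne' a2.ne'] at b1
        rw [Nat.add_sub_cancel]
        have b2 : (Real.log ((m + 1 : ℕ) : ℝ) - Real.log m) * (1 / Real.log ((m + 1 : ℕ) : ℝ))
            = 1 - Real.log m / Real.log ((m + 1 : ℕ) : ℝ) := by
          field_simp
        rw [b2]
        linarith
      linarith
  have h4 := h3 z hwz
  have h5 : c * (1 / Real.log ((w + 1 : ℕ) : ℝ)) ≤ c / Real.log w := by
    rw [mul_one_div]
    apply div_le_div_of_nonneg_left hc hlw
    apply Real.log_le_log
    · exact_mod_cast (by omega : 0 < w)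
    · push_cast; linarith
  rw [h1, Real.log_div (hlog z hwz).ne' hlw.ne']
  linarith

theorem log_pow_ratio {j k : ℕ} (hj : 1 ≤ j) :
    Real.log ((2 ^ k : ℕ) : ℝ) / Real.log ((2 ^ j : ℕ) : ℝ) = (k : ℝ) / j := by
  have h2 : 0 < Real.log 2 := Real.log_pos (by norm_num)
  have hj0 : (0 : ℝ) < j := by exact_mod_cast hj
  push_cast
  rw [Real.log_pow, Real.log_pow]
  field_simp

/-- Upper bound for the sum of `1/p` between two large powers of two. -/
theorem mertens_pow {j k : ℕ} (hj : 10 ≤ j) (hjk : j ≤ k) :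
    ∑ p ∈ Pr (2 ^ j) (2 ^ k), (1 : ℝ) / p ≤ Real.log ((k : ℝ) / j) + 1.6 / j := by
  have hj' : 1024 ≤ 2 ^ j := by
    calc 1024 = 2 ^ 10 := by norm_num
      _ ≤ 2 ^ j := Nat.pow_le_pow_right (by norm_num) hj
  have h := mertens_gen (w := 2 ^ j) (z := 2 ^ k) (by omega) (Nat.pow_le_pow_right (by norm_num) hjk)
    (c := 1.0818) (by norm_num) (by
      intro m hm1 _
      have a1 := Mt_le m (by omega)
      have a2 := Mt_ge (2 ^ j) (by omega)
      linarith)
  rw [log_pow_ratio (by omega)] at h
  refine h.trans ?_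
  have l2 := Real.log_two_gt_d9
  have hj0 : (0 : ℝ) < j := by exact_mod_cast (by omega : 0 < j)
  have : 1.0818 / Real.log ((2 ^ j : ℕ) : ℝ) ≤ 1.6 / j := by
    push_cast
    rw [Real.log_pow, div_le_div_iff₀ (by positivity) hj0]
    nlinarith
  linarith

/-- Upper bound for the sum of `1/p` from `1024` on. -/
theorem mertens_pow_ten {k : ℕ} (hk : 10 ≤ k) :
    ∑ p ∈ Pr 1024 (2 ^ k), (1 : ℝ) / p ≤ Real.log ((k : ℝ) / 10) + 1 / 10 := by
  have hj' : 1024 ≤ 2 ^ k := by
    calc 1024 = 2 ^ 10 := by norm_num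
      _ ≤ 2 ^ k := Nat.pow_le_pow_right (by norm_num) hk
  have e10 : Real.log ((1024 : ℕ) : ℝ) = 10 * Real.log 2 := by
    rw [show ((1024 : ℕ) : ℝ) = (2 : ℝ) ^ (10 : ℕ) by norm_num, Real.log_pow]
    norm_num
  have l2 := Real.log_two_gt_d9
  have l2' := Real.log_two_lt_d9
  have h := mertens_gen (w := 1024) (z := 2 ^ k) (by norm_num) hj'
    (c := 0.6931) (by norm_num) (by
      intro m hm1 _
      have a1 := Mt_le m (by omega)
      have a2 := Mt_1024
      rw [e10]
      linarith)
  have e : Real.log ((2 ^ k : ℕ) : ℝ) / Real.log ((1024 : ℕ) : ℝ) = (k : ℝ) / 10 := by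
    have := log_pow_ratio (j := 10) (k := k) (by norm_num)
    norm_num at this ⊢
    exact this
  rw [e] at h
  refine h.trans ?_
  have : 0.6931 / Real.log ((1024 : ℕ) : ℝ) ≤ 1 / 10 := by
    rw [e10, div_le_div_iff₀ (by positivity) (by norm_num)]
    linarith
  linarith

end Pool.Agent.H91.Gold
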