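import Mathlib
import Pool.Agent.H91.GoldPrimeData

/-!
Rigorous numerical bounds (natural numbers scaled by `SC`) for the quantities of the sieve.
-/

namespace Pool.Agent.H91.Gold

open Finset

/-- Scaling factor. -/
def SC : ℕ := 100000000

theorem SC_pos : (0 : ℝ) < (SC : ℝ) := by unfold SC; norm_num

theorem div_up (a b : ℕ) (hb : 0 < b) : (a : ℝ) / b ≤ ((a / b + 1 : ℕ) : ℝ) := by
  have hb' : (0 : ℝ) < b := by exact_mod_cast hb
  rw [div_le_iff₀ hb']
  have h1 := Nat.div_add_mod a b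
  have h2 := Nat.mod_lt a hb
  have h3 : a ≤ (a / b + 1) * b := by nlinarith
  exact_mod_cast h3

/-- Tables for the octaves `(2^j, 2^(j+1)]`, `j < 10`. -/
def sO (j : ℕ) : ℕ := [50000001, 33333334, 34285716, 16783218, 22167421, 14816024, 14381364,
  12596871, 11702324, 10135726].getD j 0

def qO (j : ℕ) : ℕ := [25000001, 11111112, 6040818, 1418163, 1035032, 323093, 165089, 71686,
  33253, 14270].getD j 0

def nO (j : ℕ) : ℕ := [1, 1, 2, 2, 5, 7, 13, 23, 43, 75].getD j 0

def vO (j : ℕ) : ℕ := [200000001, 300000001, 233333334, 144444445, 159282775, 135389052,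
  133774070, 128837547, 126454635, 122507120].getD j 0

/-- Sum over a range, by structural recursion. -/
def sumR (f : ℕ → ℕ) : ℕ → ℕ → ℕ
  | _, 0 => 0
  | j, d + 1 => f j + sumR f (j + 1) d

theorem Pr_eq_isP {x y : ℕ} (hy : y < 1156) : Pr x y = (Ioc x y).filter (fun n => isP n = true) := by
  unfold Pr
  apply filter_congr
  intro n hn
  rw [mem_Ioc] at hn
  rw [isP_iff (by omega)]

/-- The list of primes in an octave. -/
def pl (j : ℕ) : List ℕ := (List.range' (2 ^ j + 1) (2 ^ j)).filter isP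

theorem Pr_octave {j : ℕ} (hj : j < 10) : Pr (2 ^ j) (2 ^ (j + 1)) = (pl j).toFinset := by
  have h2 : 2 ^ (j + 1) ≤ 2 ^ 10 := Nat.pow_le_pow_right (by norm_num) (by omega)
  rw [Pr_eq_isP (by omega)]
  ext n
  simp only [mem_filter, mem_Ioc, pl, List.mem_toFinset, List.mem_filter, List.mem_range'_1]
  have : 2 ^ (j + 1) = 2 ^ j + 2 ^ j := by ring
  constructor
  · rintro ⟨h, h'⟩; exact ⟨⟨by omega, by omega⟩, h'⟩
  · rintro ⟨h, h'⟩; exact ⟨⟨by omega, by omega⟩, h'⟩

theorem pl_nodup (j : ℕ) : (pl j).Nodup := List.Nodup.filter _ List.nodup_range'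

theorem octave_check : ∀ j ∈ List.range 10,
    ((pl j).map (fun p => SC / p + 1)).sum ≤ sO j ∧
    ((pl j).map (fun p => SC / (p * p) + 1)).sum ≤ qO j ∧
    (pl j).length = nO j ∧
    (∀ p ∈ pl j, 2 ≤ p ∧ (1 ≤ j → 3 ≤ p)) := by
  decide +kernel

theorem octave_v : ∀ j ∈ List.range 10, 1 ≤ j →
    SC * ((pl j).map (fun p => p)).prod ≤ vO j * ((pl j).map (fun p => p - 2)).prod := by
  decide +kernel

theorem octave_s {j : ℕ} (hj : j < 10) :
    ∑ p ∈ Pr (2 ^ j) (2 ^ (j + 1)), (1 : ℝ) / p ≤ (sO j : ℝ) / SC := by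
  have h := (octave_check j (List.mem_range.2 hj))
  rw [Pr_octave hj, List.sum_toFinset _ (pl_nodup j), le_div_iff₀ SC_pos]
  have h1 : (((pl j).map (fun p : ℕ => (1 : ℝ) / p)).sum) * SC ≤ (((pl j).map (fun p => SC / p + 1)).sum : ℕ) := by
    have h4 := h.2.2.2
    revert h4
    generalize pl j = l
    intro h4
    induction l with
    | nil => simp
    | cons p l ih =>
      simp only [List.map_cons, List.sum_cons, add_mul]
      have h5 := ih (fun q hq => h4 q (List.mem_cons_of_mem _ hq))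
      have h6 := (h4 p List.mem_cons_self).1
      have h7 := div_up SC p (by omega)
      push_cast at h5 h7 ⊢
      have h8 : (1 : ℝ) / p * SC = SC / p := by ring
      rw [h8]
      linarith
  refine h1.trans ?_
  exact_mod_cast h.1

theorem octave_q {j : ℕ} (hj : j < 10) :
    ∑ p ∈ Pr (2 ^ j) (2 ^ (j + 1)), (1 : ℝ) / (p ^ 2 : ℕ) ≤ (qO j : ℝ) / SC := by
  have h := (octave_check j (List.mem_range.2 hj))
  rw [Pr_octave hj, List.sum_toFinset _ (pl_nodup j), le_div_iff₀ SC_pos]
  have h1 : (((pl j).map (fun p : ℕ => (1 : ℝ) / (p ^ 2 : ℕ))).sum) * SC ≤ (((pl j).map (fun p => SC / (p * p) + 1)).sum : ℕ) := by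
    have h4 := h.2.2.2
    revert h4
    generalize pl j = l
    intro h4
    induction l with
    | nil => simp
    | cons p l ih =>
      simp only [List.map_cons, List.sum_cons, add_mul]
      have h5 := ih (fun q hq => h4 q (List.mem_cons_of_mem _ hq))
      have h6 := (h4 p List.mem_cons_self).1
      have h7 := div_up SC (p * p) (by positivity)
      push_cast at h5 h7 ⊢
      have h8 : (1 : ℝ) / (p : ℝ) ^ 2 * SC = SC / (p * p) := by ring
      rw [h8]
      linarith
  refine h1.trans ?_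
  exact_mod_cast h.2.1

theorem octave_n {j : ℕ} (hj : j < 10) : (Pr (2 ^ j) (2 ^ (j + 1))).card = nO j := by
  have h := (octave_check j (List.mem_range.2 hj))
  rw [Pr_octave hj, List.toFinset_card_of_nodup (pl_nodup j)]
  exact h.2.2.1

theorem octave_vv {j : ℕ} (hj : j < 10) :
    (1 : ℝ) ≤ (vO j : ℝ) / SC * VV (Pr (2 ^ j) (2 ^ (j + 1))) := by
  rcases Nat.eq_zero_or_pos j with rfl | hj1
  · have : Pr (2 ^ 0) (2 ^ (0 + 1)) = {2} := by decide
    rw [this]
    unfold VV
    rw [prod_singleton, g_two]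
    unfold vO SC
    norm_num
  · have h := (octave_check j (List.mem_range.2 hj)).2.2.2
    have hv := octave_v j (List.mem_range.2 hj) hj1
    unfold VV
    rw [Pr_octave hj, List.prod_toFinset _ (pl_nodup j)]
    have h1 : ((pl j).map (fun p => 1 - g p)).prod * (((pl j).map (fun p => p)).prod : ℕ)
        = (((pl j).map (fun p => p - 2)).prod : ℕ) ∧ 0 < (((pl j).map (fun p => p)).prod : ℕ) := by
      revert h
      generalize pl j = l
      intro h
      induction l with
      | nil => simp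
      | cons p l ih =>
        simp only [List.map_cons, List.prod_cons]
        have h5 := ih (fun q hq => h q (List.mem_cons_of_mem _ hq))
        have h6 := (h p List.mem_cons_self).2 hj1
        refine ⟨?_, Nat.mul_pos (by omega) h5.2⟩
        have hp : (0 : ℝ) < p := by exact_mod_cast (by omega : 0 < p)
        have h7 : (1 - g p) * p = ((p - 2 : ℕ) : ℝ) := by
          rw [g_odd (by omega), Nat.cast_sub (by omega)]
          field_simp
          norm_num
        push_cast at h5 ⊢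
        rw [← h7, ← h5.1]
        ring
    have hPpos : (0 : ℝ) < (((pl j).map (fun p => p)).prod : ℕ) := by exact_mod_cast h1.2
    have h2 : (SC : ℝ) * (((pl j).map (fun p => p)).prod : ℕ) ≤ vO j * (((pl j).map (fun p => p - 2)).prod : ℕ) := by
      exact_mod_cast hv
    rw [← h1.1] at h2
    have h3 : (SC : ℝ) ≤ vO j * ((pl j).map (fun p => 1 - g p)).prod := by
      apply le_of_mul_le_mul_right _ hPpos
      linarith
    rw [div_mul_eq_mul_div, one_le_div SC_pos]
    exact h3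

theorem two_pow_le_two_pow {j k : ℕ} (h : j ≤ k) : 2 ^ j ≤ 2 ^ k := Nat.pow_le_pow_right (by norm_num) h

theorem sum_Pr_split (f : ℕ → ℝ) {x y z : ℕ} (h1 : x ≤ y) (h2 : y ≤ z) :
    ∑ p ∈ Pr x z, f p = ∑ p ∈ Pr x y, f p + ∑ p ∈ Pr y z, f p := by
  rw [← Pr_union h1 h2, sum_union (Pr_disjoint le_rfl).symm]

theorem VV_Pr_split {x y z : ℕ} (h1 : x ≤ y) (h2 : y ≤ z) :
    VV (Pr x z) = VV (Pr x y) * VV (Pr y z) := by
  rw [← Pr_union h1 h2, VV_union (Pr_disjoint le_rfl)]

theorem card_Pr_split {x y z : ℕ} (h1 : x ≤ y) (h2 : y ≤ z) :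
    (Pr x z).card = (Pr x y).card + (Pr y z).card := by
  rw [← Pr_union h1 h2, card_union_of_disjoint (Pr_disjoint le_rfl).symm]

theorem massO_le (d : ℕ) : ∀ j, j + d ≤ 10 →
    ∑ p ∈ Pr (2 ^ j) (2 ^ (j + d)), (1 : ℝ) / p ≤ (sumR sO j d : ℝ) / SC := by
  induction d with
  | zero =>
    intro j _
    have : Pr (2 ^ j) (2 ^ (j + 0)) = ∅ := by
      unfold Pr; simp
    rw [this]; simp [sumR]
  | succ d ih =>
    intro j hj
    rw [sum_Pr_split _ (two_pow_le_two_pow (by omega : j ≤ j + 1)) (two_pow_le_two_pow (by omega : j + 1 ≤ j + (d + 1)))]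
    have h1 := ih (j + 1) (by omega)
    have h2 := octave_s (j := j) (by omega)
    rw [show j + 1 + d = j + (d + 1) by ring] at h1
    unfold sumR
    push_cast
    rw [add_div]
    linarith

theorem cardO (d : ℕ) : ∀ j, j + d ≤ 10 → (Pr (2 ^ j) (2 ^ (j + d))).card = sumR nO j d := by
  induction d with
  | zero =>
    intro j _
    have : Pr (2 ^ j) (2 ^ (j + 0)) = ∅ := by
      unfold Pr; simp
    rw [this]; simp [sumR]
  | succ d ih =>
    intro j hj
    rw [card_Pr_split (two_pow_le_two_pow (by omega : j ≤ j + 1)) (two_pow_le_two_pow (by omega : j + 1 ≤ j + (d + 1)))]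
    have h1 := ih (j + 1) (by omega)
    rw [show j + 1 + d = j + (d + 1) by ring] at h1
    rw [h1, octave_n (by omega)]
    rfl

/-- Upper bound for `log (k / j)` scaled by `SC`. -/
def lgU (j k : ℕ) : ℕ := sumR (fun i => SC * (2 * i + 1) / (2 * i * (i + 1)) + 1) j (k - j)

theorem log_step {i : ℕ} (hi : 1 ≤ i) :
    Real.log ((i + 1 : ℕ) : ℝ) - Real.log i ≤ ((2 * i + 1 : ℕ) : ℝ) / (2 * i * (i + 1) : ℕ) := by
  have hi0 : (0 : ℝ) < i := by exact_mod_cast hi
  have h1 : 1 ≤ ((i + 1 : ℕ) : ℝ) / i := by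
    rw [one_le_div hi0]; push_cast; linarith
  have h2 := Real.self_le_sinh_iff.2 (Real.log_nonneg h1)
  rw [Real.sinh_log (by positivity)] at h2
  rw [← Real.log_div (by positivity) hi0.ne']
  refine h2.trans (le_of_eq ?_)
  push_cast
  field_simp
  ring

theorem lg_aux (d : ℕ) : ∀ j, 1 ≤ j → Real.log ((j + d : ℕ) : ℝ) - Real.log j
    ≤ (sumR (fun i => SC * (2 * i + 1) / (2 * i * (i + 1)) + 1) j d : ℝ) / SC := by
  induction d with
  | zero => intro j _; simp [sumR]
  | succ d ih =>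
    intro j hj
    have h1 := ih (j + 1) (by omega)
    have h2 := log_step hj
    rw [show j + 1 + d = j + (d + 1) by ring] at h1
    unfold sumR
    have h3 := div_up (SC * (2 * j + 1)) (2 * j * (j + 1)) (by positivity)
    have h4 : ((2 * j + 1 : ℕ) : ℝ) / (2 * j * (j + 1) : ℕ)
        ≤ ((SC * (2 * j + 1) / (2 * j * (j + 1)) + 1 : ℕ) : ℝ) / SC := by
      rw [le_div_iff₀ SC_pos]
      refine le_trans (le_of_eq ?_) h3
      push_cast; ring
    rw [Nat.cast_add (SC * (2 * j + 1) / (2 * j * (j + 1)) + 1), add_div]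
    linarith

theorem lgU_le {j k : ℕ} (hj : 1 ≤ j) (hjk : j ≤ k) :
    Real.log ((k : ℝ) / j) ≤ (lgU j k : ℝ) / SC := by
  have := lg_aux (k - j) j hj
  rw [show j + (k - j) = k by omega] at this
  have hj0 : (0 : ℝ) < j := by exact_mod_cast hj
  have hk0 : (0 : ℝ) < k := by exact_mod_cast (by omega : 0 < k)
  rw [Real.log_div hk0.ne' hj0.ne']
  exact this

/-- Additive constant in the Mertens bound from `2^j`. -/
def cU (j : ℕ) : ℕ := if j = 10 then SC / 10 else SC * 8 / (5 * j) + 1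

theorem mertens_cU {j k : ℕ} (hj : 10 ≤ j) (hjk : j ≤ k) :
    ∑ p ∈ Pr (2 ^ j) (2 ^ k), (1 : ℝ) / p ≤ Real.log ((k : ℝ) / j) + (cU j : ℝ) / SC := by
  unfold cU
  split_ifs with h
  · subst h
    have := mertens_pow_ten hjk
    norm_num [SC] at this ⊢
    exact this
  · have := mertens_pow hj hjk
    refine this.trans ?_
    have h3 := div_up (SC * 8) (5 * j) (by omega)
    have hj0 : (0 : ℝ) < j := by exact_mod_cast (by omega : 0 < j)
    have h4 : (1.6 : ℝ) / j ≤ ((SC * 8 / (5 * j) + 1 : ℕ) : ℝ) / SC := by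
      rw [le_div_iff₀ SC_pos]
      refine le_trans (le_of_eq ?_) h3
      push_cast
      field_simp
      ring
    linarith

/-- Upper bound for the sum of `1/p` over `(2^j, 2^k]`, scaled by `SC`. -/
def massU (j k : ℕ) : ℕ :=
  if k ≤ 10 then sumR sO j (k - j)
  else if 10 ≤ j then lgU j k + cU j
  else sumR sO j (10 - j) + (lgU 10 k + cU 10)

theorem massU_le {j k : ℕ} (hjk : j ≤ k) :
    ∑ p ∈ Pr (2 ^ j) (2 ^ k), (1 : ℝ) / p ≤ (massU j k : ℝ) / SC := by
  have hbig : ∀ j, 10 ≤ j → j ≤ k → ∑ p ∈ Pr (2 ^ j) (2 ^ k), (1 : ℝ) / p ≤ ((lgU j k + cU j : ℕ) : ℝ) / SC := by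
    intro j h1 h2
    have := mertens_cU h1 h2
    have h3 := lgU_le (j := j) (k := k) (by omega) h2
    push_cast
    rw [add_div]
    linarith
  unfold massU
  split_ifs with h1 h2
  · have := massO_le (k - j) j (by omega)
    rwa [show j + (k - j) = k by omega] at this
  · exact hbig j h2 hjk
  · rw [sum_Pr_split _ (two_pow_le_two_pow (by omega : j ≤ 10)) (two_pow_le_two_pow (by omega : 10 ≤ k))]
    have e1 := massO_le (10 - j) j (by omega)
    rw [show j + (10 - j) = 10 by omega] at e1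
    have e2 := hbig 10 le_rfl (by omega)
    rw [Nat.cast_add, add_div]
    linarith

/-- Upper bound for `exp (x / SC)`, scaled. -/
def expU (x : ℕ) : ℕ :=
  if x ≤ SC then SC + x + (x * x / (2 * SC) + 1) + (x * x * x / (4 * SC * SC) + 1)
  else SC * 3 ^ (x / SC + 1)

theorem exp_le_poly {x : ℝ} (h0 : 0 ≤ x) (h1 : x ≤ 1) :
    Real.exp x ≤ 1 + x + x ^ 2 / 2 + x ^ 3 / 4 := by
  have h := Real.exp_bound' h0 h1 (n := 3) (by norm_num)
  simp only [Finset.sum_range_succ, Finset.sum_range_zero] at h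
  norm_num [Nat.factorial] at h
  have h3 : 0 ≤ x ^ 3 := by positivity
  linarith

theorem expU_le (x : ℕ) : Real.exp ((x : ℝ) / SC) ≤ (expU x : ℝ) / SC := by
  have hS := SC_pos
  unfold expU
  split_ifs with h
  · have h1 : (x : ℝ) / SC ≤ 1 := by
      rw [div_le_one hS]; exact_mod_cast h
    have h2 := exp_le_poly (by positivity) h1
    refine h2.trans ?_
    have a1 := div_up (x * x) (2 * SC) (by unfold SC; norm_num)
    have a2 := div_up (x * x * x) (4 * SC * SC) (by unfold SC; norm_num)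
    rw [le_div_iff₀ hS]
    have e : (1 + (x : ℝ) / SC + ((x : ℝ) / SC) ^ 2 / 2 + ((x : ℝ) / SC) ^ 3 / 4) * SC
        = SC + x + ((x * x : ℕ) : ℝ) / (2 * SC : ℕ) + ((x * x * x : ℕ) : ℝ) / (4 * SC * SC : ℕ) := by
      push_cast; field_simp
    rw [e, Nat.cast_add, Nat.cast_add, Nat.cast_add]
    linarith
  · have h1 : (x : ℝ) / SC ≤ ((x / SC + 1 : ℕ) : ℝ) := div_up x SC (by unfold SC; norm_num)
    calc Real.exp ((x : ℝ) / SC) ≤ Real.exp ((x / SC + 1 : ℕ) : ℝ) := Real.exp_le_exp.2 h1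
      _ = Real.exp 1 ^ (x / SC + 1) := by rw [← Real.exp_nat_mul]; simp
      _ ≤ 3 ^ (x / SC + 1) := by
          apply pow_le_pow_left₀ (Real.exp_pos 1).le
          have := Real.exp_one_lt_d9
          linarith
      _ = ((SC * 3 ^ (x / SC + 1) : ℕ) : ℝ) / SC := by push_cast; field_simp

end Pool.Agent.H91.Gold
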