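import Mathlib
import Pool.Agent.H91.GoldNum

/-!
Exact data on the primes up to `65536` in half octaves, by kernel computation.
-/

namespace Pool.Agent.H91.Gold

open Finset

/-- Ends of the half octaves. -/
def zc (h : ℕ) : ℕ := Nat.sqrt (2 ^ h)

/-- Table of the values of `zc`. -/
def zcL (h : ℕ) : ℕ := [1, 1, 2, 2, 4, 5, 8, 11, 16, 22, 32, 45, 64, 90, 128, 181, 256, 362, 512, 724, 1024,
  1448, 2048, 2896, 4096, 5792, 8192, 11585, 16384, 23170, 32768, 46340, 65536].getD h 0

theorem zcL_check : ∀ h ∈ List.range 33, zcL h * zcL h ≤ 2 ^ h ∧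
    2 ^ h < (zcL h + 1) * (zcL h + 1) := by decide +kernel

theorem zc_eq {h : ℕ} (hh : h < 33) : zc h = zcL h := by
  have := zcL_check h (List.mem_range.2 hh)
  exact (Nat.eq_sqrt.2 this).symm

theorem zc_mono {h h' : ℕ} (hh : h ≤ h') : zc h ≤ zc h' :=
  Nat.sqrt_le_sqrt (Nat.pow_le_pow_right (by norm_num) hh)

/-- Sum of `f` over `[a, a + n)` by binary splitting, valid for `n ≤ 2 ^ k`. -/
noncomputable def rsum (f : ℕ → ℕ) (k : ℕ) : ℕ → ℕ → ℕ :=
  Nat.rec (motive := fun _ => ℕ → ℕ → ℕ) (fun a n => bif Nat.beq n 0 then 0 else f a)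
    (fun _ ih a n => bif Nat.ble n 1 then (bif Nat.beq n 0 then 0 else f a)
      else ih a (n / 2) + ih (a + n / 2) (n - n / 2)) k

/-- Product of `f` over `[a, a + n)` by binary splitting, valid for `n ≤ 2 ^ k`. -/
noncomputable def rprod (f : ℕ → ℕ) (k : ℕ) : ℕ → ℕ → ℕ :=
  Nat.rec (motive := fun _ => ℕ → ℕ → ℕ) (fun a n => bif Nat.beq n 0 then 1 else f a)
    (fun _ ih a n => bif Nat.ble n 1 then (bif Nat.beq n 0 then 1 else f a)
      else ih a (n / 2) * ih (a + n / 2) (n - n / 2)) k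

theorem rsum_eq (f : ℕ → ℕ) (k : ℕ) : ∀ a n, n ≤ 2 ^ k →
    rsum f k a n = ∑ i ∈ Ico a (a + n), f i := by
  have base : ∀ a n, n ≤ 1 → (bif Nat.beq n 0 then 0 else f a) = ∑ i ∈ Ico a (a + n), f i := by
    intro a n hn
    have : n = 0 ∨ n = 1 := by omega
    rcases this with rfl | rfl
    · simp
    · show f a = _
      simp
  induction k with
  | zero => intro a n hn; exact base a n (by simpa using hn)
  | succ k ih =>
    intro a n hn
    show (bif Nat.ble n 1 then (bif Nat.beq n 0 then 0 else f a)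
      else rsum f k a (n / 2) + rsum f k (a + n / 2) (n - n / 2)) = _
    rw [pow_succ] at hn
    by_cases h : n ≤ 1
    · rw [Nat.ble_eq_true_of_le h, cond_true, base a n h]
    · have h' : Nat.ble n 1 = false := by
        rw [← Bool.not_eq_true, Nat.ble_eq]; exact h
      rw [h', cond_false, ih a _ (by omega), ih _ _ (by omega)]
      rw [show a + n = (a + n / 2) + (n - n / 2) by omega,
        sum_Ico_consecutive _ (by omega) (by omega)]

theorem rprod_eq (f : ℕ → ℕ) (k : ℕ) : ∀ a n, n ≤ 2 ^ k →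
    rprod f k a n = ∏ i ∈ Ico a (a + n), f i := by
  have base : ∀ a n, n ≤ 1 → (bif Nat.beq n 0 then 1 else f a) = ∏ i ∈ Ico a (a + n), f i := by
    intro a n hn
    have : n = 0 ∨ n = 1 := by omega
    rcases this with rfl | rfl
    · simp
    · show f a = _
      simp
  induction k with
  | zero => intro a n hn; exact base a n (by simpa using hn)
  | succ k ih =>
    intro a n hn
    show (bif Nat.ble n 1 then (bif Nat.beq n 0 then 1 else f a)
      else rprod f k a (n / 2) * rprod f k (a + n / 2) (n - n / 2)) = _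
    rw [pow_succ] at hn
    by_cases h : n ≤ 1
    · rw [Nat.ble_eq_true_of_le h, cond_true, base a n h]
    · have h' : Nat.ble n 1 = false := by
        rw [← Bool.not_eq_true, Nat.ble_eq]; exact h
      rw [h', cond_false, ih a _ (by omega), ih _ _ (by omega)]
      rw [show a + n = (a + n / 2) + (n - n / 2) by omega,
        prod_Ico_consecutive _ (by omega) (by omega)]

/-- The product of the primes up to `251`. -/
def PP : ℕ :=
  64266330917908644872330635228106713310880186591609208114244758680898150367880703152525200743234420230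

theorem PP_eq : PP = ((List.range 252).filter isP).prod := by decide +kernel

/-- Superset of the primes (up to `65536` it is the set of the primes). -/
def cop (n : ℕ) : Bool := bif Nat.ble n 256 then isP n else Nat.beq (Nat.gcd n PP) 1

theorem cop_of_prime {n : ℕ} (hn : n.Prime) : cop n = true := by
  unfold cop
  by_cases h : n ≤ 256
  · rw [Nat.ble_eq_true_of_le h, cond_true]
    exact (isP_iff (by omega)).2 hn
  · have h' : Nat.ble n 256 = false := by
      rw [← Bool.not_eq_true, Nat.ble_eq]; exact h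
    rw [h', cond_false, Nat.beq_eq]
    have : Nat.Coprime n PP := by
      rw [Nat.Prime.coprime_iff_not_dvd hn, PP_eq]
      intro hd
      rw [Prime.dvd_prod_iff hn.prime] at hd
      obtain ⟨a, ha, hda⟩ := hd
      rw [List.mem_filter, List.mem_range] at ha
      have ha2 := (isP_iff (by omega)).1 ha.2
      have := Nat.le_of_dvd ha2.pos hda
      omega
    exact this

/-- Tables for the half octaves, scaled by `SC`: sums of `1/p`, of `1/p^2`, number of primes,
inverse of the product of `1 - g p`. -/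
def sH (h : ℕ) : ℕ := [0, 50000001, 0, 33333334, 20000001, 14285715, 9090910, 7692308, 11145511, 11021909,
  7467309, 7348712, 7865089, 6516269, 7084525, 5512335, 5939249, 5763057, 5046916,
  5088775, 4683596, 4656232, 4455266, 4207704, 4002322, 3881452, 3742488, 3666287,
  3494681, 3349725, 3275497, 3165239].getD h 0

def qH (h : ℕ) : ℕ := [0, 25000001, 0, 11111112, 4000001, 2040817, 826447, 591716, 623030, 412001, 186618,
  136472, 104043, 61040, 46142, 25534, 19821, 13414, 8283, 5948, 3889, 2739, 1840, 1225,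
  826, 568, 388, 268, 181, 123, 85, 58].getD h 0

def nH (h : ℕ) : ℕ := [0, 1, 0, 1, 1, 1, 1, 1, 2, 3, 3, 4, 6, 7, 11, 12, 18, 25, 31, 44, 57, 80, 109, 146,
  196, 268, 365, 507, 685, 927, 1280, 1750].getD h 0

def vH (h : ℕ) : ℕ := [100000000, 200000000, 100000000, 300000000, 166666667, 140000000, 122222223, 118181819,
  126666667, 125749560, 116556777, 116157169, 117283093, 114060831, 115329323, 111712741,
  112657627, 112246848, 110639207, 110726680, 109828487, 109765868, 109323602, 108782313,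
  108335525, 108073394, 107773056, 107608677, 107239796, 106929220, 106770516, 106535272].getD h 0

/-- Internal scaling factor. -/
def KK : ℕ := 100000000

/-- Sum of the weight `w` over the half octave `h`. -/
noncomputable def wsum (w : ℕ → ℕ) (h : ℕ) : ℕ :=
  rsum (fun n => bif cop n then w n else 0) 15 (zcL h + 1) (zcL (h + 1) - zcL h)

/-- Product of `w` over the half octave `h`. -/
noncomputable def wprod (w : ℕ → ℕ) (h : ℕ) : ℕ :=
  rprod (fun n => bif cop n then w n else 1) 15 (zcL h + 1) (zcL (h + 1) - zcL h)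

theorem check_s : ∀ h ∈ List.range 32, wsum (fun n => KK * SC / n + 1) h ≤ KK * sH h := by
  decide +kernel

theorem check_q : ∀ h ∈ List.range 32, wsum (fun n => KK * SC / (n * n) + 1) h ≤ KK * qH h := by
  decide +kernel

theorem check_n : ∀ h ∈ List.range 32, wsum (fun _ => 1) h ≤ nH h := by
  decide +kernel

theorem check_v : ∀ h ∈ List.range' 2 30,
    SC * wprod (fun n => n) h ≤ vH h * wprod (fun n => n - 2) h := by
  decide +kernel

theorem zcL_small : ∀ h ∈ List.range 32, zcL h ≤ zcL (h + 1) ∧ zcL (h + 1) - zcL h ≤ 2 ^ 15 ∧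
    (2 ≤ h → 2 ≤ zcL h) := by
  decide +kernel

theorem Pr_subset (x y : ℕ) : Pr x y ⊆ (Ico (x + 1) (y + 1)).filter (fun n => cop n = true) := by
  intro p hp
  rw [mem_Pr] at hp
  rw [mem_filter, mem_Ico]
  exact ⟨⟨by omega, by omega⟩, cop_of_prime hp.2⟩

/-- Sums over primes are bounded by the computed sums. -/
theorem sum_le_wsum {h : ℕ} (hh : h < 32) {F : ℕ → ℝ} {w : ℕ → ℕ} {D : ℝ}
    (hF0 : ∀ n, 0 ≤ F n) (hF : ∀ n, 1 ≤ n → F n * D ≤ w n) (hD : 0 < D) :
    (∑ p ∈ Pr (zc h) (zc (h + 1)), F p) * D ≤ (wsum w h : ℕ) := by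
  have h1 := zcL_small h (List.mem_range.2 hh)
  rw [zc_eq (by omega), zc_eq (by omega)]
  unfold wsum
  rw [rsum_eq _ _ _ _ h1.2.1, show zcL h + 1 + (zcL (h + 1) - zcL h) = zcL (h + 1) + 1 by omega]
  have h2 : (∑ p ∈ Pr (zcL h) (zcL (h + 1)), F p)
      ≤ ∑ p ∈ (Ico (zcL h + 1) (zcL (h + 1) + 1)).filter (fun n => cop n = true), F p :=
    sum_le_sum_of_subset_of_nonneg (Pr_subset _ _) (fun n _ _ => hF0 n)
  refine (mul_le_mul_of_nonneg_right h2 hD.le).trans ?_
  rw [sum_mul, sum_filter, Nat.cast_sum]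
  apply sum_le_sum
  intro n hn
  rw [mem_Ico] at hn
  by_cases hc : cop n = true
  · rw [if_pos hc, hc, cond_true]
    exact hF n (by omega)
  · rw [if_neg hc]
    positivity

theorem KS_pos : (0 : ℝ) < (KK * SC : ℕ) := by
  unfold KK SC; norm_num

theorem KK_pos : (0 : ℝ) < (KK : ℕ) := by
  unfold KK; norm_num

theorem half_s {h : ℕ} (hh : h < 32) :
    ∑ p ∈ Pr (zc h) (zc (h + 1)), (1 : ℝ) / p ≤ (sH h : ℝ) / SC := by
  have h1 := sum_le_wsum hh (F := fun n => (1 : ℝ) / n) (w := fun n => KK * SC / n + 1)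
    (D := (KK * SC : ℕ)) (fun n => by positivity) (fun n hn => by
      have := div_up (KK * SC) n (by omega)
      have e : (1 : ℝ) / n * (KK * SC : ℕ) = ((KK * SC : ℕ) : ℝ) / n := by ring
      rw [e]; exact this) KS_pos
  have h2 : ((wsum (fun n => KK * SC / n + 1) h : ℕ) : ℝ) ≤ (KK * sH h : ℕ) := by
    exact_mod_cast check_s h (List.mem_range.2 hh)
  have h3 := h1.trans h2
  rw [le_div_iff₀ SC_pos]
  push_cast at h3
  have hK := KK_pos
  have h4 : (∑ p ∈ Pr (zc h) (zc (h + 1)), (1 : ℝ) / p) * SC * KK ≤ (sH h : ℝ) * KK := by linarith only [h3]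
  exact le_of_mul_le_mul_right h4 hK

theorem half_q {h : ℕ} (hh : h < 32) :
    ∑ p ∈ Pr (zc h) (zc (h + 1)), (1 : ℝ) / (p ^ 2 : ℕ) ≤ (qH h : ℝ) / SC := by
  have h1 := sum_le_wsum hh (F := fun n => (1 : ℝ) / (n ^ 2 : ℕ))
    (w := fun n => KK * SC / (n * n) + 1)
    (D := (KK * SC : ℕ)) (fun n => by positivity) (fun n hn => by
      have := div_up (KK * SC) (n * n) (by positivity)
      have e : (1 : ℝ) / (n ^ 2 : ℕ) * (KK * SC : ℕ) = ((KK * SC : ℕ) : ℝ) / (n * n : ℕ) := by
        rw [pow_two]; ring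
      rw [e]; exact this) KS_pos
  have h2 : ((wsum (fun n => KK * SC / (n * n) + 1) h : ℕ) : ℝ) ≤ (KK * qH h : ℕ) := by
    exact_mod_cast check_q h (List.mem_range.2 hh)
  have h3 := h1.trans h2
  rw [le_div_iff₀ SC_pos]
  push_cast at h3 ⊢
  have hK := KK_pos
  have h4 : (∑ p ∈ Pr (zc h) (zc (h + 1)), (1 : ℝ) / (p : ℝ) ^ 2) * SC * KK ≤ (qH h : ℝ) * KK := by
    linarith only [h3]
  exact le_of_mul_le_mul_right h4 hK

theorem half_n {h : ℕ} (hh : h < 32) : (Pr (zc h) (zc (h + 1))).card ≤ nH h := by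
  have h1 := sum_le_wsum hh (F := fun _ => (1 : ℝ)) (w := fun _ => 1)
    (D := 1) (fun n => by positivity) (fun n hn => by simp) one_pos
  have h2 := check_n h (List.mem_range.2 hh)
  rw [sum_const, nsmul_eq_mul, mul_one, mul_one] at h1
  have h3 : (Pr (zc h) (zc (h + 1))).card ≤ wsum (fun _ => 1) h := by exact_mod_cast h1
  exact h3.trans h2

theorem prod_le_prod_subset {S T : Finset ℕ} (hST : S ⊆ T) {f : ℕ → ℝ}
    (h0 : ∀ n ∈ T, 0 ≤ f n) (h1 : ∀ n ∈ T, f n ≤ 1) : ∏ n ∈ T, f n ≤ ∏ n ∈ S, f n := by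
  rw [← prod_sdiff hST]
  have h2 : ∏ n ∈ T \ S, f n ≤ 1 :=
    prod_le_one (fun n hn => h0 n (mem_sdiff.1 hn).1) (fun n hn => h1 n (mem_sdiff.1 hn).1)
  have h3 : 0 ≤ ∏ n ∈ S, f n := prod_nonneg (fun n hn => h0 n (hST hn))
  calc _ ≤ 1 * ∏ n ∈ S, f n := mul_le_mul_of_nonneg_right h2 h3
    _ = _ := one_mul _

theorem half_v {h : ℕ} (hh : h < 32) :
    (1 : ℝ) ≤ (vH h : ℝ) / SC * VV (Pr (zc h) (zc (h + 1))) := by
  rcases Nat.lt_or_ge h 2 with hlt | hge
  · have hc : h = 0 ∨ h = 1 := by omega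
    rcases hc with rfl | rfl
    · rw [zc_eq (by omega), zc_eq (by omega)]
      have : Pr (zcL 0) (zcL (0 + 1)) = ∅ := by decide
      rw [this]
      unfold VV vH SC
      norm_num
    · rw [zc_eq (by omega), zc_eq (by omega)]
      have : Pr (zcL 1) (zcL (1 + 1)) = {2} := by decide
      rw [this]
      unfold VV
      rw [prod_singleton, g_two]
      unfold vH SC
      norm_num
  · have h1 := zcL_small h (List.mem_range.2 hh)
    have hz2 := h1.2.2 hge
    have hv := check_v h (by rw [List.mem_range'_1]; omega)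
    rw [zc_eq (by omega), zc_eq (by omega)]
    unfold wprod at hv
    rw [rprod_eq _ _ _ _ h1.2.1, rprod_eq _ _ _ _ h1.2.1,
      show zcL h + 1 + (zcL (h + 1) - zcL h) = zcL (h + 1) + 1 by omega] at hv
    set I := Ico (zcL h + 1) (zcL (h + 1) + 1) with hI
    have hmem : ∀ n ∈ I, 3 ≤ n := by
      intro n hn
      rw [hI, mem_Ico] at hn
      omega
    set T := I.filter (fun n => cop n = true) with hT
    have hfil : ∀ w : ℕ → ℕ, ∏ n ∈ I, (bif cop n then w n else 1) = ∏ n ∈ T, w n := by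
      intro w
      rw [hT, prod_filter]
      apply prod_congr rfl
      intro n _
      by_cases hc : cop n = true
      · rw [if_pos hc, hc, cond_true]
      · rw [if_neg hc]
        rw [Bool.not_eq_true] at hc
        rw [hc, cond_false]
    rw [hfil, hfil] at hv
    have h3T : ∀ n ∈ T, 3 ≤ n := fun n hn => hmem n (mem_filter.1 hn).1
    have hprod : (∏ n ∈ T, (1 - g n)) * ((∏ n ∈ T, n : ℕ) : ℝ) = ((∏ n ∈ T, (n - 2) : ℕ) : ℝ) := by
      rw [Nat.cast_prod, Nat.cast_prod, ← prod_mul_distrib]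
      apply prod_congr rfl
      intro n hn
      have hn3 := h3T n hn
      have hp : (0 : ℝ) < n := by exact_mod_cast (by omega : 0 < n)
      rw [g_odd (by omega), Nat.cast_sub (by omega)]
      field_simp
      norm_num
    have hle : ∏ n ∈ T, (1 - g n) ≤ VV (Pr (zcL h) (zcL (h + 1))) := by
      unfold VV
      apply prod_le_prod_subset (Pr_subset _ _)
      · intro n hn
        have hn3 := h3T n hn
        have hn3' : (3 : ℝ) ≤ n := by exact_mod_cast hn3
        rw [g_odd (by omega), sub_nonneg, div_le_one (by linarith only [hn3'])]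
        linarith
      · intro n hn
        have hn3 := h3T n hn
        rw [g_odd (by omega)]
        have : (0 : ℝ) ≤ 2 / n := by positivity
        linarith
    have hPpos : (0 : ℝ) < ((∏ n ∈ T, n : ℕ) : ℝ) := by
      rw [Nat.cast_prod]
      apply prod_pos
      intro n hn
      have := h3T n hn
      exact_mod_cast (by omega : 0 < n)
    have h2 : (SC : ℝ) * ((∏ n ∈ T, n : ℕ) : ℝ) ≤ vH h * ((∏ n ∈ T, (n - 2) : ℕ) : ℝ) := by
      exact_mod_cast hv
    rw [← hprod] at h2
    have h3 : (SC : ℝ) ≤ vH h * ∏ n ∈ T, (1 - g n) := by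
      apply le_of_mul_le_mul_right _ hPpos
      linarith
    rw [div_mul_eq_mul_div, one_le_div SC_pos]
    exact h3.trans (mul_le_mul_of_nonneg_left hle (by positivity))

/-! ### The number of primes up to a power of two -/

theorem card_zc : ∀ h ≤ 32, (Pr 1 (zc h)).card ≤ ∑ i ∈ range h, nH i := by
  intro h
  induction h with
  | zero => intro _; rw [zc_eq (by omega)]; decide
  | succ h ih =>
    intro hh
    have h1 : 1 ≤ zc h := by
      have := zc_mono (Nat.zero_le h)
      have h0 : zc 0 = 1 := by unfold zc; simp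
      omega
    rw [sum_range_succ, card_Pr_split h1 (zc_mono (Nat.le_succ h))]
    exact add_le_add (ih (by omega)) (half_n (by omega))

theorem zcL_32 : zcL 32 = 2 ^ 16 := by decide +kernel

theorem sum_nH : ∑ i ∈ range 32, nH i = 6542 := by decide +kernel

theorem card_16 : (Pr 1 (2 ^ 16)).card ≤ 6542 := by
  have h1 := card_zc 32 le_rfl
  rw [zc_eq (by omega), zcL_32, sum_nH] at h1
  exact h1

theorem prod_Pr_dvd (n : ℕ) : ∏ p ∈ Pr n (2 * n), p ∣ Nat.centralBinom n := by
  apply Finset.prod_primes_dvd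
  · intro p hp; exact (prime_of_Pr hp).prime
  · intro p hp
    rw [mem_Pr] at hp
    have hpp := hp.2
    have h1 : p ∣ (2 * n).factorial := (hpp.dvd_factorial).2 hp.1.2
    have h2 : ¬ p ∣ n.factorial := fun h => by
      have := (hpp.dvd_factorial).1 h
      omega
    have h3 : (2 * n).factorial = Nat.centralBinom n * (n.factorial * n.factorial) := by
      have h4 := Nat.choose_mul_factorial_mul_factorial (show n ≤ 2 * n by omega)
      rw [show 2 * n - n = n by omega] at h4
      rw [Nat.centralBinom_eq_two_mul_choose, ← h4]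
      ring
    rw [h3, hpp.dvd_mul, hpp.dvd_mul] at h1
    tauto

theorem card_step {k : ℕ} (_hk : 1 ≤ k) : k * (Pr (2 ^ k) (2 ^ (k + 1))).card ≤ 2 ^ (k + 1) := by
  have h1 := Nat.le_of_dvd (Nat.centralBinom_pos _) (prod_Pr_dvd (2 ^ k))
  have h2 : (2 ^ k) ^ (Pr (2 ^ k) (2 * 2 ^ k)).card ≤ ∏ p ∈ Pr (2 ^ k) (2 * 2 ^ k), p := by
    apply Finset.pow_card_le_prod
    intro p hp
    rw [mem_Pr] at hp
    omega
  have h3 := (h2.trans h1).trans (Nat.centralBinom_le_four_pow _)
  rw [← pow_mul, show (4 : ℕ) = 2 ^ 2 by norm_num, ← pow_mul] at h3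
  have h4 := (Nat.pow_le_pow_iff_right (by norm_num)).1 h3
  rw [show 2 ^ (k + 1) = 2 * 2 ^ k by ring]
  exact h4

theorem card_succ (k : ℕ) : (Pr 1 (2 ^ (k + 1))).card
      = (Pr 1 (2 ^ k)).card + (Pr (2 ^ k) (2 ^ (k + 1))).card :=
  card_Pr_split (Nat.one_le_two_pow) (Nat.pow_le_pow_right (by norm_num) (by omega))

theorem card_pow_16 : 4 * 16 * (Pr 1 (2 ^ 16)).card ≤ 9 * 2 ^ 16 := by
  have h1 := card_16
  generalize (Pr 1 (2 ^ 16)).card = c at h1 ⊢
  omega

theorem card_pow_17 : 4 * 17 * (Pr 1 (2 ^ 17)).card ≤ 9 * 2 ^ 17 := by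
  have h1 := card_16
  have h2 := card_step (k := 16) (by norm_num)
  have h3 := card_succ 16
  have e : 16 + 1 = 17 := rfl
  rw [e] at h2 h3
  rw [h3]
  generalize (Pr 1 (2 ^ 16)).card = c at h1 ⊢
  generalize (Pr (2 ^ 16) (2 ^ 17)).card = d at h2 ⊢
  omega

theorem card_pow_succ {k : ℕ} (hk : 17 ≤ k) (h1 : 4 * k * (Pr 1 (2 ^ k)).card ≤ 9 * 2 ^ k) :
    4 * (k + 1) * (Pr 1 (2 ^ (k + 1))).card ≤ 9 * 2 ^ (k + 1) := by
  have h2 := card_step (k := k) (by omega)
  rw [card_succ k]
  generalize (Pr 1 (2 ^ k)).card = A at h1 ⊢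
  generalize (Pr (2 ^ k) (2 ^ (k + 1))).card = B at h2 ⊢
  rw [pow_succ] at h2 ⊢
  generalize 2 ^ k = D at h1 h2 ⊢
  have h3 : 4 * k * (A + B) ≤ 17 * D := by nlinarith
  have h4 : k * (4 * (k + 1) * (A + B)) ≤ k * (9 * (D * 2)) := by
    calc k * (4 * (k + 1) * (A + B)) = (k + 1) * (4 * k * (A + B)) := by ring
      _ ≤ (k + 1) * (17 * D) := Nat.mul_le_mul_left _ h3
      _ = (17 * k + 17) * D := by ring
      _ ≤ (18 * k) * D := Nat.mul_le_mul_right _ (by omega)
      _ = k * (9 * (D * 2)) := by ring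
  exact Nat.le_of_mul_le_mul_left h4 (by omega)

theorem card_pow_Pr {k : ℕ} (hk : 16 ≤ k) : 4 * k * (Pr 1 (2 ^ k)).card ≤ 9 * 2 ^ k := by
  rcases Nat.lt_or_ge 16 k with h | h
  · have h' : 17 ≤ k := h
    clear hk h
    induction k, h' using Nat.le_induction with
    | base => exact card_pow_17
    | succ k hk' ih => exact card_pow_succ hk' ih
  · have : k = 16 := by omega
    subst this
    exact card_pow_16

theorem primesLE_eq_Pr (n : ℕ) : Nat.primesLE n = Pr 1 n := by
  ext p
  rw [mem_Pr, Nat.mem_primesLE]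
  constructor
  · rintro ⟨h1, h2⟩; exact ⟨⟨h2.one_lt, h1⟩, h2⟩
  · rintro ⟨⟨_, h1⟩, h2⟩; exact ⟨h1, h2⟩

theorem card_pow {k : ℕ} (hk : 16 ≤ k) : 4 * k * (Nat.primesLE (2 ^ k)).card ≤ 9 * 2 ^ k := by
  rw [primesLE_eq_Pr]
  exact card_pow_Pr hk

end Pool.Agent.H91.Gold
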