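import Mathlib
import Pool.Agent.H91.GoldNum

/-!
Evaluation of chains of blocks by a computable procedure.
-/

namespace Pool.Agent.H91.Gold

open Finset

/-- Product of the octave bounds. -/
def vprod : ℕ → ℕ → ℕ
  | _, 0 => SC
  | j, d + 1 => vO j * vprod (j + 1) d / SC + 1

theorem Pr_prime {x y : ℕ} : ∀ p ∈ Pr x y, p.Prime := fun _ h => prime_of_Pr h

theorem Pr_self (x : ℕ) : Pr x x = ∅ := by unfold Pr; simp

theorem mul_SC_le {a b : ℕ} {x y : ℝ} (hx : 1 ≤ (a : ℝ) / SC * x) (hy : 1 ≤ (b : ℝ) / SC * y)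
    (hx0 : 0 < x) (hy0 : 0 < y) : 1 ≤ ((a * b / SC + 1 : ℕ) : ℝ) / SC * (x * y) := by
  have hS := SC_pos
  have h1 := div_up (a * b) SC (by unfold SC; norm_num)
  have h2 : (1 : ℝ) ≤ ((a : ℝ) / SC * x) * ((b : ℝ) / SC * y) := one_le_mul_of_one_le_of_one_le hx hy
  refine h2.trans ?_
  have : ((a : ℝ) / SC * x) * ((b : ℝ) / SC * y) = ((a * b : ℕ) : ℝ) / SC / SC * (x * y) := by
    push_cast; field_simp
  rw [this]
  gcongr

theorem vprod_le (d : ℕ) : ∀ j, j + d ≤ 10 →
    (1 : ℝ) ≤ (vprod j d : ℝ) / SC * VV (Pr (2 ^ j) (2 ^ (j + d))) := by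
  induction d with
  | zero =>
    intro j _
    rw [add_zero, Pr_self]
    unfold vprod VV
    rw [prod_empty, mul_one, div_self SC_pos.ne']
  | succ d ih =>
    intro j hj
    rw [VV_Pr_split (two_pow_le_two_pow (by omega : j ≤ j + 1)) (two_pow_le_two_pow (by omega : j + 1 ≤ j + (d + 1)))]
    have h1 := ih (j + 1) (by omega)
    rw [show j + 1 + d = j + (d + 1) by ring] at h1
    have h2 := octave_vv (j := j) (by omega)
    unfold vprod
    exact mul_SC_le h2 h1 (VV_pos Pr_prime) (VV_pos Pr_prime)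

theorem one_sub_ge {x : ℝ} (h0 : 0 ≤ x) (h1 : x ≤ 1 / 2) : Real.exp (-(x + 2 * x ^ 2)) ≤ 1 - x := by
  have h := Real.abs_log_sub_add_sum_range_le (x := x) (by rw [abs_of_nonneg h0]; linarith) 1
  simp only [Finset.sum_range_one] at h
  rw [abs_of_nonneg h0] at h
  have h2 := (abs_le.1 h).1
  have h3 : x ^ (1 + 1) / (1 - x) ≤ 2 * x ^ 2 := by
    rw [div_le_iff₀ (by linarith)]
    have := mul_nonneg (sq_nonneg x) (by linarith : 0 ≤ 1 - 2 * x)
    have e : x ^ (1 + 1) = x ^ 2 := by norm_num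
    rw [e]
    nlinarith
  have h4 : -(x + 2 * x ^ 2) ≤ Real.log (1 - x) := by
    norm_num at h2
    norm_num at h3
    linarith
  calc Real.exp (-(x + 2 * x ^ 2)) ≤ Real.exp (Real.log (1 - x)) := Real.exp_le_exp.2 h4
    _ = 1 - x := Real.exp_log (by linarith)

theorem g_Pr {j k p : ℕ} (hj : 1 ≤ j) (hp : p ∈ Pr (2 ^ j) (2 ^ k)) : g p = 2 * (1 / (p : ℝ)) := by
  have h2 : 2 ^ 1 ≤ 2 ^ j := two_pow_le_two_pow hj
  have := (mem_Pr.1 hp).1.1
  rw [g_odd (by omega)]
  ring

theorem sum_g_Pr {j k : ℕ} (hj : 1 ≤ j) :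
    ∑ p ∈ Pr (2 ^ j) (2 ^ k), g p = 2 * ∑ p ∈ Pr (2 ^ j) (2 ^ k), (1 : ℝ) / p := by
  rw [mul_sum]
  exact sum_congr rfl (fun p hp => g_Pr hj hp)

/-- Upper bound for the inverse of the density over `(2^j, 2^k]`, `j ≥ 10`. -/
def vbig (j k : ℕ) : ℕ :=
  (SC * (k * k) / (j * j) + 1) * expU (2 * cU j + (8 * (lgU j k + cU j) / 2 ^ j + 1)) / SC + 1

theorem vbig_le {j k : ℕ} (hj : 10 ≤ j) (hjk : j ≤ k) :
    (1 : ℝ) ≤ (vbig j k : ℝ) / SC * VV (Pr (2 ^ j) (2 ^ k)) := by
  have hS := SC_pos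
  set B := Pr (2 ^ j) (2 ^ k) with hB
  set S := ∑ p ∈ B, (1 : ℝ) / p with hSdef
  have hj0 : (0 : ℝ) < j := by exact_mod_cast (by omega : 0 < j)
  have hk0 : (0 : ℝ) < k := by exact_mod_cast (by omega : 0 < k)
  have h2j : (0 : ℝ) < 2 ^ j := by positivity
  have h1 : S ≤ Real.log ((k : ℝ) / j) + (cU j : ℝ) / SC := mertens_cU hj hjk
  have h1' : S ≤ ((lgU j k + cU j : ℕ) : ℝ) / SC := by
    have := lgU_le (j := j) (k := k) (by omega) hjk
    rw [Nat.cast_add, add_div]; linarith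
  have hpB : ∀ p ∈ B, (2 : ℝ) ^ j ≤ p := by
    intro p hp
    have := (mem_Pr.1 hp).1.1
    exact_mod_cast this.le
  have hj1024 : (1024 : ℝ) ≤ 2 ^ j := by
    have := two_pow_le_two_pow hj
    have h : 1024 ≤ 2 ^ j := by simpa using this
    exact_mod_cast h
  -- lower bound for VV
  have h2 : Real.exp (-(2 * S + 8 * S / 2 ^ j)) ≤ VV B := by
    have e1 : ∏ p ∈ B, Real.exp (-(g p + 2 * g p ^ 2)) ≤ VV B := by
      unfold VV
      apply prod_le_prod
      · intro p _; exact (Real.exp_pos _).le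
      · intro p hp
        apply one_sub_ge (g_nonneg p)
        rw [g_Pr (by omega) hp]
        have := hpB p hp
        have hp0 : (0 : ℝ) < p := by linarith
        rw [mul_one_div, div_le_div_iff₀ hp0 (by norm_num)]
        linarith
    refine le_trans ?_ e1
    rw [← Real.exp_sum]
    apply Real.exp_le_exp.2
    rw [sum_neg_distrib]
    apply neg_le_neg
    have e2 : 2 * S + 8 * S / 2 ^ j = ∑ p ∈ B, (2 * ((1 : ℝ) / p) + 8 / 2 ^ j * (1 / p)) := by
      rw [sum_add_distrib, ← mul_sum, ← mul_sum]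
      ring
    rw [e2]
    apply sum_le_sum
    intro p hp
    rw [g_Pr (by omega) hp]
    have := hpB p hp
    have hp0 : (0 : ℝ) < p := by linarith
    have e3 : (1 : ℝ) / p ≤ 1 / 2 ^ j := one_div_le_one_div_of_le h2j this
    have e4 : 0 ≤ (1 : ℝ) / p := by positivity
    have e5 : (1 : ℝ) / p * (1 / p) ≤ 1 / 2 ^ j * (1 / p) := mul_le_mul_of_nonneg_right e3 e4
    have e6 : 2 * (2 * ((1 : ℝ) / p)) ^ 2 = 8 * (1 / p * (1 / p)) := by ring
    rw [e6]
    have e7 : (8 : ℝ) / 2 ^ j * (1 / p) = 8 * (1 / 2 ^ j * (1 / p)) := by ring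
    rw [e7]
    linarith
  -- upper bound of the exponential
  set x : ℕ := 2 * cU j + (8 * (lgU j k + cU j) / 2 ^ j + 1) with hx
  have h3 : 2 * S + 8 * S / 2 ^ j ≤ 2 * Real.log ((k : ℝ) / j) + (x : ℝ) / SC := by
    have e1 := div_up (8 * (lgU j k + cU j)) (2 ^ j) (by positivity)
    have e2 : 8 * S / 2 ^ j ≤ ((8 * (lgU j k + cU j) / 2 ^ j + 1 : ℕ) : ℝ) / SC := by
      rw [le_div_iff₀ hS]
      refine le_trans ?_ e1
      rw [div_mul_eq_mul_div, mul_assoc]
      push_cast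
      apply div_le_div_of_nonneg_right _ h2j.le
      rw [le_div_iff₀ hS] at h1'
      push_cast at h1'
      linarith
    rw [hx, Nat.cast_add, add_div]
    push_cast at e2 ⊢
    have e3 : 2 * (cU j : ℝ) / SC = 2 * ((cU j : ℝ) / SC) := by ring
    rw [e3]
    linarith
  have h4 : Real.exp (2 * S + 8 * S / 2 ^ j) ≤ ((k : ℝ) / j) ^ 2 * ((expU x : ℝ) / SC) := by
    calc Real.exp (2 * S + 8 * S / 2 ^ j) ≤ Real.exp (2 * Real.log ((k : ℝ) / j) + (x : ℝ) / SC) :=
          Real.exp_le_exp.2 h3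
      _ = ((k : ℝ) / j) ^ 2 * Real.exp ((x : ℝ) / SC) := by
          rw [Real.exp_add, two_mul, Real.exp_add, Real.exp_log (by positivity)]
          ring
      _ ≤ ((k : ℝ) / j) ^ 2 * ((expU x : ℝ) / SC) :=
          mul_le_mul_of_nonneg_left (expU_le x) (by positivity)
  have h5 : ((k : ℝ) / j) ^ 2 * ((expU x : ℝ) / SC) ≤ (vbig j k : ℝ) / SC := by
    unfold vbig
    rw [← hx]
    have e1 := div_up (SC * (k * k)) (j * j) (Nat.mul_pos (by omega) (by omega))
    have e2 := div_up ((SC * (k * k) / (j * j) + 1) * expU x) SC (by unfold SC; norm_num)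
    have hE : (0 : ℝ) ≤ (expU x : ℝ) / SC := by positivity
    rw [le_div_iff₀ hS]
    refine le_trans ?_ e2
    rw [Nat.cast_mul]
    have e3 : ((k : ℝ) / j) ^ 2 * ((expU x : ℝ) / SC) * SC
        = ((SC * (k * k) : ℕ) : ℝ) / (j * j : ℕ) * (expU x : ℝ) / SC := by
      push_cast; field_simp
    rw [e3]
    apply div_le_div_of_nonneg_right _ hS.le
    exact mul_le_mul_of_nonneg_right e1 (Nat.cast_nonneg _)
  have h6 : (1 : ℝ) = Real.exp (2 * S + 8 * S / 2 ^ j) * Real.exp (-(2 * S + 8 * S / 2 ^ j)) := by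
    rw [← Real.exp_add]; simp
  rw [h6]
  exact mul_le_mul (h4.trans h5) h2 (Real.exp_pos _).le (by positivity)

/-- Upper bound for the inverse of the density over `(2^j, 2^k]`. -/
def vinvU (j k : ℕ) : ℕ :=
  if k ≤ 10 then vprod j (k - j)
  else if 10 ≤ j then vbig j k
  else vprod j (10 - j) * vbig 10 k / SC + 1

theorem vinvU_le {j k : ℕ} (hjk : j ≤ k) :
    (1 : ℝ) ≤ (vinvU j k : ℝ) / SC * VV (Pr (2 ^ j) (2 ^ k)) := by
  unfold vinvU
  split_ifs with h1 h2
  · have := vprod_le (k - j) j (by omega)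
    rwa [show j + (k - j) = k by omega] at this
  · exact vbig_le h2 hjk
  · rw [VV_Pr_split (two_pow_le_two_pow (by omega : j ≤ 10)) (two_pow_le_two_pow (by omega : 10 ≤ k))]
    have e1 := vprod_le (10 - j) j (by omega)
    rw [show j + (10 - j) = 10 by omega] at e1
    exact mul_SC_le e1 (vbig_le le_rfl (by omega)) (VV_pos Pr_prime) (VV_pos Pr_prime)

/-- Upper bound for the relative truncation error of a block. -/
def epsU (j k b : ℕ) : ℕ :=
  if k ≤ 10 ∧ sumR nO j (k - j) ≤ b then 0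
  else (2 * massU j k) ^ (b + 1) * vinvU j k / (SC ^ (b + 1) * (b + 1).factorial) + 1

theorem epsU_le {j k b : ℕ} (hj : 1 ≤ j) (hjk : j ≤ k) :
    es g (Pr (2 ^ j) (2 ^ k)) (b + 1) ≤ (epsU j k b : ℝ) / SC * VV (Pr (2 ^ j) (2 ^ k)) := by
  have hS := SC_pos
  have hV : 0 < VV (Pr (2 ^ j) (2 ^ k)) := VV_pos Pr_prime
  unfold epsU
  split_ifs with h
  · have hc := cardO (k - j) j (by omega)
    rw [show j + (k - j) = k by omega] at hc
    have : es g (Pr (2 ^ j) (2 ^ k)) (b + 1) = 0 := by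
      unfold es
      rw [powersetCard_eq_empty.2 (by omega)]
      simp
    rw [this]; simp
  · have h1 := es_le (x := g) (Pr (2 ^ j) (2 ^ k)) (fun p _ => g_nonneg p) (b + 1)
    have h2 : ∑ p ∈ Pr (2 ^ j) (2 ^ k), g p ≤ ((2 * massU j k : ℕ) : ℝ) / SC := by
      rw [sum_g_Pr hj]
      have := massU_le hjk
      push_cast
      rw [mul_div_assoc]
      linarith
    have h2' : 0 ≤ ∑ p ∈ Pr (2 ^ j) (2 ^ k), g p := sum_nonneg (fun p _ => g_nonneg p)
    have h3 := pow_le_pow_left₀ h2' h2 (b + 1)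
    have h4 := vinvU_le hjk
    have hf : (0 : ℝ) < ((b + 1).factorial : ℝ) := by positivity
    have h5 : es g (Pr (2 ^ j) (2 ^ k)) (b + 1) ≤ (((2 * massU j k : ℕ) : ℝ) / SC) ^ (b + 1) / (b + 1).factorial := by
      refine h1.trans ?_
      apply div_le_div_of_nonneg_right h3 hf.le
    have h6 : (((2 * massU j k : ℕ) : ℝ) / SC) ^ (b + 1) / (b + 1).factorial
        ≤ (((2 * massU j k : ℕ) : ℝ) / SC) ^ (b + 1) / (b + 1).factorial * ((vinvU j k : ℝ) / SC * VV (Pr (2 ^ j) (2 ^ k))) := by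
      apply le_mul_of_one_le_right (by positivity) h4
    have h7 := div_up ((2 * massU j k) ^ (b + 1) * vinvU j k) (SC ^ (b + 1) * (b + 1).factorial) (by
      apply Nat.mul_pos
      · apply pow_pos; unfold SC; norm_num
      · exact Nat.factorial_pos _)
    refine (h5.trans h6).trans ?_
    have h8 : (((2 * massU j k : ℕ) : ℝ) / SC) ^ (b + 1) / (b + 1).factorial * ((vinvU j k : ℝ) / SC * VV (Pr (2 ^ j) (2 ^ k)))
        = (((2 * massU j k) ^ (b + 1) * vinvU j k : ℕ) : ℝ) / (SC ^ (b + 1) * (b + 1).factorial : ℕ) / SC * VV (Pr (2 ^ j) (2 ^ k)) := by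
      push_cast
      rw [div_pow]
      field_simp
    rw [h8]
    gcongr

theorem sumR_eq (f : ℕ → ℕ) (d : ℕ) : ∀ j, sumR f j d = ∑ m ∈ range d, f (j + m) := by
  induction d with
  | zero => intro j; simp [sumR]
  | succ d ih =>
    intro j
    rw [sum_range_succ', sumR, ih]
    simp only [add_zero]
    rw [add_comm]
    congr 1
    apply sum_congr rfl
    intro m _
    congr 1; ring

theorem es_const {x : ℕ → ℝ} {B : Finset ℕ} {c : ℝ} (h : ∀ p ∈ B, x p = c) (m : ℕ) :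
    es x B m = (B.card.choose m : ℝ) * c ^ m := by
  unfold es
  rw [sum_congr rfl (g := fun _ => c ^ m)]
  · rw [sum_const, card_powersetCard, nsmul_eq_mul]
  · intro t ht
    rw [mem_powersetCard] at ht
    rw [prod_congr rfl (g := fun _ => c) (fun p hp => h p (ht.1 hp)), prod_const, ht.2]

/-- Bound for the elementary symmetric function of `rho` on the block `(2^j, 2^k]`. -/
def eU (j k m : ℕ) : ℕ :=
  if k ≤ 10 then 2 ^ m * ((sumR nO j (k - j)).descFactorial m / m.factorial)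
  else 2 ^ (k * m) / m.factorial + 1

theorem card_Pr_le {j k : ℕ} (hk : 1 ≤ k) : 2 * (Pr (2 ^ j) (2 ^ k)).card ≤ 2 ^ k := by
  have h1 : Pr (2 ^ j) (2 ^ k) ⊆ Nat.primesLE (2 ^ k) := by
    intro p hp
    rw [Nat.mem_primesLE]
    exact ⟨(mem_Pr.1 hp).1.2, (mem_Pr.1 hp).2⟩
  have h2 := card_le_card h1
  have h3 := card_primesLE_le (2 ^ k) (Nat.one_le_two_pow)
  have h4 : 2 ^ k = 2 * 2 ^ (k - 1) := by
    rw [← pow_succ']; congr 1; omega
  omega

theorem rho_Pr {j k p : ℕ} (hj : 1 ≤ j) (hp : p ∈ Pr (2 ^ j) (2 ^ k)) : rho p = 2 := by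
  have h2 : 2 ^ 1 ≤ 2 ^ j := two_pow_le_two_pow hj
  have := (mem_Pr.1 hp).1.1
  unfold rho
  rw [if_neg (by omega)]

theorem eU_le {j k : ℕ} (hj : 1 ≤ j) (hjk : j ≤ k) (m : ℕ) :
    es rho (Pr (2 ^ j) (2 ^ k)) m ≤ eU j k m := by
  unfold eU
  split_ifs with h
  · rw [es_const (fun p hp => rho_Pr hj hp)]
    have hc := cardO (k - j) j (by omega)
    rw [show j + (k - j) = k by omega] at hc
    rw [hc, Nat.choose_eq_descFactorial_div_factorial]
    push_cast
    rw [mul_comm]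
  · have h1 := es_le (x := rho) (Pr (2 ^ j) (2 ^ k)) (fun p _ => (rho_pos p).le) m
    have h2 : ∑ p ∈ Pr (2 ^ j) (2 ^ k), rho p ≤ 2 ^ k := by
      rw [sum_congr rfl (fun p hp => rho_Pr hj hp), sum_const, nsmul_eq_mul]
      have := card_Pr_le (j := j) (k := k) (by omega)
      have h : ((2 * (Pr (2 ^ j) (2 ^ k)).card : ℕ) : ℝ) ≤ ((2 ^ k : ℕ) : ℝ) := by exact_mod_cast this
      push_cast at h
      linarith
    have h2' : 0 ≤ ∑ p ∈ Pr (2 ^ j) (2 ^ k), rho p := sum_nonneg (fun p _ => (rho_pos p).le)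
    have h3 := pow_le_pow_left₀ h2' h2 m
    have h4 := div_up (2 ^ (k * m)) m.factorial (Nat.factorial_pos m)
    refine h1.trans (le_trans ?_ h4)
    push_cast
    rw [pow_mul]
    gcongr

/-- State of a chain: `(F, G, EU, EL)`. -/
structure CV where
  F : ℕ
  G : ℕ
  U : ℕ
  L : ℕ

/-- Soundness of a state for the primes up to `2^c`. -/
def CH (c : ℕ) (v : CV) : Prop :=
  ∀ (N lo : ℤ) (X : ℕ), Chain N lo X (Pr 1 (2 ^ c)) ((v.F : ℝ) / SC) ((v.G : ℝ) / SC) v.U v.L

/-- Adding a block. -/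
def stepV (c k b : ℕ) (v : CV) : CV :=
  ⟨v.F * (SC + epsU c k b) / SC + 1, v.G + epsU c k b, sumR (eU c k) 0 (b + 1) * v.U,
    sumR (eU c k) 0 (b + 1) * v.L + eU c k (b + 1) * v.U⟩

theorem stepV_sound {c k b : ℕ} {v : CV} (hc : 1 ≤ c) (hck : c ≤ k) (hb : Even b) (h : CH c v) :
    CH k (stepV c k b v) := by
  intro N lo X
  have hS := SC_pos
  have h1 := h N lo X
  have h2 := h1.step (B := Pr (2 ^ c) (2 ^ k)) (b := b) (ε := (epsU c k b : ℝ) / SC)
    (A := (sumR (eU c k) 0 (b + 1) : ℕ)) (T := (eU c k (b + 1) : ℕ)) Pr_prime Pr_prime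
    (Pr_disjoint le_rfl) hb (epsU_le hc hck) (by
      rw [sumR_eq]
      push_cast
      apply sum_le_sum
      intro m _
      rw [zero_add]
      exact eU_le hc hck m) (eU_le hc hck (b + 1))
  rw [Pr_union Nat.one_le_two_pow (two_pow_le_two_pow hck)] at h2
  refine h2.mono Pr_prime ?_ ?_ ?_ ?_
  · have h3 := div_up (v.F * (SC + epsU c k b)) SC (by unfold SC; norm_num)
    unfold stepV
    rw [le_div_iff₀ hS]
    refine le_trans (le_of_eq ?_) h3
    push_cast
    field_simp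
  · unfold stepV
    push_cast
    rw [add_div]
  · unfold stepV
    push_cast
    rfl
  · unfold stepV
    push_cast
    rfl

/-- Enlarging the set of primes. -/
def skipV (c k : ℕ) (v : CV) : CV := ⟨v.F * vinvU c k / SC + 1, SC, v.U, v.U⟩

theorem skipV_sound {c k : ℕ} {v : CV} (hck : c ≤ k) (h : CH c v) : CH k (skipV c k v) := by
  intro N lo X
  have hS := SC_pos
  have h1 := h N lo X
  have h2 := h1.skip (B := Pr (2 ^ c) (2 ^ k)) (v := (vinvU c k : ℝ) / SC) Pr_prime Pr_prime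
    (Pr_disjoint le_rfl) (vinvU_le hck)
  rw [Pr_union Nat.one_le_two_pow (two_pow_le_two_pow hck)] at h2
  refine h2.mono Pr_prime ?_ ?_ le_rfl le_rfl
  · have h3 := div_up (v.F * vinvU c k) SC (by unfold SC; norm_num)
    unfold skipV
    rw [le_div_iff₀ hS]
    refine le_trans (le_of_eq ?_) h3
    push_cast
    field_simp
  · unfold skipV
    rw [div_self hS.ne']

theorem Sv_nf (N lo : ℤ) (X : ℕ) (S : Finset ℕ) (hS : ∀ p ∈ S, p.Prime) :
    Sv N lo X S (nf N S) (VV S) (∏ p ∈ S, (1 + rho p)) := by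
  induction S using Finset.induction_on with
  | empty =>
    apply (Sv_one N lo X).congr
    · intro a; simp [nf]
    · simp [VV]
    · simp
  | insert p S hp ih =>
    have hp' := hS p (mem_insert_self _ _)
    have ih' := ih (fun q hq => hS q (mem_insert_of_mem hq))
    have h1 := ih'.mono (S' := S ∪ {p}) subset_union_left le_rfl
    have h2 := (ih'.mul_prod {p} (by simpa using hp') (by simpa using hp)).smul (-1)
    have h3 := h1.add h2
    rw [show insert p S = S ∪ {p} by rw [union_comm]; rfl]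
    apply h3.congr
    · intro a
      rw [nf_union N (by simpa using hp)]
      unfold nf
      rw [prod_singleton, prod_singleton]
      ring
    · rw [VV_union (by simpa using hp)]
      unfold VV
      rw [prod_singleton, prod_singleton]
      ring
    · rw [prod_union (by simpa using hp)]
      rw [prod_singleton, prod_singleton]
      simp
      ring

/-- Error of the exact inclusion-exclusion over the primes up to `2^e`. -/
def legE (e : ℕ) : ℕ := if e = 0 then 1 else 2 * 3 ^ (sumR nO 0 e - 1)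

/-- Start of a chain. -/
def startV (e : ℕ) : CV := ⟨SC, 0, legE e, legE e⟩

theorem startV_sound {e : ℕ} (he : e ≤ 10) : CH e (startV e) := by
  intro N lo X
  have hS := SC_pos
  have hprod : ∏ p ∈ Pr 1 (2 ^ e), (1 + rho p) = (legE e : ℝ) := by
    unfold legE
    rcases Nat.eq_zero_or_pos e with rfl | he1
    · rw [if_pos rfl]
      rw [pow_zero, Pr_self]; simp
    · rw [if_neg (by omega), ← Pr_union (y := 2) (by norm_num) (by
        have := two_pow_le_two_pow he1
        simpa using this), prod_union (Pr_disjoint le_rfl).symm]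
      have h12 : Pr 1 2 = {2} := by decide
      rw [h12, prod_singleton]
      have hr2 : rho 2 = 1 := by unfold rho; simp
      rw [hr2]
      have hc : (Pr 2 (2 ^ e)).card = sumR nO 0 e - 1 := by
        have h1 := cardO (e - 1) 1 (by omega)
        rw [show 1 + (e - 1) = e by omega, pow_one] at h1
        rw [h1]
        obtain ⟨f, rfl⟩ : ∃ f, e = f + 1 := ⟨e - 1, by omega⟩
        have h3 : nO 0 = 1 := rfl
        have h4 : sumR nO 0 (f + 1) = nO 0 + sumR nO 1 f := rfl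
        rw [h4, h3, Nat.add_sub_cancel]
        omega
      rw [prod_congr rfl (g := fun _ => (3 : ℝ)), prod_const, hc]
      · push_cast; norm_num
      · intro p hp
        have := rho_Pr (j := 1) (k := e) le_rfl (by rw [pow_one]; exact hp)
        rw [this]; norm_num
  have h0 := Sv_nf N lo X (Pr 1 (2 ^ e)) Pr_prime
  rw [hprod] at h0
  refine ⟨nf N (Pr 1 (2 ^ e)), nf N (Pr 1 (2 ^ e)), VV (Pr 1 (2 ^ e)), VV (Pr 1 (2 ^ e)),
    fun a => le_rfl, fun a => le_rfl, h0, h0, le_rfl, ?_, ?_⟩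
  · unfold startV
    rw [div_self hS.ne', one_mul]
  · unfold startV
    simp

/-- Running a list of blocks `(k, b)`. -/
def runB : List (ℕ × ℕ) → ℕ → CV → ℕ × CV
  | [], c, v => (c, v)
  | (k, b) :: l, c, v => runB l k (stepV c k b v)

/-- Validity of a list of blocks starting from `c`. -/
def validB : List (ℕ × ℕ) → ℕ → Bool
  | [], _ => true
  | (k, b) :: l, c => 1 ≤ c && c ≤ k && b % 2 == 0 && validB l k

theorem runB_sound (l : List (ℕ × ℕ)) : ∀ (c : ℕ) (v : CV), validB l c = true → CH c v →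
    CH (runB l c v).1 (runB l c v).2 := by
  induction l with
  | nil => intro c v _ h; exact h
  | cons x l ih =>
    intro c v hv h
    obtain ⟨k, b⟩ := x
    unfold validB at hv
    simp only [Bool.and_eq_true, decide_eq_true_eq, beq_iff_eq] at hv
    exact ih k _ hv.2 (stepV_sound hv.1.1.1 hv.1.1.2 (Nat.even_iff.2 hv.1.2) h)

/-- Checks that the chain `(e, l)` for the primes up to `2^al` has parameters at most
`F`, `G`, `2^eu`, `2^el`. -/
def okC (al e : ℕ) (l : List (ℕ × ℕ)) (F G eu el : ℕ) : Bool :=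
  let r := runB l e (startV e)
  e ≤ 10 && validB l e && r.1 == al && r.2.F ≤ F && r.2.G ≤ G && r.2.U ≤ 2 ^ eu && r.2.L ≤ 2 ^ el

theorem CH.mono {c : ℕ} {v : CV} (h : CH c v) {F G U L : ℕ} (hF : v.F ≤ F) (hG : v.G ≤ G) (hU : v.U ≤ U)
    (hL : v.L ≤ L) : CH c ⟨F, G, U, L⟩ := by
  intro N lo X
  have hS := SC_pos
  refine (h N lo X).mono Pr_prime ?_ ?_ ?_ ?_
  · apply div_le_div_of_nonneg_right _ hS.le
    exact_mod_cast hF
  · apply div_le_div_of_nonneg_right _ hS.le
    exact_mod_cast hG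
  · exact_mod_cast hU
  · exact_mod_cast hL

theorem okC_sound {al e : ℕ} {l : List (ℕ × ℕ)} {F G eu el : ℕ} (h : okC al e l F G eu el = true) :
    CH al ⟨F, G, 2 ^ eu, 2 ^ el⟩ := by
  unfold okC at h
  simp only [Bool.and_eq_true, decide_eq_true_eq, beq_iff_eq] at h
  obtain ⟨⟨⟨⟨⟨⟨h1, h2⟩, h3⟩, h4⟩, h5⟩, h6⟩, h7⟩ := h
  have := runB_sound l e (startV e) h2 (startV_sound h1)
  rw [h3] at this
  exact this.mono h4 h5 h6 h7

/-- Checks an upper chain that may skip the last primes. -/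
def okU (al e : ℕ) (l : List (ℕ × ℕ)) (F eu : ℕ) : Bool :=
  let r := runB l e (startV e)
  e ≤ 10 && validB l e && r.1 ≤ al && (if r.1 = al then r.2.F else (skipV r.1 al r.2).F) ≤ F
    && r.2.U ≤ 2 ^ eu

/-- An upper bound sieve for the primes up to `2^al`. -/
def UP (al F eu : ℕ) : Prop :=
  ∀ (N lo : ℤ) (X : ℕ), ∃ G EL : ℝ, Chain N lo X (Pr 1 (2 ^ al)) ((F : ℝ) / SC) G ((2 ^ eu : ℕ) : ℝ) EL

theorem okU_sound {al e : ℕ} {l : List (ℕ × ℕ)} {F eu : ℕ} (h : okU al e l F eu = true) :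
    UP al F eu := by
  unfold okU at h
  simp only [Bool.and_eq_true, decide_eq_true_eq] at h
  obtain ⟨⟨⟨⟨h1, h2⟩, h3⟩, h4⟩, h5⟩ := h
  have hr := runB_sound l e (startV e) h2 (startV_sound h1)
  intro N lo X
  by_cases hc : (runB l e (startV e)).1 = al
  · rw [if_pos hc] at h4
    rw [hc] at hr
    have := hr.mono h4 le_rfl h5 le_rfl
    exact ⟨_, _, this N lo X⟩
  · rw [if_neg hc] at h4
    have hs := skipV_sound h3 hr
    have h5' : (skipV (runB l e (startV e)).1 al (runB l e (startV e)).2).U ≤ 2 ^ eu := h5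
    have := hs.mono h4 le_rfl h5' le_rfl
    exact ⟨_, _, this N lo X⟩

end Pool.Agent.H91.Gold
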