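import Mathlib
import Pool.Agent.H91.GoldEval

/-!
The computable check of the weighted sieve inequality and its soundness.
-/

namespace Pool.Agent.H91.Gold

open Finset

/-- Contribution of the prime `p` to the weighted sum. -/
noncomputable def bigT (N lo : ℤ) (X : ℕ) (S : Finset ℕ) (w : ℕ → ℝ) (p : ℕ) : ℝ :=
  ∑ a ∈ Ioc lo (lo + X), nf N S a * (w p * (ind p 0 a + ind p N a)
    + (ind (p ^ 2) 0 a + ind (p ^ 2) N a))

theorem exists_of_bigT {N lo : ℤ} {X : ℕ} {S P : Finset ℕ} {F G EU EL : ℝ}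
    (h : Chain N lo X S F G EU EL) (hG : G ≤ 1) (w : ℕ → ℝ)
    (hlt : ∑ p ∈ P, bigT N lo X S w p < (X : ℝ) * ((1 - G) * VV S) - EL) :
    ∃ a ∈ Ioc lo (lo + X), nf N S a ≠ 0 ∧ wt N P w a < 1 := by
  by_contra hcon
  push Not at hcon
  have h1 : ∑ a ∈ Ioc lo (lo + X), nf N S a * (1 - wt N P w a) ≤ 0 := by
    apply sum_nonpos
    intro a ha
    by_cases h0 : nf N S a = 0
    · rw [h0]; simp
    · have := hcon a ha h0
      have := nf_nonneg N S a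
      nlinarith
  have h2 : ∑ a ∈ Ioc lo (lo + X), nf N S a * wt N P w a = ∑ p ∈ P, bigT N lo X S w p := by
    unfold wt bigT
    simp only [mul_sum]
    rw [sum_comm]
  have h3 := h.lower hG
  have h4 : ∑ a ∈ Ioc lo (lo + X), nf N S a * (1 - wt N P w a)
      = ∑ a ∈ Ioc lo (lo + X), nf N S a - ∑ a ∈ Ioc lo (lo + X), nf N S a * wt N P w a := by
    rw [← sum_sub_distrib]
    apply sum_congr rfl
    intro a _
    ring
  linarith

theorem bigT_le {N lo : ℤ} {X : ℕ} {S : Finset ℕ} (hS : ∀ p ∈ S, p.Prime) {p : ℕ} (hpp : p.Prime)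
    (hpS : p ∉ S) {w : ℕ → ℝ} {W : ℝ} (hw0 : 0 ≤ w p) (hw : w p ≤ W)
    {F1 G1 E1 L1 F2 G2 E2 L2 : ℝ} (h1 : Chain N lo X S F1 G1 E1 L1) (h2 : Chain N lo X S F2 G2 E2 L2) :
    bigT N lo X S w p ≤ 2 * W * ((X : ℝ) / p * (F1 * VV S) + E1)
      + 2 * ((X : ℝ) / (p ^ 2 : ℕ) * (F2 * VV S) + E2) := by
  have hc1 : ∀ r ∈ S, Nat.Coprime r p := by
    intro r hr
    rw [Nat.coprime_primes (hS r hr) hpp]
    rintro rfl
    exact hpS hr
  have hc2 : ∀ r ∈ S, Nat.Coprime r (p ^ 2) := fun r hr => Nat.Coprime.pow_right 2 (hc1 r hr)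
  have a1 := h1.upper hpp.pos hc1 0
  have a2 := h1.upper hpp.pos hc1 N
  have a3 := h2.upper (pow_pos hpp.pos 2) hc2 0
  have a4 := h2.upper (pow_pos hpp.pos 2) hc2 N
  have b0 : ∀ c, 0 ≤ ∑ a ∈ Ioc lo (lo + X), ind p c a * nf N S a := fun c =>
    sum_nonneg (fun a _ => mul_nonneg (ind_nonneg _ _ _) (nf_nonneg _ _ _))
  have : bigT N lo X S w p
      = w p * (∑ a ∈ Ioc lo (lo + X), ind p 0 a * nf N S a + ∑ a ∈ Ioc lo (lo + X), ind p N a * nf N S a)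
        + (∑ a ∈ Ioc lo (lo + X), ind (p ^ 2) 0 a * nf N S a
          + ∑ a ∈ Ioc lo (lo + X), ind (p ^ 2) N a * nf N S a) := by
    unfold bigT
    rw [← sum_add_distrib, ← sum_add_distrib, mul_sum, ← sum_add_distrib]
    apply sum_congr rfl
    intro a _
    ring
  rw [this]
  have b1 : w p * (∑ a ∈ Ioc lo (lo + X), ind p 0 a * nf N S a + ∑ a ∈ Ioc lo (lo + X), ind p N a * nf N S a)
      ≤ W * (2 * ((X : ℝ) / p * (F1 * VV S) + E1)) := by
    apply mul_le_mul hw _ (add_nonneg (b0 0) (b0 N)) (hw0.trans hw)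
    linarith
  linarith

theorem UP_trivial (al : ℕ) : UP al (vinvU 0 al + 1) 0 := by
  intro N lo X
  have h := skipV_sound (k := al) (Nat.zero_le al) (startV_sound (e := 0) (by norm_num)) N lo X
  refine ⟨_, _, h.mono Pr_prime ?_ le_rfl ?_ le_rfl⟩
  · unfold skipV startV
    simp only
    rw [Nat.mul_div_cancel_left _ (by unfold SC; norm_num)]
  · unfold skipV startV legE
    simp

/-- First option with small error. -/
def sel (v0 : ℕ) : List (ℕ × ℕ) → ℕ → ℕ × ℕ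
  | [], _ => (v0, 0)
  | o :: l, t => if o.2 ≤ t then o else sel v0 l t

theorem sel_UP {al v0 : ℕ} (hv : UP al v0 0) (ups : List (ℕ × ℕ)) (h : ∀ o ∈ ups, UP al o.1 o.2) (t : ℕ) :
    UP al (sel v0 ups t).1 (sel v0 ups t).2 := by
  induction ups with
  | nil => exact hv
  | cons o l ih =>
    unfold sel
    split_ifs
    · exact h o List.mem_cons_self
    · exact ih (fun o' ho' => h o' (List.mem_cons_of_mem _ ho'))

/-- Cost of the squares of the primes of a class, best option. -/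
def sqM (v0 X q n : ℕ) : List (ℕ × ℕ) → ℕ
  | [] => 2 * (v0 * q / SC + 1 + (n * 2 ^ 0 * v0 / X + 1))
  | o :: l => min (2 * (o.1 * q / SC + 1 + (n * 2 ^ o.2 * v0 / X + 1))) (sqM v0 X q n l)

theorem sqM_UP {al v0 : ℕ} (hv : UP al v0 0) (X q n : ℕ) (ups : List (ℕ × ℕ))
    (h : ∀ o ∈ ups, UP al o.1 o.2) : ∃ F eb, UP al F eb ∧
      sqM v0 X q n ups = 2 * (F * q / SC + 1 + (n * 2 ^ eb * v0 / X + 1)) := by
  induction ups with
  | nil => exact ⟨v0, 0, hv, rfl⟩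
  | cons o l ih =>
    obtain ⟨F, eb, h1, h2⟩ := ih (fun o' ho' => h o' (List.mem_cons_of_mem _ ho'))
    unfold sqM
    rcases min_choice (2 * (o.1 * q / SC + 1 + (n * 2 ^ o.2 * v0 / X + 1))) (sqM v0 X q n l) with h3 | h3
    · rw [h3]; exact ⟨o.1, o.2, h o List.mem_cons_self, rfl⟩
    · rw [h3]; exact ⟨F, eb, h1, h2⟩

/-- Cost of the first powers of the primes of a class, best option. -/
def fpM (v0 X M w s n : ℕ) : List (ℕ × ℕ) → ℕ
  | [] => (v0 * w / M + 1) * s / SC + 1 + (n * 2 ^ 0 * v0 * w / (M * X) + 1)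
  | o :: l => min ((o.1 * w / M + 1) * s / SC + 1 + (n * 2 ^ o.2 * v0 * w / (M * X) + 1))
      (fpM v0 X M w s n l)

theorem fpM_UP {al v0 : ℕ} (hv : UP al v0 0) (X M w s n : ℕ) (ups : List (ℕ × ℕ))
    (h : ∀ o ∈ ups, UP al o.1 o.2) : ∃ F eb, UP al F eb ∧
      fpM v0 X M w s n ups = (F * w / M + 1) * s / SC + 1 + (n * 2 ^ eb * v0 * w / (M * X) + 1) := by
  induction ups with
  | nil => exact ⟨v0, 0, hv, rfl⟩
  | cons o l ih =>
    obtain ⟨F, eb, h1, h2⟩ := ih (fun o' ho' => h o' (List.mem_cons_of_mem _ ho'))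
    unfold fpM
    rcases min_choice ((o.1 * w / M + 1) * s / SC + 1 + (n * 2 ^ o.2 * v0 * w / (M * X) + 1))
      (fpM v0 X M w s n l) with h3 | h3
    · rw [h3]; exact ⟨o.1, o.2, h o List.mem_cons_self, rfl⟩
    · rw [h3]; exact ⟨F, eb, h1, h2⟩

/-- The weights. -/
noncomputable def ww (be M : ℕ) (p : ℕ) : ℝ := (be - Real.log p / Real.log 2) / M

theorem ww_nonneg {be M e p : ℕ} (hp : p ∈ Pr (2 ^ e) (2 ^ be)) : 0 ≤ ww be M p := by
  unfold ww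
  have h2 : 0 < Real.log 2 := Real.log_pos (by norm_num)
  have h := (mem_Pr.1 hp).1.2
  have hp0 := (mem_Pr.1 hp).2.pos
  have h3 : Real.log p ≤ be * Real.log 2 := by
    rw [← Real.log_pow]
    apply Real.log_le_log (by exact_mod_cast hp0)
    exact_mod_cast h
  have : Real.log p / Real.log 2 ≤ be := by rwa [div_le_iff₀ h2]
  apply div_nonneg (by linarith) (Nat.cast_nonneg _)

theorem ww_le {be M e e' p : ℕ} (hp : p ∈ Pr (2 ^ e) (2 ^ e')) (heb : e ≤ be) :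
    ww be M p ≤ ((be - e : ℕ) : ℝ) / M := by
  unfold ww
  have h2 : 0 < Real.log 2 := Real.log_pos (by norm_num)
  have h := (mem_Pr.1 hp).1.1
  have h3 : e * Real.log 2 ≤ Real.log p := by
    rw [← Real.log_pow]
    apply Real.log_le_log (by positivity)
    exact_mod_cast h.le
  have : (e : ℝ) ≤ Real.log p / Real.log 2 := by rwa [le_div_iff₀ h2]
  apply div_le_div_of_nonneg_right _ (Nat.cast_nonneg _)
  rw [Nat.cast_sub heb]
  linarith

theorem class_bound {N lo : ℤ} {X al be M v0 e e' : ℕ} (hX : 0 < X) (hM : 0 < M) (hal : al ≤ e)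
    (he' : e' ≤ be) (hee : e ≤ e')
    (hv : (1 : ℝ) ≤ (v0 : ℝ) / SC * VV (Pr 1 (2 ^ al)))
    {F1 eb1 F2 eb2 : ℕ} (h1 : UP al F1 eb1) (h2 : UP al F2 eb2) {q n : ℕ}
    (hq : ∑ p ∈ Pr (2 ^ e) (2 ^ e'), (1 : ℝ) / (p ^ 2 : ℕ) ≤ (q : ℝ) / SC)
    (hn : (Pr (2 ^ e) (2 ^ e')).card ≤ n) :
    ∑ p ∈ Pr (2 ^ e) (2 ^ e'), bigT N lo X (Pr 1 (2 ^ al)) (ww be M) p
      ≤ ((X : ℝ) * VV (Pr 1 (2 ^ al)) / SC) * (((F1 * (2 * (be - e)) / M + 1 : ℕ) : ℝ)
          * (∑ p ∈ Pr (2 ^ e) (2 ^ e'), (1 : ℝ) / p)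
        + ((n * 2 ^ eb1 * v0 * (2 * (be - e)) / (M * X) + 1 : ℕ) : ℝ)
        + ((2 * (F2 * q / SC + 1 + (n * 2 ^ eb2 * v0 / X + 1)) : ℕ) : ℝ)) := by
  have hS := SC_pos
  obtain ⟨G1, L1, c1⟩ := h1 N lo X
  obtain ⟨G2, L2, c2⟩ := h2 N lo X
  set V := VV (Pr 1 (2 ^ al)) with hV
  have hVpos : 0 < V := VV_pos Pr_prime
  have hXr : (0 : ℝ) < X := by exact_mod_cast hX
  have hMr : (0 : ℝ) < M := by exact_mod_cast hM
  set C := Pr (2 ^ e) (2 ^ e') with hC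
  set W : ℝ := ((be - e : ℕ) : ℝ) / M with hW
  have hW0 : 0 ≤ W := by positivity
  have hterm : ∀ p ∈ C, bigT N lo X (Pr 1 (2 ^ al)) (ww be M) p
      ≤ 2 * W * ((X : ℝ) / p * ((F1 : ℝ) / SC * V) + ((2 ^ eb1 : ℕ) : ℝ))
        + 2 * ((X : ℝ) / (p ^ 2 : ℕ) * ((F2 : ℝ) / SC * V) + ((2 ^ eb2 : ℕ) : ℝ)) := by
    intro p hp
    have hp' : p ∈ Pr (2 ^ e) (2 ^ be) := by
      rw [mem_Pr] at hp ⊢
      exact ⟨⟨hp.1.1, hp.1.2.trans (two_pow_le_two_pow he')⟩, hp.2⟩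
    apply bigT_le Pr_prime (prime_of_Pr hp) _ (ww_nonneg hp') (ww_le hp (by omega)) c1 c2
    intro hmem
    have := (mem_Pr.1 hmem).1.2
    have h3 := (mem_Pr.1 hp).1.1
    have h4 := two_pow_le_two_pow hal
    omega
  refine (sum_le_sum hterm).trans ?_
  have hsum : ∑ p ∈ C, (2 * W * ((X : ℝ) / p * ((F1 : ℝ) / SC * V) + ((2 ^ eb1 : ℕ) : ℝ))
        + 2 * ((X : ℝ) / (p ^ 2 : ℕ) * ((F2 : ℝ) / SC * V) + ((2 ^ eb2 : ℕ) : ℝ)))
      = 2 * W * X * ((F1 : ℝ) / SC * V) * (∑ p ∈ C, (1 : ℝ) / p) + 2 * W * (C.card * ((2 ^ eb1 : ℕ) : ℝ))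
        + 2 * X * ((F2 : ℝ) / SC * V) * (∑ p ∈ C, (1 : ℝ) / (p ^ 2 : ℕ)) + 2 * (C.card * ((2 ^ eb2 : ℕ) : ℝ)) := by
    rw [mul_sum, mul_sum, ← nsmul_eq_mul, ← nsmul_eq_mul, ← sum_const, ← sum_const, mul_sum, mul_sum,
      ← sum_add_distrib, ← sum_add_distrib, ← sum_add_distrib]
    apply sum_congr rfl
    intro p _
    ring
  rw [hsum]
  have hs0 : 0 ≤ ∑ p ∈ C, (1 : ℝ) / p := sum_nonneg (fun p _ => by positivity)
  have hn' : (C.card : ℝ) ≤ n := by exact_mod_cast hn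
  have hK : 0 < (X : ℝ) * V / SC := by positivity
  -- the four pieces
  have p1 : 2 * W * X * ((F1 : ℝ) / SC * V) * (∑ p ∈ C, (1 : ℝ) / p)
      ≤ (X : ℝ) * V / SC * (((F1 * (2 * (be - e)) / M + 1 : ℕ) : ℝ) * (∑ p ∈ C, (1 : ℝ) / p)) := by
    have e1 := div_up (F1 * (2 * (be - e))) M hM
    have e2 : 2 * W * X * ((F1 : ℝ) / SC * V) = (X : ℝ) * V / SC * (((F1 * (2 * (be - e)) : ℕ) : ℝ) / M) := by
      rw [hW]; push_cast; ring
    rw [e2, mul_assoc]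
    apply mul_le_mul_of_nonneg_left _ hK.le
    exact mul_le_mul_of_nonneg_right e1 hs0
  have key : ∀ (a : ℕ), (a : ℝ) ≤ (X : ℝ) * V / SC * (((a * v0 : ℕ) : ℝ) / X) := by
    intro a
    have : (X : ℝ) * V / SC * (((a * v0 : ℕ) : ℝ) / X) = a * ((v0 : ℝ) / SC * V) := by
      push_cast; field_simp
    rw [this]
    exact le_mul_of_one_le_right (Nat.cast_nonneg a) hv
  have p2 : 2 * W * (C.card * ((2 ^ eb1 : ℕ) : ℝ))
      ≤ (X : ℝ) * V / SC * ((n * 2 ^ eb1 * v0 * (2 * (be - e)) / (M * X) + 1 : ℕ) : ℝ) := by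
    have e1 := div_up (n * 2 ^ eb1 * v0 * (2 * (be - e))) (M * X) (Nat.mul_pos hM hX)
    have e2 := key (n * 2 ^ eb1)
    calc 2 * W * (C.card * ((2 ^ eb1 : ℕ) : ℝ)) ≤ 2 * W * (n * ((2 ^ eb1 : ℕ) : ℝ)) := by gcongr
      _ = 2 * W * ((n * 2 ^ eb1 : ℕ) : ℝ) := by push_cast; ring
      _ ≤ 2 * W * ((X : ℝ) * V / SC * (((n * 2 ^ eb1 * v0 : ℕ) : ℝ) / X)) :=
          mul_le_mul_of_nonneg_left e2 (by positivity)
      _ = (X : ℝ) * V / SC * (((n * 2 ^ eb1 * v0 * (2 * (be - e)) : ℕ) : ℝ) / (M * X : ℕ)) := by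
          rw [hW]; push_cast; field_simp
      _ ≤ _ := mul_le_mul_of_nonneg_left e1 hK.le
  have p3 : 2 * X * ((F2 : ℝ) / SC * V) * (∑ p ∈ C, (1 : ℝ) / (p ^ 2 : ℕ))
      ≤ (X : ℝ) * V / SC * (2 * ((F2 * q / SC + 1 : ℕ) : ℝ)) := by
    have e1 := div_up (F2 * q) SC (by unfold SC; norm_num)
    calc 2 * X * ((F2 : ℝ) / SC * V) * (∑ p ∈ C, (1 : ℝ) / (p ^ 2 : ℕ))
        ≤ 2 * X * ((F2 : ℝ) / SC * V) * ((q : ℝ) / SC) := mul_le_mul_of_nonneg_left hq (by positivity)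
      _ = (X : ℝ) * V / SC * (2 * (((F2 * q : ℕ) : ℝ) / SC)) := by push_cast; field_simp
      _ ≤ _ := by
          apply mul_le_mul_of_nonneg_left _ hK.le
          linarith
  have p4 : 2 * (C.card * ((2 ^ eb2 : ℕ) : ℝ))
      ≤ (X : ℝ) * V / SC * (2 * ((n * 2 ^ eb2 * v0 / X + 1 : ℕ) : ℝ)) := by
    have e1 := div_up (n * 2 ^ eb2 * v0) X hX
    have e2 := key (n * 2 ^ eb2)
    calc 2 * (C.card * ((2 ^ eb2 : ℕ) : ℝ)) ≤ 2 * (n * ((2 ^ eb2 : ℕ) : ℝ)) := by gcongr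
      _ = 2 * ((n * 2 ^ eb2 : ℕ) : ℝ) := by push_cast; ring
      _ ≤ 2 * ((X : ℝ) * V / SC * (((n * 2 ^ eb2 * v0 : ℕ) : ℝ) / X)) := by linarith
      _ ≤ 2 * ((X : ℝ) * V / SC * ((n * 2 ^ eb2 * v0 / X + 1 : ℕ) : ℝ)) := by
          have := mul_le_mul_of_nonneg_left e1 hK.le
          linarith
      _ = _ := by ring
  have e5 : ((2 * (F2 * q / SC + 1 + (n * 2 ^ eb2 * v0 / X + 1)) : ℕ) : ℝ)
      = 2 * ((F2 * q / SC + 1 : ℕ) : ℝ) + 2 * ((n * 2 ^ eb2 * v0 / X + 1 : ℕ) : ℝ) := by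
    push_cast; ring
  rw [e5, mul_add, mul_add, mul_add]
  linarith

/-- Sum of the costs of the small classes. -/
def goA (be X M v0 : ℕ) (ups : List (ℕ × ℕ)) : ℕ → ℕ → ℕ
  | 0, _ => 0
  | d + 1, e => fpM v0 X M (2 * (be - e)) (sO e) (nO e) ups + sqM v0 X (qO e) (nO e) ups
      + goA be X M v0 ups d (e + 1)

theorem goA_sound {N lo : ℤ} {X al be M v0 : ℕ} (hX : 0 < X) (hM : 0 < M)
    (hv : (1 : ℝ) ≤ (v0 : ℝ) / SC * VV (Pr 1 (2 ^ al))) (hv' : UP al v0 0)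
    (ups : List (ℕ × ℕ)) (hups : ∀ o ∈ ups, UP al o.1 o.2) (d : ℕ) :
    ∀ e, al ≤ e → e + d ≤ 10 → e + d ≤ be →
    ∑ p ∈ Pr (2 ^ e) (2 ^ (e + d)), bigT N lo X (Pr 1 (2 ^ al)) (ww be M) p
      ≤ ((X : ℝ) * VV (Pr 1 (2 ^ al)) / SC) * (goA be X M v0 ups d e : ℕ) := by
  have hS := SC_pos
  have hVpos : 0 < VV (Pr 1 (2 ^ al)) := VV_pos Pr_prime
  have hXr : (0 : ℝ) < X := by exact_mod_cast hX
  have hK : 0 < (X : ℝ) * VV (Pr 1 (2 ^ al)) / SC := by positivity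
  induction d with
  | zero =>
    intro e _ _ _
    rw [add_zero, Pr_self]
    simp [goA]
  | succ d ih =>
    intro e h1 h2 h3
    rw [sum_Pr_split _ (two_pow_le_two_pow (by omega : e ≤ e + 1)) (two_pow_le_two_pow (by omega : e + 1 ≤ e + (d + 1)))]
    have h4 := ih (e + 1) (by omega) (by omega) (by omega)
    rw [show e + 1 + d = e + (d + 1) by ring] at h4
    obtain ⟨F1, eb1, u1, f1⟩ := fpM_UP hv' X M (2 * (be - e)) (sO e) (nO e) ups hups
    obtain ⟨F2, eb2, u2, f2⟩ := sqM_UP hv' X (qO e) (nO e) ups hups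
    have h5 := class_bound (N := N) (lo := lo) (e := e) (e' := e + 1) (be := be) hX hM h1 (by omega) (by omega) hv u1 u2
      (octave_q (by omega)) (octave_n (by omega)).le
    have h6 := octave_s (j := e) (by omega)
    have h7 : ((F1 * (2 * (be - e)) / M + 1 : ℕ) : ℝ) * (∑ p ∈ Pr (2 ^ e) (2 ^ (e + 1)), (1 : ℝ) / p)
        ≤ (((F1 * (2 * (be - e)) / M + 1) * sO e / SC + 1 : ℕ) : ℝ) := by
      have e1 := div_up ((F1 * (2 * (be - e)) / M + 1) * sO e) SC (by unfold SC; norm_num)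
      refine le_trans ?_ e1
      calc ((F1 * (2 * (be - e)) / M + 1 : ℕ) : ℝ) * (∑ p ∈ Pr (2 ^ e) (2 ^ (e + 1)), (1 : ℝ) / p)
          ≤ ((F1 * (2 * (be - e)) / M + 1 : ℕ) : ℝ) * ((sO e : ℝ) / SC) :=
            mul_le_mul_of_nonneg_left h6 (Nat.cast_nonneg _)
        _ = _ := by rw [Nat.cast_mul]; ring
    unfold goA
    rw [f1, f2]
    have h8 := mul_le_mul_of_nonneg_left h7 hK.le
    rw [Nat.cast_add, Nat.cast_add, Nat.cast_add, mul_add, mul_add, mul_add]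
    rw [mul_add, mul_add] at h5
    linarith

/-- Recursion over the large classes. -/
def goB (be i X M v0 delta : ℕ) (ups : List (ℕ × ℕ)) : ℕ → ℕ → ℕ → Option (ℕ × ℕ)
  | 0, e, _ => if be ≤ e then some (0, 0) else none
  | f + 1, e, S => if be ≤ e then some (0, 0) else
      match goB be i X M v0 delta ups f (min be (e + max 1 (e / 12)))
        (S + lgU e (min be (e + max 1 (e / 12)))) with
      | none => none
      | some r => some
          (max ((sel v0 ups (i - (min be (e + max 1 (e / 12)) + delta))).1 * (2 * (be - e)) / M + 1) r.1,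
          r.2 + ((max ((sel v0 ups (i - (min be (e + max 1 (e / 12)) + delta))).1 * (2 * (be - e)) / M + 1) r.1 - r.1)
              * (S + lgU e (min be (e + max 1 (e / 12)))) / SC + 1)
            + (2 ^ (min be (e + max 1 (e / 12)) - 1) * 2 ^ (sel v0 ups (i - (min be (e + max 1 (e / 12)) + delta))).2
                * v0 * (2 * (be - e)) / (M * X) + 1)
            + sqM v0 X (SC / 2 ^ (e + 1) + 1) (2 ^ (min be (e + max 1 (e / 12)) - 1)) ups)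

theorem sq_tail_aux {x : ℕ} (hx : 2 ≤ x) (hxe : Even x) (d : ℕ) :
    ∑ p ∈ Pr x (x + 2 * d), (1 : ℝ) / (p ^ 2 : ℕ) ≤ 1 / 2 * (1 / x - 1 / (x + 2 * d : ℕ)) := by
  induction d with
  | zero => rw [mul_zero, add_zero, Pr_self]; simp
  | succ d ih =>
    rw [sum_Pr_split _ (by omega : x ≤ x + 2 * d) (by omega : x + 2 * d ≤ x + 2 * (d + 1))]
    have h1 : Pr (x + 2 * d) (x + 2 * (d + 1)) ⊆ {x + 2 * d + 1} := by
      intro p hp
      rw [mem_Pr] at hp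
      rw [mem_singleton]
      by_contra hne
      have h2 : p = x + 2 * (d + 1) := by omega
      have h3 : Even p := by
        rw [h2]; exact hxe.add (even_two_mul _)
      have := (hp.2.even_iff).1 h3
      omega
    have h2 : ∑ p ∈ Pr (x + 2 * d) (x + 2 * (d + 1)), (1 : ℝ) / (p ^ 2 : ℕ)
        ≤ 1 / ((x + 2 * d + 1) ^ 2 : ℕ) := by
      calc ∑ p ∈ Pr (x + 2 * d) (x + 2 * (d + 1)), (1 : ℝ) / (p ^ 2 : ℕ)
          ≤ ∑ p ∈ {x + 2 * d + 1}, (1 : ℝ) / (p ^ 2 : ℕ) :=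
            sum_le_sum_of_subset_of_nonneg h1 (fun _ _ _ => by positivity)
        _ = _ := by rw [sum_singleton]
    have hy : (0 : ℝ) < ((x + 2 * d : ℕ) : ℝ) := by exact_mod_cast (by omega : 0 < x + 2 * d)
    have h3 : (1 : ℝ) / ((x + 2 * d + 1) ^ 2 : ℕ)
        ≤ 1 / 2 * (1 / (x + 2 * d : ℕ) - 1 / (x + 2 * (d + 1) : ℕ)) := by
      have e1 : ((x + 2 * (d + 1) : ℕ) : ℝ) = ((x + 2 * d : ℕ) : ℝ) + 2 := by push_cast; ring
      have e2 : (((x + 2 * d + 1) ^ 2 : ℕ) : ℝ) = (((x + 2 * d : ℕ) : ℝ) + 1) ^ 2 := by push_cast; ring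
      rw [e1, e2]
      set y := ((x + 2 * d : ℕ) : ℝ)
      have e3 : 1 / 2 * (1 / y - 1 / (y + 2)) = 1 / (y * (y + 2)) := by
        field_simp
        ring
      rw [e3]
      apply one_div_le_one_div_of_le (by positivity)
      nlinarith
    linarith

theorem sq_tail {e e' : ℕ} (he : 1 ≤ e) (hee : e ≤ e') :
    ∑ p ∈ Pr (2 ^ e) (2 ^ e'), (1 : ℝ) / (p ^ 2 : ℕ) ≤ ((SC / 2 ^ (e + 1) + 1 : ℕ) : ℝ) / SC := by
  have hS := SC_pos
  have h1 : 2 ^ e ≤ 2 ^ e' := two_pow_le_two_pow hee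
  have h2 : Even (2 ^ e) := (Nat.even_pow.2 ⟨even_two, by omega⟩)
  have h3 : Even (2 ^ e') := (Nat.even_pow.2 ⟨even_two, by omega⟩)
  obtain ⟨d, hd⟩ : ∃ d, 2 ^ e' = 2 ^ e + 2 * d := by
    obtain ⟨a, ha⟩ := h2
    obtain ⟨b, hb⟩ := h3
    exact ⟨b - a, by omega⟩
  have h4 : 2 ≤ 2 ^ e := by
    have := two_pow_le_two_pow he
    simpa using this
  have h5 := sq_tail_aux h4 h2 d
  rw [← hd] at h5
  refine h5.trans ?_
  have h6 := div_up SC (2 ^ (e + 1)) (by positivity)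
  rw [le_div_iff₀ hS]
  refine le_trans ?_ h6
  have h7 : (0 : ℝ) ≤ 1 / ((2 ^ e' : ℕ) : ℝ) := by positivity
  have h8 : 1 / 2 * (1 / ((2 ^ e : ℕ) : ℝ) - 1 / ((2 ^ e' : ℕ) : ℝ)) ≤ 1 / 2 * (1 / ((2 ^ e : ℕ) : ℝ)) := by linarith
  calc 1 / 2 * (1 / ((2 ^ e : ℕ) : ℝ) - 1 / ((2 ^ e' : ℕ) : ℝ)) * SC
      ≤ 1 / 2 * (1 / ((2 ^ e : ℕ) : ℝ)) * SC := mul_le_mul_of_nonneg_right h8 hS.le
    _ = (SC : ℝ) / (2 ^ (e + 1) : ℕ) := by push_cast; rw [pow_succ]; field_simp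

theorem goB_sound {N lo : ℤ} {X al be i M v0 delta : ℕ} (hX : 0 < X) (hM : 0 < M)
    (hv : (1 : ℝ) ≤ (v0 : ℝ) / SC * VV (Pr 1 (2 ^ al))) (hv' : UP al v0 0)
    (ups : List (ℕ × ℕ)) (hups : ∀ o ∈ ups, UP al o.1 o.2) {j1 : ℕ} (hj1 : 10 ≤ j1) (hal : al ≤ j1)
    (f : ℕ) :
    ∀ (e S : ℕ) (r : ℕ × ℕ), j1 ≤ e → e ≤ be ∨ be ≤ j1 →
      Real.log ((e : ℝ) / j1) + (cU j1 : ℝ) / SC ≤ (S : ℝ) / SC →
      goB be i X M v0 delta ups f e S = some r →
      ∑ p ∈ Pr (2 ^ e) (2 ^ be), bigT N lo X (Pr 1 (2 ^ al)) (ww be M) p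
        + ((X : ℝ) * VV (Pr 1 (2 ^ al)) / SC) * ((r.1 : ℝ) * ∑ p ∈ Pr (2 ^ j1) (2 ^ e), (1 : ℝ) / p)
      ≤ ((X : ℝ) * VV (Pr 1 (2 ^ al)) / SC) * (r.2 : ℝ) := by
  have hS := SC_pos
  have hVpos : 0 < VV (Pr 1 (2 ^ al)) := VV_pos Pr_prime
  have hXr : (0 : ℝ) < X := by exact_mod_cast hX
  have hK : 0 < (X : ℝ) * VV (Pr 1 (2 ^ al)) / SC := by positivity
  have hempty : ∀ e, be ≤ e → Pr (2 ^ e) (2 ^ be) = ∅ := by
    intro e he
    have := two_pow_le_two_pow he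
    ext p
    simp only [mem_Pr, notMem_empty, iff_false]
    intro h
    omega
  induction f with
  | zero =>
    intro e S r h1 _ _ h4
    unfold goB at h4
    split_ifs at h4 with h5
    injection h4 with h4
    subst h4
    rw [hempty e h5]
    simp
  | succ f ih =>
    intro e S r h1 h2 h3 h4
    unfold goB at h4
    split_ifs at h4 with h5
    · injection h4 with h4
      subst h4
      rw [hempty e h5]
      simp
    · set e2 := min be (e + max 1 (e / 12)) with he2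
      have hebe : e < be := by omega
      have hee2 : e ≤ e2 := by
        rw [he2]; apply le_min hebe.le; omega
      have he2be : e2 ≤ be := min_le_left _ _
      set S2 := S + lgU e e2 with hS2
      cases hg : goB be i X M v0 delta ups f e2 S2 with
      | none => rw [hg] at h4; simp at h4
      | some r' =>
        rw [hg] at h4
        simp only [Option.some.injEq] at h4
        set o := sel v0 ups (i - (e2 + delta)) with ho
        have ho' : UP al o.1 o.2 := sel_UP hv' ups hups _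
        set W0 := o.1 * (2 * (be - e)) / M + 1 with hW0
        obtain ⟨F2, eb2, u2, f2⟩ := sqM_UP hv' X (SC / 2 ^ (e + 1) + 1) (2 ^ (e2 - 1)) ups hups
        have hlog : Real.log ((e2 : ℝ) / j1) + (cU j1 : ℝ) / SC ≤ (S2 : ℝ) / SC := by
          have hj0 : (0 : ℝ) < j1 := by exact_mod_cast (by omega : 0 < j1)
          have he0 : (0 : ℝ) < e := by exact_mod_cast (by omega : 0 < e)
          have he20 : (0 : ℝ) < e2 := by exact_mod_cast (by omega : 0 < e2)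
          have k1 := lgU_le (j := e) (k := e2) (by omega) hee2
          rw [Real.log_div he20.ne' he0.ne'] at k1
          rw [Real.log_div he0.ne' hj0.ne'] at h3
          rw [Real.log_div he20.ne' hj0.ne', hS2, Nat.cast_add, add_div]
          linarith
        have ih' := ih e2 S2 r' (h1.trans hee2) (Or.inl he2be) hlog hg
        have hcard : (Pr (2 ^ e) (2 ^ e2)).card ≤ 2 ^ (e2 - 1) := by
          have := card_Pr_le (j := e) (k := e2) (by omega)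
          have h6 : 2 ^ e2 = 2 * 2 ^ (e2 - 1) := by
            rw [← pow_succ']; congr 1; omega
          omega
        have hcl := class_bound (N := N) (lo := lo) (e := e) (e' := e2) (be := be) hX hM (hal.trans h1) he2be hee2 hv ho' u2
          (sq_tail (by omega) hee2) hcard
        rw [← hW0] at hcl
        have hsplit := sum_Pr_split (fun p => bigT N lo X (Pr 1 (2 ^ al)) (ww be M) p)
          (two_pow_le_two_pow hee2) (two_pow_le_two_pow he2be)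
        have hsplit2 := sum_Pr_split (fun p => (1 : ℝ) / p)
          (two_pow_le_two_pow h1) (two_pow_le_two_pow hee2)
        have hmert := mertens_cU (j := j1) (k := e2) hj1 (h1.trans hee2)
        have hs2 : ∑ p ∈ Pr (2 ^ j1) (2 ^ e2), (1 : ℝ) / p ≤ (S2 : ℝ) / SC := hmert.trans hlog
        set s1 := ∑ p ∈ Pr (2 ^ j1) (2 ^ e), (1 : ℝ) / p with hs1
        set sc := ∑ p ∈ Pr (2 ^ e) (2 ^ e2), (1 : ℝ) / p with hsc
        set s2 := ∑ p ∈ Pr (2 ^ j1) (2 ^ e2), (1 : ℝ) / p with hs2'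
        have hs1' : 0 ≤ s1 := sum_nonneg (fun p _ => by positivity)
        have hsc' : 0 ≤ sc := sum_nonneg (fun p _ => by positivity)
        have hr1 : r.1 = max W0 r'.1 := by rw [← h4]
        have hr2 : r.2 = r'.2 + ((max W0 r'.1 - r'.1) * S2 / SC + 1)
            + (2 ^ (e2 - 1) * 2 ^ o.2 * v0 * (2 * (be - e)) / (M * X) + 1)
            + sqM v0 X (SC / 2 ^ (e + 1) + 1) (2 ^ (e2 - 1)) ups := by rw [← h4]
        have hm1 : (W0 : ℝ) ≤ ((max W0 r'.1 : ℕ) : ℝ) := by exact_mod_cast le_max_left _ _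
        have hm2 : (r'.1 : ℝ) ≤ ((max W0 r'.1 : ℕ) : ℝ) := by exact_mod_cast le_max_right _ _
        have hm3 : (((max W0 r'.1 - r'.1 : ℕ) : ℝ)) = ((max W0 r'.1 : ℕ) : ℝ) - r'.1 :=
          Nat.cast_sub (le_max_right _ _)
        have hab : (((max W0 r'.1 : ℕ) : ℝ) - r'.1) * s2 ≤ (((max W0 r'.1 - r'.1) * S2 / SC + 1 : ℕ) : ℝ) := by
          have e1 := div_up ((max W0 r'.1 - r'.1) * S2) SC (by unfold SC; norm_num)
          refine le_trans ?_ e1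
          rw [Nat.cast_mul, hm3, mul_div_assoc]
          exact mul_le_mul_of_nonneg_left hs2 (by linarith)
        rw [hr1, hr2, f2]
        set K := (X : ℝ) * VV (Pr 1 (2 ^ al)) / SC with hKdef
        rw [hsplit]
        have hW0sc : (W0 : ℝ) * sc ≤ ((max W0 r'.1 : ℕ) : ℝ) * sc := mul_le_mul_of_nonneg_right hm1 hsc'
        have hmain : K * ((W0 : ℝ) * sc + ((max W0 r'.1 : ℕ) : ℝ) * s1 - (r'.1 : ℝ) * s2)
            ≤ K * (((max W0 r'.1 - r'.1) * S2 / SC + 1 : ℕ) : ℝ) := by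
          apply mul_le_mul_of_nonneg_left _ hK.le
          have e1 : s2 = s1 + sc := hsplit2
          rw [e1] at hab ⊢
          nlinarith
        have e7 : (((r'.2 + ((max W0 r'.1 - r'.1) * S2 / SC + 1)
            + (2 ^ (e2 - 1) * 2 ^ o.2 * v0 * (2 * (be - e)) / (M * X) + 1)
            + 2 * (F2 * (SC / 2 ^ (e + 1) + 1) / SC + 1 + (2 ^ (e2 - 1) * 2 ^ eb2 * v0 / X + 1)) : ℕ)) : ℝ)
          = (r'.2 : ℝ) + (((max W0 r'.1 - r'.1) * S2 / SC + 1 : ℕ) : ℝ)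
            + ((2 ^ (e2 - 1) * 2 ^ o.2 * v0 * (2 * (be - e)) / (M * X) + 1 : ℕ) : ℝ)
            + ((2 * (F2 * (SC / 2 ^ (e + 1) + 1) / SC + 1 + (2 ^ (e2 - 1) * 2 ^ eb2 * v0 / X + 1)) : ℕ) : ℝ) := by
          rw [Nat.cast_add, Nat.cast_add, Nat.cast_add]
        rw [e7]
        rw [mul_add, mul_add] at hcl
        have hmain' : K * ((W0 : ℝ) * sc) + K * (((max W0 r'.1 : ℕ) : ℝ) * s1) - K * ((r'.1 : ℝ) * s2)
            ≤ K * (((max W0 r'.1 - r'.1) * S2 / SC + 1 : ℕ) : ℝ) := by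
          have : K * ((W0 : ℝ) * sc) + K * (((max W0 r'.1 : ℕ) : ℝ) * s1) - K * ((r'.1 : ℝ) * s2)
              = K * ((W0 : ℝ) * sc + ((max W0 r'.1 : ℕ) : ℝ) * s1 - (r'.1 : ℝ) * s2) := by ring
          rw [this]; exact hmain
        rw [mul_add, mul_add, mul_add]
        linarith

end Pool.Agent.H91.Gold
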