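import Mathlib
import Pool.Agent.H91.GoldLoop
import Pool.Agent.H91.GoldData16

/-!
The key proposition of the second stage.
-/

namespace Pool.Agent.H91.Gold

open Finset

/-- The logarithmic weight of the prime `p`, for `y = 2^(i/2)`. -/
noncomputable def w2 (i p : ℕ) : ℝ := ((i : ℝ) - 2 * (Real.log p / Real.log 2)) / (2 * ((i : ℝ) - 1))

open Classical in
/-- The integers `a` in `(lo, lo + X]`, `X = 2^(i-1) - 1`, such that `a (N - a)` has no prime
factor `≤ z` and whose weight is smaller than one. -/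
noncomputable def GS (N lo : ℤ) (i z : ℕ) : Finset ℤ :=
  (Ioc lo (lo + ((2 ^ (i - 1) - 1 : ℕ) : ℤ))).filter
    (fun a => nf N (Pr 1 z) a ≠ 0 ∧ wt N (Pr z (zc i)) (w2 i) a < 1)

/-- The key proposition for the index `i`. -/
def KP2 (i : ℕ) : Prop :=
  ∃ z : ℕ, z ≤ zc i ∧ 2 ^ (i + 1) ≤ (z + 1) ^ 11 ∧
    ∀ N lo : ℤ, (2 : ℝ) ^ i / (4 * (i : ℝ) ^ 2) ≤ ((GS N lo i z).card : ℝ)

end Pool.Agent.H91.Gold
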