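import Mathlib
import Pool.Agent.H91.GoldChain
import Pool.Agent.H91.GoldLoop

/-!
Sieve weights of one sign and the step that builds weights for a larger set of primes from
weights of both signs with smaller errors (Buchstab decomposition over a block of primes).
-/

namespace Pool.Agent.H91.Gold

open Finset

/-- Existence of a sieve weight, an upper one for even `s` and a lower one for odd `s`. -/
def Nd (N lo : ℤ) (X : ℕ) (s : ℕ) (S : Finset ℕ) (E x : ℝ) : Prop :=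
  ∃ (f : ℤ → ℝ) (M : ℝ), (∀ a, 0 ≤ (-1 : ℝ) ^ s * (f a - nf N S a)) ∧ Sv N lo X S f M E ∧
    (-1 : ℝ) ^ s * (M - VV S) ≤ x * VV S

theorem Nd.mono {N lo : ℤ} {X s : ℕ} {S : Finset ℕ} {E x E' x' : ℝ} (h : Nd N lo X s S E x)
    (hS : ∀ p ∈ S, p.Prime) (hE : E ≤ E') (hx : x ≤ x') : Nd N lo X s S E' x' := by
  obtain ⟨f, M, h1, h2, h3⟩ := h
  exact ⟨f, M, h1, h2.mono le_rfl hE, h3.trans (mul_le_mul_of_nonneg_right hx (VV_pos hS).le)⟩

theorem Nd.add_two {N lo : ℤ} {X s : ℕ} {S : Finset ℕ} {E x : ℝ} (h : Nd N lo X s S E x) :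
    Nd N lo X (s + 2) S E x := by
  obtain ⟨f, M, h1, h2, h3⟩ := h
  refine ⟨f, M, ?_, h2, ?_⟩
  · intro a
    have := h1 a
    rw [pow_add]; simpa using this
  · rw [pow_add]; simpa using h3

theorem Nd.parity {N lo : ℤ} {X s t : ℕ} {S : Finset ℕ} {E x : ℝ} (h : Nd N lo X s S E x)
    (hst : s % 2 = t % 2) : Nd N lo X t S E x := by
  obtain ⟨f, M, h1, h2, h3⟩ := h
  have e : (-1 : ℝ) ^ s = (-1 : ℝ) ^ t := by
    rw [neg_one_pow_eq_pow_mod_two s, neg_one_pow_eq_pow_mod_two t, hst]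
  rw [e] at h3
  refine ⟨f, M, ?_, h2, h3⟩
  intro a
  have := h1 a
  rwa [e] at this

/-- The trivial lower weight. -/
theorem Nd_trivial (N lo : ℤ) (X : ℕ) {s : ℕ} (hs : Odd s) {S : Finset ℕ} (hS : ∀ p ∈ S, p.Prime)
    {E x : ℝ} (hE : 0 ≤ E) (hx : 1 ≤ x) : Nd N lo X s S E x := by
  have hV := VV_pos hS
  refine ⟨fun _ => 0 * 1, 0 * 1, ?_, ?_, ?_⟩
  · intro a
    rw [hs.neg_one_pow]
    have := nf_nonneg N S a
    linarith
  · exact ((Sv_one N lo X).smul 0).mono (empty_subset S) (by simpa using hE)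
  · rw [hs.neg_one_pow]
    nlinarith

/-- The exact weight. -/
theorem Nd_exact (N lo : ℤ) (X s : ℕ) {S : Finset ℕ} (hS : ∀ p ∈ S, p.Prime) {E : ℝ}
    (hE : ∏ p ∈ S, (1 + rho p) ≤ E) : Nd N lo X s S E 0 := by
  refine ⟨nf N S, VV S, fun a => by simp, ?_, by simp⟩
  exact (Sv_nf N lo X S hS).mono le_rfl hE

theorem Nd.skip {N lo : ℤ} {X s : ℕ} {S B : Finset ℕ} {E x v x' : ℝ} (hs : Even s)
    (h : Nd N lo X s S E x) (hS : ∀ p ∈ S, p.Prime) (hB : ∀ p ∈ B, p.Prime) (hBS : Disjoint B S)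
    (hv : 1 ≤ v * VV B) (hx0 : 0 ≤ 1 + x) (hx' : (1 + x) * v ≤ 1 + x') :
    Nd N lo X s (S ∪ B) E x' := by
  obtain ⟨f, M, h1, h2, h3⟩ := h
  have hVB := VV_pos hB
  have hVS := VV_pos hS
  refine ⟨f, M, ?_, h2.mono subset_union_left le_rfl, ?_⟩
  · intro a
    have e1 := h1 a
    rw [hs.neg_one_pow, one_mul] at e1 ⊢
    rw [nf_union N hBS]
    have e2 : nf N B a ≤ 1 := prod_le_one (fun p hp => by linarith [u_le_one N p a])
      (fun p hp => by linarith [u_nonneg N p a])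
    have e3 := nf_nonneg N S a
    nlinarith
  · rw [hs.neg_one_pow, one_mul] at h3 ⊢
    rw [VV_union hBS]
    have e1 : M ≤ (1 + x) * VV S := by linarith
    have e2 : (1 + x) * VV S ≤ (1 + x) * VV S * (v * VV B) :=
      le_mul_of_one_le_right (by positivity) hv
    have e3 : (1 + x) * v * (VV S * VV B) ≤ (1 + x') * (VV S * VV B) :=
      mul_le_mul_of_nonneg_right hx' (by positivity)
    nlinarith

/-- The main step. -/
theorem Nd.step {N lo : ℤ} {X s J : ℕ} {S B : Finset ℕ} {E x : ℕ → ℝ} (hJ : Even (s + J))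
    (hS : ∀ p ∈ S, p.Prime) (hB : ∀ p ∈ B, p.Prime) (hBS : Disjoint B S)
    (h : ∀ k ∈ range (J + 1), Nd N lo X (s + k) S (E k) (x k)) {v x' E' : ℝ}
    (hv : 1 ≤ v * VV B)
    (hx0 : 0 ≤ ∑ k ∈ range (J + 1), es g B k * x k + es g B (J + 1))
    (hx' : v * (∑ k ∈ range (J + 1), es g B k * x k + es g B (J + 1)) ≤ x')
    (hE' : ∑ k ∈ range (J + 1), es rho B k * E k ≤ E') :
    Nd N lo X s (S ∪ B) E' x' := by
  have hVB := VV_pos hB
  have hVS := VV_pos hS
  have h' : ∀ k, ∃ (f : ℤ → ℝ) (M : ℝ), k ∈ range (J + 1) →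
      (∀ a, 0 ≤ (-1 : ℝ) ^ (s + k) * (f a - nf N S a)) ∧ Sv N lo X S f M (E k) ∧
        (-1 : ℝ) ^ (s + k) * (M - VV S) ≤ x k * VV S := by
    intro k
    by_cases hk : k ∈ range (J + 1)
    · obtain ⟨f, M, hf⟩ := h k hk
      exact ⟨f, M, fun _ => hf⟩
    · exact ⟨fun _ => 0, 0, fun hk' => absurd hk' hk⟩
  choose f M hfM using h'
  have hu : ∀ a, ∀ p ∈ B, 0 ≤ u N p a ∧ u N p a ≤ 1 := fun a p _ => ⟨u_nonneg N p a, u_le_one N p a⟩
  have hg : ∀ p ∈ B, 0 ≤ g p ∧ g p ≤ 1 := fun p hp => ⟨g_nonneg p, by linarith [g_le (hB p hp)]⟩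
  have hsJ : (-1 : ℝ) ^ s = (-1 : ℝ) ^ J := by
    have h1 : (-1 : ℝ) ^ (s + J) = 1 := hJ.neg_one_pow
    rw [pow_add] at h1
    have h2 : (-1 : ℝ) ^ J * (-1 : ℝ) ^ J = 1 := by rw [← pow_add]; exact (Even.add_self J).neg_one_pow
    calc (-1 : ℝ) ^ s = (-1 : ℝ) ^ s * ((-1 : ℝ) ^ J * (-1 : ℝ) ^ J) := by rw [h2, mul_one]
      _ = ((-1 : ℝ) ^ s * (-1 : ℝ) ^ J) * (-1 : ℝ) ^ J := by ring
      _ = (-1 : ℝ) ^ J := by rw [h1, one_mul]
  refine ⟨fun a => ∑ k ∈ range (J + 1), (-1 : ℝ) ^ k * (es (fun p => u N p a) B k * f k a),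
    ∑ k ∈ range (J + 1), (-1 : ℝ) ^ k * (es g B k * M k), ?_, ?_, ?_⟩
  · intro a
    have hb := bonferroni B (hu a) J
    have hnS := nf_nonneg N S a
    rw [nf_union N hBS]
    have e1 : (-1 : ℝ) ^ s * (∑ k ∈ range (J + 1), (-1 : ℝ) ^ k * (es (fun p => u N p a) B k * f k a)
          - nf N S a * nf N B a)
        = ∑ k ∈ range (J + 1), es (fun p => u N p a) B k * ((-1 : ℝ) ^ (s + k) * (f k a - nf N S a))
          + nf N S a * ((-1 : ℝ) ^ J * (tr (fun p => u N p a) B J - nf N B a)) := by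
      rw [← hsJ]
      unfold tr
      rw [mul_sub, mul_sum, mul_sub, mul_sum, mul_sub, mul_sum]
      have : ∑ k ∈ range (J + 1), (-1 : ℝ) ^ s * ((-1 : ℝ) ^ k * (es (fun p => u N p a) B k * f k a))
        = ∑ k ∈ range (J + 1), es (fun p => u N p a) B k * ((-1 : ℝ) ^ (s + k) * (f k a - nf N S a))
          + ∑ k ∈ range (J + 1), nf N S a * ((-1 : ℝ) ^ s * ((-1 : ℝ) ^ k * es (fun p => u N p a) B k)) := by
        rw [← sum_add_distrib]
        apply sum_congr rfl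
        intro k _
        rw [pow_add]; ring
      rw [this]
      ring
    rw [e1]
    apply add_nonneg
    · apply sum_nonneg
      intro k hk
      exact mul_nonneg (es_nonneg (fun p hp => (hu a p hp).1) k) ((hfM k hk).1 a)
    · exact mul_nonneg hnS hb
  · have h1 := Sv.sum (N := N) (lo := lo) (X := X) (S := S ∪ B) (range (J + 1))
      (fun k a => (-1 : ℝ) ^ k * (es (fun p => u N p a) B k * f k a))
      (fun k => (-1 : ℝ) ^ k * (es g B k * M k)) (fun k => |(-1 : ℝ) ^ k| * (es rho B k * E k)) (by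
        intro k hk
        exact (((hfM k hk).2.1).mul_es B hB hBS k).smul ((-1 : ℝ) ^ k))
    refine h1.mono le_rfl (le_trans (le_of_eq ?_) hE')
    apply sum_congr rfl
    intro k _
    rw [abs_pow]; simp
  · have hb := bonferroni B hg J
    have hb1 := bonferroni B hg (J + 1)
    rw [tr_succ] at hb1
    have e1 : (-1 : ℝ) ^ s * (∑ k ∈ range (J + 1), (-1 : ℝ) ^ k * (es g B k * M k) - VV (S ∪ B))
        = ∑ k ∈ range (J + 1), es g B k * ((-1 : ℝ) ^ (s + k) * (M k - VV S))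
          + VV S * ((-1 : ℝ) ^ J * (tr g B J - VV B)) := by
      rw [← hsJ, VV_union hBS]
      unfold tr
      rw [mul_sub, mul_sum, mul_sub, mul_sum, mul_sub, mul_sum]
      have : ∑ k ∈ range (J + 1), (-1 : ℝ) ^ s * ((-1 : ℝ) ^ k * (es g B k * M k))
        = ∑ k ∈ range (J + 1), es g B k * ((-1 : ℝ) ^ (s + k) * (M k - VV S))
          + ∑ k ∈ range (J + 1), VV S * ((-1 : ℝ) ^ s * ((-1 : ℝ) ^ k * es g B k)) := by
        rw [← sum_add_distrib]
        apply sum_congr rfl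
        intro k _
        rw [pow_add]; ring
      rw [this]
      ring
    have e2 : (-1 : ℝ) ^ J * (tr g B J - VV B) ≤ es g B (J + 1) := by
      have h2 : (-1 : ℝ) ^ J * (-1 : ℝ) ^ J = 1 := by rw [← pow_add]; exact (Even.add_self J).neg_one_pow
      have h3 : (-1 : ℝ) ^ (J + 1) * (tr g B J + (-1 : ℝ) ^ (J + 1) * es g B (J + 1) - ∏ p ∈ B, (1 - g p))
          = -((-1 : ℝ) ^ J * (tr g B J - VV B)) + ((-1 : ℝ) ^ J * (-1 : ℝ) ^ J) * es g B (J + 1) := by
        unfold VV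
        rw [pow_succ]; ring
      rw [h3, h2] at hb1
      linarith
    rw [e1]
    have e3 : ∑ k ∈ range (J + 1), es g B k * ((-1 : ℝ) ^ (s + k) * (M k - VV S))
        ≤ ∑ k ∈ range (J + 1), es g B k * (x k * VV S) := by
      apply sum_le_sum
      intro k hk
      exact mul_le_mul_of_nonneg_left (hfM k hk).2.2 (es_nonneg (fun p hp => (hg p hp).1) k)
    have e4 : ∑ k ∈ range (J + 1), es g B k * (x k * VV S)
        = (∑ k ∈ range (J + 1), es g B k * x k) * VV S := by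
      rw [sum_mul]
      apply sum_congr rfl; intro k _; ring
    set T := ∑ k ∈ range (J + 1), es g B k * x k + es g B (J + 1) with hT
    have e5 : ∑ k ∈ range (J + 1), es g B k * ((-1 : ℝ) ^ (s + k) * (M k - VV S))
          + VV S * ((-1 : ℝ) ^ J * (tr g B J - VV B)) ≤ T * VV S := by
      have := mul_le_mul_of_nonneg_left e2 hVS.le
      rw [hT, add_mul]
      linarith
    refine e5.trans ?_
    rw [VV_union hBS]
    calc T * VV S ≤ T * VV S * (v * VV B) := le_mul_of_one_le_right (by positivity) hv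
      _ = (v * T) * (VV S * VV B) := by ring
      _ ≤ x' * (VV S * VV B) := mul_le_mul_of_nonneg_right hx' (by positivity)

/-- The weights of a chain give weights of both signs. -/
theorem Nd_of_chain_upper {N lo : ℤ} {X : ℕ} {S : Finset ℕ} {F G EU EL : ℝ}
    (h : Chain N lo X S F G EU EL) : Nd N lo X 0 S EU (F - 1) := by
  obtain ⟨U, L, MU, ML, h1, h2, h3, h4, h5, h6, h7⟩ := h
  refine ⟨U, MU, ?_, h3, ?_⟩
  · intro a
    have := h1 a
    simp only [pow_zero, one_mul]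
    linarith
  · simp only [pow_zero, one_mul]
    linarith

theorem Nd_of_chain_lower {N lo : ℤ} {X : ℕ} {S : Finset ℕ} {F G EU EL : ℝ}
    (h : Chain N lo X S F G EU EL) (hG : G ≤ 1) : Nd N lo X 1 S EL G := by
  obtain ⟨U, L, MU, ML, h1, h2, h3, h4, h5, h6, h7⟩ := h
  refine ⟨L, ML, ?_, h4, ?_⟩
  · intro a
    have := h2 a
    simp only [pow_one]
    linarith
  · simp only [pow_one]
    have : (1 - G) * VV S ≤ (1 - G) * MU := mul_le_mul_of_nonneg_left h5 (by linarith)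
    linarith

theorem Nd.lower {N lo : ℤ} {X : ℕ} {S : Finset ℕ} {E x : ℝ} (h : Nd N lo X 1 S E x) :
    (X : ℝ) * ((1 - x) * VV S) - E ≤ ∑ a ∈ Ioc lo (lo + X), nf N S a := by
  obtain ⟨f, M, h1, h2, h3⟩ := h
  have e := h2 1 0 ∅ one_pos (by simp) (by simp) (by simp) (by simp)
  simp only [prod_empty, one_mul, mul_one, Nat.cast_one, div_one] at e
  have e1 := (abs_le.1 e).1
  have e2 : W N lo X 1 0 ∅ f = ∑ a ∈ Ioc lo (lo + X), f a := by
    unfold W ind
    apply sum_congr rfl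
    intro a _
    simp [Int.modEq_one]
  rw [e2] at e1
  have e3 : ∑ a ∈ Ioc lo (lo + X), f a ≤ ∑ a ∈ Ioc lo (lo + X), nf N S a :=
    sum_le_sum (fun a _ => by
      have := h1 a
      simp only [pow_one] at this
      linarith)
  have e4 : (X : ℝ) * ((1 - x) * VV S) ≤ X * M := by
    apply mul_le_mul_of_nonneg_left _ (Nat.cast_nonneg X)
    simp only [pow_one] at h3
    linarith
  linarith

theorem Nd.upper {N lo : ℤ} {X : ℕ} {S : Finset ℕ} {E x : ℝ}
    (h : Nd N lo X 0 S E x) {q : ℕ} (hq : 0 < q) (hc : ∀ p ∈ S, Nat.Coprime p q) (c : ℤ) :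
    ∑ a ∈ Ioc lo (lo + X), ind q c a * nf N S a ≤ (X : ℝ) / q * ((1 + x) * VV S) + E := by
  obtain ⟨f, M, h1, h2, h3⟩ := h
  have e := h2 q c ∅ hq (by simp) (by simp) (by simp) hc
  simp only [prod_empty, one_mul, mul_one] at e
  have e1 := (abs_le.1 e).2
  have e2 : W N lo X q c ∅ f = ∑ a ∈ Ioc lo (lo + X), ind q c a * f a := by
    unfold W
    apply sum_congr rfl
    intro a _
    simp
  rw [e2] at e1
  have e3 : ∑ a ∈ Ioc lo (lo + X), ind q c a * nf N S a ≤ ∑ a ∈ Ioc lo (lo + X), ind q c a * f a :=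
    sum_le_sum (fun a _ => mul_le_mul_of_nonneg_left (by
      have := h1 a
      simp only [pow_zero, one_mul] at this
      linarith) (ind_nonneg _ _ _))
  have e4 : (X : ℝ) / q * M ≤ X / q * ((1 + x) * VV S) := by
    apply mul_le_mul_of_nonneg_left _ (by positivity)
    simp only [pow_zero, one_mul] at h3
    linarith
  linarith

end Pool.Agent.H91.Gold
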