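import Mathlib
import Pool.Agent.H91.G5Node
import Pool.Agent.H91.G5Def

/-!
Tables of sieve weights and the computable check of one step.
-/

namespace Pool.Agent.H91.Gold

open Finset

/-- Scale of the fixed point numbers of the second stage. -/
def SD : ℕ := 1000000000000

theorem SD_pos : (0 : ℝ) < (SD : ℝ) := by unfold SD; norm_num

/-- Entry number `B` of the table `T` (fields of 64 bits). -/
def look (T B : ℕ) : ℕ := (T >>> (64 * B)) % 18446744073709551616

theorem look_lt (T B : ℕ) : look T B < 18446744073709551616 := Nat.mod_lt _ (by norm_num)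

/-- The primes up to `2^(h/2)`. -/
def Sh (h : ℕ) : Finset ℕ := Pr 1 (zc h)

/-- The block of primes between `2^(h/2)` and `2^(h'/2)`. -/
def Bh (h h' : ℕ) : Finset ℕ := Pr (zc h) (zc h')

theorem one_le_zc (h : ℕ) : 1 ≤ zc h := by
  unfold zc
  rw [Nat.le_sqrt]
  simpa using Nat.one_le_two_pow

theorem zc_even (j : ℕ) : zc (2 * j) = 2 ^ j := by
  unfold zc
  rw [pow_mul', sq, Nat.sqrt_eq]

theorem Sh_union {h h' : ℕ} (hh : h ≤ h') : Sh h ∪ Bh h h' = Sh h' :=
  Pr_union (one_le_zc h) (zc_mono hh)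

theorem Sh_disjoint {h h' : ℕ} : Disjoint (Bh h h') (Sh h) := Pr_disjoint le_rfl

/-- Soundness of a pair of tables for the level `h`: lower weights `TG`, upper weights `TH`. -/
def LOK (h bm TG TH : ℕ) : Prop :=
  ∀ B ≤ bm, ∀ (N lo : ℤ) (X : ℕ),
    Nd N lo X 1 (Sh h) ((2 : ℝ) ^ B) ((look TG B : ℝ) / SD) ∧
      Nd N lo X 0 (Sh h) ((2 : ℝ) ^ B) ((look TH B : ℝ) / SD)

/-- Large value, replacing infinity. -/
def BIG : ℕ := 1000000000000000000000000000000000000000000000000000000000000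

/-- Partial sums of the step for the error exponent `B`. -/
def run (TG TH bm B : ℕ) : List (ℕ × ℕ × ℕ) → ℕ → ℕ → ℕ × ℕ
  | [], _, _ => (BIG, BIG)
  | x :: l, p, q =>
    if x.2.2 ≤ B then
      let b := min (B - x.2.2) bm
      let p' := p + x.1 * look TG b
      let q' := q + x.1 * look TH b
      let r := run TG TH bm B l q' p'
      (r.2, min (q' + x.2.1 * SD) r.1)
    else (BIG, BIG)

/-- Partial data for a step over the block `B` with error exponent `bud`. -/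
def Pt (N lo : ℤ) (X : ℕ) (S B : Finset ℕ) (bud s k0 A : ℕ) : Prop :=
  ∃ E x : ℕ → ℝ, (∀ k < k0, Nd N lo X (s + k) S (E k) (x k) ∧ 0 ≤ x k) ∧
    (∑ k ∈ range k0, es g B k * x k) * (SD : ℝ) ^ 2 ≤ A ∧
    ∑ k ∈ range k0, es rho B k * E k ≤ (2 : ℝ) ^ bud * (1 - 1 / 2 ^ k0)

theorem Pt_zero (N lo : ℤ) (X : ℕ) (S B : Finset ℕ) (bud s : ℕ) : Pt N lo X S B bud s 0 0 :=
  ⟨fun _ => 0, fun _ => 0, by simp, by simp, by simp⟩

theorem Pt.succ {N lo : ℤ} {X : ℕ} {S B : Finset ℕ} {bud s k0 A e c b V : ℕ}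
    (h : Pt N lo X S B bud s k0 A)
    (he : es g B k0 * SD ≤ e) (hc : es rho B k0 * 2 ^ (k0 + 1) ≤ 2 ^ c)
    (hcb : c + b ≤ bud) (hN : Nd N lo X (s + k0) S ((2 : ℝ) ^ b) ((V : ℝ) / SD)) :
    Pt N lo X S B bud s (k0 + 1) (A + e * V) := by
  obtain ⟨E, x, h1, h2, h3⟩ := h
  have hS := SD_pos
  refine ⟨fun k => if k = k0 then (2 : ℝ) ^ b else E k, fun k => if k = k0 then (V : ℝ) / SD else x k,
    ?_, ?_, ?_⟩
  · intro k hk
    rcases Nat.lt_succ_iff_lt_or_eq.1 hk with h | h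
    · have hne : k ≠ k0 := by omega
      simp only [hne, if_false]
      exact h1 k h
    · subst h
      simp only [if_true]
      exact ⟨hN, by positivity⟩
  · rw [sum_range_succ]
    have e1 : ∑ k ∈ range k0, es g B k * (if k = k0 then (V : ℝ) / SD else x k)
        = ∑ k ∈ range k0, es g B k * x k := by
      apply sum_congr rfl
      intro k hk
      rw [mem_range] at hk
      rw [if_neg (by omega)]
    rw [e1]
    simp only [if_true]
    have e2 : es g B k0 * ((V : ℝ) / SD) * (SD : ℝ) ^ 2 = (es g B k0 * SD) * V := by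
      field_simp
    have e3 : es g B k0 * SD * V ≤ (e : ℝ) * V := mul_le_mul_of_nonneg_right he (Nat.cast_nonneg V)
    rw [add_mul, e2]
    push_cast
    linarith
  · rw [sum_range_succ]
    have e1 : ∑ k ∈ range k0, es rho B k * (if k = k0 then (2 : ℝ) ^ b else E k)
        = ∑ k ∈ range k0, es rho B k * E k := by
      apply sum_congr rfl
      intro k hk
      rw [mem_range] at hk
      rw [if_neg (by omega)]
    rw [e1]
    simp only [if_true]
    have e0 : 0 ≤ es rho B k0 := es_nonneg (fun p _ => (rho_pos p).le) k0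
    have e2 : es rho B k0 * (2 : ℝ) ^ b ≤ (2 : ℝ) ^ bud * (1 / 2 ^ (k0 + 1)) := by
      rw [mul_one_div, le_div_iff₀ (by positivity)]
      calc es rho B k0 * 2 ^ b * 2 ^ (k0 + 1) = es rho B k0 * 2 ^ (k0 + 1) * 2 ^ b := by ring
        _ ≤ 2 ^ c * 2 ^ b := mul_le_mul_of_nonneg_right hc (by positivity)
        _ = 2 ^ (c + b) := by rw [pow_add]
        _ ≤ 2 ^ bud := pow_le_pow_right₀ (by norm_num) hcb
    have e3 : (1 : ℝ) / 2 ^ k0 = 2 * (1 / 2 ^ (k0 + 1)) := by rw [pow_succ]; field_simp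
    have e4 : (2 : ℝ) ^ bud * (1 - 1 / 2 ^ (k0 + 1))
        = (2 : ℝ) ^ bud * (1 - 1 / 2 ^ k0) + (2 : ℝ) ^ bud * (1 / 2 ^ (k0 + 1)) := by
      rw [e3]; ring
    rw [e4]
    linarith

/-- A finished bound. -/
def Res (N lo : ℤ) (X : ℕ) (S B : Finset ℕ) (bud s R : ℕ) : Prop :=
  ∃ J A : ℕ, Even (s + J) ∧ Pt N lo X S B bud s (J + 1) A ∧
    (A : ℝ) + es g B (J + 1) * (SD : ℝ) ^ 2 ≤ R

theorem Res.nd {N lo : ℤ} {X : ℕ} {S B : Finset ℕ} {bud s R : ℕ} (h : Res N lo X S B bud s R)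
    (hS : ∀ p ∈ S, p.Prime) (hB : ∀ p ∈ B, p.Prime) (hBS : Disjoint B S) {v y : ℕ}
    (hv : 1 ≤ (v : ℝ) / SD * VV B) (hy : v * R ≤ y * SD ^ 2) :
    Nd N lo X s (S ∪ B) ((2 : ℝ) ^ bud) ((y : ℝ) / SD) := by
  obtain ⟨J, A, h1, ⟨E, x, h2, h3, h4⟩, h5⟩ := h
  have hD := SD_pos
  have hg0 : ∀ k, 0 ≤ es g B k := fun k => es_nonneg (fun p _ => g_nonneg p) k
  have hsum0 : 0 ≤ ∑ k ∈ range (J + 1), es g B k * x k :=
    sum_nonneg (fun k hk => mul_nonneg (hg0 k) (h2 k (mem_range.1 hk)).2)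
  refine Nd.step (E := E) (x := x) h1 hS hB hBS (fun k hk => (h2 k (mem_range.1 hk)).1) hv ?_ ?_ ?_
  · exact add_nonneg hsum0 (hg0 _)
  · have e1 : (∑ k ∈ range (J + 1), es g B k * x k + es g B (J + 1)) * (SD : ℝ) ^ 2 ≤ R := by
      rw [add_mul]; linarith
    have e2 : (v : ℝ) * R ≤ y * (SD : ℝ) ^ 2 := by exact_mod_cast hy
    rw [div_mul_eq_mul_div, div_le_div_iff₀ hD hD]
    have e3 : (v : ℝ) * ((∑ k ∈ range (J + 1), es g B k * x k + es g B (J + 1)) * (SD : ℝ) ^ 2)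
        ≤ v * R := mul_le_mul_of_nonneg_left e1 (Nat.cast_nonneg v)
    have e4 := e3.trans e2
    have e5 : (SD : ℝ) ^ 2 = SD * SD := sq _
    rw [e5] at e4
    have e6 : (v : ℝ) * (∑ k ∈ range (J + 1), es g B k * x k + es g B (J + 1)) * SD * SD ≤ y * SD * SD := by
      linarith
    exact le_of_mul_le_mul_right e6 hD
  · refine h4.trans ?_
    have : (0 : ℝ) < 2 ^ bud := by positivity
    have h2 : (0 : ℝ) < 1 / 2 ^ (J + 1) := by positivity
    nlinarith

/-- The list `l` describes the block `B` from the index `k` on. -/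
def Mtc (B : Finset ℕ) : List (ℕ × ℕ × ℕ) → ℕ → Prop
  | [], _ => True
  | x :: l, k => es g B k * SD ≤ x.1 ∧ es g B (k + 1) * SD ≤ x.2.1 ∧
      es rho B k * 2 ^ (k + 1) ≤ 2 ^ x.2.2 ∧ Mtc B l (k + 1)

theorem run_sound {h1 bm TG TH : ℕ} (hT : LOK h1 bm TG TH) (N lo : ℤ) (X : ℕ) {B : Finset ℕ}
    (hB : ∀ p ∈ B, p.Prime) (bud : ℕ) (l : List (ℕ × ℕ × ℕ)) :
    ∀ (k0 p q s t : ℕ), Mtc B l k0 → Odd (s + k0) → Even (t + k0) →
      Pt N lo X (Sh h1) B bud s k0 p → Pt N lo X (Sh h1) B bud t k0 q →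
      ((run TG TH bm bud l p q).1 < BIG → Res N lo X (Sh h1) B bud s (run TG TH bm bud l p q).1) ∧
      ((run TG TH bm bud l p q).2 < BIG → Res N lo X (Sh h1) B bud t (run TG TH bm bud l p q).2) := by
  induction l with
  | nil =>
    intro k0 p q s t _ _ _ _ _
    unfold run
    exact ⟨fun h => absurd h (lt_irrefl _), fun h => absurd h (lt_irrefl _)⟩
  | cons x l ih =>
    intro k0 p q s t hM hs ht hp hq
    obtain ⟨m1, m2, m3, m4⟩ := hM
    unfold run
    split_ifs with hc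
    · simp only
      set b := min (bud - x.2.2) bm with hb
      have hbm : b ≤ bm := min_le_right _ _
      have hcb : x.2.2 + b ≤ bud := by
        have : b ≤ bud - x.2.2 := min_le_left _ _
        omega
      obtain ⟨n1, n2⟩ := hT b hbm N lo X
      have p1 : Pt N lo X (Sh h1) B bud s (k0 + 1) (p + x.1 * look TG b) :=
        hp.succ m1 m3 hcb (n1.parity (by
          obtain ⟨w, hw⟩ := hs; omega))
      have q1 : Pt N lo X (Sh h1) B bud t (k0 + 1) (q + x.1 * look TH b) :=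
        hq.succ m1 m3 hcb (n2.parity (by
          obtain ⟨w, hw⟩ := ht; omega))
      have hrec := ih (k0 + 1) (q + x.1 * look TH b) (p + x.1 * look TG b) t s m4
        (by rw [← add_assoc]; exact ht.add_one) (by rw [← add_assoc]; exact hs.add_one) q1 p1
      refine ⟨hrec.2, ?_⟩
      intro hlt
      rcases min_choice (q + x.1 * look TH b + x.2.1 * SD)
        (run TG TH bm bud l (q + x.1 * look TH b) (p + x.1 * look TG b)).1 with h | h
      · rw [h]
        refine ⟨k0, q + x.1 * look TH b, ht, q1, ?_⟩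
        have e1 : es g B (k0 + 1) * (SD : ℝ) ^ 2 = es g B (k0 + 1) * SD * SD := by ring
        have e2 : es g B (k0 + 1) * SD * SD ≤ (x.2.1 : ℝ) * SD :=
          mul_le_mul_of_nonneg_right m2 (Nat.cast_nonneg _)
        rw [e1]
        push_cast
        linarith
      · rw [h]
        rw [h] at hlt
        exact hrec.1 hlt
    · exact ⟨fun h => absurd h (lt_irrefl _), fun h => absurd h (lt_irrefl _)⟩

/-- Check of the entry `B` of the child tables. -/
def rowOK2 (v TG TH bm CG CH : ℕ) (l : List (ℕ × ℕ × ℕ)) (B : ℕ) : Bool :=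
  let r := run TG TH bm B l 0 0
  (SD ≤ look CG B || (v * r.1 ≤ look CG B * SD ^ 2)) &&
    ((v * r.2 ≤ look CH B * SD ^ 2) ||
      ((SD + look TH (min B bm)) * v ≤ (SD + look CH B) * SD))

theorem BIG_aux {v R T B : ℕ} (hv : 0 < v) (h : v * R ≤ look T B * SD ^ 2) : R < BIG := by
  have h1 := look_lt T B
  have h2 : look T B * SD ^ 2 < 18446744073709551616 * SD ^ 2 :=
    Nat.mul_lt_mul_of_pos_right h1 (by unfold SD; norm_num)
  have h3 : (18446744073709551616 : ℕ) * SD ^ 2 < BIG := by unfold SD BIG; norm_num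
  have h4 : R ≤ v * R := Nat.le_mul_of_pos_left R hv
  omega

theorem rowOK2_sound {h1 h2 v bm TG TH CG CH B : ℕ} {l : List (ℕ × ℕ × ℕ)} (hh : h1 ≤ h2)
    (hT : LOK h1 bm TG TH) (hM : Mtc (Bh h1 h2) l 0) (hv0 : 0 < v)
    (hv : 1 ≤ (v : ℝ) / SD * VV (Bh h1 h2)) (h : rowOK2 v TG TH bm CG CH l B = true)
    (N lo : ℤ) (X : ℕ) :
    Nd N lo X 1 (Sh h2) ((2 : ℝ) ^ B) ((look CG B : ℝ) / SD) ∧
      Nd N lo X 0 (Sh h2) ((2 : ℝ) ^ B) ((look CH B : ℝ) / SD) := by
  have hD := SD_pos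
  have hS1 : ∀ p ∈ Sh h1, p.Prime := Pr_prime
  have hS2 : ∀ p ∈ Sh h2, p.Prime := Pr_prime
  have hB : ∀ p ∈ Bh h1 h2, p.Prime := Pr_prime
  have hrun := run_sound hT N lo X hB B l 0 0 0 1 0 hM (by decide) (by decide)
    (Pt_zero _ _ _ _ _ _ _) (Pt_zero _ _ _ _ _ _ _)
  unfold rowOK2 at h
  simp only [Bool.and_eq_true, Bool.or_eq_true, decide_eq_true_eq] at h
  obtain ⟨hL, hU⟩ := h
  rw [← Sh_union hh]
  constructor
  · rcases hL with hL | hL
    · apply Nd_trivial N lo X (by decide) (by rw [Sh_union hh]; exact hS2) (by positivity)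
      rw [le_div_iff₀ hD, one_mul]
      exact_mod_cast hL
    · exact (hrun.1 (BIG_aux hv0 hL)).nd hS1 hB Sh_disjoint hv hL
  · rcases hU with hU | hU
    · exact (hrun.2 (BIG_aux hv0 hU)).nd hS1 hB Sh_disjoint hv hU
    · have hb : min B bm ≤ bm := min_le_right _ _
      obtain ⟨_, n2⟩ := hT (min B bm) hb N lo X
      have n3 := n2.mono hS1 (pow_le_pow_right₀ (by norm_num) (min_le_left B bm)) le_rfl
      refine n3.skip (by decide) hS1 hB Sh_disjoint hv (by positivity) ?_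
      have e1 : ((SD : ℝ) + look TH (min B bm)) * v ≤ (SD + look CH B) * SD := by exact_mod_cast hU
      have e2 : (1 + (look TH (min B bm) : ℝ) / SD) * ((v : ℝ) / SD)
          = ((SD : ℝ) + look TH (min B bm)) * v / SD / SD := by
        field_simp
      have e3 : 1 + (look CH B : ℝ) / SD = (SD + look CH B) * SD / SD / SD := by
        field_simp
      rw [e2, e3]
      gcongr

/-- Check of the entries `a ≤ B < a + n`. -/
def rowsOK2 (v TG TH bm CG CH : ℕ) (l : List (ℕ × ℕ × ℕ)) : ℕ → ℕ → Bool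
  | 0, _ => true
  | n + 1, a => rowOK2 v TG TH bm CG CH l a && rowsOK2 v TG TH bm CG CH l n (a + 1)

theorem rowsOK2_mem {v TG TH bm CG CH : ℕ} {l : List (ℕ × ℕ × ℕ)} (n : ℕ) :
    ∀ a, rowsOK2 v TG TH bm CG CH l n a = true → ∀ B, a ≤ B → B < a + n →
      rowOK2 v TG TH bm CG CH l B = true := by
  induction n with
  | zero => intro a _ B h1 h2; omega
  | succ n ih =>
    intro a h B h1 h2
    unfold rowsOK2 at h
    rw [Bool.and_eq_true] at h
    rcases Nat.eq_or_lt_of_le h1 with h3 | h3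
    · subst h3; exact h.1
    · exact ih (a + 1) h.2 B h3 (by omega)

end Pool.Agent.H91.Gold
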