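import Mathlib
import Pool.Agent.H91.GoldLoop

/-!
The key proposition for one dyadic range and its computable criterion.
-/

namespace Pool.Agent.H91.Gold

open Finset

/-- The key proposition for the range `2^i ≤ w^5 < 2^(i+1)`. -/
def KP (i : ℕ) : Prop :=
  ∃ al, al ≤ i / 2 ∧ ∀ N lo : ℤ, ∃ a ∈ Ioc lo (lo + ((2 ^ (i - 1) - 1 : ℕ) : ℤ)),
    nf N (Pr 1 (2 ^ al)) a ≠ 0 ∧
      wt N (Pr (2 ^ al) (2 ^ (i / 2))) (ww (i / 2) (5 * (i / 2) - (i + 1))) a < 1

/-- The computable criterion. -/
def chk (i al G0 elL delta : ℕ) (ups : List (ℕ × ℕ)) : Bool :=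
  al ≤ i / 2 && 0 < 5 * (i / 2) - (i + 1) && 2 ≤ i &&
  match goB (i / 2) i (2 ^ (i - 1) - 1) (5 * (i / 2) - (i + 1)) (vinvU 0 al + 1) delta ups (i / 2)
      (max al 10) (cU (max al 10)) with
  | none => false
  | some r => G0 + (2 ^ elL * (vinvU 0 al + 1) / (2 ^ (i - 1) - 1) + 1)
      + goA (i / 2) (2 ^ (i - 1) - 1) (5 * (i / 2) - (i + 1)) (vinvU 0 al + 1) ups
        (min 10 (i / 2) - al) al + r.2 < SC

theorem chk_sound {i al G0 elL delta F0 U0 : ℕ} {ups : List (ℕ × ℕ)}
    (h : chk i al G0 elL delta ups = true) (hL : CH al ⟨F0, G0, U0, 2 ^ elL⟩)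
    (hups : ∀ o ∈ ups, UP al o.1 o.2) : KP i := by
  unfold chk at h
  simp only [Bool.and_eq_true, decide_eq_true_eq] at h
  obtain ⟨⟨⟨hal, hM⟩, hi⟩, h⟩ := h
  refine ⟨al, hal, fun N lo => ?_⟩
  set be := i / 2 with hbe
  set M := 5 * be - (i + 1) with hMdef
  set X := 2 ^ (i - 1) - 1 with hXdef
  set v0 := vinvU 0 al + 1 with hv0
  have hX : 0 < X := by
    have : 2 ^ 1 ≤ 2 ^ (i - 1) := two_pow_le_two_pow (by omega)
    omega
  have hS := SC_pos
  have hVpos : 0 < VV (Pr 1 (2 ^ al)) := VV_pos Pr_prime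
  have hXr : (0 : ℝ) < X := by exact_mod_cast hX
  have hK : 0 < (X : ℝ) * VV (Pr 1 (2 ^ al)) / SC := by positivity
  have hv : (1 : ℝ) ≤ (v0 : ℝ) / SC * VV (Pr 1 (2 ^ al)) := by
    have h1 := vinvU_le (Nat.zero_le al)
    rw [pow_zero] at h1
    refine h1.trans ?_
    apply mul_le_mul_of_nonneg_right _ hVpos.le
    apply div_le_div_of_nonneg_right _ hS.le
    rw [hv0]; push_cast; linarith
  have hv' : UP al v0 0 := UP_trivial al
  cases hg : goB be i X M v0 delta ups be (max al 10) (cU (max al 10)) with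
  | none => rw [hg] at h; simp at h
  | some r =>
    rw [hg] at h
    simp only [decide_eq_true_eq] at h
    set j1 := max al 10 with hj1
    have hB := goB_sound (N := N) (lo := lo) (X := X) (al := al) (be := be) (i := i) (M := M) (v0 := v0)
      (delta := delta) hX hM hv hv' ups hups (j1 := j1) (le_max_right _ _) (le_max_left _ _) be j1 (cU j1) r
      le_rfl (by omega) (by
        rw [div_self (by
          have : 10 ≤ j1 := le_max_right _ _
          exact_mod_cast (by omega : j1 ≠ 0)), Real.log_one]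
        linarith) hg
    rw [Pr_self] at hB
    simp only [sum_empty, mul_zero, add_zero] at hB
    have hA := goA_sound (N := N) (lo := lo) (X := X) (al := al) (be := be) (M := M) (v0 := v0)
      hX hM hv hv' ups hups (min 10 be - al) al le_rfl
    have hsum : ∑ p ∈ Pr (2 ^ al) (2 ^ be), bigT N lo X (Pr 1 (2 ^ al)) (ww be M) p
        ≤ ((X : ℝ) * VV (Pr 1 (2 ^ al)) / SC) * (((goA be X M v0 ups (min 10 be - al) al + r.2 : ℕ)) : ℝ) := by
      rw [Nat.cast_add, mul_add]
      rcases le_or_gt 10 al with h10 | h10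
      · have e1 : j1 = al := max_eq_left h10
        have e2 : min 10 be - al = 0 := by omega
        rw [e1] at hB
        rw [e2]
        unfold goA
        simp only [Nat.cast_zero, mul_zero, zero_add]
        exact hB
      · have e1 : j1 = 10 := max_eq_right h10.le
        rw [e1] at hB
        rcases le_or_gt be 10 with hb | hb
        · have e2 : min 10 be - al = be - al := by omega
          have hA' := hA (by omega) (by omega)
          rw [e2, show al + (be - al) = be by omega] at hA'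
          rw [e2]
          have : 0 ≤ ((X : ℝ) * VV (Pr 1 (2 ^ al)) / SC) * (r.2 : ℝ) := by positivity
          linarith
        · have e2 : min 10 be - al = 10 - al := by omega
          have hA' := hA (by omega) (by omega)
          rw [e2, show al + (10 - al) = 10 by omega] at hA'
          rw [e2, sum_Pr_split _ (two_pow_le_two_pow h10.le) (two_pow_le_two_pow hb.le)]
          linarith
    have hG : ((G0 : ℝ) / SC) ≤ 1 := by
      rw [div_le_one hS]
      have : G0 ≤ SC := by
        have h' := h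
        generalize 2 ^ elL * v0 / X = t at h'
        omega
      exact_mod_cast this
    have hc := hL N lo X
    apply exists_of_bigT hc hG (ww be M)
    refine lt_of_le_of_lt hsum ?_
    have hel : (((2 ^ elL : ℕ)) : ℝ) ≤ ((X : ℝ) * VV (Pr 1 (2 ^ al)) / SC) * ((2 ^ elL * v0 / X + 1 : ℕ) : ℝ) := by
      have e1 := div_up (2 ^ elL * v0) X hX
      calc ((2 ^ elL : ℕ) : ℝ) ≤ ((2 ^ elL : ℕ) : ℝ) * ((v0 : ℝ) / SC * VV (Pr 1 (2 ^ al))) :=
            le_mul_of_one_le_right (Nat.cast_nonneg _) hv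
        _ = ((X : ℝ) * VV (Pr 1 (2 ^ al)) / SC) * (((2 ^ elL * v0 : ℕ) : ℝ) / X) := by
            push_cast; field_simp
        _ ≤ _ := mul_le_mul_of_nonneg_left e1 hK.le
    have hlt : (((goA be X M v0 ups (min 10 be - al) al + r.2 : ℕ)) : ℝ)
        < SC - G0 - ((2 ^ elL * v0 / X + 1 : ℕ) : ℝ) := by
      have : ((G0 + (2 ^ elL * v0 / X + 1) + goA be X M v0 ups (min 10 be - al) al + r.2 : ℕ) : ℝ) < (SC : ℝ) := by
        exact_mod_cast h
      push_cast at this ⊢
      linarith
    have hlt2 := mul_lt_mul_of_pos_left hlt hK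
    refine lt_of_lt_of_le hlt2 ?_
    have e5 : (X : ℝ) * ((1 - (G0 : ℝ) / SC) * VV (Pr 1 (2 ^ al)))
        = ((X : ℝ) * VV (Pr 1 (2 ^ al)) / SC) * (SC - G0) := by
      field_simp
    simp only
    rw [e5, mul_sub]
    linarith

/-- One row of the table: `al`, first and last index `i`, `delta`, lower chain and upper chains. -/
structure Row where
  al : ℕ
  lo : ℕ
  hi : ℕ
  delta : ℕ
  le : ℕ
  ll : List (ℕ × ℕ)
  G0 : ℕ
  elL : ℕ
  ups : List (ℕ × List (ℕ × ℕ) × ℕ × ℕ)

/-- Bounds for the `F` and `EU` parts are not needed for the lower chain, so any value is allowed. -/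
def okL (al e : ℕ) (l : List (ℕ × ℕ)) (G el : ℕ) : Bool :=
  let r := runB l e (startV e)
  e ≤ 10 && validB l e && r.1 == al && r.2.G ≤ G && r.2.L ≤ 2 ^ el

theorem okL_sound {al e : ℕ} {l : List (ℕ × ℕ)} {G el : ℕ} (h : okL al e l G el = true) :
    ∃ F U, CH al ⟨F, G, U, 2 ^ el⟩ := by
  unfold okL at h
  simp only [Bool.and_eq_true, decide_eq_true_eq, beq_iff_eq] at h
  obtain ⟨⟨⟨⟨h1, h2⟩, h3⟩, h5⟩, h7⟩ := h
  have := runB_sound l e (startV e) h2 (startV_sound h1)
  rw [h3] at this
  exact ⟨_, _, this.mono le_rfl h5 le_rfl h7⟩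

/-- Check of the chains of a row. -/
def rowOK (r : Row) : Bool :=
  okL r.al r.le r.ll r.G0 r.elL && r.ups.all (fun u => okU r.al u.1 u.2.1 u.2.2.1 u.2.2.2)

/-- Check of the inequalities of a row. -/
def rowChk (r : Row) : Bool :=
  (List.range' r.lo (r.hi - r.lo)).all (fun i => chk i r.al r.G0 r.elL r.delta (r.ups.map (fun u => u.2.2)))

theorem row_sound {r : Row} (h1 : rowOK r = true) (h2 : rowChk r = true) {i : ℕ} (hi1 : r.lo ≤ i)
    (hi2 : i < r.hi) : KP i := by
  unfold rowOK at h1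
  simp only [Bool.and_eq_true, List.all_eq_true] at h1
  unfold rowChk at h2
  rw [List.all_eq_true] at h2
  obtain ⟨F, U, hL⟩ := okL_sound h1.1
  apply chk_sound (h2 i (by rw [List.mem_range'_1]; omega)) hL
  intro o ho
  rw [List.mem_map] at ho
  obtain ⟨u, hu, rfl⟩ := ho
  exact okU_sound (h1.2 u hu)

end Pool.Agent.H91.Gold
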