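import Mathlib
import Pool.Agent.H91.GoldKP

/-!
Chains for all large parameters.
-/

namespace Pool.Agent.H91.Gold

open Finset

theorem VV_ge {j k : ℕ} (hj : 10 ≤ j) {m : ℝ}
    (hm : ∑ p ∈ Pr (2 ^ j) (2 ^ k), (1 : ℝ) / p ≤ m) :
    (1 : ℝ) ≤ Real.exp (2 * m + 8 * m / 2 ^ j) * VV (Pr (2 ^ j) (2 ^ k)) := by
  set B := Pr (2 ^ j) (2 ^ k) with hB
  set S := ∑ p ∈ B, (1 : ℝ) / p with hSdef
  have h2j : (0 : ℝ) < 2 ^ j := by positivity
  have hpB : ∀ p ∈ B, (2 : ℝ) ^ j ≤ p := by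
    intro p hp
    have := (mem_Pr.1 hp).1.1
    exact_mod_cast this.le
  have hj1024 : (1024 : ℝ) ≤ 2 ^ j := by
    have := two_pow_le_two_pow hj
    have h : 1024 ≤ 2 ^ j := by simpa using this
    exact_mod_cast h
  have h2 : Real.exp (-(2 * S + 8 * S / 2 ^ j)) ≤ VV B := by
    have e1 : ∏ p ∈ B, Real.exp (-(g p + 2 * g p ^ 2)) ≤ VV B := by
      unfold VV
      apply prod_le_prod
      · intro p _; exact (Real.exp_pos _).le
      · intro p hp
        apply one_sub_ge (g_nonneg p)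
        rw [g_Pr (by omega) hp]
        have := hpB p hp
        have hp0 : (0 : ℝ) < p := by linarith
        rw [mul_one_div, div_le_div_iff₀ hp0 (by norm_num)]
        linarith
    refine le_trans ?_ e1
    rw [← Real.exp_sum]
    apply Real.exp_le_exp.2
    rw [sum_neg_distrib]
    apply neg_le_neg
    have e2 : 2 * S + 8 * S / 2 ^ j = ∑ p ∈ B, (2 * ((1 : ℝ) / p) + 8 / 2 ^ j * (1 / p)) := by
      rw [sum_add_distrib, ← mul_sum, ← mul_sum]
      ring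
    rw [e2]
    apply sum_le_sum
    intro p hp
    rw [g_Pr (by omega) hp]
    have := hpB p hp
    have hp0 : (0 : ℝ) < p := by linarith
    have e3 : (1 : ℝ) / p ≤ 1 / 2 ^ j := one_div_le_one_div_of_le h2j this
    have e4 : 0 ≤ (1 : ℝ) / p := by positivity
    have e5 : (1 : ℝ) / p * (1 / p) ≤ 1 / 2 ^ j * (1 / p) := mul_le_mul_of_nonneg_right e3 e4
    have e6 : 2 * (2 * ((1 : ℝ) / p)) ^ 2 = 8 * (1 / p * (1 / p)) := by ring
    rw [e6]
    have e7 : (8 : ℝ) / 2 ^ j * (1 / p) = 8 * (1 / 2 ^ j * (1 / p)) := by ring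
    rw [e7]
    linarith
  have h3 : (1 : ℝ) = Real.exp (2 * m + 8 * m / 2 ^ j) * Real.exp (-(2 * m + 8 * m / 2 ^ j)) := by
    rw [← Real.exp_add]; simp
  have h4 : Real.exp (-(2 * m + 8 * m / 2 ^ j)) ≤ VV B := by
    refine le_trans (Real.exp_le_exp.2 ?_) h2
    apply neg_le_neg
    have : 8 * S / 2 ^ j ≤ 8 * m / 2 ^ j := by
      apply div_le_div_of_nonneg_right _ h2j.le
      linarith
    linarith
  calc (1 : ℝ) = Real.exp (2 * m + 8 * m / 2 ^ j) * Real.exp (-(2 * m + 8 * m / 2 ^ j)) := h3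
    _ ≤ _ := mul_le_mul_of_nonneg_left h4 (Real.exp_pos _).le

theorem blk {c k c0 : ℕ} (h10 : 10 ≤ c0) (hc : c0 ≤ c) (hck : c ≤ k) {R m E : ℝ} (hR1 : 1 ≤ R)
    (hR : (k : ℝ) ≤ R * c) (hm : Real.log R + 1.6 / c0 ≤ m)
    (hE : Real.exp (3.2 / c0 + 8 * m / 2 ^ c0) ≤ E) :
    ∑ p ∈ Pr (2 ^ c) (2 ^ k), (1 : ℝ) / p ≤ m ∧
      (1 : ℝ) ≤ R ^ 2 * E * VV (Pr (2 ^ c) (2 ^ k)) := by
  have hR0 : 0 < R := by linarith
  have hc0r : (0 : ℝ) < c0 := by exact_mod_cast (by omega : 0 < c0)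
  have hcr : (0 : ℝ) < c := by exact_mod_cast (by omega : 0 < c)
  have hkr : (0 : ℝ) < k := by exact_mod_cast (by omega : 0 < k)
  have hc0c : (c0 : ℝ) ≤ c := by exact_mod_cast hc
  have h1 := mertens_pow (j := c) (k := k) (by omega) hck
  have h2 : Real.log ((k : ℝ) / c) ≤ Real.log R := by
    apply Real.log_le_log (by positivity)
    rw [div_le_iff₀ hcr]
    exact hR
  have h3 : (1.6 : ℝ) / c ≤ 1.6 / c0 := div_le_div_of_nonneg_left (by norm_num) hc0r hc0c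
  have hS : ∑ p ∈ Pr (2 ^ c) (2 ^ k), (1 : ℝ) / p ≤ Real.log R + 1.6 / c0 := by linarith
  refine ⟨by linarith, ?_⟩
  have h4 := VV_ge (by omega : 10 ≤ c) hS
  have hVpos : 0 < VV (Pr (2 ^ c) (2 ^ k)) := VV_pos Pr_prime
  refine h4.trans (mul_le_mul_of_nonneg_right ?_ hVpos.le)
  have hlogR : 0 ≤ Real.log R := Real.log_nonneg hR1
  have h5 : Real.exp (2 * (Real.log R + 1.6 / c0) + 8 * (Real.log R + 1.6 / c0) / 2 ^ c)
      = R ^ 2 * Real.exp (3.2 / c0 + 8 * (Real.log R + 1.6 / c0) / 2 ^ c) := by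
    rw [show 2 * (Real.log R + 1.6 / c0) + 8 * (Real.log R + 1.6 / c0) / 2 ^ c
      = (Real.log R + Real.log R) + (3.2 / c0 + 8 * (Real.log R + 1.6 / c0) / 2 ^ c) by ring,
      Real.exp_add, Real.exp_add, Real.exp_log hR0]
    ring
  rw [h5]
  apply mul_le_mul_of_nonneg_left _ (by positivity)
  refine le_trans (Real.exp_le_exp.2 ?_) hE
  have h6 : (2 : ℝ) ^ c0 ≤ 2 ^ c := pow_le_pow_right₀ (by norm_num) hc
  have h7 : 8 * (Real.log R + 1.6 / c0) / 2 ^ c ≤ 8 * m / 2 ^ c0 := by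
    have : 0 ≤ (1.6 : ℝ) / c0 := by positivity
    calc 8 * (Real.log R + 1.6 / c0) / 2 ^ c ≤ 8 * (Real.log R + 1.6 / c0) / 2 ^ c0 :=
          div_le_div_of_nonneg_left (by linarith) (by positivity) h6
      _ ≤ 8 * m / 2 ^ c0 := by
          apply div_le_div_of_nonneg_right _ (by positivity)
          linarith
  linarith

theorem sum_pow_fact {y : ℝ} (hy : 4 ≤ y) {b : ℕ} (hb : 4 ≤ b) :
    ∑ m ∈ range (b + 1), y ^ m / (m.factorial : ℝ) ≤ y ^ b / 2 := by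
  induction b, hb using Nat.le_induction with
  | base =>
    rw [sum_range_succ, sum_range_succ, sum_range_succ, sum_range_succ, sum_range_succ, sum_range_zero]
    norm_num [Nat.factorial]
    nlinarith [pow_le_pow_left₀ (by norm_num) hy 2, pow_le_pow_left₀ (by norm_num) hy 3,
      mul_nonneg (by linarith : 0 ≤ y - 4) (by positivity : 0 ≤ y ^ 3),
      mul_nonneg (by linarith : 0 ≤ y - 4) (by positivity : 0 ≤ y ^ 2),
      mul_nonneg (by linarith : 0 ≤ y - 4) (by positivity : 0 ≤ y ^ 1)]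
  | succ b hb ih =>
    rw [sum_range_succ]
    have h1 : (120 : ℝ) ≤ ((b + 1).factorial : ℝ) := by
      have : Nat.factorial 5 ≤ (b + 1).factorial := Nat.factorial_le (by omega)
      exact_mod_cast this
    have h2 : y ^ (b + 1) / ((b + 1).factorial : ℝ) ≤ y ^ (b + 1) / 120 :=
      div_le_div_of_nonneg_left (by positivity) (by norm_num) h1
    have h3 : y ^ b * 4 ≤ y ^ (b + 1) := by
      rw [pow_succ]
      exact mul_le_mul_of_nonneg_left hy (by positivity)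
    have h4 : 0 ≤ y ^ (b + 1) := by positivity
    linarith

theorem es_g_le {j k b : ℕ} (hj : 1 ≤ j) {m V ε : ℝ} (hm : ∑ p ∈ Pr (2 ^ j) (2 ^ k), (1 : ℝ) / p ≤ m)
    (hV : 1 ≤ V * VV (Pr (2 ^ j) (2 ^ k))) (hε : (2 * m) ^ (b + 1) / ((b + 1).factorial : ℝ) * V ≤ ε) :
    es g (Pr (2 ^ j) (2 ^ k)) (b + 1) ≤ ε * VV (Pr (2 ^ j) (2 ^ k)) := by
  have hVpos : 0 < VV (Pr (2 ^ j) (2 ^ k)) := VV_pos Pr_prime
  have h1 := es_le (x := g) (Pr (2 ^ j) (2 ^ k)) (fun p _ => g_nonneg p) (b + 1)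
  have h2 : ∑ p ∈ Pr (2 ^ j) (2 ^ k), g p ≤ 2 * m := by
    rw [sum_g_Pr hj]; linarith
  have h2' : 0 ≤ ∑ p ∈ Pr (2 ^ j) (2 ^ k), g p := sum_nonneg (fun p _ => g_nonneg p)
  have h3 := pow_le_pow_left₀ h2' h2 (b + 1)
  have hm0 : 0 ≤ 2 * m := h2'.trans h2
  have h5 : es g (Pr (2 ^ j) (2 ^ k)) (b + 1) ≤ (2 * m) ^ (b + 1) / (b + 1).factorial := by
    refine h1.trans ?_
    exact div_le_div_of_nonneg_right h3 (by positivity)
  calc es g (Pr (2 ^ j) (2 ^ k)) (b + 1) ≤ (2 * m) ^ (b + 1) / (b + 1).factorial := h5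
    _ ≤ (2 * m) ^ (b + 1) / (b + 1).factorial * (V * VV (Pr (2 ^ j) (2 ^ k))) :=
        le_mul_of_one_le_right (by positivity) hV
    _ = (2 * m) ^ (b + 1) / ((b + 1).factorial : ℝ) * V * VV (Pr (2 ^ j) (2 ^ k)) := by ring
    _ ≤ _ := mul_le_mul_of_nonneg_right hε hVpos.le

theorem es_rho_le {j k : ℕ} (hj : 1 ≤ j) (hjk : j ≤ k) (m : ℕ) :
    es rho (Pr (2 ^ j) (2 ^ k)) m ≤ (2 ^ k) ^ m / (m.factorial : ℝ) := by
  have h1 := es_le (x := rho) (Pr (2 ^ j) (2 ^ k)) (fun p _ => (rho_pos p).le) m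
  have h2 : ∑ p ∈ Pr (2 ^ j) (2 ^ k), rho p ≤ 2 ^ k := by
    rw [sum_congr rfl (fun p hp => rho_Pr hj hp), sum_const, nsmul_eq_mul]
    have := card_Pr_le (j := j) (k := k) (by omega)
    have h : ((2 * (Pr (2 ^ j) (2 ^ k)).card : ℕ) : ℝ) ≤ ((2 ^ k : ℕ) : ℝ) := by exact_mod_cast this
    push_cast at h
    linarith
  have h2' : 0 ≤ ∑ p ∈ Pr (2 ^ j) (2 ^ k), rho p := sum_nonneg (fun p _ => (rho_pos p).le)
  have h3 := pow_le_pow_left₀ h2' h2 m
  exact h1.trans (div_le_div_of_nonneg_right h3 (by positivity))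

theorem es_rho_sum {j k b : ℕ} (hj : 1 ≤ j) (hjk : j ≤ k) (hk : 2 ≤ k) (hb : 4 ≤ b) :
    ∑ m ∈ range (b + 1), es rho (Pr (2 ^ j) (2 ^ k)) m ≤ (2 ^ k) ^ b / 2 := by
  refine (sum_le_sum (fun m _ => es_rho_le hj hjk m)).trans (sum_pow_fact ?_ hb)
  calc (4 : ℝ) = 2 ^ 2 := by norm_num
    _ ≤ 2 ^ k := pow_le_pow_right₀ (by norm_num) hk

/-- Chains with real parameters. -/
def CHR (c : ℕ) (F G : ℝ) (u l : ℕ) : Prop :=
  ∀ (N lo : ℤ) (X : ℕ), Chain N lo X (Pr 1 (2 ^ c)) F G ((2 ^ u : ℕ) : ℝ) ((2 ^ l : ℕ) : ℝ)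

theorem CHR.mono {c : ℕ} {F G F' G' : ℝ} {u l u' l' : ℕ} (h : CHR c F G u l) (hF : F ≤ F') (hG : G ≤ G')
    (hu : u ≤ u') (hl : l ≤ l') : CHR c F' G' u' l' := by
  intro N lo X
  refine (h N lo X).mono Pr_prime hF hG ?_ ?_
  · exact_mod_cast two_pow_le_two_pow hu
  · exact_mod_cast two_pow_le_two_pow hl

theorem CHR.step {c k b u : ℕ} {F G m V ε : ℝ} (hc : 1 ≤ c) (hck : c ≤ k) (hk : 2 ≤ k) (hb : Even b)
    (hb4 : 4 ≤ b) (hm : ∑ p ∈ Pr (2 ^ c) (2 ^ k), (1 : ℝ) / p ≤ m)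
    (hV : 1 ≤ V * VV (Pr (2 ^ c) (2 ^ k))) (hε : (2 * m) ^ (b + 1) / ((b + 1).factorial : ℝ) * V ≤ ε)
    (h : CHR c F G u (u + c)) : CHR k (F * (1 + ε)) (G + ε) (k * b + u) (k * b + u + k) := by
  intro N lo X
  have h2 := (h N lo X).step (B := Pr (2 ^ c) (2 ^ k)) (b := b) (ε := ε)
    (A := (2 ^ k) ^ b / 2) (T := (2 ^ k) ^ (b + 1) / ((b + 1).factorial : ℝ)) Pr_prime Pr_prime
    (Pr_disjoint le_rfl) hb (es_g_le hc hm hV hε) (es_rho_sum hc hck hk hb4) (es_rho_le hc hck _)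
  rw [Pr_union Nat.one_le_two_pow (two_pow_le_two_pow hck)] at h2
  have hy : (0 : ℝ) < 2 ^ k := by positivity
  have h120 : (2 : ℝ) ≤ ((b + 1).factorial : ℝ) := by
    have : Nat.factorial 2 ≤ (b + 1).factorial := Nat.factorial_le (by omega)
    exact_mod_cast this
  have h3 : ((2 : ℝ) ^ k) ^ (b + 1) / ((b + 1).factorial : ℝ) ≤ (2 ^ k) ^ (b + 1) / 2 :=
    div_le_div_of_nonneg_left (by positivity) (by norm_num) h120
  refine h2.mono Pr_prime le_rfl le_rfl ?_ ?_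
  · push_cast
    rw [pow_add, pow_mul]
    have : 0 ≤ ((2 : ℝ) ^ k) ^ b * 2 ^ u := by positivity
    linarith
  · push_cast
    have e0 : (2 : ℝ) ^ (k * b + u + k) = (2 ^ k) ^ b * (2 ^ u * 2 ^ k) := by
      rw [← pow_mul, ← pow_add, ← pow_add]; congr 1; ring
    rw [e0, pow_add (2 : ℝ) u c]
    have e1 : (2 : ℝ) ^ c ≤ 2 ^ k := pow_le_pow_right₀ (by norm_num) hck
    have e2 : ((2 : ℝ) ^ k) ^ b / 2 * (2 ^ u * 2 ^ c) ≤ (2 ^ k) ^ b / 2 * (2 ^ u * 2 ^ k) := by gcongr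
    have e3 : ((2 : ℝ) ^ k) ^ (b + 1) / ((b + 1).factorial : ℝ) * 2 ^ u ≤ (2 ^ k) ^ (b + 1) / 2 * 2 ^ u := by
      gcongr
    have e4 : ((2 : ℝ) ^ k) ^ (b + 1) / 2 * 2 ^ u = (2 ^ k) ^ b / 2 * (2 ^ u * 2 ^ k) := by
      rw [pow_succ]; ring
    linarith

theorem UP.mono {c F F' u u' : ℕ} (h : UP c F u) (hF : F ≤ F') (hu : u ≤ u') : UP c F' u' := by
  intro N lo X
  obtain ⟨G, EL, h1⟩ := h N lo X
  refine ⟨G, EL, h1.mono Pr_prime ?_ le_rfl ?_ le_rfl⟩
  · apply div_le_div_of_nonneg_right _ SC_pos.le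
    exact_mod_cast hF
  · exact_mod_cast two_pow_le_two_pow hu

theorem UP_step {c k b u F F' : ℕ} {m V ε : ℝ} (hc : 1 ≤ c) (hck : c ≤ k) (hk : 2 ≤ k) (hb : Even b)
    (hb4 : 4 ≤ b) (hm : ∑ p ∈ Pr (2 ^ c) (2 ^ k), (1 : ℝ) / p ≤ m)
    (hV : 1 ≤ V * VV (Pr (2 ^ c) (2 ^ k))) (hε : (2 * m) ^ (b + 1) / ((b + 1).factorial : ℝ) * V ≤ ε)
    (h : UP c F u) (hF : (F : ℝ) * (1 + ε) ≤ F') : UP k F' (k * b + u) := by
  intro N lo X
  obtain ⟨G, EL, h1⟩ := h N lo X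
  have h2 := h1.step (B := Pr (2 ^ c) (2 ^ k)) (b := b) (ε := ε)
    (A := (2 ^ k) ^ b / 2) (T := (2 ^ k) ^ (b + 1) / ((b + 1).factorial : ℝ)) Pr_prime Pr_prime
    (Pr_disjoint le_rfl) hb (es_g_le hc hm hV hε) (es_rho_sum hc hck hk hb4) (es_rho_le hc hck _)
  rw [Pr_union Nat.one_le_two_pow (two_pow_le_two_pow hck)] at h2
  refine ⟨_, _, h2.mono Pr_prime ?_ le_rfl ?_ le_rfl⟩
  · rw [le_div_iff₀ SC_pos]
    refine le_trans (le_of_eq ?_) hF
    have := SC_pos.ne'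
    field_simp
  · push_cast
    rw [pow_add, pow_mul]
    have : 0 ≤ ((2 : ℝ) ^ k) ^ b * 2 ^ u := by positivity
    linarith

theorem UP_skip {c k u F F' : ℕ} {V : ℝ} (hck : c ≤ k)
    (hV : 1 ≤ V * VV (Pr (2 ^ c) (2 ^ k)))
    (h : UP c F u) (hF : (F : ℝ) * V ≤ F') : UP k F' u := by
  intro N lo X
  obtain ⟨G, EL, h1⟩ := h N lo X
  have h2 := h1.skip (B := Pr (2 ^ c) (2 ^ k)) (v := V) Pr_prime Pr_prime
    (Pr_disjoint le_rfl) hV
  rw [Pr_union Nat.one_le_two_pow (two_pow_le_two_pow hck)] at h2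
  refine ⟨_, _, h2.mono Pr_prime ?_ le_rfl le_rfl le_rfl⟩
  rw [le_div_iff₀ SC_pos]
  refine le_trans (le_of_eq ?_) hF
  have := SC_pos.ne'
  field_simp

/-- Truncation error of the block with parameter `2 n + 2`. -/
noncomputable def eE (n : ℕ) : ℝ := 1.45192 ^ (2 * n + 3) / ((2 * n + 3).factorial : ℝ) * 4.2712

theorem eE_pos (n : ℕ) : 0 < eE n := by unfold eE; positivity

theorem eE_succ (n : ℕ) (hn : 2 ≤ n) : 2 * eE (n + 1) ≤ eE n := by
  unfold eE
  have h1 : (2 * (n + 1) + 3).factorial = (2 * n + 5) * ((2 * n + 4) * (2 * n + 3).factorial) := by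
    rw [show 2 * (n + 1) + 3 = (2 * n + 3) + 1 + 1 by ring, Nat.factorial_succ, Nat.factorial_succ]
  rw [h1]
  push_cast
  have h2 : (1.45192 : ℝ) ^ (2 * (n + 1) + 3) = 1.45192 ^ (2 * n + 3) * 1.45192 ^ 2 := by
    rw [← pow_add]; congr 1
  rw [h2]
  have hn' : (2 : ℝ) ≤ n := by exact_mod_cast hn
  have hf : (0 : ℝ) < ((2 * n + 3).factorial : ℝ) := by positivity
  have h3 : (1.45192 : ℝ) ^ 2 * 2 ≤ (2 * n + 5) * (2 * n + 4) := by nlinarith
  have hp : (0 : ℝ) < 1.45192 ^ (2 * n + 3) := by positivity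
  set P : ℝ := 1.45192 ^ (2 * n + 3)
  set f : ℝ := ((2 * n + 3).factorial : ℝ)
  have hq : (0 : ℝ) < (2 * n + 5) * (2 * n + 4) := by positivity
  have e1 : 2 * (P * 1.45192 ^ 2 / ((2 * n + 5) * ((2 * n + 4) * f)) * 4.2712)
      = (P / f * 4.2712) * ((1.45192 ^ 2 * 2) / ((2 * n + 5) * (2 * n + 4))) := by
    field_simp
  rw [e1]
  apply mul_le_of_le_one_right (by positivity)
  rw [div_le_one hq]
  exact h3

/-- Accumulated truncation errors. -/
noncomputable def tau (n : ℕ) : ℝ :=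
  if n = 0 then 3 * eE 2 + 2 * eE 3 else if n = 1 then 2 * eE 2 + 2 * eE 3
  else if n = 2 then eE 2 + 2 * eE 3 else 2 * eE n

theorem tau_nonneg (n : ℕ) : 0 ≤ tau n := by
  have h2 := eE_pos 2
  have h3 := eE_pos 3
  have h4 := eE_pos n
  unfold tau
  split_ifs <;> linarith

theorem tau_step (n : ℕ) : tau (n + 1) + eE (max n 2) ≤ tau n := by
  have h2 := eE_pos 2
  rcases Nat.lt_or_ge n 3 with h | h
  · interval_cases n
    · unfold tau; norm_num; linarith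
    · unfold tau; norm_num; linarith
    · unfold tau; norm_num; linarith
  · have h3 := eE_succ n (by omega)
    unfold tau
    rw [if_neg (by omega), if_neg (by omega), if_neg (by omega), if_neg (by omega), if_neg (by omega),
      if_neg (by omega), max_eq_left (by omega)]
    linarith

/-- Exponents of the error terms. -/
def DD (n : ℕ) : ℕ := if n = 0 then 13 else if n = 1 then 14 else if n = 2 then 16 else 4 * n + 8

theorem DD_step (n : ℕ) : 2 * DD n = 2 * (2 * max n 2 + 2) + DD (n + 1) := by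
  rcases Nat.lt_or_ge n 3 with h | h
  · interval_cases n <;> rfl
  · unfold DD
    rw [if_neg (by omega), if_neg (by omega), if_neg (by omega), if_neg (by omega), if_neg (by omega),
      if_neg (by omega), max_eq_left (by omega)]
    ring

theorem DD_ge (n : ℕ) : 13 ≤ DD n := by
  unfold DD
  split_ifs <;> omega

theorem log_129 : Real.log (129 / 64) ≤ 0.700960 := by
  have h : Real.log (129 / 64) = Real.log 2 + Real.log (129 / 128) := by
    rw [← Real.log_mul (by norm_num) (by norm_num)]; norm_num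
  have h2 := Real.log_two_lt_d9
  have h3 := Real.log_le_sub_one_of_pos (show (0 : ℝ) < 129 / 128 by norm_num)
  rw [h]
  norm_num at h3 ⊢
  linarith

theorem exp_small {x : ℝ} {y : ℕ} (h : x ≤ (y : ℝ) / SC) {E : ℝ} (hE : (expU y : ℝ) / SC ≤ E) :
    Real.exp x ≤ E :=
  ((Real.exp_le_exp.2 h).trans (expU_le y)).trans hE

theorem halve_blk {c k : ℕ} (hc : 64 ≤ c) (h1 : 2 * c ≤ k) (h2 : k ≤ 2 * c + 1) :
    ∑ p ∈ Pr (2 ^ c) (2 ^ k), (1 : ℝ) / p ≤ 0.72596 ∧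
      (1 : ℝ) ≤ 4.2712 * VV (Pr (2 ^ c) (2 ^ k)) := by
  have hcr : (64 : ℝ) ≤ c := by exact_mod_cast hc
  have := blk (c := c) (k := k) (c0 := 64) (R := 129 / 64) (m := 0.72596) (E := 1.0512813) (by norm_num) hc (by omega) (by norm_num)
    (by
      have : (k : ℝ) ≤ 2 * c + 1 := by exact_mod_cast h2
      linarith) (by
      have := log_129
      norm_num
      linarith) (by
      apply exp_small (y := 5000001)
      · unfold SC; norm_num
      · unfold expU SC; norm_num)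
  refine ⟨this.1, this.2.trans ?_⟩
  apply mul_le_mul_of_nonneg_right _ (VV_pos Pr_prime).le
  norm_num

theorem CHR_family {Fb Gb : ℝ} (hFb : 0 ≤ Fb)
    (hbase : ∀ al, 64 ≤ al → al < 128 → CHR al Fb Gb (13 * al) (14 * al)) (al : ℕ) :
    64 ≤ al → ∀ n, CHR al (Fb * Real.exp (tau n)) (Gb + tau n) (DD n * al) (DD n * al + al) := by
  induction al using Nat.strong_induction_on with
  | _ al ih =>
    intro hal n
    rcases lt_or_ge al 128 with h | h
    · refine (hbase al hal h).mono ?_ ?_ ?_ ?_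
      · exact le_mul_of_one_le_right hFb (Real.one_le_exp (tau_nonneg n))
      · have := tau_nonneg n; linarith
      · exact Nat.mul_le_mul_right _ (DD_ge n)
      · have := Nat.mul_le_mul_right al (DD_ge n)
        omega
    · have hc : 64 ≤ al / 2 := by omega
      have h1 := ih (al / 2) (by omega) hc (n + 1)
      obtain ⟨b1, b2⟩ := halve_blk (c := al / 2) (k := al) hc (by omega) (by omega)
      have hεb : (2 * 0.72596 : ℝ) ^ ((2 * max n 2 + 2) + 1) / (((2 * max n 2 + 2) + 1).factorial : ℝ) * 4.2712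
          ≤ eE (max n 2) := by
        unfold eE
        norm_num
      have h2 := CHR.step (c := al / 2) (k := al) (b := 2 * max n 2 + 2) (ε := eE (max n 2)) (by omega) (by omega)
        (by omega) (by
          rw [show 2 * max n 2 + 2 = 2 * (max n 2 + 1) by ring]
          exact even_two_mul _) (by
          have := le_max_right n 2
          omega) b1 b2 hεb h1
      have hpos := eE_pos (max n 2)
      have hts := tau_step n
      refine h2.mono ?_ ?_ ?_ ?_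
      · rw [mul_assoc]
        apply mul_le_mul_of_nonneg_left _ hFb
        calc Real.exp (tau (n + 1)) * (1 + eE (max n 2))
            ≤ Real.exp (tau (n + 1)) * Real.exp (eE (max n 2)) := by
              apply mul_le_mul_of_nonneg_left _ (Real.exp_pos _).le
              have := Real.add_one_le_exp (eE (max n 2))
              linarith
          _ = Real.exp (tau (n + 1) + eE (max n 2)) := by rw [Real.exp_add]
          _ ≤ _ := Real.exp_le_exp.2 hts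
      · linarith
      · have hD := DD_step n
        have : DD (n + 1) * (2 * (al / 2)) ≤ DD (n + 1) * al := Nat.mul_le_mul_left _ (by omega)
        nlinarith
      · have hD := DD_step n
        have : DD (n + 1) * (2 * (al / 2)) ≤ DD (n + 1) * al := Nat.mul_le_mul_left _ (by omega)
        nlinarith

end Pool.Agent.H91.Gold
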