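import Mathlib
import Pool.Agent.H91.G5Tab
import Pool.Agent.H91.GoldMertens3
import Pool.Agent.H91.GoldInfA

/-!
Computable bounds for the blocks of primes between `2^(h/2)` and `2^(h'/2)`.
-/

namespace Pool.Agent.H91.Gold

open Finset

theorem SD_SC : (SD : ℝ) = 10000 * SC := by unfold SD SC; norm_num

theorem zc_sq_le (h : ℕ) : zc h * zc h ≤ 2 ^ h := Nat.sqrt_le _

theorem lt_zc_sq (h : ℕ) : 2 ^ h < (zc h + 1) * (zc h + 1) := Nat.lt_succ_sqrt _

theorem log_zc_le (h : ℕ) : Real.log (zc h) ≤ (h : ℝ) / 2 * Real.log 2 := by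
  have h1 : (0 : ℝ) < zc h := by exact_mod_cast one_le_zc h
  have h2 : Real.log ((zc h * zc h : ℕ) : ℝ) ≤ Real.log ((2 ^ h : ℕ) : ℝ) := by
    apply Real.log_le_log
    · push_cast; positivity
    · exact_mod_cast zc_sq_le h
  push_cast at h2
  rw [Real.log_mul h1.ne' h1.ne', Real.log_pow] at h2
  linarith

/-- Mertens bound from `2^j`, `j ≥ 16`, up to any end point. -/
theorem mass_gen {j w : ℕ} {b : ℝ} (hj : 16 ≤ j) (hw : 2 ^ j ≤ w) (hb : Real.log w ≤ b * Real.log 2) :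
    ∑ p ∈ Pr (2 ^ j) w, (1 : ℝ) / p ≤ Real.log (b / j) + 0.3312 / j := by
  have h2j : 65536 ≤ 2 ^ j := by
    calc 65536 = 2 ^ 16 := by norm_num
      _ ≤ 2 ^ j := two_pow_le_two_pow hj
  have l2 := Real.log_two_gt_d9
  have l20 : 0 < Real.log 2 := by linarith
  have hj0 : (0 : ℝ) < j := by exact_mod_cast (by omega : 0 < j)
  have h := mertens_wz h2j hw
  have elog : Real.log ((2 ^ j : ℕ) : ℝ) = j * Real.log 2 := by push_cast; rw [Real.log_pow]
  have hlw : Real.log ((2 ^ j : ℕ) : ℝ) ≤ Real.log w := by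
    apply Real.log_le_log
    · positivity
    · exact_mod_cast hw
  rw [elog] at h hlw
  have hw0 : 0 < Real.log w := lt_of_lt_of_le (by positivity) hlw
  have h1 : Real.log (Real.log w / (j * Real.log 2)) ≤ Real.log (b / j) := by
    apply Real.log_le_log (by positivity)
    rw [div_le_div_iff₀ (by positivity) hj0]
    nlinarith
  have h3 : (0.2295 : ℝ) / (j * Real.log 2) ≤ 0.3312 / j := by
    rw [div_le_div_iff₀ (by positivity) hj0]
    nlinarith
  linarith

/-- Scaled upper bound of `log (b / a)`. -/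
def lgD (a b : ℕ) : ℕ := sumR (fun i => SD * (2 * i + 1) / (2 * i * (i + 1)) + 1) a (b - a)

theorem lgD_aux (d : ℕ) : ∀ j, 1 ≤ j → Real.log ((j + d : ℕ) : ℝ) - Real.log j
    ≤ (sumR (fun i => SD * (2 * i + 1) / (2 * i * (i + 1)) + 1) j d : ℝ) / SD := by
  have hS := SD_pos
  induction d with
  | zero => intro j _; simp [sumR]
  | succ d ih =>
    intro j hj
    have h1 := ih (j + 1) (by omega)
    have e0 : ((sumR (fun i => SD * (2 * i + 1) / (2 * i * (i + 1)) + 1) j (d + 1) : ℕ) : ℝ)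
        = ((SD * (2 * j + 1) / (2 * j * (j + 1)) + 1 : ℕ) : ℝ)
          + ((sumR (fun i => SD * (2 * i + 1) / (2 * i * (i + 1)) + 1) (j + 1) d : ℕ) : ℝ) := by
      rw [sumR]; push_cast; ring
    rw [e0, add_div]
    have h2 : Real.log ((j + 1 : ℕ) : ℝ) - Real.log j
        ≤ ((SD * (2 * j + 1) / (2 * j * (j + 1)) + 1 : ℕ) : ℝ) / SD := by
      have h3 := log_step hj
      have h4 := div_up (SD * (2 * j + 1)) (2 * j * (j + 1)) (by positivity)
      rw [le_div_iff₀ hS]
      refine le_trans ?_ h4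
      have h5 : (((SD * (2 * j + 1) : ℕ) : ℝ) / (2 * j * (j + 1) : ℕ))
          = (2 * (j : ℝ) + 1) / (2 * j * (j + 1)) * SD := by
        push_cast; ring
      rw [h5]
      push_cast at h3 ⊢
      exact mul_le_mul_of_nonneg_right h3 hS.le
    have e : j + 1 + d = j + (d + 1) := by ring
    rw [e] at h1
    linarith

theorem lgD_le {a b : ℕ} (ha : 1 ≤ a) (hab : a ≤ b) : Real.log ((b : ℝ) / a) ≤ (lgD a b : ℝ) / SD := by
  have h := lgD_aux (b - a) a ha
  rw [show a + (b - a) = b by omega] at h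
  have ha0 : (0 : ℝ) < a := by exact_mod_cast ha
  have hb0 : (0 : ℝ) < b := by exact_mod_cast (by omega : 0 < b)
  rw [Real.log_div hb0.ne' ha0.ne']
  exact h

/-- Scaled additive constant of the Mertens bound. -/
def cH (h : ℕ) : ℕ := 662400000000 / h + 1

theorem cH_ge {h : ℕ} (hh : 1 ≤ h) : (0.6624 : ℝ) / h ≤ (cH h : ℝ) / SD := by
  have h1 := div_up 662400000000 h hh
  have hh0 : (0 : ℝ) < h := by exact_mod_cast hh
  rw [le_div_iff₀ SD_pos]
  refine le_trans (le_of_eq ?_) h1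
  unfold SD
  push_cast
  ring

theorem mass_large {h1 h2 : ℕ} (he : Even h1) (h32 : 32 ≤ h1) (h12 : h1 ≤ h2) :
    ∑ p ∈ Bh h1 h2, (1 : ℝ) / p ≤ Real.log ((h2 : ℝ) / h1) + (cH h1 : ℝ) / SD := by
  obtain ⟨j, hj⟩ := he
  have hj2 : h1 = 2 * j := by omega
  subst hj2
  have hz : zc (2 * j) = 2 ^ j := zc_even j
  have h1' := mass_gen (j := j) (w := zc h2) (b := (h2 : ℝ) / 2) (by omega) (by
    rw [← hz]; exact zc_mono h12) (log_zc_le h2)
  unfold Bh
  rw [hz]
  have hj0 : (0 : ℝ) < j := by exact_mod_cast (by omega : 0 < j)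
  have e1 : (h2 : ℝ) / 2 / j = (h2 : ℝ) / (2 * j : ℕ) := by push_cast; field_simp
  have e2 : (0.3312 : ℝ) / j = 0.6624 / (2 * j : ℕ) := by push_cast; field_simp; norm_num
  rw [e1, e2] at h1'
  have := cH_ge (h := 2 * j) (by omega)
  linarith

/-- Scaled upper bound for the sum of `1/p` over a block. -/
def massB (h1 h2 : ℕ) : ℕ :=
  if h2 ≤ 32 then 10000 * sumR sH h1 (h2 - h1)
  else if 32 ≤ h1 then lgD h1 h2 + cH h1
  else 10000 * sumR sH h1 (32 - h1) + (lgD 32 h2 + cH 32)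

theorem mass_small (d : ℕ) : ∀ h, h + d ≤ 32 →
    ∑ p ∈ Bh h (h + d), (1 : ℝ) / p ≤ ((10000 * sumR sH h d : ℕ) : ℝ) / SD := by
  have hS := SC_pos
  induction d with
  | zero => intro h _; simp [Bh, Pr_self, sumR]
  | succ d ih =>
    intro h hh
    have e1 := ih (h + 1) (by omega)
    have e2 := half_s (h := h) (by omega)
    unfold Bh at e1 ⊢
    rw [show h + 1 + d = h + (d + 1) by ring] at e1
    rw [sum_Pr_split _ (zc_mono (by omega : h ≤ h + 1)) (zc_mono (by omega : h + 1 ≤ h + (d + 1)))]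
    rw [sumR]
    rw [SD_SC] at e1 ⊢
    push_cast at e1 ⊢
    have e3 : (10000 * ((sH h : ℝ) + (sumR sH (h + 1) d : ℝ))) / (10000 * SC)
        = (sH h : ℝ) / SC + (10000 * (sumR sH (h + 1) d : ℝ)) / (10000 * SC) := by
      field_simp
    rw [e3]
    linarith

/-- Admissible ends of blocks. -/
def okh (h : ℕ) : Bool := h ≤ 32 || h % 2 == 0

theorem massB_le {h1 h2 : ℕ} (h12 : h1 ≤ h2) (ho : okh h1 = true) :
    ∑ p ∈ Bh h1 h2, (1 : ℝ) / p ≤ (massB h1 h2 : ℝ) / SD := by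
  have hbig : ∀ h, Even h → 32 ≤ h → h ≤ h2 → ∑ p ∈ Bh h h2, (1 : ℝ) / p ≤ ((lgD h h2 + cH h : ℕ) : ℝ) / SD := by
    intro h he h32 hh
    have e1 := mass_large he h32 hh
    have e2 := lgD_le (a := h) (b := h2) (by omega) hh
    push_cast
    rw [add_div]
    linarith
  unfold massB
  split_ifs with a1 a2
  · have := mass_small (h2 - h1) h1 (by omega)
    rwa [show h1 + (h2 - h1) = h2 by omega] at this
  · apply hbig h1 _ a2 h12
    unfold okh at ho
    simp only [Bool.or_eq_true, decide_eq_true_eq, beq_iff_eq] at ho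
    rcases ho with ho | ho
    · have : h1 = 32 := by omega
      subst this; decide
    · exact Nat.even_iff.2 ho
  · have e1 := mass_small (32 - h1) h1 (by omega)
    rw [show h1 + (32 - h1) = 32 by omega] at e1
    have e2 := hbig 32 (by decide) le_rfl (by omega)
    unfold Bh at e1 e2 ⊢
    rw [sum_Pr_split _ (zc_mono (by omega : h1 ≤ 32)) (zc_mono (by omega : 32 ≤ h2))]
    rw [Nat.cast_add, add_div]
    linarith

/-- Scaled upper bound for the exponential function of small arguments. -/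
def expD (x : ℕ) : ℕ :=
  if x ≤ SD then SD + x + (x * x / (2 * SD) + 1) + (x * x * x / (4 * SD * SD) + 1)
  else SD * 3 ^ (x / SD + 1)

theorem expD_le (x : ℕ) : Real.exp ((x : ℝ) / SD) ≤ (expD x : ℝ) / SD := by
  have hS := SD_pos
  unfold expD
  split_ifs with h
  · have h1 : (x : ℝ) / SD ≤ 1 := by
      rw [div_le_one hS]; exact_mod_cast h
    have h2 := exp_le_poly (by positivity) h1
    refine h2.trans ?_
    have a1 := div_up (x * x) (2 * SD) (by unfold SD; norm_num)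
    have a2 := div_up (x * x * x) (4 * SD * SD) (by unfold SD; norm_num)
    rw [le_div_iff₀ hS]
    have e : (1 + (x : ℝ) / SD + ((x : ℝ) / SD) ^ 2 / 2 + ((x : ℝ) / SD) ^ 3 / 4) * SD
        = SD + x + ((x * x : ℕ) : ℝ) / (2 * SD : ℕ) + ((x * x * x : ℕ) : ℝ) / (4 * SD * SD : ℕ) := by
      push_cast; field_simp
    rw [e, Nat.cast_add, Nat.cast_add, Nat.cast_add]
    linarith
  · have h1 : (x : ℝ) / SD ≤ ((x / SD + 1 : ℕ) : ℝ) := div_up x SD (by unfold SD; norm_num)
    calc Real.exp ((x : ℝ) / SD) ≤ Real.exp ((x / SD + 1 : ℕ) : ℝ) := Real.exp_le_exp.2 h1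
      _ = Real.exp 1 ^ (x / SD + 1) := by rw [← Real.exp_nat_mul]; simp
      _ ≤ 3 ^ (x / SD + 1) := by
          apply pow_le_pow_left₀ (Real.exp_pos 1).le
          have := Real.exp_one_lt_d9
          linarith
      _ = ((SD * 3 ^ (x / SD + 1) : ℕ) : ℝ) / SD := by push_cast; field_simp

/-- Lower bound of the density of a set of large primes. -/
theorem VV_ge2 {j w : ℕ} (hj : 10 ≤ j) {m : ℝ}
    (hm : ∑ p ∈ Pr (2 ^ j) w, (1 : ℝ) / p ≤ m) :
    (1 : ℝ) ≤ Real.exp (2 * m + 8 * m / 2 ^ j) * VV (Pr (2 ^ j) w) := by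
  set B := Pr (2 ^ j) w with hB
  set S := ∑ p ∈ B, (1 : ℝ) / p with hSdef
  have h2j : (0 : ℝ) < 2 ^ j := by positivity
  have hpB : ∀ p ∈ B, (2 : ℝ) ^ j ≤ p := by
    intro p hp
    have := (mem_Pr.1 hp).1.1
    exact_mod_cast this.le
  have hj1024 : (1024 : ℝ) ≤ 2 ^ j := by
    have := two_pow_le_two_pow hj
    have h : 1024 ≤ 2 ^ j := by simpa using this
    exact_mod_cast h
  have hgp : ∀ p ∈ B, g p = 2 * (1 / (p : ℝ)) := by
    intro p hp
    have h1 := hpB p hp
    have h2 : p ≠ 2 := by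
      rintro rfl
      norm_num at h1
      linarith
    rw [g_odd h2]; ring
  have h2 : Real.exp (-(2 * S + 8 * S / 2 ^ j)) ≤ VV B := by
    have e1 : ∏ p ∈ B, Real.exp (-(g p + 2 * g p ^ 2)) ≤ VV B := by
      unfold VV
      apply prod_le_prod
      · intro p _; exact (Real.exp_pos _).le
      · intro p hp
        apply one_sub_ge (g_nonneg p)
        rw [hgp p hp]
        have := hpB p hp
        have hp0 : (0 : ℝ) < p := by linarith
        rw [mul_one_div, div_le_div_iff₀ hp0 (by norm_num)]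
        linarith
    refine le_trans ?_ e1
    rw [← Real.exp_sum]
    apply Real.exp_le_exp.2
    rw [sum_neg_distrib]
    apply neg_le_neg
    have e2 : 2 * S + 8 * S / 2 ^ j = ∑ p ∈ B, (2 * ((1 : ℝ) / p) + 8 / 2 ^ j * (1 / p)) := by
      rw [sum_add_distrib, ← mul_sum, ← mul_sum]
      ring
    rw [e2]
    apply sum_le_sum
    intro p hp
    rw [hgp p hp]
    have := hpB p hp
    have hp0 : (0 : ℝ) < p := by linarith
    have e3 : (1 : ℝ) / p ≤ 1 / 2 ^ j := one_div_le_one_div_of_le h2j this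
    have e4 : 0 ≤ (1 : ℝ) / p := by positivity
    have e5 : (1 : ℝ) / p * (1 / p) ≤ 1 / 2 ^ j * (1 / p) := mul_le_mul_of_nonneg_right e3 e4
    have e6 : 2 * (2 * ((1 : ℝ) / p)) ^ 2 = 8 * (1 / p * (1 / p)) := by ring
    rw [e6]
    have e7 : (8 : ℝ) / 2 ^ j * (1 / p) = 8 * (1 / 2 ^ j * (1 / p)) := by ring
    rw [e7]
    linarith
  have h3 : (1 : ℝ) = Real.exp (2 * m + 8 * m / 2 ^ j) * Real.exp (-(2 * m + 8 * m / 2 ^ j)) := by
    rw [← Real.exp_add]; simp
  have h4 : Real.exp (-(2 * m + 8 * m / 2 ^ j)) ≤ VV B := by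
    refine le_trans (Real.exp_le_exp.2 ?_) h2
    apply neg_le_neg
    have : 8 * S / 2 ^ j ≤ 8 * m / 2 ^ j := by
      apply div_le_div_of_nonneg_right _ h2j.le
      linarith
    linarith
  calc (1 : ℝ) = Real.exp (2 * m + 8 * m / 2 ^ j) * Real.exp (-(2 * m + 8 * m / 2 ^ j)) := h3
    _ ≤ _ := mul_le_mul_of_nonneg_left h4 (Real.exp_pos _).le

/-- Scaled bound for the inverse of the density over a block of large primes. -/
def vbigH (h1 h2 : ℕ) : ℕ :=
  (SD * (h2 * h2) / (h1 * h1) + 1) *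
    expD (2 * cH h1 + (8 * (lgD h1 h2 + cH h1) / 2 ^ (h1 / 2) + 1)) / SD + 1

theorem vbigH_le {h1 h2 : ℕ} (he : Even h1) (h32 : 32 ≤ h1) (h12 : h1 ≤ h2) :
    (1 : ℝ) ≤ (vbigH h1 h2 : ℝ) / SD * VV (Bh h1 h2) := by
  have hS := SD_pos
  have hm := mass_large he h32 h12
  obtain ⟨j, hj⟩ := he
  have hj2 : h1 = 2 * j := by omega
  have hz : zc h1 = 2 ^ j := by rw [hj2]; exact zc_even j
  have hdiv : h1 / 2 = j := by omega
  have h10 : (0 : ℝ) < h1 := by exact_mod_cast (by omega : 0 < h1)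
  have h20 : (0 : ℝ) < h2 := by exact_mod_cast (by omega : 0 < h2)
  set m : ℝ := Real.log ((h2 : ℝ) / h1) + (cH h1 : ℝ) / SD with hmdef
  have h1' : m ≤ ((lgD h1 h2 + cH h1 : ℕ) : ℝ) / SD := by
    have := lgD_le (a := h1) (b := h2) (by omega) h12
    rw [Nat.cast_add, add_div, hmdef]; linarith
  unfold Bh at hm ⊢
  rw [hz] at hm ⊢
  have hV := VV_ge2 (j := j) (by omega) hm
  have h2j : (0 : ℝ) < 2 ^ j := by positivity
  refine hV.trans (mul_le_mul_of_nonneg_right ?_ (VV_pos Pr_prime).le)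
  set x : ℕ := 2 * cH h1 + (8 * (lgD h1 h2 + cH h1) / 2 ^ (h1 / 2) + 1) with hx
  have h3 : 2 * m + 8 * m / 2 ^ j ≤ 2 * Real.log ((h2 : ℝ) / h1) + (x : ℝ) / SD := by
    have e1 := div_up (8 * (lgD h1 h2 + cH h1)) (2 ^ j) (by positivity)
    have e2 : 8 * m / 2 ^ j ≤ ((8 * (lgD h1 h2 + cH h1) / 2 ^ j + 1 : ℕ) : ℝ) / SD := by
      rw [le_div_iff₀ hS]
      refine le_trans ?_ e1
      rw [div_mul_eq_mul_div, mul_assoc]
      push_cast
      apply div_le_div_of_nonneg_right _ h2j.le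
      rw [le_div_iff₀ hS] at h1'
      push_cast at h1'
      linarith
    rw [hx, hdiv, Nat.cast_add, add_div]
    push_cast at e2 ⊢
    have e3 : 2 * (cH h1 : ℝ) / SD = 2 * ((cH h1 : ℝ) / SD) := by ring
    rw [e3]
    have e4 : 2 * m = 2 * Real.log ((h2 : ℝ) / h1) + 2 * ((cH h1 : ℝ) / SD) := by rw [hmdef]; ring
    linarith
  have h4 : Real.exp (2 * m + 8 * m / 2 ^ j) ≤ ((h2 : ℝ) / h1) ^ 2 * ((expD x : ℝ) / SD) := by
    calc Real.exp (2 * m + 8 * m / 2 ^ j) ≤ Real.exp (2 * Real.log ((h2 : ℝ) / h1) + (x : ℝ) / SD) :=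
          Real.exp_le_exp.2 h3
      _ = ((h2 : ℝ) / h1) ^ 2 * Real.exp ((x : ℝ) / SD) := by
          rw [Real.exp_add, two_mul, Real.exp_add, Real.exp_log (by positivity)]
          ring
      _ ≤ ((h2 : ℝ) / h1) ^ 2 * ((expD x : ℝ) / SD) :=
          mul_le_mul_of_nonneg_left (expD_le x) (by positivity)
  refine h4.trans ?_
  unfold vbigH
  rw [← hx]
  have e1 := div_up (SD * (h2 * h2)) (h1 * h1) (Nat.mul_pos (by omega) (by omega))
  have e2 := div_up ((SD * (h2 * h2) / (h1 * h1) + 1) * expD x) SD (by unfold SD; norm_num)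
  have hE : (0 : ℝ) ≤ (expD x : ℝ) / SD := by positivity
  rw [le_div_iff₀ hS]
  refine le_trans ?_ e2
  rw [Nat.cast_mul]
  have e3 : ((h2 : ℝ) / h1) ^ 2 * ((expD x : ℝ) / SD) * SD
      = ((SD * (h2 * h2) : ℕ) : ℝ) / (h1 * h1 : ℕ) * (expD x : ℝ) / SD := by
    push_cast; field_simp
  rw [e3]
  apply div_le_div_of_nonneg_right _ hS.le
  exact mul_le_mul_of_nonneg_right e1 (Nat.cast_nonneg _)

theorem mul_SD_le {a b : ℕ} {x y : ℝ} (hx : 1 ≤ (a : ℝ) / SD * x) (hy : 1 ≤ (b : ℝ) / SD * y)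
    (hx0 : 0 < x) (hy0 : 0 < y) : 1 ≤ ((a * b / SD + 1 : ℕ) : ℝ) / SD * (x * y) := by
  have hS := SD_pos
  have h1 := div_up (a * b) SD (by unfold SD; norm_num)
  have h2 : 1 ≤ ((a : ℝ) / SD * x) * ((b : ℝ) / SD * y) := one_le_mul_of_one_le_of_one_le hx hy
  refine h2.trans ?_
  have e : ((a : ℝ) / SD * x) * ((b : ℝ) / SD * y) = ((a * b : ℕ) : ℝ) / SD / SD * (x * y) := by
    push_cast; field_simp
  rw [e]
  apply mul_le_mul_of_nonneg_right _ (by positivity)
  exact div_le_div_of_nonneg_right h1 hS.le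

/-- Product of the bounds of the small half octaves. -/
def vpr : ℕ → ℕ → ℕ
  | _, 0 => SD
  | h, d + 1 => 10000 * vH h * vpr (h + 1) d / SD + 1

theorem vpr_le (d : ℕ) : ∀ h, h + d ≤ 32 → (1 : ℝ) ≤ (vpr h d : ℝ) / SD * VV (Bh h (h + d)) := by
  have hS := SD_pos
  induction d with
  | zero =>
    intro h _
    unfold Bh
    rw [add_zero, Pr_self]
    unfold vpr VV
    rw [prod_empty, mul_one, div_self hS.ne']
  | succ d ih =>
    intro h hh
    have e1 := ih (h + 1) (by omega)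
    have e2 := half_v (h := h) (by omega)
    unfold Bh at e1 ⊢
    rw [show h + 1 + d = h + (d + 1) by ring] at e1
    rw [VV_Pr_split (zc_mono (by omega : h ≤ h + 1)) (zc_mono (by omega : h + 1 ≤ h + (d + 1)))]
    unfold vpr
    have e3 : (1 : ℝ) ≤ ((10000 * vH h : ℕ) : ℝ) / SD * VV (Pr (zc h) (zc (h + 1))) := by
      rw [SD_SC]
      push_cast
      rw [mul_div_mul_left _ _ (by norm_num : (10000 : ℝ) ≠ 0)]
      exact e2
    exact mul_SD_le e3 e1 (VV_pos Pr_prime) (VV_pos Pr_prime)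

/-- Scaled bound for the inverse of the density over a block. -/
def vinB (h1 h2 : ℕ) : ℕ :=
  if h2 ≤ 32 then vpr h1 (h2 - h1)
  else if 32 ≤ h1 then vbigH h1 h2
  else vpr h1 (32 - h1) * vbigH 32 h2 / SD + 1

theorem vinB_le {h1 h2 : ℕ} (h12 : h1 ≤ h2) (ho : okh h1 = true) :
    (1 : ℝ) ≤ (vinB h1 h2 : ℝ) / SD * VV (Bh h1 h2) := by
  unfold vinB
  split_ifs with a1 a2
  · have := vpr_le (h2 - h1) h1 (by omega)
    rwa [show h1 + (h2 - h1) = h2 by omega] at this
  · apply vbigH_le _ a2 h12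
    unfold okh at ho
    simp only [Bool.or_eq_true, decide_eq_true_eq, beq_iff_eq] at ho
    rcases ho with ho | ho
    · have : h1 = 32 := by omega
      subst this; decide
    · exact Nat.even_iff.2 ho
  · have e1 := vpr_le (32 - h1) h1 (by omega)
    rw [show h1 + (32 - h1) = 32 by omega] at e1
    have e2 := vbigH_le (h1 := 32) (h2 := h2) (by decide) le_rfl (by omega)
    unfold Bh at e1 e2 ⊢
    rw [VV_Pr_split (zc_mono (by omega : h1 ≤ 32)) (zc_mono (by omega : 32 ≤ h2))]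
    exact mul_SD_le e1 e2 (VV_pos Pr_prime) (VV_pos Pr_prime)

/-- Bound for the number of primes in a block. -/
def cardB (h1 h2 : ℕ) : ℕ :=
  if h2 ≤ 32 then sumR nH h1 (h2 - h1) else 9 * 2 ^ ((h2 + 1) / 2) / (4 * ((h2 + 1) / 2))

theorem card_small (d : ℕ) : ∀ h, h + d ≤ 32 → (Bh h (h + d)).card ≤ sumR nH h d := by
  induction d with
  | zero => intro h _; simp [Bh, Pr_self]
  | succ d ih =>
    intro h hh
    have e1 := ih (h + 1) (by omega)
    have e2 := half_n (h := h) (by omega)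
    unfold Bh at e1 ⊢
    rw [show h + 1 + d = h + (d + 1) by ring] at e1
    rw [card_Pr_split (zc_mono (by omega : h ≤ h + 1)) (zc_mono (by omega : h + 1 ≤ h + (d + 1))), sumR]
    omega

theorem cardB_le {h1 h2 : ℕ} (h12 : h1 ≤ h2) : (Bh h1 h2).card ≤ cardB h1 h2 := by
  unfold cardB
  split_ifs with a1
  · have := card_small (h2 - h1) h1 (by omega)
    rwa [show h1 + (h2 - h1) = h2 by omega] at this
  · have hk : 16 ≤ (h2 + 1) / 2 := by omega
    have h1 : Bh h1 h2 ⊆ Nat.primesLE (2 ^ ((h2 + 1) / 2)) := by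
      intro p hp
      rw [Nat.mem_primesLE]
      have h2' := (mem_Pr.1 hp).1.2
      have h3 : zc h2 ≤ 2 ^ ((h2 + 1) / 2) := by
        rw [← zc_even]
        exact zc_mono (by omega)
      exact ⟨h2'.trans h3, (mem_Pr.1 hp).2⟩
    refine (card_le_card h1).trans ?_
    rw [Nat.le_div_iff_mul_le (by omega)]
    have := card_pow hk
    linarith

/-- Exponent of a power of two above `r`. -/
def cl (r : ℕ) : ℕ := if r ≤ 1 then 0 else Nat.log2 (r - 1) + 1

theorem le_cl (r : ℕ) : r ≤ 2 ^ cl r := by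
  unfold cl
  split_ifs with h
  · simpa using h
  · have h1 := Nat.lt_log2_self (n := r - 1)
    omega

/-- Data of a block: bounds for the elementary symmetric functions and costs. -/
def triL (mu n : ℕ) : ℕ → ℕ → ℕ → ℕ → List (ℕ × ℕ × ℕ)
  | 0, _, _, _ => []
  | f + 1, k, e, r =>
    (e, (if n < k + 1 then 0 else e * mu / ((k + 1) * SD) + 1), (if r = 0 then 0 else cl r + k + 1)) ::
      triL mu n f (k + 1) (if n < k + 1 then 0 else e * mu / ((k + 1) * SD) + 1)
        (r * 2 * (n - k) / (k + 1))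

theorem triL_sound {B : Finset ℕ} {mu n : ℕ}
    (hB2 : ∀ p ∈ B, rho p = 2) (hmu : ∑ p ∈ B, g p ≤ (mu : ℝ) / SD) (hn : B.card ≤ n) (f : ℕ) :
    ∀ k e r : ℕ, (k ≤ n → ((mu : ℝ) / SD) ^ k / (k.factorial : ℝ) ≤ (e : ℝ) / SD) →
      r = 2 ^ k * n.choose k → Mtc B (triL mu n f k e r) k := by
  have hS := SD_pos
  have hg0 : 0 ≤ ∑ p ∈ B, g p := sum_nonneg (fun p _ => g_nonneg p)
  have hes : ∀ k (e : ℕ), (k ≤ n → ((mu : ℝ) / SD) ^ k / (k.factorial : ℝ) ≤ (e : ℝ) / SD) →
      es g B k * SD ≤ e := by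
    intro k e he
    rcases le_or_gt k n with h | h
    · have h1 := es_le (x := g) B (fun p _ => g_nonneg p) k
      have h2 : (∑ p ∈ B, g p) ^ k / (k.factorial : ℝ) ≤ ((mu : ℝ) / SD) ^ k / (k.factorial : ℝ) := by
        apply div_le_div_of_nonneg_right _ (by positivity)
        exact pow_le_pow_left₀ hg0 hmu k
      have h3 := h1.trans (h2.trans (he h))
      rwa [le_div_iff₀ hS] at h3
    · have : es g B k = 0 := by
        unfold es
        rw [powersetCard_eq_empty.2 (by omega)]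
        simp
      rw [this, zero_mul]
      positivity
  induction f with
  | zero => intro k e r _ _; trivial
  | succ f ih =>
    intro k e r he hr
    have he' : k + 1 ≤ n → ((mu : ℝ) / SD) ^ (k + 1) / ((k + 1).factorial : ℝ)
        ≤ (((if n < k + 1 then 0 else e * mu / ((k + 1) * SD) + 1) : ℕ) : ℝ) / SD := by
      intro h
      rw [if_neg (by omega)]
      have h1 := he (by omega)
      have h2 := div_up (e * mu) ((k + 1) * SD) (Nat.mul_pos (by omega) (by unfold SD; norm_num))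
      have h3 : ((mu : ℝ) / SD) ^ (k + 1) / ((k + 1).factorial : ℝ)
          = (((mu : ℝ) / SD) ^ k / (k.factorial : ℝ)) * ((mu : ℝ) / SD / (k + 1)) := by
        rw [Nat.factorial_succ, pow_succ]
        push_cast
        field_simp
      rw [h3]
      have h4 : (((mu : ℝ) / SD) ^ k / (k.factorial : ℝ)) * ((mu : ℝ) / SD / (k + 1))
          ≤ (e : ℝ) / SD * ((mu : ℝ) / SD / (k + 1)) := mul_le_mul_of_nonneg_right h1 (by positivity)
      refine h4.trans ?_
      have h5 : (e : ℝ) / SD * ((mu : ℝ) / SD / (k + 1)) = ((e * mu : ℕ) : ℝ) / ((k + 1) * SD : ℕ) / SD := by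
        push_cast
        field_simp
      rw [h5]
      exact div_le_div_of_nonneg_right h2 hS.le
    refine ⟨hes k e he, hes (k + 1) _ he', ?_, ?_⟩
    · show es rho B k * 2 ^ (k + 1) ≤ 2 ^ (if r = 0 then 0 else cl r + k + 1)
      have h1 : es rho B k ≤ (r : ℝ) := by
        rw [es_const hB2 k, hr]
        push_cast
        rw [mul_comm]
        have : B.card.choose k ≤ n.choose k := Nat.choose_le_choose k hn
        have : (B.card.choose k : ℝ) ≤ (n.choose k : ℝ) := by exact_mod_cast this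
        gcongr
      split_ifs with h0
      · rw [h0] at h1
        have h2 : es rho B k ≤ 0 := by simpa using h1
        have h3 : es rho B k * 2 ^ (k + 1) ≤ 0 := mul_nonpos_of_nonpos_of_nonneg h2 (by positivity)
        linarith [pow_zero (2 : ℝ)]
      · have h2 := le_cl r
        have h3 : (r : ℝ) ≤ 2 ^ cl r := by exact_mod_cast h2
        calc es rho B k * 2 ^ (k + 1) ≤ 2 ^ cl r * 2 ^ (k + 1) :=
              mul_le_mul_of_nonneg_right (h1.trans h3) (by positivity)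
          _ = 2 ^ (cl r + k + 1) := by rw [← pow_add]; congr 1
    · apply ih (k + 1) _ _ he'
      rw [hr]
      have h1 := Nat.choose_succ_right_eq n k
      have h2 : 2 ^ k * n.choose k * 2 * (n - k) = (2 ^ (k + 1) * n.choose (k + 1)) * (k + 1) := by
        rw [pow_succ]
        calc 2 ^ k * n.choose k * 2 * (n - k) = 2 ^ k * 2 * (n.choose k * (n - k)) := by ring
          _ = 2 ^ k * 2 * (n.choose (k + 1) * (k + 1)) := by rw [h1]
          _ = _ := by ring
      rw [h2, Nat.mul_div_cancel _ (by omega)]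

/-- The list of a block. -/
def tri (h1 h2 K : ℕ) : List (ℕ × ℕ × ℕ) := triL (2 * massB h1 h2) (cardB h1 h2) K 0 SD 1

theorem Bh_large {h1 h2 p : ℕ} (h2' : 2 ≤ h1) (hp : p ∈ Bh h1 h2) : 2 < p := by
  have h1 : zc 2 ≤ zc h1 := zc_mono h2'
  have h2 : zc 2 = 2 := zc_even 1
  have := (mem_Pr.1 hp).1.1
  omega

theorem tri_sound {h1 h2 K : ℕ} (h2' : 2 ≤ h1) (h12 : h1 ≤ h2) (ho : okh h1 = true) :
    Mtc (Bh h1 h2) (tri h1 h2 K) 0 := by
  have hS := SD_pos
  apply triL_sound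
  · intro p hp
    have := Bh_large h2' hp
    unfold rho
    rw [if_neg (by omega)]
  · have h := massB_le h12 ho
    have e : ∑ p ∈ Bh h1 h2, g p = 2 * ∑ p ∈ Bh h1 h2, (1 : ℝ) / p := by
      rw [mul_sum]
      apply sum_congr rfl
      intro p hp
      have := Bh_large h2' hp
      rw [g_odd (by omega)]; ring
    rw [e]
    push_cast
    rw [mul_div_assoc]
    linarith
  · exact cardB_le h12
  · intro _
    rw [pow_zero, Nat.factorial_zero, div_self hS.ne']
    simp
  · simp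

end Pool.Agent.H91.Gold
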