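import Mathlib
import Pool.Agent.H91.G5Blk

/-!
The weighted sum over the primes above the sieving level, second stage.
-/

namespace Pool.Agent.H91.Gold

open Finset

theorem nf_le_one5 (N : ℤ) (S : Finset ℕ) (a : ℤ) : nf N S a ≤ 1 := by
  unfold nf
  apply prod_le_one
  · intro p _; have := u_le_one N p a; linarith
  · intro p _; have := u_nonneg N p a; linarith

theorem wt_nonneg5 {N : ℤ} {P : Finset ℕ} {w : ℕ → ℝ} (hw : ∀ p ∈ P, 0 ≤ w p) (a : ℤ) :
    0 ≤ wt N P w a := by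
  unfold wt
  apply sum_nonneg
  intro p hp
  have h1 := hw p hp
  have h2 := ind_nonneg p 0 a
  have h3 := ind_nonneg p N a
  have h4 := ind_nonneg (p ^ 2) 0 a
  have h5 := ind_nonneg (p ^ 2) N a
  positivity

open Classical in
/-- Lower bound of the number of good integers. -/
theorem GS_card_ge {N lo : ℤ} {i z : ℕ} {xL EL T : ℝ}
    (hL : Nd N lo (2 ^ (i - 1) - 1) 1 (Pr 1 z) EL xL)
    (hT : ∑ p ∈ Pr z (zc i), bigT N lo (2 ^ (i - 1) - 1) (Pr 1 z) (w2 i) p ≤ T)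
    (hw : ∀ p ∈ Pr z (zc i), 0 ≤ w2 i p) :
    (((2 ^ (i - 1) - 1 : ℕ)) : ℝ) * ((1 - xL) * VV (Pr 1 z)) - EL - T ≤ ((GS N lo i z).card : ℝ) := by
  set X := 2 ^ (i - 1) - 1 with hX
  have h1 : ∑ a ∈ Ioc lo (lo + X), nf N (Pr 1 z) a * (1 - wt N (Pr z (zc i)) (w2 i) a)
      ≤ ((GS N lo i z).card : ℝ) := by
    unfold GS
    rw [← hX, card_filter]
    push_cast
    apply sum_le_sum
    intro a ha
    have e1 := nf_nonneg N (Pr 1 z) a
    have e2 := nf_le_one5 N (Pr 1 z) a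
    have e3 := wt_nonneg5 (N := N) hw a
    split_ifs with h
    · nlinarith
    · by_cases h0 : nf N (Pr 1 z) a = 0
      · rw [h0]; simp
      · have : 1 ≤ wt N (Pr z (zc i)) (w2 i) a := by
          by_contra h'
          exact h ⟨h0, not_le.1 h'⟩
        nlinarith
  have h2 : ∑ a ∈ Ioc lo (lo + X), nf N (Pr 1 z) a * wt N (Pr z (zc i)) (w2 i) a
      = ∑ p ∈ Pr z (zc i), bigT N lo X (Pr 1 z) (w2 i) p := by
    unfold wt bigT
    simp only [mul_sum]
    rw [sum_comm]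
  have h3 := hL.lower
  have h4 : ∑ a ∈ Ioc lo (lo + X), nf N (Pr 1 z) a * (1 - wt N (Pr z (zc i)) (w2 i) a)
      = ∑ a ∈ Ioc lo (lo + X), nf N (Pr 1 z) a
        - ∑ a ∈ Ioc lo (lo + X), nf N (Pr 1 z) a * wt N (Pr z (zc i)) (w2 i) a := by
    rw [← sum_sub_distrib]
    apply sum_congr rfl
    intro a _
    ring
  linarith

theorem bigT_nd {N lo : ℤ} {X : ℕ} {S : Finset ℕ} (hS : ∀ p ∈ S, p.Prime) {p : ℕ} (hpp : p.Prime)
    (hpS : p ∉ S) {w : ℕ → ℝ} {W : ℝ} (hw0 : 0 ≤ w p) (hw : w p ≤ W)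
    {x1 E1 x2 E2 : ℝ} (h1 : Nd N lo X 0 S E1 x1) (h2 : Nd N lo X 0 S E2 x2) :
    bigT N lo X S w p ≤ 2 * W * ((X : ℝ) / p * ((1 + x1) * VV S) + E1)
      + 2 * ((X : ℝ) / (p ^ 2 : ℕ) * ((1 + x2) * VV S) + E2) := by
  have hc1 : ∀ r ∈ S, Nat.Coprime r p := by
    intro r hr
    rw [Nat.coprime_primes (hS r hr) hpp]
    rintro rfl
    exact hpS hr
  have hc2 : ∀ r ∈ S, Nat.Coprime r (p ^ 2) := fun r hr => Nat.Coprime.pow_right 2 (hc1 r hr)
  have a1 := h1.upper hpp.pos hc1 0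
  have a2 := h1.upper hpp.pos hc1 N
  have a3 := h2.upper (pow_pos hpp.pos 2) hc2 0
  have a4 := h2.upper (pow_pos hpp.pos 2) hc2 N
  have b0 : ∀ c, 0 ≤ ∑ a ∈ Ioc lo (lo + X), ind p c a * nf N S a := fun c =>
    sum_nonneg (fun a _ => mul_nonneg (ind_nonneg _ _ _) (nf_nonneg _ _ _))
  have : bigT N lo X S w p
      = w p * (∑ a ∈ Ioc lo (lo + X), ind p 0 a * nf N S a + ∑ a ∈ Ioc lo (lo + X), ind p N a * nf N S a)
        + (∑ a ∈ Ioc lo (lo + X), ind (p ^ 2) 0 a * nf N S a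
          + ∑ a ∈ Ioc lo (lo + X), ind (p ^ 2) N a * nf N S a) := by
    unfold bigT
    rw [← sum_add_distrib, ← sum_add_distrib, mul_sum, ← sum_add_distrib]
    apply sum_congr rfl
    intro a _
    ring
  rw [this]
  have b1 : w p * (∑ a ∈ Ioc lo (lo + X), ind p 0 a * nf N S a + ∑ a ∈ Ioc lo (lo + X), ind p N a * nf N S a)
      ≤ W * (2 * ((X : ℝ) / p * ((1 + x1) * VV S) + E1)) := by
    apply mul_le_mul hw _ (add_nonneg (b0 0) (b0 N)) (hw0.trans hw)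
    linarith
  linarith

/-- The weighted sum over a class of primes. -/
theorem class_nd {N lo : ℤ} {X : ℕ} {S C : Finset ℕ} (hS : ∀ p ∈ S, p.Prime) (hC : ∀ p ∈ C, p.Prime)
    (hd : ∀ p ∈ C, p ∉ S) {w : ℕ → ℝ} {W : ℝ} (hw0 : ∀ p ∈ C, 0 ≤ w p) (hw : ∀ p ∈ C, w p ≤ W)
    (hW : 0 ≤ W) {x1 E1 x2 E2 q n : ℝ} (h1 : Nd N lo X 0 S E1 x1) (h2 : Nd N lo X 0 S E2 x2)
    (hx2 : 0 ≤ 1 + x2) (hE1 : 0 ≤ E1) (hE2 : 0 ≤ E2)
    (hq : ∑ p ∈ C, (1 : ℝ) / (p ^ 2 : ℕ) ≤ q) (hn : (C.card : ℝ) ≤ n) :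
    ∑ p ∈ C, bigT N lo X S w p ≤ (X : ℝ) * VV S * (2 * W * (1 + x1) * ∑ p ∈ C, (1 : ℝ) / p)
      + 2 * W * (n * E1) + (X : ℝ) * VV S * (2 * (1 + x2) * q) + 2 * (n * E2) := by
  have hV := VV_pos hS
  refine (sum_le_sum (fun p hp => bigT_nd hS (hC p hp) (hd p hp) (hw0 p hp) (hw p hp) h1 h2)).trans ?_
  have hsum : ∑ p ∈ C, (2 * W * ((X : ℝ) / p * ((1 + x1) * VV S) + E1)
        + 2 * ((X : ℝ) / (p ^ 2 : ℕ) * ((1 + x2) * VV S) + E2))
      = (X : ℝ) * VV S * (2 * W * (1 + x1) * ∑ p ∈ C, (1 : ℝ) / p) + 2 * W * (C.card * E1)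
        + (X : ℝ) * VV S * (2 * (1 + x2) * ∑ p ∈ C, (1 : ℝ) / (p ^ 2 : ℕ)) + 2 * (C.card * E2) := by
    have c1 : (C.card : ℝ) * E1 = ∑ _p ∈ C, E1 := by rw [sum_const, nsmul_eq_mul]
    have c2 : (C.card : ℝ) * E2 = ∑ _p ∈ C, E2 := by rw [sum_const, nsmul_eq_mul]
    rw [c1, c2]
    simp only [mul_sum]
    rw [← sum_add_distrib, ← sum_add_distrib, ← sum_add_distrib]
    apply sum_congr rfl
    intro p _
    ring
  rw [hsum]
  have e1 : 2 * W * (C.card * E1) ≤ 2 * W * (n * E1) := by gcongr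
  have e2 : 2 * (C.card * E2) ≤ 2 * (n * E2) := by gcongr
  have e3 : (X : ℝ) * VV S * (2 * (1 + x2) * ∑ p ∈ C, (1 : ℝ) / (p ^ 2 : ℕ))
      ≤ (X : ℝ) * VV S * (2 * (1 + x2) * q) := by
    have : 0 ≤ 2 * (1 + x2) := by linarith
    gcongr
  linarith

theorem two_log_le {i p : ℕ} (hp0 : 0 < p) (hp : p ≤ zc i) : 2 * (Real.log p / Real.log 2) ≤ i := by
  have h2 : 0 < Real.log 2 := Real.log_pos (by norm_num)
  have h1 : p * p ≤ 2 ^ i := (Nat.mul_le_mul hp hp).trans (zc_sq_le i)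
  have hpr : (0 : ℝ) < p := by exact_mod_cast hp0
  have h3 : Real.log ((p : ℝ) * p) ≤ Real.log ((2 : ℝ) ^ i) := by
    apply Real.log_le_log (by positivity)
    exact_mod_cast h1
  rw [Real.log_mul hpr.ne' hpr.ne', Real.log_pow] at h3
  rw [← mul_div_assoc, div_le_iff₀ h2]
  linarith

theorem le_two_log {e p : ℕ} (hp : zc e < p) : (e : ℝ) ≤ 2 * (Real.log p / Real.log 2) := by
  have h2 : 0 < Real.log 2 := Real.log_pos (by norm_num)
  have h1 : 2 ^ e < p * p := lt_of_lt_of_le (lt_zc_sq e) (Nat.mul_le_mul hp hp)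
  have hpr : (0 : ℝ) < p := by exact_mod_cast (by omega : 0 < p)
  have h3 : Real.log ((2 : ℝ) ^ e) ≤ Real.log ((p : ℝ) * p) := by
    apply Real.log_le_log (by positivity)
    exact_mod_cast h1.le
  rw [Real.log_mul hpr.ne' hpr.ne', Real.log_pow] at h3
  rw [← mul_div_assoc, le_div_iff₀ h2]
  linarith

theorem w2_nonneg {i p z : ℕ} (hi : 2 ≤ i) (hp : p ∈ Pr z (zc i)) : 0 ≤ w2 i p := by
  unfold w2
  have h := two_log_le (prime_of_Pr hp).pos (mem_Pr.1 hp).1.2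
  have hi' : (2 : ℝ) ≤ i := by exact_mod_cast hi
  apply div_nonneg (by linarith) (by linarith)

theorem w2_le {i e p : ℕ} (hi : 2 ≤ i) (hei : e ≤ i) (hp : zc e < p) :
    w2 i p ≤ ((i - e : ℕ) : ℝ) / (2 * (i - 1 : ℕ)) := by
  unfold w2
  have h := le_two_log hp
  have hi' : (2 : ℝ) ≤ i := by exact_mod_cast hi
  rw [Nat.cast_sub hei, Nat.cast_sub (by omega : 1 ≤ i), Nat.cast_one]
  apply div_le_div_of_nonneg_right _ (by linarith)
  linarith

/-- The weighted sum over a class of primes, scaled integers. -/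
theorem cls_sound {N lo : ℤ} {X h0 i v0 e e2 b1 b2 F1 F2 q n : ℕ} (hX : 0 < X) (hi : 2 ≤ i)
    (he : h0 ≤ e) (hei : e ≤ i) (he2 : e2 ≤ i)
    (hv : (1 : ℝ) ≤ (v0 : ℝ) / SD * VV (Sh h0)) {y1 y2 : ℕ}
    (h1 : Nd N lo X 0 (Sh h0) ((2 : ℝ) ^ b1) ((y1 : ℝ) / SD))
    (h2 : Nd N lo X 0 (Sh h0) ((2 : ℝ) ^ b2) ((y2 : ℝ) / SD))
    (hF1 : F1 = SD + y1) (hF2 : F2 = SD + y2)
    (hq : ∑ p ∈ Bh e e2, (1 : ℝ) / (p ^ 2 : ℕ) ≤ (q : ℝ) / SD)
    (hn : (Bh e e2).card ≤ n) :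
    ∑ p ∈ Bh e e2, bigT N lo X (Sh h0) (w2 i) p
      ≤ ((X : ℝ) * VV (Sh h0) / SD) * (((F1 * (i - e) / (i - 1) + 1 : ℕ) : ℝ)
          * (∑ p ∈ Bh e e2, (1 : ℝ) / p)
        + ((n * 2 ^ b1 * v0 * (i - e) / ((i - 1) * X) + 1 : ℕ) : ℝ)
        + ((2 * (F2 * q / SD + 1 + (n * 2 ^ b2 * v0 / X + 1)) : ℕ) : ℝ)) := by
  have hS := SD_pos
  have hSn : 0 < SD := by unfold SD; norm_num
  set V := VV (Sh h0) with hV
  have hVpos : 0 < V := VV_pos Pr_prime
  have hXr : (0 : ℝ) < X := by exact_mod_cast hX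
  have hi1 : 0 < i - 1 := by omega
  have hMr : (0 : ℝ) < ((i - 1 : ℕ) : ℝ) := by exact_mod_cast hi1
  set C := Bh e e2 with hC
  have hmem : ∀ p ∈ C, (zc e < p ∧ p ≤ zc e2) ∧ p.Prime := fun p hp => mem_Pr.1 hp
  have hcl := class_nd (N := N) (lo := lo) (X := X) (S := Sh h0) (C := C) (w := w2 i)
    (W := ((i - e : ℕ) : ℝ) / (2 * (i - 1 : ℕ))) (q := (q : ℝ) / SD) (n := n)
    Pr_prime Pr_prime (by
      intro p hp hmem'
      have a1 := (hmem p hp).1.1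
      have a2 := (mem_Pr.1 hmem').1.2
      have a3 := zc_mono he
      omega) (by
      intro p hp
      apply w2_nonneg (z := zc e) hi
      have a1 := hmem p hp
      have a3 := zc_mono he2
      exact mem_Pr.2 ⟨⟨a1.1.1, a1.1.2.trans a3⟩, a1.2⟩) (fun p hp => w2_le hi hei (hmem p hp).1.1)
    (by positivity) h1 h2 (by positivity) (by positivity) (by positivity) hq (by exact_mod_cast hn)
  refine hcl.trans ?_
  have hs0 : 0 ≤ ∑ p ∈ C, (1 : ℝ) / p := sum_nonneg (fun p _ => by positivity)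
  have hK : 0 < (X : ℝ) * V / SD := by positivity
  have f1 : 1 + (y1 : ℝ) / SD = (F1 : ℝ) / SD := by
    rw [hF1]; push_cast; field_simp
  have f2 : 1 + (y2 : ℝ) / SD = (F2 : ℝ) / SD := by
    rw [hF2]; push_cast; field_simp
  rw [f1, f2]
  have p1 : (X : ℝ) * V * (2 * (((i - e : ℕ) : ℝ) / (2 * (i - 1 : ℕ))) * ((F1 : ℝ) / SD) * ∑ p ∈ C, (1 : ℝ) / p)
      ≤ (X : ℝ) * V / SD * (((F1 * (i - e) / (i - 1) + 1 : ℕ) : ℝ) * (∑ p ∈ C, (1 : ℝ) / p)) := by
    have e1 := div_up (F1 * (i - e)) (i - 1) hi1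
    have e3 : (X : ℝ) * V * (2 * (((i - e : ℕ) : ℝ) / (2 * (i - 1 : ℕ))) * ((F1 : ℝ) / SD) * ∑ p ∈ C, (1 : ℝ) / p)
        = (X : ℝ) * V / SD * ((((F1 * (i - e) : ℕ) : ℝ) / (i - 1 : ℕ)) * (∑ p ∈ C, (1 : ℝ) / p)) := by
      rw [Nat.cast_mul]
      field_simp
    rw [e3]
    apply mul_le_mul_of_nonneg_left _ hK.le
    exact mul_le_mul_of_nonneg_right e1 hs0
  have key : ∀ (a : ℕ), (a : ℝ) ≤ (X : ℝ) * V / SD * (((a * v0 : ℕ) : ℝ) / X) := by
    intro a
    have : (X : ℝ) * V / SD * (((a * v0 : ℕ) : ℝ) / X) = a * ((v0 : ℝ) / SD * V) := by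
      push_cast; field_simp
    rw [this]
    exact le_mul_of_one_le_right (Nat.cast_nonneg a) hv
  have p2 : 2 * (((i - e : ℕ) : ℝ) / (2 * (i - 1 : ℕ))) * ((n : ℝ) * (2 : ℝ) ^ b1)
      ≤ (X : ℝ) * V / SD * ((n * 2 ^ b1 * v0 * (i - e) / ((i - 1) * X) + 1 : ℕ) : ℝ) := by
    have e1 := div_up (n * 2 ^ b1 * v0 * (i - e)) ((i - 1) * X) (Nat.mul_pos hi1 hX)
    have e2 := key (n * 2 ^ b1)
    calc 2 * (((i - e : ℕ) : ℝ) / (2 * (i - 1 : ℕ))) * ((n : ℝ) * (2 : ℝ) ^ b1)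
        = ((i - e : ℕ) : ℝ) / (i - 1 : ℕ) * ((n * 2 ^ b1 : ℕ) : ℝ) := by push_cast; field_simp
      _ ≤ ((i - e : ℕ) : ℝ) / (i - 1 : ℕ) * ((X : ℝ) * V / SD * (((n * 2 ^ b1 * v0 : ℕ) : ℝ) / X)) :=
          mul_le_mul_of_nonneg_left e2 (by positivity)
      _ = (X : ℝ) * V / SD * (((n * 2 ^ b1 * v0 * (i - e) : ℕ) : ℝ) / ((i - 1) * X : ℕ)) := by
          rw [Nat.cast_mul (n * 2 ^ b1 * v0), Nat.cast_mul (i - 1)]
          field_simp
      _ ≤ _ := mul_le_mul_of_nonneg_left e1 hK.le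
  have p3 : (X : ℝ) * V * (2 * ((F2 : ℝ) / SD) * ((q : ℝ) / SD))
      ≤ (X : ℝ) * V / SD * (2 * ((F2 * q / SD + 1 : ℕ) : ℝ)) := by
    have e1 := div_up (F2 * q) SD hSn
    calc (X : ℝ) * V * (2 * ((F2 : ℝ) / SD) * ((q : ℝ) / SD))
        = (X : ℝ) * V / SD * (2 * (((F2 * q : ℕ) : ℝ) / SD)) := by push_cast; field_simp
      _ ≤ _ := by
          apply mul_le_mul_of_nonneg_left _ hK.le
          linarith
  have p4 : 2 * ((n : ℝ) * (2 : ℝ) ^ b2)
      ≤ (X : ℝ) * V / SD * (2 * ((n * 2 ^ b2 * v0 / X + 1 : ℕ) : ℝ)) := by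
    have e1 := div_up (n * 2 ^ b2 * v0) X hX
    have e2 := key (n * 2 ^ b2)
    calc 2 * ((n : ℝ) * (2 : ℝ) ^ b2) = 2 * ((n * 2 ^ b2 : ℕ) : ℝ) := by push_cast; ring
      _ ≤ 2 * ((X : ℝ) * V / SD * (((n * 2 ^ b2 * v0 : ℕ) : ℝ) / X)) := by linarith
      _ ≤ 2 * ((X : ℝ) * V / SD * ((n * 2 ^ b2 * v0 / X + 1 : ℕ) : ℝ)) := by
          have := mul_le_mul_of_nonneg_left e1 hK.le
          linarith
      _ = _ := by ring
  have e5 : ((2 * (F2 * q / SD + 1 + (n * 2 ^ b2 * v0 / X + 1)) : ℕ) : ℝ)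
      = 2 * ((F2 * q / SD + 1 : ℕ) : ℝ) + 2 * ((n * 2 ^ b2 * v0 / X + 1 : ℕ) : ℝ) := by
    push_cast; ring
  rw [e5, mul_add, mul_add, mul_add]
  linarith

/-- End of the class starting at `e`. -/
def nxt (i e : ℕ) : ℕ := min i (if e < 32 then e + 1 else e + 2 * max 1 (e / 24))

/-- Scaled upper bound of `log ((e + d) / e)`. -/
def lgq (e d : ℕ) : ℕ := SD * (d * (2 * e + d)) / (2 * e * (e + d)) + 1

theorem lgq_le {e d : ℕ} (he : 1 ≤ e) : Real.log (((e + d : ℕ) : ℝ) / e) ≤ (lgq e d : ℝ) / SD := by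
  have hS := SD_pos
  have he0 : (0 : ℝ) < e := by exact_mod_cast he
  have hx : 1 ≤ ((e + d : ℕ) : ℝ) / e := by
    rw [one_le_div he0]; push_cast; linarith [Nat.cast_nonneg (α := ℝ) d]
  have h2 := Real.self_le_sinh_iff.2 (Real.log_nonneg hx)
  rw [Real.sinh_log (by positivity)] at h2
  refine h2.trans ?_
  unfold lgq
  have h4 := div_up (SD * (d * (2 * e + d))) (2 * e * (e + d)) (by positivity)
  rw [le_div_iff₀ hS]
  refine le_trans (le_of_eq ?_) h4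
  have h5 : (0 : ℝ) < (e : ℝ) + d := by positivity
  push_cast
  field_simp
  ring

/-- Increment of the mass. -/
def inc5 (e e2 : ℕ) : ℕ :=
  if e < 32 then 10000 * sH e + (if e2 = 32 then cH 32 else 0) else lgq e (e2 - e)

/-- The number `S` bounds the mass up to the level `e`. -/
def MI (h0 e S : ℕ) : Prop :=
  (e < 32 → ∑ p ∈ Bh h0 e, (1 : ℝ) / p ≤ (S : ℝ) / SD) ∧
  (32 ≤ e → ∑ p ∈ Bh h0 (max h0 32), (1 : ℝ) / p + (cH (max h0 32) : ℝ) / SD
    + Real.log ((e : ℝ) / (max h0 32 : ℕ)) ≤ (S : ℝ) / SD)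

theorem okh_even {h : ℕ} (ho : okh h = true) (hh : 32 ≤ h) : Even h := by
  unfold okh at ho
  simp only [Bool.or_eq_true, decide_eq_true_eq, beq_iff_eq] at ho
  rcases ho with ho | ho
  · have : h = 32 := by omega
    subst this; decide
  · exact Nat.even_iff.2 ho

theorem Bh_self (h : ℕ) : Bh h h = ∅ := Pr_self _

theorem sum_Bh_split (f : ℕ → ℝ) {a b c : ℕ} (h1 : a ≤ b) (h2 : b ≤ c) :
    ∑ p ∈ Bh a c, f p = ∑ p ∈ Bh a b, f p + ∑ p ∈ Bh b c, f p :=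
  sum_Pr_split f (zc_mono h1) (zc_mono h2)

theorem MI.mass {h0 e S : ℕ} (h : MI h0 e S) (hh : h0 ≤ e) (ho : okh h0 = true) :
    ∑ p ∈ Bh h0 e, (1 : ℝ) / p ≤ (S : ℝ) / SD := by
  rcases Nat.lt_or_ge e 32 with he | he
  · exact h.1 he
  · refine le_trans ?_ (h.2 he)
    have hm : max h0 32 ≤ e := max_le hh he
    rw [sum_Bh_split _ (le_max_left h0 32) hm]
    have hev : Even (max h0 32) := by
      rcases le_or_gt h0 32 with h1 | h1
      · rw [max_eq_right h1]; decide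
      · rw [max_eq_left h1.le]; exact okh_even ho h1.le
    have := mass_large hev (le_max_right _ _) hm
    linarith

theorem MI.start (h0 : ℕ) : MI h0 h0 (if h0 < 32 then 0 else cH h0) := by
  constructor
  · intro h
    rw [Bh_self]
    simp [h]
  · intro h
    rw [max_eq_left h, Bh_self]
    have h0' : (0 : ℝ) < h0 := by exact_mod_cast (by omega : 0 < h0)
    rw [if_neg (by omega), div_self h0'.ne', Real.log_one]
    simp

theorem nxt_le (i e : ℕ) : nxt i e ≤ i := min_le_left _ _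

theorem lt_nxt {i e : ℕ} (h : e < i) : e < nxt i e := by
  unfold nxt
  split_ifs <;> omega

theorem MI.next {h0 e S i : ℕ} (h : MI h0 e S) (hh : h0 ≤ e) (hei : e < i) :
    MI h0 (nxt i e) (S + inc5 e (nxt i e)) := by
  have hS := SD_pos
  rcases Nat.lt_or_ge e 32 with he | he
  · have hn : nxt i e = e + 1 := by
      unfold nxt; rw [if_pos he]; omega
    rw [hn]
    have h1 := h.1 he
    have h2 := half_s (h := e) he
    have h3 : ∑ p ∈ Bh h0 (e + 1), (1 : ℝ) / p ≤ ((S + 10000 * sH e : ℕ) : ℝ) / SD := by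
      rw [sum_Bh_split _ hh (by omega : e ≤ e + 1)]
      unfold Bh at h1 ⊢
      have e1 : ((S + 10000 * sH e : ℕ) : ℝ) / SD = (S : ℝ) / SD + (sH e : ℝ) / SC := by
        rw [SD_SC]
        have := SC_pos
        push_cast
        field_simp
      rw [e1]
      linarith
    unfold inc5
    rw [if_pos he]
    constructor
    · intro h4
      rw [if_neg (by omega), add_zero]
      exact h3
    · intro h4
      have h5 : e + 1 = 32 := by omega
      rw [if_pos h5]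
      have h6 : max h0 32 = 32 := max_eq_right (by omega)
      rw [h6]
      rw [h5] at h3 ⊢
      have e1 : ((S + (10000 * sH e + cH 32) : ℕ) : ℝ) / SD
          = ((S + 10000 * sH e : ℕ) : ℝ) / SD + (cH 32 : ℝ) / SD := by
        push_cast; ring
      rw [e1, div_self (by norm_num), Real.log_one]
      linarith
  · have h1 := h.2 he
    have hlt := lt_nxt hei
    unfold inc5
    rw [if_neg (by omega)]
    refine ⟨fun h4 => by omega, fun _ => ?_⟩
    have h2 := lgq_le (e := e) (d := nxt i e - e) (by omega)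
    rw [show e + (nxt i e - e) = nxt i e by omega] at h2
    have he0 : (0 : ℝ) < e := by exact_mod_cast (by omega : 0 < e)
    have hn0 : (0 : ℝ) < (nxt i e : ℕ) := by exact_mod_cast (by omega : 0 < nxt i e)
    have hm0 : (0 : ℝ) < (max h0 32 : ℕ) := by
      have : 0 < max h0 32 := by omega
      exact_mod_cast this
    rw [Real.log_div hn0.ne' he0.ne'] at h2
    rw [Real.log_div he0.ne' hm0.ne'] at h1
    rw [Real.log_div hn0.ne' hm0.ne', Nat.cast_add, add_div]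
    linarith

/-- Bound for the sum of `1/p^2` over a class. -/
def qB (e : ℕ) : ℕ := if e < 32 then 10000 * qH e else SD / 2 ^ (e / 2 + 1) + 1

theorem qB_le {e i : ℕ} (hei : e < i) (hev : 32 ≤ e → Even e) :
    ∑ p ∈ Bh e (nxt i e), (1 : ℝ) / (p ^ 2 : ℕ) ≤ (qB e : ℝ) / SD := by
  have hS := SD_pos
  have hSC := SC_pos
  unfold qB
  split_ifs with he
  · have hn : nxt i e = e + 1 := by
      unfold nxt; rw [if_pos he]; omega
    rw [hn]
    have h2 := half_q (h := e) he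
    unfold Bh
    refine h2.trans (le_of_eq ?_)
    rw [SD_SC]
    push_cast
    field_simp
  · obtain ⟨j, hj⟩ := hev (by omega)
    have hj2 : e = 2 * j := by omega
    have hz : zc e = 2 ^ j := by rw [hj2]; exact zc_even j
    have hdiv : e / 2 = j := by omega
    have h1 : Bh e (nxt i e) ⊆ Pr (2 ^ j) (2 ^ (nxt i e)) := by
      intro p hp
      unfold Bh at hp
      rw [hz] at hp
      rw [mem_Pr] at hp ⊢
      refine ⟨⟨hp.1.1, hp.1.2.trans ?_⟩, hp.2⟩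
      rw [← zc_even]
      exact zc_mono (by omega)
    have hlt := lt_nxt hei
    have h2 : ∑ p ∈ Bh e (nxt i e), (1 : ℝ) / (p ^ 2 : ℕ)
        ≤ ∑ p ∈ Pr (2 ^ j) (2 ^ (nxt i e)), (1 : ℝ) / (p ^ 2 : ℕ) :=
      sum_le_sum_of_subset_of_nonneg h1 (fun _ _ _ => by positivity)
    refine h2.trans ?_
    have h3 : 2 ^ j ≤ 2 ^ (nxt i e) := two_pow_le_two_pow (by omega)
    have hev1 : Even (2 ^ j) := (Nat.even_pow.2 ⟨even_two, by omega⟩)
    have hev2 : Even (2 ^ (nxt i e)) := (Nat.even_pow.2 ⟨even_two, by omega⟩)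
    obtain ⟨d, hd⟩ : ∃ d, 2 ^ (nxt i e) = 2 ^ j + 2 * d := by
      obtain ⟨a, ha⟩ := hev1
      obtain ⟨b, hb⟩ := hev2
      exact ⟨b - a, by omega⟩
    have h4 : 2 ≤ 2 ^ j := by
      have : 2 ^ 1 ≤ 2 ^ j := two_pow_le_two_pow (by omega)
      simpa using this
    have h5 := sq_tail_aux h4 hev1 d
    rw [← hd] at h5
    refine h5.trans ?_
    rw [hdiv]
    have h6 := div_up SD (2 ^ (j + 1)) (by positivity)
    rw [le_div_iff₀ hS]
    refine le_trans ?_ h6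
    have h7 : (0 : ℝ) ≤ 1 / ((2 ^ (nxt i e) : ℕ) : ℝ) := by positivity
    have h8 : 1 / 2 * (1 / ((2 ^ j : ℕ) : ℝ) - 1 / ((2 ^ (nxt i e) : ℕ) : ℝ))
        ≤ 1 / 2 * (1 / ((2 ^ j : ℕ) : ℝ)) := by linarith
    calc 1 / 2 * (1 / ((2 ^ j : ℕ) : ℝ) - 1 / ((2 ^ (nxt i e) : ℕ) : ℝ)) * SD
        ≤ 1 / 2 * (1 / ((2 ^ j : ℕ) : ℝ)) * SD := mul_le_mul_of_nonneg_right h8 hS.le
      _ = (SD : ℝ) / (2 ^ (j + 1) : ℕ) := by push_cast; rw [pow_succ]; field_simp

/-- Recursion over the classes. -/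
def goC (i X v0 t TH bm : ℕ) : ℕ → ℕ → ℕ → ℕ × ℕ
  | 0, e, _ => if i ≤ e then (0, 0) else (0, BIG)
  | f + 1, e, S =>
    if i ≤ e then (0, 0) else
      let e2 := nxt i e
      let S2 := S + inc5 e e2
      let r := goC i X v0 t TH bm f e2 S2
      let n := cardB e e2
      let b0 := i - 1 - (t + Nat.log2 n)
      let b := min b0 bm
      let b2 := min (b0 - (if e < 32 then 4 else 8)) bm
      let W := max ((SD + look TH b) * (i - e) / (i - 1) + 1) r.1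
      (W, r.2 + ((W - r.1) * S2 / SD + 1) + (n * 2 ^ b * v0 * (i - e) / ((i - 1) * X) + 1)
        + 2 * ((SD + look TH b2) * qB e / SD + 1 + (n * 2 ^ b2 * v0 / X + 1)))

theorem goC_sound {N lo : ℤ} {X h0 i v0 t TG TH bm : ℕ} (hX : 0 < X) (hi : 2 ≤ i)
    (hT : LOK h0 bm TG TH) (ho : okh h0 = true)
    (hv : (1 : ℝ) ≤ (v0 : ℝ) / SD * VV (Sh h0)) (f : ℕ) :
    ∀ (e S : ℕ), h0 ≤ e → e ≤ i → (32 ≤ e → Even e ∨ e = i) → MI h0 e S →
      (goC i X v0 t TH bm f e S).2 < BIG →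
      ∑ p ∈ Bh e i, bigT N lo X (Sh h0) (w2 i) p
        + ((X : ℝ) * VV (Sh h0) / SD) * (((goC i X v0 t TH bm f e S).1 : ℝ) * ∑ p ∈ Bh h0 e, (1 : ℝ) / p)
      ≤ ((X : ℝ) * VV (Sh h0) / SD) * ((goC i X v0 t TH bm f e S).2 : ℝ) := by
  have hS := SD_pos
  have hVpos : 0 < VV (Sh h0) := VV_pos Pr_prime
  have hXr : (0 : ℝ) < X := by exact_mod_cast hX
  have hK : 0 < (X : ℝ) * VV (Sh h0) / SD := by positivity
  have hend : ∀ e, e ≤ i → i ≤ e → Bh e i = ∅ := by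
    intro e h1 h2
    have : e = i := by omega
    rw [this]; exact Bh_self i
  induction f with
  | zero =>
    intro e S h1 h2 _ _ h3
    unfold goC at h3 ⊢
    split_ifs at h3 ⊢ with h5
    · rw [hend e h2 h5]; simp
    · exact absurd h3 (lt_irrefl _)
  | succ f ih =>
    intro e S h1 h2 hev hMI h3
    unfold goC at h3 ⊢
    by_cases h5 : i ≤ e
    · rw [if_pos h5, hend e h2 h5]; simp
    · rw [if_neg h5] at h3 ⊢
      have hei : e < i := by omega
      have hlt := lt_nxt hei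
      have hle := nxt_le i e
      have hev' : 32 ≤ e → Even e := fun h => (hev h).resolve_right (by omega)
      simp only at h3 ⊢
      set e2 := nxt i e with he2
      set S2 := S + inc5 e e2 with hS2
      set r := goC i X v0 t TH bm f e2 S2 with hr
      set n := cardB e e2 with hn
      set b0 := i - 1 - (t + Nat.log2 n) with hb0
      set b := min b0 bm with hb
      set b2 := min (b0 - (if e < 32 then 4 else 8)) bm with hb2
      set A := (SD + look TH b) * (i - e) / (i - 1) + 1 with hA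
      have hbb : b ≤ bm := min_le_right _ _
      have hbb2 : b2 ≤ bm := min_le_right _ _
      have hMI2 : MI h0 e2 S2 := hMI.next h1 hei
      have hev2 : 32 ≤ e2 → Even e2 ∨ e2 = i := by
        intro h
        rcases Nat.lt_or_ge e 32 with h6 | h6
        · have hn' : e2 = e + 1 := by
            rw [he2]; unfold nxt; rw [if_pos h6]; omega
          left
          have : e2 = 32 := by omega
          rw [this]; decide
        · have h7 := hev' h6
          rw [he2]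
          unfold nxt
          rw [if_neg (by omega)]
          rcases min_choice i (e + 2 * max 1 (e / 24)) with h8 | h8
          · right; exact h8
          · left; rw [h8]; exact h7.add (even_two_mul _)
      have hr2 : r.2 < BIG :=
        lt_of_le_of_lt (by rw [add_assoc, add_assoc]; exact Nat.le_add_right _ _) h3
      have ih' := ih e2 S2 (by omega) hle hev2 hMI2 hr2
      rw [← hr] at ih'
      obtain ⟨_, n1⟩ := hT b hbb N lo X
      obtain ⟨_, n2⟩ := hT b2 hbb2 N lo X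
      have hcl := cls_sound (N := N) (lo := lo) (e := e) (e2 := e2) (i := i) hX hi h1 h2 hle hv n1 n2 rfl rfl
        (qB_le hei hev') (cardB_le hlt.le)
      rw [← hA, ← hn] at hcl
      have hmass := hMI2.mass (by omega) ho
      rw [sum_Bh_split _ h1 hlt.le] at ih' hmass
      rw [sum_Bh_split _ hlt.le hle]
      set s1 := ∑ p ∈ Bh h0 e, (1 : ℝ) / p with hs1
      set s2 := ∑ p ∈ Bh e e2, (1 : ℝ) / p with hs2
      have hs10 : 0 ≤ s1 := sum_nonneg (fun p _ => by positivity)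
      have hs20 : 0 ≤ s2 := sum_nonneg (fun p _ => by positivity)
      set Wm := max A r.1 with hWm
      have hWA : (A : ℝ) ≤ Wm := by exact_mod_cast le_max_left A r.1
      have hWr : (r.1 : ℝ) ≤ Wm := by exact_mod_cast le_max_right A r.1
      have hsub : ((Wm - r.1 : ℕ) : ℝ) = (Wm : ℝ) - r.1 := by
        rw [Nat.cast_sub (le_max_right A r.1)]
      have hu := div_up ((Wm - r.1) * S2) SD (by unfold SD; norm_num)
      have h6 : ((Wm : ℝ) - r.1) * (s1 + s2) ≤ (((Wm - r.1) * S2 / SD + 1 : ℕ) : ℝ) := by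
        refine le_trans ?_ hu
        rw [Nat.cast_mul, hsub, mul_div_assoc]
        exact mul_le_mul_of_nonneg_left hmass (by linarith)
      have h7 : (A : ℝ) * s2 + (Wm : ℝ) * s1 ≤ (r.1 : ℝ) * (s1 + s2) + (((Wm - r.1) * S2 / SD + 1 : ℕ) : ℝ) := by
        have : (A : ℝ) * s2 ≤ Wm * s2 := mul_le_mul_of_nonneg_right hWA hs20
        linarith
      have h8 := mul_le_mul_of_nonneg_left h7 hK.le
      rw [Nat.cast_add, Nat.cast_add, Nat.cast_add, mul_add, mul_add, mul_add]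
      rw [mul_add, mul_add] at hcl
      rw [mul_add, mul_add] at h8
      linarith

/-- The computable criterion for the index `i`. -/
def chk2 (i h0 t tL v0 TG TH bm : ℕ) : Bool :=
  2 ≤ h0 && h0 ≤ i && 2 * i + 2 ≤ 11 * h0 && 17 ≤ i && okh h0 &&
  (let X := 2 ^ (i - 1) - 1
   50 * v0 * 2 ^ i ≤ SD * (4 * i ^ 2) * X &&
   look TG (min (i - 1 - tL) bm) + (2 ^ (min (i - 1 - tL) bm) * v0 / X + 1)
      + (goC i X v0 t TH bm i h0 (if h0 < 32 then 0 else cH h0)).2 + SD / 50 ≤ SD)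

theorem chk2_sound {i h0 t tL v0 TG TH bm : ℕ} (hT : LOK h0 bm TG TH)
    (hv : (1 : ℝ) ≤ (v0 : ℝ) / SD * VV (Sh h0)) (h : chk2 i h0 t tL v0 TG TH bm = true) : KP2 i := by
  unfold chk2 at h
  simp only [Bool.and_eq_true, decide_eq_true_eq] at h
  obtain ⟨⟨⟨⟨⟨hh2, hhi⟩, h11⟩, hi17⟩, ho⟩, hc, hs⟩ := h
  set X := 2 ^ (i - 1) - 1 with hXdef
  have hX : 0 < X := by
    have : 2 ^ 1 ≤ 2 ^ (i - 1) := two_pow_le_two_pow (by omega)
    omega
  have hS := SD_pos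
  have hVpos : 0 < VV (Sh h0) := VV_pos Pr_prime
  have hXr : (0 : ℝ) < X := by exact_mod_cast hX
  have hK : 0 < (X : ℝ) * VV (Sh h0) / SD := by positivity
  refine ⟨zc h0, zc_mono hhi, ?_, fun N lo => ?_⟩
  · have h1 := lt_zc_sq h0
    have h2 : 2 ^ (i + 1) * 2 ^ (i + 1) ≤ (zc h0 + 1) ^ 11 * (zc h0 + 1) ^ 11 := by
      calc 2 ^ (i + 1) * 2 ^ (i + 1) = 2 ^ (2 * i + 2) := by rw [← pow_add]; congr 1; ring
        _ ≤ 2 ^ (h0 * 11) := two_pow_le_two_pow (by omega)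
        _ = (2 ^ h0) ^ 11 := by rw [pow_mul]
        _ ≤ ((zc h0 + 1) * (zc h0 + 1)) ^ 11 := Nat.pow_le_pow_left h1.le 11
        _ = _ := by rw [mul_pow]
    exact Nat.mul_self_le_mul_self_iff.1 h2
  · set bL := min (i - 1 - tL) bm with hbL
    set tot := (goC i X v0 t TH bm i h0 (if h0 < 32 then 0 else cH h0)).2 with htot
    have hbig : tot < BIG := by
      have h1 : SD < BIG := by unfold SD BIG; norm_num
      have h2 : tot ≤ SD := by
        refine le_trans ?_ hs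
        refine le_trans ?_ (Nat.le_add_right _ _)
        exact Nat.le_add_left _ _
      omega
    obtain ⟨n1, _⟩ := hT bL (min_le_right _ _) N lo X
    have hsum := goC_sound (N := N) (lo := lo) hX (by omega) hT ho hv i h0 (if h0 < 32 then 0 else cH h0)
      (t := t) le_rfl hhi (fun h => Or.inl (okh_even ho h)) (MI.start h0) hbig
    rw [Bh_self, sum_empty, mul_zero, mul_zero, add_zero, ← htot] at hsum
    have hcard := GS_card_ge (N := N) (lo := lo) (i := i) (z := zc h0) n1 hsum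
      (fun p hp => w2_nonneg (by omega) hp)
    refine le_trans ?_ hcard
    rw [← hXdef]
    change _ ≤ (X : ℝ) * ((1 - (look TG bL : ℝ) / SD) * VV (Sh h0)) - (2 : ℝ) ^ bL - _
    have hel : ((2 : ℝ) ^ bL) ≤ ((X : ℝ) * VV (Sh h0) / SD) * ((2 ^ bL * v0 / X + 1 : ℕ) : ℝ) := by
      have e1 := div_up (2 ^ bL * v0) X hX
      calc ((2 : ℝ) ^ bL) ≤ ((2 : ℝ) ^ bL) * ((v0 : ℝ) / SD * VV (Sh h0)) :=
            le_mul_of_one_le_right (by positivity) hv
        _ = ((X : ℝ) * VV (Sh h0) / SD) * (((2 ^ bL * v0 : ℕ) : ℝ) / X) := by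
            push_cast; field_simp
        _ ≤ _ := mul_le_mul_of_nonneg_left e1 hK.le
    have e5 : (X : ℝ) * ((1 - (look TG bL : ℝ) / SD) * VV (Sh h0))
        = ((X : ℝ) * VV (Sh h0) / SD) * (SD - look TG bL) := by
      field_simp
    have hs' : ((look TG bL : ℝ) + ((2 ^ bL * v0 / X + 1 : ℕ) : ℝ) + tot + (SD : ℝ) / 50) ≤ SD := by
      have e1 : ((look TG bL + (2 ^ bL * v0 / X + 1) + tot + SD / 50 : ℕ) : ℝ) ≤ (SD : ℝ) := by
        exact_mod_cast hs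
      have e2 : ((SD / 50 : ℕ) : ℝ) = (SD : ℝ) / 50 := by unfold SD; norm_num
      rw [Nat.cast_add, Nat.cast_add, Nat.cast_add, e2] at e1
      exact e1
    have h9 : ((X : ℝ) * VV (Sh h0) / SD) * ((SD : ℝ) / 50)
        ≤ (X : ℝ) * ((1 - (look TG bL : ℝ) / SD) * VV (Sh h0)) - (2 : ℝ) ^ bL
          - ((X : ℝ) * VV (Sh h0) / SD) * (tot : ℝ) := by
      rw [e5]
      have := mul_le_mul_of_nonneg_left hs' hK.le
      rw [mul_add, mul_add, mul_add] at this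
      rw [mul_sub]
      linarith
    refine le_trans ?_ h9
    have hc' : 50 * (v0 : ℝ) * 2 ^ i ≤ SD * (4 * (i : ℝ) ^ 2) * X := by exact_mod_cast hc
    have hi0 : (0 : ℝ) < i := by exact_mod_cast (by omega : 0 < i)
    have e6 : ((X : ℝ) * VV (Sh h0) / SD) * ((SD : ℝ) / 50) = (X : ℝ) * VV (Sh h0) / 50 := by
      field_simp
    rw [e6, div_le_div_iff₀ (by positivity) (by norm_num)]
    have e7 : (SD : ℝ) ≤ v0 * VV (Sh h0) := by
      have : (v0 : ℝ) / SD * VV (Sh h0) = v0 * VV (Sh h0) / SD := by ring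
      rw [this, le_div_iff₀ hS, one_mul] at hv
      exact hv
    -- 2^i * 50 ≤ X * V * (4 i²)
    have e8 : 2 ^ i * 50 * (v0 : ℝ) ≤ (X : ℝ) * VV (Sh h0) * (4 * (i : ℝ) ^ 2) * v0 := by
      calc 2 ^ i * 50 * (v0 : ℝ) = 50 * (v0 : ℝ) * 2 ^ i := by ring
        _ ≤ SD * (4 * (i : ℝ) ^ 2) * X := hc'
        _ ≤ (v0 * VV (Sh h0)) * (4 * (i : ℝ) ^ 2) * X := by gcongr
        _ = _ := by ring
    have hv00 : (0 : ℝ) < v0 := by
      by_contra hcon
      have : (v0 : ℝ) ≤ 0 := not_lt.1 hcon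
      have : (v0 : ℝ) * VV (Sh h0) ≤ 0 := mul_nonpos_of_nonpos_of_nonneg this hVpos.le
      linarith
    exact le_of_mul_le_mul_right e8 hv00

/-- The criterion for the indices `a ≤ i < a + n`. -/
def chkN (h0 t tL v0 TG TH bm a : ℕ) : ℕ → Bool
  | 0 => true
  | n + 1 => chk2 (a + n) h0 t tL v0 TG TH bm && chkN h0 t tL v0 TG TH bm a n

theorem chkN_sound {h0 t tL v0 TG TH bm a : ℕ} (hT : LOK h0 bm TG TH) (hv0 : vinB 0 h0 = v0) (n : ℕ)
    (h : chkN h0 t tL v0 TG TH bm a n = true) : ∀ i, a ≤ i → i < a + n → KP2 i := by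
  have hv : (1 : ℝ) ≤ (v0 : ℝ) / SD * VV (Sh h0) := by
    have h1 := vinB_le (Nat.zero_le h0) (h2 := h0) (by decide)
    rw [hv0] at h1
    have h2 : Bh 0 h0 = Sh h0 := by
      unfold Bh Sh
      rw [show zc 0 = 1 from zc_even 0]
    rwa [h2] at h1
  induction n with
  | zero => intro i h1 h2; omega
  | succ n ih =>
    intro i h1 h2
    unfold chkN at h
    rw [Bool.and_eq_true] at h
    rcases Nat.lt_or_ge i (a + n) with h3 | h3
    · exact ih h.2 i h1 h3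
    · have : i = a + n := by omega
      rw [this]; exact chk2_sound hT hv h.1

end Pool.Agent.H91.Gold
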