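import Mathlib
import Pool.Agent.H91.G5T0
import Pool.Agent.H91.G5Sum

/-!
Kernel check of the weighted sums.
-/

namespace Pool.Agent.H91.Gold

theorem q5c0_0 : chkN 4 8 8 6000000000006 q5G4 q5H4 3 17 5 = true := by
  decide +kernel

theorem q5w0 : vinB 0 4 = 6000000000006 := by decide +kernel

theorem q5K0 (hT : LOK 4 3 q5G4 q5H4) : ∀ i, 17 ≤ i → i < 22 → KP2 i := by
  intro i h1 h2
  exact chkN_sound hT q5w0 _ q5c0_0 i (by omega) (by omega)

theorem q5c1_0 : chkN 6 10 10 14000000028018 q5G6 q5H6 6 22 11 = true := by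
  decide +kernel

theorem q5w1 : vinB 0 6 = 14000000028018 := by decide +kernel

theorem q5K1 (hT : LOK 6 6 q5G6 q5H6) : ∀ i, 22 ≤ i → i < 33 → KP2 i := by
  intro i h1 h2
  exact chkN_sound hT q5w1 _ q5c1_0 i (by omega) (by omega)

theorem q5c2_0 : chkN 9 13 13 25614815273826 q5G9 q5H9 13 33 16 = true := by
  decide +kernel

theorem q5w2 : vinB 0 9 = 25614815273826 := by decide +kernel

theorem q5K2 (hT : LOK 9 13 q5G9 q5H9) : ∀ i, 33 ≤ i → i < 49 → KP2 i := by
  intro i h1 h2
  exact chkN_sound hT q5w2 _ q5c2_0 i (by omega) (by omega)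

theorem q5c3_0 : chkN 14 16 16 58338222580026 q5G14 q5H14 142 49 24 = true := by
  decide +kernel

theorem q5c3_1 : chkN 14 16 16 58338222580026 q5G14 q5H14 142 73 4 = true := by
  decide +kernel

theorem q5w3 : vinB 0 14 = 58338222580026 := by decide +kernel

theorem q5K3 (hT : LOK 14 142 q5G14 q5H14) : ∀ i, 49 ≤ i → i < 77 → KP2 i := by
  intro i h1 h2
  rcases Nat.lt_or_ge i 73 with h10 | h10
  · exact chkN_sound hT q5w3 _ q5c3_0 i (by omega) (by omega)
  exact chkN_sound hT q5w3 _ q5c3_1 i (by omega) (by omega)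

theorem q5c4_0 : chkN 20 18 18 116437193714772 q5G20 q5H20 202 77 24 = true := by
  decide +kernel

theorem q5c4_1 : chkN 20 18 18 116437193714772 q5G20 q5H20 202 101 9 = true := by
  decide +kernel

theorem q5w4 : vinB 0 20 = 116437193714772 := by decide +kernel

theorem q5K4 (hT : LOK 20 202 q5G20 q5H20) : ∀ i, 77 ≤ i → i < 110 → KP2 i := by
  intro i h1 h2
  rcases Nat.lt_or_ge i 101 with h10 | h10
  · exact chkN_sound hT q5w4 _ q5c4_0 i (by omega) (by omega)
  exact chkN_sound hT q5w4 _ q5c4_1 i (by omega) (by omega)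

theorem q5c5_0 : chkN 28 18 18 226669684702968 q5G28 q5H28 282 110 24 = true := by
  decide +kernel

theorem q5c5_1 : chkN 28 18 18 226669684702968 q5G28 q5H28 282 134 20 = true := by
  decide +kernel

theorem q5w5 : vinB 0 28 = 226669684702968 := by decide +kernel

theorem q5K5 (hT : LOK 28 282 q5G28 q5H28) : ∀ i, 110 ≤ i → i < 154 → KP2 i := by
  intro i h1 h2
  rcases Nat.lt_or_ge i 134 with h10 | h10
  · exact chkN_sound hT q5w5 _ q5c5_0 i (by omega) (by omega)
  exact chkN_sound hT q5w5 _ q5c5_1 i (by omega) (by omega)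

theorem q5c6_0 : chkN 32 20 20 295658642923404 q5G32 q5H32 322 154 22 = true := by
  decide +kernel

theorem q5w6 : vinB 0 32 = 295658642923404 := by decide +kernel

theorem q5K6 (hT : LOK 32 322 q5G32 q5H32) : ∀ i, 154 ≤ i → i < 176 → KP2 i := by
  intro i h1 h2
  exact chkN_sound hT q5w6 _ q5c6_0 i (by omega) (by omega)

theorem q5c7_0 : chkN 42 20 20 530868466496933 q5G42 q5H42 422 176 24 = true := by
  decide +kernel

theorem q5c7_1 : chkN 42 20 20 530868466496933 q5G42 q5H42 422 200 24 = true := by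
  decide +kernel

theorem q5c7_2 : chkN 42 20 20 530868466496933 q5G42 q5H42 422 224 7 = true := by
  decide +kernel

theorem q5w7 : vinB 0 42 = 530868466496933 := by decide +kernel

theorem q5K7 (hT : LOK 42 422 q5G42 q5H42) : ∀ i, 176 ≤ i → i < 231 → KP2 i := by
  intro i h1 h2
  rcases Nat.lt_or_ge i 200 with h10 | h10
  · exact chkN_sound hT q5w7 _ q5c7_0 i (by omega) (by omega)
  rcases Nat.lt_or_ge i 224 with h11 | h11
  · exact chkN_sound hT q5w7 _ q5c7_1 i (by omega) (by omega)
  exact chkN_sound hT q5w7 _ q5c7_2 i (by omega) (by omega)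

theorem q5c8_0 : chkN 54 20 20 877585012072457 q5G54 q5H54 542 231 24 = true := by
  decide +kernel

theorem q5c8_1 : chkN 54 20 20 877585012072457 q5G54 q5H54 542 255 24 = true := by
  decide +kernel

theorem q5c8_2 : chkN 54 20 20 877585012072457 q5G54 q5H54 542 279 18 = true := by
  decide +kernel

theorem q5w8 : vinB 0 54 = 877585012072457 := by decide +kernel

theorem q5K8 (hT : LOK 54 542 q5G54 q5H54) : ∀ i, 231 ≤ i → i < 297 → KP2 i := by
  intro i h1 h2
  rcases Nat.lt_or_ge i 255 with h10 | h10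
  · exact chkN_sound hT q5w8 _ q5c8_0 i (by omega) (by omega)
  rcases Nat.lt_or_ge i 279 with h11 | h11
  · exact chkN_sound hT q5w8 _ q5c8_1 i (by omega) (by omega)
  exact chkN_sound hT q5w8 _ q5c8_2 i (by omega) (by omega)

theorem q5c9_0 : chkN 68 22 22 1391655466055996 q5G68 q5H68 682 297 24 = true := by
  decide +kernel

theorem q5c9_1 : chkN 68 22 22 1391655466055996 q5G68 q5H68 682 321 24 = true := by
  decide +kernel

theorem q5c9_2 : chkN 68 22 22 1391655466055996 q5G68 q5H68 682 345 24 = true := by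
  decide +kernel

theorem q5c9_3 : chkN 68 22 22 1391655466055996 q5G68 q5H68 682 369 5 = true := by
  decide +kernel

theorem q5w9 : vinB 0 68 = 1391655466055996 := by decide +kernel

theorem q5K9 (hT : LOK 68 682 q5G68 q5H68) : ∀ i, 297 ≤ i → i < 374 → KP2 i := by
  intro i h1 h2
  rcases Nat.lt_or_ge i 321 with h10 | h10
  · exact chkN_sound hT q5w9 _ q5c9_0 i (by omega) (by omega)
  rcases Nat.lt_or_ge i 345 with h11 | h11
  · exact chkN_sound hT q5w9 _ q5c9_1 i (by omega) (by omega)
  rcases Nat.lt_or_ge i 369 with h12 | h12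
  · exact chkN_sound hT q5w9 _ q5c9_2 i (by omega) (by omega)
  exact chkN_sound hT q5w9 _ q5c9_3 i (by omega) (by omega)

end Pool.Agent.H91.Gold
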