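import Mathlib
import Pool.Agent.H91.G5T0
import Pool.Agent.H91.G5Sum

/-!
Kernel check of the weighted sums.
-/

namespace Pool.Agent.H91.Gold

theorem q5c10_0 : chkN 84 22 22 2123653626688911 q5G84 q5H84 842 374 24 = true := by
  decide +kernel

theorem q5c10_1 : chkN 84 22 22 2123653626688911 q5G84 q5H84 842 398 24 = true := by
  decide +kernel

theorem q5c10_2 : chkN 84 22 22 2123653626688911 q5G84 q5H84 842 422 24 = true := by
  decide +kernel

theorem q5c10_3 : chkN 84 22 22 2123653626688911 q5G84 q5H84 842 446 16 = true := by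
  decide +kernel

theorem q5w10 : vinB 0 84 = 2123653626688911 := by decide +kernel

theorem q5K10 (hT : LOK 84 842 q5G84 q5H84) : ∀ i, 374 ≤ i → i < 462 → KP2 i := by
  intro i h1 h2
  rcases Nat.lt_or_ge i 398 with h10 | h10
  · exact chkN_sound hT q5w10 _ q5c10_0 i (by omega) (by omega)
  rcases Nat.lt_or_ge i 422 with h11 | h11
  · exact chkN_sound hT q5w10 _ q5c10_1 i (by omega) (by omega)
  rcases Nat.lt_or_ge i 446 with h12 | h12
  · exact chkN_sound hT q5w10 _ q5c10_2 i (by omega) (by omega)
  exact chkN_sound hT q5w10 _ q5c10_3 i (by omega) (by omega)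

theorem q5c11_0 : chkN 102 24 24 3131379848466064 q5G102 q5H102 1022 462 24 = true := by
  decide +kernel

theorem q5c11_1 : chkN 102 24 24 3131379848466064 q5G102 q5H102 1022 486 24 = true := by
  decide +kernel

theorem q5c11_2 : chkN 102 24 24 3131379848466064 q5G102 q5H102 1022 510 24 = true := by
  decide +kernel

theorem q5c11_3 : chkN 102 24 24 3131379848466064 q5G102 q5H102 1022 534 24 = true := by
  decide +kernel

theorem q5c11_4 : chkN 102 24 24 3131379848466064 q5G102 q5H102 1022 558 3 = true := by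
  decide +kernel

theorem q5w11 : vinB 0 102 = 3131379848466064 := by decide +kernel

theorem q5K11 (hT : LOK 102 1022 q5G102 q5H102) : ∀ i, 462 ≤ i → i < 561 → KP2 i := by
  intro i h1 h2
  rcases Nat.lt_or_ge i 486 with h10 | h10
  · exact chkN_sound hT q5w11 _ q5c11_0 i (by omega) (by omega)
  rcases Nat.lt_or_ge i 510 with h11 | h11
  · exact chkN_sound hT q5w11 _ q5c11_1 i (by omega) (by omega)
  rcases Nat.lt_or_ge i 534 with h12 | h12
  · exact chkN_sound hT q5w11 _ q5c11_2 i (by omega) (by omega)
  rcases Nat.lt_or_ge i 558 with h13 | h13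
  · exact chkN_sound hT q5w11 _ q5c11_3 i (by omega) (by omega)
  exact chkN_sound hT q5w11 _ q5c11_4 i (by omega) (by omega)

end Pool.Agent.H91.Gold
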