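import Mathlib
import Pool.Agent.H91.G5T0
import Pool.Agent.H91.G5Sum

/-!
Kernel check of the weighted sums.
-/

namespace Pool.Agent.H91.Gold

theorem q5c12_0 : chkN 124 24 24 4627955108864582 q5G124 q5H124 1242 561 24 = true := by
  decide +kernel

theorem q5c12_1 : chkN 124 24 24 4627955108864582 q5G124 q5H124 1242 585 24 = true := by
  decide +kernel

theorem q5c12_2 : chkN 124 24 24 4627955108864582 q5G124 q5H124 1242 609 24 = true := by
  decide +kernel

theorem q5c12_3 : chkN 124 24 24 4627955108864582 q5G124 q5H124 1242 633 24 = true := by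
  decide +kernel

theorem q5c12_4 : chkN 124 24 24 4627955108864582 q5G124 q5H124 1242 657 3 = true := by
  decide +kernel

theorem q5w12 : vinB 0 124 = 4627955108864582 := by decide +kernel

theorem q5K12 (hT : LOK 124 1242 q5G124 q5H124) : ∀ i, 561 ≤ i → i < 660 → KP2 i := by
  intro i h1 h2
  rcases Nat.lt_or_ge i 585 with h10 | h10
  · exact chkN_sound hT q5w12 _ q5c12_0 i (by omega) (by omega)
  rcases Nat.lt_or_ge i 609 with h11 | h11
  · exact chkN_sound hT q5w12 _ q5c12_1 i (by omega) (by omega)
  rcases Nat.lt_or_ge i 633 with h12 | h12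
  · exact chkN_sound hT q5w12 _ q5c12_2 i (by omega) (by omega)
  rcases Nat.lt_or_ge i 657 with h13 | h13
  · exact chkN_sound hT q5w12 _ q5c12_3 i (by omega) (by omega)
  exact chkN_sound hT q5w12 _ q5c12_4 i (by omega) (by omega)

theorem q5c13_0 : chkN 124 24 24 4627955108864582 q5G124 q5H124 1242 660 22 = true := by
  decide +kernel

theorem q5w13 : vinB 0 124 = 4627955108864582 := by decide +kernel

theorem q5K13 (hT : LOK 124 1242 q5G124 q5H124) : ∀ i, 660 ≤ i → i < 682 → KP2 i := by
  intro i h1 h2
  exact chkN_sound hT q5w13 _ q5c13_0 i (by omega) (by omega)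

end Pool.Agent.H91.Gold
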