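import Mathlib
import Pool.Agent.H91.G5T0
import Pool.Agent.H91.G5Sum

/-!
Kernel check of the weighted sums.
-/

namespace Pool.Agent.H91.Gold

theorem q5c14_0 : chkN 150 26 26 6772334193434076 q5G150 q5H150 1502 682 24 = true := by
  decide +kernel

theorem q5c14_1 : chkN 150 26 26 6772334193434076 q5G150 q5H150 1502 706 24 = true := by
  decide +kernel

theorem q5c14_2 : chkN 150 26 26 6772334193434076 q5G150 q5H150 1502 730 24 = true := by
  decide +kernel

theorem q5c14_3 : chkN 150 26 26 6772334193434076 q5G150 q5H150 1502 754 15 = true := by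
  decide +kernel

theorem q5w14 : vinB 0 150 = 6772334193434076 := by decide +kernel

theorem q5K14 (hT : LOK 150 1502 q5G150 q5H150) : ∀ i, 682 ≤ i → i < 769 → KP2 i := by
  intro i h1 h2
  rcases Nat.lt_or_ge i 706 with h10 | h10
  · exact chkN_sound hT q5w14 _ q5c14_0 i (by omega) (by omega)
  rcases Nat.lt_or_ge i 730 with h11 | h11
  · exact chkN_sound hT q5w14 _ q5c14_1 i (by omega) (by omega)
  rcases Nat.lt_or_ge i 754 with h12 | h12
  · exact chkN_sound hT q5w14 _ q5c14_2 i (by omega) (by omega)
  exact chkN_sound hT q5w14 _ q5c14_3 i (by omega) (by omega)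

theorem q5c15_0 : chkN 150 26 26 6772334193434076 q5G150 q5H150 1502 769 24 = true := by
  decide +kernel

theorem q5c15_1 : chkN 150 26 26 6772334193434076 q5G150 q5H150 1502 793 24 = true := by
  decide +kernel

theorem q5c15_2 : chkN 150 26 26 6772334193434076 q5G150 q5H150 1502 817 8 = true := by
  decide +kernel

theorem q5w15 : vinB 0 150 = 6772334193434076 := by decide +kernel

theorem q5K15 (hT : LOK 150 1502 q5G150 q5H150) : ∀ i, 769 ≤ i → i < 825 → KP2 i := by
  intro i h1 h2
  rcases Nat.lt_or_ge i 793 with h10 | h10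
  · exact chkN_sound hT q5w15 _ q5c15_0 i (by omega) (by omega)
  rcases Nat.lt_or_ge i 817 with h11 | h11
  · exact chkN_sound hT q5w15 _ q5c15_1 i (by omega) (by omega)
  exact chkN_sound hT q5w15 _ q5c15_2 i (by omega) (by omega)

end Pool.Agent.H91.Gold
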