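import Mathlib
import Pool.Agent.H91.G5T0
import Pool.Agent.H91.G5Sum

/-!
Kernel check of the weighted sums.
-/

namespace Pool.Agent.H91.Gold

theorem q5c16_0 : chkN 180 26 26 9752378373230283 q5G180 q5H180 1802 825 24 = true := by
  decide +kernel

theorem q5c16_1 : chkN 180 26 26 9752378373230283 q5G180 q5H180 1802 849 24 = true := by
  decide +kernel

theorem q5c16_2 : chkN 180 26 26 9752378373230283 q5G180 q5H180 1802 873 24 = true := by
  decide +kernel

theorem q5c16_3 : chkN 180 26 26 9752378373230283 q5G180 q5H180 1802 897 4 = true := by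
  decide +kernel

theorem q5w16 : vinB 0 180 = 9752378373230283 := by decide +kernel

theorem q5K16 (hT : LOK 180 1802 q5G180 q5H180) : ∀ i, 825 ≤ i → i < 901 → KP2 i := by
  intro i h1 h2
  rcases Nat.lt_or_ge i 849 with h10 | h10
  · exact chkN_sound hT q5w16 _ q5c16_0 i (by omega) (by omega)
  rcases Nat.lt_or_ge i 873 with h11 | h11
  · exact chkN_sound hT q5w16 _ q5c16_1 i (by omega) (by omega)
  rcases Nat.lt_or_ge i 897 with h12 | h12
  · exact chkN_sound hT q5w16 _ q5c16_2 i (by omega) (by omega)
  exact chkN_sound hT q5w16 _ q5c16_3 i (by omega) (by omega)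

end Pool.Agent.H91.Gold
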