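import Mathlib
import Pool.Agent.H91.G5T0
import Pool.Agent.H91.G5Sum

/-!
Kernel check of the weighted sums.
-/

namespace Pool.Agent.H91.Gold

theorem q5c17_0 : chkN 180 26 26 9752378373230283 q5G180 q5H180 1802 901 24 = true := by
  decide +kernel

theorem q5c17_1 : chkN 180 26 26 9752378373230283 q5G180 q5H180 1802 925 24 = true := by
  decide +kernel

theorem q5c17_2 : chkN 180 26 26 9752378373230283 q5G180 q5H180 1802 949 23 = true := by
  decide +kernel

theorem q5w17 : vinB 0 180 = 9752378373230283 := by decide +kernel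

theorem q5K17 (hT : LOK 180 1802 q5G180 q5H180) : ∀ i, 901 ≤ i → i < 972 → KP2 i := by
  intro i h1 h2
  rcases Nat.lt_or_ge i 925 with h10 | h10
  · exact chkN_sound hT q5w17 _ q5c17_0 i (by omega) (by omega)
  rcases Nat.lt_or_ge i 949 with h11 | h11
  · exact chkN_sound hT q5w17 _ q5c17_1 i (by omega) (by omega)
  exact chkN_sound hT q5w17 _ q5c17_2 i (by omega) (by omega)

theorem q5c18_0 : chkN 180 26 26 9752378373230283 q5G180 q5H180 1802 972 18 = true := by
  decide +kernel

theorem q5w18 : vinB 0 180 = 9752378373230283 := by decide +kernel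

theorem q5K18 (hT : LOK 180 1802 q5G180 q5H180) : ∀ i, 972 ≤ i → i < 990 → KP2 i := by
  intro i h1 h2
  exact chkN_sound hT q5w18 _ q5c18_0 i (by omega) (by omega)

end Pool.Agent.H91.Gold
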