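import Mathlib
import Pool.Agent.H91.G5T0
import Pool.Agent.H91.G5Sum

/-!
Kernel check of the weighted sums.
-/

namespace Pool.Agent.H91.Gold

theorem q5c20_0 : chkN 216 26 26 14043737537891308 q5G216 q5H216 2162 1056 24 = true := by
  decide +kernel

theorem q5c20_1 : chkN 216 26 26 14043737537891308 q5G216 q5H216 2162 1080 24 = true := by
  decide +kernel

theorem q5c20_2 : chkN 216 26 26 14043737537891308 q5G216 q5H216 2162 1104 15 = true := by
  decide +kernel

theorem q5w20 : vinB 0 216 = 14043737537891308 := by decide +kernel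

theorem q5K20 (hT : LOK 216 2162 q5G216 q5H216) : ∀ i, 1056 ≤ i → i < 1119 → KP2 i := by
  intro i h1 h2
  rcases Nat.lt_or_ge i 1080 with h10 | h10
  · exact chkN_sound hT q5w20 _ q5c20_0 i (by omega) (by omega)
  rcases Nat.lt_or_ge i 1104 with h11 | h11
  · exact chkN_sound hT q5w20 _ q5c20_1 i (by omega) (by omega)
  exact chkN_sound hT q5w20 _ q5c20_2 i (by omega) (by omega)

end Pool.Agent.H91.Gold
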