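import Mathlib
import Pool.Agent.H91.G5T0
import Pool.Agent.H91.G5Sum

/-!
Kernel check of the weighted sums.
-/

namespace Pool.Agent.H91.Gold

theorem q5c21_0 : chkN 216 26 26 14043737537891308 q5G216 q5H216 2162 1119 24 = true := by
  decide +kernel

theorem q5c21_1 : chkN 216 26 26 14043737537891308 q5G216 q5H216 2162 1143 24 = true := by
  decide +kernel

theorem q5c21_2 : chkN 216 26 26 14043737537891308 q5G216 q5H216 2162 1167 12 = true := by
  decide +kernel

theorem q5w21 : vinB 0 216 = 14043737537891308 := by decide +kernel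

theorem q5K21 (hT : LOK 216 2162 q5G216 q5H216) : ∀ i, 1119 ≤ i → i < 1179 → KP2 i := by
  intro i h1 h2
  rcases Nat.lt_or_ge i 1143 with h10 | h10
  · exact chkN_sound hT q5w21 _ q5c21_0 i (by omega) (by omega)
  rcases Nat.lt_or_ge i 1167 with h11 | h11
  · exact chkN_sound hT q5w21 _ q5c21_1 i (by omega) (by omega)
  exact chkN_sound hT q5w21 _ q5c21_2 i (by omega) (by omega)

theorem q5c22_0 : chkN 216 26 26 14043737537891308 q5G216 q5H216 2162 1179 9 = true := by
  decide +kernel

theorem q5w22 : vinB 0 216 = 14043737537891308 := by decide +kernel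

theorem q5K22 (hT : LOK 216 2162 q5G216 q5H216) : ∀ i, 1179 ≤ i → i < 1188 → KP2 i := by
  intro i h1 h2
  exact chkN_sound hT q5w22 _ q5c22_0 i (by omega) (by omega)

theorem q5c23_0 : chkN 256 28 28 19727140759784615 q5G256 q5H256 2562 1188 24 = true := by
  decide +kernel

theorem q5c23_1 : chkN 256 28 28 19727140759784615 q5G256 q5H256 2562 1212 20 = true := by
  decide +kernel

theorem q5w23 : vinB 0 256 = 19727140759784615 := by decide +kernel

theorem q5K23 (hT : LOK 256 2562 q5G256 q5H256) : ∀ i, 1188 ≤ i → i < 1232 → KP2 i := by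
  intro i h1 h2
  rcases Nat.lt_or_ge i 1212 with h10 | h10
  · exact chkN_sound hT q5w23 _ q5c23_0 i (by omega) (by omega)
  exact chkN_sound hT q5w23 _ q5c23_1 i (by omega) (by omega)

end Pool.Agent.H91.Gold
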