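import Mathlib
import Pool.Agent.H91.G5T0

/-!
Kernel check of the steps between the tables.
-/

namespace Pool.Agent.H91.Gold

theorem q5L4 : LOK 4 3 q5G4 q5H4 := LOK_base (by norm_num) (by decide +kernel)

theorem q5L6 : LOK 6 6 q5G6 q5H6 := LOK_base (by norm_num) (by decide +kernel)

theorem q5L9 : LOK 9 13 q5G9 q5H9 := LOK_base (by norm_num) (by decide +kernel)

theorem q5t10 : tri 9 10 12 = q5l10 := by decide +kernel

theorem q5v10 : vinB 9 10 = 1257495600001 := by decide +kernel

theorem q5r10_0 : rowsN 1257495600001 q5G9 q5H9 13 q5G10 q5H10 q5l10 0 103 = true := by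
  decide +kernel

theorem q5S10 (hT : LOK 9 13 q5G9 q5H9) : LOK 10 102 q5G10 q5H10 := by
  refine LOK_step hT (by norm_num) (by norm_num) (by decide) q5t10 q5v10 ?_
  intro B hB
  exact rowsN_mem _ q5r10_0 B (by omega) (by omega)

theorem q5t12 : tri 10 12 12 = q5l12 := by decide +kernel

theorem q5v12 : vinB 10 12 = 1353890524410 := by decide +kernel

theorem q5r12_0 : rowsN 1353890524410 q5G10 q5H10 102 q5G12 q5H12 q5l12 0 123 = true := by
  decide +kernel

theorem q5S12 (hT : LOK 10 102 q5G10 q5H10) : LOK 12 122 q5G12 q5H12 := by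
  refine LOK_step hT (by norm_num) (by norm_num) (by decide) q5t12 q5v12 ?_
  intro B hB
  exact rowsN_mem _ q5r12_0 B (by omega) (by omega)

theorem q5t14 : tri 12 14 12 = q5l14 := by decide +kernel

theorem q5v14 : vinB 12 14 = 1337740704985 := by decide +kernel

theorem q5r14_0 : rowsN 1337740704985 q5G12 q5H12 122 q5G14 q5H14 q5l14 0 143 = true := by
  decide +kernel

theorem q5S14 (hT : LOK 12 122 q5G12 q5H12) : LOK 14 142 q5G14 q5H14 := by
  refine LOK_step hT (by norm_num) (by norm_num) (by decide) q5t14 q5v14 ?_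
  intro B hB
  exact rowsN_mem _ q5r14_0 B (by omega) (by omega)

theorem q5t16 : tri 14 16 12 = q5l16 := by decide +kernel

theorem q5v16 : vinB 14 16 = 1288375479002 := by decide +kernel

theorem q5r16_0 : rowsN 1288375479002 q5G14 q5H14 142 q5G16 q5H16 q5l16 0 163 = true := by
  decide +kernel

theorem q5S16 (hT : LOK 14 142 q5G14 q5H14) : LOK 16 162 q5G16 q5H16 := by
  refine LOK_step hT (by norm_num) (by norm_num) (by decide) q5t16 q5v16 ?_
  intro B hB
  exact rowsN_mem _ q5r16_0 B (by omega) (by omega)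

theorem q5t20 : tri 16 20 12 = q5l20 := by decide +kernel

theorem q5v20 : vinB 16 20 = 1549159327326 := by decide +kernel

theorem q5r20_0 : rowsN 1549159327326 q5G16 q5H16 162 q5G20 q5H20 q5l20 0 203 = true := by
  decide +kernel

theorem q5S20 (hT : LOK 16 162 q5G16 q5H16) : LOK 20 202 q5G20 q5H20 := by
  refine LOK_step hT (by norm_num) (by norm_num) (by decide) q5t20 q5v20 ?_
  intro B hB
  exact rowsN_mem _ q5r20_0 B (by omega) (by omega)

theorem q5t24 : tri 20 24 12 = q5l24 := by decide +kernel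

theorem q5v24 : vinB 20 24 = 1433687629836 := by decide +kernel

theorem q5r24_0 : rowsN 1433687629836 q5G20 q5H20 202 q5G24 q5H24 q5l24 0 243 = true := by
  decide +kernel

theorem q5S24 (hT : LOK 20 202 q5G20 q5H20) : LOK 24 242 q5G24 q5H24 := by
  refine LOK_step hT (by norm_num) (by norm_num) (by decide) q5t24 q5v24 ?_
  intro B hB
  exact rowsN_mem _ q5r24_0 B (by omega) (by omega)

theorem q5t28 : tri 24 28 12 = q5l28 := by decide +kernel

theorem q5v28 : vinB 24 28 = 1357835542801 := by decide +kernel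

theorem q5r28_0 : rowsN 1357835542801 q5G24 q5H24 242 q5G28 q5H28 q5l28 0 256 = true := by
  decide +kernel

theorem q5r28_1 : rowsN 1357835542801 q5G24 q5H24 242 q5G28 q5H28 q5l28 256 27 = true := by
  decide +kernel

theorem q5S28 (hT : LOK 24 242 q5G24 q5H24) : LOK 28 282 q5G28 q5H28 := by
  refine LOK_step hT (by norm_num) (by norm_num) (by decide) q5t28 q5v28 ?_
  intro B hB
  rcases Nat.lt_or_ge B 256 with h0 | h0
  · exact rowsN_mem _ q5r28_0 B (by omega) (by omega)
  exact rowsN_mem _ q5r28_1 B (by omega) (by omega)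

theorem q5t32 : tri 28 32 12 = q5l32 := by decide +kernel

theorem q5v32 : vinB 28 32 = 1304358998474 := by decide +kernel

theorem q5r32_0 : rowsN 1304358998474 q5G28 q5H28 282 q5G32 q5H32 q5l32 0 256 = true := by
  decide +kernel

theorem q5r32_1 : rowsN 1304358998474 q5G28 q5H28 282 q5G32 q5H32 q5l32 256 67 = true := by
  decide +kernel

theorem q5S32 (hT : LOK 28 282 q5G28 q5H28) : LOK 32 322 q5G32 q5H32 := by
  refine LOK_step hT (by norm_num) (by norm_num) (by decide) q5t32 q5v32 ?_
  intro B hB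
  rcases Nat.lt_or_ge B 256 with h0 | h0
  · exact rowsN_mem _ q5r32_0 B (by omega) (by omega)
  exact rowsN_mem _ q5r32_1 B (by omega) (by omega)

theorem q5t42 : tri 32 42 12 = q5l42 := by decide +kernel

theorem q5v42 : vinB 32 42 = 1795545231649 := by decide +kernel

theorem q5r42_0 : rowsN 1795545231649 q5G32 q5H32 322 q5G42 q5H42 q5l42 0 256 = true := by
  decide +kernel

theorem q5r42_1 : rowsN 1795545231649 q5G32 q5H32 322 q5G42 q5H42 q5l42 256 167 = true := by
  decide +kernel

theorem q5S42 (hT : LOK 32 322 q5G32 q5H32) : LOK 42 422 q5G42 q5H42 := by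
  refine LOK_step hT (by norm_num) (by norm_num) (by decide) q5t42 q5v42 ?_
  intro B hB
  rcases Nat.lt_or_ge B 256 with h0 | h0
  · exact rowsN_mem _ q5r42_0 B (by omega) (by omega)
  exact rowsN_mem _ q5r42_1 B (by omega) (by omega)

theorem q5t54 : tri 42 54 12 = q5l54 := by decide +kernel

theorem q5v54 : vinB 42 54 = 1706040565189 := by decide +kernel

theorem q5r54_0 : rowsN 1706040565189 q5G42 q5H42 422 q5G54 q5H54 q5l54 0 256 = true := by
  decide +kernel

theorem q5r54_1 : rowsN 1706040565189 q5G42 q5H42 422 q5G54 q5H54 q5l54 256 256 = true := by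
  decide +kernel

theorem q5r54_2 : rowsN 1706040565189 q5G42 q5H42 422 q5G54 q5H54 q5l54 512 31 = true := by
  decide +kernel

theorem q5S54 (hT : LOK 42 422 q5G42 q5H42) : LOK 54 542 q5G54 q5H54 := by
  refine LOK_step hT (by norm_num) (by norm_num) (by decide) q5t54 q5v54 ?_
  intro B hB
  rcases Nat.lt_or_ge B 256 with h0 | h0
  · exact rowsN_mem _ q5r54_0 B (by omega) (by omega)
  rcases Nat.lt_or_ge B 512 with h1 | h1
  · exact rowsN_mem _ q5r54_1 B (by omega) (by omega)
  exact rowsN_mem _ q5r54_2 B (by omega) (by omega)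

end Pool.Agent.H91.Gold
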