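import Mathlib
import Pool.Agent.H91.G5T0

/-!
Kernel check of the steps between the tables.
-/

namespace Pool.Agent.H91.Gold

theorem q5t68 : tri 54 68 12 = q5l68 := by decide +kernel

theorem q5v68 : vinB 54 68 = 1625120311571 := by decide +kernel

theorem q5r68_0 : rowsN 1625120311571 q5G54 q5H54 542 q5G68 q5H68 q5l68 0 256 = true := by
  decide +kernel

theorem q5r68_1 : rowsN 1625120311571 q5G54 q5H54 542 q5G68 q5H68 q5l68 256 256 = true := by
  decide +kernel

theorem q5r68_2 : rowsN 1625120311571 q5G54 q5H54 542 q5G68 q5H68 q5l68 512 171 = true := by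
  decide +kernel

theorem q5S68 (hT : LOK 54 542 q5G54 q5H54) : LOK 68 682 q5G68 q5H68 := by
  refine LOK_step hT (by norm_num) (by norm_num) (by decide) q5t68 q5v68 ?_
  intro B hB
  rcases Nat.lt_or_ge B 256 with h0 | h0
  · exact rowsN_mem _ q5r68_0 B (by omega) (by omega)
  rcases Nat.lt_or_ge B 512 with h1 | h1
  · exact rowsN_mem _ q5r68_1 B (by omega) (by omega)
  exact rowsN_mem _ q5r68_2 B (by omega) (by omega)

theorem q5t84 : tri 68 84 12 = q5l84 := by decide +kernel

theorem q5v84 : vinB 68 84 = 1555973101747 := by decide +kernel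

theorem q5r84_0 : rowsN 1555973101747 q5G68 q5H68 682 q5G84 q5H84 q5l84 0 256 = true := by
  decide +kernel

theorem q5r84_1 : rowsN 1555973101747 q5G68 q5H68 682 q5G84 q5H84 q5l84 256 256 = true := by
  decide +kernel

theorem q5r84_2 : rowsN 1555973101747 q5G68 q5H68 682 q5G84 q5H84 q5l84 512 256 = true := by
  decide +kernel

theorem q5r84_3 : rowsN 1555973101747 q5G68 q5H68 682 q5G84 q5H84 q5l84 768 75 = true := by
  decide +kernel

theorem q5S84 (hT : LOK 68 682 q5G68 q5H68) : LOK 84 842 q5G84 q5H84 := by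
  refine LOK_step hT (by norm_num) (by norm_num) (by decide) q5t84 q5v84 ?_
  intro B hB
  rcases Nat.lt_or_ge B 256 with h0 | h0
  · exact rowsN_mem _ q5r84_0 B (by omega) (by omega)
  rcases Nat.lt_or_ge B 512 with h1 | h1
  · exact rowsN_mem _ q5r84_1 B (by omega) (by omega)
  rcases Nat.lt_or_ge B 768 with h2 | h2
  · exact rowsN_mem _ q5r84_2 B (by omega) (by omega)
  exact rowsN_mem _ q5r84_3 B (by omega) (by omega)

theorem q5t102 : tri 84 102 12 = q5l102 := by decide +kernel

theorem q5v102 : vinB 84 102 = 1497929433299 := by decide +kernel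

theorem q5r102_0 : rowsN 1497929433299 q5G84 q5H84 842 q5G102 q5H102 q5l102 0 256 = true := by
  decide +kernel

theorem q5r102_1 : rowsN 1497929433299 q5G84 q5H84 842 q5G102 q5H102 q5l102 256 256 = true := by
  decide +kernel

theorem q5r102_2 : rowsN 1497929433299 q5G84 q5H84 842 q5G102 q5H102 q5l102 512 256 = true := by
  decide +kernel

theorem q5r102_3 : rowsN 1497929433299 q5G84 q5H84 842 q5G102 q5H102 q5l102 768 255 = true := by
  decide +kernel

theorem q5S102 (hT : LOK 84 842 q5G84 q5H84) : LOK 102 1022 q5G102 q5H102 := by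
  refine LOK_step hT (by norm_num) (by norm_num) (by decide) q5t102 q5v102 ?_
  intro B hB
  rcases Nat.lt_or_ge B 256 with h0 | h0
  · exact rowsN_mem _ q5r102_0 B (by omega) (by omega)
  rcases Nat.lt_or_ge B 512 with h1 | h1
  · exact rowsN_mem _ q5r102_1 B (by omega) (by omega)
  rcases Nat.lt_or_ge B 768 with h2 | h2
  · exact rowsN_mem _ q5r102_2 B (by omega) (by omega)
  exact rowsN_mem _ q5r102_3 B (by omega) (by omega)

end Pool.Agent.H91.Gold
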