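import Mathlib
import Pool.Agent.H91.G5T0

/-!
Kernel check of the steps between the tables.
-/

namespace Pool.Agent.H91.Gold

theorem q5t124 : tri 102 124 12 = q5l124 := by decide +kernel

theorem q5v124 : vinB 102 124 = 1497213807167 := by decide +kernel

theorem q5r124_0 : rowsN 1497213807167 q5G102 q5H102 1022 q5G124 q5H124 q5l124 0 256 = true := by
  decide +kernel

theorem q5r124_1 : rowsN 1497213807167 q5G102 q5H102 1022 q5G124 q5H124 q5l124 256 256 = true := by
  decide +kernel

theorem q5r124_2 : rowsN 1497213807167 q5G102 q5H102 1022 q5G124 q5H124 q5l124 512 256 = true := by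
  decide +kernel

theorem q5r124_3 : rowsN 1497213807167 q5G102 q5H102 1022 q5G124 q5H124 q5l124 768 256 = true := by
  decide +kernel

theorem q5r124_4 : rowsN 1497213807167 q5G102 q5H102 1022 q5G124 q5H124 q5l124 1024 219 = true := by
  decide +kernel

theorem q5S124 (hT : LOK 102 1022 q5G102 q5H102) : LOK 124 1242 q5G124 q5H124 := by
  refine LOK_step hT (by norm_num) (by norm_num) (by decide) q5t124 q5v124 ?_
  intro B hB
  rcases Nat.lt_or_ge B 256 with h0 | h0
  · exact rowsN_mem _ q5r124_0 B (by omega) (by omega)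
  rcases Nat.lt_or_ge B 512 with h1 | h1
  · exact rowsN_mem _ q5r124_1 B (by omega) (by omega)
  rcases Nat.lt_or_ge B 768 with h2 | h2
  · exact rowsN_mem _ q5r124_2 B (by omega) (by omega)
  rcases Nat.lt_or_ge B 1024 with h3 | h3
  · exact rowsN_mem _ q5r124_3 B (by omega) (by omega)
  exact rowsN_mem _ q5r124_4 B (by omega) (by omega)

theorem q5t150 : tri 124 150 12 = q5l150 := by decide +kernel

theorem q5v150 : vinB 124 150 = 1479037336690 := by decide +kernel

theorem q5r150_0 : rowsN 1479037336690 q5G124 q5H124 1242 q5G150 q5H150 q5l150 0 256 = true := by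
  decide +kernel

theorem q5r150_1 : rowsN 1479037336690 q5G124 q5H124 1242 q5G150 q5H150 q5l150 256 256 = true := by
  decide +kernel

theorem q5r150_2 : rowsN 1479037336690 q5G124 q5H124 1242 q5G150 q5H150 q5l150 512 256 = true := by
  decide +kernel

theorem q5r150_3 : rowsN 1479037336690 q5G124 q5H124 1242 q5G150 q5H150 q5l150 768 256 = true := by
  decide +kernel

theorem q5r150_4 : rowsN 1479037336690 q5G124 q5H124 1242 q5G150 q5H150 q5l150 1024 256 = true := by
  decide +kernel

theorem q5r150_5 : rowsN 1479037336690 q5G124 q5H124 1242 q5G150 q5H150 q5l150 1280 223 = true := by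
  decide +kernel

theorem q5S150 (hT : LOK 124 1242 q5G124 q5H124) : LOK 150 1502 q5G150 q5H150 := by
  refine LOK_step hT (by norm_num) (by norm_num) (by decide) q5t150 q5v150 ?_
  intro B hB
  rcases Nat.lt_or_ge B 256 with h0 | h0
  · exact rowsN_mem _ q5r150_0 B (by omega) (by omega)
  rcases Nat.lt_or_ge B 512 with h1 | h1
  · exact rowsN_mem _ q5r150_1 B (by omega) (by omega)
  rcases Nat.lt_or_ge B 768 with h2 | h2
  · exact rowsN_mem _ q5r150_2 B (by omega) (by omega)
  rcases Nat.lt_or_ge B 1024 with h3 | h3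
  · exact rowsN_mem _ q5r150_3 B (by omega) (by omega)
  rcases Nat.lt_or_ge B 1280 with h4 | h4
  · exact rowsN_mem _ q5r150_4 B (by omega) (by omega)
  exact rowsN_mem _ q5r150_5 B (by omega) (by omega)

end Pool.Agent.H91.Gold
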