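import Mathlib
import Pool.Agent.H91.G5T0

/-!
Kernel check of the steps between the tables.
-/

namespace Pool.Agent.H91.Gold

theorem q5t180 : tri 150 180 12 = q5l180 := by decide +kernel

theorem q5v180 : vinB 150 180 = 1452774491066 := by decide +kernel

theorem q5r180_0 : rowsN 1452774491066 q5G150 q5H150 1502 q5G180 q5H180 q5l180 0 256 = true := by
  decide +kernel

theorem q5r180_1 : rowsN 1452774491066 q5G150 q5H150 1502 q5G180 q5H180 q5l180 256 256 = true := by
  decide +kernel

theorem q5r180_2 : rowsN 1452774491066 q5G150 q5H150 1502 q5G180 q5H180 q5l180 512 256 = true := by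
  decide +kernel

theorem q5r180_3 : rowsN 1452774491066 q5G150 q5H150 1502 q5G180 q5H180 q5l180 768 256 = true := by
  decide +kernel

theorem q5r180_4 : rowsN 1452774491066 q5G150 q5H150 1502 q5G180 q5H180 q5l180 1024 256 = true := by
  decide +kernel

theorem q5r180_5 : rowsN 1452774491066 q5G150 q5H150 1502 q5G180 q5H180 q5l180 1280 256 = true := by
  decide +kernel

theorem q5r180_6 : rowsN 1452774491066 q5G150 q5H150 1502 q5G180 q5H180 q5l180 1536 256 = true := by
  decide +kernel

theorem q5r180_7 : rowsN 1452774491066 q5G150 q5H150 1502 q5G180 q5H180 q5l180 1792 11 = true := by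
  decide +kernel

theorem q5S180 (hT : LOK 150 1502 q5G150 q5H150) : LOK 180 1802 q5G180 q5H180 := by
  refine LOK_step hT (by norm_num) (by norm_num) (by decide) q5t180 q5v180 ?_
  intro B hB
  rcases Nat.lt_or_ge B 256 with h0 | h0
  · exact rowsN_mem _ q5r180_0 B (by omega) (by omega)
  rcases Nat.lt_or_ge B 512 with h1 | h1
  · exact rowsN_mem _ q5r180_1 B (by omega) (by omega)
  rcases Nat.lt_or_ge B 768 with h2 | h2
  · exact rowsN_mem _ q5r180_2 B (by omega) (by omega)
  rcases Nat.lt_or_ge B 1024 with h3 | h3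
  · exact rowsN_mem _ q5r180_3 B (by omega) (by omega)
  rcases Nat.lt_or_ge B 1280 with h4 | h4
  · exact rowsN_mem _ q5r180_4 B (by omega) (by omega)
  rcases Nat.lt_or_ge B 1536 with h5 | h5
  · exact rowsN_mem _ q5r180_5 B (by omega) (by omega)
  rcases Nat.lt_or_ge B 1792 with h6 | h6
  · exact rowsN_mem _ q5r180_6 B (by omega) (by omega)
  exact rowsN_mem _ q5r180_7 B (by omega) (by omega)

theorem q5t216 : tri 180 216 12 = q5l216 := by decide +kernel

theorem q5v216 : vinB 180 216 = 1450637545648 := by decide +kernel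

theorem q5r216_0 : rowsN 1450637545648 q5G180 q5H180 1802 q5G216 q5H216 q5l216 0 256 = true := by
  decide +kernel

theorem q5r216_1 : rowsN 1450637545648 q5G180 q5H180 1802 q5G216 q5H216 q5l216 256 256 = true := by
  decide +kernel

theorem q5r216_2 : rowsN 1450637545648 q5G180 q5H180 1802 q5G216 q5H216 q5l216 512 256 = true := by
  decide +kernel

theorem q5r216_3 : rowsN 1450637545648 q5G180 q5H180 1802 q5G216 q5H216 q5l216 768 256 = true := by
  decide +kernel

theorem q5r216_4 : rowsN 1450637545648 q5G180 q5H180 1802 q5G216 q5H216 q5l216 1024 256 = true := by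
  decide +kernel

theorem q5r216_5 : rowsN 1450637545648 q5G180 q5H180 1802 q5G216 q5H216 q5l216 1280 256 = true := by
  decide +kernel

theorem q5r216_6 : rowsN 1450637545648 q5G180 q5H180 1802 q5G216 q5H216 q5l216 1536 256 = true := by
  decide +kernel

theorem q5r216_7 : rowsN 1450637545648 q5G180 q5H180 1802 q5G216 q5H216 q5l216 1792 256 = true := by
  decide +kernel

theorem q5r216_8 : rowsN 1450637545648 q5G180 q5H180 1802 q5G216 q5H216 q5l216 2048 115 = true := by
  decide +kernel

theorem q5S216 (hT : LOK 180 1802 q5G180 q5H180) : LOK 216 2162 q5G216 q5H216 := by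
  refine LOK_step hT (by norm_num) (by norm_num) (by decide) q5t216 q5v216 ?_
  intro B hB
  rcases Nat.lt_or_ge B 256 with h0 | h0
  · exact rowsN_mem _ q5r216_0 B (by omega) (by omega)
  rcases Nat.lt_or_ge B 512 with h1 | h1
  · exact rowsN_mem _ q5r216_1 B (by omega) (by omega)
  rcases Nat.lt_or_ge B 768 with h2 | h2
  · exact rowsN_mem _ q5r216_2 B (by omega) (by omega)
  rcases Nat.lt_or_ge B 1024 with h3 | h3
  · exact rowsN_mem _ q5r216_3 B (by omega) (by omega)
  rcases Nat.lt_or_ge B 1280 with h4 | h4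
  · exact rowsN_mem _ q5r216_4 B (by omega) (by omega)
  rcases Nat.lt_or_ge B 1536 with h5 | h5
  · exact rowsN_mem _ q5r216_5 B (by omega) (by omega)
  rcases Nat.lt_or_ge B 1792 with h6 | h6
  · exact rowsN_mem _ q5r216_6 B (by omega) (by omega)
  rcases Nat.lt_or_ge B 2048 with h7 | h7
  · exact rowsN_mem _ q5r216_7 B (by omega) (by omega)
  exact rowsN_mem _ q5r216_8 B (by omega) (by omega)

end Pool.Agent.H91.Gold
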