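import Mathlib
import Pool.Agent.H91.G5T0

/-!
Kernel check of the steps between the tables.
-/

namespace Pool.Agent.H91.Gold

theorem q5t256 : tri 216 256 12 = q5l256 := by decide +kernel

theorem q5v256 : vinB 216 256 = 1413305696438 := by decide +kernel

theorem q5r256_0 : rowsN 1413305696438 q5G216 q5H216 2162 q5G256 q5H256 q5l256 0 256 = true := by
  decide +kernel

theorem q5r256_1 : rowsN 1413305696438 q5G216 q5H216 2162 q5G256 q5H256 q5l256 256 256 = true := by
  decide +kernel

theorem q5r256_2 : rowsN 1413305696438 q5G216 q5H216 2162 q5G256 q5H256 q5l256 512 256 = true := by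
  decide +kernel

theorem q5r256_3 : rowsN 1413305696438 q5G216 q5H216 2162 q5G256 q5H256 q5l256 768 256 = true := by
  decide +kernel

theorem q5r256_4 : rowsN 1413305696438 q5G216 q5H216 2162 q5G256 q5H256 q5l256 1024 256 = true := by
  decide +kernel

theorem q5r256_5 : rowsN 1413305696438 q5G216 q5H216 2162 q5G256 q5H256 q5l256 1280 256 = true := by
  decide +kernel

theorem q5r256_6 : rowsN 1413305696438 q5G216 q5H216 2162 q5G256 q5H256 q5l256 1536 256 = true := by
  decide +kernel

theorem q5r256_7 : rowsN 1413305696438 q5G216 q5H216 2162 q5G256 q5H256 q5l256 1792 256 = true := by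
  decide +kernel

theorem q5r256_8 : rowsN 1413305696438 q5G216 q5H216 2162 q5G256 q5H256 q5l256 2048 256 = true := by
  decide +kernel

theorem q5r256_9 : rowsN 1413305696438 q5G216 q5H216 2162 q5G256 q5H256 q5l256 2304 256 = true := by
  decide +kernel

theorem q5r256_10 : rowsN 1413305696438 q5G216 q5H216 2162 q5G256 q5H256 q5l256 2560 3 = true := by
  decide +kernel

theorem q5S256 (hT : LOK 216 2162 q5G216 q5H216) : LOK 256 2562 q5G256 q5H256 := by
  refine LOK_step hT (by norm_num) (by norm_num) (by decide) q5t256 q5v256 ?_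
  intro B hB
  rcases Nat.lt_or_ge B 256 with h0 | h0
  · exact rowsN_mem _ q5r256_0 B (by omega) (by omega)
  rcases Nat.lt_or_ge B 512 with h1 | h1
  · exact rowsN_mem _ q5r256_1 B (by omega) (by omega)
  rcases Nat.lt_or_ge B 768 with h2 | h2
  · exact rowsN_mem _ q5r256_2 B (by omega) (by omega)
  rcases Nat.lt_or_ge B 1024 with h3 | h3
  · exact rowsN_mem _ q5r256_3 B (by omega) (by omega)
  rcases Nat.lt_or_ge B 1280 with h4 | h4
  · exact rowsN_mem _ q5r256_4 B (by omega) (by omega)
  rcases Nat.lt_or_ge B 1536 with h5 | h5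
  · exact rowsN_mem _ q5r256_5 B (by omega) (by omega)
  rcases Nat.lt_or_ge B 1792 with h6 | h6
  · exact rowsN_mem _ q5r256_6 B (by omega) (by omega)
  rcases Nat.lt_or_ge B 2048 with h7 | h7
  · exact rowsN_mem _ q5r256_7 B (by omega) (by omega)
  rcases Nat.lt_or_ge B 2304 with h8 | h8
  · exact rowsN_mem _ q5r256_8 B (by omega) (by omega)
  rcases Nat.lt_or_ge B 2560 with h9 | h9
  · exact rowsN_mem _ q5r256_9 B (by omega) (by omega)
  exact rowsN_mem _ q5r256_10 B (by omega) (by omega)

end Pool.Agent.H91.Gold
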