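import Mathlib
import Pool.Agent.H91.G5T1
import Pool.Agent.H91.G5T2
import Pool.Agent.H91.G5T3
import Pool.Agent.H91.G5T4
import Pool.Agent.H91.G5T5

/-!
The tables are sound.
-/

namespace Pool.Agent.H91.Gold

theorem q5L10 : LOK 10 102 q5G10 q5H10 := q5S10 q5L9

theorem q5L12 : LOK 12 122 q5G12 q5H12 := q5S12 q5L10

theorem q5L14 : LOK 14 142 q5G14 q5H14 := q5S14 q5L12

theorem q5L16 : LOK 16 162 q5G16 q5H16 := q5S16 q5L14

theorem q5L20 : LOK 20 202 q5G20 q5H20 := q5S20 q5L16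

theorem q5L24 : LOK 24 242 q5G24 q5H24 := q5S24 q5L20

theorem q5L28 : LOK 28 282 q5G28 q5H28 := q5S28 q5L24

theorem q5L32 : LOK 32 322 q5G32 q5H32 := q5S32 q5L28

theorem q5L42 : LOK 42 422 q5G42 q5H42 := q5S42 q5L32

theorem q5L54 : LOK 54 542 q5G54 q5H54 := q5S54 q5L42

theorem q5L68 : LOK 68 682 q5G68 q5H68 := q5S68 q5L54

theorem q5L84 : LOK 84 842 q5G84 q5H84 := q5S84 q5L68

theorem q5L102 : LOK 102 1022 q5G102 q5H102 := q5S102 q5L84

theorem q5L124 : LOK 124 1242 q5G124 q5H124 := q5S124 q5L102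

theorem q5L150 : LOK 150 1502 q5G150 q5H150 := q5S150 q5L124

theorem q5L180 : LOK 180 1802 q5G180 q5H180 := q5S180 q5L150

theorem q5L216 : LOK 216 2162 q5G216 q5H216 := q5S216 q5L180

theorem q5L256 : LOK 256 2562 q5G256 q5H256 := q5S256 q5L216

end Pool.Agent.H91.Gold
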