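import Mathlib
import Pool.Agent.H91.G5T
import Pool.Agent.H91.G5C0
import Pool.Agent.H91.G5C1
import Pool.Agent.H91.G5C2
import Pool.Agent.H91.G5C3
import Pool.Agent.H91.G5C4
import Pool.Agent.H91.G5C5
import Pool.Agent.H91.G5C6
import Pool.Agent.H91.G5C7
import Pool.Agent.H91.G5C8

/-!
The key proposition in the finite range.
-/

namespace Pool.Agent.H91.Gold

theorem KP2_fin : ∀ i, 17 ≤ i → i < 1232 → KP2 i := by
  intro i h1 h2
  rcases Nat.lt_or_ge i 22 with h10 | h10
  · exact q5K0 q5L4 i (by omega) h10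
  rcases Nat.lt_or_ge i 33 with h11 | h11
  · exact q5K1 q5L6 i (by omega) h11
  rcases Nat.lt_or_ge i 49 with h12 | h12
  · exact q5K2 q5L9 i (by omega) h12
  rcases Nat.lt_or_ge i 77 with h13 | h13
  · exact q5K3 q5L14 i (by omega) h13
  rcases Nat.lt_or_ge i 110 with h14 | h14
  · exact q5K4 q5L20 i (by omega) h14
  rcases Nat.lt_or_ge i 154 with h15 | h15
  · exact q5K5 q5L28 i (by omega) h15
  rcases Nat.lt_or_ge i 176 with h16 | h16
  · exact q5K6 q5L32 i (by omega) h16
  rcases Nat.lt_or_ge i 231 with h17 | h17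
  · exact q5K7 q5L42 i (by omega) h17
  rcases Nat.lt_or_ge i 297 with h18 | h18
  · exact q5K8 q5L54 i (by omega) h18
  rcases Nat.lt_or_ge i 374 with h19 | h19
  · exact q5K9 q5L68 i (by omega) h19
  rcases Nat.lt_or_ge i 462 with h20 | h20
  · exact q5K10 q5L84 i (by omega) h20
  rcases Nat.lt_or_ge i 561 with h21 | h21
  · exact q5K11 q5L102 i (by omega) h21
  rcases Nat.lt_or_ge i 660 with h22 | h22
  · exact q5K12 q5L124 i (by omega) h22
  rcases Nat.lt_or_ge i 682 with h23 | h23
  · exact q5K13 q5L124 i (by omega) h23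
  rcases Nat.lt_or_ge i 769 with h24 | h24
  · exact q5K14 q5L150 i (by omega) h24
  rcases Nat.lt_or_ge i 825 with h25 | h25
  · exact q5K15 q5L150 i (by omega) h25
  rcases Nat.lt_or_ge i 901 with h26 | h26
  · exact q5K16 q5L180 i (by omega) h26
  rcases Nat.lt_or_ge i 972 with h27 | h27
  · exact q5K17 q5L180 i (by omega) h27
  rcases Nat.lt_or_ge i 990 with h28 | h28
  · exact q5K18 q5L180 i (by omega) h28
  rcases Nat.lt_or_ge i 1056 with h29 | h29
  · exact q5K19 q5L216 i (by omega) h29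
  rcases Nat.lt_or_ge i 1119 with h30 | h30
  · exact q5K20 q5L216 i (by omega) h30
  rcases Nat.lt_or_ge i 1179 with h31 | h31
  · exact q5K21 q5L216 i (by omega) h31
  rcases Nat.lt_or_ge i 1188 with h32 | h32
  · exact q5K22 q5L216 i (by omega) h32
  exact q5K23 q5L256 i (by omega) h2

end Pool.Agent.H91.Gold
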