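import Mathlib
import Pool.Agent.H91.GoldInfA

/-!
Chains for the parameters from `64` to `127`.
-/

namespace Pool.Agent.H91.Gold

open Finset

/-- Table of chains. -/
def bA : List (ℕ × ℕ × List (ℕ × ℕ)) := [
  (64, 4, [(10, 10), (28, 10), (64, 8)]),
  (65, 5, [(10, 10), (28, 10), (65, 8)]),
  (66, 4, [(9, 8), (18, 8), (38, 8), (66, 6)]),
  (67, 3, [(6, 8), (10, 6), (14, 6), (28, 8), (67, 8)]),
  (68, 5, [(10, 8), (18, 8), (38, 8), (68, 6)]),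
  (69, 3, [(9, 10), (18, 8), (40, 8), (69, 6)]),
  (70, 4, [(6, 6), (10, 6), (18, 8), (40, 8), (70, 6)]),
  (71, 4, [(9, 10), (19, 8), (40, 8), (71, 6)]),
  (72, 4, [(10, 10), (19, 8), (40, 8), (72, 6)]),
  (73, 4, [(10, 10), (20, 8), (40, 8), (73, 6)]),
  (74, 4, [(6, 6), (10, 6), (19, 8), (32, 6), (74, 8)]),
  (75, 5, [(10, 8), (15, 6), (32, 8), (75, 8)]),
  (76, 4, [(10, 10), (20, 8), (42, 8), (76, 6)]),
  (77, 3, [(6, 8), (10, 6), (20, 8), (44, 8), (77, 6)]),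
  (78, 4, [(10, 10), (20, 8), (44, 8), (78, 6)]),
  (79, 4, [(8, 8), (20, 10), (44, 8), (79, 6)]),
  (80, 4, [(8, 8), (16, 8), (34, 8), (80, 8)]),
  (81, 4, [(9, 10), (20, 10), (44, 8), (81, 6)]),
  (82, 5, [(10, 8), (22, 8), (46, 8), (82, 6)]),
  (83, 4, [(10, 10), (21, 8), (36, 6), (83, 8)]),
  (84, 4, [(8, 8), (22, 10), (46, 8), (84, 6)]),
  (85, 4, [(8, 8), (17, 8), (36, 8), (85, 8)]),
  (86, 5, [(9, 8), (22, 10), (46, 8), (86, 6)]),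
  (87, 3, [(8, 10), (22, 10), (48, 8), (87, 6)]),
  (88, 4, [(9, 8), (22, 10), (48, 8), (88, 6)]),
  (89, 4, [(9, 10), (22, 10), (48, 8), (89, 6)]),
  (90, 4, [(9, 8), (22, 10), (50, 8), (90, 6)]),
  (91, 4, [(6, 6), (9, 6), (24, 10), (48, 8), (91, 6)]),
  (92, 4, [(10, 10), (22, 10), (50, 8), (92, 6)]),
  (93, 4, [(9, 10), (22, 10), (52, 8), (93, 6)]),
  (94, 4, [(9, 10), (24, 10), (50, 8), (94, 6)]),
  (95, 4, [(9, 8), (24, 10), (52, 8), (95, 6)]),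
  (96, 4, [(9, 10), (24, 10), (52, 8), (96, 6)]),
  (97, 5, [(10, 8), (24, 10), (52, 8), (97, 6)]),
  (98, 5, [(9, 8), (24, 10), (54, 8), (98, 6)]),
  (99, 5, [(10, 8), (19, 8), (40, 8), (99, 8)]),
  (100, 4, [(10, 10), (24, 10), (54, 8), (100, 6)]),
  (101, 4, [(6, 6), (10, 6), (24, 10), (56, 8), (101, 6)]),
  (102, 5, [(10, 8), (26, 10), (54, 8), (102, 6)]),
  (103, 4, [(6, 6), (9, 6), (26, 10), (56, 8), (103, 6)]),
  (104, 3, [(6, 8), (10, 6), (26, 10), (56, 8), (104, 6)]),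
  (105, 4, [(10, 10), (26, 10), (56, 8), (105, 6)]),
  (106, 5, [(10, 10), (26, 10), (56, 8), (106, 6)]),
  (107, 5, [(10, 8), (20, 8), (44, 8), (107, 8)]),
  (108, 5, [(10, 10), (26, 10), (58, 8), (108, 6)]),
  (109, 5, [(10, 8), (26, 10), (60, 8), (109, 6)]),
  (110, 4, [(10, 10), (26, 10), (60, 8), (110, 6)]),
  (111, 5, [(10, 10), (26, 10), (60, 8), (111, 6)]),
  (112, 4, [(10, 10), (28, 10), (60, 8), (112, 6)]),
  (113, 3, [(10, 12), (28, 10), (60, 8), (113, 6)]),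
  (114, 5, [(10, 8), (28, 10), (62, 8), (114, 6)]),
  (115, 4, [(9, 10), (18, 8), (36, 8), (60, 6), (115, 6)]),
  (116, 3, [(6, 8), (10, 6), (28, 10), (64, 8), (116, 6)]),
  (117, 4, [(10, 10), (28, 10), (64, 8), (117, 6)]),
  (118, 5, [(10, 10), (28, 10), (64, 8), (118, 6)]),
  (119, 3, [(6, 8), (10, 6), (18, 8), (36, 8), (64, 6), (119, 6)]),
  (120, 4, [(8, 8), (28, 12), (64, 8), (120, 6)]),
  (121, 4, [(8, 8), (15, 8), (28, 8), (64, 8), (121, 6)]),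
  (122, 4, [(6, 6), (9, 6), (18, 8), (38, 8), (66, 6), (122, 6)]),
  (123, 4, [(9, 8), (18, 8), (38, 8), (68, 6), (123, 6)]),
  (124, 4, [(6, 6), (10, 6), (19, 8), (38, 8), (66, 6), (124, 6)]),
  (125, 5, [(10, 8), (18, 8), (38, 8), (68, 6), (125, 6)]),
  (126, 3, [(8, 10), (15, 8), (30, 8), (66, 8), (126, 6)]),
  (127, 4, [(10, 10), (19, 8), (38, 8), (68, 6), (127, 6)])]

/-- Table of chains. -/
def bB : List (ℕ × ℕ × List (ℕ × ℕ)) := [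
  (64, 3, [(8, 8), (18, 8), (32, 6), (64, 6)]),
  (65, 4, [(8, 8), (18, 8), (32, 6), (65, 6)]),
  (66, 3, [(8, 8), (18, 8), (34, 6), (66, 6)]),
  (67, 5, [(10, 8), (24, 8), (44, 6), (67, 4)]),
  (68, 4, [(8, 8), (19, 8), (34, 6), (68, 6)]),
  (69, 4, [(8, 6), (19, 8), (36, 6), (69, 6)]),
  (70, 4, [(9, 8), (19, 8), (34, 6), (70, 6)]),
  (71, 3, [(9, 8), (19, 8), (36, 6), (71, 6)]),
  (72, 4, [(9, 8), (19, 8), (36, 6), (72, 6)]),
  (73, 4, [(9, 8), (20, 8), (36, 6), (73, 6)]),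
  (74, 3, [(9, 10), (20, 8), (36, 6), (74, 6)]),
  (75, 3, [(6, 6), (10, 6), (20, 8), (36, 6), (75, 6)]),
  (76, 4, [(9, 8), (20, 8), (38, 6), (76, 6)]),
  (77, 5, [(9, 6), (20, 8), (40, 6), (77, 6)]),
  (78, 4, [(10, 8), (21, 8), (38, 6), (78, 6)]),
  (79, 4, [(9, 8), (21, 8), (40, 6), (79, 6)]),
  (80, 5, [(10, 6), (21, 8), (40, 6), (80, 6)]),
  (81, 5, [(10, 6), (22, 8), (40, 6), (81, 6)]),
  (82, 4, [(10, 8), (22, 8), (40, 6), (82, 6)]),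
  (83, 5, [(10, 8), (22, 8), (40, 6), (83, 6)]),
  (84, 4, [(10, 8), (22, 8), (42, 6), (84, 6)]),
  (85, 5, [(10, 8), (23, 8), (40, 6), (85, 6)]),
  (86, 5, [(10, 8), (22, 8), (42, 6), (86, 6)]),
  (87, 4, [(6, 6), (10, 6), (22, 8), (44, 6), (87, 6)]),
  (88, 4, [(6, 6), (10, 6), (24, 8), (42, 6), (88, 6)]),
  (89, 4, [(10, 8), (24, 8), (44, 6), (89, 6)]),
  (90, 4, [(6, 6), (10, 6), (24, 8), (44, 6), (90, 6)]),
  (91, 5, [(10, 8), (24, 8), (44, 6), (91, 6)]),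
  (92, 3, [(6, 6), (10, 6), (24, 8), (46, 6), (92, 6)]),
  (93, 4, [(6, 6), (10, 6), (30, 10), (60, 6), (93, 4)]),
  (94, 5, [(10, 8), (24, 8), (46, 6), (94, 6)]),
  (95, 4, [(8, 8), (18, 8), (32, 6), (60, 6), (95, 4)]),
  (96, 4, [(8, 8), (24, 10), (46, 6), (96, 6)]),
  (97, 4, [(9, 8), (19, 8), (32, 6), (60, 6), (97, 4)]),
  (98, 3, [(9, 10), (18, 8), (32, 6), (62, 6), (98, 4)]),
  (99, 4, [(9, 8), (18, 8), (32, 6), (64, 6), (99, 4)]),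
  (100, 5, [(9, 6), (19, 8), (32, 6), (64, 6), (100, 4)]),
  (101, 5, [(9, 6), (15, 6), (26, 6), (48, 6), (101, 6)]),
  (102, 4, [(9, 8), (19, 8), (34, 6), (64, 6), (102, 4)]),
  (103, 5, [(9, 6), (26, 10), (48, 6), (103, 6)]),
  (104, 3, [(9, 10), (19, 8), (34, 6), (66, 6), (104, 4)]),
  (105, 4, [(9, 8), (19, 8), (34, 6), (68, 6), (105, 4)]),
  (106, 4, [(9, 8), (26, 10), (50, 6), (106, 6)]),
  (107, 4, [(10, 8), (20, 8), (34, 6), (68, 6), (107, 4)]),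
  (108, 4, [(9, 8), (20, 8), (36, 6), (68, 6), (108, 4)]),
  (109, 3, [(6, 6), (10, 6), (20, 8), (36, 6), (68, 6), (109, 4)]),
  (110, 3, [(9, 10), (20, 8), (36, 6), (70, 6), (110, 4)]),
  (111, 4, [(9, 8), (20, 8), (36, 6), (72, 6), (111, 4)]),
  (112, 4, [(6, 6), (10, 6), (21, 8), (36, 6), (70, 6), (112, 4)]),
  (113, 5, [(10, 8), (20, 8), (36, 6), (72, 6), (113, 4)]),
  (114, 5, [(10, 8), (21, 8), (36, 6), (72, 6), (114, 4)]),
  (115, 3, [(6, 6), (10, 6), (21, 8), (38, 6), (72, 6), (115, 4)]),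
  (116, 5, [(10, 8), (21, 8), (38, 6), (72, 6), (116, 4)]),
  (117, 4, [(9, 8), (21, 8), (38, 6), (76, 6), (117, 4)]),
  (118, 4, [(6, 6), (10, 6), (22, 8), (38, 6), (74, 6), (118, 4)]),
  (119, 5, [(10, 8), (21, 8), (38, 6), (76, 6), (119, 4)]),
  (120, 5, [(10, 8), (22, 8), (38, 6), (76, 6), (120, 4)]),
  (121, 3, [(6, 6), (10, 6), (22, 8), (40, 6), (76, 6), (121, 4)]),
  (122, 4, [(10, 8), (22, 8), (40, 6), (78, 6), (122, 4)]),
  (123, 4, [(8, 8), (17, 8), (40, 8), (76, 6), (123, 4)]),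
  (124, 3, [(6, 6), (10, 6), (22, 8), (40, 6), (80, 6), (124, 4)]),
  (125, 5, [(10, 8), (22, 8), (40, 6), (80, 6), (125, 4)]),
  (126, 5, [(10, 8), (23, 8), (40, 6), (80, 6), (126, 4)]),
  (127, 4, [(8, 8), (22, 10), (40, 6), (80, 6), (127, 4)])]

/-- Table of chains. -/
def bC : List (ℕ × ℕ × List (ℕ × ℕ)) := [
  (64, 4, [(8, 8), (20, 8), (40, 6), (64, 4)]),
  (65, 4, [(9, 8), (20, 8), (40, 6), (65, 4)]),
  (66, 5, [(9, 6), (21, 8), (40, 6), (66, 4)]),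
  (67, 5, [(10, 6), (21, 8), (40, 6), (67, 4)]),
  (68, 5, [(10, 6), (22, 8), (40, 6), (68, 4)]),
  (69, 5, [(9, 6), (16, 6), (32, 6), (69, 6)]),
  (70, 5, [(10, 6), (22, 8), (42, 6), (70, 4)]),
  (71, 5, [(9, 6), (22, 8), (44, 6), (71, 4)]),
  (72, 5, [(10, 6), (22, 8), (44, 6), (72, 4)]),
  (73, 3, [(6, 6), (10, 6), (22, 8), (44, 6), (73, 4)]),
  (74, 5, [(10, 6), (22, 8), (46, 6), (74, 4)]),
  (75, 4, [(10, 8), (24, 8), (44, 6), (75, 4)]),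
  (76, 5, [(10, 6), (24, 8), (46, 6), (76, 4)]),
  (77, 4, [(10, 8), (16, 6), (30, 6), (48, 4), (77, 4)]),
  (78, 5, [(10, 6), (24, 8), (48, 6), (78, 4)]),
  (79, 3, [(6, 6), (10, 6), (24, 8), (48, 6), (79, 4)]),
  (80, 5, [(10, 6), (24, 8), (50, 6), (80, 4)]),
  (81, 5, [(10, 8), (24, 8), (48, 6), (81, 4)]),
  (82, 5, [(10, 8), (24, 8), (50, 6), (82, 4)]),
  (83, 4, [(6, 6), (10, 6), (24, 8), (52, 6), (83, 4)]),
  (84, 5, [(10, 6), (26, 8), (52, 6), (84, 4)]),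
  (85, 3, [(6, 6), (10, 6), (26, 8), (52, 6), (85, 4)]),
  (86, 4, [(10, 8), (18, 6), (34, 6), (54, 4), (86, 4)]),
  (87, 4, [(8, 8), (18, 8), (34, 6), (52, 4), (87, 4)]),
  (88, 3, [(8, 8), (18, 8), (34, 6), (54, 4), (88, 4)]),
  (89, 4, [(10, 8), (18, 6), (36, 6), (56, 4), (89, 4)]),
  (90, 4, [(10, 8), (19, 6), (36, 6), (56, 4), (90, 4)]),
  (91, 5, [(10, 8), (19, 6), (36, 6), (56, 4), (91, 4)]),
  (92, 4, [(8, 6), (19, 8), (36, 6), (56, 4), (92, 4)]),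
  (93, 4, [(8, 8), (19, 8), (36, 6), (56, 4), (93, 4)]),
  (94, 5, [(9, 6), (15, 6), (28, 6), (56, 6), (94, 4)]),
  (95, 5, [(9, 6), (16, 6), (28, 6), (56, 6), (95, 4)]),
  (96, 5, [(9, 6), (15, 6), (28, 6), (58, 6), (96, 4)]),
  (97, 4, [(8, 6), (20, 8), (38, 6), (60, 4), (97, 4)]),
  (98, 4, [(9, 8), (20, 8), (38, 6), (58, 4), (98, 4)]),
  (99, 5, [(9, 6), (20, 8), (38, 6), (60, 4), (99, 4)]),
  (100, 3, [(9, 10), (20, 8), (38, 6), (60, 4), (100, 4)]),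
  (101, 4, [(9, 8), (16, 6), (30, 6), (60, 6), (101, 4)]),
  (102, 5, [(9, 6), (20, 8), (40, 6), (62, 4), (102, 4)]),
  (103, 4, [(10, 8), (17, 6), (30, 6), (60, 6), (103, 4)]),
  (104, 5, [(10, 6), (17, 6), (30, 6), (62, 6), (104, 4)]),
  (105, 4, [(9, 8), (21, 8), (40, 6), (64, 4), (105, 4)]),
  (106, 4, [(10, 8), (21, 8), (40, 6), (64, 4), (106, 4)]),
  (107, 5, [(10, 6), (22, 8), (40, 6), (64, 4), (107, 4)]),
  (108, 5, [(10, 6), (17, 6), (32, 6), (64, 6), (108, 4)]),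
  (109, 4, [(10, 8), (22, 8), (42, 6), (64, 4), (109, 4)]),
  (110, 4, [(10, 8), (17, 6), (32, 6), (66, 6), (110, 4)]),
  (111, 5, [(10, 6), (22, 8), (42, 6), (68, 4), (111, 4)]),
  (112, 3, [(6, 6), (10, 6), (22, 8), (42, 6), (68, 4), (112, 4)]),
  (113, 5, [(10, 6), (22, 8), (44, 6), (68, 4), (113, 4)]),
  (114, 5, [(10, 6), (22, 8), (44, 6), (70, 4), (114, 4)]),
  (115, 3, [(6, 6), (10, 6), (18, 6), (34, 6), (68, 6), (115, 4)]),
  (116, 5, [(10, 6), (18, 6), (34, 6), (70, 6), (116, 4)]),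
  (117, 4, [(8, 8), (18, 8), (34, 6), (68, 6), (117, 4)]),
  (118, 4, [(6, 6), (10, 6), (24, 8), (44, 6), (70, 4), (118, 4)]),
  (119, 4, [(6, 6), (10, 6), (18, 6), (34, 6), (72, 6), (119, 4)]),
  (120, 4, [(10, 8), (24, 8), (46, 6), (72, 4), (120, 4)]),
  (121, 4, [(6, 6), (10, 6), (24, 8), (46, 6), (72, 4), (121, 4)]),
  (122, 4, [(6, 6), (10, 6), (24, 8), (46, 6), (74, 4), (122, 4)]),
  (123, 4, [(9, 8), (19, 8), (34, 6), (72, 6), (123, 4)]),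
  (124, 5, [(10, 6), (24, 8), (48, 6), (76, 4), (124, 4)]),
  (125, 4, [(6, 6), (10, 6), (24, 8), (48, 6), (76, 4), (125, 4)]),
  (126, 5, [(10, 8), (24, 8), (48, 6), (76, 4), (126, 4)]),
  (127, 3, [(8, 8), (19, 8), (36, 6), (76, 6), (127, 4)])]

theorem bA_ok : bA.all (fun r => okC r.1 r.2.1 r.2.2 100930000 926100 (13 * r.1) (14 * r.1)) = true := by
  decide +kernel

theorem bB_ok : bB.all (fun r => okU r.1 r.2.1 r.2.2 111275000 (560 * r.1 / 49)) = true := by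
  decide +kernel

theorem bC_ok : bC.all (fun r => okU r.1 r.2.1 r.2.2 118429000 (516 * r.1 / 49)) = true := by
  decide +kernel

theorem bA_mem : (List.range' 64 64).all (fun al => bA.any (fun r => r.1 == al)) = true := by
  decide +kernel

theorem bB_mem : (List.range' 64 64).all (fun al => bB.any (fun r => r.1 == al)) = true := by
  decide +kernel

theorem bC_mem : (List.range' 64 64).all (fun al => bC.any (fun r => r.1 == al)) = true := by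
  decide +kernel

theorem mem_of_all {T : List (ℕ × ℕ × List (ℕ × ℕ))}
    (h : (List.range' 64 64).all (fun al => T.any (fun r => r.1 == al)) = true) {al : ℕ} (h1 : 64 ≤ al)
    (h2 : al < 128) : ∃ r ∈ T, r.1 = al := by
  rw [List.all_eq_true] at h
  have := h al (by rw [List.mem_range'_1]; omega)
  rw [List.any_eq_true] at this
  obtain ⟨r, hr, h3⟩ := this
  exact ⟨r, hr, by simpa using h3⟩

theorem baseA {al : ℕ} (h1 : 64 ≤ al) (h2 : al < 128) :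
    CHR al (1.0093 : ℝ) (0.009261 : ℝ) (13 * al) (14 * al) := by
  obtain ⟨r, hr, rfl⟩ := mem_of_all bA_mem h1 h2
  have h := bA_ok
  rw [List.all_eq_true] at h
  have := okC_sound (h r hr)
  intro N lo X
  refine (this N lo X).mono Pr_prime ?_ ?_ le_rfl le_rfl
  · unfold SC; norm_num
  · unfold SC; norm_num

theorem baseB {al : ℕ} (h1 : 64 ≤ al) (h2 : al < 128) : UP al 111275000 (560 * al / 49) := by
  obtain ⟨r, hr, rfl⟩ := mem_of_all bB_mem h1 h2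
  have h := bB_ok
  rw [List.all_eq_true] at h
  exact okU_sound (h r hr)

theorem baseC {al : ℕ} (h1 : 64 ≤ al) (h2 : al < 128) : UP al 118429000 (516 * al / 49) := by
  obtain ⟨r, hr, rfl⟩ := mem_of_all bC_mem h1 h2
  have h := bC_ok
  rw [List.all_eq_true] at h
  exact okU_sound (h r hr)

end Pool.Agent.H91.Gold
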