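import Mathlib
import Pool.Agent.H91.GoldBase

/-!
Chains with a tiny truncation error for all large parameters.
-/

namespace Pool.Agent.H91.Gold

open Finset

/-- Table of chains with tiny truncation error. -/
def bT : List (ℕ × ℕ × List (ℕ × ℕ)) := [
  (64, 5, [(8, 10), (21, 16), (64, 16)]),
  (65, 5, [(8, 10), (22, 16), (65, 16)]),
  (66, 5, [(8, 10), (22, 16), (66, 16)]),
  (67, 5, [(10, 12), (28, 16), (67, 14)]),
  (68, 5, [(9, 12), (24, 16), (68, 16)]),
  (69, 5, [(9, 12), (24, 16), (69, 16)]),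
  (70, 5, [(9, 12), (24, 16), (70, 16)]),
  (71, 3, [(10, 16), (25, 16), (71, 16)]),
  (72, 5, [(9, 12), (24, 16), (72, 16)]),
  (73, 5, [(9, 12), (24, 16), (73, 16)]),
  (74, 5, [(9, 12), (25, 16), (74, 16)]),
  (75, 5, [(9, 12), (25, 16), (75, 16)]),
  (76, 5, [(9, 12), (25, 16), (76, 16)]),
  (77, 5, [(9, 12), (25, 16), (77, 16)]),
  (78, 5, [(10, 12), (26, 16), (78, 16)]),
  (79, 5, [(9, 12), (26, 16), (79, 16)]),
  (80, 5, [(10, 12), (26, 16), (80, 16)]),
  (81, 5, [(10, 12), (27, 16), (81, 16)]),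
  (82, 5, [(10, 12), (27, 16), (82, 16)]),
  (83, 5, [(10, 12), (27, 16), (83, 16)]),
  (84, 5, [(10, 12), (28, 16), (84, 16)]),
  (85, 5, [(10, 12), (28, 16), (85, 16)]),
  (86, 5, [(10, 12), (28, 16), (86, 16)]),
  (87, 5, [(9, 12), (29, 18), (87, 16)]),
  (88, 5, [(9, 12), (29, 18), (88, 16)]),
  (89, 5, [(9, 12), (29, 18), (89, 16)]),
  (90, 3, [(10, 16), (31, 18), (90, 16)]),
  (91, 3, [(10, 16), (31, 18), (91, 16)]),
  (92, 3, [(10, 16), (32, 18), (92, 16)]),
  (93, 5, [(10, 12), (31, 18), (93, 16)]),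
  (94, 5, [(10, 12), (31, 18), (94, 16)]),
  (95, 5, [(10, 12), (31, 18), (95, 16)]),
  (96, 5, [(10, 12), (32, 18), (96, 16)]),
  (97, 5, [(10, 12), (32, 18), (97, 16)]),
  (98, 5, [(10, 12), (32, 18), (98, 16)]),
  (99, 5, [(13, 16), (33, 16), (99, 16)]),
  (100, 5, [(13, 16), (33, 16), (100, 16)]),
  (101, 5, [(6, 8), (16, 16), (42, 16), (101, 14)]),
  (102, 5, [(6, 8), (16, 16), (42, 16), (102, 14)]),
  (103, 5, [(6, 8), (16, 16), (42, 16), (103, 14)]),
  (104, 5, [(6, 8), (16, 16), (43, 16), (104, 14)]),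
  (105, 5, [(6, 8), (16, 16), (43, 16), (105, 14)]),
  (106, 5, [(6, 8), (16, 16), (43, 16), (106, 14)]),
  (107, 5, [(11, 14), (35, 18), (107, 16)]),
  (108, 5, [(6, 8), (16, 16), (44, 16), (108, 14)]),
  (109, 5, [(6, 8), (16, 16), (44, 16), (109, 14)]),
  (110, 5, [(6, 8), (16, 16), (36, 14), (110, 16)]),
  (111, 7, [(18, 16), (48, 16), (111, 14)]),
  (112, 5, [(6, 8), (16, 16), (46, 16), (112, 14)]),
  (113, 5, [(17, 18), (37, 14), (113, 16)]),
  (114, 5, [(6, 8), (15, 16), (39, 16), (114, 16)]),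
  (115, 5, [(6, 8), (15, 16), (38, 16), (115, 16)]),
  (116, 5, [(6, 8), (15, 16), (39, 16), (116, 16)]),
  (117, 5, [(17, 18), (48, 16), (117, 14)]),
  (118, 5, [(6, 8), (15, 16), (39, 16), (118, 16)]),
  (119, 5, [(6, 8), (15, 16), (39, 16), (119, 16)]),
  (120, 5, [(17, 18), (48, 16), (120, 14)]),
  (121, 5, [(6, 8), (15, 16), (40, 16), (121, 16)]),
  (122, 5, [(6, 8), (15, 16), (40, 16), (122, 16)]),
  (123, 7, [(18, 16), (51, 16), (123, 14)]),
  (124, 5, [(6, 8), (16, 16), (41, 16), (124, 16)]),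
  (125, 5, [(6, 8), (16, 16), (42, 16), (125, 16)]),
  (126, 5, [(6, 8), (16, 16), (42, 16), (126, 16)]),
  (127, 5, [(6, 8), (16, 16), (42, 16), (127, 16)])]

theorem bT_ok : bT.all (fun r => okC r.1 r.2.1 r.2.2 100000015 15 (28 * r.1) (29 * r.1)) = true := by
  decide +kernel

theorem bT_mem : (List.range' 64 64).all (fun al => bT.any (fun r => r.1 == al)) = true := by
  decide +kernel

theorem baseT {al : ℕ} (h1 : 64 ≤ al) (h2 : al < 128) :
    CHR al (1.00000015 : ℝ) (0.00000015 : ℝ) (28 * al) (29 * al) := by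
  obtain ⟨r, hr, rfl⟩ := mem_of_all bT_mem h1 h2
  have h := bT_ok
  rw [List.all_eq_true] at h
  have := okC_sound (h r hr)
  intro N lo X
  refine (this N lo X).mono Pr_prime ?_ ?_ le_rfl le_rfl
  · unfold SC; norm_num
  · unfold SC; norm_num

/-- The family of chains of `CHR_family`, with a base of higher quality, for `n ≥ 5`. -/
theorem CHR_family5 {Fb Gb : ℝ} (hFb : 0 ≤ Fb)
    (hbase : ∀ al, 64 ≤ al → al < 128 → CHR al Fb Gb (28 * al) (29 * al)) (al : ℕ) :
    64 ≤ al → ∀ n, 5 ≤ n →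
      CHR al (Fb * Real.exp (tau n)) (Gb + tau n) (DD n * al) (DD n * al + al) := by
  induction al using Nat.strong_induction_on with
  | _ al ih =>
    intro hal n hn
    have hDn : 28 ≤ DD n := by
      unfold DD
      rw [if_neg (by omega), if_neg (by omega), if_neg (by omega)]
      omega
    rcases lt_or_ge al 128 with h | h
    · refine (hbase al hal h).mono ?_ ?_ ?_ ?_
      · exact le_mul_of_one_le_right hFb (Real.one_le_exp (tau_nonneg n))
      · have := tau_nonneg n; linarith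
      · exact Nat.mul_le_mul_right _ hDn
      · have := Nat.mul_le_mul_right al hDn
        omega
    · have hc : 64 ≤ al / 2 := by omega
      have h1 := ih (al / 2) (by omega) hc (n + 1) (by omega)
      obtain ⟨b1, b2⟩ := halve_blk (c := al / 2) (k := al) hc (by omega) (by omega)
      have hεb : (2 * 0.72596 : ℝ) ^ ((2 * n + 2) + 1) / (((2 * n + 2) + 1).factorial : ℝ) * 4.2712
          ≤ eE n := by
        unfold eE
        norm_num
      have h2 := CHR.step (c := al / 2) (k := al) (b := 2 * n + 2) (ε := eE n) (by omega) (by omega)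
        (by omega) (by
          rw [show 2 * n + 2 = 2 * (n + 1) by ring]
          exact even_two_mul _) (by omega) b1 b2 hεb h1
      have hpos := eE_pos n
      have hts := tau_step n
      rw [max_eq_left (by omega : 2 ≤ n)] at hts
      have hD := DD_step n
      rw [max_eq_left (by omega : 2 ≤ n)] at hD
      refine h2.mono ?_ ?_ ?_ ?_
      · rw [mul_assoc]
        apply mul_le_mul_of_nonneg_left _ hFb
        calc Real.exp (tau (n + 1)) * (1 + eE n)
            ≤ Real.exp (tau (n + 1)) * Real.exp (eE n) := by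
              apply mul_le_mul_of_nonneg_left _ (Real.exp_pos _).le
              have := Real.add_one_le_exp (eE n)
              linarith
          _ = Real.exp (tau (n + 1) + eE n) := by rw [Real.exp_add]
          _ ≤ _ := Real.exp_le_exp.2 hts
      · linarith
      · have : DD (n + 1) * (2 * (al / 2)) ≤ DD (n + 1) * al := Nat.mul_le_mul_left _ (by omega)
        nlinarith
      · have : DD (n + 1) * (2 * (al / 2)) ≤ DD (n + 1) * al := Nat.mul_le_mul_left _ (by omega)
        nlinarith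

theorem tau_five : tau 5 ≤ 0.00000018 := by
  unfold tau eE
  norm_num [Nat.factorial]

/-- Chains for all large parameters, with a truncation error of `4·10^(-7)`. -/
theorem tail28s {al : ℕ} (h : 64 ≤ al) : CHR al (1.0000004 : ℝ) (0.0000004 : ℝ) (28 * al) (29 * al) := by
  have h1 := CHR_family5 (Fb := 1.00000015) (Gb := 0.00000015) (by norm_num)
    (fun al h1 h2 => baseT h1 h2) al h 5 le_rfl
  have hD : DD 5 = 28 := rfl
  rw [hD] at h1
  have ht := tau_five
  have ht0 := tau_nonneg 5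
  refine h1.mono ?_ ?_ le_rfl (by omega)
  · have he : Real.exp (tau 5) ≤ 1 + tau 5 + tau 5 ^ 2 / 2 + tau 5 ^ 3 / 4 :=
      exp_le_poly ht0 (by linarith)
    have h2 : tau 5 ^ 2 ≤ tau 5 * 0.00000018 := by
      rw [sq]; exact mul_le_mul_of_nonneg_left ht ht0
    have h3 : tau 5 ^ 3 ≤ tau 5 * 0.00000018 := by
      have : tau 5 ^ 3 = tau 5 * (tau 5 * tau 5) := by ring
      rw [this]
      apply mul_le_mul_of_nonneg_left _ ht0
      calc tau 5 * tau 5 ≤ 0.00000018 * 1 := mul_le_mul ht (by linarith) ht0 (by norm_num)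
        _ = 0.00000018 := mul_one _
    linarith
  · linarith

theorem tail28 {al : ℕ} (h : 64 ≤ al) : CHR al (1.000001 : ℝ) (0.000001 : ℝ) (28 * al) (29 * al) :=
  (tail28s h).mono (by norm_num) (by norm_num) le_rfl le_rfl

end Pool.Agent.H91.Gold
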