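import Mathlib
import Pool.Agent.H91.G5Blk

/-!
Base tables and the step theorem of the second stage.
-/

namespace Pool.Agent.H91.Gold

open Finset

/-- `2 * 3 ^ (n - 1)`. -/
def exN (n : ℕ) : ℕ := if n = 0 then 1 else 2 * 3 ^ (n - 1)

theorem exN_mono {m n : ℕ} (h : m ≤ n) : exN m ≤ exN n := by
  unfold exN
  split_ifs with h1 h2 h2
  · exact le_rfl
  · have : 0 < 3 ^ (n - 1) := by positivity
    omega
  · omega
  · have : 3 ^ (m - 1) ≤ 3 ^ (n - 1) := Nat.pow_le_pow_right (by norm_num) (by omega)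
    omega

theorem Bh_zero (h : ℕ) : Bh 0 h = Sh h := by
  unfold Bh Sh
  have : zc 0 = 1 := zc_even 0
  rw [this]

theorem prod_rho_card (h : ℕ) : ∏ p ∈ Sh h, (1 + rho p) ≤ (exN (Sh h).card : ℝ) := by
  rcases Nat.lt_or_ge (zc h) 2 with h1 | h1
  · have : Sh h = ∅ := by
      unfold Sh
      ext p
      simp only [mem_Pr, notMem_empty, iff_false]
      intro hp
      omega
    rw [this]
    simp [exN]
  · have h2 : 2 ∈ Sh h := mem_Pr.2 ⟨⟨by norm_num, h1⟩, Nat.prime_two⟩
    have hc : 0 < (Sh h).card := card_pos.2 ⟨2, h2⟩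
    rw [← mul_prod_erase _ _ h2]
    have e1 : ∏ p ∈ (Sh h).erase 2, (1 + rho p) = 3 ^ ((Sh h).card - 1) := by
      rw [← card_erase_of_mem h2, ← prod_const]
      apply prod_congr rfl
      intro p hp
      have : p ≠ 2 := (mem_erase.1 hp).1
      unfold rho
      rw [if_neg this]
      norm_num
    have r2 : rho 2 = 1 := by unfold rho; norm_num
    rw [e1, r2]
    unfold exN
    rw [if_neg hc.ne']
    push_cast
    norm_num

theorem prod_rho_le {h : ℕ} (hh : h ≤ 32) : ∏ p ∈ Sh h, (1 + rho p) ≤ (exN (sumR nH 0 h) : ℝ) := by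
  refine (prod_rho_card h).trans ?_
  have h1 := card_small h 0 (by omega)
  rw [zero_add, Bh_zero] at h1
  exact_mod_cast exN_mono h1

/-- Check of the entry `B` of the tables of a base level. -/
def baseRow (h TG TH B : ℕ) : Bool :=
  (SD ≤ look TG B || exN (sumR nH 0 h) ≤ 2 ^ B) &&
    (List.range (h + 1)).any (fun a => exN (sumR nH 0 a) ≤ 2 ^ B && vpr a (h - a) ≤ SD + look TH B)

theorem LOK_base {h bm TG TH : ℕ} (hh : h ≤ 32)
    (hc : (List.range (bm + 1)).all (fun B => baseRow h TG TH B) = true) : LOK h bm TG TH := by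
  intro B hB N lo X
  have hD := SD_pos
  rw [List.all_eq_true] at hc
  have hr := hc B (List.mem_range.2 (by omega))
  unfold baseRow at hr
  simp only [Bool.and_eq_true, Bool.or_eq_true, decide_eq_true_eq, List.any_eq_true] at hr
  obtain ⟨hG, a, ha, ha1, ha2⟩ := hr
  have hS : ∀ p ∈ Sh h, p.Prime := Pr_prime
  constructor
  · rcases hG with hG | hG
    · apply Nd_trivial N lo X (by decide) hS (by positivity)
      rw [le_div_iff₀ hD, one_mul]
      exact_mod_cast hG
    · have h1 : ∏ p ∈ Sh h, (1 + rho p) ≤ (2 : ℝ) ^ B :=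
        (prod_rho_le hh).trans (by exact_mod_cast hG)
      exact (Nd_exact N lo X 1 hS h1).mono hS le_rfl (by positivity)
  · have hah : a ≤ h := by
      have := List.mem_range.1 ha
      omega
    have hSa : ∀ p ∈ Sh a, p.Prime := Pr_prime
    have h1 : ∏ p ∈ Sh a, (1 + rho p) ≤ (2 : ℝ) ^ B :=
      (prod_rho_le (hah.trans hh)).trans (by exact_mod_cast ha1)
    have h2 := Nd_exact N lo X 0 hSa h1
    have hv := vpr_le (h - a) a (by omega)
    rw [show a + (h - a) = h by omega] at hv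
    rw [← Sh_union hah]
    refine h2.skip (by decide) hSa Pr_prime Sh_disjoint hv (by norm_num) ?_
    rw [add_zero, one_mul]
    have h3 : ((vpr a (h - a) : ℕ) : ℝ) ≤ ((SD + look TH B : ℕ) : ℝ) := by exact_mod_cast ha2
    calc ((vpr a (h - a) : ℕ) : ℝ) / SD ≤ ((SD + look TH B : ℕ) : ℝ) / SD := div_le_div_of_nonneg_right h3 hD.le
      _ = 1 + (look TH B : ℝ) / SD := by push_cast; field_simp

/-- Check of the rows `a ≤ B < a + n`. -/
def rowsN (v TG TH bm CG CH : ℕ) (l : List (ℕ × ℕ × ℕ)) (a : ℕ) : ℕ → Bool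
  | 0 => true
  | n + 1 => rowOK2 v TG TH bm CG CH l (a + n) && rowsN v TG TH bm CG CH l a n

theorem rowsN_mem {v TG TH bm CG CH : ℕ} {l : List (ℕ × ℕ × ℕ)} {a : ℕ} (n : ℕ)
    (h : rowsN v TG TH bm CG CH l a n = true) : ∀ B, a ≤ B → B < a + n →
      rowOK2 v TG TH bm CG CH l B = true := by
  induction n with
  | zero => intro B h1 h2; omega
  | succ n ih =>
    intro B h1 h2
    unfold rowsN at h
    rw [Bool.and_eq_true] at h
    rcases Nat.lt_or_ge B (a + n) with h3 | h3
    · exact ih h.2 B h1 h3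
    · have : B = a + n := by omega
      rw [this]; exact h.1

/-- One step of the construction of the tables. -/
theorem LOK_step {h1 h2 K bm1 bm2 TG TH CG CH v : ℕ} {l : List (ℕ × ℕ × ℕ)}
    (hT : LOK h1 bm1 TG TH) (h2' : 2 ≤ h1) (h12 : h1 ≤ h2) (ho : okh h1 = true)
    (hl : tri h1 h2 K = l) (hv : vinB h1 h2 = v)
    (hrow : ∀ B, B ≤ bm2 → rowOK2 v TG TH bm1 CG CH l B = true) : LOK h2 bm2 CG CH := by
  intro B hB N lo X
  have hM := tri_sound (K := K) h2' h12 ho
  rw [hl] at hM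
  have hv' := vinB_le h12 ho
  rw [hv] at hv'
  have hv0 : 0 < v := by
    by_contra hcon
    have : v = 0 := by omega
    subst this
    simp at hv'
    linarith
  exact rowOK2_sound h12 hT hM hv0 hv' (hrow B hB) N lo X

theorem Sh_vin {h : ℕ} : (1 : ℝ) ≤ (vinB 0 h : ℝ) / SD * VV (Sh h) := by
  rw [← Bh_zero]
  exact vinB_le (Nat.zero_le h) (by decide)

end Pool.Agent.H91.Gold
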