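import Mathlib
import Pool.Agent.H91.G5Base

/-!
Blocks of primes with real end points.
-/

namespace Pool.Agent.H91.Gold

open Finset

/-- The integer part of `2 ^ c`. -/
noncomputable def zr (c : ℝ) : ℕ := ⌊(2 : ℝ) ^ c⌋₊

theorem zr_le (c : ℝ) : (zr c : ℝ) ≤ (2 : ℝ) ^ c := Nat.floor_le (by positivity)

theorem lt_zr (c : ℝ) : (2 : ℝ) ^ c < zr c + 1 := Nat.lt_floor_add_one _

theorem zr_mono {a b : ℝ} (h : a ≤ b) : zr a ≤ zr b :=
  Nat.floor_le_floor (Real.rpow_le_rpow_of_exponent_le (by norm_num) h)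

theorem zr_nat (n : ℕ) : zr n = 2 ^ n := by
  unfold zr
  rw [Real.rpow_natCast]
  have : ((2 : ℝ) ^ n) = ((2 ^ n : ℕ) : ℝ) := by push_cast; rfl
  rw [this, Nat.floor_natCast]

theorem zr_ge {c : ℝ} {n : ℕ} (h : (n : ℝ) ≤ c) : 2 ^ n ≤ zr c := by
  rw [← zr_nat]; exact zr_mono h

theorem zr_ge128 {c : ℝ} (h : 128 ≤ c) : 2 ^ 128 ≤ zr c := zr_ge (by exact_mod_cast h)

theorem log_zr_le {c : ℝ} (h : 0 ≤ c) : Real.log (zr c) ≤ c * Real.log 2 := by
  have h1 : 1 ≤ zr c := by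
    have := zr_ge (c := c) (n := 0) (by simpa using h)
    simpa using this
  have h2 : (0 : ℝ) < zr c := by exact_mod_cast h1
  have h3 := Real.log_le_log h2 (zr_le c)
  rwa [Real.log_rpow (by norm_num)] at h3

theorem log_zr_ge {c : ℝ} (h : 128 ≤ c) : c * Real.log 2 - 1 / 2 ^ 128 ≤ Real.log (zr c) := by
  have h1 := zr_ge128 h
  have h2 : (2 : ℝ) ^ 128 ≤ zr c := by exact_mod_cast h1
  have hz : (0 : ℝ) < zr c := lt_of_lt_of_le (by positivity) h2
  have hp : (0 : ℝ) < (2 : ℝ) ^ c := by positivity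
  have h3 := Real.log_le_sub_one_of_pos (x := (2 : ℝ) ^ c / zr c) (by positivity)
  rw [Real.log_div hp.ne' hz.ne', Real.log_rpow (by norm_num)] at h3
  have h4 : (2 : ℝ) ^ c / zr c - 1 ≤ 1 / 2 ^ 128 := by
    rw [sub_le_iff_le_add, div_le_iff₀ hz]
    have h5 := lt_zr c
    have h6 : 1 ≤ 1 / 2 ^ 128 * (zr c : ℝ) := by
      rw [one_div, inv_mul_eq_div, le_div_iff₀ (by positivity)]
      linarith
    linarith
  linarith

/-- Mertens bound for real end points. -/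
theorem mass_real {a b : ℝ} (ha : 128 ≤ a) (hab : a ≤ b) :
    ∑ p ∈ Pr (zr a) (zr b), (1 : ℝ) / p ≤ Real.log (b / a) + 0.002588 := by
  have h1 := zr_ge128 ha
  have h65 : 65536 ≤ zr a := le_trans (by norm_num) h1
  have hm := mertens_wz h65 (zr_mono hab)
  have l2 := Real.log_two_gt_d9
  have l20 : 0 < Real.log 2 := by linarith
  have ha0 : 0 < a := by linarith
  have hb0 : 0 < b := by linarith
  have e1 := log_zr_ge ha
  have e2 := log_zr_le (c := b) (by linarith)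
  have e3 : (1 : ℝ) / 2 ^ 128 ≤ 1 / 10 ^ 9 := by
    apply one_div_le_one_div_of_le (by norm_num) (by norm_num)
  have e4 : 88.7 < Real.log (zr a) := by nlinarith
  have hla : 0 < Real.log (zr a) := by linarith
  have hlb : 0 < Real.log (zr b) := by
    have : Real.log (zr a) ≤ Real.log (zr b) := by
      apply Real.log_le_log
      · exact_mod_cast (by omega : 0 < zr a)
      · exact_mod_cast zr_mono hab
    linarith
  have h2 : Real.log (Real.log (zr b) / Real.log (zr a)) ≤ Real.log (b / a) + 1 / 10 ^ 9 := by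
    rw [Real.log_div hlb.ne' hla.ne', Real.log_div hb0.ne' ha0.ne']
    have h3 : Real.log (Real.log (zr b)) ≤ Real.log b + Real.log (Real.log 2) := by
      rw [← Real.log_mul hb0.ne' l20.ne']
      exact Real.log_le_log hlb e2
    have h4 : Real.log a + Real.log (Real.log 2) - 1 / 10 ^ 9 ≤ Real.log (Real.log (zr a)) := by
      rw [← Real.log_mul ha0.ne' l20.ne']
      have h5 := Real.log_le_sub_one_of_pos (x := a * Real.log 2 / Real.log (zr a)) (by positivity)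
      rw [Real.log_div (by positivity) hla.ne'] at h5
      have h6 : a * Real.log 2 / Real.log (zr a) - 1 ≤ 1 / 10 ^ 9 := by
        rw [sub_le_iff_le_add, div_le_iff₀ hla]
        nlinarith
      linarith
    linarith
  have h7 : 0.2295 / Real.log (zr a) ≤ 0.0025879 := by
    rw [div_le_iff₀ hla]
    nlinarith
  have h8 : (1 : ℝ) / 10 ^ 9 ≤ 0.0000001 := by norm_num
  linarith

/-- Number of primes up to a real power of two. -/
theorem card_real {b : ℝ} (hb : 128 ≤ b) (x : ℕ) (hx : 1 ≤ x) :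
    ((Pr x (zr b)).card : ℝ) ≤ 4.5 / b * (2 : ℝ) ^ b := by
  set k := ⌈b⌉₊ with hk
  have hbk : b ≤ k := Nat.le_ceil b
  have hkb : (k : ℝ) < b + 1 := Nat.ceil_lt_add_one (by linarith)
  have hk16 : 16 ≤ k := by
    have : (16 : ℝ) ≤ k := by linarith
    exact_mod_cast this
  have h1 := card_pow_Pr hk16
  have h2 : (Pr x (zr b)).card ≤ (Pr 1 (2 ^ k)).card := by
    apply card_le_card
    intro p hp
    rw [mem_Pr] at hp ⊢
    have : zr b ≤ 2 ^ k := by rw [← zr_nat]; exact zr_mono hbk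
    exact ⟨⟨by omega, by omega⟩, hp.2⟩
  have h3 : (4 : ℝ) * k * ((Pr x (zr b)).card : ℝ) ≤ 9 * 2 ^ k := by
    have h4 : (4 : ℝ) * k * ((Pr 1 (2 ^ k)).card : ℝ) ≤ 9 * 2 ^ k := by exact_mod_cast h1
    have h5 : ((Pr x (zr b)).card : ℝ) ≤ ((Pr 1 (2 ^ k)).card : ℝ) := by exact_mod_cast h2
    have h6 : (0 : ℝ) ≤ 4 * k := by positivity
    nlinarith
  have hb0 : 0 < b := by linarith
  have h4 : (2 : ℝ) ^ k ≤ 2 * (2 : ℝ) ^ b := by
    have : (2 : ℝ) ^ (k : ℝ) ≤ (2 : ℝ) ^ (b + 1) :=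
      Real.rpow_le_rpow_of_exponent_le (by norm_num) hkb.le
    rw [Real.rpow_natCast, Real.rpow_add (by norm_num), Real.rpow_one] at this
    linarith
  rw [div_mul_eq_mul_div, le_div_iff₀ hb0]
  have hc0 : (0 : ℝ) ≤ ((Pr x (zr b)).card : ℝ) := Nat.cast_nonneg _
  nlinarith

/-- Lower bound of the density of a set of primes. -/
theorem VV_gen {B : Finset ℕ} (h5 : ∀ p ∈ B, 1024 ≤ p) {m q : ℝ}
    (hm : ∑ p ∈ B, (1 : ℝ) / p ≤ m) (hq : ∑ p ∈ B, (1 : ℝ) / (p ^ 2 : ℕ) ≤ q) :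
    (1 : ℝ) ≤ Real.exp (2 * m + 8 * q) * VV B := by
  have hpB : ∀ p ∈ B, (1024 : ℝ) ≤ p := by
    intro p hp
    exact_mod_cast h5 p hp
  have hgp : ∀ p ∈ B, g p = 2 * (1 / (p : ℝ)) := by
    intro p hp
    have h2 : p ≠ 2 := by
      have := h5 p hp
      omega
    rw [g_odd h2]; ring
  have h2 : Real.exp (-(2 * m + 8 * q)) ≤ VV B := by
    have e1 : ∏ p ∈ B, Real.exp (-(g p + 2 * g p ^ 2)) ≤ VV B := by
      unfold VV
      apply prod_le_prod
      · intro p _; exact (Real.exp_pos _).le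
      · intro p hp
        apply one_sub_ge (g_nonneg p)
        rw [hgp p hp]
        have := hpB p hp
        have hp0 : (0 : ℝ) < p := by linarith
        rw [mul_one_div, div_le_div_iff₀ hp0 (by norm_num)]
        linarith
    refine le_trans ?_ e1
    rw [← Real.exp_sum]
    apply Real.exp_le_exp.2
    rw [sum_neg_distrib]
    apply neg_le_neg
    have e2 : ∑ p ∈ B, (g p + 2 * g p ^ 2)
        = 2 * (∑ p ∈ B, (1 : ℝ) / p) + 8 * ∑ p ∈ B, (1 : ℝ) / (p ^ 2 : ℕ) := by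
      rw [mul_sum, mul_sum, ← sum_add_distrib]
      apply sum_congr rfl
      intro p hp
      rw [hgp p hp]
      have := hpB p hp
      have hp0 : (0 : ℝ) < p := by linarith
      push_cast
      field_simp
      ring
    rw [e2]
    linarith
  have h3 : (1 : ℝ) = Real.exp (2 * m + 8 * q) * Real.exp (-(2 * m + 8 * q)) := by
    rw [← Real.exp_add]; simp
  calc (1 : ℝ) = Real.exp (2 * m + 8 * q) * Real.exp (-(2 * m + 8 * q)) := h3
    _ ≤ _ := mul_le_mul_of_nonneg_left h2 (Real.exp_pos _).le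

/-- Sum of `1/p^2` over primes above `x ≥ 2`. -/
theorem sq_sum_le {x : ℕ} (hx : 2 ≤ x) (y : ℕ) :
    ∑ p ∈ Pr x y, (1 : ℝ) / (p ^ 2 : ℕ) ≤ 1 / (x : ℝ) := by
  have key : ∀ n : ℕ, ∑ p ∈ Ioc x (x + n), (1 : ℝ) / (p ^ 2 : ℕ) ≤ 1 / (x : ℝ) - 1 / ((x + n : ℕ) : ℝ) := by
    intro n
    induction n with
    | zero => simp
    | succ n ih =>
      rw [← add_assoc, sum_Ioc_succ_top (by omega : x ≤ x + n)]
      have hx0 : (0 : ℝ) < ((x + n : ℕ) : ℝ) := by exact_mod_cast (by omega : 0 < x + n)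
      have e1 : ((x + n + 1 : ℕ) : ℝ) = ((x + n : ℕ) : ℝ) + 1 := by push_cast; ring
      have e2 : (((x + n + 1) ^ 2 : ℕ) : ℝ) = (((x + n : ℕ) : ℝ) + 1) ^ 2 := by push_cast; ring
      rw [e1, e2]
      set t := ((x + n : ℕ) : ℝ)
      have e3 : (1 : ℝ) / (t + 1) ^ 2 ≤ 1 / t - 1 / (t + 1) := by
        have : 1 / t - 1 / (t + 1) = 1 / (t * (t + 1)) := by field_simp; ring
        rw [this]
        apply one_div_le_one_div_of_le (by positivity)
        nlinarith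
      linarith
  rcases le_or_gt y x with h | h
  · have : Pr x y = ∅ := by
      ext p
      simp only [mem_Pr, notMem_empty, iff_false]
      intro hp
      omega
    rw [this, sum_empty]
    positivity
  · have h1 : ∑ p ∈ Pr x y, (1 : ℝ) / (p ^ 2 : ℕ) ≤ ∑ p ∈ Ioc x y, (1 : ℝ) / (p ^ 2 : ℕ) :=
      sum_le_sum_of_subset_of_nonneg (filter_subset _ _) (fun _ _ _ => by positivity)
    have h2 := key (y - x)
    rw [show x + (y - x) = y by omega] at h2
    have h3 : (0 : ℝ) ≤ 1 / (y : ℝ) := by positivity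
    linarith

/-- Lower bound of the density at a real level. -/
theorem VV_real {c : ℝ} (hc : 128 ≤ c) : (1 : ℝ) ≤ 1.21 * c ^ 2 * VV (Pr 1 (zr c)) := by
  have hS := SD_pos
  have h16 : 2 ^ 16 ≤ zr c := zr_ge (by push_cast; linarith)
  have hsplit : VV (Pr 1 (zr c)) = VV (Pr 1 (2 ^ 16)) * VV (Pr (2 ^ 16) (zr c)) :=
    VV_Pr_split (by norm_num) h16
  have h1 : (1 : ℝ) ≤ (vinB 0 32 : ℝ) / SD * VV (Pr 1 (2 ^ 16)) := by
    have := Sh_vin (h := 32)
    unfold Sh at this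
    rwa [show zc 32 = 2 ^ 16 from zc_even 16] at this
  have hv : vinB 0 32 ≤ 295659000000000 := by decide +kernel
  have h2 : (1 : ℝ) ≤ 295.659 * VV (Pr 1 (2 ^ 16)) := by
    refine h1.trans (mul_le_mul_of_nonneg_right ?_ (VV_pos Pr_prime).le)
    rw [div_le_iff₀ hS]
    calc ((vinB 0 32 : ℕ) : ℝ) ≤ ((295659000000000 : ℕ) : ℝ) := by exact_mod_cast hv
      _ = 295.659 * SD := by unfold SD; norm_num
  have hm := mass_gen (j := 16) (w := zr c) (b := c) le_rfl h16 (log_zr_le (by linarith))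
  have hq := sq_sum_le (x := 2 ^ 16) (by norm_num) (zr c)
  have h3 := VV_gen (B := Pr (2 ^ 16) (zr c)) (by
    intro p hp
    have := (mem_Pr.1 hp).1.1
    omega) hm hq
  have hc16 : 0 < c / 16 := by linarith
  have h4 : Real.exp (2 * (Real.log (c / ((16 : ℕ) : ℝ)) + 0.3312 / ((16 : ℕ) : ℝ)) + 8 * (1 / ((2 ^ 16 : ℕ) : ℝ)))
      ≤ (c / 16) ^ 2 * 1.0425 := by
    have e1 : 2 * (Real.log (c / ((16 : ℕ) : ℝ)) + 0.3312 / ((16 : ℕ) : ℝ)) + 8 * (1 / ((2 ^ 16 : ℕ) : ℝ))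
        ≤ 2 * Real.log (c / 16) + 0.04153 := by
      push_cast
      norm_num
      linarith
    refine (Real.exp_le_exp.2 e1).trans ?_
    rw [Real.exp_add, two_mul, Real.exp_add, Real.exp_log hc16, ← sq]
    apply mul_le_mul_of_nonneg_left _ (by positivity)
    refine (exp_le_poly (by norm_num) (by norm_num)).trans ?_
    norm_num
  have hV1 : 0 < VV (Pr 1 (2 ^ 16)) := VV_pos Pr_prime
  have hV2 : 0 < VV (Pr (2 ^ 16) (zr c)) := VV_pos Pr_prime
  have h5 : (1 : ℝ) ≤ (c / 16) ^ 2 * 1.0425 * VV (Pr (2 ^ 16) (zr c)) :=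
    h3.trans (mul_le_mul_of_nonneg_right h4 hV2.le)
  rw [hsplit]
  calc (1 : ℝ) ≤ (295.659 * VV (Pr 1 (2 ^ 16))) * ((c / 16) ^ 2 * 1.0425 * VV (Pr (2 ^ 16) (zr c))) :=
        one_le_mul_of_one_le_of_one_le h2 h5
    _ = (295.659 * 1.0425 / 256) * c ^ 2 * (VV (Pr 1 (2 ^ 16)) * VV (Pr (2 ^ 16) (zr c))) := by ring
    _ ≤ _ := by
        apply mul_le_mul_of_nonneg_right _ (mul_pos hV1 hV2).le
        apply mul_le_mul_of_nonneg_right _ (by positivity)
        norm_num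

end Pool.Agent.H91.Gold
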