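import Mathlib
import Pool.Agent.H91.G5Real

/-!
Universal tables: one pair of tables serves all levels `128 * (11/10)^m`.
-/

namespace Pool.Agent.H91.Gold

open Finset

/-- Error term of the entry `j` at the level `c`. -/
noncomputable def ER (c : ℝ) (j : ℕ) : ℝ := (1 - 96 / c) * (2 : ℝ) ^ ((j : ℝ) * c / 64)

/-- Soundness of the universal tables at the real level `c`. -/
def UOK (c : ℝ) (GT HT : ℕ) : Prop :=
  ∀ j ≤ 2048, ∀ (N lo : ℤ) (X : ℕ),
    Nd N lo X 1 (Pr 1 (zr c)) (ER c j) ((look GT j : ℝ) / SD) ∧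
      (32 ≤ j → Nd N lo X 0 (Pr 1 (zr c)) (ER c j) ((look HT j : ℝ) / SD))

theorem log_11 : Real.log (11 / 10) ≤ 0.0953102 := by
  rw [Real.log_le_iff_le_exp (by norm_num)]
  have h := Real.sum_le_exp_of_nonneg (x := 0.0953102) (by norm_num) 6
  refine le_trans ?_ h
  simp only [Finset.sum_range_succ, Finset.sum_range_zero]
  norm_num [Nat.factorial]

theorem exp_VI : Real.exp 0.195797 ≤ 1.216281 := by
  have h := Real.exp_bound' (x := 0.195797) (by norm_num) (by norm_num) (n := 8) (by norm_num)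
  refine h.trans ?_
  simp only [Finset.sum_range_succ, Finset.sum_range_zero]
  norm_num [Nat.factorial]

section Block

variable {c : ℝ}

theorem mem_BU {c c' : ℝ} (hc : 128 ≤ c) {p : ℕ} (hp : p ∈ Pr (zr c) (zr c')) : 1024 ≤ p ∧ p ≠ 2 := by
  have h1 := zr_ge128 hc
  have h2 := (mem_Pr.1 hp).1.1
  have h3 : 1024 ≤ 2 ^ 128 := by norm_num
  omega

theorem sum_g_BU {a b m : ℝ} (ha : 128 ≤ a) (h : ∑ p ∈ Pr (zr a) (zr b), (1 : ℝ) / p ≤ m) :
    ∑ p ∈ Pr (zr a) (zr b), g p ≤ 2 * m := by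
  have e : ∑ p ∈ Pr (zr a) (zr b), g p = 2 * ∑ p ∈ Pr (zr a) (zr b), (1 : ℝ) / p := by
    rw [mul_sum]
    apply sum_congr rfl
    intro p hp
    rw [g_odd (mem_BU ha hp).2]; ring
  rw [e]
  linarith

theorem es_g_BU {B : Finset ℕ} {mu : ℝ} (h : ∑ p ∈ B, g p ≤ mu) (k : ℕ) :
    es g B k ≤ mu ^ k / k.factorial := by
  refine (es_le B (fun p _ => g_nonneg p) k).trans ?_
  apply div_le_div_of_nonneg_right _ (by positivity)
  exact pow_le_pow_left₀ (sum_nonneg (fun p _ => g_nonneg p)) h k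

theorem es_rho_BU {b : ℝ} (hb : 128 ≤ b) (k : ℕ) (x : ℕ) (hx : 1 ≤ x) :
    es rho (Pr x (zr b)) k ≤ (9 / b * (2 : ℝ) ^ b) ^ k / k.factorial := by
  have h1 : ∑ p ∈ Pr x (zr b), rho p ≤ 9 / b * (2 : ℝ) ^ b := by
    calc ∑ p ∈ Pr x (zr b), rho p ≤ ∑ _p ∈ Pr x (zr b), (2 : ℝ) := sum_le_sum (fun p _ => rho_le p)
      _ = 2 * ((Pr x (zr b)).card : ℝ) := by rw [sum_const, nsmul_eq_mul]; ring
      _ ≤ 2 * (4.5 / b * (2 : ℝ) ^ b) := by
          have := card_real hb x hx
          linarith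
      _ = _ := by ring
  refine (es_le _ (fun p _ => (rho_pos p).le) k).trans ?_
  apply div_le_div_of_nonneg_right _ (by positivity)
  exact pow_le_pow_left₀ (sum_nonneg (fun p _ => (rho_pos p).le)) h1 k

end Block

theorem theta_step {c : ℝ} (hc : 128 ≤ c) :
    (1 - 96 / c) * Real.exp (9 / (11 / 10 * c)) ≤ 1 - 96 / (11 / 10 * c) := by
  set y := 1 / (11 / 10 * c) with hy
  have hc0 : 0 < 11 / 10 * c := by linarith
  have hy0 : 0 < y := by positivity
  have hy1 : y ≤ 1 / 140.8 := by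
    rw [hy]
    apply one_div_le_one_div_of_le (by norm_num)
    linarith
  have e1 : 96 / c = 105.6 * y := by
    rw [hy]; field_simp; norm_num
  have e2 : 9 / (11 / 10 * c) = 9 * y := by rw [hy]; ring
  have e3 : 96 / (11 / 10 * c) = 96 * y := by rw [hy]; ring
  rw [e1, e2, e3]
  have h1 := exp_le_poly (x := 9 * y) (by positivity) (by nlinarith)
  have h2 : 0 ≤ 1 - 105.6 * y := by nlinarith
  calc (1 - 105.6 * y) * Real.exp (9 * y)
      ≤ (1 - 105.6 * y) * (1 + 9 * y + (9 * y) ^ 2 / 2 + (9 * y) ^ 3 / 4) :=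
        mul_le_mul_of_nonneg_left h1 h2
    _ = 1 - 96.6 * y - 909.9 * y ^ 2 - (4276.8 - 182.25) * y ^ 3 - 105.6 * 182.25 * y ^ 4 := by ring
    _ ≤ 1 - 96 * y := by
        have a1 : 0 ≤ y ^ 2 := by positivity
        have a2 : 0 ≤ y ^ 3 := by positivity
        have a3 : 0 ≤ y ^ 4 := by positivity
        nlinarith

/-- Partial data for a step of the universal tables. -/
def PtU (N lo : ℤ) (X : ℕ) (S B : Finset ℕ) (th c' : ℝ) (j s k0 A : ℕ) : Prop :=
  ∃ x : ℕ → ℝ, (∀ k < k0, Nd N lo X (s + k) S (th * (2 : ℝ) ^ ((((j - 64 * k : ℕ)) : ℝ) * c' / 64)) (x k)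
      ∧ 0 ≤ x k) ∧
    (∑ k ∈ range k0, es g B k * x k) * (SD : ℝ) ^ 2 ≤ A

theorem PtU_zero (N lo : ℤ) (X : ℕ) (S B : Finset ℕ) (th c' : ℝ) (j s : ℕ) :
    PtU N lo X S B th c' j s 0 0 := ⟨fun _ => 0, by simp, by simp⟩

theorem PtU.succ {N lo : ℤ} {X : ℕ} {S B : Finset ℕ} {th c' : ℝ} {j s k0 A e V : ℕ}
    (h : PtU N lo X S B th c' j s k0 A) (he : es g B k0 * SD ≤ e)
    (hN : Nd N lo X (s + k0) S (th * (2 : ℝ) ^ ((((j - 64 * k0 : ℕ)) : ℝ) * c' / 64)) ((V : ℝ) / SD)) :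
    PtU N lo X S B th c' j s (k0 + 1) (A + e * V) := by
  obtain ⟨x, h1, h2⟩ := h
  have hS := SD_pos
  refine ⟨fun k => if k = k0 then (V : ℝ) / SD else x k, ?_, ?_⟩
  · intro k hk
    rcases Nat.lt_succ_iff_lt_or_eq.1 hk with h | h
    · have hne : k ≠ k0 := by omega
      simp only [hne, if_false]
      exact h1 k h
    · subst h
      simp only [if_true]
      exact ⟨hN, by positivity⟩
  · rw [sum_range_succ]
    have e1 : ∑ k ∈ range k0, es g B k * (if k = k0 then (V : ℝ) / SD else x k)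
        = ∑ k ∈ range k0, es g B k * x k := by
      apply sum_congr rfl
      intro k hk
      rw [mem_range] at hk
      rw [if_neg (by omega)]
    rw [e1]
    simp only [if_true]
    have e2 : es g B k0 * ((V : ℝ) / SD) * (SD : ℝ) ^ 2 = (es g B k0 * SD) * V := by
      field_simp
    have e3 : es g B k0 * SD * V ≤ (e : ℝ) * V := mul_le_mul_of_nonneg_right he (Nat.cast_nonneg V)
    rw [add_mul, e2]
    push_cast
    linarith

/-- A finished bound. -/
def ResU (N lo : ℤ) (X : ℕ) (S B : Finset ℕ) (th c' : ℝ) (j s R : ℕ) : Prop :=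
  ∃ J A : ℕ, Even (s + J) ∧ 64 * J ≤ j ∧ PtU N lo X S B th c' j s (J + 1) A ∧
    (A : ℝ) + es g B (J + 1) * (SD : ℝ) ^ 2 ≤ R

theorem ResU.nd {N lo : ℤ} {X : ℕ} {S : Finset ℕ} {c : ℝ} {j s R x : ℕ} (hc : 128 ≤ c) (hx : 1 ≤ x)
    (h : ResU N lo X S (Pr x (zr (11 / 10 * c))) (1 - 96 / c) (11 / 10 * c) j s R)
    (hS : ∀ p ∈ S, p.Prime) (hBS : Disjoint (Pr x (zr (11 / 10 * c))) S) {v y : ℕ}
    (hv : 1 ≤ (v : ℝ) / SD * VV (Pr x (zr (11 / 10 * c)))) (hy : v * R ≤ y * SD ^ 2) :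
    Nd N lo X s (S ∪ Pr x (zr (11 / 10 * c))) (ER (11 / 10 * c) j) ((y : ℝ) / SD) := by
  set B := Pr x (zr (11 / 10 * c)) with hBdef
  set c' := 11 / 10 * c with hc'
  have hc'0 : 0 < c' := by rw [hc']; linarith
  have hc'1 : 128 ≤ c' := by rw [hc']; linarith
  obtain ⟨J, A, h1, hJ, ⟨xk, h2, h3⟩, h5⟩ := h
  have hD := SD_pos
  have hg0 : ∀ k, 0 ≤ es g B k := fun k => es_nonneg (fun p _ => g_nonneg p) k
  have hsum0 : 0 ≤ ∑ k ∈ range (J + 1), es g B k * xk k :=
    sum_nonneg (fun k hk => mul_nonneg (hg0 k) (h2 k (mem_range.1 hk)).2)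
  have hth : 0 ≤ 1 - 96 / c := by
    rw [sub_nonneg, div_le_one (by linarith)]; linarith
  refine Nd.step (E := fun k => (1 - 96 / c) * (2 : ℝ) ^ ((((j - 64 * k : ℕ)) : ℝ) * c' / 64)) (x := xk)
    h1 hS Pr_prime hBS (fun k hk => (h2 k (mem_range.1 hk)).1) hv ?_ ?_ ?_
  · exact add_nonneg hsum0 (hg0 _)
  · have e1 : (∑ k ∈ range (J + 1), es g B k * xk k + es g B (J + 1)) * (SD : ℝ) ^ 2 ≤ R := by
      rw [add_mul]; linarith
    have e2 : (v : ℝ) * R ≤ y * (SD : ℝ) ^ 2 := by exact_mod_cast hy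
    rw [div_mul_eq_mul_div, div_le_div_iff₀ hD hD]
    have e3 : (v : ℝ) * ((∑ k ∈ range (J + 1), es g B k * xk k + es g B (J + 1)) * (SD : ℝ) ^ 2)
        ≤ v * R := mul_le_mul_of_nonneg_left e1 (Nat.cast_nonneg v)
    have e4 := e3.trans e2
    have e5 : (SD : ℝ) ^ 2 = SD * SD := sq _
    rw [e5] at e4
    have e6 : (v : ℝ) * (∑ k ∈ range (J + 1), es g B k * xk k + es g B (J + 1)) * SD * SD ≤ y * SD * SD := by
      linarith
    exact le_of_mul_le_mul_right e6 hD
  · have hterm : ∀ k ∈ range (J + 1), es rho B k * ((1 - 96 / c) * (2 : ℝ) ^ ((((j - 64 * k : ℕ)) : ℝ) * c' / 64))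
        ≤ (1 - 96 / c) * (2 : ℝ) ^ ((j : ℝ) * c' / 64) * ((9 / c') ^ k / k.factorial) := by
      intro k hk
      rw [mem_range] at hk
      have hkj : 64 * k ≤ j := by omega
      have r1 := es_rho_BU hc'1 k x hx
      rw [← hBdef] at r1
      have r2 : (((j - 64 * k : ℕ)) : ℝ) * c' / 64 = (j : ℝ) * c' / 64 - k * c' := by
        rw [Nat.cast_sub hkj]; push_cast; ring
      rw [r2, Real.rpow_sub (by norm_num)]
      have r3 : (2 : ℝ) ^ ((k : ℝ) * c') = ((2 : ℝ) ^ c') ^ k := by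
        rw [mul_comm, Real.rpow_mul (by norm_num), Real.rpow_natCast]
      rw [r3]
      have hp : (0 : ℝ) < ((2 : ℝ) ^ c') ^ k := by positivity
      calc es rho B k * ((1 - 96 / c) * ((2 : ℝ) ^ ((j : ℝ) * c' / 64) / ((2 : ℝ) ^ c') ^ k))
          ≤ ((9 / c' * (2 : ℝ) ^ c') ^ k / k.factorial)
            * ((1 - 96 / c) * ((2 : ℝ) ^ ((j : ℝ) * c' / 64) / ((2 : ℝ) ^ c') ^ k)) := by
              apply mul_le_mul_of_nonneg_right r1 (by positivity)
        _ = _ := by
              rw [mul_pow]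
              field_simp
    refine (sum_le_sum hterm).trans ?_
    rw [← mul_sum]
    have hexp := Real.sum_le_exp_of_nonneg (x := 9 / c') (by positivity) (J + 1)
    have hth2 := theta_step hc
    rw [← hc'] at hth2
    unfold ER
    calc (1 - 96 / c) * (2 : ℝ) ^ ((j : ℝ) * c' / 64) * ∑ k ∈ range (J + 1), (9 / c') ^ k / k.factorial
        ≤ (1 - 96 / c) * (2 : ℝ) ^ ((j : ℝ) * c' / 64) * Real.exp (9 / c') :=
          mul_le_mul_of_nonneg_left hexp (by positivity)
      _ = (1 - 96 / c) * Real.exp (9 / c') * (2 : ℝ) ^ ((j : ℝ) * c' / 64) := by ring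
      _ ≤ _ := mul_le_mul_of_nonneg_right hth2 (by positivity)

/-- The list `l` describes the block `B` from the index `k` on. -/
def MtcU (B : Finset ℕ) : List (ℕ × ℕ) → ℕ → Prop
  | [], _ => True
  | x :: l, k => es g B k * SD ≤ x.1 ∧ es g B (k + 1) * SD ≤ x.2 ∧ MtcU B l (k + 1)

/-- Partial sums of a step of the universal tables. -/
def runU (GT HT : ℕ) : List (ℕ × ℕ) → ℕ → ℕ → ℕ → ℕ × ℕ
  | [], _, _, _ => (BIG, BIG)
  | x :: l, jj, p, q =>
    let b := min (11 * jj / 10) 2048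
    if 32 ≤ b then
      let p' := p + x.1 * look GT b
      let q' := q + x.1 * look HT b
      let r := if 64 ≤ jj then runU GT HT l (jj - 64) q' p' else (BIG, BIG)
      (r.2, min (q' + x.2 * SD) r.1)
    else (BIG, BIG)

theorem ER_le {c : ℝ} (hc : 128 ≤ c) {b jj : ℕ} (hb : b ≤ 11 * jj / 10) :
    ER c b ≤ (1 - 96 / c) * (2 : ℝ) ^ ((jj : ℝ) * (11 / 10 * c) / 64) := by
  unfold ER
  have hth : 0 ≤ 1 - 96 / c := by
    rw [sub_nonneg, div_le_one (by linarith)]; linarith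
  apply mul_le_mul_of_nonneg_left _ hth
  apply Real.rpow_le_rpow_of_exponent_le (by norm_num)
  apply div_le_div_of_nonneg_right _ (by norm_num)
  have h1 : 10 * b ≤ 11 * jj := by omega
  have h2 : (10 : ℝ) * b ≤ 11 * jj := by exact_mod_cast h1
  nlinarith

theorem runU_sound {c : ℝ} (hc : 128 ≤ c) {GT HT : ℕ} (hT : UOK c GT HT) (N lo : ℤ) (X : ℕ)
    {B : Finset ℕ} (j : ℕ) (l : List (ℕ × ℕ)) :
    ∀ (k0 jj p q s t : ℕ), MtcU B l k0 → 64 * k0 ≤ j → jj = j - 64 * k0 → Odd (s + k0) → Even (t + k0) →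
      PtU N lo X (Pr 1 (zr c)) B (1 - 96 / c) (11 / 10 * c) j s k0 p →
      PtU N lo X (Pr 1 (zr c)) B (1 - 96 / c) (11 / 10 * c) j t k0 q →
      ((runU GT HT l jj p q).1 < BIG →
        ResU N lo X (Pr 1 (zr c)) B (1 - 96 / c) (11 / 10 * c) j s (runU GT HT l jj p q).1) ∧
      ((runU GT HT l jj p q).2 < BIG →
        ResU N lo X (Pr 1 (zr c)) B (1 - 96 / c) (11 / 10 * c) j t (runU GT HT l jj p q).2) := by
  have hS1 : ∀ p ∈ Pr 1 (zr c), p.Prime := Pr_prime
  induction l with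
  | nil =>
    intro k0 jj p q s t _ _ _ _ _ _ _
    unfold runU
    exact ⟨fun h => absurd h (lt_irrefl _), fun h => absurd h (lt_irrefl _)⟩
  | cons x l ih =>
    intro k0 jj p q s t hM hk hjj hs ht hp hq
    obtain ⟨m1, m2, m4⟩ := hM
    unfold runU
    simp only
    set b := min (11 * jj / 10) 2048 with hb
    by_cases hc32 : 32 ≤ b
    · rw [if_pos hc32]
      have hbm : b ≤ 2048 := min_le_right _ _
      have hbj : b ≤ 11 * jj / 10 := min_le_left _ _
      obtain ⟨n1, n2⟩ := hT b hbm N lo X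
      have hE := ER_le hc hbj
      rw [hjj] at hE
      have p1 := hp.succ m1 ((n1.mono hS1 hE le_rfl).parity (by
          obtain ⟨w, hw⟩ := hs; omega))
      have q1 := hq.succ m1 (((n2 hc32).mono hS1 hE le_rfl).parity (by
          obtain ⟨w, hw⟩ := ht; omega))
      have hfin : ResU N lo X (Pr 1 (zr c)) B (1 - 96 / c) (11 / 10 * c) j t
          (q + x.1 * look HT b + x.2 * SD) := by
        refine ⟨k0, q + x.1 * look HT b, ht, hk, q1, ?_⟩
        have e1 : es g B (k0 + 1) * (SD : ℝ) ^ 2 = es g B (k0 + 1) * SD * SD := by ring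
        have e2 : es g B (k0 + 1) * SD * SD ≤ (x.2 : ℝ) * SD :=
          mul_le_mul_of_nonneg_right m2 (Nat.cast_nonneg _)
        rw [e1]
        push_cast
        linarith
      by_cases h64 : 64 ≤ jj
      · rw [if_pos h64]
        have hrec := ih (k0 + 1) (jj - 64) (q + x.1 * look HT b) (p + x.1 * look GT b) t s m4
          (by omega) (by omega)
          (by rw [← add_assoc]; exact ht.add_one) (by rw [← add_assoc]; exact hs.add_one) q1 p1
        refine ⟨hrec.2, ?_⟩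
        intro hlt
        rcases min_choice (q + x.1 * look HT b + x.2 * SD)
          (runU GT HT l (jj - 64) (q + x.1 * look HT b) (p + x.1 * look GT b)).1 with h | h
        · rw [h]; exact hfin
        · rw [h]
          rw [h] at hlt
          exact hrec.1 hlt
      · rw [if_neg h64]
        refine ⟨fun h => absurd h (lt_irrefl _), ?_⟩
        intro hlt
        rcases min_choice (q + x.1 * look HT b + x.2 * SD) BIG with h | h
        · rw [h]; exact hfin
        · rw [h] at hlt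
          exact absurd hlt (lt_irrefl _)
    · rw [if_neg hc32]
      exact ⟨fun h => absurd h (lt_irrefl _), fun h => absurd h (lt_irrefl _)⟩

/-- The value of the inverse density of a block. -/
def VIU : ℕ := 1216281000000

/-- The value of twice the mass of a block. -/
def MUU : ℕ := 195797000000

/-- Data of a block. -/
def eL : ℕ → ℕ → ℕ → List (ℕ × ℕ)
  | 0, _, _ => []
  | f + 1, k, e => (e, e * MUU / ((k + 1) * SD) + 1) :: eL f (k + 1) (e * MUU / ((k + 1) * SD) + 1)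

theorem eL_sound {B : Finset ℕ} (hmu : ∑ p ∈ B, g p ≤ (MUU : ℝ) / SD) (f : ℕ) :
    ∀ k e : ℕ, ((MUU : ℝ) / SD) ^ k / (k.factorial : ℝ) ≤ (e : ℝ) / SD → MtcU B (eL f k e) k := by
  have hS := SD_pos
  have hes : ∀ k (e : ℕ), ((MUU : ℝ) / SD) ^ k / (k.factorial : ℝ) ≤ (e : ℝ) / SD →
      es g B k * SD ≤ e := by
    intro k e he
    have h3 := (es_g_BU hmu k).trans he
    rwa [le_div_iff₀ hS] at h3
  induction f with
  | zero => intro k e _; trivial
  | succ f ih =>
    intro k e he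
    have he' : ((MUU : ℝ) / SD) ^ (k + 1) / ((k + 1).factorial : ℝ)
        ≤ ((e * MUU / ((k + 1) * SD) + 1 : ℕ) : ℝ) / SD := by
      have h2 := div_up (e * MUU) ((k + 1) * SD) (Nat.mul_pos (by omega) (by unfold SD; norm_num))
      have h3 : ((MUU : ℝ) / SD) ^ (k + 1) / ((k + 1).factorial : ℝ)
          = (((MUU : ℝ) / SD) ^ k / (k.factorial : ℝ)) * ((MUU : ℝ) / SD / (k + 1)) := by
        rw [Nat.factorial_succ, pow_succ]
        push_cast
        field_simp
      rw [h3]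
      have h4 : (((MUU : ℝ) / SD) ^ k / (k.factorial : ℝ)) * ((MUU : ℝ) / SD / (k + 1))
          ≤ (e : ℝ) / SD * ((MUU : ℝ) / SD / (k + 1)) := mul_le_mul_of_nonneg_right he (by positivity)
      refine h4.trans ?_
      have h5 : (e : ℝ) / SD * ((MUU : ℝ) / SD / (k + 1))
          = ((e * MUU : ℕ) : ℝ) / ((k + 1) * SD : ℕ) / SD := by
        push_cast
        field_simp
      rw [h5]
      exact div_le_div_of_nonneg_right h2 hS.le
    exact ⟨hes k e he, hes (k + 1) _ he', ih (k + 1) _ he'⟩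

/-- Check of the entry `j` of the universal tables. -/
def rowU (GT HT : ℕ) (l : List (ℕ × ℕ)) (j : ℕ) : Bool :=
  let r := runU GT HT l j 0 0
  let b := min (11 * j / 10) 2048
  (SD ≤ look GT j || VIU * r.1 ≤ look GT j * SD ^ 2) &&
    (j < 32 || VIU * r.2 ≤ look HT j * SD ^ 2 ||
      (32 ≤ b && (SD + look HT b) * VIU ≤ (SD + look HT j) * SD))

theorem block_facts {c : ℝ} (hc : 128 ≤ c) :
    ∑ p ∈ Pr (zr c) (zr (11 / 10 * c)), g p ≤ (MUU : ℝ) / SD ∧
      1 ≤ (VIU : ℝ) / SD * VV (Pr (zr c) (zr (11 / 10 * c))) := by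
  have hS := SD_pos
  have hm := mass_real (a := c) (b := 11 / 10 * c) hc (by linarith)
  have e1 : 11 / 10 * c / c = 11 / 10 := by
    have : c ≠ 0 := by linarith
    field_simp
  rw [e1] at hm
  have hl := log_11
  have h1 : ∑ p ∈ Pr (zr c) (zr (11 / 10 * c)), (1 : ℝ) / p ≤ 0.0978982 := by linarith
  constructor
  · refine (sum_g_BU hc h1).trans ?_
    unfold MUU SD
    norm_num
  · have hz := zr_ge128 hc
    have hq := sq_sum_le (x := zr c) (le_trans (by norm_num) hz) (zr (11 / 10 * c))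
    have hq2 : (1 : ℝ) / (zr c : ℝ) ≤ 1 / 2 ^ 128 := by
      apply one_div_le_one_div_of_le (by positivity)
      exact_mod_cast hz
    have h3 := VV_gen (fun p hp => (mem_BU hc hp).1) h1 (hq.trans hq2)
    refine h3.trans (mul_le_mul_of_nonneg_right ?_ (VV_pos Pr_prime).le)
    have h4 : 2 * (0.0978982 : ℝ) + 8 * (1 / 2 ^ 128) ≤ 0.195797 := by norm_num
    refine (Real.exp_le_exp.2 h4).trans (exp_VI.trans ?_)
    unfold VIU SD
    norm_num

theorem rowU_sound {c : ℝ} (hc : 128 ≤ c) {GT HT j : ℕ} {l : List (ℕ × ℕ)} (hT : UOK c GT HT)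
    (hM : MtcU (Pr (zr c) (zr (11 / 10 * c))) l 0) (h : rowU GT HT l j = true) (N lo : ℤ) (X : ℕ) :
    Nd N lo X 1 (Pr 1 (zr (11 / 10 * c))) (ER (11 / 10 * c) j) ((look GT j : ℝ) / SD) ∧
      (32 ≤ j → Nd N lo X 0 (Pr 1 (zr (11 / 10 * c))) (ER (11 / 10 * c) j) ((look HT j : ℝ) / SD)) := by
  have hD := SD_pos
  have hS1 : ∀ p ∈ Pr 1 (zr c), p.Prime := Pr_prime
  have hS2 : ∀ p ∈ Pr 1 (zr (11 / 10 * c)), p.Prime := Pr_prime
  have hz := zr_ge128 hc
  have hz1 : 1 ≤ zr c := le_trans (by norm_num) hz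
  have hzz : zr c ≤ zr (11 / 10 * c) := zr_mono (by linarith)
  have hdisj : Disjoint (Pr (zr c) (zr (11 / 10 * c))) (Pr 1 (zr c)) := Pr_disjoint le_rfl
  have hunion : Pr 1 (zr c) ∪ Pr (zr c) (zr (11 / 10 * c)) = Pr 1 (zr (11 / 10 * c)) := Pr_union hz1 hzz
  have hV := (block_facts hc).2
  have hrun := runU_sound hc hT N lo X j l 0 j 0 0 1 0 hM (by omega) (by omega) (by decide) (by decide)
    (PtU_zero _ _ _ _ _ _ _ _ _) (PtU_zero _ _ _ _ _ _ _ _ _)
  have hth : 0 ≤ 1 - 96 / c := by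
    rw [sub_nonneg, div_le_one (by linarith)]; linarith
  have hth2 : 1 - 96 / c ≤ 1 - 96 / (11 / 10 * c) := by
    have : 96 / (11 / 10 * c) ≤ 96 / c := by
      apply div_le_div_of_nonneg_left (by norm_num) (by linarith) (by linarith)
    linarith
  unfold rowU at h
  simp only [Bool.and_eq_true, Bool.or_eq_true, decide_eq_true_eq] at h
  obtain ⟨hL, hU⟩ := h
  have hVI0 : 0 < VIU := by unfold VIU; norm_num
  constructor
  · rcases hL with hL | hL
    · apply Nd_trivial N lo X (by decide) hS2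
      · unfold ER
        have : 0 ≤ 1 - 96 / (11 / 10 * c) := hth.trans hth2
        positivity
      · rw [le_div_iff₀ hD, one_mul]
        exact_mod_cast hL
    · have := (hrun.1 (BIG_aux hVI0 hL)).nd hc hz1 hS1 hdisj hV hL
      rwa [hunion] at this
  · intro h32
    rcases hU with (hU | hU) | hU
    · omega
    · have := (hrun.2 (BIG_aux hVI0 hU)).nd hc hz1 hS1 hdisj hV hU
      rwa [hunion] at this
    · obtain ⟨hb32, hU⟩ := hU
      set b := min (11 * j / 10) 2048 with hb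
      obtain ⟨_, n2⟩ := hT b (min_le_right _ _) N lo X
      have hE := ER_le hc (min_le_left (11 * j / 10) 2048)
      rw [← hb] at hE
      have hE2 : ER c b ≤ ER (11 / 10 * c) j := by
        refine hE.trans ?_
        unfold ER
        exact mul_le_mul_of_nonneg_right hth2 (by positivity)
      have n3 := (n2 hb32).mono hS1 hE2 le_rfl
      rw [← hunion]
      refine n3.skip (by decide) hS1 Pr_prime hdisj hV (by positivity) ?_
      have e1 : ((SD : ℝ) + look HT b) * VIU ≤ (SD + look HT j) * SD := by exact_mod_cast hU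
      have e2 : (1 + (look HT b : ℝ) / SD) * ((VIU : ℝ) / SD)
          = ((SD : ℝ) + look HT b) * VIU / SD / SD := by
        field_simp
      have e3 : 1 + (look HT j : ℝ) / SD = (SD + look HT j) * SD / SD / SD := by
        field_simp
      rw [e2, e3]
      gcongr

/-- The entry `2048` of the tables is sound at the level `c`. -/
def TailOK (c : ℝ) (GT HT : ℕ) : Prop :=
  ∀ (N lo : ℤ) (X : ℕ),
    Nd N lo X 1 (Pr 1 (zr c)) (ER c 2048) ((look GT 2048 : ℝ) / SD) ∧
      Nd N lo X 0 (Pr 1 (zr c)) (ER c 2048) ((look HT 2048 : ℝ) / SD)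

/-- Check of the rows `a ≤ j < a + n`. -/
def rowsU (GT HT : ℕ) (l : List (ℕ × ℕ)) (a : ℕ) : ℕ → Bool
  | 0 => true
  | n + 1 => rowU GT HT l (a + n) && rowsU GT HT l a n

theorem rowsU_mem {GT HT : ℕ} {l : List (ℕ × ℕ)} {a : ℕ} (n : ℕ)
    (h : rowsU GT HT l a n = true) : ∀ j, a ≤ j → j < a + n → rowU GT HT l j = true := by
  induction n with
  | zero => intro B h1 h2; omega
  | succ n ih =>
    intro B h1 h2
    unfold rowsU at h
    rw [Bool.and_eq_true] at h
    rcases Nat.lt_or_ge B (a + n) with h3 | h3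
    · exact ih h.2 B h1 h3
    · have : B = a + n := by omega
      rw [this]; exact h.1

theorem UOK_step {c : ℝ} (hc : 128 ≤ c) {GT HT f : ℕ} {l : List (ℕ × ℕ)} (hT : UOK c GT HT)
    (hl : eL f 0 SD = l) (hrow : ∀ j, j < 2048 → rowU GT HT l j = true)
    (htail : TailOK (11 / 10 * c) GT HT) : UOK (11 / 10 * c) GT HT := by
  have hS := SD_pos
  have hM : MtcU (Pr (zr c) (zr (11 / 10 * c))) l 0 := by
    rw [← hl]
    apply eL_sound (block_facts hc).1
    rw [pow_zero, Nat.factorial_zero, div_self hS.ne']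
    simp
  intro j hj N lo X
  rcases Nat.lt_or_ge j 2048 with h | h
  · exact rowU_sound hc hT hM (hrow j h) N lo X
  · have : j = 2048 := by omega
    subst this
    exact ⟨(htail N lo X).1, fun _ => (htail N lo X).2⟩

/-- Check of the universal tables against the table of the level `2^128`. -/
def baseU (GT HT TG TH bm : ℕ) (j : ℕ) : Bool :=
  (SD ≤ look GT j || (1 ≤ j && look TG (min (2 * j - 2) bm) ≤ look GT j)) &&
    (j < 32 || look TH (min (2 * j - 2) bm) ≤ look HT j)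

theorem ER_128 {j B : ℕ} (hj : 1 ≤ j) (hB : B ≤ 2 * j - 2) : (2 : ℝ) ^ B ≤ ER 128 j := by
  unfold ER
  have h1 : (1 - 96 / 128 : ℝ) = 1 / 4 := by norm_num
  have h2 : (j : ℝ) * 128 / 64 = ((2 * j : ℕ) : ℝ) := by push_cast; ring
  rw [h1, h2, Real.rpow_natCast]
  have h3 : (2 : ℝ) ^ (2 * j) = 4 * 2 ^ (2 * j - 2) := by
    have : 2 * j = (2 * j - 2) + 2 := by omega
    rw [this, pow_add]
    simp
    ring
  rw [h3]
  have h4 : (2 : ℝ) ^ B ≤ 2 ^ (2 * j - 2) := pow_le_pow_right₀ (by norm_num) hB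
  linarith

theorem UOK_base {GT HT TG TH bm : ℕ} (hT : LOK 256 bm TG TH)
    (hb : ∀ j, j ≤ 2048 → baseU GT HT TG TH bm j = true) : UOK 128 GT HT := by
  intro j hj N lo X
  have hD := SD_pos
  have hz : zr (128 : ℝ) = zc 256 := by
    have h1 : zr ((128 : ℕ) : ℝ) = 2 ^ 128 := zr_nat 128
    have h2 : zc 256 = 2 ^ 128 := zc_even 128
    rw [h2, ← h1]
    norm_num
  have hS : Pr 1 (zr (128 : ℝ)) = Sh 256 := by unfold Sh; rw [hz]
  rw [hS]
  have hSp : ∀ p ∈ Sh 256, p.Prime := Pr_prime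
  have h := hb j hj
  unfold baseU at h
  simp only [Bool.and_eq_true, Bool.or_eq_true, decide_eq_true_eq] at h
  obtain ⟨hL, hU⟩ := h
  constructor
  · rcases hL with hL | hL
    · apply Nd_trivial N lo X (by decide) hSp
      · unfold ER
        norm_num
        positivity
      · rw [le_div_iff₀ hD, one_mul]
        exact_mod_cast hL
    · obtain ⟨n1, _⟩ := hT _ (min_le_right (2 * j - 2) bm) N lo X
      apply n1.mono hSp (ER_128 hL.1 (min_le_left _ _))
      apply div_le_div_of_nonneg_right _ hD.le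
      exact_mod_cast hL.2
  · intro h32
    rcases hU with hU | hU
    · omega
    · obtain ⟨_, n2⟩ := hT _ (min_le_right (2 * j - 2) bm) N lo X
      apply n2.mono hSp (ER_128 (by omega) (min_le_left _ _))
      apply div_le_div_of_nonneg_right _ hD.le
      exact_mod_cast hU

end Pool.Agent.H91.Gold
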