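import Mathlib
import Pool.Agent.H91.G5UTab
import Pool.Agent.H91.G5Tail

/-!
The last entry of the universal tables.
-/

namespace Pool.Agent.H91.Gold

open Finset

theorem two_rpow_ge {c : ℝ} (hc : 0 ≤ c) : 0.69 * c ≤ (2 : ℝ) ^ c := by
  have l2 := Real.log_two_gt_d9
  rw [Real.rpow_def_of_pos (by norm_num)]
  have := Real.add_one_le_exp (Real.log 2 * c)
  nlinarith

theorem tail_ok {c : ℝ} (hc : 128 ≤ c) {GT HT : ℕ} (hG : 10000000 ≤ look GT 2048)
    (hH : 10000000 ≤ look HT 2048) : TailOK c GT HT := by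
  intro N lo X
  have hS := SD_pos
  set al := ⌊c⌋₊ with hal
  have hc0 : 0 < c := by linarith
  have hal1 : (al : ℝ) ≤ c := Nat.floor_le hc0.le
  have hal2 : c < al + 1 := Nat.lt_floor_add_one c
  have hal128 : 128 ≤ al := Nat.le_floor (by exact_mod_cast hc)
  have hz : 2 ^ al ≤ zr c := zr_ge hal1
  have h128 : 2 ^ 128 ≤ 2 ^ al := two_pow_le_two_pow hal128
  have h1a : 1 ≤ 2 ^ al := Nat.one_le_two_pow
  set S := Pr 1 (2 ^ al) with hSdef
  set B := Pr (2 ^ al) (zr c) with hBdef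
  have hSp : ∀ p ∈ S, p.Prime := Pr_prime
  have hBp : ∀ p ∈ B, p.Prime := Pr_prime
  have hBS : Disjoint B S := Pr_disjoint le_rfl
  have hun : S ∪ B = Pr 1 (zr c) := Pr_union h1a hz
  have hB1024 : ∀ p ∈ B, 1024 ≤ p := by
    intro p hp
    have := (mem_Pr.1 hp).1.1
    have h3 : 1024 ≤ 2 ^ 128 := by norm_num
    omega
  -- the mass
  have hm : ∑ p ∈ B, (1 : ℝ) / p ≤ 0.0104 := by
    have h1 := mass_gen (j := al) (w := zr c) (b := c) (by omega) hz (log_zr_le hc0.le)
    have ha0 : (0 : ℝ) < al := by exact_mod_cast (by omega : 0 < al)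
    have ha128 : (128 : ℝ) ≤ al := by exact_mod_cast hal128
    have h2 := Real.log_le_sub_one_of_pos (x := c / al) (by positivity)
    have h3 : c / al - 1 ≤ 1 / 128 := by
      rw [sub_le_iff_le_add, div_le_iff₀ ha0]
      nlinarith
    have h4 : (0.3312 : ℝ) / al ≤ 0.3312 / 128 := div_le_div_of_nonneg_left (by norm_num) (by norm_num) ha128
    have h5 : (1 : ℝ) / 128 + 0.3312 / 128 ≤ 0.0104 := by norm_num
    linarith
  have hg : ∑ p ∈ B, g p ≤ 0.0208 := by
    have e : ∑ p ∈ B, g p = 2 * ∑ p ∈ B, (1 : ℝ) / p := by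
      rw [mul_sum]
      apply sum_congr rfl
      intro p hp
      have := hB1024 p hp
      rw [g_odd (by omega)]; ring
    rw [e]; linarith
  have hes : ∀ k, es g B k ≤ 0.0208 ^ k / k.factorial := fun k => es_g_BU hg k
  have hes0 : ∀ k, 0 ≤ es g B k := fun k => es_nonneg (fun p _ => g_nonneg p) k
  have hV : 1 ≤ (1.022 : ℝ) * VV B := by
    have hq := sq_sum_le (x := 2 ^ al) (by omega) (zr c)
    have hq2 : (1 : ℝ) / ((2 ^ al : ℕ) : ℝ) ≤ 1 / 2 ^ 128 := by
      apply one_div_le_one_div_of_le (by positivity)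
      exact_mod_cast h128
    have h3 := VV_gen hB1024 hm (hq.trans hq2)
    refine h3.trans (mul_le_mul_of_nonneg_right ?_ (VV_pos hBp).le)
    have h4 : 2 * (0.0104 : ℝ) + 8 * (1 / 2 ^ 128) ≤ 0.0209 := by norm_num
    refine (Real.exp_le_exp.2 h4).trans ((exp_le_poly (by norm_num) (by norm_num)).trans ?_)
    norm_num
  -- the chains
  have hch := tail28 (al := al) (by omega) N lo X
  have hE1 : (((2 ^ (28 * al) : ℕ)) : ℝ) ≤ (2 : ℝ) ^ (29 * c) := by
    push_cast
    rw [← Real.rpow_natCast]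
    apply Real.rpow_le_rpow_of_exponent_le (by norm_num)
    push_cast
    linarith
  have hE2 : (((2 ^ (29 * al) : ℕ)) : ℝ) ≤ (2 : ℝ) ^ (29 * c) := by
    push_cast
    rw [← Real.rpow_natCast]
    apply Real.rpow_le_rpow_of_exponent_le (by norm_num)
    push_cast
    linarith
  have hup : Nd N lo X 0 S ((2 : ℝ) ^ (29 * c)) 0.000001 :=
    (Nd_of_chain_upper hch).mono hSp hE1 (by norm_num)
  have hlo : Nd N lo X 1 S ((2 : ℝ) ^ (29 * c)) 0.000001 :=
    (Nd_of_chain_lower hch (by norm_num)).mono hSp hE2 (by norm_num)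
  have hall : ∀ s, Nd N lo X s S ((2 : ℝ) ^ (29 * c)) 0.000001 := by
    intro s
    rcases Nat.even_or_odd s with h | h
    · exact hup.parity (by obtain ⟨w, hw⟩ := h; omega)
    · exact hlo.parity (by obtain ⟨w, hw⟩ := h; omega)
  -- the error
  set t : ℝ := 9 / c * (2 : ℝ) ^ c with ht
  have ht2 : 2 ≤ t := by
    have h1 := two_rpow_ge hc0.le
    rw [ht, div_mul_eq_mul_div, le_div_iff₀ hc0]
    linarith
  have hrho : ∀ k, es rho B k ≤ t ^ k / k.factorial := fun k => es_rho_BU hc k (2 ^ al) h1a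
  have hrho0 : ∀ k, 0 ≤ es rho B k := fun k => es_nonneg (fun p _ => (rho_pos p).le) k
  have hsum : ∑ k ∈ range (3 + 1), es rho B k ≤ t ^ 3 := by
    have h1 : ∑ k ∈ range (3 + 1), es rho B k ≤ ∑ k ∈ range (3 + 1), t ^ k / (k.factorial : ℝ) :=
      sum_le_sum (fun k _ => hrho k)
    refine h1.trans ?_
    simp only [Finset.sum_range_succ, Finset.sum_range_zero]
    norm_num [Nat.factorial]
    nlinarith [mul_self_nonneg t, mul_self_nonneg (t - 2), sq_nonneg (t - 2)]
  have hERc : t ^ 3 * (2 : ℝ) ^ (29 * c) ≤ ER c 2048 := by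
    unfold ER
    have e1 : ((2048 : ℕ) : ℝ) * c / 64 = 3 * c + 29 * c := by push_cast; ring
    rw [e1, Real.rpow_add (by norm_num)]
    have e2 : (2 : ℝ) ^ (3 * c) = ((2 : ℝ) ^ c) ^ 3 := by
      rw [mul_comm, Real.rpow_mul (by norm_num)]
      norm_cast
    rw [e2, ht, mul_pow, ← mul_assoc]
    apply mul_le_mul_of_nonneg_right _ (by positivity)
    apply mul_le_mul_of_nonneg_right _ (by positivity)
    have h1 : 9 / c ≤ 9 / 128 := div_le_div_of_nonneg_left (by norm_num) (by norm_num) hc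
    have h2 : (9 / c) ^ 3 ≤ (9 / 128) ^ 3 := pow_le_pow_left₀ (by positivity) h1 3
    have h3 : 96 / c ≤ 96 / 128 := div_le_div_of_nonneg_left (by norm_num) (by norm_num) hc
    have h4 : ((9 : ℝ) / 128) ^ 3 ≤ 1 - 96 / 128 := by norm_num
    linarith
  have hErr : ∀ J ≤ 3, ∑ k ∈ range (J + 1), es rho B k * (2 : ℝ) ^ (29 * c) ≤ ER c 2048 := by
    intro J hJ
    rw [← sum_mul]
    refine le_trans (mul_le_mul_of_nonneg_right ?_ (by positivity)) hERc
    refine le_trans ?_ hsum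
    apply sum_le_sum_of_subset_of_nonneg
    · intro k hk
      rw [mem_range] at hk ⊢
      omega
    · intro k _ _; exact hrho0 k
  have f1 : (0.00001 : ℝ) ≤ (look GT 2048 : ℝ) / SD := by
    rw [le_div_iff₀ hS]
    have : ((10000000 : ℕ) : ℝ) ≤ (look GT 2048 : ℝ) := by exact_mod_cast hG
    unfold SD
    push_cast at this ⊢
    linarith
  have f2 : (0.00001 : ℝ) ≤ (look HT 2048 : ℝ) / SD := by
    rw [le_div_iff₀ hS]
    have : ((10000000 : ℕ) : ℝ) ≤ (look HT 2048 : ℝ) := by exact_mod_cast hH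
    unfold SD
    push_cast at this ⊢
    linarith
  have h0 := hes 0
  have h1 := hes 1
  have h2 := hes 2
  have h3 := hes 3
  have h4 := hes 4
  norm_num [Nat.factorial] at h0 h1 h2 h3 h4
  rw [← hun]
  constructor
  · refine Nd.step (J := 3) (E := fun _ => (2 : ℝ) ^ (29 * c)) (x := fun _ => 0.000001) (by decide) hSp hBp hBS
      (fun k _ => hall (1 + k)) hV ?_ ?_ (hErr 3 le_rfl)
    · exact add_nonneg (sum_nonneg (fun k _ => mul_nonneg (hes0 k) (by norm_num))) (hes0 _)
    · refine le_trans ?_ f1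
      rw [← sum_mul]
      simp only [Finset.sum_range_succ, Finset.sum_range_zero]
      linarith
  · refine Nd.step (J := 2) (E := fun _ => (2 : ℝ) ^ (29 * c)) (x := fun _ => 0.000001) (by decide) hSp hBp hBS
      (fun k _ => hall (0 + k)) hV ?_ ?_ (hErr 2 (by norm_num))
    · exact add_nonneg (sum_nonneg (fun k _ => mul_nonneg (hes0 k) (by norm_num))) (hes0 _)
    · refine le_trans ?_ f2
      rw [← sum_mul]
      simp only [Finset.sum_range_succ, Finset.sum_range_zero]
      linarith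

end Pool.Agent.H91.Gold
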