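import Mathlib
import Pool.Agent.H91.G5U0
import Pool.Agent.H91.G5T0
import Pool.Agent.H91.G5UTail
import Pool.Agent.H91.G5T

/-!
Kernel check of the universal tables.
-/

namespace Pool.Agent.H91.Gold

theorem u5e : eL 13 0 SD = u5l := by decide +kernel

theorem u5r0 : rowsU u5G u5H u5l 0 256 = true := by
  decide +kernel

theorem u5r1 : rowsU u5G u5H u5l 256 256 = true := by
  decide +kernel

theorem u5r2 : rowsU u5G u5H u5l 512 256 = true := by
  decide +kernel

theorem u5r3 : rowsU u5G u5H u5l 768 256 = true := by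
  decide +kernel

theorem u5r4 : rowsU u5G u5H u5l 1024 256 = true := by
  decide +kernel

theorem u5r5 : rowsU u5G u5H u5l 1280 256 = true := by
  decide +kernel

theorem u5r6 : rowsU u5G u5H u5l 1536 256 = true := by
  decide +kernel

theorem u5r7 : rowsU u5G u5H u5l 1792 256 = true := by
  decide +kernel

/-- Check of the base rows `a ≤ j < a + n`. -/
def baseUs (GT HT TG TH bm a : ℕ) : ℕ → Bool
  | 0 => true
  | n + 1 => baseU GT HT TG TH bm (a + n) && baseUs GT HT TG TH bm a n

theorem baseUs_mem {GT HT TG TH bm a : ℕ} (n : ℕ)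
    (h : baseUs GT HT TG TH bm a n = true) : ∀ j, a ≤ j → j < a + n → baseU GT HT TG TH bm j = true := by
  induction n with
  | zero => intro B h1 h2; omega
  | succ n ih =>
    intro B h1 h2
    unfold baseUs at h
    rw [Bool.and_eq_true] at h
    rcases Nat.lt_or_ge B (a + n) with h3 | h3
    · exact ih h.2 B h1 h3
    · have : B = a + n := by omega
      rw [this]; exact h.1

theorem u5b0 : baseUs u5G u5H q5G256 q5H256 2562 0 512 = true := by
  decide +kernel

theorem u5b1 : baseUs u5G u5H q5G256 q5H256 2562 512 512 = true := by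
  decide +kernel

theorem u5b2 : baseUs u5G u5H q5G256 q5H256 2562 1024 512 = true := by
  decide +kernel

theorem u5b3 : baseUs u5G u5H q5G256 q5H256 2562 1536 513 = true := by
  decide +kernel

theorem u5base : UOK 128 u5G u5H := by
  apply UOK_base q5L256
  intro j hj
  rcases Nat.lt_or_ge j 512 with h0 | h0
  · exact baseUs_mem _ u5b0 j (by omega) (by omega)
  rcases Nat.lt_or_ge j 1024 with h1 | h1
  · exact baseUs_mem _ u5b1 j (by omega) (by omega)
  rcases Nat.lt_or_ge j 1536 with h2 | h2
  · exact baseUs_mem _ u5b2 j (by omega) (by omega)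
  exact baseUs_mem _ u5b3 j (by omega) (by omega)

theorem u5rows : ∀ j, j < 2048 → rowU u5G u5H u5l j = true := by
  intro j hj
  rcases Nat.lt_or_ge j 256 with h0 | h0
  · exact rowsU_mem _ u5r0 j (by omega) (by omega)
  rcases Nat.lt_or_ge j 512 with h1 | h1
  · exact rowsU_mem _ u5r1 j (by omega) (by omega)
  rcases Nat.lt_or_ge j 768 with h2 | h2
  · exact rowsU_mem _ u5r2 j (by omega) (by omega)
  rcases Nat.lt_or_ge j 1024 with h3 | h3
  · exact rowsU_mem _ u5r3 j (by omega) (by omega)
  rcases Nat.lt_or_ge j 1280 with h4 | h4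
  · exact rowsU_mem _ u5r4 j (by omega) (by omega)
  rcases Nat.lt_or_ge j 1536 with h5 | h5
  · exact rowsU_mem _ u5r5 j (by omega) (by omega)
  rcases Nat.lt_or_ge j 1792 with h6 | h6
  · exact rowsU_mem _ u5r6 j (by omega) (by omega)
  exact rowsU_mem _ u5r7 j (by omega) (by omega)

theorem u5tG : 10000000 ≤ look u5G 2048 := by decide +kernel

theorem u5tH : 10000000 ≤ look u5H 2048 := by decide +kernel

/-- The level number `m`. -/
noncomputable def cs (m : ℕ) : ℝ := 128 * (11 / 10) ^ m

theorem cs_ge (m : ℕ) : 128 ≤ cs m := by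
  unfold cs
  have : (1 : ℝ) ≤ (11 / 10) ^ m := one_le_pow₀ (by norm_num)
  linarith

theorem cs_succ (m : ℕ) : cs (m + 1) = 11 / 10 * cs m := by
  unfold cs; rw [pow_succ]; ring

/-- The universal tables are sound at all levels. -/
theorem u5OK (m : ℕ) : UOK (cs m) u5G u5H := by
  induction m with
  | zero =>
    have : cs 0 = 128 := by unfold cs; norm_num
    rw [this]; exact u5base
  | succ m ih =>
    rw [cs_succ]
    apply UOK_step (cs_ge m) ih u5e u5rows
    rw [← cs_succ]
    exact tail_ok (cs_ge _) u5tG u5tH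

end Pool.Agent.H91.Gold
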