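import Mathlib
import Pool.Agent.H91.G5U
import Pool.Agent.H91.G5Sum

/-!
The key proposition for large indices.
-/

namespace Pool.Agent.H91.Gold

open Finset

theorem Nd_one (N lo : ℤ) (X : ℕ) {S : Finset ℕ} (hS : ∀ p ∈ S, p.Prime) :
    Nd N lo X 0 S 1 (1 / VV S - 1) := by
  have hV := VV_pos hS
  refine ⟨fun _ => 1, 1, ?_, (Sv_one N lo X).mono (empty_subset S) le_rfl, ?_⟩
  · intro a
    have := nf_le_one5 N S a
    simpa using this
  · rw [pow_zero, one_mul, sub_mul, one_mul, one_div, inv_mul_cancel₀ hV.ne']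

/-- Growth of the error reserve. -/
theorem sq_le_rpow {c : ℝ} (hc : 128 ≤ c) : c ^ 2 * 1024 ≤ (2 : ℝ) ^ (3 / 16 * c) := by
  have hc0 : 0 < c := by linarith
  have l2 := Real.log_two_gt_d9
  have h1 := Real.log_le_sub_one_of_pos (x := c / 128) (by positivity)
  rw [Real.log_div hc0.ne' (by norm_num)] at h1
  have h128 : Real.log 128 = 7 * Real.log 2 := by
    rw [show (128 : ℝ) = 2 ^ 7 by norm_num, Real.log_pow]; norm_num
  have h1024 : Real.log 1024 = 10 * Real.log 2 := by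
    rw [show (1024 : ℝ) = 2 ^ 10 by norm_num, Real.log_pow]; norm_num
  rw [← Real.log_le_log_iff (by positivity) (by positivity), Real.log_mul (by positivity) (by norm_num),
    Real.log_pow, Real.log_rpow (by norm_num), h1024]
  rw [h128] at h1
  push_cast
  nlinarith

/-- The numbers attached to a large index. -/
structure LI (c : ℝ) (i jv : ℕ) : Prop where
  hc : 128 ≤ c
  h1 : 154 ≤ jv
  h2 : jv ≤ 169
  h3 : (jv : ℝ) / 16 * c ≤ i
  h4 : (i : ℝ) < ((jv : ℝ) + 1) / 16 * c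

theorem LI.i_ge {c : ℝ} {i jv : ℕ} (h : LI c i jv) : 1232 ≤ i := by
  have h1 : (154 : ℝ) ≤ jv := by exact_mod_cast h.h1
  have h2 := h.hc
  have h3 := h.h3
  have : (1232 : ℝ) ≤ i := by nlinarith
  exact_mod_cast this

theorem LI.c_le {c : ℝ} {i jv : ℕ} (h : LI c i jv) : 9.625 * c ≤ i := by
  have h1 : (154 : ℝ) ≤ jv := by exact_mod_cast h.h1
  have h2 := h.hc
  have h3 := h.h3
  nlinarith

theorem zr_le_zc {c : ℝ} {i : ℕ} (h : 2 * c ≤ i) : zr c ≤ zc i := by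
  unfold zc
  rw [Nat.le_sqrt]
  have h1 := zr_le c
  have h2 : ((zr c * zr c : ℕ) : ℝ) ≤ ((2 ^ i : ℕ) : ℝ) := by
    push_cast
    calc (zr c : ℝ) * zr c ≤ (2 : ℝ) ^ c * (2 : ℝ) ^ c := by gcongr
      _ = (2 : ℝ) ^ (2 * c) := by rw [← Real.rpow_add (by norm_num)]; congr 1; ring
      _ ≤ (2 : ℝ) ^ (i : ℝ) := Real.rpow_le_rpow_of_exponent_le (by norm_num) h
      _ = 2 ^ i := Real.rpow_natCast _ _
  exact_mod_cast h2

theorem zc_le_zr {c : ℝ} {i : ℕ} (h : (i : ℝ) ≤ 2 * c) : zc i ≤ zr c := by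
  unfold zr
  apply Nat.le_floor
  have h1 := zc_sq_le i
  have h2 : (zc i : ℝ) * zc i ≤ (2 : ℝ) ^ c * (2 : ℝ) ^ c := by
    calc (zc i : ℝ) * zc i = ((zc i * zc i : ℕ) : ℝ) := by push_cast; ring
      _ ≤ ((2 ^ i : ℕ) : ℝ) := by exact_mod_cast h1
      _ = (2 : ℝ) ^ (i : ℝ) := by rw [Real.rpow_natCast]; push_cast; rfl
      _ ≤ (2 : ℝ) ^ (2 * c) := Real.rpow_le_rpow_of_exponent_le (by norm_num) h
      _ = (2 : ℝ) ^ c * (2 : ℝ) ^ c := by rw [← Real.rpow_add (by norm_num)]; congr 1; ring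
  exact abs_le_of_sq_le_sq' (by nlinarith) (by positivity) |>.2

/-- The length of the interval. -/
theorem X_facts {i : ℕ} (hi : 1232 ≤ i) :
    (2 : ℝ) ^ i ≤ 2.0001 * ((2 ^ (i - 1) - 1 : ℕ) : ℝ) ∧ (0 : ℝ) < ((2 ^ (i - 1) - 1 : ℕ) : ℝ) := by
  have h1 : 2 ^ 20 ≤ 2 ^ (i - 1) := two_pow_le_two_pow (by omega)
  have h2 : (2 : ℝ) ^ i = 2 * 2 ^ (i - 1) := by
    rw [← pow_succ']; congr 1; omega
  have h3 : (2 : ℝ) ^ 20 ≤ 2 ^ (i - 1) := by exact_mod_cast h1
  have h4 : ((2 ^ (i - 1) - 1 : ℕ) : ℝ) = 2 ^ (i - 1) - 1 := by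
    rw [Nat.cast_sub (by omega)]; push_cast; ring
  rw [h4, h2]
  constructor <;> nlinarith

/-- The error unit against the main term. -/
theorem Q_le {c : ℝ} {i jv : ℕ} (h : LI c i jv) :
    (2 : ℝ) ^ ((i : ℝ) - 3 / 16 * c) ≤ 0.002364 * (((2 ^ (i - 1) - 1 : ℕ) : ℝ) * VV (Pr 1 (zr c))) := by
  have hc := h.hc
  have hc0 : 0 < c := by linarith
  obtain ⟨x1, x2⟩ := X_facts h.i_ge
  have hV := VV_real hc
  have hV0 : 0 < VV (Pr 1 (zr c)) := VV_pos Pr_prime
  have hs := sq_le_rpow hc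
  set X : ℝ := ((2 ^ (i - 1) - 1 : ℕ) : ℝ) with hX
  set V := VV (Pr 1 (zr c)) with hVd
  rw [Real.rpow_sub (by norm_num), Real.rpow_natCast, div_le_iff₀ (by positivity)]
  have e1 : (2 : ℝ) ^ i ≤ 2.0001 * X * (1.21 * c ^ 2 * V) := by
    calc (2 : ℝ) ^ i ≤ 2.0001 * X := x1
      _ ≤ 2.0001 * X * (1.21 * c ^ 2 * V) := le_mul_of_one_le_right (by positivity) hV
  have hXV : 0 < X * V := mul_pos x2 hV0
  calc (2 : ℝ) ^ i ≤ 2.0001 * X * (1.21 * c ^ 2 * V) := e1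
    _ = (2.0001 * 1.21 / 1024) * (X * V) * (c ^ 2 * 1024) := by ring
    _ ≤ (2.0001 * 1.21 / 1024) * (X * V) * (2 : ℝ) ^ (3 / 16 * c) := by gcongr
    _ ≤ 0.002364 * (X * V) * (2 : ℝ) ^ (3 / 16 * c) := by
        gcongr
        norm_num

/-- Upper end of the class number `m`. -/
noncomputable def ue (c : ℝ) (i m : ℕ) : ℕ := min (zr ((m : ℝ) / 16 * c)) (zc i)

theorem ue_mono {c : ℝ} (hc : 128 ≤ c) (i m : ℕ) : ue c i m ≤ ue c i (m + 1) := by
  unfold ue
  apply min_le_min_right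
  apply zr_mono
  push_cast
  nlinarith

theorem ue_le (c : ℝ) (i m : ℕ) : ue c i m ≤ zc i := min_le_right _ _

theorem LI.zr_le_ue {c : ℝ} {i jv m : ℕ} (h : LI c i jv) (hm : 16 ≤ m) : zr c ≤ ue c i m := by
  have hc := h.hc
  have hm' : (16 : ℝ) ≤ m := by exact_mod_cast hm
  unfold ue
  apply le_min
  · apply zr_mono; nlinarith
  · apply zr_le_zc
    have := h.c_le
    linarith

/-- Weight bound in the class number `m`. -/
theorem w2_class {c : ℝ} {i jv m p : ℕ} (h : LI c i jv) (hm : 16 ≤ m) (hmj : 2 * m < jv + 1)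
    (hp : p ∈ Pr (ue c i m) (ue c i (m + 1))) :
    w2 i p ≤ ((8 * (jv + 1) - 16 * m : ℕ) : ℝ) / (2 * ((8 * (jv + 1) - 1 : ℕ) : ℝ)) := by
  have hc := h.hc
  have hc0 : 0 < c := by linarith
  have hi := h.i_ge
  have hp1 := mem_Pr.1 hp
  have hpi : p ≤ zc i := hp1.1.2.trans (ue_le _ _ _)
  have hzr : zr ((m : ℝ) / 16 * c) < p := by
    by_contra hcon
    have h5 : p ≤ zr ((m : ℝ) / 16 * c) := not_lt.1 hcon
    have : p ≤ ue c i m := le_min h5 hpi
    omega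
  have h2 : 0 < Real.log 2 := Real.log_pos (by norm_num)
  have hpr : (0 : ℝ) < p := by exact_mod_cast hp1.2.pos
  have hlog : (m : ℝ) / 16 * c ≤ Real.log p / Real.log 2 := by
    rw [le_div_iff₀ h2, ← Real.log_rpow (by norm_num)]
    apply Real.log_le_log (by positivity)
    have h6 := lt_zr ((m : ℝ) / 16 * c)
    have h7 : ((zr ((m : ℝ) / 16 * c) : ℕ) : ℝ) + 1 ≤ p := by exact_mod_cast hzr
    linarith
  unfold w2
  have hi' : (1232 : ℝ) ≤ i := by exact_mod_cast hi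
  have e1 : ((8 * (jv + 1) - 16 * m : ℕ) : ℝ) = 8 * ((jv : ℝ) + 1) - 16 * m := by
    rw [Nat.cast_sub (by omega)]; push_cast; ring
  have e2 : ((8 * (jv + 1) - 1 : ℕ) : ℝ) = 8 * ((jv : ℝ) + 1) - 1 := by
    rw [Nat.cast_sub (by omega)]; push_cast; ring
  rw [e1, e2]
  have hjr : (154 : ℝ) ≤ jv := by exact_mod_cast h.h1
  have hmr : (16 : ℝ) ≤ m := by exact_mod_cast hm
  have hmj' : 2 * (m : ℝ) ≤ jv + 1 := by
    have : 2 * m ≤ jv + 1 := by omega
    exact_mod_cast this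
  rw [div_le_div_iff₀ (by linarith) (by linarith)]
  set a : ℝ := 8 * ((jv : ℝ) + 1) with ha
  have k1 : 0 ≤ (16 * (m : ℝ) - 1) * (a * c / 128 - i) := by
    apply mul_nonneg (by linarith)
    have := h.h4
    rw [ha]
    linarith
  have k2 : 0 ≤ (a - 16 * m) * (c / 128 - 1) := by
    apply mul_nonneg
    · rw [ha]; linarith
    · linarith
  have k3 : ((i : ℝ) - 2 * ((m : ℝ) / 16 * c)) * (a - 1) ≤ (a - 16 * m) * ((i : ℝ) - 1) := by
    have : (a - 16 * m) * ((i : ℝ) - 1) - ((i : ℝ) - 2 * ((m : ℝ) / 16 * c)) * (a - 1)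
        = (16 * (m : ℝ) - 1) * (a * c / 128 - i) + (a - 16 * m) * (c / 128 - 1) := by ring
    linarith
  have k4 : ((i : ℝ) - 2 * (Real.log p / Real.log 2)) * (a - 1)
      ≤ ((i : ℝ) - 2 * ((m : ℝ) / 16 * c)) * (a - 1) := by
    apply mul_le_mul_of_nonneg_right _ (by rw [ha]; linarith)
    linarith
  linarith

/-- The contribution of the squares of primes is negligible. -/
theorem sq_err {c X V n E Q : ℝ} (hc : 128 ≤ c) (x2 : 0 < X) (hV0 : 0 < V)
    (hVr : (1 : ℝ) ≤ 1.21 * c ^ 2 * V) (hn0 : 0 < n) (hE : (2 : ℝ) ^ 100 ≤ E)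
    (hnE : n * E ≤ 4.5 / 128 * Q) (hQ : Q ≤ 0.002364 * (X * V)) :
    X * V * (2 * (1 + (1 / V - 1)) * (2 / (2 : ℝ) ^ c)) + 2 * (n * 1) ≤ X * V / SD * 1 := by
  have hXV : 0 < X * V := mul_pos x2 hV0
  have s1 := sq_le_rpow hc
  have s2 : (2 : ℝ) ^ (3 / 16 * c) * (2 : ℝ) ^ 100 ≤ (2 : ℝ) ^ c := by
    rw [← Real.rpow_natCast, ← Real.rpow_add (by norm_num)]
    apply Real.rpow_le_rpow_of_exponent_le (by norm_num)
    push_cast
    linarith
  have hpc : 0 < (2 : ℝ) ^ c := by positivity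
  have e1 : X * V * (2 * (1 + (1 / V - 1)) * (2 / (2 : ℝ) ^ c)) = X * (4 / (2 : ℝ) ^ c) := by
    field_simp
    ring
  have s5 : c ^ 2 * 1024 * 2 ^ 100 ≤ (2 : ℝ) ^ c := by
    refine le_trans ?_ s2
    exact mul_le_mul_of_nonneg_right s1 (by positivity)
  have s6 : V * (c ^ 2 * 1024 * 2 ^ 100) ≤ V * (2 : ℝ) ^ c := mul_le_mul_of_nonneg_left s5 hV0.le
  have s7 : (1024 : ℝ) * 2 ^ 100 / 1.21 ≤ V * (c ^ 2 * 1024 * 2 ^ 100) := by
    rw [div_le_iff₀ (by norm_num)]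
    calc (1024 : ℝ) * 2 ^ 100 = 1024 * 2 ^ 100 * 1 := by ring
      _ ≤ 1024 * 2 ^ 100 * (1.21 * c ^ 2 * V) := mul_le_mul_of_nonneg_left hVr (by positivity)
      _ = _ := by ring
  have s8 : (8 : ℝ) * 10 ^ 12 ≤ 1024 * 2 ^ 100 / 1.21 := by norm_num
  have s9 : (8 : ℝ) * 10 ^ 12 ≤ V * (2 : ℝ) ^ c := s8.trans (s7.trans s6)
  have s3 : 4 / (2 : ℝ) ^ c ≤ 0.5 * 0.000000000001 * V := by
    rw [div_le_iff₀ hpc]
    have : 0.5 * 0.000000000001 * V * (2 : ℝ) ^ c = 0.5 * 0.000000000001 * (V * (2 : ℝ) ^ c) := by ring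
    rw [this]
    have s10 : (0.5 * 0.000000000001 : ℝ) * ((8 : ℝ) * 10 ^ 12) ≤ 0.5 * 0.000000000001 * (V * (2 : ℝ) ^ c) :=
      mul_le_mul_of_nonneg_left s9 (by norm_num)
    refine le_trans ?_ s10
    norm_num
  have e2 : X * (4 / (2 : ℝ) ^ c) ≤ 0.5 * 0.000000000001 * (X * V) := by
    calc X * (4 / (2 : ℝ) ^ c) ≤ X * (0.5 * 0.000000000001 * V) := mul_le_mul_of_nonneg_left s3 x2.le
      _ = _ := by ring
  have t1 : n * 2 ^ 100 ≤ 0.000084 * (X * V) := by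
    calc n * 2 ^ 100 ≤ n * E := mul_le_mul_of_nonneg_left hE hn0.le
      _ ≤ 4.5 / 128 * Q := hnE
      _ ≤ 4.5 / 128 * (0.002364 * (X * V)) := mul_le_mul_of_nonneg_left hQ (by norm_num)
      _ = (4.5 / 128 * 0.002364) * (X * V) := by ring
      _ ≤ _ := mul_le_mul_of_nonneg_right (by norm_num) hXV.le
  have t2 : n ≤ 0.000084 / 2 ^ 100 * (X * V) := by
    rw [div_mul_eq_mul_div, le_div_iff₀ (by positivity)]
    exact t1
  have t3 : 2 * (0.000084 / 2 ^ 100) ≤ (0.5 * 0.000000000001 : ℝ) := by norm_num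
  have e3 : 2 * (n * 1) ≤ 0.5 * 0.000000000001 * (X * V) := by
    calc 2 * (n * 1) = 2 * n := by ring
      _ ≤ 2 * (0.000084 / 2 ^ 100 * (X * V)) := mul_le_mul_of_nonneg_left t2 (by norm_num)
      _ = (2 * (0.000084 / 2 ^ 100)) * (X * V) := by ring
      _ ≤ _ := mul_le_mul_of_nonneg_right t3 hXV.le
  have e4 : X * V / SD * 1 = 0.000000000001 * (X * V) := by
    unfold SD; push_cast; ring
  rw [e1, e4]
  linarith

/-- The weighted sum over one class. -/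
theorem class_U {c : ℝ} {i jv m GT HT : ℕ} (h : LI c i jv) (hT : UOK c GT HT) (hm : 16 ≤ m)
    (hmj : 2 * m < jv + 1) (N lo : ℤ) :
    ∑ p ∈ Pr (ue c i m) (ue c i (m + 1)), bigT N lo (2 ^ (i - 1) - 1) (Pr 1 (zr c)) (w2 i) p
      ≤ (((2 ^ (i - 1) - 1 : ℕ) : ℝ) * VV (Pr 1 (zr c)) / SD)
        * ((((SD + look HT (4 * jv - 4 * (m + 1) - 12)) * (8 * (jv + 1) - 16 * m)
              / (8 * (jv + 1) - 1) + 1 : ℕ) : ℝ) * (∑ p ∈ Pr (ue c i m) (ue c i (m + 1)), (1 : ℝ) / p)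
          + ((84000000 * (8 * (jv + 1) - 16 * m) / (8 * (jv + 1) - 1) + 1 : ℕ) : ℝ) + 1) := by
  have hS := SD_pos
  have hc := h.hc
  have hc0 : 0 < c := by linarith
  have hi := h.i_ge
  obtain ⟨x1, x2⟩ := X_facts hi
  have hQ := Q_le h
  have hVr := VV_real hc
  set Xn := 2 ^ (i - 1) - 1 with hXn
  set V := VV (Pr 1 (zr c)) with hVd
  have hV0 : 0 < V := VV_pos Pr_prime
  set C := Pr (ue c i m) (ue c i (m + 1)) with hC
  set b := 4 * jv - 4 * (m + 1) - 12 with hb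
  have hj1 := h.h1
  have hj2 := h.h2
  have hb32 : 32 ≤ b := by omega
  have hb2048 : b ≤ 2048 := by omega
  set wn := 8 * (jv + 1) - 16 * m with hwn
  set dn := 8 * (jv + 1) - 1 with hdn
  have hdn0 : 0 < dn := by omega
  have hdr : (0 : ℝ) < (dn : ℝ) := by exact_mod_cast hdn0
  obtain ⟨_, n2⟩ := hT b hb2048 N lo Xn
  have n1 := n2 hb32
  have n3 := Nd_one N lo Xn (S := Pr 1 (zr c)) Pr_prime
  rw [← hVd] at n3
  have hmr : (16 : ℝ) ≤ m := by exact_mod_cast hm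
  have hE0 : 0 ≤ ER c b := by
    unfold ER
    have : 0 ≤ 1 - 96 / c := by
      rw [sub_nonneg, div_le_one (by linarith)]; linarith
    positivity
  have hzc := h.zr_le_ue hm
  have hz128 := zr_ge128 hc
  -- number of primes
  set n : ℝ := 4.5 / 128 * (2 : ℝ) ^ ((((m + 1 : ℕ)) : ℝ) / 16 * c) with hn
  have hn0 : 0 < n := by positivity
  have hcard : (C.card : ℝ) ≤ n := by
    have h1 : C ⊆ Pr (ue c i m) (zr ((((m + 1 : ℕ)) : ℝ) / 16 * c)) := by
      intro p hp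
      have := mem_Pr.1 hp
      exact mem_Pr.2 ⟨⟨this.1.1, this.1.2.trans (min_le_left _ _)⟩, this.2⟩
    have hcc : 128 ≤ (((m + 1 : ℕ)) : ℝ) / 16 * c := by
      push_cast
      nlinarith
    have h2 := card_real hcc (ue c i m) (le_trans (le_trans (by norm_num) hz128) hzc)
    have h3 : (C.card : ℝ) ≤ ((Pr (ue c i m) (zr ((((m + 1 : ℕ)) : ℝ) / 16 * c))).card : ℝ) := by
      exact_mod_cast card_le_card h1
    refine h3.trans (h2.trans ?_)
    apply mul_le_mul_of_nonneg_right _ (by positivity)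
    exact div_le_div_of_nonneg_left (by norm_num) (by norm_num) hcc
  -- the error
  have hnE : n * ER c b ≤ 4.5 / 128 * (2 : ℝ) ^ ((i : ℝ) - 3 / 16 * c) := by
    have h1 : ER c b ≤ (2 : ℝ) ^ ((b : ℝ) * c / 64) := by
      unfold ER
      apply mul_le_of_le_one_left (by positivity)
      have : 0 ≤ 96 / c := by positivity
      linarith
    have h2 : (b : ℝ) = 4 * jv - 4 * (m + 1) - 12 := by
      rw [hb, Nat.cast_sub (by omega), Nat.cast_sub (by omega)]; push_cast; ring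
    calc n * ER c b ≤ n * (2 : ℝ) ^ ((b : ℝ) * c / 64) := mul_le_mul_of_nonneg_left h1 hn0.le
      _ = 4.5 / 128 * ((2 : ℝ) ^ ((((m + 1 : ℕ)) : ℝ) / 16 * c) * (2 : ℝ) ^ ((b : ℝ) * c / 64)) := by
          rw [hn]; ring
      _ = 4.5 / 128 * (2 : ℝ) ^ ((jv : ℝ) / 16 * c - 3 / 16 * c) := by
          rw [← Real.rpow_add (by norm_num), h2]
          congr 2
          push_cast
          ring
      _ ≤ _ := by
          apply mul_le_mul_of_nonneg_left _ (by norm_num)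
          apply Real.rpow_le_rpow_of_exponent_le (by norm_num)
          have := h.h3
          linarith
  have hEbig : (2 : ℝ) ^ 100 ≤ ER c b := by
    unfold ER
    have h3 : 96 / c ≤ 96 / 128 := div_le_div_of_nonneg_left (by norm_num) (by norm_num) hc
    have h4 : (2 : ℝ) ^ ((102 : ℕ) : ℝ) ≤ (2 : ℝ) ^ ((b : ℝ) * c / 64) := by
      apply Real.rpow_le_rpow_of_exponent_le (by norm_num)
      have : (64 : ℝ) ≤ b := by
        have : 64 ≤ b := by omega
        exact_mod_cast this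
      push_cast
      rw [le_div_iff₀ (by norm_num)]
      nlinarith
    rw [Real.rpow_natCast] at h4
    have h5 : (2 : ℝ) ^ 102 = 4 * 2 ^ 100 := by norm_num
    have h6 : (1 : ℝ) / 4 ≤ 1 - 96 / c := by linarith
    have h7 : 0 ≤ (2 : ℝ) ^ ((b : ℝ) * c / 64) := by positivity
    calc (2 : ℝ) ^ 100 = 1 / 4 * 2 ^ 102 := by rw [h5]; ring
      _ ≤ (1 - 96 / c) * (2 : ℝ) ^ ((b : ℝ) * c / 64) := by
          apply mul_le_mul h6 h4 (by positivity) (by linarith)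
  set q : ℝ := 2 / (2 : ℝ) ^ c with hq
  have hqsum : ∑ p ∈ C, (1 : ℝ) / (p ^ 2 : ℕ) ≤ q := by
    have h1 : C ⊆ Pr (zr c) (ue c i (m + 1)) := by
      intro p hp
      have := mem_Pr.1 hp
      exact mem_Pr.2 ⟨⟨lt_of_le_of_lt hzc this.1.1, this.1.2⟩, this.2⟩
    have h2 := sq_sum_le (x := zr c) (le_trans (by norm_num) hz128) (ue c i (m + 1))
    have h3 : ∑ p ∈ C, (1 : ℝ) / (p ^ 2 : ℕ) ≤ ∑ p ∈ Pr (zr c) (ue c i (m + 1)), (1 : ℝ) / (p ^ 2 : ℕ) :=
      sum_le_sum_of_subset_of_nonneg h1 (fun _ _ _ => by positivity)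
    refine h3.trans (h2.trans ?_)
    have h4 := lt_zr c
    have h5 : (1 : ℝ) ≤ zr c := by exact_mod_cast (le_trans (by norm_num) hz128)
    have hz0 : (0 : ℝ) < zr c := by linarith
    rw [hq, div_le_div_iff₀ hz0 (by positivity)]
    linarith
  have hcl := class_nd (N := N) (lo := lo) (X := Xn) (S := Pr 1 (zr c)) (C := C) (w := w2 i)
    (W := (wn : ℝ) / (2 * (dn : ℝ))) (q := q) (n := n)
    Pr_prime Pr_prime (by
      intro p hp hmem'
      have a1 := (mem_Pr.1 hp).1.1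
      have a2 := (mem_Pr.1 hmem').1.2
      omega) (by
      intro p hp
      apply w2_nonneg (z := ue c i m) (by omega)
      have a1 := mem_Pr.1 hp
      exact mem_Pr.2 ⟨⟨a1.1.1, a1.1.2.trans (ue_le _ _ _)⟩, a1.2⟩)
    (fun p hp => w2_class h hm hmj hp)
    (by positivity) n1 n3 (by
      have : 0 < 1 / V := by positivity
      linarith) hE0 (by norm_num) hqsum hcard
  refine hcl.trans ?_
  have hs0 : 0 ≤ ∑ p ∈ C, (1 : ℝ) / p := sum_nonneg (fun p _ => by positivity)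
  have hK : 0 < (Xn : ℝ) * V / SD := by positivity
  have f1 : 1 + (look HT b : ℝ) / SD = ((SD + look HT b : ℕ) : ℝ) / SD := by
    push_cast; field_simp
  rw [f1]
  have p1 : (Xn : ℝ) * V * (2 * ((wn : ℝ) / (2 * (dn : ℝ))) * (((SD + look HT b : ℕ) : ℝ) / SD) * ∑ p ∈ C, (1 : ℝ) / p)
      ≤ (Xn : ℝ) * V / SD * ((((SD + look HT b) * wn / dn + 1 : ℕ) : ℝ) * (∑ p ∈ C, (1 : ℝ) / p)) := by
    have e1 := div_up ((SD + look HT b) * wn) dn hdn0
    have e3 : (Xn : ℝ) * V * (2 * ((wn : ℝ) / (2 * (dn : ℝ))) * (((SD + look HT b : ℕ) : ℝ) / SD) * ∑ p ∈ C, (1 : ℝ) / p)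
        = (Xn : ℝ) * V / SD * (((((SD + look HT b) * wn : ℕ) : ℝ) / dn) * (∑ p ∈ C, (1 : ℝ) / p)) := by
      rw [Nat.cast_mul]
      field_simp
    rw [e3]
    apply mul_le_mul_of_nonneg_left _ hK.le
    exact mul_le_mul_of_nonneg_right e1 hs0
  have hXV : 0 < (Xn : ℝ) * V := mul_pos x2 hV0
  have p2 : 2 * ((wn : ℝ) / (2 * (dn : ℝ))) * (n * ER c b)
      ≤ (Xn : ℝ) * V / SD * ((84000000 * wn / dn + 1 : ℕ) : ℝ) := by
    have e1 := div_up (84000000 * wn) dn hdn0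
    have e2 : n * ER c b ≤ 0.000084 * ((Xn : ℝ) * V) := by
      refine hnE.trans ?_
      calc 4.5 / 128 * (2 : ℝ) ^ ((i : ℝ) - 3 / 16 * c) ≤ 4.5 / 128 * (0.002364 * ((Xn : ℝ) * V)) :=
            mul_le_mul_of_nonneg_left hQ (by norm_num)
        _ = (4.5 / 128 * 0.002364) * ((Xn : ℝ) * V) := by ring
        _ ≤ _ := mul_le_mul_of_nonneg_right (by norm_num) hXV.le
    calc 2 * ((wn : ℝ) / (2 * (dn : ℝ))) * (n * ER c b)
        ≤ 2 * ((wn : ℝ) / (2 * (dn : ℝ))) * (0.000084 * ((Xn : ℝ) * V)) :=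
          mul_le_mul_of_nonneg_left e2 (by positivity)
      _ = (Xn : ℝ) * V / SD * (((84000000 * wn : ℕ) : ℝ) / dn) := by
          unfold SD; push_cast; field_simp; ring
      _ ≤ _ := mul_le_mul_of_nonneg_left e1 hK.le
  have p3 := sq_err hc x2 hV0 hVr hn0 hEbig hnE hQ
  rw [← hq] at p3
  rw [mul_add, mul_add]
  linarith

/-- Recursion over the classes, infinite range. -/
def goU (jv HT : ℕ) : ℕ → ℕ → ℕ → ℕ × ℕ
  | 0, m, _ => if jv + 1 ≤ 2 * m then (0, 0) else (0, BIG)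
  | f + 1, m, S =>
    if jv + 1 ≤ 2 * m then (0, 0) else
      let S2 := S + (SD * (2 * m + 1) / (2 * m * (m + 1)) + 1)
      let r := goU jv HT f (m + 1) S2
      let W := max ((SD + look HT (4 * jv - 4 * (m + 1) - 12)) * (8 * (jv + 1) - 16 * m)
              / (8 * (jv + 1) - 1) + 1) r.1
      (W, r.2 + ((W - r.1) * S2 / SD + 1) + (84000000 * (8 * (jv + 1) - 16 * m) / (8 * (jv + 1) - 1) + 1) + 1)

theorem goU_sound {c : ℝ} {i jv GT HT : ℕ} (h : LI c i jv) (hT : UOK c GT HT) (N lo : ℤ) (f : ℕ) :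
    ∀ (m S : ℕ), 16 ≤ m → Real.log ((m : ℝ) / 16) + 0.002588 ≤ (S : ℝ) / SD →
      (goU jv HT f m S).2 < BIG →
      ∑ p ∈ Pr (ue c i m) (zc i), bigT N lo (2 ^ (i - 1) - 1) (Pr 1 (zr c)) (w2 i) p
        + (((2 ^ (i - 1) - 1 : ℕ) : ℝ) * VV (Pr 1 (zr c)) / SD)
          * (((goU jv HT f m S).1 : ℝ) * ∑ p ∈ Pr (zr c) (ue c i m), (1 : ℝ) / p)
      ≤ (((2 ^ (i - 1) - 1 : ℕ) : ℝ) * VV (Pr 1 (zr c)) / SD) * ((goU jv HT f m S).2 : ℝ) := by
  have hS := SD_pos
  have hc := h.hc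
  have hV0 : 0 < VV (Pr 1 (zr c)) := VV_pos Pr_prime
  obtain ⟨x1, x2⟩ := X_facts h.i_ge
  have hK : 0 < ((2 ^ (i - 1) - 1 : ℕ) : ℝ) * VV (Pr 1 (zr c)) / SD := by positivity
  have hend : ∀ m, jv + 1 ≤ 2 * m → Pr (ue c i m) (zc i) = ∅ := by
    intro m hm
    have h1 : zc i ≤ zr ((m : ℝ) / 16 * c) := by
      apply zc_le_zr
      have h2 : ((jv : ℝ) + 1) ≤ 2 * m := by exact_mod_cast hm
      have h3 := h.h4
      nlinarith
    have h2 : ue c i m = zc i := min_eq_right h1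
    rw [h2, Pr_self]
  induction f with
  | zero =>
    intro m S _ _ h3
    unfold goU at h3 ⊢
    split_ifs at h3 ⊢ with h5
    · rw [hend m h5]; simp
    · exact absurd h3 (lt_irrefl _)
  | succ f ih =>
    intro m S hm hlog h3
    unfold goU at h3 ⊢
    by_cases h5 : jv + 1 ≤ 2 * m
    · rw [if_pos h5, hend m h5]; simp
    · rw [if_neg h5] at h3 ⊢
      simp only at h3 ⊢
      set S2 := S + (SD * (2 * m + 1) / (2 * m * (m + 1)) + 1) with hS2
      set r := goU jv HT f (m + 1) S2 with hr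
      set A := (SD + look HT (4 * jv - 4 * (m + 1) - 12)) * (8 * (jv + 1) - 16 * m)
              / (8 * (jv + 1) - 1) + 1 with hA
      have hr2 : r.2 < BIG :=
        lt_of_le_of_lt (by rw [add_assoc, add_assoc]; exact Nat.le_add_right _ _) h3
      have hm0 : (0 : ℝ) < m := by exact_mod_cast (by omega : 0 < m)
      have hlog2 : Real.log (((m + 1 : ℕ) : ℝ) / 16) + 0.002588 ≤ (S2 : ℝ) / SD := by
        have k1 := log_step (i := m) (by omega)
        have k2 := div_up (SD * (2 * m + 1)) (2 * m * (m + 1)) (by positivity)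
        have k3 : (((2 * m + 1 : ℕ)) : ℝ) / (2 * m * (m + 1) : ℕ)
            ≤ ((SD * (2 * m + 1) / (2 * m * (m + 1)) + 1 : ℕ) : ℝ) / SD := by
          rw [le_div_iff₀ hS]
          refine le_trans (le_of_eq ?_) k2
          push_cast
          ring
        have hm1 : (0 : ℝ) < ((m + 1 : ℕ) : ℝ) := by positivity
        rw [Real.log_div hm1.ne' (by norm_num)]
        rw [Real.log_div hm0.ne' (by norm_num)] at hlog
        have k4 : (S2 : ℝ) / SD = (S : ℝ) / SD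
            + ((SD * (2 * m + 1) / (2 * m * (m + 1)) + 1 : ℕ) : ℝ) / SD := by
          rw [hS2, Nat.cast_add S, add_div]
        rw [k4]
        linarith
      have ih' := ih (m + 1) S2 (by omega) hlog2 hr2
      rw [← hr] at ih'
      have hcl := class_U h hT hm (by omega) N lo
      rw [← hA] at hcl
      have hu1 := h.zr_le_ue hm
      have hu2 := ue_mono hc i m
      have hu3 := ue_le c i (m + 1)
      have hmass : ∑ p ∈ Pr (zr c) (ue c i (m + 1)), (1 : ℝ) / p ≤ (S2 : ℝ) / SD := by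
        refine le_trans ?_ hlog2
        have hmr : (16 : ℝ) ≤ m := by exact_mod_cast hm
        have k1 := mass_real (a := c) (b := (((m + 1 : ℕ)) : ℝ) / 16 * c) hc (by push_cast; nlinarith)
        have k2 : (((m + 1 : ℕ)) : ℝ) / 16 * c / c = (((m + 1 : ℕ)) : ℝ) / 16 := by
          have : c ≠ 0 := by linarith
          field_simp
        rw [k2] at k1
        refine le_trans ?_ k1
        apply sum_le_sum_of_subset_of_nonneg
        · intro p hp
          have := mem_Pr.1 hp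
          exact mem_Pr.2 ⟨⟨this.1.1, this.1.2.trans (min_le_left _ _)⟩, this.2⟩
        · intro p _ _; positivity
      rw [sum_Pr_split _ hu1 hu2] at ih' hmass
      rw [sum_Pr_split _ hu2 hu3]
      set s1 := ∑ p ∈ Pr (zr c) (ue c i m), (1 : ℝ) / p with hs1
      set s2 := ∑ p ∈ Pr (ue c i m) (ue c i (m + 1)), (1 : ℝ) / p with hs2
      have hs10 : 0 ≤ s1 := sum_nonneg (fun p _ => by positivity)
      have hs20 : 0 ≤ s2 := sum_nonneg (fun p _ => by positivity)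
      set Wm := max A r.1 with hWm
      have hWA : (A : ℝ) ≤ Wm := by exact_mod_cast le_max_left A r.1
      have hWr : (r.1 : ℝ) ≤ Wm := by exact_mod_cast le_max_right A r.1
      have hsub : ((Wm - r.1 : ℕ) : ℝ) = (Wm : ℝ) - r.1 := by
        rw [Nat.cast_sub (le_max_right A r.1)]
      have hu := div_up ((Wm - r.1) * S2) SD (by unfold SD; norm_num)
      have h6 : ((Wm : ℝ) - r.1) * (s1 + s2) ≤ (((Wm - r.1) * S2 / SD + 1 : ℕ) : ℝ) := by
        refine le_trans ?_ hu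
        rw [Nat.cast_mul, hsub, mul_div_assoc]
        exact mul_le_mul_of_nonneg_left hmass (by linarith)
      have h7 : (A : ℝ) * s2 + (Wm : ℝ) * s1 ≤ (r.1 : ℝ) * (s1 + s2) + (((Wm - r.1) * S2 / SD + 1 : ℕ) : ℝ) := by
        have : (A : ℝ) * s2 ≤ Wm * s2 := mul_le_mul_of_nonneg_right hWA hs20
        linarith
      have h8 := mul_le_mul_of_nonneg_left h7 hK.le
      rw [Nat.cast_add, Nat.cast_add, Nat.cast_add, mul_add, mul_add, mul_add, Nat.cast_one]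
      rw [mul_add, mul_add] at hcl
      rw [mul_add, mul_add] at h8
      linarith

/-- The computable criterion for the range `jv / 16 ≤ i / c < (jv + 1) / 16`. -/
def finU (jv GT HT : ℕ) : Bool :=
  look GT (4 * jv - 12) + 2400000000 + (goU jv HT 100 16 2588000000).2 + SD / 50 ≤ SD

theorem fin_pow {c : ℝ} {i jv : ℕ} (h : LI c i jv) : 2 ^ (i + 1) ≤ (zr c + 1) ^ 11 := by
  have hc := h.hc
  have h1 := lt_zr c
  have h2 : ((2 ^ (i + 1) : ℕ) : ℝ) ≤ (((zr c + 1) ^ 11 : ℕ) : ℝ) := by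
    push_cast
    have h3 : ((2 : ℝ) ^ c) ^ 11 ≤ ((zr c : ℝ) + 1) ^ 11 := pow_le_pow_left₀ (by positivity) h1.le 11
    refine le_trans ?_ h3
    have h4 : ((2 : ℝ) ^ c) ^ 11 = (2 : ℝ) ^ (c * 11) := by
      rw [Real.rpow_mul (by norm_num)]; norm_cast
    rw [h4]
    have h5 : (2 : ℝ) ^ (i + 1) = (2 : ℝ) ^ (((i + 1 : ℕ)) : ℝ) := by rw [Real.rpow_natCast]
    rw [h5]
    apply Real.rpow_le_rpow_of_exponent_le (by norm_num)
    push_cast
    have h6 := h.h4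
    have h7 : (jv : ℝ) ≤ 169 := by exact_mod_cast h.h2
    nlinarith
  exact_mod_cast h2

theorem fin_count {c : ℝ} {i jv : ℕ} (h : LI c i jv) :
    (2 : ℝ) ^ i / (4 * (i : ℝ) ^ 2) ≤ ((2 ^ (i - 1) - 1 : ℕ) : ℝ) * VV (Pr 1 (zr c)) / 50 := by
  have hc := h.hc
  have hc0 : 0 < c := by linarith
  have hi := h.i_ge
  have hci := h.c_le
  have hV0 : 0 < VV (Pr 1 (zr c)) := VV_pos Pr_prime
  obtain ⟨x1, x2⟩ := X_facts hi
  have hVr := VV_real hc
  have hi0 : (0 : ℝ) < i := by exact_mod_cast (by omega : 0 < i)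
  generalize ((2 ^ (i - 1) - 1 : ℕ) : ℝ) = X at x1 x2 ⊢
  generalize VV (Pr 1 (zr c)) = V at hV0 hVr ⊢
  have hXV : 0 < X * V := mul_pos x2 hV0
  rw [div_le_div_iff₀ (by positivity) (by norm_num)]
  have e7 : 92 * c ^ 2 ≤ (i : ℝ) ^ 2 := by
    have : (9.625 * c) ^ 2 ≤ (i : ℝ) ^ 2 := pow_le_pow_left₀ (by positivity) hci 2
    nlinarith
  calc (2 : ℝ) ^ i * 50 ≤ 2.0001 * X * 50 := mul_le_mul_of_nonneg_right x1 (by norm_num)
    _ ≤ 2.0001 * X * 50 * (1.21 * c ^ 2 * V) := le_mul_of_one_le_right (by positivity) hVr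
    _ = X * V * (2.0001 * 50 * 1.21 * c ^ 2) := by ring
    _ ≤ X * V * (4 * (i : ℝ) ^ 2) := by
        apply mul_le_mul_of_nonneg_left _ hXV.le
        have : 0 ≤ c ^ 2 := by positivity
        linarith

theorem fin_err {c : ℝ} {i jv : ℕ} (h : LI c i jv) :
    ER c (4 * jv - 12) ≤ ((2 ^ (i - 1) - 1 : ℕ) : ℝ) * VV (Pr 1 (zr c)) / SD * 2400000000 := by
  have hc := h.hc
  have hc0 : 0 < c := by linarith
  have hj1 := h.h1
  have hQ := Q_le h
  obtain ⟨x1, x2⟩ := X_facts h.i_ge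
  have hV0 : 0 < VV (Pr 1 (zr c)) := VV_pos Pr_prime
  generalize ((2 ^ (i - 1) - 1 : ℕ) : ℝ) = X at x1 x2 hQ ⊢
  generalize VV (Pr 1 (zr c)) = V at hV0 hQ ⊢
  have hXV : 0 < X * V := mul_pos x2 hV0
  have h1 : ER c (4 * jv - 12) ≤ (2 : ℝ) ^ ((i : ℝ) - 3 / 16 * c) := by
    unfold ER
    have e1 : (((4 * jv - 12 : ℕ)) : ℝ) = 4 * jv - 12 := by
      rw [Nat.cast_sub (by omega)]; push_cast; ring
    have e2 : 1 - 96 / c ≤ 1 := by
      have : 0 ≤ 96 / c := by positivity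
      linarith
    refine (mul_le_of_le_one_left (by positivity) e2).trans ?_
    apply Real.rpow_le_rpow_of_exponent_le (by norm_num)
    rw [e1]
    have := h.h3
    linarith
  refine h1.trans (hQ.trans ?_)
  have e3 : X * V / SD * 2400000000 = 0.0024 * (X * V) := by
    unfold SD; push_cast; ring
  rw [e3]
  exact mul_le_mul_of_nonneg_right (by norm_num) hXV.le

theorem finU_sound {c : ℝ} {i jv GT HT : ℕ} (h : LI c i jv) (hT : UOK c GT HT)
    (hf : finU jv GT HT = true) : KP2 i := by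
  have hS := SD_pos
  have hc := h.hc
  have hc0 : 0 < c := by linarith
  have hi := h.i_ge
  have hci := h.c_le
  have hV0 : 0 < VV (Pr 1 (zr c)) := VV_pos Pr_prime
  obtain ⟨x1, x2⟩ := X_facts hi
  have hK : 0 < ((2 ^ (i - 1) - 1 : ℕ) : ℝ) * VV (Pr 1 (zr c)) / SD := by positivity
  unfold finU at hf
  rw [decide_eq_true_eq] at hf
  have hbig : (goU jv HT 100 16 2588000000).2 < BIG := by
    have h1 : SD < BIG := by unfold SD BIG; norm_num
    have h2 : (goU jv HT 100 16 2588000000).2 ≤ SD := by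
      refine le_trans ?_ hf
      refine le_trans ?_ (Nat.le_add_right _ _)
      exact Nat.le_add_left _ _
    exact lt_of_le_of_lt h2 h1
  have hj1 := h.h1
  have hj2 := h.h2
  refine ⟨zr c, zr_le_zc (by linarith), fin_pow h, fun N lo => ?_⟩
  obtain ⟨n1, _⟩ := hT (4 * jv - 12) (by omega) N lo (2 ^ (i - 1) - 1)
  have hsum := goU_sound h hT N lo 100 16 2588000000 le_rfl (by
    have : ((16 : ℕ) : ℝ) / 16 = 1 := by norm_num
    rw [this, Real.log_one]
    unfold SD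
    norm_num) hbig
  have hue : ue c i 16 = zr c := by
    unfold ue
    have : ((16 : ℕ) : ℝ) / 16 * c = c := by push_cast; ring
    rw [this]
    exact min_eq_left (zr_le_zc (by linarith))
  rw [hue, Pr_self, sum_empty, mul_zero, mul_zero, add_zero] at hsum
  have hcard := GS_card_ge (N := N) (lo := lo) (i := i) (z := zr c) n1 hsum
    (fun p hp => w2_nonneg (by omega) hp)
  refine le_trans ?_ hcard
  have hE := fin_err h
  have hcount := fin_count h
  have hs' : ((look GT (4 * jv - 12) : ℝ) + 2400000000 + ((goU jv HT 100 16 2588000000).2 : ℝ)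
      + (SD : ℝ) / 50) ≤ SD := by
    have e1 : ((look GT (4 * jv - 12) + 2400000000 + (goU jv HT 100 16 2588000000).2 + SD / 50 : ℕ) : ℝ)
        ≤ (SD : ℝ) := by
      exact_mod_cast hf
    have e2 : ((SD / 50 : ℕ) : ℝ) = (SD : ℝ) / 50 := by unfold SD; norm_num
    rw [Nat.cast_add, Nat.cast_add, Nat.cast_add, e2] at e1
    exact e1
  clear hf hbig hsum hcard n1
  generalize ((goU jv HT 100 16 2588000000).2 : ℝ) = tot at hs' ⊢
  generalize ER c (4 * jv - 12) = e at hE ⊢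
  generalize (look GT (4 * jv - 12) : ℝ) = G at hs' ⊢
  generalize ((2 ^ (i - 1) - 1 : ℕ) : ℝ) = X at x1 x2 hK hE hcount ⊢
  generalize VV (Pr 1 (zr c)) = V at hV0 hK hE hcount ⊢
  refine hcount.trans ?_
  have e5 : X * ((1 - G / SD) * V) = (X * V / SD) * (SD - G) := by
    field_simp
  have e6 : X * V / 50 = (X * V / SD) * ((SD : ℝ) / 50) := by
    field_simp
  rw [e5, e6]
  have h10 := mul_le_mul_of_nonneg_left hs' hK.le
  rw [mul_add, mul_add, mul_add] at h10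
  rw [mul_sub]
  linarith

end Pool.Agent.H91.Gold
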