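import Mathlib
import Pool.Agent.H91.G5UFin
import Pool.Agent.H91.G5Fin

/-!
The key proposition for all indices.
-/

namespace Pool.Agent.H91.Gold

open Finset

theorem finU_154 : finU 154 u5G u5H = true := by decide +kernel
theorem finU_155 : finU 155 u5G u5H = true := by decide +kernel
theorem finU_156 : finU 156 u5G u5H = true := by decide +kernel
theorem finU_157 : finU 157 u5G u5H = true := by decide +kernel
theorem finU_158 : finU 158 u5G u5H = true := by decide +kernel
theorem finU_159 : finU 159 u5G u5H = true := by decide +kernel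
theorem finU_160 : finU 160 u5G u5H = true := by decide +kernel
theorem finU_161 : finU 161 u5G u5H = true := by decide +kernel
theorem finU_162 : finU 162 u5G u5H = true := by decide +kernel
theorem finU_163 : finU 163 u5G u5H = true := by decide +kernel
theorem finU_164 : finU 164 u5G u5H = true := by decide +kernel
theorem finU_165 : finU 165 u5G u5H = true := by decide +kernel
theorem finU_166 : finU 166 u5G u5H = true := by decide +kernel
theorem finU_167 : finU 167 u5G u5H = true := by decide +kernel
theorem finU_168 : finU 168 u5G u5H = true := by decide +kernel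
theorem finU_169 : finU 169 u5G u5H = true := by decide +kernel

theorem finU_all {jv : ℕ} (h1 : 154 ≤ jv) (h2 : jv ≤ 169) : finU jv u5G u5H = true := by
  have : jv = 154 ∨ jv = 155 ∨ jv = 156 ∨ jv = 157 ∨ jv = 158 ∨ jv = 159 ∨ jv = 160 ∨ jv = 161 ∨
      jv = 162 ∨ jv = 163 ∨ jv = 164 ∨ jv = 165 ∨ jv = 166 ∨ jv = 167 ∨ jv = 168 ∨ jv = 169 := by
    omega
  rcases this with rfl | rfl | rfl | rfl | rfl | rfl | rfl | rfl | rfl | rfl | rfl | rfl | rfl | rfl |
    rfl | rfl
  · exact finU_154
  · exact finU_155
  · exact finU_156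
  · exact finU_157
  · exact finU_158
  · exact finU_159
  · exact finU_160
  · exact finU_161
  · exact finU_162
  · exact finU_163
  · exact finU_164
  · exact finU_165
  · exact finU_166
  · exact finU_167
  · exact finU_168
  · exact finU_169

theorem KP2_inf {i : ℕ} (hi : 1232 ≤ i) : KP2 i := by
  have hi' : (1232 : ℝ) ≤ i := by exact_mod_cast hi
  obtain ⟨m, hm1, hm2⟩ := exists_nat_pow_near (x := (i : ℝ) / 1232) (y := 11 / 10)
    (by rw [le_div_iff₀ (by norm_num)]; linarith) (by norm_num)
  have hc := cs_ge m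
  have hc0 : 0 < cs m := by linarith
  have e1 : 9.625 * cs m ≤ i := by
    rw [le_div_iff₀ (by norm_num)] at hm1
    unfold cs
    linarith
  have e2 : (i : ℝ) < 10.5875 * cs m := by
    rw [div_lt_iff₀ (by norm_num), pow_succ] at hm2
    unfold cs
    linarith
  set jv := ⌊16 * (i : ℝ) / cs m⌋₊ with hjv
  have hx0 : 0 ≤ 16 * (i : ℝ) / cs m := by positivity
  have j1 : (jv : ℝ) ≤ 16 * (i : ℝ) / cs m := Nat.floor_le hx0
  have j2 : 16 * (i : ℝ) / cs m < jv + 1 := Nat.lt_floor_add_one _
  rw [le_div_iff₀ hc0] at j1
  rw [div_lt_iff₀ hc0] at j2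
  have h154 : 154 ≤ jv := by
    apply Nat.le_floor
    rw [le_div_iff₀ hc0]
    push_cast
    linarith
  have h169 : jv ≤ 169 := by
    have h1 : (jv : ℝ) < 170 := by
      by_contra hcon
      have h2 : (170 : ℝ) ≤ jv := not_lt.1 hcon
      nlinarith
    have : jv < 170 := by exact_mod_cast h1
    omega
  have hLI : LI (cs m) i jv := ⟨hc, h154, h169, by linarith, by linarith⟩
  exact finU_sound hLI (u5OK m) (finU_all h154 h169)

/-- The key proposition holds for all indices `i ≥ 17`. -/
theorem KP2_all {i : ℕ} (hi : 17 ≤ i) : KP2 i := by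
  rcases Nat.lt_or_ge i 1232 with h | h
  · exact KP2_fin i hi h
  · exact KP2_inf h

end Pool.Agent.H91.Gold
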