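import Mathlib
import Pool.Agent.H91.GoldKP

/-!
From the key proposition to almost primes, and the small cases.
-/

namespace Pool.Agent.H91.Gold

open Finset
open ArithmeticFunction (cardFactors)

theorem not_dvd_of_nf {N a : ℤ} {S : Finset ℕ} (hN : (2 : ℤ) ∣ N) (h : nf N S a ≠ 0) {p : ℕ} (hp : p ∈ S) :
    ¬ (p : ℤ) ∣ a ∧ ¬ (p : ℤ) ∣ (N - a) := by
  have h1 : 1 - u N p a ≠ 0 := (prod_ne_zero_iff.1 h) p hp
  have h2 : ¬ Om N p a := by
    intro hO
    apply h1
    unfold u
    rw [if_pos hO]; ring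
  unfold Om Rs at h2
  split_ifs at h2 with h3
  · simp only [mem_singleton, exists_eq_left] at h2
    have h4 : ¬ (p : ℤ) ∣ a := fun hd => h2 (Int.modEq_zero_iff_dvd.2 hd)
    refine ⟨h4, fun hd => h4 ?_⟩
    subst h3
    have := dvd_sub hN hd
    simpa using this
  · simp only [mem_insert, mem_singleton, exists_eq_or_imp, exists_eq_left, not_or] at h2
    have h4 : ¬ (p : ℤ) ∣ a := fun hd => h2.1 (Int.modEq_zero_iff_dvd.2 hd)
    refine ⟨h4, fun hd => ?_⟩
    by_cases h5 : (p : ℤ) ∣ N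
    · apply h4
      have := dvd_sub h5 hd
      simpa using this
    · apply h2.2
      unfold rt
      rw [if_neg h5, Int.modEq_iff_dvd]
      exact hd

set_option maxHeartbeats 2000000 in
theorem from_KP {n K i : ℕ} (hK : 4 ≤ K) (h1 : 2 ^ (i * (K + 1)) ≤ (2 * n) ^ 5)
    (h2 : (2 * n) ^ 5 < 2 ^ ((i + 1) * (K + 1))) (hi : 9 ≤ i) (hKP : KP i) :
    ∃ x : ℕ, (2 * x) ^ (K + 1) ≤ (2 * n) ^ 5 ∧ x + 2 ≤ n ∧ cardFactors (n - x) ≤ K
      ∧ cardFactors (n + x) ≤ K ∧ cardFactors (n - x) + cardFactors (n + x) ≤ K + 2 := by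
  obtain ⟨al, hal, h⟩ := hKP
  set be := i / 2 with hbe
  set M := 5 * be - (i + 1) with hM
  set X := 2 ^ (i - 1) - 1 with hX
  have hn0 : 0 < n := by
    rcases Nat.eq_zero_or_pos n with rfl | h0
    · simp at h1
    · exact h0
  have hn2 : 2 ^ (i - 1) ≤ n := by
    have e1 : (2 ^ i) ^ (K + 1) ≤ (2 * n) ^ (K + 1) := by
      rw [← pow_mul]
      exact h1.trans (Nat.pow_le_pow_right (by omega) (by omega))
    have e2 : 2 ^ i ≤ 2 * n := (Nat.pow_le_pow_iff_left (by omega)).1 e1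
    have e3 : 2 ^ i = 2 * 2 ^ (i - 1) := by rw [← pow_succ']; congr 1; omega
    omega
  obtain ⟨a, ha, hnf, hwt⟩ := h (2 * n : ℤ) ((n : ℤ) - X)
  rw [mem_Ioc] at ha
  obtain ⟨x, hx⟩ : ∃ x : ℕ, (x : ℤ) = n - a := ⟨(n - a).toNat, by rw [Int.toNat_of_nonneg]; omega⟩
  have hpow : 1 ≤ 2 ^ (i - 1) := Nat.one_le_two_pow
  have hxX : x < X := by omega
  have hx2 : x + 2 ≤ n := by omega
  have hA : ((n - x : ℕ) : ℤ) = a := by omega
  have hB : ((n + x : ℕ) : ℤ) = 2 * n - a := by push_cast; omega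
  have hdvd : ∀ p, p.Prime → p ≤ 2 ^ al → ¬ p ∣ (n - x) ∧ ¬ p ∣ (n + x) := by
    intro p hp hple
    have := not_dvd_of_nf (p := p) (dvd_mul_right 2 (n : ℤ)) hnf (mem_Pr.2 ⟨⟨hp.one_lt, hple⟩, hp⟩)
    rw [← hB, ← hA] at this
    exact ⟨fun hd => this.1 (Int.natCast_dvd_natCast.2 hd), fun hd => this.2 (Int.natCast_dvd_natCast.2 hd)⟩
  have hal1 : 1 ≤ al ∨ al = 0 := by omega
  have hbe1 : 1 ≤ be := by omega
  -- terms of the weight
  have hterm : ∀ p ∈ Pr (2 ^ al) (2 ^ be), 0 ≤ ww be M p * (ind p 0 a + ind p (2 * n) a)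
      + (ind (p ^ 2) 0 a + ind (p ^ 2) (2 * n) a) := by
    intro p hp
    have := ww_nonneg (M := M) hp
    have b1 := ind_nonneg p 0 a
    have b2 := ind_nonneg p (2 * n) a
    have b3 := ind_nonneg (p ^ 2) 0 a
    have b4 := ind_nonneg (p ^ 2) (2 * n) a
    have := mul_nonneg this (add_nonneg b1 b2)
    linarith
  have hsq : ∀ p ∈ Pr (2 ^ al) (2 ^ be), ¬ p ^ 2 ∣ (n - x) ∧ ¬ p ^ 2 ∣ (n + x) := by
    intro p hp
    have h3 := single_le_sum hterm hp
    have h4 : ww be M p * (ind p 0 a + ind p (2 * n) a)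
      + (ind (p ^ 2) 0 a + ind (p ^ 2) (2 * n) a) < 1 := lt_of_le_of_lt h3 hwt
    have b0 := mul_nonneg (ww_nonneg (M := M) hp) (add_nonneg (ind_nonneg p 0 a) (ind_nonneg p (2 * n) a))
    have b3 := ind_nonneg (p ^ 2) 0 a
    have b4 := ind_nonneg (p ^ 2) (2 * n) a
    constructor
    · intro hd
      have : ind (p ^ 2) 0 a = 1 := by
        unfold ind
        rw [if_pos]
        rw [Int.modEq_zero_iff_dvd, ← hA]
        exact Int.natCast_dvd_natCast.2 hd
      linarith
    · intro hd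
      have : ind (p ^ 2) (2 * n) a = 1 := by
        unfold ind
        rw [if_pos]
        rw [Int.modEq_iff_dvd, ← hB]
        exact Int.natCast_dvd_natCast.2 hd
      linarith
  have l2 : 0 < Real.log 2 := Real.log_pos (by norm_num)
  have hber : (0 : ℝ) < be := by exact_mod_cast hbe1
  have hM0 : (0 : ℝ) ≤ M := Nat.cast_nonneg M
  -- sum of the weights of the prime divisors
  have hW : ∀ p ∈ Pr (2 ^ al) (2 ^ be), (1 - Real.log p / Real.log ((2 ^ be : ℕ) : ℝ)) = (M : ℝ) / be * ww be M p ∨ M = 0 := by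
    intro p hp
    rcases Nat.eq_zero_or_pos M with h0 | h0
    · exact Or.inr h0
    · left
      have hMr : (0 : ℝ) < M := by exact_mod_cast h0
      unfold ww
      push_cast
      rw [Real.log_pow]
      field_simp
  have hi1 : i + 1 ≤ 5 * be := by omega
  have hMr : (M : ℝ) = 5 * be - (i + 1) := by
    rw [hM, Nat.cast_sub hi1]; push_cast; ring
  have hsumA : ∑ p ∈ Pr (2 ^ al) (2 ^ be), (1 - Real.log p / Real.log ((2 ^ be : ℕ) : ℝ)) * (if p ∣ (n - x) then 1 else 0)
      + ∑ p ∈ Pr (2 ^ al) (2 ^ be), (1 - Real.log p / Real.log ((2 ^ be : ℕ) : ℝ)) * (if p ∣ (n + x) then 1 else 0)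
      < (M : ℝ) / be ∨ M = 0 := by
    rcases Nat.eq_zero_or_pos M with h0 | h0
    · exact Or.inr h0
    left
    have hMr' : (0 : ℝ) < M := by exact_mod_cast h0
    rw [← sum_add_distrib]
    have e1 : ∑ p ∈ Pr (2 ^ al) (2 ^ be), ((1 - Real.log p / Real.log ((2 ^ be : ℕ) : ℝ)) * (if p ∣ (n - x) then 1 else 0)
        + (1 - Real.log p / Real.log ((2 ^ be : ℕ) : ℝ)) * (if p ∣ (n + x) then 1 else 0))
        ≤ ∑ p ∈ Pr (2 ^ al) (2 ^ be), (M : ℝ) / be * (ww be M p * (ind p 0 a + ind p (2 * n) a)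
          + (ind (p ^ 2) 0 a + ind (p ^ 2) (2 * n) a)) := by
      apply sum_le_sum
      intro p hp
      have e2 := (hW p hp).resolve_right (by omega)
      rw [e2]
      have i1 : (if p ∣ (n - x) then (1 : ℝ) else 0) = ind p 0 a := by
        unfold ind
        simp only [Int.modEq_zero_iff_dvd, ← hA, Int.natCast_dvd_natCast]
      have i2 : (if p ∣ (n + x) then (1 : ℝ) else 0) = ind p (2 * n) a := by
        unfold ind
        simp only [Int.modEq_iff_dvd, ← hB, Int.natCast_dvd_natCast]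
      rw [i1, i2]
      have b3 := ind_nonneg (p ^ 2) 0 a
      have b4 := ind_nonneg (p ^ 2) (2 * n) a
      have b5 : 0 ≤ (M : ℝ) / be := by positivity
      have b6 := mul_nonneg b5 (add_nonneg b3 b4)
      nlinarith
    rw [← mul_sum] at e1
    refine lt_of_le_of_lt e1 ?_
    have e3 : 0 < (M : ℝ) / be := by positivity
    have e4 := mul_lt_mul_of_pos_left hwt e3
    rw [mul_one] at e4
    exact e4
  have hMpos : 0 < M := by omega
  have hsum := hsumA.resolve_right (by omega)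
  have hzy : 2 ^ al ≤ 2 ^ be := two_pow_le_two_pow hal
  have hy : 2 ≤ 2 ^ be := by
    have := two_pow_le_two_pow hbe1
    simpa using this
  have hA0 : n - x ≠ 0 := by omega
  have hB0 : n + x ≠ 0 := by omega
  have oA := omega_bound hy hzy hA0 (fun p hp hple => (hdvd p hp hple).1) (fun p hp => (hsq p hp).1)
  have oB := omega_bound hy hzy hB0 (fun p hp hple => (hdvd p hp hple).2) (fun p hp => (hsq p hp).2)
  have hlogy : Real.log ((2 ^ be : ℕ) : ℝ) = be * Real.log 2 := by push_cast; rw [Real.log_pow]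
  have hWnn : ∀ p ∈ Pr (2 ^ al) (2 ^ be), 0 ≤ (1 - Real.log p / Real.log ((2 ^ be : ℕ) : ℝ)) := by
    intro p hp
    rw [(hW p hp).resolve_right (by omega)]
    have := ww_nonneg (M := M) hp
    positivity
  have sA : 0 ≤ ∑ p ∈ Pr (2 ^ al) (2 ^ be), (1 - Real.log p / Real.log ((2 ^ be : ℕ) : ℝ)) * (if p ∣ (n - x) then 1 else 0) :=
    sum_nonneg (fun p hp => mul_nonneg (hWnn p hp) (by split_ifs <;> norm_num))
  have sB : 0 ≤ ∑ p ∈ Pr (2 ^ al) (2 ^ be), (1 - Real.log p / Real.log ((2 ^ be : ℕ) : ℝ)) * (if p ∣ (n + x) then 1 else 0) :=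
    sum_nonneg (fun p hp => mul_nonneg (hWnn p hp) (by split_ifs <;> norm_num))
  rw [hlogy] at oA oB
  rw [hlogy] at sA sB hsum
  have hN : 5 * Real.log ((2 * n : ℕ) : ℝ) < (i + 1) * (K + 1) * Real.log 2 := by
    have e1 : Real.log (((2 * n) ^ 5 : ℕ) : ℝ) < Real.log ((2 ^ ((i + 1) * (K + 1)) : ℕ) : ℝ) := by
      apply Real.log_lt_log
      · exact_mod_cast pow_pos (by omega) 5
      · exact_mod_cast h2
    rw [Nat.cast_pow, Nat.cast_pow, Real.log_pow, Real.log_pow] at e1
    push_cast at e1 ⊢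
    linarith
  have hlA : Real.log ((n - x : ℕ) : ℝ) ≤ Real.log ((2 * n : ℕ) : ℝ) := by
    apply Real.log_le_log
    · exact_mod_cast Nat.pos_of_ne_zero hA0
    · exact_mod_cast (by omega : n - x ≤ 2 * n)
  have hlB : Real.log ((n + x : ℕ) : ℝ) ≤ Real.log ((2 * n : ℕ) : ℝ) := by
    apply Real.log_le_log
    · exact_mod_cast Nat.pos_of_ne_zero hB0
    · exact_mod_cast (by omega : n + x ≤ 2 * n)
  have hKr : (4 : ℝ) ≤ K := by exact_mod_cast hK
  have hir : (i : ℝ) + 1 ≤ 5 * be := by exact_mod_cast hi1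
  have key : ∀ t : ℝ, t ≤ Real.log ((2 * n : ℕ) : ℝ) → t / (be * Real.log 2) + (M : ℝ) / be ≤ K + 1 := by
    intro t ht
    have e1 : t / (be * Real.log 2) ≤ (i + 1) * (K + 1) / (5 * be) := by
      rw [div_le_div_iff₀ (by positivity) (by positivity)]
      nlinarith
    have e2 : (i + 1) * (K + 1) / (5 * be) + (M : ℝ) / be ≤ K + 1 := by
      rw [hMr, div_add_div _ _ (by positivity) (by positivity), div_le_iff₀ (by positivity)]
      have e3 : 0 ≤ ((K : ℝ) - 4) * (5 * be - (i + 1)) * be := by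
        apply mul_nonneg (mul_nonneg (by linarith) (by linarith)) hber.le
      nlinarith
    linarith
  refine ⟨x, ?_, hx2, ?_, ?_, ?_⟩
  · refine le_trans ?_ h1
    rw [mul_comm i, mul_comm (K + 1) i, pow_mul]
    apply Nat.pow_le_pow_left
    have e3 : 2 ^ i = 2 * 2 ^ (i - 1) := by rw [← pow_succ']; congr 1; omega
    omega
  · have := key _ hlA
    have h3 : (cardFactors (n - x) : ℝ) < K + 1 := by linarith
    have h4 : cardFactors (n - x) < K + 1 := by exact_mod_cast h3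
    omega
  · have := key _ hlB
    have h3 : (cardFactors (n + x) : ℝ) < K + 1 := by linarith
    have h4 : cardFactors (n + x) < K + 1 := by exact_mod_cast h3
    omega
  · have e1 : Real.log ((n - x : ℕ) : ℝ) + Real.log ((n + x : ℕ) : ℝ) ≤ 2 * Real.log (n : ℝ) := by
      rw [← Real.log_mul (by exact_mod_cast hA0) (by exact_mod_cast hB0)]
      have : 2 * Real.log (n : ℝ) = Real.log ((n : ℝ) ^ 2) := by rw [Real.log_pow]; norm_num
      rw [this]
      apply Real.log_le_log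
      · have := Nat.pos_of_ne_zero hA0
        have := Nat.pos_of_ne_zero hB0
        positivity
      · rw [Nat.cast_sub (by omega)]
        push_cast
        nlinarith [sq_nonneg (x : ℝ)]
    have e2 : Real.log ((2 * n : ℕ) : ℝ) = Real.log 2 + Real.log n := by
      push_cast
      rw [Real.log_mul (by norm_num) (by positivity)]
    have e3 : 5 * (2 * Real.log (n : ℝ)) < (2 * ((i + 1) * (K + 1)) - 10) * Real.log 2 := by
      rw [e2] at hN
      linarith
    have e4 : (Real.log ((n - x : ℕ) : ℝ) + Real.log ((n + x : ℕ) : ℝ)) / (be * Real.log 2)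
        < (2 * ((i + 1) * (K + 1)) - 10) / (5 * be) := by
      rw [div_lt_div_iff₀ (by positivity) (by positivity)]
      have e41 : 5 * (Real.log ((n - x : ℕ) : ℝ) + Real.log ((n + x : ℕ) : ℝ))
          < (2 * ((i + 1) * (K + 1)) - 10) * Real.log 2 := by linarith
      have e42 := mul_lt_mul_of_pos_right e41 hber
      linarith
    have hbe2 : (i : ℝ) - 1 ≤ 2 * be := by
      have : i ≤ 2 * be + 1 := by omega
      have : (i : ℝ) ≤ 2 * be + 1 := by exact_mod_cast this
      linarith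
    have e5 : (2 * (((i : ℝ) + 1) * (K + 1)) - 10) / (5 * be) + (M : ℝ) / be ≤ K + 3 := by
      have e51 : (M : ℝ) / be = (5 * M) / (5 * be) := by
        field_simp
      rw [e51, hMr, ← add_div, div_le_iff₀ (by positivity)]
      have hi9 : (9 : ℝ) ≤ i := by exact_mod_cast hi
      have k1 := mul_nonneg (sub_nonneg.2 hKr) (sub_nonneg.2 hi9)
      have k2 := mul_nonneg (sub_nonneg.2 hKr) (sub_nonneg.2 hbe2)
      nlinarith
    have h3 : (cardFactors (n - x) : ℝ) + cardFactors (n + x) < K + 3 := by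
      rw [add_div] at e4
      linarith
    have h4 : cardFactors (n - x) + cardFactors (n + x) < K + 3 := by exact_mod_cast h3
    omega

end Pool.Agent.H91.Gold
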