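import Mathlib
import Pool.Agent.H91.GoldFinal
import Pool.Agent.H91.G5Def

/-!
From the key proposition to almost primes.
-/

namespace Pool.Agent.H91.Gold

open Finset
open ArithmeticFunction (cardFactors)

/-- If the weight is small then `a` has few prime factors (real cut `exp l`). -/
theorem omega_bound' {z y : ℕ} {l : ℝ} (hl : 0 < l) (hly : ∀ p : ℕ, p.Prime → p ≤ y → Real.log p ≤ l)
    (hyl : ∀ p : ℕ, p.Prime → y < p → l ≤ Real.log p) {a : ℕ} (ha : a ≠ 0)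
    (h1 : ∀ p, p.Prime → p ≤ z → ¬ p ∣ a)
    (h2 : ∀ p ∈ Pr z y, ¬ p ^ 2 ∣ a) :
    (cardFactors a : ℝ) ≤ Real.log a / l
      + ∑ p ∈ Pr z y, (1 - Real.log p / l) * (if p ∣ a then 1 else 0) := by
  have e1 : (cardFactors a : ℝ) = ∑ p ∈ a.primeFactors, (a.factorization p : ℝ) := by
    rw [ArithmeticFunction.cardFactors_eq_sum_factorization]
    unfold Finsupp.sum
    push_cast
    rfl
  have e2 : Real.log a = ∑ p ∈ a.primeFactors, (a.factorization p : ℝ) * Real.log p := by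
    rw [Real.log_nat_eq_sum_factorization]
    rfl
  have e3 : (cardFactors a : ℝ) - Real.log a / l
      = ∑ p ∈ a.primeFactors, (a.factorization p : ℝ) * (1 - Real.log p / l) := by
    rw [e1, e2, sum_div, ← sum_sub_distrib]
    apply sum_congr rfl
    intro p _
    ring
  have e4 : ∑ p ∈ a.primeFactors, (a.factorization p : ℝ) * (1 - Real.log p / l)
      ≤ ∑ p ∈ a.primeFactors.filter (fun p => p ∈ Pr z y), (1 - Real.log p / l) := by
    rw [sum_filter]
    apply sum_le_sum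
    intro p hp
    have hpp := Nat.prime_of_mem_primeFactors hp
    have hpd := Nat.dvd_of_mem_primeFactors hp
    split_ifs with hc
    · have hsq := h2 p hc
      have hf : a.factorization p ≤ 1 := by
        by_contra hcon
        push Not at hcon
        exact hsq ((hpp.pow_dvd_iff_le_factorization ha).2 hcon)
      have hle : Real.log p ≤ l := hly p hpp (mem_Pr.1 hc).1.2
      have hf' : (a.factorization p : ℝ) ≤ 1 := by exact_mod_cast hf
      have : 0 ≤ 1 - Real.log p / l := by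
        rw [sub_nonneg, div_le_one hl]; exact hle
      nlinarith
    · have hgt : y < p := by
        by_contra hcon
        push Not at hcon
        apply hc
        rw [mem_Pr]
        refine ⟨⟨?_, hcon⟩, hpp⟩
        by_contra hcon2
        push Not at hcon2
        exact h1 p hpp hcon2 hpd
      have hle : l ≤ Real.log p := hyl p hpp hgt
      have : 1 - Real.log p / l ≤ 0 := by
        rw [sub_nonpos, one_le_div hl]; exact hle
      have hf : (0 : ℝ) ≤ a.factorization p := by positivity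
      nlinarith
  have e5 : ∑ p ∈ a.primeFactors.filter (fun p => p ∈ Pr z y), (1 - Real.log p / l)
      = ∑ p ∈ Pr z y, (1 - Real.log p / l) * (if p ∣ a then 1 else 0) := by
    simp only [mul_ite, mul_one, mul_zero]
    rw [← sum_filter]
    apply sum_congr _ (fun _ _ => rfl)
    ext p
    simp only [mem_filter, Nat.mem_primeFactors]
    constructor
    · rintro ⟨⟨a1, a2, a3⟩, a4⟩
      exact ⟨a4, a2⟩
    · rintro ⟨a1, a2⟩
      exact ⟨⟨prime_of_Pr a1, a2, ha⟩, a1⟩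
  linarith

theorem log_le_of_le_zc {i p : ℕ} (hp : 0 < p) (h : p ≤ zc i) :
    Real.log p ≤ (i : ℝ) / 2 * Real.log 2 := by
  have h1 : p ^ 2 ≤ 2 ^ i := by
    have : p * p ≤ 2 ^ i := Nat.le_sqrt.1 h
    rw [pow_two]; exact this
  have h2 : Real.log ((p ^ 2 : ℕ) : ℝ) ≤ Real.log ((2 ^ i : ℕ) : ℝ) := by
    apply Real.log_le_log
    · exact_mod_cast pow_pos hp 2
    · exact_mod_cast h1
  rw [Nat.cast_pow, Nat.cast_pow, Real.log_pow, Real.log_pow] at h2
  push_cast at h2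
  linarith

theorem le_log_of_zc_lt {i p : ℕ} (h : zc i < p) :
    (i : ℝ) / 2 * Real.log 2 ≤ Real.log p := by
  have h1 : 2 ^ i < p ^ 2 := by
    have : 2 ^ i < p * p := Nat.sqrt_lt.1 h
    rw [pow_two]; exact this
  have h2 : Real.log ((2 ^ i : ℕ) : ℝ) ≤ Real.log ((p ^ 2 : ℕ) : ℝ) := by
    apply Real.log_le_log
    · positivity
    · exact_mod_cast h1.le
  rw [Nat.cast_pow, Nat.cast_pow, Real.log_pow, Real.log_pow] at h2
  push_cast at h2
  linarith

theorem w2_eq {i : ℕ} (hi : 2 ≤ i) (p : ℕ) :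
    1 - Real.log p / ((i : ℝ) / 2 * Real.log 2) = 2 * ((i : ℝ) - 1) / i * w2 i p := by
  have l2 : 0 < Real.log 2 := Real.log_pos (by norm_num)
  have hir : (2 : ℝ) ≤ i := by exact_mod_cast hi
  have h1 : (i : ℝ) - 1 ≠ 0 := by
    intro h
    linarith
  have h2 : (i : ℝ) ≠ 0 := by
    intro h
    linarith
  unfold w2
  field_simp

theorem w2_nonneg' {i p : ℕ} (hi : 2 ≤ i) (hp : 0 < p) (h : p ≤ zc i) : 0 ≤ w2 i p := by
  have l2 : 0 < Real.log 2 := Real.log_pos (by norm_num)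
  have hir : (2 : ℝ) ≤ i := by exact_mod_cast hi
  unfold w2
  have h3 := log_le_of_le_zc hp h
  have h4 : Real.log p / Real.log 2 ≤ i / 2 := by
    rw [div_le_iff₀ l2]
    exact h3
  apply div_nonneg <;> linarith

set_option maxHeartbeats 2000000 in
/-- one element of the sifted set -/
theorem one_KP2 {n K i z : ℕ} (hK : 3 ≤ K) (h1 : 2 ^ i ≤ 2 * n)
    (h2 : (2 * n) ^ 2 ≤ 2 ^ (i * (K - 1) + 2)) (hi : 17 ≤ i) (hz : 2 ^ (i + 1) ≤ (z + 1) ^ 11)
    {a : ℤ} (ha : a ∈ GS (2 * n : ℤ) ((n : ℤ) - ((2 ^ (i - 1) - 1 : ℕ) : ℤ)) i z) :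
    ∃ x : ℕ, (x : ℤ) = n - a ∧ 2 * x < 2 ^ i ∧ x + 2 ≤ n ∧ cardFactors (n - x) ≤ K ∧
        cardFactors (n + x) ≤ K ∧
        cardFactors (n - x) + cardFactors (n + x) ≤ 2 * K - 1 ∧
        ∀ p : ℕ, p.Prime → p ∣ (n - x) * (n + x) → 2 ^ (i + 1) ≤ p ^ 11 := by
  unfold GS at ha
  rw [mem_filter] at ha
  obtain ⟨ha, hnf, hwt⟩ := ha
  set X := 2 ^ (i - 1) - 1 with hX
  have e3 : 2 ^ i = 2 * 2 ^ (i - 1) := by rw [← pow_succ']; congr 1; omega
  have hn0 : 0 < n := by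
    rcases Nat.eq_zero_or_pos n with rfl | h0
    · simp at h1
    · exact h0
  have hn2 : 2 ^ (i - 1) ≤ n := by omega
  rw [mem_Ioc] at ha
  obtain ⟨x, hx⟩ : ∃ x : ℕ, (x : ℤ) = n - a := ⟨(n - a).toNat, by rw [Int.toNat_of_nonneg]; omega⟩
  have hpow : 1 ≤ 2 ^ (i - 1) := Nat.one_le_two_pow
  have hxX : x < X := by omega
  have hx2 : x + 2 ≤ n := by omega
  have hA : ((n - x : ℕ) : ℤ) = a := by omega
  have hB : ((n + x : ℕ) : ℤ) = 2 * n - a := by push_cast; omega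
  have hdvd : ∀ p, p.Prime → p ≤ z → ¬ p ∣ (n - x) ∧ ¬ p ∣ (n + x) := by
    intro p hp hple
    have := not_dvd_of_nf (p := p) (dvd_mul_right 2 (n : ℤ)) hnf (mem_Pr.2 ⟨⟨hp.one_lt, hple⟩, hp⟩)
    rw [← hB, ← hA] at this
    exact ⟨fun hd => this.1 (Int.natCast_dvd_natCast.2 hd), fun hd => this.2 (Int.natCast_dvd_natCast.2 hd)⟩
  have hwn : ∀ p ∈ Pr z (zc i), 0 ≤ w2 i p := fun p hp =>
    w2_nonneg' (by omega) (prime_of_Pr hp).pos (mem_Pr.1 hp).1.2
  -- terms of the weight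
  have hterm : ∀ p ∈ Pr z (zc i), 0 ≤ w2 i p * (ind p 0 a + ind p (2 * n) a)
      + (ind (p ^ 2) 0 a + ind (p ^ 2) (2 * n) a) := by
    intro p hp
    have := hwn p hp
    have b1 := ind_nonneg p 0 a
    have b2 := ind_nonneg p (2 * n) a
    have b3 := ind_nonneg (p ^ 2) 0 a
    have b4 := ind_nonneg (p ^ 2) (2 * n) a
    have := mul_nonneg this (add_nonneg b1 b2)
    linarith
  have hsq : ∀ p ∈ Pr z (zc i), ¬ p ^ 2 ∣ (n - x) ∧ ¬ p ^ 2 ∣ (n + x) := by
    intro p hp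
    have h3 := single_le_sum hterm hp
    have h4 : w2 i p * (ind p 0 a + ind p (2 * n) a)
      + (ind (p ^ 2) 0 a + ind (p ^ 2) (2 * n) a) < 1 := lt_of_le_of_lt h3 hwt
    have b0 := mul_nonneg (hwn p hp) (add_nonneg (ind_nonneg p 0 a) (ind_nonneg p (2 * n) a))
    have b3 := ind_nonneg (p ^ 2) 0 a
    have b4 := ind_nonneg (p ^ 2) (2 * n) a
    constructor
    · intro hd
      have : ind (p ^ 2) 0 a = 1 := by
        unfold ind
        rw [if_pos]
        rw [Int.modEq_zero_iff_dvd, ← hA]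
        exact Int.natCast_dvd_natCast.2 hd
      linarith
    · intro hd
      have : ind (p ^ 2) (2 * n) a = 1 := by
        unfold ind
        rw [if_pos]
        rw [Int.modEq_iff_dvd, ← hB]
        exact Int.natCast_dvd_natCast.2 hd
      linarith
  have l2 : 0 < Real.log 2 := Real.log_pos (by norm_num)
  have hir : (17 : ℝ) ≤ i := by exact_mod_cast hi
  set l : ℝ := (i : ℝ) / 2 * Real.log 2 with hl
  have hl0 : 0 < l := by positivity
  have hcc : 0 < 2 * ((i : ℝ) - 1) / i := by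
    apply div_pos <;> linarith
  have hWnn : ∀ p ∈ Pr z (zc i), 0 ≤ 1 - Real.log p / l := by
    intro p hp
    rw [w2_eq (by omega) p]
    exact mul_nonneg hcc.le (hwn p hp)
  have hsum : ∑ p ∈ Pr z (zc i), (1 - Real.log p / l) * (if p ∣ (n - x) then 1 else 0)
      + ∑ p ∈ Pr z (zc i), (1 - Real.log p / l) * (if p ∣ (n + x) then 1 else 0)
      < 2 * ((i : ℝ) - 1) / i := by
    rw [← sum_add_distrib]
    have e1 : ∑ p ∈ Pr z (zc i), ((1 - Real.log p / l) * (if p ∣ (n - x) then 1 else 0)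
        + (1 - Real.log p / l) * (if p ∣ (n + x) then 1 else 0))
        ≤ ∑ p ∈ Pr z (zc i), 2 * ((i : ℝ) - 1) / i * (w2 i p * (ind p 0 a + ind p (2 * n) a)
          + (ind (p ^ 2) 0 a + ind (p ^ 2) (2 * n) a)) := by
      apply sum_le_sum
      intro p hp
      rw [w2_eq (by omega) p]
      have i1 : (if p ∣ (n - x) then (1 : ℝ) else 0) = ind p 0 a := by
        unfold ind
        simp only [Int.modEq_zero_iff_dvd, ← hA, Int.natCast_dvd_natCast]
      have i2 : (if p ∣ (n + x) then (1 : ℝ) else 0) = ind p (2 * n) a := by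
        unfold ind
        simp only [Int.modEq_iff_dvd, ← hB, Int.natCast_dvd_natCast]
      rw [i1, i2]
      have b3 := ind_nonneg (p ^ 2) 0 a
      have b4 := ind_nonneg (p ^ 2) (2 * n) a
      have b6 := mul_nonneg hcc.le (add_nonneg b3 b4)
      nlinarith
    rw [← mul_sum] at e1
    refine lt_of_le_of_lt e1 ?_
    have e4 := mul_lt_mul_of_pos_left hwt hcc
    rw [mul_one] at e4
    exact e4
  have hA0 : n - x ≠ 0 := by omega
  have hB0 : n + x ≠ 0 := by omega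
  have hly : ∀ p : ℕ, p.Prime → p ≤ zc i → Real.log p ≤ l := fun p hp h => log_le_of_le_zc hp.pos h
  have hyl : ∀ p : ℕ, p.Prime → zc i < p → l ≤ Real.log p := fun p _ h => le_log_of_zc_lt h
  have oA := omega_bound' hl0 hly hyl hA0 (fun p hp hple => (hdvd p hp hple).1) (fun p hp => (hsq p hp).1)
  have oB := omega_bound' hl0 hly hyl hB0 (fun p hp hple => (hdvd p hp hple).2) (fun p hp => (hsq p hp).2)
  have sA : 0 ≤ ∑ p ∈ Pr z (zc i), (1 - Real.log p / l) * (if p ∣ (n - x) then 1 else 0) :=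
    sum_nonneg (fun p hp => mul_nonneg (hWnn p hp) (by split_ifs <;> norm_num))
  have sB : 0 ≤ ∑ p ∈ Pr z (zc i), (1 - Real.log p / l) * (if p ∣ (n + x) then 1 else 0) :=
    sum_nonneg (fun p hp => mul_nonneg (hWnn p hp) (by split_ifs <;> norm_num))
  have hN : 2 * Real.log ((2 * n : ℕ) : ℝ) ≤ ((i : ℝ) * ((K : ℝ) - 1) + 2) * Real.log 2 := by
    have e1 : Real.log (((2 * n) ^ 2 : ℕ) : ℝ) ≤ Real.log ((2 ^ (i * (K - 1) + 2) : ℕ) : ℝ) := by
      apply Real.log_le_log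
      · exact_mod_cast pow_pos (by omega) 2
      · exact_mod_cast h2
    rw [Nat.cast_pow, Nat.cast_pow, Real.log_pow, Real.log_pow] at e1
    have e9 : ((i * (K - 1) + 2 : ℕ) : ℝ) = (i : ℝ) * ((K : ℝ) - 1) + 2 := by
      rw [Nat.cast_add, Nat.cast_mul, Nat.cast_sub (by omega : 1 ≤ K)]
      push_cast
      ring
    rw [e9] at e1
    push_cast at e1 ⊢
    linarith
  have hlA : Real.log ((n - x : ℕ) : ℝ) ≤ Real.log ((2 * n : ℕ) : ℝ) := by
    apply Real.log_le_log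
    · exact_mod_cast Nat.pos_of_ne_zero hA0
    · exact_mod_cast (by omega : n - x ≤ 2 * n)
  have hlB : Real.log ((n + x : ℕ) : ℝ) ≤ Real.log ((2 * n : ℕ) : ℝ) := by
    apply Real.log_le_log
    · exact_mod_cast Nat.pos_of_ne_zero hB0
    · exact_mod_cast (by omega : n + x ≤ 2 * n)
  have hi0 : (0 : ℝ) < i := by linarith
  have key : ∀ t : ℝ, t ≤ Real.log ((2 * n : ℕ) : ℝ) → t / l + 2 * ((i : ℝ) - 1) / i ≤ K + 1 := by
    intro t ht
    have e1 : t / l ≤ ((i : ℝ) * ((K : ℝ) - 1) + 2) / i := by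
      rw [div_le_div_iff₀ hl0 hi0, hl]
      have e5 : 2 * t ≤ ((i : ℝ) * ((K : ℝ) - 1) + 2) * Real.log 2 := by linarith
      have e6 := mul_le_mul_of_nonneg_right e5 hi0.le
      linarith
    have e2 : ((i : ℝ) * ((K : ℝ) - 1) + 2) / i + 2 * ((i : ℝ) - 1) / i = K + 1 := by
      field_simp
      ring
    linarith
  refine ⟨x, hx, ?_, hx2, ?_, ?_, ?_, ?_⟩
  · omega
  · have := key _ hlA
    have h3 : (cardFactors (n - x) : ℝ) < K + 1 := by linarith
    have h4 : cardFactors (n - x) < K + 1 := by exact_mod_cast h3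
    omega
  · have := key _ hlB
    have h3 : (cardFactors (n + x) : ℝ) < K + 1 := by linarith
    have h4 : cardFactors (n + x) < K + 1 := by exact_mod_cast h3
    omega
  · have e1 : Real.log ((n - x : ℕ) : ℝ) + Real.log ((n + x : ℕ) : ℝ) ≤ 2 * Real.log (n : ℝ) := by
      rw [← Real.log_mul (by exact_mod_cast hA0) (by exact_mod_cast hB0)]
      have : 2 * Real.log (n : ℝ) = Real.log ((n : ℝ) ^ 2) := by rw [Real.log_pow]; norm_num
      rw [this]
      apply Real.log_le_log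
      · have := Nat.pos_of_ne_zero hA0
        have := Nat.pos_of_ne_zero hB0
        positivity
      · rw [Nat.cast_sub (by omega)]
        push_cast
        nlinarith [sq_nonneg (x : ℝ)]
    have e2 : Real.log ((2 * n : ℕ) : ℝ) = Real.log 2 + Real.log n := by
      push_cast
      rw [Real.log_mul (by norm_num) (by positivity)]
    have e4 : (Real.log ((n - x : ℕ) : ℝ) + Real.log ((n + x : ℕ) : ℝ)) / l ≤ 2 * ((K : ℝ) - 1) := by
      rw [div_le_iff₀ hl0, hl]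
      rw [e2] at hN
      linarith
    have e5 : 2 * ((i : ℝ) - 1) / i < 2 := by
      rw [div_lt_iff₀ hi0]
      linarith
    have h3 : (cardFactors (n - x) : ℝ) + cardFactors (n + x) < 2 * K := by
      rw [add_div] at e4
      linarith
    have h4 : cardFactors (n - x) + cardFactors (n + x) < 2 * K := by exact_mod_cast h3
    omega
  · intro p hp hd
    have hzp : z + 1 ≤ p := by
      by_contra hcon
      push Not at hcon
      have hle : p ≤ z := by omega
      rcases (Nat.Prime.dvd_mul hp).1 hd with h | h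
      · exact (hdvd p hp hle).1 h
      · exact (hdvd p hp hle).2 h
    exact hz.trans (Nat.pow_le_pow_left hzp 11)

/-- M5, part 1. -/
theorem from_KP2 {n K i : ℕ} (hK : 3 ≤ K) (h1 : 2 ^ i ≤ 2 * n)
    (h2 : (2 * n) ^ 2 ≤ 2 ^ (i * (K - 1) + 2)) (hi : 17 ≤ i) (hKP : KP2 i) :
    ∃ A : Finset ℕ, (2 : ℝ) ^ i / (4 * (i : ℝ) ^ 2) ≤ (A.card : ℝ) ∧
      ∀ x ∈ A, 2 * x < 2 ^ i ∧ x + 2 ≤ n ∧ cardFactors (n - x) ≤ K ∧ cardFactors (n + x) ≤ K ∧
        cardFactors (n - x) + cardFactors (n + x) ≤ 2 * K - 1 ∧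
        ∀ p : ℕ, p.Prime → p ∣ (n - x) * (n + x) → 2 ^ (i + 1) ≤ p ^ 11 := by
  classical
  obtain ⟨z, -, hz, h⟩ := hKP
  have hc := h (2 * n : ℤ) ((n : ℤ) - ((2 ^ (i - 1) - 1 : ℕ) : ℤ))
  refine ⟨(GS (2 * n : ℤ) ((n : ℤ) - ((2 ^ (i - 1) - 1 : ℕ) : ℤ)) i z).image
    (fun a => ((n : ℤ) - a).toNat), ?_, ?_⟩
  · rw [card_image_of_injOn]
    · exact hc
    · intro a ha b hb hab
      obtain ⟨x, hx, -⟩ := one_KP2 hK h1 h2 hi hz ha
      obtain ⟨y, hy, -⟩ := one_KP2 hK h1 h2 hi hz hb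
      simp only at hab
      omega
  · intro x hx
    rw [mem_image] at hx
    obtain ⟨a, ha, hax⟩ := hx
    obtain ⟨x', hx', h3⟩ := one_KP2 hK h1 h2 hi hz ha
    have : x = x' := by omega
    rw [this]
    exact h3

/-- M5, part 2 (`K = 3`, `2^i ≤ 2n < 2^(i+1)`). -/
theorem two_three_large (hall : ∀ i, 17 ≤ i → KP2 i) {n : ℕ} (hn : 65536 ≤ n) :
    ∃ A : Finset ℕ, (n : ℝ) / (4 * (Real.logb 2 (2 * n)) ^ 2) ≤ (A.card : ℝ) ∧
      ∀ x ∈ A, x + 2 ≤ n ∧ cardFactors (n - x) ≤ 3 ∧ cardFactors (n + x) ≤ 3 ∧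
        cardFactors (n - x) + cardFactors (n + x) ≤ 5 ∧
        ∀ p : ℕ, p.Prime → p ∣ (n - x) * (n + x) → 2 * n < p ^ 11 := by
  set i := Nat.log 2 (2 * n) with hi
  have hi1 : 2 ^ i ≤ 2 * n := Nat.pow_log_le_self 2 (by omega)
  have hi2 : 2 * n < 2 ^ (i + 1) := Nat.lt_pow_succ_log_self (by norm_num) _
  have hi17 : 17 ≤ i := by
    rw [hi]
    exact Nat.le_log_of_pow_le (by norm_num) (by omega)
  have h2 : (2 * n) ^ 2 ≤ 2 ^ (i * (3 - 1) + 2) := by
    have e1 : (2 * n) ^ 2 ≤ (2 ^ (i + 1)) ^ 2 := Nat.pow_le_pow_left hi2.le 2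
    rw [← pow_mul] at e1
    have e2 : i * (3 - 1) + 2 = (i + 1) * 2 := by omega
    rw [e2]; exact e1
  obtain ⟨A, hA, h⟩ := from_KP2 (K := 3) le_rfl hi1 h2 hi17 (hall i hi17)
  refine ⟨A, le_trans ?_ hA, ?_⟩
  · have hir : (17 : ℝ) ≤ i := by exact_mod_cast hi17
    have hL : (i : ℝ) ≤ Real.logb 2 (2 * n) := by
      rw [Real.le_logb_iff_rpow_le (by norm_num) (by positivity)]
      rw [Real.rpow_natCast]
      exact_mod_cast hi1
    have hn2 : (n : ℝ) ≤ 2 ^ i := by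
      have : n < 2 ^ i := by
        rw [pow_succ] at hi2
        omega
      exact_mod_cast this.le
    have h3 : (i : ℝ) ^ 2 ≤ (Real.logb 2 (2 * n)) ^ 2 := by
      apply pow_le_pow_left₀ (by linarith) hL
    apply div_le_div₀ (by positivity) hn2 (by positivity)
    linarith
  · intro x hx
    obtain ⟨-, h3, h4, h5, h6, h7⟩ := h x hx
    refine ⟨h3, h4, h5, by omega, fun p hp hd => ?_⟩
    have := h7 p hp hd
    omega

/-- M5, part 3 (`K ≥ 4`, `Y = (2n)^(2/(K-1))`, `2^(i-1) < Y ≤ 2^i`). -/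
theorem short_shift_large (hall : ∀ i, 17 ≤ i → KP2 i) {n K : ℕ} (hK : 4 ≤ K) {Y : ℝ}
    (hY : Y = (2 * (n : ℝ)) ^ ((2 : ℝ) / ((K : ℝ) - 1))) (h17 : (2 : ℝ) ^ 17 ≤ Y) :
    ∃ A : Finset ℕ, Y / (8 * (Real.logb 2 Y) ^ 2) ≤ (A.card : ℝ) ∧
      ∀ x ∈ A, (x : ℝ) < Y ∧ x + 2 ≤ n ∧ cardFactors (n - x) ≤ K ∧ cardFactors (n + x) ≤ K ∧
        cardFactors (n - x) + cardFactors (n + x) ≤ 2 * K - 1 ∧
        ∀ p : ℕ, p.Prime → p ∣ (n - x) * (n + x) → Y < (p : ℝ) ^ 11 := by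
  have hKr : (4 : ℝ) ≤ K := by exact_mod_cast hK
  have hY0 : 0 < Y := lt_of_lt_of_le (by positivity) h17
  have hL17 : (17 : ℝ) ≤ Real.logb 2 Y := by
    rw [Real.le_logb_iff_rpow_le (by norm_num) hY0]
    exact_mod_cast h17
  set i := ⌈Real.logb 2 Y⌉₊ with hi
  have hLi : Real.logb 2 Y ≤ i := Nat.le_ceil _
  have hiL : (i : ℝ) < Real.logb 2 Y + 1 := Nat.ceil_lt_add_one (by linarith)
  have hi17 : 17 ≤ i := by
    have : (17 : ℝ) ≤ i := hL17.trans hLi
    exact_mod_cast this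
  have hYi : Y ≤ 2 ^ i := by
    have := (Real.logb_le_iff_le_rpow (b := 2) (by norm_num) hY0).1 hLi
    rwa [Real.rpow_natCast] at this
  have hiY : (2 : ℝ) ^ (i - 1) < Y := by
    have h1 : ((i - 1 : ℕ) : ℝ) < Real.logb 2 Y := by
      rw [Nat.cast_sub (by omega)]
      push_cast
      linarith
    have := (Real.lt_logb_iff_rpow_lt (b := 2) (by norm_num) hY0).1 h1
    rwa [Real.rpow_natCast] at this
  have hpw : (2 : ℝ) ^ i = 2 * 2 ^ (i - 1) := by
    rw [← pow_succ']; congr 1; omega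
  -- `2n ≥ 8`
  have hn0 : 0 < (n : ℝ) := by
    rcases Nat.eq_zero_or_pos n with h0 | h0
    · exfalso
      rw [h0] at hY
      have : Y = 0 := by
        rw [hY]
        simp only [Nat.cast_zero, mul_zero]
        apply Real.zero_rpow
        have : (0 : ℝ) < 2 / ((K : ℝ) - 1) := div_pos (by norm_num) (by linarith)
        exact this.ne'
      linarith
    · exact_mod_cast h0
  have h2n0 : (0 : ℝ) < 2 * n := by positivity
  have hYK : Y ^ (K - 1) = (2 * (n : ℝ)) ^ 2 := by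
    rw [hY, ← Real.rpow_natCast, ← Real.rpow_mul h2n0.le, ← Real.rpow_natCast]
    congr 1
    rw [Nat.cast_sub (by omega)]
    push_cast
    have : (K : ℝ) - 1 ≠ 0 := by
      intro h
      linarith
    field_simp
  have h2n1 : (1 : ℝ) ≤ 2 * n := by
    have : (1 : ℝ) ≤ n := by
      have : 0 < n := by exact_mod_cast hn0
      exact_mod_cast this
    linarith
  have hY3 : Y ^ 3 ≤ (2 * (n : ℝ)) ^ 2 := by
    rw [← hYK]
    apply pow_le_pow_right₀ _ (by omega)
    linarith [show (1 : ℝ) ≤ 2 ^ 17 by norm_num]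
  have h1 : 2 ^ i ≤ 2 * n := by
    have h3 : (2 : ℝ) ^ i ≤ 2 * n := by
      have h4 : (2 : ℝ) ^ i ≤ 2 * Y := by rw [hpw]; linarith
      refine h4.trans ?_
      by_contra hcon
      push Not at hcon
      have h5 : (2 * (n : ℝ)) ^ 2 < (2 * Y) ^ 2 := pow_lt_pow_left₀ hcon h2n0.le (by norm_num)
      have h6 : Y ^ 3 < 4 * Y ^ 2 := by
        calc Y ^ 3 ≤ _ := hY3
          _ < _ := h5
          _ = 4 * Y ^ 2 := by ring
      have h7 : Y ^ 2 * (Y - 4) < 0 := by nlinarith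
      have h8 : 0 < Y ^ 2 := by positivity
      have h9 : (4 : ℝ) < Y := by linarith [show (4 : ℝ) < 2 ^ 17 by norm_num]
      have : 0 < Y ^ 2 * (Y - 4) := mul_pos h8 (by linarith)
      linarith
    exact_mod_cast h3
  have h2 : (2 * n) ^ 2 ≤ 2 ^ (i * (K - 1) + 2) := by
    have h3 : (2 * (n : ℝ)) ^ 2 ≤ 2 ^ (i * (K - 1) + 2) := by
      rw [← hYK]
      calc Y ^ (K - 1) ≤ (2 ^ i) ^ (K - 1) := pow_le_pow_left₀ hY0.le hYi _
        _ = 2 ^ (i * (K - 1)) := by rw [← pow_mul]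
        _ ≤ 2 ^ (i * (K - 1) + 2) := pow_le_pow_right₀ (by norm_num) (by omega)
    exact_mod_cast h3
  obtain ⟨A, hA, h⟩ := from_KP2 (by omega : 3 ≤ K) h1 h2 hi17 (hall i hi17)
  refine ⟨A, le_trans ?_ hA, ?_⟩
  · have hir : (17 : ℝ) ≤ i := by exact_mod_cast hi17
    apply div_le_div₀ (by positivity) hYi (by positivity)
    nlinarith
  · intro x hx
    obtain ⟨h0, h3, h4, h5, h6, h7⟩ := h x hx
    refine ⟨?_, h3, h4, h5, h6, fun p hp hd => ?_⟩
    · have h8 : (2 : ℝ) * x < 2 ^ i := by exact_mod_cast h0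
      rw [hpw] at h8
      linarith
    · have h8 : (2 : ℝ) ^ (i + 1) ≤ (p : ℝ) ^ 11 := by exact_mod_cast h7 p hp hd
      rw [pow_succ] at h8
      linarith

end Pool.Agent.H91.Gold
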