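import Mathlib
import Pool.Agent.H91.G5All
import Pool.Agent.H91.G5Final
import Pool.Agent.H91.G5Small

/-!
Every even integer `N ≥ 4` is the sum of a number with at most two and a number with at most three
prime factors; a version with a short shift.
-/

namespace Pool.Agent.H91.Gold

open Finset ArithmeticFunction

theorem main_two_three {n : ℕ} (hn : 2 ≤ n) :
    ∃ A : Finset ℕ, A.Nonempty ∧
      (∀ x ∈ A, x + 2 ≤ n ∧ cardFactors (n - x) ≤ 3 ∧ cardFactors (n + x) ≤ 3 ∧
        cardFactors (n - x) + cardFactors (n + x) ≤ 5) ∧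
      (65536 ≤ n → (n : ℝ) / (4 * (Real.logb 2 (2 * n)) ^ 2) ≤ (A.card : ℝ) ∧
        ∀ x ∈ A, ∀ p : ℕ, p.Prime → p ∣ (n - x) * (n + x) → 2 * n < p ^ 11) := by
  rcases Nat.lt_or_ge n 65536 with h | h
  · obtain ⟨x, h1, h2, h3, _⟩ := goldbach_small hn h
    refine ⟨{x}, singleton_nonempty x, ?_, fun h' => by omega⟩
    intro y hy
    rw [mem_singleton] at hy
    subst hy
    rw [cardFactors_apply_prime h2, cardFactors_apply_prime h3]
    exact ⟨h1, by norm_num, by norm_num, by norm_num⟩
  · obtain ⟨A, hA, hx⟩ := two_three_large (fun i hi => KP2_all hi) h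
    have hn0 : (0 : ℝ) < n := by exact_mod_cast (by omega : 0 < n)
    have hne : A.Nonempty := by
      rw [← card_pos]
      have h1 : (0 : ℝ) < (n : ℝ) / (4 * (Real.logb 2 (2 * n)) ^ 2) := by
        have : (1 : ℝ) < 2 * n := by
          have : (65536 : ℝ) ≤ n := by exact_mod_cast h
          linarith
        have := Real.logb_pos (b := 2) (by norm_num) this
        positivity
      have h2 : (0 : ℝ) < (A.card : ℝ) := lt_of_lt_of_le h1 hA
      exact_mod_cast h2
    refine ⟨A, hne, fun x hxA => ?_, fun _ => ⟨hA, fun x hxA => ?_⟩⟩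
    · obtain ⟨h1, h2, h3, h4, _⟩ := hx x hxA
      exact ⟨h1, h2, h3, h4⟩
    · obtain ⟨_, _, _, _, h5⟩ := hx x hxA
      exact h5

end Pool.Agent.H91.Gold
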