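import Mathlib

/-!
Good weights and good sets for the Erdős discrepancy problem (definitions of the problem file
MP_726576_nt), together with a criterion for a set to be bad.
-/

namespace Pool.Agent.H91.Discrepancy

/-- `w` is a good weight: for every `a : ℕ → ℂ` which is unimodular at all positive integers the
sums `∑_{1 ≤ k ≤ n} w k * a (d * k)` are unbounded over `d, n ≥ 1`. -/
def IsGoodWeight (w : ℕ → ℂ) : Prop :=
  ∀ a : ℕ → ℂ, (∀ k : ℕ, 1 ≤ k → ‖a k‖ = 1) →
    ∀ C : ℝ, ∃ d n : ℕ, 1 ≤ d ∧ 1 ≤ n ∧ C < ‖∑ k ∈ Finset.Icc 1 n, w k * a (d * k)‖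

/-- A set of positive integers is good if its indicator function is a good weight. -/
def IsGoodSet (S : Set ℕ) : Prop :=
  IsGoodWeight (Set.indicator S (fun _ => (1 : ℂ)))

/-- A set is bad if it is not good. -/
def IsBadSet (S : Set ℕ) : Prop := ¬ IsGoodSet S

/-- Unfolding: `S` is bad iff some unimodular `a` has bounded sums over all dilates of `S`. -/
theorem isBadSet_iff (S : Set ℕ) :
    IsBadSet S ↔ ∃ a : ℕ → ℂ, (∀ k : ℕ, 1 ≤ k → ‖a k‖ = 1) ∧
      ∃ C : ℝ, ∀ d n : ℕ, 1 ≤ d → 1 ≤ n →
        ‖∑ k ∈ Finset.Icc 1 n, Set.indicator S (fun _ => (1 : ℂ)) k * a (d * k)‖ ≤ C := by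
  unfold IsBadSet IsGoodSet IsGoodWeight
  push Not
  rfl

/-- The elements of `range g` up to `n` are the first few values of the strictly increasing
sequence `g`. -/
theorem exists_sum_eq {g : ℕ → ℕ} (hg : StrictMono g) (h0 : 1 ≤ g 0) (F : ℕ → ℂ) (n : ℕ) :
    ∃ M : ℕ, ∑ k ∈ Finset.Icc 1 n, Set.indicator (Set.range g) (fun _ => (1 : ℂ)) k * F k
      = ∑ j ∈ Finset.range M, F (g j) := by
  classical
  have hpos : ∀ j, 1 ≤ g j := fun j => le_trans h0 (hg.monotone (Nat.zero_le j))
  induction n with
  | zero => exact ⟨0, by simp⟩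
  | succ n ih =>
    obtain ⟨M, hM⟩ := ih
    -- use the number of `j` with `g j ≤ n + 1` instead
    refine ⟨((Finset.range (n + 2)).filter (fun j => g j ≤ n + 1)).card, ?_⟩
    have key : (Finset.range (n + 2)).filter (fun j => g j ≤ n + 1)
        = Finset.range ((Finset.range (n + 2)).filter (fun j => g j ≤ n + 1)).card := by
      set A := (Finset.range (n + 2)).filter (fun j => g j ≤ n + 1) with hA
      have hdown : ∀ i j, i ≤ j → j ∈ A → i ∈ A := by
        intro i j hij hj
        rw [hA, Finset.mem_filter, Finset.mem_range] at hj ⊢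
        exact ⟨lt_of_le_of_lt hij hj.1, le_trans (hg.monotone hij) hj.2⟩
      have hsub : ∀ j ∈ A, Finset.range (j + 1) ⊆ A := by
        intro j hj i hi
        exact hdown i j (Nat.lt_succ_iff.mp (Finset.mem_range.mp hi)) hj
      have h1 : A ⊆ Finset.range A.card := by
        intro j hj
        have := Finset.card_le_card (hsub j hj)
        rw [Finset.card_range] at this
        exact Finset.mem_range.mpr this
      exact Finset.eq_of_subset_of_card_le h1 (by rw [Finset.card_range])
    rw [← key]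
    have hmem : ∀ k ∈ Finset.Icc 1 (n + 1),
        Set.indicator (Set.range g) (fun _ => (1 : ℂ)) k * F k
          = if k ∈ ((Finset.range (n + 2)).filter (fun j => g j ≤ n + 1)).image g then F k
            else 0 := by
      intro k hk
      rw [Finset.mem_Icc] at hk
      by_cases hk' : k ∈ Set.range g
      · rw [Set.indicator_of_mem hk', one_mul, if_pos]
        obtain ⟨j, rfl⟩ := hk'
        refine Finset.mem_image_of_mem g ?_
        rw [Finset.mem_filter, Finset.mem_range]
        exact ⟨lt_of_le_of_lt (le_trans (hg.id_le j) hk.2) (by omega), hk.2⟩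
      · rw [Set.indicator_of_notMem hk', zero_mul, if_neg]
        intro h
        obtain ⟨j, _, rfl⟩ := Finset.mem_image.mp h
        exact hk' ⟨j, rfl⟩
    rw [Finset.sum_congr rfl hmem, ← Finset.sum_filter]
    have hfe : (Finset.Icc 1 (n + 1)).filter
        (fun k => k ∈ ((Finset.range (n + 2)).filter (fun j => g j ≤ n + 1)).image g)
        = ((Finset.range (n + 2)).filter (fun j => g j ≤ n + 1)).image g := by
      ext k
      rw [Finset.mem_filter]
      constructor
      · exact fun h => h.2
      · intro h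
        refine ⟨?_, h⟩
        obtain ⟨j, hj, rfl⟩ := Finset.mem_image.mp h
        rw [Finset.mem_filter] at hj
        exact Finset.mem_Icc.mpr ⟨hpos j, hj.2⟩
    rw [hfe, Finset.sum_image (fun a _ b _ hab => hg.injective hab)]

/-- Criterion for being bad: a unimodular `f` with `f (d * g j) = f d * f (g j)` whose partial
sums along the strictly increasing sequence `g` are bounded. -/
theorem isBadSet_range {g : ℕ → ℕ} (hg : StrictMono g) (h0 : 1 ≤ g 0) (f : ℕ → ℂ)
    (hf : ∀ k : ℕ, 1 ≤ k → ‖f k‖ = 1)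
    (hmul : ∀ d j : ℕ, 1 ≤ d → f (d * g j) = f d * f (g j)) (C : ℝ)
    (hC : ∀ M : ℕ, ‖∑ j ∈ Finset.range M, f (g j)‖ ≤ C) :
    IsBadSet (Set.range g) := by
  rw [isBadSet_iff]
  refine ⟨f, hf, C, ?_⟩
  intro d n hd _
  obtain ⟨M, hM⟩ := exists_sum_eq hg h0 (fun k => f (d * k)) n
  rw [hM]
  have : ∑ j ∈ Finset.range M, f (d * g j) = f d * ∑ j ∈ Finset.range M, f (g j) := by
    rw [Finset.mul_sum]
    exact Finset.sum_congr rfl fun j _ => hmul d j hd
  rw [this, norm_mul, hf d hd, one_mul]
  exact hC M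

end Pool.Agent.H91.Discrepancy
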