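import Mathlib
import Pool.Agent.H91.G5All
import Pool.Agent.H91.G5Final
import Pool.Agent.H91.G5Small

/-!
Almost primes with a short shift, total number of prime factors `r`.
-/

namespace Pool.Agent.H91.Gold

open Finset
open ArithmeticFunction (cardFactors)

set_option maxHeartbeats 2000000 in
/-- one element of the sifted set -/
theorem one_KP2r {n r i z : ℕ} (hr : 5 ≤ r) (h1 : 2 ^ i ≤ 2 * n)
    (h2 : (2 * n) ^ 4 ≤ 2 ^ (i * (r - 1) + 4)) (hi : 17 ≤ i) (hz : 2 ^ (i + 1) ≤ (z + 1) ^ 11)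
    {a : ℤ} (ha : a ∈ GS (2 * n : ℤ) ((n : ℤ) - ((2 ^ (i - 1) - 1 : ℕ) : ℤ)) i z) :
    ∃ x : ℕ, (x : ℤ) = n - a ∧ 2 * x < 2 ^ i ∧ x + 2 ≤ n ∧ 2 * cardFactors (n - x) ≤ r + 2 ∧
        2 * cardFactors (n + x) ≤ r + 2 ∧
        cardFactors (n - x) + cardFactors (n + x) ≤ r ∧
        ∀ p : ℕ, p.Prime → p ∣ (n - x) * (n + x) → 2 ^ (i + 1) ≤ p ^ 11 := by
  unfold GS at ha
  rw [mem_filter] at ha
  obtain ⟨ha, hnf, hwt⟩ := ha
  set X := 2 ^ (i - 1) - 1 with hX
  have e3 : 2 ^ i = 2 * 2 ^ (i - 1) := by rw [← pow_succ']; congr 1; omega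
  have hn0 : 0 < n := by
    rcases Nat.eq_zero_or_pos n with rfl | h0
    · simp at h1
    · exact h0
  have hn2 : 2 ^ (i - 1) ≤ n := by omega
  rw [mem_Ioc] at ha
  obtain ⟨x, hx⟩ : ∃ x : ℕ, (x : ℤ) = n - a := ⟨(n - a).toNat, by rw [Int.toNat_of_nonneg]; omega⟩
  have hpow : 1 ≤ 2 ^ (i - 1) := Nat.one_le_two_pow
  have hxX : x < X := by omega
  have hx2 : x + 2 ≤ n := by omega
  have hA : ((n - x : ℕ) : ℤ) = a := by omega
  have hB : ((n + x : ℕ) : ℤ) = 2 * n - a := by push_cast; omega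
  have hdvd : ∀ p, p.Prime → p ≤ z → ¬ p ∣ (n - x) ∧ ¬ p ∣ (n + x) := by
    intro p hp hple
    have := not_dvd_of_nf (p := p) (dvd_mul_right 2 (n : ℤ)) hnf (mem_Pr.2 ⟨⟨hp.one_lt, hple⟩, hp⟩)
    rw [← hB, ← hA] at this
    exact ⟨fun hd => this.1 (Int.natCast_dvd_natCast.2 hd), fun hd => this.2 (Int.natCast_dvd_natCast.2 hd)⟩
  have hwn : ∀ p ∈ Pr z (zc i), 0 ≤ w2 i p := fun p hp =>
    w2_nonneg' (by omega) (prime_of_Pr hp).pos (mem_Pr.1 hp).1.2
  -- terms of the weight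
  have hterm : ∀ p ∈ Pr z (zc i), 0 ≤ w2 i p * (ind p 0 a + ind p (2 * n) a)
      + (ind (p ^ 2) 0 a + ind (p ^ 2) (2 * n) a) := by
    intro p hp
    have := hwn p hp
    have b1 := ind_nonneg p 0 a
    have b2 := ind_nonneg p (2 * n) a
    have b3 := ind_nonneg (p ^ 2) 0 a
    have b4 := ind_nonneg (p ^ 2) (2 * n) a
    have := mul_nonneg this (add_nonneg b1 b2)
    linarith
  have hsq : ∀ p ∈ Pr z (zc i), ¬ p ^ 2 ∣ (n - x) ∧ ¬ p ^ 2 ∣ (n + x) := by
    intro p hp
    have h3 := single_le_sum hterm hp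
    have h4 : w2 i p * (ind p 0 a + ind p (2 * n) a)
      + (ind (p ^ 2) 0 a + ind (p ^ 2) (2 * n) a) < 1 := lt_of_le_of_lt h3 hwt
    have b0 := mul_nonneg (hwn p hp) (add_nonneg (ind_nonneg p 0 a) (ind_nonneg p (2 * n) a))
    have b3 := ind_nonneg (p ^ 2) 0 a
    have b4 := ind_nonneg (p ^ 2) (2 * n) a
    constructor
    · intro hd
      have : ind (p ^ 2) 0 a = 1 := by
        unfold ind
        rw [if_pos]
        rw [Int.modEq_zero_iff_dvd, ← hA]
        exact Int.natCast_dvd_natCast.2 hd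
      linarith
    · intro hd
      have : ind (p ^ 2) (2 * n) a = 1 := by
        unfold ind
        rw [if_pos]
        rw [Int.modEq_iff_dvd, ← hB]
        exact Int.natCast_dvd_natCast.2 hd
      linarith
  have l2 : 0 < Real.log 2 := Real.log_pos (by norm_num)
  have hir : (17 : ℝ) ≤ i := by exact_mod_cast hi
  set l : ℝ := (i : ℝ) / 2 * Real.log 2 with hl
  have hl0 : 0 < l := by positivity
  have hcc : 0 < 2 * ((i : ℝ) - 1) / i := by
    apply div_pos <;> linarith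
  have hWnn : ∀ p ∈ Pr z (zc i), 0 ≤ 1 - Real.log p / l := by
    intro p hp
    rw [w2_eq (by omega) p]
    exact mul_nonneg hcc.le (hwn p hp)
  have hsum : ∑ p ∈ Pr z (zc i), (1 - Real.log p / l) * (if p ∣ (n - x) then 1 else 0)
      + ∑ p ∈ Pr z (zc i), (1 - Real.log p / l) * (if p ∣ (n + x) then 1 else 0)
      < 2 * ((i : ℝ) - 1) / i := by
    rw [← sum_add_distrib]
    have e1 : ∑ p ∈ Pr z (zc i), ((1 - Real.log p / l) * (if p ∣ (n - x) then 1 else 0)
        + (1 - Real.log p / l) * (if p ∣ (n + x) then 1 else 0))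
        ≤ ∑ p ∈ Pr z (zc i), 2 * ((i : ℝ) - 1) / i * (w2 i p * (ind p 0 a + ind p (2 * n) a)
          + (ind (p ^ 2) 0 a + ind (p ^ 2) (2 * n) a)) := by
      apply sum_le_sum
      intro p hp
      rw [w2_eq (by omega) p]
      have i1 : (if p ∣ (n - x) then (1 : ℝ) else 0) = ind p 0 a := by
        unfold ind
        simp only [Int.modEq_zero_iff_dvd, ← hA, Int.natCast_dvd_natCast]
      have i2 : (if p ∣ (n + x) then (1 : ℝ) else 0) = ind p (2 * n) a := by
        unfold ind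
        simp only [Int.modEq_iff_dvd, ← hB, Int.natCast_dvd_natCast]
      rw [i1, i2]
      have b3 := ind_nonneg (p ^ 2) 0 a
      have b4 := ind_nonneg (p ^ 2) (2 * n) a
      have b6 := mul_nonneg hcc.le (add_nonneg b3 b4)
      nlinarith
    rw [← mul_sum] at e1
    refine lt_of_le_of_lt e1 ?_
    have e4 := mul_lt_mul_of_pos_left hwt hcc
    rw [mul_one] at e4
    exact e4
  have hA0 : n - x ≠ 0 := by omega
  have hB0 : n + x ≠ 0 := by omega
  have hly : ∀ p : ℕ, p.Prime → p ≤ zc i → Real.log p ≤ l := fun p hp h => log_le_of_le_zc hp.pos h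
  have hyl : ∀ p : ℕ, p.Prime → zc i < p → l ≤ Real.log p := fun p _ h => le_log_of_zc_lt h
  have oA := omega_bound' hl0 hly hyl hA0 (fun p hp hple => (hdvd p hp hple).1) (fun p hp => (hsq p hp).1)
  have oB := omega_bound' hl0 hly hyl hB0 (fun p hp hple => (hdvd p hp hple).2) (fun p hp => (hsq p hp).2)
  have sA : 0 ≤ ∑ p ∈ Pr z (zc i), (1 - Real.log p / l) * (if p ∣ (n - x) then 1 else 0) :=
    sum_nonneg (fun p hp => mul_nonneg (hWnn p hp) (by split_ifs <;> norm_num))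
  have sB : 0 ≤ ∑ p ∈ Pr z (zc i), (1 - Real.log p / l) * (if p ∣ (n + x) then 1 else 0) :=
    sum_nonneg (fun p hp => mul_nonneg (hWnn p hp) (by split_ifs <;> norm_num))
  have hN : 4 * Real.log ((2 * n : ℕ) : ℝ) ≤ ((i : ℝ) * ((r : ℝ) - 1) + 4) * Real.log 2 := by
    have e1 : Real.log (((2 * n) ^ 4 : ℕ) : ℝ) ≤ Real.log ((2 ^ (i * (r - 1) + 4) : ℕ) : ℝ) := by
      apply Real.log_le_log
      · exact_mod_cast pow_pos (by omega) 4
      · exact_mod_cast h2
    rw [Nat.cast_pow, Nat.cast_pow, Real.log_pow, Real.log_pow] at e1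
    have e9 : ((i * (r - 1) + 4 : ℕ) : ℝ) = (i : ℝ) * ((r : ℝ) - 1) + 4 := by
      rw [Nat.cast_add, Nat.cast_mul, Nat.cast_sub (by omega : 1 ≤ r)]
      push_cast
      ring
    rw [e9] at e1
    push_cast at e1 ⊢
    linarith
  have hlA : Real.log ((n - x : ℕ) : ℝ) ≤ Real.log ((2 * n : ℕ) : ℝ) := by
    apply Real.log_le_log
    · exact_mod_cast Nat.pos_of_ne_zero hA0
    · exact_mod_cast (by omega : n - x ≤ 2 * n)
  have hlB : Real.log ((n + x : ℕ) : ℝ) ≤ Real.log ((2 * n : ℕ) : ℝ) := by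
    apply Real.log_le_log
    · exact_mod_cast Nat.pos_of_ne_zero hB0
    · exact_mod_cast (by omega : n + x ≤ 2 * n)
  have hi0 : (0 : ℝ) < i := by linarith
  have key : ∀ t : ℝ, t ≤ Real.log ((2 * n : ℕ) : ℝ) → t / l + 2 * ((i : ℝ) - 1) / i ≤ ((r : ℝ) + 3) / 2 := by
    intro t ht
    have e1 : t / l ≤ ((i : ℝ) * ((r : ℝ) - 1) + 4) / (2 * i) := by
      rw [div_le_div_iff₀ hl0 (by positivity), hl]
      have e5 : 4 * t ≤ ((i : ℝ) * ((r : ℝ) - 1) + 4) * Real.log 2 := by linarith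
      have e6 := mul_le_mul_of_nonneg_right e5 hi0.le
      linarith
    have e2 : ((i : ℝ) * ((r : ℝ) - 1) + 4) / (2 * i) + 2 * ((i : ℝ) - 1) / i = ((r : ℝ) + 3) / 2 := by
      field_simp
      ring
    linarith
  refine ⟨x, hx, ?_, hx2, ?_, ?_, ?_, ?_⟩
  · omega
  · have := key _ hlA
    have h3 : 2 * (cardFactors (n - x) : ℝ) < r + 3 := by linarith
    have h4 : 2 * cardFactors (n - x) < r + 3 := by exact_mod_cast h3
    omega
  · have := key _ hlB
    have h3 : 2 * (cardFactors (n + x) : ℝ) < r + 3 := by linarith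
    have h4 : 2 * cardFactors (n + x) < r + 3 := by exact_mod_cast h3
    omega
  · have e1 : Real.log ((n - x : ℕ) : ℝ) + Real.log ((n + x : ℕ) : ℝ) ≤ 2 * Real.log (n : ℝ) := by
      rw [← Real.log_mul (by exact_mod_cast hA0) (by exact_mod_cast hB0)]
      have : 2 * Real.log (n : ℝ) = Real.log ((n : ℝ) ^ 2) := by rw [Real.log_pow]; norm_num
      rw [this]
      apply Real.log_le_log
      · have := Nat.pos_of_ne_zero hA0
        have := Nat.pos_of_ne_zero hB0
        positivity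
      · rw [Nat.cast_sub (by omega)]
        push_cast
        nlinarith [sq_nonneg (x : ℝ)]
    have e2 : Real.log ((2 * n : ℕ) : ℝ) = Real.log 2 + Real.log n := by
      push_cast
      rw [Real.log_mul (by norm_num) (by positivity)]
    have e4 : (Real.log ((n - x : ℕ) : ℝ) + Real.log ((n + x : ℕ) : ℝ)) / l ≤ (r : ℝ) - 1 := by
      rw [div_le_iff₀ hl0, hl]
      rw [e2] at hN
      linarith
    have e5 : 2 * ((i : ℝ) - 1) / i < 2 := by
      rw [div_lt_iff₀ hi0]
      linarith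
    have h3 : (cardFactors (n - x) : ℝ) + cardFactors (n + x) < r + 1 := by
      rw [add_div] at e4
      linarith
    have h4 : cardFactors (n - x) + cardFactors (n + x) < r + 1 := by exact_mod_cast h3
    omega
  · intro p hp hd
    have hzp : z + 1 ≤ p := by
      by_contra hcon
      push Not at hcon
      have hle : p ≤ z := by omega
      rcases (Nat.Prime.dvd_mul hp).1 hd with h | h
      · exact (hdvd p hp hle).1 h
      · exact (hdvd p hp hle).2 h
    exact hz.trans (Nat.pow_le_pow_left hzp 11)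

theorem from_KP2r {n r i : ℕ} (hr : 5 ≤ r) (h1 : 2 ^ i ≤ 2 * n)
    (h2 : (2 * n) ^ 4 ≤ 2 ^ (i * (r - 1) + 4)) (hi : 17 ≤ i) (hKP : KP2 i) :
    ∃ A : Finset ℕ, (2 : ℝ) ^ i / (4 * (i : ℝ) ^ 2) ≤ (A.card : ℝ) ∧
      ∀ x ∈ A, 2 * x < 2 ^ i ∧ x + 2 ≤ n ∧ 2 * cardFactors (n - x) ≤ r + 2 ∧
        2 * cardFactors (n + x) ≤ r + 2 ∧ cardFactors (n - x) + cardFactors (n + x) ≤ r ∧
        ∀ p : ℕ, p.Prime → p ∣ (n - x) * (n + x) → 2 ^ (i + 1) ≤ p ^ 11 := by
  classical
  obtain ⟨z, -, hz, h⟩ := hKP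
  have hc := h (2 * n : ℤ) ((n : ℤ) - ((2 ^ (i - 1) - 1 : ℕ) : ℤ))
  refine ⟨(GS (2 * n : ℤ) ((n : ℤ) - ((2 ^ (i - 1) - 1 : ℕ) : ℤ)) i z).image
    (fun a => ((n : ℤ) - a).toNat), ?_, ?_⟩
  · rw [card_image_of_injOn]
    · exact hc
    · intro a ha b hb hab
      obtain ⟨x, hx, -⟩ := one_KP2r hr h1 h2 hi hz ha
      obtain ⟨y, hy, -⟩ := one_KP2r hr h1 h2 hi hz hb
      simp only at hab
      omega
  · intro x hx
    rw [mem_image] at hx
    obtain ⟨a, ha, hax⟩ := hx
    obtain ⟨x', hx', h3⟩ := one_KP2r hr h1 h2 hi hz ha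
    have : x = x' := by omega
    rw [this]
    exact h3


theorem short_shift_r {n r : ℕ} (hr : 6 ≤ r) (hn : 2 ≤ n) {Y : ℝ}
    (hY : Y = (2 * (n : ℝ)) ^ ((4 : ℝ) / ((r : ℝ) - 1))) :
    ∃ A : Finset ℕ, A.Nonempty ∧
      (∀ x ∈ A, (x : ℝ) < max Y 65536 ∧ x + 2 ≤ n ∧ 2 * cardFactors (n - x) ≤ r + 2 ∧
        2 * cardFactors (n + x) ≤ r + 2 ∧ cardFactors (n - x) + cardFactors (n + x) ≤ r) ∧
      ((2 : ℝ) ^ 17 ≤ Y → Y / (8 * (Real.logb 2 Y) ^ 2) ≤ (A.card : ℝ) ∧
        ∀ x ∈ A, (x : ℝ) < Y ∧ ∀ p : ℕ, p.Prime → p ∣ (n - x) * (n + x) → Y < (p : ℝ) ^ 11) := by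
  have hrr : (6 : ℝ) ≤ r := by exact_mod_cast hr
  have hn2 : (2 : ℝ) ≤ n := by exact_mod_cast hn
  have h2n0 : (0 : ℝ) < 2 * n := by positivity
  have h2n1 : (1 : ℝ) ≤ 2 * n := by linarith
  have hY1 : 1 ≤ Y := by
    rw [hY]
    exact Real.one_le_rpow h2n1 (div_nonneg (by norm_num) (by linarith))
  have hY0 : 0 < Y := by linarith
  have hYr : Y ^ (r - 1) = (2 * (n : ℝ)) ^ 4 := by
    rw [hY, ← Real.rpow_natCast, ← Real.rpow_mul h2n0.le, ← Real.rpow_natCast]
    congr 1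
    rw [Nat.cast_sub (by omega)]
    push_cast
    have : (r : ℝ) - 1 ≠ 0 := by
      intro h
      linarith
    field_simp
  rcases Nat.lt_or_ge n 65536 with hsm | hbg
  · -- small n
    obtain ⟨x, h1, h2, h3, _⟩ := goldbach_small hn hsm
    have hYlt : Y < 2 ^ 17 := by
      by_contra hcon
      push Not at hcon
      have e1 : Y ^ 5 ≤ Y ^ (r - 1) := pow_le_pow_right₀ hY1 (by omega)
      rw [hYr] at e1
      have e2 : ((2 : ℝ) ^ 17) ^ 5 ≤ Y ^ 5 := pow_le_pow_left₀ (by positivity) hcon 5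
      have e3 : (2 * (n : ℝ)) ^ 4 ≤ ((2 : ℝ) ^ 17) ^ 4 := by
        apply pow_le_pow_left₀ h2n0.le
        have : (n : ℝ) ≤ 65536 := by exact_mod_cast hsm.le
        norm_num
        linarith
      have e4 : ((2 : ℝ) ^ 17) ^ 5 ≤ ((2 : ℝ) ^ 17) ^ 4 := e2.trans (e1.trans e3)
      norm_num at e4
    refine ⟨{x}, singleton_nonempty x, ?_, fun h' => by linarith⟩
    intro y hy
    rw [mem_singleton] at hy
    subst hy
    rw [ArithmeticFunction.cardFactors_apply_prime h2, ArithmeticFunction.cardFactors_apply_prime h3]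
    refine ⟨?_, h1, by omega, by omega, by omega⟩
    apply lt_max_of_lt_right
    have : y < 65536 := by omega
    exact_mod_cast this
  · -- large n
    set i := max 17 ⌈Real.logb 2 Y⌉₊ with hi
    have hi17 : 17 ≤ i := le_max_left _ _
    have hLi : Real.logb 2 Y ≤ i := (Nat.le_ceil _).trans (by exact_mod_cast le_max_right _ _)
    have hYi : Y ≤ 2 ^ i := by
      have := (Real.logb_le_iff_le_rpow (b := 2) (by norm_num) hY0).1 hLi
      rwa [Real.rpow_natCast] at this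
    have hpw : (2 : ℝ) ^ i = 2 * 2 ^ (i - 1) := by
      rw [← pow_succ']; congr 1; omega
    have hiY : (2 : ℝ) ^ (i - 1) < max Y 65537 := by
      rcases max_choice 17 ⌈Real.logb 2 Y⌉₊ with h | h
      · rw [← hi] at h
        rw [h]
        apply lt_max_of_lt_right
        norm_num
      · rw [← hi] at h
        have h1 : ((i - 1 : ℕ) : ℝ) < Real.logb 2 Y := by
          rw [Nat.cast_sub (by omega), h]
          push_cast
          have h0 : 0 ≤ Real.logb 2 Y := Real.logb_nonneg (by norm_num) hY1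
          have := Nat.ceil_lt_add_one h0
          linarith
        have := (Real.lt_logb_iff_rpow_lt (b := 2) (by norm_num) hY0).1 h1
        rw [Real.rpow_natCast] at this
        exact lt_max_of_lt_left this
    have hYn : Y ≤ n := by
      by_contra hcon
      push Not at hcon
      have e1 : Y ^ 5 ≤ Y ^ (r - 1) := pow_le_pow_right₀ hY1 (by omega)
      rw [hYr] at e1
      have hn0 : (65536 : ℝ) ≤ n := by exact_mod_cast hbg
      have e2 : (n : ℝ) ^ 5 ≤ Y ^ 5 := pow_le_pow_left₀ (by linarith) hcon.le 5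
      have e3 : (n : ℝ) ^ 5 ≤ (2 * (n : ℝ)) ^ 4 := e2.trans e1
      have e4 : (n : ℝ) ^ 5 = n * (n : ℝ) ^ 4 := by ring
      have e5 : (2 * (n : ℝ)) ^ 4 = 16 * (n : ℝ) ^ 4 := by ring
      rw [e4, e5] at e3
      have e6 : (0 : ℝ) < (n : ℝ) ^ 4 := by positivity
      nlinarith
    have h1 : 2 ^ i ≤ 2 * n := by
      rcases max_choice 17 ⌈Real.logb 2 Y⌉₊ with h | h
      · rw [← hi] at h
        rw [h]; omega
      · have h3 : (2 : ℝ) ^ i ≤ 2 * n := by
          have h0 : 0 ≤ Real.logb 2 Y := Real.logb_nonneg (by norm_num) hY1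
          have hc := Nat.ceil_lt_add_one h0
          rw [← hi] at h
          have h5 : (i : ℝ) < Real.logb 2 Y + 1 := by rw [h]; exact hc
          have h6 : ((i - 1 : ℕ) : ℝ) ≤ Real.logb 2 Y := by
            rw [Nat.cast_sub (by omega)]
            push_cast
            linarith
          have := (Real.le_logb_iff_rpow_le (b := 2) (by norm_num) hY0).1 h6
          rw [Real.rpow_natCast] at this
          rw [hpw]
          linarith
        exact_mod_cast h3
    have h2 : (2 * n) ^ 4 ≤ 2 ^ (i * (r - 1) + 4) := by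
      have h3 : (2 * (n : ℝ)) ^ 4 ≤ 2 ^ (i * (r - 1) + 4) := by
        rw [← hYr]
        calc Y ^ (r - 1) ≤ (2 ^ i) ^ (r - 1) := pow_le_pow_left₀ hY0.le hYi _
          _ = 2 ^ (i * (r - 1)) := by rw [← pow_mul]
          _ ≤ 2 ^ (i * (r - 1) + 4) := pow_le_pow_right₀ (by norm_num) (by omega)
      exact_mod_cast h3
    obtain ⟨A, hA, h⟩ := from_KP2r (by omega : 5 ≤ r) h1 h2 hi17 (KP2_all hi17)
    have hir : (17 : ℝ) ≤ i := by exact_mod_cast hi17
    have hne : A.Nonempty := by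
      rw [← card_pos]
      have h1 : (0 : ℝ) < (2 : ℝ) ^ i / (4 * (i : ℝ) ^ 2) := by positivity
      have h2 : (0 : ℝ) < (A.card : ℝ) := lt_of_lt_of_le h1 hA
      exact_mod_cast h2
    refine ⟨A, hne, fun x hx => ?_, fun hY17 => ⟨?_, fun x hx => ⟨?_, fun p hp hd => ?_⟩⟩⟩
    · obtain ⟨h0, h3, h4, h5, h6, _⟩ := h x hx
      refine ⟨?_, h3, h4, h5, h6⟩
      have h8 : (2 : ℝ) * x < 2 ^ i := by exact_mod_cast h0
      rw [hpw] at h8
      have h9 : (x : ℝ) < 2 ^ (i - 1) := by linarith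
      rcases max_choice 17 ⌈Real.logb 2 Y⌉₊ with h | h
      · rw [← hi] at h
        rw [h] at h9
        apply lt_max_of_lt_right
        have h9' : (x : ℝ) < 2 ^ 16 := h9
        linarith [show (2 : ℝ) ^ 16 = 65536 by norm_num]
      · rw [← hi] at h
        apply lt_max_of_lt_left
        have h1 : ((i - 1 : ℕ) : ℝ) < Real.logb 2 Y := by
          rw [Nat.cast_sub (by omega), h]
          push_cast
          have h0 : 0 ≤ Real.logb 2 Y := Real.logb_nonneg (by norm_num) hY1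
          have := Nat.ceil_lt_add_one h0
          linarith
        have := (Real.lt_logb_iff_rpow_lt (b := 2) (by norm_num) hY0).1 h1
        rw [Real.rpow_natCast] at this
        linarith
    · have hL17 : (17 : ℝ) ≤ Real.logb 2 Y := by
        rw [Real.le_logb_iff_rpow_le (by norm_num) hY0]
        exact_mod_cast hY17
      have hceil : i = ⌈Real.logb 2 Y⌉₊ := by
        rw [hi]
        apply max_eq_right
        have : (17 : ℝ) ≤ ⌈Real.logb 2 Y⌉₊ := hL17.trans (Nat.le_ceil _)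
        exact_mod_cast this
      have hiL : (i : ℝ) < Real.logb 2 Y + 1 := by
        rw [hceil]; exact Nat.ceil_lt_add_one (by linarith)
      refine le_trans ?_ hA
      apply div_le_div₀ (by positivity) hYi (by positivity)
      nlinarith
    · obtain ⟨h0, _⟩ := h x hx
      have h8 : (2 : ℝ) * x < 2 ^ i := by exact_mod_cast h0
      rw [hpw] at h8
      have h9 : (2 : ℝ) ^ (i - 1) < max Y 65537 := hiY
      have h10 : max Y 65537 = Y := max_eq_left (by
        have : (65537 : ℝ) ≤ 2 ^ 17 := by norm_num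
        linarith)
      rw [h10] at h9
      linarith
    · obtain ⟨_, _, _, _, _, h7⟩ := h x hx
      have h8 : (2 : ℝ) ^ (i + 1) ≤ (p : ℝ) ^ 11 := by exact_mod_cast h7 p hp hd
      rw [pow_succ] at h8
      linarith

end Pool.Agent.H91.Gold
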