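import Mathlib
import Pool.Agent.H91.GoldBase

/-!
The key proposition for all large indices.
-/

namespace Pool.Agent.H91.Gold

open Finset

theorem tau_zero : tau 0 ≤ 0.035257 := by
  unfold tau eE
  rw [if_pos rfl]
  norm_num [Nat.factorial]

theorem famL {al : ℕ} (hal : 64 ≤ al) : CHR al (1.04553 : ℝ) (0.044518 : ℝ) (13 * al) (14 * al) := by
  have h := CHR_family (by norm_num) (fun al h1 h2 => baseA (al := al) h1 h2) al hal 0
  have h13 : DD 0 = 13 := rfl
  rw [h13] at h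
  refine h.mono ?_ ?_ le_rfl (by omega)
  · have := exp_small (x := tau 0) (y := 3525700) (E := 1.03589) (by
      have := tau_zero
      unfold SC; norm_num at this ⊢; linarith) (by unfold expU SC; norm_num)
    calc (1.0093 : ℝ) * Real.exp (tau 0) ≤ 1.0093 * 1.03589 := by
          apply mul_le_mul_of_nonneg_left this (by norm_num)
      _ ≤ _ := by norm_num
  · have := tau_zero
    linarith

theorem famA {al : ℕ} (hal : 64 ≤ al) : UP al 104553000 (637 * al / 49) := by
  intro N lo X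
  have h := famL hal N lo X
  refine ⟨_, _, h.mono Pr_prime ?_ le_rfl ?_ le_rfl⟩
  · unfold SC; norm_num
  · exact_mod_cast two_pow_le_two_pow (by omega : 13 * al ≤ 637 * al / 49)

theorem log_8548 : Real.log (85 / 48) + 1.6 / 73 ≤ 0.5934 := by
  have h := lgU_le (j := 48) (k := 85) (by norm_num) (by norm_num)
  have h2 : lgU 48 85 ≤ 57148000 := by decide +kernel
  have h3 : (lgU 48 85 : ℝ) / SC ≤ 57148000 / SC := by
    apply div_le_div_of_nonneg_right _ SC_pos.le
    exact_mod_cast h2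
  have h4 : (57148000 : ℝ) / SC = 0.57148 := by unfold SC; norm_num
  norm_num at h h4 ⊢
  linarith

theorem blk47 {c k : ℕ} (hc : 73 ≤ c) (h1 : c ≤ k) (h2 : 4 * k ≤ 7 * c + 6) :
    ∑ p ∈ Pr (2 ^ c) (2 ^ k), (1 : ℝ) / p ≤ 0.5934 ∧
      (1 : ℝ) ≤ 3.2764 * VV (Pr (2 ^ c) (2 ^ k)) := by
  have hcr : (73 : ℝ) ≤ c := by exact_mod_cast hc
  have := blk (c := c) (k := k) (c0 := 73) (R := 85 / 48) (m := 0.5934) (E := 1.044818) (by norm_num) hc h1
    (by norm_num)
    (by
      have : (4 : ℝ) * k ≤ 7 * c + 6 := by exact_mod_cast h2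
      linarith) (by
      have := log_8548
      exact this) (by
      apply exp_small (y := 4383562)
      · unfold SC; norm_num
      · unfold expU SC; norm_num)
  refine ⟨this.1, this.2.trans ?_⟩
  apply mul_le_mul_of_nonneg_right _ (VV_pos Pr_prime).le
  norm_num

theorem stepBC {al F F' u u' : ℕ} (hal : 128 ≤ al) (h : UP (4 * al / 7) F u)
    (hF : (F : ℝ) * 1.06429 ≤ F') (hu : al * 4 + u ≤ u') : UP al F' u' := by
  obtain ⟨b1, b2⟩ := blk47 (c := 4 * al / 7) (k := al) (by omega) (by omega) (by omega)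
  have h2 := UP_step (c := 4 * al / 7) (k := al) (b := 4) (ε := 0.06429) (F := F) (F' := F') (by omega) (by omega)
    (by omega) (by decide) le_rfl b1 b2 (by norm_num [Nat.factorial]) h (by
      have : (1 : ℝ) + 0.06429 = 1.06429 := by norm_num
      rw [this]; exact hF)
  exact h2.mono le_rfl hu

theorem famB {al : ℕ} (hal : 64 ≤ al) : UP al 111275000 (560 * al / 49) := by
  rcases lt_or_ge al 128 with h | h
  · exact baseB hal h
  · exact stepBC h (famA (al := 4 * al / 7) (by omega)) (by norm_num) (by omega)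

theorem famC {al : ℕ} (hal : 64 ≤ al) : UP al 118429000 (516 * al / 49) := by
  rcases lt_or_ge al 128 with h | h
  · exact baseC hal h
  · exact stepBC h (famB (al := 4 * al / 7) (by omega)) (by norm_num) (by omega)

/-- Factor for skipping the last primes. -/
def skipF (F r : ℕ) : ℕ := F * (128 * r + 63) ^ 2 * expU (160000000 / r + 2) / (4 * r ^ 4 * SC) + 1

theorem skipF_sound {al F r u : ℕ} (hal : 128 ≤ al) (hr : 32 ≤ r) (hr2 : r ≤ 64)
    (h : UP (r * al / 64) F u) : UP al (skipF F r) u := by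
  have hS := SC_pos
  have hrr : (32 : ℝ) ≤ r := by exact_mod_cast hr
  have hrr2 : (r : ℝ) ≤ 64 := by exact_mod_cast hr2
  have hr0 : (0 : ℝ) < r := by linarith
  have hc : 2 * r ≤ r * al / 64 := by
    rw [Nat.le_div_iff_mul_le (by norm_num)]
    nlinarith
  have hck : r * al / 64 ≤ al := by
    have : r * al ≤ 64 * al := Nat.mul_le_mul_right _ hr2
    omega
  have hcR : ((2 * r : ℕ) : ℝ) ≤ ((r * al / 64 : ℕ) : ℝ) := by exact_mod_cast hc
  have hc64 : (r : ℝ) * al ≤ 64 * ((r * al / 64 : ℕ) : ℝ) + 63 := by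
    have : r * al ≤ 64 * (r * al / 64) + 63 := by omega
    exact_mod_cast this
  set c := r * al / 64 with hcdef
  have hR1 : (1 : ℝ) ≤ (128 * r + 63) / (2 * r ^ 2) := by
    rw [le_div_iff₀ (by positivity)]
    nlinarith
  have hR2 : (128 * (r : ℝ) + 63) / (2 * r ^ 2) ≤ 2.04 := by
    rw [div_le_iff₀ (by positivity)]
    nlinarith
  have hE : Real.exp (3.2 / ((2 * r : ℕ) : ℝ) + 8 * 2 / 2 ^ (2 * r)) ≤ ((expU (160000000 / r + 2) : ℕ) : ℝ) / SC := by
    apply exp_small (y := 160000000 / r + 2) _ le_rfl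
    have e1 := div_up 160000000 r (by omega)
    have e2 : (8 : ℝ) * 2 / 2 ^ (2 * r) ≤ 1 / SC := by
      have : (2 : ℝ) ^ 64 ≤ 2 ^ (2 * r) := pow_le_pow_right₀ (by norm_num) (by omega)
      rw [div_le_div_iff₀ (by positivity) hS]
      unfold SC
      norm_num
      norm_num at this
      linarith
    have e3 : (3.2 : ℝ) / ((2 * r : ℕ) : ℝ) = ((160000000 : ℕ) : ℝ) / r / SC := by
      unfold SC
      push_cast
      field_simp
      norm_num
    rw [e3]
    have e4 : ((160000000 / r + 2 : ℕ) : ℝ) / SC = ((160000000 / r + 1 : ℕ) : ℝ) / SC + 1 / SC := by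
      push_cast; ring
    rw [e4]
    have := div_le_div_of_nonneg_right e1 hS.le
    linarith
  obtain ⟨_, b2⟩ := blk (c := c) (k := al) (c0 := 2 * r) (R := (128 * r + 63) / (2 * r ^ 2)) (m := 2)
    (E := ((expU (160000000 / r + 2) : ℕ) : ℝ) / SC) (by omega) hc hck hR1
    (by
      rw [div_mul_eq_mul_div, le_div_iff₀ (by positivity)]
      push_cast at hcR
      have e1 : (al : ℝ) * (2 * r ^ 2) = 2 * r * (r * al) := by ring
      rw [e1]
      have e2 : 2 * (r : ℝ) * (r * al) ≤ 2 * r * (64 * (c : ℝ) + 63) :=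
        mul_le_mul_of_nonneg_left hc64 (by positivity)
      nlinarith) (by
      have e1 := Real.log_le_sub_one_of_pos (show (0 : ℝ) < (128 * r + 63) / (2 * r ^ 2) by positivity)
      have e2 : (1.6 : ℝ) / ((2 * r : ℕ) : ℝ) ≤ 0.025 := by
        push_cast
        rw [div_le_iff₀ (by positivity)]
        linarith
      linarith) hE
  refine UP_skip hck b2 h ?_
  unfold skipF
  have e1 := div_up (F * (128 * r + 63) ^ 2 * expU (160000000 / r + 2)) (4 * r ^ 4 * SC) (by
    have : 0 < SC := by unfold SC; norm_num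
    positivity)
  refine le_trans (le_of_eq ?_) e1
  push_cast
  field_simp
  ring

/-- Upper bound sieve for the class `k`. -/
def optF (Dn F k : ℕ) : ℕ :=
  if 64 ≤ (46060 - 392 * (k + 1)) / Dn then F else skipF F ((46060 - 392 * (k + 1)) / Dn)

/-- End points of the classes. -/
def eK (al be k : ℕ) : ℕ := if k = 60 then be else k * al / 8

theorem optF_sound {al i be Dn F k : ℕ} (hal : 128 ≤ al) (hi : 15 * al ≤ i) (hbe : be = i / 2)
    (hDn : 0 < Dn) (hDn2 : Dn ≤ 700) (hk2 : k ≤ 59) (hfam : ∀ c, 64 ≤ c → UP c F (Dn * c / 49)) :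
    ∃ eb, UP al (optF Dn F k) eb ∧ 16 * (eK al be (k + 1) + eb) + 5 * al ≤ 16 * i := by
  set r := (46060 - 392 * (k + 1)) / Dn with hr
  have hr1 : Dn * r ≤ 46060 - 392 * (k + 1) := Nat.mul_div_le _ _
  have hr32 : 32 ≤ r := by
    rw [hr, Nat.le_div_iff_mul_le hDn]
    omega
  have hend : ∀ eb r', 3136 * eb ≤ Dn * r' * al → Dn * r' ≤ 46060 - 392 * (k + 1) →
      16 * (eK al be (k + 1) + eb) + 5 * al ≤ 16 * i := by
    intro eb r' h1 h2
    have h3 : Dn * r' * al ≤ (46060 - 392 * (k + 1)) * al := Nat.mul_le_mul_right _ h2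
    have h4 : (46060 - 392 * (k + 1)) * al + 392 * (k + 1) * al = 46060 * al := by
      have h5 : 46060 - 392 * (k + 1) + 392 * (k + 1) = 46060 := by omega
      rw [← add_mul, h5]
    unfold eK
    split_ifs with h60
    · have : k = 59 := by omega
      subst this
      omega
    · have h5 : 8 * ((k + 1) * al / 8) ≤ (k + 1) * al := by omega
      have h6 : 392 * (k + 1) * al = 392 * ((k + 1) * al) := by ring
      omega
  unfold optF
  rw [← hr]
  split_ifs with h64
  · refine ⟨Dn * al / 49, hfam al (by omega), hend _ 64 ?_ ?_⟩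
    · have : Dn * 64 * al = 64 * (Dn * al) := by ring
      omega
    · have : Dn * 64 ≤ Dn * r := Nat.mul_le_mul_left _ h64
      omega
  · have hc : 64 ≤ r * al / 64 := by
      rw [Nat.le_div_iff_mul_le (by norm_num)]
      nlinarith
    refine ⟨Dn * (r * al / 64) / 49, skipF_sound hal hr32 (by omega) (hfam _ hc), hend _ r ?_ hr1⟩
    have h1 : 49 * (Dn * (r * al / 64) / 49) ≤ Dn * (r * al / 64) := Nat.mul_div_le _ _
    have h2 : 64 * (r * al / 64) ≤ r * al := Nat.mul_div_le _ _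
    have h3 : Dn * (64 * (r * al / 64)) ≤ Dn * (r * al) := Nat.mul_le_mul_left _ h2
    have h4 : Dn * r * al = Dn * (r * al) := by ring
    have h5 : Dn * (64 * (r * al / 64)) = 64 * (Dn * (r * al / 64)) := by ring
    omega

/-- Best upper bound sieve for the class `k`. -/
def famK (k : ℕ) : ℕ := min (optF 637 104553000 k) (min (optF 560 111275000 k) (optF 516 118429000 k))

theorem famK_sound {al i be k : ℕ} (hal : 128 ≤ al) (hi : 15 * al ≤ i) (hbe : be = i / 2) (hk2 : k ≤ 59) :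
    ∃ eb, UP al (famK k) eb ∧ 16 * (eK al be (k + 1) + eb) + 5 * al ≤ 16 * i := by
  have hA := optF_sound (Dn := 637) hal hi hbe (by norm_num) (by norm_num) hk2 (fun c hc => famA hc)
  have hB := optF_sound (Dn := 560) hal hi hbe (by norm_num) (by norm_num) hk2 (fun c hc => famB hc)
  have hC := optF_sound (Dn := 516) hal hi hbe (by norm_num) (by norm_num) hk2 (fun c hc => famC hc)
  unfold famK
  rcases min_choice (optF 637 104553000 k) (min (optF 560 111275000 k) (optF 516 118429000 k)) with h | h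
  · rw [h]; exact hA
  · rw [h]
    rcases min_choice (optF 560 111275000 k) (optF 516 118429000 k) with h | h
    · rw [h]; exact hB
    · rw [h]; exact hC

theorem famK_le : ∀ k < 60, 8 ≤ k → famK k ≤ 3 * SC := by decide +kernel

theorem pow_al {al s : ℕ} (hal : 128 ≤ al) (hs : 5 * al ≤ 16 * s) : al ^ 3 * 2 ^ 19 ≤ 2 ^ s := by
  have h1 : ∀ al, 128 ≤ al → al ^ 48 * 2 ^ 304 ≤ 2 ^ (5 * al) := by
    intro al h
    induction al, h using Nat.le_induction with
    | base =>
      have e1 : (128 : ℕ) = 2 ^ 7 := by norm_num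
      have e2 : (5 * 128 : ℕ) = 7 * 48 + 304 := by norm_num
      rw [e2, e1, ← pow_mul, ← pow_add]
    | succ a ha ih =>
      have e1 : (a + 1) ^ 48 ≤ 32 * a ^ 48 := by
        have e2 : (a + 1) * 128 ≤ 129 * a := by omega
        have e3 := Nat.pow_le_pow_left e2 48
        rw [mul_pow, mul_pow] at e3
        have e4 : 129 ^ 48 ≤ 32 * 128 ^ 48 := by norm_num
        have e5 : (a + 1) ^ 48 * 128 ^ 48 ≤ (32 * a ^ 48) * 128 ^ 48 := by
          calc (a + 1) ^ 48 * 128 ^ 48 ≤ 129 ^ 48 * a ^ 48 := e3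
            _ ≤ (32 * 128 ^ 48) * a ^ 48 := Nat.mul_le_mul_right _ e4
            _ = _ := by ring
        exact Nat.le_of_mul_le_mul_right e5 (by positivity)
      calc (a + 1) ^ 48 * 2 ^ 304 ≤ (32 * a ^ 48) * 2 ^ 304 := Nat.mul_le_mul_right _ e1
        _ = 2 ^ 5 * (a ^ 48 * 2 ^ 304) := by ring
        _ ≤ 2 ^ 5 * 2 ^ (5 * a) := Nat.mul_le_mul_left _ ih
        _ = 2 ^ (5 * (a + 1)) := by rw [← pow_add]; congr 1; ring
  have h2 : (al ^ 3 * 2 ^ 19) ^ 16 ≤ (2 ^ s) ^ 16 := by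
    calc (al ^ 3 * 2 ^ 19) ^ 16 = al ^ 48 * 2 ^ 304 := by
          rw [mul_pow, ← pow_mul, ← pow_mul]
      _ ≤ 2 ^ (5 * al) := h1 al hal
      _ ≤ 2 ^ (16 * s) := Nat.pow_le_pow_right (by norm_num) hs
      _ = (2 ^ s) ^ 16 := by rw [← pow_mul]; congr 1; ring
  exact (Nat.pow_le_pow_iff_left (by norm_num)).1 h2

theorem err_le {al i t : ℕ} (hal : 128 ≤ al) (h : 16 * (t + 1) + 5 * al ≤ 16 * i) :
    2 ^ t * (SC * al ^ 3) / (2 ^ (i - 1) - 1) ≤ 200 := by
  have h1 := pow_al (al := al) (s := i - (t + 1)) hal (by omega)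
  have h2 : 2 ^ (i - 1) = 2 ^ t * 2 ^ (i - (t + 1)) := by
    rw [← pow_add]; congr 1; omega
  have h3 : 1 ≤ 2 ^ t * al ^ 3 := by
    have : 0 < 2 ^ t * al ^ 3 := by positivity
    omega
  have h4 : (2 ^ t * al ^ 3) * 2 ^ 19 ≤ 2 ^ (i - 1) := by
    rw [h2, mul_assoc]
    exact Nat.mul_le_mul_left _ h1
  generalize hY : 2 ^ t * al ^ 3 = Y at h3 h4
  have h5 : 2 ^ t * (SC * al ^ 3) = SC * Y := by rw [← hY]; ring
  rw [h5]
  have h6 : 0 < 2 ^ (i - 1) - 1 := by
    norm_num at h4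
    omega
  generalize hZ : 2 ^ (i - 1) = Z at h4 h6
  apply Nat.div_le_of_le_mul
  unfold SC
  norm_num at h4
  omega

theorem VV_al {al : ℕ} (hal : 128 ≤ al) :
    (1 : ℝ) ≤ ((SC * al ^ 3 : ℕ) : ℝ) / SC * VV (Pr 1 (2 ^ al)) := by
  have hS := SC_pos
  have hsplit := VV_Pr_split (x := 2 ^ 0) (y := 2 ^ 10) (z := 2 ^ al) (two_pow_le_two_pow (by norm_num))
    (two_pow_le_two_pow (by omega))
  rw [pow_zero] at hsplit
  have h1 := vprod_le 10 0 (by norm_num)
  rw [pow_zero, zero_add] at h1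
  have h2 : vprod 0 10 ≤ 120 * SC := by decide +kernel
  have h3 : (1 : ℝ) ≤ 120 * VV (Pr 1 (2 ^ 10)) := by
    refine h1.trans (mul_le_mul_of_nonneg_right ?_ (VV_pos Pr_prime).le)
    rw [div_le_iff₀ hS]
    exact_mod_cast h2
  have h4 := mertens_pow_ten (k := al) (by omega)
  have h5 := VV_ge (j := 10) (k := al) le_rfl (m := Real.log ((al : ℝ) / 10) + 1 / 10) (by
    have : (2 : ℕ) ^ 10 = 1024 := by norm_num
    rw [this]; exact h4)
  have halr : (128 : ℝ) ≤ al := by exact_mod_cast hal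
  have hlog : 0 ≤ Real.log ((al : ℝ) / 10) := Real.log_nonneg (by
    rw [le_div_iff₀ (by norm_num)]; linarith)
  have h6 : Real.exp (2 * (Real.log ((al : ℝ) / 10) + 1 / 10) + 8 * (Real.log ((al : ℝ) / 10) + 1 / 10) / 2 ^ 10)
      ≤ 1.36 * ((al : ℝ) / 10) ^ 3 := by
    calc Real.exp (2 * (Real.log ((al : ℝ) / 10) + 1 / 10) + 8 * (Real.log ((al : ℝ) / 10) + 1 / 10) / 2 ^ 10)
        ≤ Real.exp (3 / 10 + (Real.log ((al : ℝ) / 10) + (Real.log ((al : ℝ) / 10) + Real.log ((al : ℝ) / 10)))) := by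
          apply Real.exp_le_exp.2
          norm_num
          linarith
      _ = Real.exp (3 / 10) * ((al : ℝ) / 10) ^ 3 := by
          rw [Real.exp_add, Real.exp_add, Real.exp_add, Real.exp_log (by positivity)]
          ring
      _ ≤ _ := by
          apply mul_le_mul_of_nonneg_right _ (by positivity)
          apply exp_small (y := 30000000)
          · unfold SC; norm_num
          · unfold expU SC; norm_num
  have h7 : (1 : ℝ) ≤ 1.36 * ((al : ℝ) / 10) ^ 3 * VV (Pr (2 ^ 10) (2 ^ al)) :=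
    h5.trans (mul_le_mul_of_nonneg_right h6 (VV_pos Pr_prime).le)
  rw [hsplit]
  have v1 : 0 < VV (Pr 1 (2 ^ 10)) := VV_pos Pr_prime
  have v2 : 0 < VV (Pr (2 ^ 10) (2 ^ al)) := VV_pos Pr_prime
  have h8 : (1 : ℝ) ≤ (120 * VV (Pr 1 (2 ^ 10))) * (1.36 * ((al : ℝ) / 10) ^ 3 * VV (Pr (2 ^ 10) (2 ^ al))) :=
    one_le_mul_of_one_le_of_one_le h3 h7
  refine h8.trans ?_
  have e1 : ((SC * al ^ 3 : ℕ) : ℝ) / SC = (al : ℝ) ^ 3 := by
    push_cast
    field_simp
  rw [e1]
  have e2 : (120 * VV (Pr 1 (2 ^ 10))) * (1.36 * ((al : ℝ) / 10) ^ 3 * VV (Pr (2 ^ 10) (2 ^ al)))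
      = (0.1632 * (al : ℝ) ^ 3) * (VV (Pr 1 (2 ^ 10)) * VV (Pr (2 ^ 10) (2 ^ al))) := by ring
  rw [e2]
  apply mul_le_mul_of_nonneg_right _ (mul_pos v1 v2).le
  have : 0 < (al : ℝ) ^ 3 := by positivity
  linarith

end Pool.Agent.H91.Gold
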