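import Mathlib
import Pool.Agent.H91.GoldInfB

/-!
The key proposition for all large indices: sum over the classes.
-/

namespace Pool.Agent.H91.Gold

open Finset

theorem inf_class {N lo : ℤ} {al i be M X e e2 F eb A B : ℕ} (hal : 128 ≤ al) (hi : 15 * al ≤ i)
    (hbe : be = i / 2) (hM : M = 5 * be - (i + 1)) (hX : X = 2 ^ (i - 1) - 1) (he1 : al ≤ e)
    (hee : e ≤ e2) (he2 : e2 ≤ be) (hF : UP al F eb) (hFs : F ≤ 3 * SC)
    (hcond : 16 * (e2 + eb) + 5 * al ≤ 16 * i) (hB : 0 < B) (hAB : 2 * (be - e) * B ≤ A * M) :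
    ∑ p ∈ Pr (2 ^ e) (2 ^ e2), bigT N lo X (Pr 1 (2 ^ al)) (ww be M) p
      ≤ ((X : ℝ) * VV (Pr 1 (2 ^ al)) / SC) * (((F * A / B + 1 : ℕ) : ℝ)
          * (∑ p ∈ Pr (2 ^ e) (2 ^ e2), (1 : ℝ) / p) + 700) := by
  have hS := SC_pos
  have hM0 : 0 < M := by omega
  have hX0 : 0 < X := by
    have : 2 ^ 1 ≤ 2 ^ (i - 1) := two_pow_le_two_pow (by omega)
    omega
  have hVpos : 0 < VV (Pr 1 (2 ^ al)) := VV_pos Pr_prime
  have hXr : (0 : ℝ) < X := by exact_mod_cast hX0
  have hK : 0 < (X : ℝ) * VV (Pr 1 (2 ^ al)) / SC := by positivity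
  have hcard : (Pr (2 ^ e) (2 ^ e2)).card ≤ 2 ^ (e2 - 1) := by
    have := card_Pr_le (j := e) (k := e2) (by omega)
    have h6 : 2 ^ e2 = 2 * 2 ^ (e2 - 1) := by
      rw [← pow_succ']; congr 1; omega
    omega
  have hcl := class_bound (N := N) (lo := lo) (e := e) (e' := e2) (be := be) (v0 := SC * al ^ 3)
    hX0 hM0 he1 he2 hee (VV_al hal) hF hF (sq_tail (by omega) hee) hcard
  refine hcl.trans (mul_le_mul_of_nonneg_left ?_ hK.le)
  have hs0 : 0 ≤ ∑ p ∈ Pr (2 ^ e) (2 ^ e2), (1 : ℝ) / p := sum_nonneg (fun p _ => by positivity)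
  have herr : 2 ^ (e2 - 1) * 2 ^ eb * (SC * al ^ 3) / X ≤ 200 := by
    have := err_le (al := al) (i := i) (t := e2 - 1 + eb) hal (by omega)
    rw [pow_add, ← hX] at this
    exact this
  have p1 : F * (2 * (be - e)) / M + 1 ≤ F * A / B + 1 := by
    apply Nat.add_le_add_right
    rw [Nat.le_div_iff_mul_le hB]
    have h1 : F * (2 * (be - e)) / M * M ≤ F * (2 * (be - e)) := Nat.div_mul_le_self _ _
    have h2 : F * (2 * (be - e)) / M * B * M ≤ F * A * M := by
      calc F * (2 * (be - e)) / M * B * M = (F * (2 * (be - e)) / M * M) * B := by ring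
        _ ≤ (F * (2 * (be - e))) * B := Nat.mul_le_mul_right _ h1
        _ = F * (2 * (be - e) * B) := by ring
        _ ≤ F * (A * M) := Nat.mul_le_mul_left _ hAB
        _ = F * A * M := by ring
    exact Nat.le_of_mul_le_mul_right h2 hM0
  have p2 : 2 ^ (e2 - 1) * 2 ^ eb * (SC * al ^ 3) * (2 * (be - e)) / (M * X) + 1 ≤ 201 := by
    have h1 : 2 ^ (e2 - 1) * 2 ^ eb * (SC * al ^ 3) * (2 * (be - e)) / (M * X)
        ≤ 2 ^ (e2 - 1) * 2 ^ eb * (SC * al ^ 3) / X := by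
      rw [← Nat.div_div_eq_div_mul]
      apply Nat.div_le_div_right
      apply Nat.div_le_of_le_mul
      rw [mul_comm M]
      apply Nat.mul_le_mul_left
      omega
    omega
  have hq : SC / 2 ^ (e + 1) + 1 = 1 := by
    have : SC < 2 ^ (e + 1) := by
      calc SC < 2 ^ 27 := by unfold SC; norm_num
        _ ≤ 2 ^ (e + 1) := two_pow_le_two_pow (by omega)
    rw [Nat.div_eq_of_lt this]
  have p3 : 2 * (F * (SC / 2 ^ (e + 1) + 1) / SC + 1 + (2 ^ (e2 - 1) * 2 ^ eb * (SC * al ^ 3) / X + 1)) ≤ 410 := by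
    rw [hq, mul_one]
    have : F / SC ≤ 3 := by
      apply Nat.div_le_of_le_mul
      rw [mul_comm]; exact hFs
    omega
  have q1 : ((F * (2 * (be - e)) / M + 1 : ℕ) : ℝ) ≤ ((F * A / B + 1 : ℕ) : ℝ) := by exact_mod_cast p1
  have q2 : ((2 ^ (e2 - 1) * 2 ^ eb * (SC * al ^ 3) * (2 * (be - e)) / (M * X) + 1 : ℕ) : ℝ) ≤ 201 := by
    exact_mod_cast p2
  have q3 : ((2 * (F * (SC / 2 ^ (e + 1) + 1) / SC + 1 + (2 ^ (e2 - 1) * 2 ^ eb * (SC * al ^ 3) / X + 1)) : ℕ) : ℝ)
      ≤ 410 := by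
    exact_mod_cast p3
  have q4 := mul_le_mul_of_nonneg_right q1 hs0
  linarith

/-- Weights of the classes. -/
def WK (k : ℕ) : ℕ := famK k * ((60 - k) * 128 + 63) / 11596 + 1

/-- Bound for the sum of reciprocals up to the class `k`. -/
def LK (k : ℕ) : ℕ := (if k = 60 then lgU 64 484 else lgU 64 (8 * k)) + 1250000

/-- One step of the summation. -/
def stepC (k : ℕ) (r : ℕ × ℕ) : ℕ × ℕ :=
  (max (WK k) r.1, r.2 + ((max (WK k) r.1 - r.1) * LK (k + 1) / SC + 1) + 700)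

/-- The summation over the classes. -/
def goC : ℕ → ℕ × ℕ
  | 0 => (0, 0)
  | d + 1 => stepC (59 - d) (goC d)

theorem goC_small : (goC 52).2 + 200 + 4451801 < SC := by decide +kernel

theorem ratio_le {al i be M e k : ℕ} (hal : 128 ≤ al) (hi2 : i < 15 * al + 15)
    (hbe : be = i / 2) (hM : M = 5 * be - (i + 1)) (hk1 : 8 ≤ k) (hk2 : k ≤ 59) (he : k * al ≤ 8 * e + 7)
    (hi : 15 * al ≤ i) : 2 * (be - e) * 11596 ≤ ((60 - k) * 128 + 63) * M := by
  rcases lt_or_ge be e with h | h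
  · have : be - e = 0 := by omega
    rw [this]; simp
  obtain ⟨q, hq⟩ : ∃ q, 60 = k + q := ⟨60 - k, by omega⟩
  have hq1 : 60 - k = q := by omega
  rw [hq1]
  have hM2 : 3 * be ≤ M + 2 := by omega
  have hb : 2 * be ≤ 15 * al + 14 := by omega
  have hq52 : q ≤ 52 := by omega
  zify [h]
  have hkz : (k : ℤ) = 60 - q := by omega
  have he' : (60 - (q : ℤ)) * al ≤ 8 * e + 7 := by rw [← hkz]; exact_mod_cast he
  have hM2' : 3 * (be : ℤ) ≤ M + 2 := by exact_mod_cast hM2
  have hb' : 2 * (be : ℤ) ≤ 15 * al + 14 := by exact_mod_cast hb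
  have hal' : (128 : ℤ) ≤ al := by exact_mod_cast hal
  have hq' : (q : ℤ) ≤ 52 := by exact_mod_cast hq52
  have hq0 : (0 : ℤ) ≤ q := Int.natCast_nonneg q
  -- 8 (be - e) ≤ 8 be - k al + 7
  have s1 : 8 * ((be : ℤ) - e) ≤ 8 * be - (60 - q) * al + 7 := by linarith
  have s2 : (8 * (be : ℤ) - (60 - q) * al + 7) * 11596 ≤ 4 * ((q * 128 + 63) * (3 * be - 2)) := by
    obtain ⟨D, hD⟩ : ∃ D : ℤ, D = 15 * al + 14 - 2 * be := ⟨_, rfl⟩
    have hD0 : 0 ≤ D := by omega
    have ht : 0 ≤ (al : ℤ) - 128 := by linarith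
    have m1 := mul_nonneg ht (by linarith : (0 : ℤ) ≤ 52 - q)
    have m2 := mul_nonneg hD0 (by linarith : (0 : ℤ) ≤ 52 - q)
    have hbe2 : 2 * (be : ℤ) = 15 * al + 14 - D := by linarith
    nlinarith
  have s3 : (q * 128 + 63) * (3 * (be : ℤ) - 2) ≤ (q * 128 + 63) * M := by
    apply mul_le_mul_of_nonneg_left _ (by positivity)
    linarith
  nlinarith

theorem LK_sound {al i be k : ℕ} (hal : 128 ≤ al) (hi : 15 * al ≤ i) (hi2 : i < 15 * al + 15)
    (hbe : be = i / 2) (hk1 : 8 ≤ k) (hk2 : k ≤ 60) :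
    ∑ p ∈ Pr (2 ^ al) (2 ^ (eK al be k)), (1 : ℝ) / p ≤ (LK k : ℝ) / SC := by
  have hS := SC_pos
  have halr : (128 : ℝ) ≤ al := by exact_mod_cast hal
  have hle : al ≤ eK al be k := by
    unfold eK
    split_ifs
    · omega
    · rw [Nat.le_div_iff_mul_le (by norm_num)]
      nlinarith
  have h1 := mertens_pow (j := al) (k := eK al be k) (by omega) hle
  refine h1.trans ?_
  have h2 : (1.6 : ℝ) / al ≤ 1250000 / SC := by
    rw [div_le_div_iff₀ (by linarith) hS]
    unfold SC; norm_num; linarith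
  have h3 : Real.log ((eK al be k : ℝ) / al) ≤ ((if k = 60 then lgU 64 484 else lgU 64 (8 * k) : ℕ) : ℝ) / SC := by
    have hpos : (0 : ℝ) < (eK al be k : ℝ) / al := by
      have : 0 < eK al be k := by omega
      positivity
    unfold eK at hpos ⊢
    split_ifs at hpos ⊢ with h60
    · refine le_trans (Real.log_le_log hpos ?_) (lgU_le (j := 64) (k := 484) (by norm_num) (by norm_num))
      rw [div_le_div_iff₀ (by linarith) (by norm_num)]
      have : be * 64 ≤ 484 * al := by omega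
      exact_mod_cast this
    · refine le_trans (Real.log_le_log hpos ?_) (lgU_le (j := 64) (k := 8 * k) (by norm_num) (by omega))
      rw [div_le_div_iff₀ (by linarith) (by norm_num)]
      have h8 : 8 * (k * al / 8) ≤ k * al := Nat.mul_div_le _ _
      have : k * al / 8 * 64 ≤ 8 * k * al := by
        have : 8 * k * al = 8 * (k * al) := by ring
        omega
      exact_mod_cast this
  unfold LK
  push_cast at h3 ⊢
  rw [add_div]
  linarith

theorem goC_sound {N lo : ℤ} {al i be M X : ℕ} (hal : 128 ≤ al) (hi : 15 * al ≤ i) (hi2 : i < 15 * al + 15)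
    (hbe : be = i / 2) (hM : M = 5 * be - (i + 1)) (hX : X = 2 ^ (i - 1) - 1) (d : ℕ) : d ≤ 52 →
    ∑ p ∈ Pr (2 ^ (eK al be (60 - d))) (2 ^ be), bigT N lo X (Pr 1 (2 ^ al)) (ww be M) p
      + ((X : ℝ) * VV (Pr 1 (2 ^ al)) / SC) * (((goC d).1 : ℝ) *
        ∑ p ∈ Pr (2 ^ al) (2 ^ (eK al be (60 - d))), (1 : ℝ) / p)
      ≤ ((X : ℝ) * VV (Pr 1 (2 ^ al)) / SC) * ((goC d).2 : ℝ) := by
  have hS := SC_pos
  have hVpos : 0 < VV (Pr 1 (2 ^ al)) := VV_pos Pr_prime
  have hX0 : 0 < X := by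
    have : 2 ^ 1 ≤ 2 ^ (i - 1) := two_pow_le_two_pow (by omega)
    omega
  have hXr : (0 : ℝ) < X := by exact_mod_cast hX0
  have hK : 0 < (X : ℝ) * VV (Pr 1 (2 ^ al)) / SC := by positivity
  induction d with
  | zero =>
    intro _
    have : eK al be (60 - 0) = be := by unfold eK; simp
    rw [this, Pr_self]
    simp [goC]
  | succ d ih =>
    intro hd
    have ih' := ih (by omega)
    set k := 59 - d with hk
    have hk1 : 60 - (d + 1) = k := by omega
    have hk2 : 60 - d = k + 1 := by omega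
    have hk60 : k ≠ 60 := by omega
    have hk8 : 8 ≤ k := by omega
    have hk59 : k ≤ 59 := by omega
    rw [hk1]
    rw [hk2] at ih'
    have hek : eK al be k = k * al / 8 := by unfold eK; rw [if_neg hk60]
    have hale : al ≤ eK al be k := by
      rw [hek, Nat.le_div_iff_mul_le (by norm_num)]
      nlinarith
    have he60 : 59 * al / 8 ≤ be := by omega
    have hkb : k * al / 8 ≤ 59 * al / 8 := Nat.div_le_div_right (Nat.mul_le_mul_right _ hk59)
    have hee : eK al be k ≤ eK al be (k + 1) := by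
      rw [hek]
      unfold eK
      split_ifs
      · omega
      · apply Nat.div_le_div_right
        exact Nat.mul_le_mul_right _ (by omega)
    have he2 : eK al be (k + 1) ≤ be := by
      unfold eK
      split_ifs
      · exact le_rfl
      · have : (k + 1) * al / 8 ≤ 59 * al / 8 := Nat.div_le_div_right (Nat.mul_le_mul_right _ (by omega))
        omega
    obtain ⟨eb, hUP, hcond⟩ := famK_sound hal hi hbe hk59
    have hcl := inf_class (N := N) (lo := lo) (e := eK al be k) (e2 := eK al be (k + 1))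
      (A := (60 - k) * 128 + 63) (B := 11596) hal hi hbe hM hX hale hee he2 hUP
      (famK_le k (by omega) hk8) hcond (by norm_num) (ratio_le hal hi2 hbe hM hk8 hk59 (by
        rw [hek]
        omega) hi)
    have hgo : goC (d + 1) = stepC k (goC d) := rfl
    rw [hgo]
    have hWK : famK k * ((60 - k) * 128 + 63) / 11596 + 1 = WK k := rfl
    rw [hWK] at hcl
    set r := goC d with hr
    have hsplit := sum_Pr_split (fun p => bigT N lo X (Pr 1 (2 ^ al)) (ww be M) p)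
      (two_pow_le_two_pow hee) (two_pow_le_two_pow he2)
    have hsplit2 := sum_Pr_split (fun p => (1 : ℝ) / p)
      (two_pow_le_two_pow hale) (two_pow_le_two_pow hee)
    have hs2 := LK_sound (k := k + 1) hal hi hi2 hbe (by omega) (by omega)
    set s1 := ∑ p ∈ Pr (2 ^ al) (2 ^ (eK al be k)), (1 : ℝ) / p with hs1
    set sc := ∑ p ∈ Pr (2 ^ (eK al be k)) (2 ^ (eK al be (k + 1))), (1 : ℝ) / p with hsc
    set s2 := ∑ p ∈ Pr (2 ^ al) (2 ^ (eK al be (k + 1))), (1 : ℝ) / p with hs2'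
    have hs1' : 0 ≤ s1 := sum_nonneg (fun p _ => by positivity)
    have hsc' : 0 ≤ sc := sum_nonneg (fun p _ => by positivity)
    have hm1 : (WK k : ℝ) ≤ ((max (WK k) r.1 : ℕ) : ℝ) := by exact_mod_cast le_max_left _ _
    have hm3 : (((max (WK k) r.1 - r.1 : ℕ) : ℝ)) = ((max (WK k) r.1 : ℕ) : ℝ) - r.1 :=
      Nat.cast_sub (le_max_right _ _)
    have hm4 : (r.1 : ℝ) ≤ ((max (WK k) r.1 : ℕ) : ℝ) := by exact_mod_cast le_max_right _ _
    have hab : (((max (WK k) r.1 : ℕ) : ℝ) - r.1) * s2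
        ≤ (((max (WK k) r.1 - r.1) * LK (k + 1) / SC + 1 : ℕ) : ℝ) := by
      have e1 := div_up ((max (WK k) r.1 - r.1) * LK (k + 1)) SC (by unfold SC; norm_num)
      refine le_trans ?_ e1
      rw [Nat.cast_mul, hm3, mul_div_assoc]
      exact mul_le_mul_of_nonneg_left hs2 (by linarith)
    unfold stepC
    simp only
    set K := (X : ℝ) * VV (Pr 1 (2 ^ al)) / SC with hKdef
    rw [hsplit]
    have hWsc : (WK k : ℝ) * sc ≤ ((max (WK k) r.1 : ℕ) : ℝ) * sc := mul_le_mul_of_nonneg_right hm1 hsc'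
    have e1 : s2 = s1 + sc := hsplit2
    have hmain : (WK k : ℝ) * sc + ((max (WK k) r.1 : ℕ) : ℝ) * s1 - (r.1 : ℝ) * s2
        ≤ (((max (WK k) r.1 - r.1) * LK (k + 1) / SC + 1 : ℕ) : ℝ) := by
      have : ((max (WK k) r.1 : ℕ) : ℝ) * s2 = ((max (WK k) r.1 : ℕ) : ℝ) * s1 + ((max (WK k) r.1 : ℕ) : ℝ) * sc := by
        rw [e1]; ring
      rw [sub_mul] at hab
      linarith
    have hmain' := mul_le_mul_of_nonneg_left hmain hK.le
    have e7 : (((r.2 + ((max (WK k) r.1 - r.1) * LK (k + 1) / SC + 1) + 700 : ℕ)) : ℝ)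
        = (r.2 : ℝ) + (((max (WK k) r.1 - r.1) * LK (k + 1) / SC + 1 : ℕ) : ℝ) + 700 := by
      rw [Nat.cast_add, Nat.cast_add]
      norm_num
    rw [e7]
    rw [mul_add] at hcl
    rw [mul_sub, mul_add] at hmain'
    rw [mul_add, mul_add]
    linarith

theorem KP_large {i : ℕ} (h : 1920 ≤ i) : KP i := by
  set al := i / 15 with hal0
  have hal : 128 ≤ al := by omega
  have hi : 15 * al ≤ i := by omega
  have hi2 : i < 15 * al + 15 := by omega
  refine ⟨al, by omega, fun N lo => ?_⟩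
  set be := i / 2 with hbe
  set M := 5 * be - (i + 1) with hM
  set X := 2 ^ (i - 1) - 1 with hX
  have hS := SC_pos
  have hVpos : 0 < VV (Pr 1 (2 ^ al)) := VV_pos Pr_prime
  have hX0 : 0 < X := by
    have : 2 ^ 1 ≤ 2 ^ (i - 1) := two_pow_le_two_pow (by omega)
    omega
  have hXr : (0 : ℝ) < X := by exact_mod_cast hX0
  have hK : 0 < (X : ℝ) * VV (Pr 1 (2 ^ al)) / SC := by positivity
  have h1 := goC_sound (N := N) (lo := lo) hal hi hi2 hbe hM hX 52 le_rfl
  have he8 : eK al be (60 - 52) = al := by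
    unfold eK
    norm_num
  rw [he8, Pr_self (2 ^ al)] at h1
  simp only [sum_empty, mul_zero, add_zero] at h1
  have hc := famL (al := al) (by omega) N lo X
  apply exists_of_bigT hc (by norm_num) (ww be M)
  refine lt_of_le_of_lt h1 ?_
  -- the error of the lower sieve
  have herr := err_le (al := al) (i := i) (t := 14 * al) hal (by omega)
  rw [← hX] at herr
  have hel : (((2 ^ (14 * al) : ℕ)) : ℝ) ≤ ((X : ℝ) * VV (Pr 1 (2 ^ al)) / SC) * 201 := by
    have e1 := div_up (2 ^ (14 * al) * (SC * al ^ 3)) X hX0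
    have e2 : ((2 ^ (14 * al) * (SC * al ^ 3) / X + 1 : ℕ) : ℝ) ≤ 201 := by
      exact_mod_cast Nat.add_le_add_right herr 1
    have e3 := VV_al hal
    calc ((2 ^ (14 * al) : ℕ) : ℝ)
        ≤ ((2 ^ (14 * al) : ℕ) : ℝ) * (((SC * al ^ 3 : ℕ) : ℝ) / SC * VV (Pr 1 (2 ^ al))) :=
          le_mul_of_one_le_right (Nat.cast_nonneg _) e3
      _ = ((X : ℝ) * VV (Pr 1 (2 ^ al)) / SC) * (((2 ^ (14 * al) * (SC * al ^ 3) : ℕ) : ℝ) / X) := by
          push_cast; field_simp
      _ ≤ _ := mul_le_mul_of_nonneg_left (e1.trans e2) hK.le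
  have hlt : ((goC 52).2 : ℝ) < SC * (1 - 0.044518) - 201 := by
    have h2 := goC_small
    have h3 : (((goC 52).2 + 200 + 4451801 : ℕ) : ℝ) < (SC : ℝ) := by exact_mod_cast h2
    push_cast at h3
    have h4 : (SC : ℝ) = 100000000 := by unfold SC; norm_num
    rw [h4] at h3 ⊢
    linarith
  have hlt2 := mul_lt_mul_of_pos_left hlt hK
  refine lt_of_lt_of_le hlt2 ?_
  have e5 : (X : ℝ) * ((1 - 0.044518) * VV (Pr 1 (2 ^ al)))
      = ((X : ℝ) * VV (Pr 1 (2 ^ al)) / SC) * (SC * (1 - 0.044518)) := by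
    field_simp
  rw [e5, mul_sub]
  linarith

end Pool.Agent.H91.Gold
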