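import Mathlib
import Pool.Agent.H91.GoldFinal

/-!
The small cases and the reduction to the key proposition.
-/

namespace Pool.Agent.H91.Gold

open Finset
open ArithmeticFunction (cardFactors)

theorem pow_cardFactors_le {q : ℕ} (m : ℕ) :
    m ≠ 0 → (∀ p, p.Prime → p ∣ m → q ≤ p) → q ^ cardFactors m ≤ m := by
  induction m using induction_on_primes with
  | zero => intro h; exact absurd rfl h
  | one => intro _ _; simp
  | prime_mul p a hp ih =>
    intro h0 h
    have ha : a ≠ 0 := by rintro rfl; simp at h0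
    rw [ArithmeticFunction.cardFactors_mul hp.ne_zero ha, ArithmeticFunction.cardFactors_apply_prime hp,
      pow_add, pow_one]
    exact Nat.mul_le_mul (h p hp (dvd_mul_right _ _)) (ih ha (fun r hr hd => h r hr (hd.mul_left p)))

theorem cardFactors_le_of {q P m k : ℕ} (hP : ∀ p, p.Prime → p < q → p ∣ P) (hm : m ≠ 0)
    (hc : Nat.Coprime m P) (hlt : m < q ^ (k + 1)) (hq : 1 < q) : cardFactors m ≤ k := by
  have h := pow_cardFactors_le (q := q) m hm (fun p hp hd => by
    by_contra hlt'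
    push Not at hlt'
    have h1 := hP p hp hlt'
    have := Nat.dvd_gcd hd h1
    rw [hc] at this
    exact hp.one_lt.ne' (Nat.dvd_one.1 this))
  have := (Nat.pow_lt_pow_iff_right hq).1 (lt_of_le_of_lt h hlt)
  omega

theorem exists_shift {P n : ℕ} (hP : 0 < P) (hn : P ≤ n)
    (h : ∀ r < P, ∃ x < P, Nat.gcd (r + P - x) P = 1 ∧ Nat.gcd (r + x) P = 1) :
    ∃ x < P, Nat.Coprime (n - x) P ∧ Nat.Coprime (n + x) P := by
  obtain ⟨x, hx, h1, h2⟩ := h (n % P) (Nat.mod_lt _ hP)
  have hd := Nat.div_add_mod n P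
  have hq : 1 ≤ n / P := Nat.div_pos hn hP
  obtain ⟨t, ht⟩ : ∃ t, n / P = t + 1 := ⟨n / P - 1, by omega⟩
  refine ⟨x, hx, ?_, ?_⟩
  · have : n - x = (n % P + P - x) + P * t := by
      rw [ht, mul_add, mul_one] at hd
      have := Nat.mod_lt n hP
      omega
    rw [this]
    unfold Nat.Coprime
    rw [Nat.gcd_add_mul_left_left]
    exact h1
  · have : n + x = (n % P + x) + P * (t + 1) := by
      rw [ht] at hd
      omega
    rw [this]
    unfold Nat.Coprime
    rw [Nat.gcd_add_mul_left_left]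
    exact h2

theorem shift2 {n : ℕ} (hn : 2 ≤ n) : ∃ x < 2, Nat.Coprime (n - x) 2 ∧ Nat.Coprime (n + x) 2 :=
  exists_shift (by norm_num) hn (by decide)

theorem shift6 {n : ℕ} (hn : 6 ≤ n) : ∃ x < 6, Nat.Coprime (n - x) 6 ∧ Nat.Coprime (n + x) 6 :=
  exists_shift (by norm_num) hn (by decide)

theorem shift30 {n : ℕ} (hn : 30 ≤ n) : ∃ x < 30, Nat.Coprime (n - x) 30 ∧ Nat.Coprime (n + x) 30 :=
  exists_shift (by norm_num) hn (by decide +kernel)

theorem primes_lt_three : ∀ p, p.Prime → p < 3 → p ∣ 2 := by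
  intro p hp h
  interval_cases p <;> first | (exfalso; revert hp; norm_num; done) | norm_num

theorem primes_lt_five : ∀ p, p.Prime → p < 5 → p ∣ 6 := by
  intro p hp h
  interval_cases p <;> first | (exfalso; revert hp; norm_num; done) | norm_num

theorem primes_lt_seven : ∀ p, p.Prime → p < 7 → p ∣ 30 := by
  intro p hp h
  interval_cases p <;> first | (exfalso; revert hp; norm_num; done) | norm_num

theorem primes_lt_two : ∀ p, p.Prime → p < 2 → p ∣ 1 := by
  intro p hp h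
  exact absurd hp.two_le (by omega)

theorem small_four {n : ℕ} (hn : 2 ≤ n) (h : n < 2048) :
    ∃ x : ℕ, (2 * x) ^ 5 ≤ (2 * n) ^ 5 ∧ x + 2 ≤ n ∧ cardFactors (n - x) ≤ 4
      ∧ cardFactors (n + x) ≤ 4 ∧ cardFactors (n - x) + cardFactors (n + x) ≤ 6 := by
  rcases lt_or_ge n 8 with h1 | h1
  · have h2 : cardFactors n ≤ 2 :=
      cardFactors_le_of (q := 2) (P := 1) primes_lt_two (by omega) (Nat.coprime_one_right n) (by norm_num; omega)
        (by norm_num)
    refine ⟨0, by positivity, by omega, ?_, ?_, ?_⟩ <;> simp only [Nat.sub_zero, Nat.add_zero] <;> omega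
  · rcases lt_or_ge n 120 with h2 | h2
    · obtain ⟨x, hx, c1, c2⟩ := shift6 (n := n) (by omega)
      have a1 : cardFactors (n - x) ≤ 2 :=
        cardFactors_le_of primes_lt_five (by omega) c1 (by norm_num; omega) (by norm_num)
      have a2 : cardFactors (n + x) ≤ 2 :=
        cardFactors_le_of primes_lt_five (by omega) c2 (by norm_num; omega) (by norm_num)
      exact ⟨x, Nat.pow_le_pow_left (by omega) 5, by omega, by omega, by omega, by omega⟩
    · obtain ⟨x, hx, c1, c2⟩ := shift30 (n := n) (by omega)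
      have a1 : cardFactors (n - x) ≤ 3 :=
        cardFactors_le_of primes_lt_seven (by omega) c1 (by norm_num; omega) (by norm_num)
      have a2 : cardFactors (n + x) ≤ 3 :=
        cardFactors_le_of primes_lt_seven (by omega) c2 (by norm_num; omega) (by norm_num)
      exact ⟨x, Nat.pow_le_pow_left (by omega) 5, by omega, by omega, by omega, by omega⟩

theorem small_K {n K : ℕ} (hn : 2 ≤ n) (hK : 4 ≤ K) (h : (2 * n) ^ 5 < 2 ^ (12 * (K + 1))) :
    ∃ x : ℕ, (2 * x) ^ (K + 1) ≤ (2 * n) ^ 5 ∧ x + 2 ≤ n ∧ cardFactors (n - x) ≤ K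
      ∧ cardFactors (n + x) ≤ K := by
  rcases lt_or_ge n (2 ^ (K + 1)) with h1 | h1
  · have h2 : cardFactors n ≤ K :=
      cardFactors_le_of (q := 2) (P := 1) primes_lt_two (by omega) (Nat.coprime_one_right n) h1 (by norm_num)
    refine ⟨0, by simp, by omega, ?_, ?_⟩ <;> simp only [Nat.sub_zero, Nat.add_zero] <;> exact h2
  have h32 : 32 ≤ 2 ^ (K + 1) := by
    calc 32 = 2 ^ 5 := by norm_num
      _ ≤ 2 ^ (K + 1) := Nat.pow_le_pow_right (by norm_num) (by omega)
  rcases lt_or_ge (n + 1) (3 ^ (K + 1)) with h2 | h2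
  · obtain ⟨x, hx, c1, c2⟩ := shift2 (n := n) (by omega)
    refine ⟨x, ?_, by omega, ?_, ?_⟩
    · calc (2 * x) ^ (K + 1) ≤ 2 ^ (K + 1) := Nat.pow_le_pow_left (by omega) _
        _ ≤ 2 * n := by omega
        _ ≤ (2 * n) ^ 5 := Nat.le_self_pow (by norm_num) _
    · exact cardFactors_le_of primes_lt_three (by omega) c1 (by omega) (by norm_num)
    · exact cardFactors_le_of primes_lt_three (by omega) c2 (by omega) (by norm_num)
  rcases lt_or_ge (n + 5) (5 ^ (K + 1)) with h3 | h3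
  · obtain ⟨x, hx, c1, c2⟩ := shift6 (n := n) (by omega)
    refine ⟨x, ?_, by omega, ?_, ?_⟩
    · calc (2 * x) ^ (K + 1) ≤ (3 ^ 5) ^ (K + 1) := Nat.pow_le_pow_left (by omega) _
        _ = (3 ^ (K + 1)) ^ 5 := by rw [← pow_mul, ← pow_mul, mul_comm]
        _ ≤ (2 * n) ^ 5 := Nat.pow_le_pow_left (by omega) _
    · exact cardFactors_le_of primes_lt_five (by omega) c1 (by omega) (by norm_num)
    · exact cardFactors_le_of primes_lt_five (by omega) c2 (by omega) (by norm_num)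
  · have h4 : n + 29 < 7 ^ (K + 1) := by
      have e1 : (2 * n) ^ 5 < (7 ^ (K + 1)) ^ 5 := by
        calc (2 * n) ^ 5 < 2 ^ (12 * (K + 1)) := h
          _ = (2 ^ 12) ^ (K + 1) := by rw [pow_mul]
          _ ≤ (7 ^ 5) ^ (K + 1) := Nat.pow_le_pow_left (by norm_num) _
          _ = (7 ^ (K + 1)) ^ 5 := by rw [← pow_mul, ← pow_mul, mul_comm]
      have e2 := lt_of_pow_lt_pow_left₀ 5 (by positivity) e1
      omega
    obtain ⟨x, hx, c1, c2⟩ := shift30 (n := n) (by omega)
    refine ⟨x, ?_, by omega, ?_, ?_⟩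
    · calc (2 * x) ^ (K + 1) ≤ (5 ^ 5) ^ (K + 1) := Nat.pow_le_pow_left (by omega) _
        _ = (5 ^ (K + 1)) ^ 5 := by rw [← pow_mul, ← pow_mul, mul_comm]
        _ ≤ (2 * n) ^ 5 := Nat.pow_le_pow_left (by omega) _
    · exact cardFactors_le_of primes_lt_seven (by omega) c1 (by omega) (by norm_num)
    · exact cardFactors_le_of primes_lt_seven (by omega) c2 (by omega) (by norm_num)

theorem reduce (hKP : ∀ i, 12 ≤ i → KP i) {n K : ℕ} (hK : 4 ≤ K)
    (h : 2 ^ (12 * (K + 1)) ≤ (2 * n) ^ 5) :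
    ∃ x : ℕ, (2 * x) ^ (K + 1) ≤ (2 * n) ^ 5 ∧ x + 2 ≤ n ∧ cardFactors (n - x) ≤ K
      ∧ cardFactors (n + x) ≤ K ∧ cardFactors (n - x) + cardFactors (n + x) ≤ K + 2 := by
  set L := Nat.log 2 ((2 * n) ^ 5) with hL
  set i := L / (K + 1) with hi
  have hpos : (2 * n) ^ 5 ≠ 0 := by
    have : 0 < 2 ^ (12 * (K + 1)) := by positivity
    omega
  have b1 : 2 ^ L ≤ (2 * n) ^ 5 := Nat.pow_log_le_self 2 hpos
  have b2 : (2 * n) ^ 5 < 2 ^ (L + 1) := Nat.lt_pow_succ_log_self (by norm_num) _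
  have b3 : 12 * (K + 1) ≤ L := (Nat.le_log_iff_pow_le (by norm_num) hpos).2 h
  have b4 : i * (K + 1) ≤ L := Nat.div_mul_le_self _ _
  have b5 : L < (i + 1) * (K + 1) := by
    have h1 := Nat.div_add_mod L (K + 1)
    have h2 := Nat.mod_lt L (Nat.succ_pos K)
    rw [← hi] at h1
    nlinarith
  have b6 : 12 ≤ i := (Nat.le_div_iff_mul_le (Nat.succ_pos K)).2 b3
  exact from_KP hK ((Nat.pow_le_pow_right (by norm_num) b4).trans b1)
    (lt_of_lt_of_le b2 (Nat.pow_le_pow_right (by norm_num) b5)) (by omega) (hKP i b6)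

end Pool.Agent.H91.Gold
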