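import Mathlib
import Pool.Agent.H91.GoldKP

/-!
Finite table, part A.
-/

namespace Pool.Agent.H91.Gold

theorem row2 {i : ℕ} (h1 : 12 ≤ i) (h2 : i < 18) : KP i :=
  row_sound (r := ⟨2, 12, 18, 3, 2, [], 0, 3, [(2, [], 100000000, 3), (1, [], 300000003, 1)]⟩)
    (by decide +kernel) (by decide +kernel) h1 h2

theorem row3 {i : ℕ} (h1 : 18 ≤ i) (h2 : i < 25) : KP i :=
  row_sound (r := ⟨3, 18, 25, 6, 3, [], 0, 6, [(3, [], 100000000, 6), (2, [], 233333336, 3), (1, [], 700000009, 1)]⟩)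
    (by decide +kernel) (by decide +kernel) h1 h2

theorem row4 {i : ℕ} (h1 : 25 ≤ i) (h2 : i < 33) : KP i :=
  row_sound (r := ⟨4, 25, 33, 9, 4, [], 0, 9, [(4, [], 100000000, 9), (3, [], 144444447, 6), (2, [], 337037043, 3), (1, [], 1011111131, 1)]⟩)
    (by decide +kernel) (by decide +kernel) h1 h2

theorem row5 {i : ℕ} (h1 : 33 ≤ i) (h2 : i < 43) : KP i :=
  row_sound (r := ⟨5, 33, 43, 12, 5, [], 0, 17, [(5, [], 100000000, 17), (3, [(5, 2)], 118128096, 13), (4, [], 159282777, 9), (3, [], 230075123, 6), (2, [], 536841954, 3)]⟩)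
    (by decide +kernel) (by decide +kernel) h1 h2

theorem row6 {i : ℕ} (h1 : 43 ≤ i) (h2 : i < 53) : KP i :=
  row_sound (r := ⟨6, 43, 53, 13, 4, [(6, 6)], 5184, 27, [(4, [(6, 6)], 100005185, 26), (3, [(6, 6)], 100102762, 24), (3, [(6, 4)], 103732394, 20), (4, [(5, 2)], 138521163, 15), (4, [], 215651442, 9), (3, [], 311496529, 6)]⟩)
    (by decide +kernel) (by decide +kernel) h1 h2

theorem row7 {i : ℕ} (h1 : 53 ≤ i) (h2 : i < 70) : KP i :=
  row_sound (r := ⟨7, 53, 70, 13, 4, [(7, 6)], 69114, 36, [(3, [(7, 8)], 100018640, 36), (4, [(7, 4)], 102750563, 27), (3, [(7, 4)], 116332789, 24), (4, [(6, 2)], 153231489, 18), (4, [], 288485711, 9)]⟩)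
    (by decide +kernel) (by decide +kernel) h1 h2

theorem row8 {i : ℕ} (h1 : 70 ≤ i) (h2 : i < 80) : KP i :=
  row_sound (r := ⟨8, 70, 80, 15, 4, [(8, 8)], 9397, 49, [(4, [(8, 8)], 100009398, 46), (3, [(8, 8)], 100110514, 43), (3, [(5, 4), (8, 4)], 101347934, 37), (4, [(8, 4)], 110610476, 31), (4, [(5, 2), (7, 2)], 139741307, 25), (4, [(6, 2)], 197419692, 18)]⟩)
    (by decide +kernel) (by decide +kernel) h1 h2

theorem row9 {i : ℕ} (h1 : 80 ≤ i) (h2 : i < 90) : KP i :=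
  row_sound (r := ⟨9, 80, 90, 14, 4, [(9, 8)], 53903, 58, [(3, [(9, 10)], 100014684, 59), (5, [(9, 6)], 100093973, 52), (4, [(9, 6)], 101694754, 45), (4, [(5, 2), (7, 2), (9, 2)], 111843631, 38), (4, [(6, 2), (9, 2)], 133808795, 31), (4, [(5, 2), (7, 2)], 176709361, 25)]⟩)
    (by decide +kernel) (by decide +kernel) h1 h2

theorem row10 {i : ℕ} (h1 : 90 ≤ i) (h2 : i < 101) : KP i :=
  row_sound (r := ⟨10, 90, 101, 15, 4, [(6, 6), (10, 6)], 49981, 71, [(5, [(10, 8)], 100008725, 68), (4, [(6, 6), (10, 6)], 100049985, 66), (5, [(10, 6)], 100387810, 58), (4, [(6, 4), (10, 4)], 102379540, 51), (4, [(5, 2), (10, 4)], 112602665, 44), (4, [(6, 4), (9, 2)], 143679395, 36), (4, [(6, 2), (8, 2)], 185455359, 29)]⟩)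
    (by decide +kernel) (by decide +kernel) h1 h2

theorem row11 {i : ℕ} (h1 : 101 ≤ i) (h2 : i < 112) : KP i :=
  row_sound (r := ⟨11, 101, 112, 15, 3, [(5, 4), (8, 4), (11, 4)], 2086118, 85, [(4, [(6, 6), (11, 6)], 100705880, 82), (4, [(6, 6), (10, 4), (11, 2)], 103482615, 75), (4, [(7, 4), (11, 4)], 106462454, 67), (4, [(5, 2), (7, 2), (9, 2), (11, 2)], 118917859, 59), (4, [(6, 2), (8, 2), (11, 2)], 145666338, 50), (4, [(7, 4), (10, 2)], 168696933, 42), (3, [(6, 4), (9, 2)], 219840872, 34)]⟩)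
    (by decide +kernel) (by decide +kernel) h1 h2

theorem row12 {i : ℕ} (h1 : 112 ≤ i) (h2 : i < 124) : KP i :=
  row_sound (r := ⟨12, 112, 124, 15, 4, [(6, 4), (12, 6)], 2330026, 94, [(4, [(7, 6), (12, 6)], 100409623, 96), (4, [(6, 4), (12, 6)], 102337715, 85), (4, [(6, 4), (8, 2), (12, 4)], 107339972, 77), (3, [(5, 4), (10, 4), (12, 2)], 116533370, 68), (4, [(5, 2), (6, 2), (9, 2), (12, 2)], 139821543, 58), (3, [(6, 4), (10, 4)], 186552813, 49), (4, [(5, 2), (7, 2), (10, 2)], 212070376, 40)]⟩)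
    (by decide +kernel) (by decide +kernel) h1 h2

theorem row13 {i : ℕ} (h1 : 124 ≤ i) (h2 : i < 137) : KP i :=
  row_sound (r := ⟨13, 124, 137, 15, 3, [(6, 6), (9, 4), (13, 4)], 2062150, 107, [(4, [(10, 8), (13, 4)], 100552102, 108), (3, [(6, 6), (9, 4), (13, 4)], 102071501, 96), (4, [(8, 6), (13, 4)], 106105217, 86), (4, [(6, 4), (10, 4), (13, 2)], 115869343, 76), (3, [(5, 4), (7, 2), (10, 2), (13, 2)], 133747709, 66), (4, [(6, 2), (9, 2), (13, 2)], 179047203, 56), (5, [(10, 4)], 227935930, 46)]⟩)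
    (by decide +kernel) (by decide +kernel) h1 h2

theorem row14 {i : ℕ} (h1 : 137 ≤ i) (h2 : i < 149) : KP i :=
  row_sound (r := ⟨14, 137, 149, 15, 5, [(10, 6), (14, 4)], 1407804, 121, [(3, [(8, 8), (14, 6)], 100601504, 118), (3, [(6, 6), (7, 2), (14, 6)], 102811200, 107), (4, [(9, 6), (14, 4)], 105301505, 96), (4, [(6, 4), (8, 2), (14, 4)], 117512870, 85), (5, [(10, 4), (14, 2)], 139464243, 73), (4, [(6, 4), (9, 2), (14, 2)], 189074058, 63), (4, [(6, 4), (10, 4)], 246055229, 51)]⟩)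
    (by decide +kernel) (by decide +kernel) h1 h2

theorem row15 {i : ℕ} (h1 : 149 ≤ i) (h2 : i < 163) : KP i :=
  row_sound (r := ⟨15, 149, 163, 15, 4, [(8, 6), (15, 6)], 1549263, 132, [(3, [(9, 8), (15, 6)], 100735306, 131), (5, [(8, 4), (15, 6)], 101938369, 119), (4, [(6, 4), (10, 4), (15, 4)], 104877612, 107), (3, [(5, 4), (7, 2), (9, 2), (15, 4)], 118103212, 94), (3, [(6, 6), (10, 4), (15, 2)], 150732730, 82), (3, [(5, 4), (7, 2), (10, 2), (15, 2)], 174503396, 70), (5, [(10, 6)], 277116698, 58)]⟩)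
    (by decide +kernel) (by decide +kernel) h1 h2

theorem row16 {i : ℕ} (h1 : 163 ≤ i) (h2 : i < 177) : KP i :=
  row_sound (r := ⟨16, 163, 177, 15, 4, [(6, 4), (9, 4), (16, 6)], 1505345, 147, [(5, [(10, 6), (16, 6)], 100545415, 144), (4, [(9, 6), (16, 6)], 102309205, 131), (5, [(10, 6), (16, 4)], 105472083, 117), (5, [(10, 4), (16, 4)], 115630562, 105), (3, [(6, 4), (8, 2), (16, 4)], 151415395, 91), (5, [(10, 4), (16, 2)], 195682698, 77), (4, [(5, 2), (7, 2), (10, 2), (13, 2)], 263998791, 65)]⟩)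
    (by decide +kernel) (by decide +kernel) h1 h2

theorem row17 {i : ℕ} (h1 : 177 ≤ i) (h2 : i < 191) : KP i :=
  row_sound (r := ⟨17, 177, 191, 15, 5, [(9, 6), (17, 6)], 1343779, 159, [(4, [(6, 6), (10, 6), (17, 6)], 100409866, 158), (3, [(9, 8), (17, 6)], 101728162, 143), (3, [(8, 6), (17, 6)], 107647143, 129), (4, [(6, 4), (10, 4), (17, 4)], 112085696, 115), (4, [(6, 4), (9, 2), (17, 4)], 145964825, 100), (4, [(8, 4), (15, 4)], 215973517, 86), (3, [(5, 4), (10, 4), (14, 2)], 260089536, 72)]⟩)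
    (by decide +kernel) (by decide +kernel) h1 h2

theorem row18 {i : ℕ} (h1 : 191 ≤ i) (h2 : i < 206) : KP i :=
  row_sound (r := ⟨18, 191, 206, 15, 5, [(10, 6), (18, 6)], 1128208, 171, [(3, [(8, 8), (18, 8)], 100471431, 172), (5, [(10, 6), (18, 6)], 101131081, 156), (5, [(9, 4), (18, 6)], 105902082, 141), (5, [(10, 6), (18, 4)], 116858123, 125), (4, [(7, 4), (10, 2), (18, 4)], 132605335, 110), (3, [(6, 4), (9, 2), (13, 2), (18, 2)], 210112071, 94), (4, [(6, 4), (10, 4), (14, 2)], 269772081, 78)]⟩)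
    (by decide +kernel) (by decide +kernel) h1 h2

theorem row19 {i : ℕ} (h1 : 206 ≤ i) (h2 : i < 222) : KP i :=
  row_sound (r := ⟨19, 206, 222, 17, 4, [(6, 6), (10, 6), (19, 6)], 1451463, 187, [(4, [(8, 8), (19, 8)], 100686420, 183), (4, [(10, 8), (19, 6)], 101609065, 165), (4, [(9, 6), (19, 6)], 105971141, 149), (5, [(9, 4), (15, 4), (19, 2)], 123058558, 135), (5, [(10, 4), (19, 4)], 139436604, 117), (3, [(5, 4), (9, 4), (16, 4)], 204440986, 101), (4, [(6, 4), (8, 2), (14, 4)], 272267775, 85)]⟩)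
    (by decide +kernel) (by decide +kernel) h1 h2

theorem row20 {i : ℕ} (h1 : 222 ≤ i) (h2 : i < 239) : KP i :=
  row_sound (r := ⟨20, 222, 239, 17, 4, [(8, 6), (20, 8)], 1611968, 201, [(4, [(9, 8), (20, 8)], 100367750, 199), (5, [(8, 4), (20, 8)], 102001571, 183), (4, [(6, 6), (10, 4), (20, 6)], 104508394, 165), (3, [(6, 4), (10, 4), (16, 4), (20, 2)], 120695189, 147), (3, [(6, 6), (10, 4), (20, 4)], 144269923, 128), (3, [(5, 4), (10, 4), (14, 2), (20, 2)], 190443875, 111), (4, [(5, 2), (7, 2), (9, 2), (15, 4)], 264626435, 93)]⟩)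
    (by decide +kernel) (by decide +kernel) h1 h2

theorem row21 {i : ℕ} (h1 : 239 ≤ i) (h2 : i < 256) : KP i :=
  row_sound (r := ⟨21, 239, 256, 15, 3, [(6, 6), (9, 4), (21, 8)], 1163899, 219, [(4, [(6, 6), (10, 6), (21, 8)], 100213900, 219), (4, [(8, 8), (21, 8)], 102029291, 199), (4, [(10, 8), (21, 6)], 104367048, 177), (4, [(9, 6), (21, 6)], 113156011, 161), (4, [(5, 2), (9, 4), (16, 4), (21, 2)], 138169039, 141), (4, [(7, 4), (10, 2), (21, 4)], 183899422, 122), (4, [(5, 2), (7, 2), (10, 2), (17, 4)], 242603495, 103)]⟩)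
    (by decide +kernel) (by decide +kernel) h1 h2

theorem row22 {i : ℕ} (h1 : 256 ≤ i) (h2 : i < 275) : KP i :=
  row_sound (r := ⟨22, 256, 275, 17, 5, [(10, 6), (22, 8)], 679615, 237, [(5, [(10, 8), (22, 8)], 100300557, 229), (5, [(9, 6), (22, 8)], 101039387, 213), (5, [(10, 6), (14, 4), (22, 4)], 106314376, 193), (3, [(6, 4), (10, 4), (22, 6)], 112808177, 171), (3, [(5, 4), (10, 4), (17, 4), (22, 2)], 135410151, 151), (3, [(6, 4), (8, 2), (15, 4), (22, 2)], 188624763, 130), (4, [(7, 4), (10, 2), (18, 4)], 236716016, 110)]⟩)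
    (by decide +kernel) (by decide +kernel) h1 h2

theorem row23 {i : ℕ} (h1 : 275 ≤ i) (h2 : i < 294) : KP i :=
  row_sound (r := ⟨23, 275, 294, 17, 4, [(6, 6), (10, 6), (23, 8)], 544980, 254, [(3, [(8, 8), (23, 10)], 100356154, 252), (4, [(10, 8), (23, 8)], 100700726, 230), (4, [(8, 6), (15, 6), (23, 4)], 104988896, 207), (5, [(10, 6), (23, 6)], 110650251, 186), (4, [(6, 6), (10, 4), (17, 4), (23, 2)], 132164147, 163), (4, [(6, 4), (9, 2), (16, 4), (23, 2)], 178490173, 141), (4, [(6, 4), (10, 4), (18, 4)], 232524460, 119)]⟩)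
    (by decide +kernel) (by decide +kernel) h1 h2

theorem row24 {i : ℕ} (h1 : 294 ≤ i) (h2 : i < 315) : KP i :=
  row_sound (r := ⟨24, 294, 315, 17, 4, [(10, 10), (24, 8)], 810880, 269, [(4, [(9, 8), (24, 10)], 100155308, 272), (5, [(10, 8), (24, 8)], 100814195, 245), (4, [(6, 4), (9, 4), (24, 8)], 103325322, 224), (4, [(6, 6), (10, 4), (15, 4), (24, 4)], 110112077, 201), (4, [(7, 4), (10, 2), (24, 6)], 131246709, 177), (4, [(7, 4), (10, 2), (17, 4), (24, 2)], 158601431, 153), (5, [(10, 6), (19, 4)], 240235274, 129)]⟩)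
    (by decide +kernel) (by decide +kernel) h1 h2

theorem row25 {i : ℕ} (h1 : 315 ≤ i) (h2 : i < 336) : KP i :=
  row_sound (r := ⟨25, 315, 336, 19, 3, [(8, 8), (25, 10)], 736356, 293, [(3, [(9, 10), (25, 10)], 100180326, 287), (4, [(6, 6), (14, 8), (25, 6)], 101251042, 263), (4, [(6, 6), (10, 4), (25, 8)], 103268208, 239), (5, [(10, 6), (16, 4), (25, 4)], 109562006, 213), (3, [(5, 4), (9, 4), (14, 4), (25, 4)], 126308985, 188), (5, [(10, 4), (18, 4), (25, 2)], 156772018, 162), (5, [(9, 4), (15, 4), (20, 2)], 240618484, 137)]⟩)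
    (by decide +kernel) (by decide +kernel) h1 h2

theorem row26 {i : ℕ} (h1 : 336 ≤ i) (h2 : i < 359) : KP i :=
  row_sound (r := ⟨26, 336, 359, 19, 4, [(9, 8), (26, 10)], 315730, 315, [(5, [(10, 8), (26, 10)], 100086734, 307), (4, [(7, 6), (15, 8), (26, 6)], 100750284, 284), (3, [(6, 6), (10, 6), (26, 8)], 102073205, 257), (5, [(8, 4), (17, 6), (26, 4)], 108280290, 230), (4, [(6, 4), (9, 4), (15, 4), (26, 4)], 121586534, 202), (3, [(6, 6), (10, 4), (19, 4), (26, 2)], 153423641, 175), (4, [(5, 2), (7, 2), (10, 2), (17, 4), (23, 2)], 228916540, 148)]⟩)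
    (by decide +kernel) (by decide +kernel) h1 h2

theorem row27 {i : ℕ} (h1 : 359 ≤ i) (h2 : i < 373) : KP i :=
  row_sound (r := ⟨27, 359, 373, 17, 4, [(6, 6), (10, 6), (27, 10)], 173795, 338, [(5, [(10, 8), (27, 10)], 100132550, 317), (5, [(9, 6), (27, 10)], 100496352, 300), (4, [(8, 6), (15, 6), (27, 6)], 102362347, 272), (4, [(6, 4), (9, 4), (17, 6), (27, 4)], 106610417, 243), (3, [(6, 6), (10, 4), (16, 4), (27, 4)], 116623954, 216), (4, [(5, 2), (9, 4), (15, 4), (20, 2), (27, 2)], 155267912, 188), (3, [(5, 4), (7, 2), (10, 2), (18, 4), (27, 2)], 197198734, 161)]⟩)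
    (by decide +kernel) (by decide +kernel) h1 h2

theorem row28 {i : ℕ} (h1 : 373 ≤ i) (h2 : i < 387) : KP i :=
  row_sound (r := ⟨28, 373, 387, 19, 5, [(10, 8), (28, 10)], 199599, 351, [(5, [(10, 8), (28, 10)], 100199617, 327), (5, [(9, 6), (28, 10)], 100695921, 310), (4, [(8, 6), (15, 6), (28, 6)], 102796656, 278), (4, [(9, 6), (18, 6), (28, 4)], 107492404, 251), (4, [(6, 4), (10, 4), (17, 4), (28, 4)], 119283851, 222), (4, [(9, 6), (15, 4), (20, 2), (28, 2)], 157567731, 194), (4, [(5, 2), (10, 4), (18, 4), (28, 2)], 206686582, 166)]⟩)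
    (by decide +kernel) (by decide +kernel) h1 h2

theorem row29 {i : ℕ} (h1 : 387 ≤ i) (h2 : i < 401) : KP i :=
  row_sound (r := ⟨29, 387, 401, 19, 5, [(10, 8), (29, 10)], 295425, 362, [(3, [(7, 8), (14, 8), (29, 8)], 100255680, 349), (3, [(6, 6), (10, 6), (17, 6), (29, 6)], 100854916, 321), (4, [(8, 8), (15, 6), (29, 6)], 102988891, 291), (5, [(9, 6), (18, 6), (29, 4)], 107390889, 262), (3, [(5, 4), (10, 6), (17, 4), (29, 4)], 120657164, 231), (4, [(9, 6), (16, 4), (21, 2), (29, 2)], 157744206, 202), (3, [(5, 4), (10, 4), (19, 4), (29, 2)], 207470776, 173)]⟩)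
    (by decide +kernel) (by decide +kernel) h1 h2

theorem row30 {i : ℕ} (h1 : 401 ≤ i) (h2 : i < 415) : KP i :=
  row_sound (r := ⟨30, 401, 415, 19, 5, [(10, 8), (30, 10)], 429451, 373, [(3, [(7, 8), (18, 10), (30, 6)], 100312580, 364), (5, [(10, 8), (17, 6), (30, 6)], 100904306, 331), (5, [(9, 6), (15, 6), (30, 6)], 103006456, 303), (4, [(6, 4), (10, 4), (19, 6), (30, 4)], 107604547, 271), (3, [(6, 6), (10, 4), (23, 6), (30, 2)], 123576657, 240), (3, [(5, 4), (10, 4), (17, 4), (22, 2), (30, 2)], 157223033, 210), (3, [(6, 4), (10, 4), (19, 4), (30, 2)], 217572501, 179)]⟩)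
    (by decide +kernel) (by decide +kernel) h1 h2

theorem row31 {i : ℕ} (h1 : 415 ≤ i) (h2 : i < 429) : KP i :=
  row_sound (r := ⟨31, 415, 429, 17, 5, [(9, 6), (19, 8), (31, 6)], 424428, 394, [(4, [(6, 6), (10, 6), (15, 6), (31, 8)], 100253640, 379), (4, [(8, 8), (17, 8), (31, 6)], 100989319, 343), (5, [(9, 6), (16, 6), (31, 6)], 102443113, 315), (5, [(10, 6), (19, 6), (31, 4)], 107120516, 282), (4, [(8, 6), (17, 6), (31, 4)], 123118184, 251), (3, [(6, 6), (10, 4), (17, 4), (22, 2), (31, 2)], 152397784, 220), (5, [(9, 4), (14, 4), (25, 4)], 219557058, 189)]⟩)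
    (by decide +kernel) (by decide +kernel) h1 h2

theorem tabA {i : ℕ} (h1 : 12 ≤ i) (h2 : i < 429) : KP i := by
  rcases lt_or_ge i 18 with g0 | g0
  · exact row2 h1 g0
  rcases lt_or_ge i 25 with g1 | g1
  · exact row3 g0 g1
  rcases lt_or_ge i 33 with g2 | g2
  · exact row4 g1 g2
  rcases lt_or_ge i 43 with g3 | g3
  · exact row5 g2 g3
  rcases lt_or_ge i 53 with g4 | g4
  · exact row6 g3 g4
  rcases lt_or_ge i 70 with g5 | g5
  · exact row7 g4 g5
  rcases lt_or_ge i 80 with g6 | g6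
  · exact row8 g5 g6
  rcases lt_or_ge i 90 with g7 | g7
  · exact row9 g6 g7
  rcases lt_or_ge i 101 with g8 | g8
  · exact row10 g7 g8
  rcases lt_or_ge i 112 with g9 | g9
  · exact row11 g8 g9
  rcases lt_or_ge i 124 with g10 | g10
  · exact row12 g9 g10
  rcases lt_or_ge i 137 with g11 | g11
  · exact row13 g10 g11
  rcases lt_or_ge i 149 with g12 | g12
  · exact row14 g11 g12
  rcases lt_or_ge i 163 with g13 | g13
  · exact row15 g12 g13
  rcases lt_or_ge i 177 with g14 | g14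
  · exact row16 g13 g14
  rcases lt_or_ge i 191 with g15 | g15
  · exact row17 g14 g15
  rcases lt_or_ge i 206 with g16 | g16
  · exact row18 g15 g16
  rcases lt_or_ge i 222 with g17 | g17
  · exact row19 g16 g17
  rcases lt_or_ge i 239 with g18 | g18
  · exact row20 g17 g18
  rcases lt_or_ge i 256 with g19 | g19
  · exact row21 g18 g19
  rcases lt_or_ge i 275 with g20 | g20
  · exact row22 g19 g20
  rcases lt_or_ge i 294 with g21 | g21
  · exact row23 g20 g21
  rcases lt_or_ge i 315 with g22 | g22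
  · exact row24 g21 g22
  rcases lt_or_ge i 336 with g23 | g23
  · exact row25 g22 g23
  rcases lt_or_ge i 359 with g24 | g24
  · exact row26 g23 g24
  rcases lt_or_ge i 373 with g25 | g25
  · exact row27 g24 g25
  rcases lt_or_ge i 387 with g26 | g26
  · exact row28 g25 g26
  rcases lt_or_ge i 401 with g27 | g27
  · exact row29 g26 g27
  rcases lt_or_ge i 415 with g28 | g28
  · exact row30 g27 g28
  exact row31 g28 h2

end Pool.Agent.H91.Gold
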