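import Mathlib
import Pool.Agent.H91.GoldKP

/-!
Finite table, part B.
-/

namespace Pool.Agent.H91.Gold

theorem row32 {i : ℕ} (h1 : 429 ≤ i) (h2 : i < 444) : KP i :=
  row_sound (r := ⟨32, 429, 444, 17, 4, [(9, 8), (19, 8), (32, 6)], 475186, 402, [(4, [(8, 8), (15, 8), (32, 8)], 100257454, 391), (4, [(8, 8), (18, 8), (32, 6)], 100920313, 357), (5, [(9, 6), (17, 6), (32, 6)], 102525371, 327), (4, [(10, 8), (20, 6), (32, 4)], 106836409, 295), (4, [(8, 6), (18, 6), (32, 4)], 122468177, 261), (4, [(7, 4), (10, 2), (17, 4), (32, 4)], 153585998, 229), (3, [(5, 4), (9, 4), (15, 4), (26, 4)], 214755793, 196)]⟩)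
    (by decide +kernel) (by decide +kernel) h1 h2

theorem row33 {i : ℕ} (h1 : 444 ≤ i) (h2 : i < 458) : KP i :=
  row_sound (r := ⟨33, 444, 458, 17, 4, [(6, 6), (10, 6), (19, 8), (33, 6)], 476479, 421, [(4, [(8, 8), (16, 8), (33, 8)], 100219502, 407), (4, [(9, 8), (18, 8), (33, 6)], 100937863, 371), (5, [(10, 6), (17, 6), (33, 6)], 102417210, 339), (4, [(10, 8), (21, 6), (33, 4)], 107661293, 305), (4, [(9, 6), (18, 6), (33, 4)], 122215550, 271), (4, [(5, 2), (10, 4), (23, 6), (33, 2)], 155391588, 237), (4, [(9, 6), (15, 4), (27, 4)], 215619264, 204)]⟩)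
    (by decide +kernel) (by decide +kernel) h1 h2

theorem row34 {i : ℕ} (h1 : 458 ≤ i) (h2 : i < 472) : KP i :=
  row_sound (r := ⟨34, 458, 472, 19, 4, [(6, 6), (10, 6), (20, 8), (34, 6)], 409948, 436, [(4, [(8, 8), (16, 8), (34, 8)], 100279046, 415), (5, [(9, 6), (19, 8), (34, 6)], 100823187, 383), (4, [(10, 8), (17, 6), (34, 6)], 102882113, 348), (3, [(6, 6), (10, 6), (21, 6), (34, 4)], 108908242, 312), (5, [(9, 4), (19, 6), (34, 4)], 122107526, 278), (4, [(5, 2), (6, 2), (8, 2), (10, 2), (23, 6), (34, 2)], 160716531, 243), (5, [(9, 4), (16, 4), (28, 4)], 219402384, 209)]⟩)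
    (by decide +kernel) (by decide +kernel) h1 h2

theorem row35 {i : ℕ} (h1 : 472 ≤ i) (h2 : i < 486) : KP i :=
  row_sound (r := ⟨35, 472, 486, 19, 5, [(10, 8), (20, 8), (35, 6)], 496005, 446, [(4, [(8, 8), (17, 8), (35, 8)], 100304925, 431), (4, [(9, 8), (19, 8), (35, 6)], 101023446, 391), (5, [(10, 6), (18, 6), (35, 6)], 102739676, 357), (5, [(10, 8), (21, 6), (35, 4)], 110434217, 320), (3, [(5, 4), (9, 4), (20, 6), (35, 4)], 122785702, 287), (3, [(6, 6), (10, 4), (23, 6), (35, 2)], 159352998, 250), (3, [(6, 4), (10, 4), (16, 4), (28, 4)], 219001199, 216)]⟩)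
    (by decide +kernel) (by decide +kernel) h1 h2

theorem row36 {i : ℕ} (h1 : 486 ≤ i) (h2 : i < 500) : KP i :=
  row_sound (r := ⟨36, 486, 500, 17, 5, [(10, 8), (21, 8), (36, 6)], 462888, 461, [(5, [(9, 6), (17, 8), (36, 8)], 100298692, 446), (4, [(9, 8), (20, 8), (36, 6)], 100942719, 405), (4, [(10, 8), (19, 6), (36, 6)], 102746645, 372), (3, [(5, 4), (10, 6), (15, 4), (22, 4), (36, 4)], 110505439, 335), (4, [(6, 4), (9, 4), (20, 6), (36, 4)], 122576512, 297), (5, [(9, 4), (14, 4), (25, 4), (36, 2)], 156725521, 260), (4, [(5, 2), (10, 4), (17, 4), (24, 2), (36, 2)], 213368969, 225)]⟩)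
    (by decide +kernel) (by decide +kernel) h1 h2

theorem row37 {i : ℕ} (h1 : 500 ≤ i) (h2 : i < 515) : KP i :=
  row_sound (r := ⟨37, 500, 515, 19, 5, [(10, 8), (22, 8), (37, 6)], 514088, 476, [(4, [(9, 8), (17, 8), (37, 8)], 100326816, 455), (4, [(9, 8), (21, 8), (37, 6)], 101030696, 419), (3, [(6, 6), (10, 6), (19, 6), (37, 6)], 103109110, 381), (4, [(8, 6), (22, 8), (37, 4)], 110308468, 343), (4, [(6, 4), (10, 4), (20, 6), (37, 4)], 123188648, 305), (4, [(5, 2), (9, 4), (15, 4), (26, 4), (37, 2)], 155261132, 268), (4, [(6, 4), (10, 4), (17, 4), (30, 4)], 213946310, 230)]⟩)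
    (by decide +kernel) (by decide +kernel) h1 h2

theorem row38 {i : ℕ} (h1 : 515 ≤ i) (h2 : i < 529) : KP i :=
  row_sound (r := ⟨38, 515, 529, 19, 4, [(8, 8), (17, 8), (38, 8)], 513881, 490, [(4, [(9, 8), (18, 8), (38, 8)], 100286733, 471), (4, [(10, 8), (21, 8), (38, 6)], 100954376, 432), (4, [(10, 8), (25, 8), (38, 4)], 103335315, 393), (4, [(8, 6), (15, 6), (23, 4), (38, 4)], 110356542, 354), (4, [(6, 4), (10, 4), (21, 6), (38, 4)], 121208535, 315), (5, [(9, 4), (15, 4), (27, 4), (38, 2)], 155419800, 276), (4, [(6, 6), (10, 4), (17, 4), (31, 4)], 218341779, 237)]⟩)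
    (by decide +kernel) (by decide +kernel) h1 h2

theorem row39 {i : ℕ} (h1 : 529 ≤ i) (h2 : i < 543) : KP i :=
  row_sound (r := ⟨39, 529, 543, 17, 5, [(9, 6), (17, 8), (39, 8)], 574532, 505, [(3, [(9, 10), (18, 8), (39, 8)], 100305700, 485), (4, [(10, 8), (22, 8), (39, 6)], 100929741, 446), (3, [(8, 8), (19, 8), (39, 6)], 103548994, 405), (4, [(9, 6), (23, 8), (39, 4)], 110197833, 365), (4, [(6, 4), (10, 4), (22, 6), (39, 4)], 121031058, 325), (5, [(9, 4), (16, 4), (28, 4), (39, 2)], 155293780, 286), (4, [(6, 4), (10, 4), (18, 4), (33, 4)], 215317167, 246)]⟩)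
    (by decide +kernel) (by decide +kernel) h1 h2

theorem row40 {i : ℕ} (h1 : 543 ≤ i) (h2 : i < 558) : KP i :=
  row_sound (r := ⟨40, 543, 558, 19, 4, [(8, 8), (18, 8), (40, 8)], 654636, 516, [(4, [(9, 8), (19, 8), (40, 8)], 100357282, 495), (3, [(6, 6), (10, 6), (22, 8), (40, 6)], 101035297, 456), (4, [(8, 6), (20, 8), (40, 6)], 103620755, 414), (4, [(9, 6), (18, 6), (40, 6)], 110879852, 374), (4, [(6, 6), (10, 4), (22, 6), (40, 4)], 123805090, 332), (4, [(5, 2), (6, 2), (10, 4), (16, 4), (27, 4), (40, 2)], 156470093, 292), (4, [(6, 4), (10, 4), (24, 6), (33, 2)], 222405193, 251)]⟩)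
    (by decide +kernel) (by decide +kernel) h1 h2

theorem row41 {i : ℕ} (h1 : 558 ≤ i) (h2 : i < 572) : KP i :=
  row_sound (r := ⟨41, 558, 572, 19, 3, [(8, 8), (24, 10), (41, 6)], 752387, 536, [(4, [(9, 8), (24, 10), (41, 6)], 100399183, 509), (5, [(10, 8), (16, 6), (41, 8)], 101797701, 468), (4, [(8, 8), (20, 8), (41, 6)], 103820965, 427), (3, [(6, 6), (9, 4), (24, 8), (41, 4)], 110282831, 385), (3, [(5, 4), (9, 4), (14, 4), (24, 4), (41, 4)], 128852252, 343), (3, [(6, 6), (10, 4), (16, 4), (28, 4), (41, 2)], 153254572, 301), (3, [(5, 4), (9, 4), (14, 4), (25, 4), (36, 2)], 223414291, 259)]⟩)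
    (by decide +kernel) (by decide +kernel) h1 h2

theorem row42 {i : ℕ} (h1 : 572 ≤ i) (h2 : i < 587) : KP i :=
  row_sound (r := ⟨42, 572, 587, 19, 3, [(9, 10), (18, 8), (42, 8)], 605017, 547, [(3, [(9, 10), (24, 10), (42, 6)], 100452716, 520), (4, [(10, 8), (24, 8), (42, 6)], 101351441, 480), (3, [(9, 8), (20, 8), (42, 6)], 104150385, 438), (4, [(9, 8), (24, 8), (42, 4)], 111676028, 394), (3, [(5, 4), (9, 4), (19, 6), (32, 4), (42, 2)], 126154759, 352), (4, [(6, 4), (10, 4), (16, 4), (30, 4), (42, 2)], 155809986, 309), (4, [(5, 2), (9, 4), (15, 4), (26, 4), (36, 2)], 221540183, 266)]⟩)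
    (by decide +kernel) (by decide +kernel) h1 h2

theorem row43 {i : ℕ} (h1 : 587 ≤ i) (h2 : i < 602) : KP i :=
  row_sound (r := ⟨43, 587, 602, 19, 4, [(9, 8), (24, 10), (43, 6)], 611557, 561, [(4, [(6, 6), (10, 6), (20, 8), (43, 8)], 100306365, 539), (5, [(10, 8), (24, 8), (43, 6)], 101274216, 494), (3, [(8, 8), (15, 6), (28, 6), (43, 4)], 104449968, 450), (4, [(10, 8), (24, 8), (43, 4)], 112469687, 405), (4, [(6, 4), (9, 4), (19, 6), (32, 4), (43, 2)], 125200626, 360), (5, [(8, 4), (16, 6), (28, 4), (43, 2)], 163062689, 317), (4, [(9, 6), (15, 4), (26, 4), (37, 2)], 219696137, 273)]⟩)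
    (by decide +kernel) (by decide +kernel) h1 h2

theorem row44 {i : ℕ} (h1 : 602 ≤ i) (h2 : i < 616) : KP i :=
  row_sound (r := ⟨44, 602, 616, 19, 4, [(9, 8), (20, 8), (44, 8)], 593231, 576, [(5, [(10, 8), (20, 8), (44, 8)], 100321419, 550), (5, [(10, 8), (24, 8), (44, 6)], 101428569, 500), (4, [(9, 6), (22, 8), (44, 6)], 104522083, 460), (5, [(9, 6), (17, 6), (26, 4), (44, 4)], 110537167, 416), (3, [(5, 4), (10, 6), (19, 6), (32, 4), (44, 2)], 125134447, 371), (5, [(10, 6), (17, 4), (30, 4), (44, 2)], 156820396, 324), (4, [(6, 4), (10, 4), (16, 4), (26, 4), (36, 2)], 217230755, 281)]⟩)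
    (by decide +kernel) (by decide +kernel) h1 h2

theorem row45 {i : ℕ} (h1 : 616 ≤ i) (h2 : i < 631) : KP i :=
  row_sound (r := ⟨45, 616, 631, 19, 4, [(10, 8), (20, 8), (45, 8)], 588564, 592, [(5, [(10, 8), (20, 8), (45, 8)], 100392869, 558), (5, [(10, 8), (24, 8), (45, 6)], 101622976, 506), (5, [(9, 6), (16, 6), (28, 6), (45, 4)], 104540596, 473), (4, [(9, 6), (18, 6), (28, 4), (45, 4)], 111018785, 426), (3, [(5, 4), (10, 6), (20, 6), (32, 4), (45, 2)], 126363350, 379), (3, [(6, 6), (10, 4), (23, 6), (32, 2), (45, 2)], 157171200, 333), (4, [(6, 4), (10, 4), (15, 4), (27, 4), (39, 2)], 221205110, 287)]⟩)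
    (by decide +kernel) (by decide +kernel) h1 h2

theorem row46 {i : ℕ} (h1 : 631 ≤ i) (h2 : i < 646) : KP i :=
  row_sound (r := ⟨46, 631, 646, 21, 4, [(6, 6), (10, 6), (20, 8), (46, 8)], 523291, 606, [(5, [(10, 8), (26, 10), (46, 6)], 100449860, 573), (3, [(8, 8), (24, 10), (46, 6)], 101556977, 528), (4, [(9, 8), (22, 8), (46, 6)], 103978447, 481), (3, [(6, 6), (9, 4), (18, 6), (28, 4), (46, 4)], 110806058, 434), (4, [(6, 6), (10, 4), (20, 6), (34, 4), (46, 2)], 125413666, 387), (5, [(10, 6), (23, 6), (32, 2), (46, 2)], 159870236, 340), (4, [(6, 4), (10, 4), (16, 4), (28, 4), (38, 2)], 218198023, 293)]⟩)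
    (by decide +kernel) (by decide +kernel) h1 h2

theorem row47 {i : ℕ} (h1 : 646 ≤ i) (h2 : i < 660) : KP i :=
  row_sound (r := ⟨47, 646, 660, 19, 5, [(10, 8), (20, 8), (47, 8)], 593076, 618, [(4, [(8, 8), (20, 10), (47, 8)], 100551856, 585), (5, [(9, 6), (24, 10), (47, 6)], 101536152, 543), (4, [(6, 4), (9, 4), (24, 8), (47, 6)], 104707938, 496), (5, [(10, 6), (18, 6), (28, 4), (47, 4)], 109955626, 447), (3, [(5, 4), (10, 6), (20, 6), (36, 4), (47, 2)], 126170361, 399), (3, [(8, 6), (18, 6), (32, 4), (47, 2)], 158450518, 351), (4, [(6, 4), (10, 4), (17, 4), (28, 4), (41, 2)], 215305669, 303)]⟩)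
    (by decide +kernel) (by decide +kernel) h1 h2

theorem row48 {i : ℕ} (h1 : 660 ≤ i) (h2 : i < 675) : KP i :=
  row_sound (r := ⟨48, 660, 675, 19, 4, [(10, 8), (22, 8), (48, 8)], 682319, 635, [(5, [(10, 8), (28, 10), (48, 6)], 100424153, 605), (3, [(9, 10), (24, 10), (48, 6)], 101817048, 556), (5, [(9, 6), (24, 8), (48, 6)], 104238182, 507), (5, [(10, 6), (19, 6), (28, 4), (48, 4)], 110277765, 457), (5, [(10, 6), (21, 6), (36, 4), (48, 2)], 123702849, 409), (5, [(9, 4), (18, 6), (32, 4), (48, 2)], 157229936, 359), (3, [(5, 4), (10, 6), (17, 4), (29, 4), (40, 2)], 216750528, 310)]⟩)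
    (by decide +kernel) (by decide +kernel) h1 h2

theorem row49 {i : ℕ} (h1 : 675 ≤ i) (h2 : i < 690) : KP i :=
  row_sound (r := ⟨49, 675, 690, 19, 4, [(10, 8), (28, 10), (49, 6)], 691862, 650, [(5, [(10, 8), (28, 10), (49, 6)], 100496484, 611), (3, [(6, 6), (9, 4), (20, 8), (49, 8)], 101730325, 570), (5, [(10, 6), (24, 8), (49, 6)], 103357402, 519), (4, [(6, 6), (10, 6), (19, 6), (28, 4), (49, 4)], 111511630, 469), (5, [(10, 6), (22, 6), (36, 4), (49, 2)], 125458771, 417), (5, [(9, 4), (19, 6), (32, 4), (49, 2)], 158803509, 367), (4, [(6, 4), (10, 4), (17, 4), (30, 4), (44, 2)], 213313863, 317)]⟩)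
    (by decide +kernel) (by decide +kernel) h1 h2

theorem row50 {i : ℕ} (h1 : 690 ≤ i) (h2 : i < 705) : KP i :=
  row_sound (r := ⟨50, 690, 705, 19, 5, [(10, 8), (28, 10), (50, 6)], 586165, 664, [(5, [(9, 6), (22, 10), (50, 8)], 100435159, 635), (4, [(9, 8), (26, 10), (50, 6)], 101339523, 583), (4, [(10, 8), (24, 8), (50, 6)], 103697807, 528), (5, [(10, 6), (20, 6), (30, 4), (50, 4)], 109774159, 479), (5, [(10, 6), (22, 6), (38, 4), (50, 2)], 125284845, 427), (3, [(5, 4), (9, 4), (19, 6), (34, 4), (50, 2)], 154306610, 376), (5, [(10, 6), (17, 4), (30, 4), (44, 2)], 217788395, 324)]⟩)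
    (by decide +kernel) (by decide +kernel) h1 h2

theorem row51 {i : ℕ} (h1 : 705 ≤ i) (h2 : i < 720) : KP i :=
  row_sound (r := ⟨51, 705, 720, 17, 4, [(10, 10), (28, 10), (51, 6)], 694658, 674, [(4, [(8, 8), (14, 8), (28, 8), (51, 6)], 100623994, 648), (4, [(10, 8), (20, 8), (51, 8)], 101540645, 598), (5, [(10, 8), (24, 8), (51, 6)], 104123487, 542), (5, [(10, 6), (20, 6), (32, 4), (51, 4)], 109966678, 491), (4, [(8, 6), (17, 6), (28, 4), (51, 4)], 125165488, 438), (4, [(6, 4), (10, 4), (16, 4), (27, 4), (36, 2), (51, 2)], 153053211, 386), (4, [(6, 4), (10, 4), (23, 6), (32, 2), (46, 2)], 214855890, 334)]⟩)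
    (by decide +kernel) (by decide +kernel) h1 h2

theorem row52 {i : ℕ} (h1 : 720 ≤ i) (h2 : i < 735) : KP i :=
  row_sound (r := ⟨52, 720, 735, 21, 4, [(8, 8), (22, 10), (52, 8)], 643772, 694, [(3, [(9, 10), (22, 10), (52, 8)], 100537451, 658), (4, [(7, 6), (16, 8), (28, 6), (52, 6)], 101628209, 607), (5, [(10, 6), (26, 8), (52, 6)], 103958749, 553), (4, [(10, 8), (20, 6), (32, 4), (52, 4)], 110499856, 498), (4, [(8, 6), (17, 6), (28, 4), (52, 4)], 127908691, 442), (4, [(6, 6), (10, 4), (16, 4), (27, 4), (36, 2), (52, 2)], 157080536, 391), (4, [(6, 4), (10, 4), (22, 6), (42, 4)], 219768882, 337)]⟩)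
    (by decide +kernel) (by decide +kernel) h1 h2

theorem row53 {i : ℕ} (h1 : 735 ≤ i) (h2 : i < 750) : KP i :=
  row_sound (r := ⟨53, 735, 750, 21, 4, [(8, 8), (14, 8), (28, 8), (53, 6)], 926593, 710, [(4, [(8, 8), (24, 10), (53, 8)], 100608913, 673), (5, [(9, 6), (28, 10), (53, 6)], 101503050, 619), (4, [(8, 8), (18, 8), (32, 6), (53, 4)], 105201752, 565), (5, [(10, 8), (20, 6), (32, 4), (53, 4)], 111151008, 510), (4, [(6, 4), (9, 4), (17, 6), (28, 4), (53, 4)], 127652886, 455), (4, [(9, 6), (20, 6), (36, 4), (53, 2)], 154835443, 400), (5, [(9, 4), (18, 6), (30, 4), (44, 2)], 223451273, 343)]⟩)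
    (by decide +kernel) (by decide +kernel) h1 h2

theorem row54 {i : ℕ} (h1 : 750 ≤ i) (h2 : i < 765) : KP i :=
  row_sound (r := ⟨54, 750, 765, 19, 4, [(7, 8), (14, 8), (30, 8), (54, 6)], 731845, 725, [(4, [(9, 8), (24, 10), (54, 8)], 100408061, 689), (4, [(10, 8), (28, 10), (54, 6)], 101401834, 634), (3, [(8, 8), (18, 8), (34, 6), (54, 4)], 104201923, 578), (4, [(8, 6), (16, 6), (32, 6), (54, 4)], 110772454, 520), (3, [(5, 4), (9, 4), (18, 6), (30, 4), (54, 4)], 125663361, 467), (4, [(6, 6), (10, 4), (20, 6), (36, 4), (54, 2)], 154023736, 411), (5, [(9, 4), (18, 6), (32, 4), (46, 2)], 214789558, 355)]⟩)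
    (by decide +kernel) (by decide +kernel) h1 h2

theorem row55 {i : ℕ} (h1 : 765 ≤ i) (h2 : i < 781) : KP i :=
  row_sound (r := ⟨55, 765, 781, 21, 4, [(8, 8), (24, 10), (55, 8)], 723155, 741, [(3, [(9, 10), (24, 10), (55, 8)], 100431794, 702), (4, [(6, 6), (10, 6), (28, 10), (55, 6)], 101485316, 645), (4, [(10, 8), (19, 6), (36, 6), (55, 4)], 104320930, 587), (4, [(6, 4), (9, 4), (16, 6), (32, 6), (55, 4)], 110571903, 532), (5, [(10, 6), (16, 4), (24, 4), (40, 4), (55, 2)], 128236721, 473), (4, [(6, 4), (10, 4), (21, 6), (36, 4), (55, 2)], 155467980, 416), (4, [(9, 6), (19, 6), (32, 4), (44, 2)], 217708015, 360)]⟩)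
    (by decide +kernel) (by decide +kernel) h1 h2

theorem row56 {i : ℕ} (h1 : 781 ≤ i) (h2 : i < 796) : KP i :=
  row_sound (r := ⟨56, 781, 796, 19, 4, [(9, 8), (24, 10), (56, 8)], 546369, 758, [(5, [(10, 8), (24, 10), (56, 8)], 100427897, 719), (4, [(6, 6), (10, 6), (22, 8), (56, 8)], 101473694, 659), (4, [(8, 6), (19, 8), (36, 6), (56, 4)], 104186131, 602), (3, [(9, 8), (17, 6), (32, 6), (56, 4)], 110737468, 545), (5, [(9, 6), (18, 6), (30, 4), (56, 4)], 125682833, 486), (3, [(6, 6), (10, 4), (21, 6), (38, 4), (56, 2)], 151100607, 428), (4, [(6, 4), (10, 4), (19, 6), (32, 4), (46, 2)], 214934142, 370)]⟩)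
    (by decide +kernel) (by decide +kernel) h1 h2

theorem tabB {i : ℕ} (h1 : 429 ≤ i) (h2 : i < 796) : KP i := by
  rcases lt_or_ge i 444 with g0 | g0
  · exact row32 h1 g0
  rcases lt_or_ge i 458 with g1 | g1
  · exact row33 g0 g1
  rcases lt_or_ge i 472 with g2 | g2
  · exact row34 g1 g2
  rcases lt_or_ge i 486 with g3 | g3
  · exact row35 g2 g3
  rcases lt_or_ge i 500 with g4 | g4
  · exact row36 g3 g4
  rcases lt_or_ge i 515 with g5 | g5
  · exact row37 g4 g5
  rcases lt_or_ge i 529 with g6 | g6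
  · exact row38 g5 g6
  rcases lt_or_ge i 543 with g7 | g7
  · exact row39 g6 g7
  rcases lt_or_ge i 558 with g8 | g8
  · exact row40 g7 g8
  rcases lt_or_ge i 572 with g9 | g9
  · exact row41 g8 g9
  rcases lt_or_ge i 587 with g10 | g10
  · exact row42 g9 g10
  rcases lt_or_ge i 602 with g11 | g11
  · exact row43 g10 g11
  rcases lt_or_ge i 616 with g12 | g12
  · exact row44 g11 g12
  rcases lt_or_ge i 631 with g13 | g13
  · exact row45 g12 g13
  rcases lt_or_ge i 646 with g14 | g14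
  · exact row46 g13 g14
  rcases lt_or_ge i 660 with g15 | g15
  · exact row47 g14 g15
  rcases lt_or_ge i 675 with g16 | g16
  · exact row48 g15 g16
  rcases lt_or_ge i 690 with g17 | g17
  · exact row49 g16 g17
  rcases lt_or_ge i 705 with g18 | g18
  · exact row50 g17 g18
  rcases lt_or_ge i 720 with g19 | g19
  · exact row51 g18 g19
  rcases lt_or_ge i 735 with g20 | g20
  · exact row52 g19 g20
  rcases lt_or_ge i 750 with g21 | g21
  · exact row53 g20 g21
  rcases lt_or_ge i 765 with g22 | g22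
  · exact row54 g21 g22
  rcases lt_or_ge i 781 with g23 | g23
  · exact row55 g22 g23
  exact row56 g23 h2

end Pool.Agent.H91.Gold
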