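import Mathlib
import Pool.Agent.H91.GoldKP

/-!
Finite table, part C.
-/

namespace Pool.Agent.H91.Gold

theorem row57 {i : ℕ} (h1 : 796 ≤ i) (h2 : i < 811) : KP i :=
  row_sound (r := ⟨57, 796, 811, 19, 3, [(9, 10), (24, 10), (57, 8)], 597586, 772, [(5, [(10, 8), (24, 10), (57, 8)], 100518367, 727), (5, [(10, 6), (22, 8), (40, 6), (57, 4)], 101843149, 672), (4, [(8, 8), (19, 8), (36, 6), (57, 4)], 104233393, 613), (5, [(10, 6), (17, 6), (32, 6), (57, 4)], 111185805, 556), (4, [(9, 6), (19, 6), (32, 4), (57, 4)], 124038693, 496), (4, [(6, 4), (10, 4), (21, 6), (40, 4), (57, 2)], 153352350, 436), (4, [(6, 4), (9, 4), (19, 6), (34, 4), (48, 2)], 211099817, 378)]⟩)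
    (by decide +kernel) (by decide +kernel) h1 h2

theorem row58 {i : ℕ} (h1 : 811 ≤ i) (h2 : i < 826) : KP i :=
  row_sound (r := ⟨58, 811, 826, 19, 5, [(9, 8), (24, 10), (58, 8)], 691738, 783, [(3, [(9, 10), (26, 10), (58, 8)], 100490186, 746), (5, [(10, 8), (30, 10), (58, 6)], 101419722, 685), (4, [(9, 8), (19, 8), (36, 6), (58, 4)], 104297154, 624), (3, [(9, 8), (17, 6), (34, 6), (58, 4)], 109956120, 565), (4, [(6, 4), (10, 4), (19, 6), (32, 4), (58, 4)], 123408375, 506), (4, [(6, 4), (10, 4), (22, 6), (40, 4), (58, 2)], 150610458, 444), (4, [(6, 4), (9, 4), (20, 6), (34, 4), (48, 2)], 213459203, 384)]⟩)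
    (by decide +kernel) (by decide +kernel) h1 h2

theorem row59 {i : ℕ} (h1 : 826 ≤ i) (h2 : i < 842) : KP i :=
  row_sound (r := ⟨59, 826, 842, 19, 4, [(8, 8), (16, 8), (32, 8), (59, 6)], 707488, 800, [(3, [(9, 10), (16, 8), (32, 8), (59, 6)], 100647285, 757), (3, [(8, 8), (18, 8), (32, 6), (59, 6)], 101558668, 699), (4, [(9, 8), (15, 6), (28, 6), (59, 6)], 104296381, 637), (4, [(6, 4), (9, 4), (17, 6), (36, 6), (59, 4)], 110248802, 578), (4, [(6, 4), (10, 4), (20, 6), (32, 4), (59, 4)], 123045272, 516), (5, [(10, 6), (22, 6), (40, 4), (59, 2)], 152045635, 453), (3, [(5, 4), (10, 6), (20, 6), (34, 4), (48, 2)], 211538111, 393)]⟩)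
    (by decide +kernel) (by decide +kernel) h1 h2

theorem row60 {i : ℕ} (h1 : 842 ≤ i) (h2 : i < 857) : KP i :=
  row_sound (r := ⟨60, 842, 857, 21, 4, [(9, 8), (26, 10), (60, 8)], 638108, 814, [(5, [(10, 8), (26, 10), (60, 8)], 100409392, 771), (4, [(8, 8), (18, 8), (32, 6), (60, 6)], 101580731, 708), (3, [(6, 6), (9, 4), (20, 8), (38, 6), (60, 4)], 104313811, 648), (5, [(9, 6), (17, 6), (36, 6), (60, 4)], 110135952, 587), (4, [(6, 6), (10, 4), (20, 6), (32, 4), (60, 4)], 124948475, 524), (4, [(9, 6), (18, 6), (30, 4), (42, 2), (60, 2)], 154005861, 461), (4, [(9, 6), (20, 6), (36, 4), (52, 2)], 212166685, 398)]⟩)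
    (by decide +kernel) (by decide +kernel) h1 h2

theorem row61 {i : ℕ} (h1 : 857 ≤ i) (h2 : i < 873) : KP i :=
  row_sound (r := ⟨61, 857, 873, 21, 4, [(6, 6), (10, 6), (20, 8), (36, 6), (61, 6)], 869025, 832, [(5, [(10, 8), (21, 8), (36, 6), (61, 6)], 100623509, 784), (4, [(9, 8), (18, 8), (32, 6), (61, 6)], 101491209, 722), (4, [(8, 8), (20, 8), (40, 6), (61, 4)], 104663615, 661), (4, [(9, 8), (18, 6), (36, 6), (61, 4)], 110011412, 598), (4, [(10, 8), (20, 6), (32, 4), (61, 4)], 125416508, 534), (4, [(6, 4), (10, 4), (15, 4), (23, 4), (40, 4), (61, 2)], 156912561, 470), (3, [(6, 6), (10, 4), (20, 6), (36, 4), (52, 2)], 210735406, 406)]⟩)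
    (by decide +kernel) (by decide +kernel) h1 h2

theorem row62 {i : ℕ} (h1 : 873 ≤ i) (h2 : i < 888) : KP i :=
  row_sound (r := ⟨62, 873, 888, 21, 5, [(10, 8), (26, 10), (62, 8)], 562113, 846, [(3, [(6, 6), (10, 6), (28, 10), (62, 8)], 100523181, 803), (4, [(9, 8), (19, 8), (32, 6), (62, 6)], 101452698, 736), (4, [(9, 8), (16, 6), (30, 6), (62, 6)], 104005134, 673), (4, [(10, 8), (18, 6), (36, 6), (62, 4)], 109415706, 609), (5, [(10, 6), (20, 6), (34, 4), (62, 4)], 123109041, 543), (3, [(5, 4), (9, 4), (19, 6), (32, 4), (44, 2), (62, 2)], 153107286, 479), (4, [(6, 4), (10, 4), (21, 6), (36, 4), (54, 2)], 209298425, 414)]⟩)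
    (by decide +kernel) (by decide +kernel) h1 h2

theorem row63 {i : ℕ} (h1 : 888 ≤ i) (h2 : i < 904) : KP i :=
  row_sound (r := ⟨63, 888, 904, 21, 4, [(10, 10), (21, 8), (36, 6), (63, 6)], 709256, 859, [(5, [(10, 8), (28, 10), (63, 8)], 100424424, 815), (3, [(7, 8), (15, 8), (32, 8), (63, 6)], 101592358, 750), (4, [(9, 8), (21, 8), (40, 6), (63, 4)], 103852933, 684), (4, [(10, 8), (19, 6), (36, 6), (63, 4)], 110125621, 619), (4, [(6, 4), (10, 4), (21, 6), (36, 4), (63, 4)], 123492631, 554), (4, [(6, 4), (9, 4), (19, 6), (32, 4), (44, 2), (63, 2)], 151895710, 487), (4, [(6, 4), (10, 4), (16, 4), (28, 4), (40, 2), (63, 2)], 210838465, 422)]⟩)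
    (by decide +kernel) (by decide +kernel) h1 h2

theorem row64 {i : ℕ} (h1 : 904 ≤ i) (h2 : i < 920) : KP i :=
  row_sound (r := ⟨64, 904, 920, 21, 3, [(6, 6), (10, 6), (28, 10), (64, 8)], 610636, 880, [(5, [(10, 8), (28, 10), (64, 8)], 100472364, 823), (5, [(9, 6), (20, 8), (34, 6), (64, 6)], 101348950, 766), (3, [(6, 6), (10, 6), (21, 8), (40, 6), (64, 4)], 103987117, 699), (5, [(10, 6), (19, 6), (38, 6), (64, 4)], 108752965, 632), (3, [(5, 4), (10, 6), (21, 6), (36, 4), (64, 4)], 123173475, 564), (4, [(6, 4), (10, 4), (15, 4), (24, 4), (44, 4), (64, 2)], 152755917, 496), (3, [(6, 6), (10, 4), (22, 6), (38, 4), (54, 2)], 207259258, 430)]⟩)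
    (by decide +kernel) (by decide +kernel) h1 h2

theorem row65 {i : ℕ} (h1 : 920 ≤ i) (h2 : i < 935) : KP i :=
  row_sound (r := ⟨65, 920, 935, 21, 5, [(10, 8), (28, 10), (65, 8)], 527941, 893, [(5, [(10, 8), (28, 10), (65, 8)], 100528615, 831), (4, [(9, 8), (19, 8), (36, 6), (65, 6)], 101725674, 778), (3, [(6, 6), (10, 6), (22, 8), (40, 6), (65, 4)], 104125157, 711), (3, [(6, 6), (10, 4), (19, 6), (40, 6), (65, 4)], 110494115, 643), (4, [(10, 8), (21, 6), (36, 4), (65, 4)], 123864818, 572), (3, [(5, 4), (10, 6), (20, 6), (32, 4), (44, 2), (65, 2)], 152411975, 506), (3, [(5, 4), (10, 6), (22, 6), (38, 4), (56, 2)], 208101322, 437)]⟩)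
    (by decide +kernel) (by decide +kernel) h1 h2

theorem row66 {i : ℕ} (h1 : 935 ≤ i) (h2 : i < 951) : KP i :=
  row_sound (r := ⟨66, 935, 951, 19, 4, [(10, 10), (28, 10), (66, 8)], 590253, 905, [(3, [(9, 10), (18, 8), (38, 8), (66, 6)], 100465976, 863), (5, [(10, 8), (20, 8), (34, 6), (66, 6)], 101332695, 794), (4, [(10, 8), (22, 8), (42, 6), (66, 4)], 103612280, 724), (4, [(10, 8), (19, 6), (40, 6), (66, 4)], 109076428, 655), (4, [(10, 8), (18, 6), (28, 4), (48, 4), (66, 2)], 124166556, 585), (4, [(6, 4), (10, 4), (20, 6), (34, 4), (46, 2), (66, 2)], 148881466, 515), (4, [(6, 6), (10, 4), (22, 6), (40, 4), (58, 2)], 205282363, 447)]⟩)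
    (by decide +kernel) (by decide +kernel) h1 h2

theorem row67 {i : ℕ} (h1 : 951 ≤ i) (h2 : i < 966) : KP i :=
  row_sound (r := ⟨67, 951, 966, 21, 5, [(10, 10), (28, 10), (67, 8)], 661098, 921, [(4, [(8, 8), (14, 8), (28, 8), (67, 8)], 100595750, 872), (4, [(10, 8), (20, 8), (36, 6), (67, 6)], 101427914, 805), (4, [(10, 8), (18, 6), (32, 6), (67, 6)], 103877932, 734), (4, [(10, 8), (20, 6), (40, 6), (67, 4)], 109218428, 665), (4, [(10, 8), (19, 6), (28, 4), (48, 4), (67, 2)], 125167113, 593), (3, [(6, 6), (10, 4), (20, 6), (34, 4), (48, 2), (67, 2)], 150615906, 523), (3, [(5, 4), (10, 6), (22, 6), (40, 4), (60, 2)], 207491842, 453)]⟩)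
    (by decide +kernel) (by decide +kernel) h1 h2

theorem row68 {i : ℕ} (h1 : 966 ≤ i) (h2 : i < 980) : KP i :=
  row_sound (r := ⟨68, 966, 980, 21, 3, [(9, 10), (18, 8), (38, 8), (68, 6)], 573428, 940, [(5, [(10, 8), (18, 8), (38, 8), (68, 6)], 100505385, 884), (5, [(10, 8), (20, 8), (36, 6), (68, 6)], 101342590, 818), (3, [(6, 6), (10, 6), (22, 8), (44, 6), (68, 4)], 103902309, 747), (5, [(10, 6), (26, 8), (40, 4), (68, 4)], 109708939, 673), (3, [(6, 6), (10, 4), (19, 6), (30, 4), (50, 4), (68, 2)], 123902570, 603), (5, [(10, 6), (20, 6), (34, 4), (48, 2), (68, 2)], 150978193, 530), (4, [(9, 6), (18, 6), (30, 4), (42, 2), (60, 2)], 208650786, 461)]⟩)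
    (by decide +kernel) (by decide +kernel) h1 h2

theorem row69 {i : ℕ} (h1 : 980 ≤ i) (h2 : i < 994) : KP i :=
  row_sound (r := ⟨69, 980, 994, 21, 5, [(9, 6), (18, 8), (40, 8), (69, 6)], 653459, 956, [(4, [(9, 8), (19, 8), (40, 8), (69, 6)], 100550532, 900), (4, [(6, 6), (10, 6), (21, 8), (36, 6), (69, 6)], 101308241, 830), (5, [(10, 8), (22, 8), (44, 6), (69, 4)], 104083549, 755), (5, [(8, 4), (20, 8), (40, 6), (69, 4)], 110152661, 685), (3, [(6, 6), (10, 4), (19, 6), (30, 4), (52, 4), (69, 2)], 123795423, 613), (4, [(6, 4), (10, 4), (21, 6), (36, 4), (48, 2), (69, 2)], 149275773, 539), (5, [(9, 6), (18, 6), (30, 4), (42, 2), (60, 2)], 211451008, 468)]⟩)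
    (by decide +kernel) (by decide +kernel) h1 h2

theorem row70 {i : ℕ} (h1 : 994 ≤ i) (h2 : i < 1009) : KP i :=
  row_sound (r := ⟨70, 994, 1009, 19, 5, [(10, 8), (18, 8), (38, 8), (70, 6)], 653541, 964, [(4, [(6, 6), (10, 6), (19, 8), (40, 8), (70, 6)], 100465152, 918), (5, [(10, 8), (21, 8), (36, 6), (70, 6)], 101417378, 838), (4, [(6, 6), (10, 6), (18, 6), (34, 6), (70, 6)], 103862447, 769), (4, [(6, 6), (10, 6), (26, 8), (42, 4), (70, 4)], 109912056, 697), (4, [(10, 8), (19, 6), (30, 4), (52, 4), (70, 2)], 123065192, 623), (3, [(5, 4), (10, 6), (21, 6), (36, 4), (50, 2), (70, 2)], 148313819, 550), (4, [(6, 4), (9, 4), (19, 6), (32, 4), (42, 2), (60, 2)], 207446331, 477)]⟩)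
    (by decide +kernel) (by decide +kernel) h1 h2

theorem row71 {i : ℕ} (h1 : 1009 ≤ i) (h2 : i < 1023) : KP i :=
  row_sound (r := ⟨71, 1009, 1023, 21, 4, [(9, 8), (19, 8), (40, 8), (71, 6)], 641534, 980, [(5, [(10, 8), (19, 8), (40, 8), (71, 6)], 100473547, 926), (5, [(10, 8), (21, 8), (36, 6), (71, 6)], 101590706, 844), (5, [(10, 8), (24, 8), (44, 6), (71, 4)], 104169325, 779), (3, [(9, 8), (20, 8), (40, 6), (71, 4)], 110927299, 706), (4, [(10, 8), (20, 6), (30, 4), (52, 4), (71, 2)], 123984255, 631), (5, [(10, 6), (22, 6), (36, 4), (48, 2), (71, 2)], 152177616, 556), (3, [(6, 6), (10, 4), (15, 4), (24, 4), (42, 4), (60, 2)], 209509465, 482)]⟩)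
    (by decide +kernel) (by decide +kernel) h1 h2

theorem row72 {i : ℕ} (h1 : 1023 ≤ i) (h2 : i < 1037) : KP i :=
  row_sound (r := ⟨72, 1023, 1037, 19, 4, [(6, 6), (10, 6), (19, 8), (40, 8), (72, 6)], 572270, 999, [(5, [(10, 8), (20, 8), (40, 8), (72, 6)], 100504404, 940), (4, [(6, 6), (10, 6), (22, 8), (38, 6), (72, 6)], 101329237, 868), (4, [(6, 6), (10, 6), (24, 8), (46, 6), (72, 4)], 103779966, 793), (4, [(8, 8), (20, 8), (42, 6), (72, 4)], 110247909, 717), (3, [(6, 6), (10, 4), (20, 6), (32, 4), (54, 4), (72, 2)], 123692584, 641), (3, [(5, 4), (10, 6), (21, 6), (38, 4), (52, 2), (72, 2)], 150603190, 566), (3, [(6, 6), (9, 4), (19, 6), (32, 4), (44, 2), (64, 2)], 206473006, 491)]⟩)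
    (by decide +kernel) (by decide +kernel) h1 h2

theorem row73 {i : ℕ} (h1 : 1037 ≤ i) (h2 : i < 1051) : KP i :=
  row_sound (r := ⟨73, 1037, 1051, 19, 5, [(10, 8), (19, 8), (40, 8), (73, 6)], 598488, 1009, [(4, [(8, 8), (20, 10), (40, 8), (73, 6)], 100530292, 957), (4, [(10, 8), (22, 8), (40, 6), (73, 6)], 101507594, 881), (4, [(10, 8), (24, 8), (48, 6), (73, 4)], 104014498, 804), (5, [(10, 6), (19, 6), (28, 4), (44, 4), (73, 4)], 109984815, 728), (3, [(6, 6), (10, 4), (20, 6), (32, 4), (56, 4), (73, 2)], 124225801, 651), (3, [(5, 4), (10, 6), (22, 6), (38, 4), (52, 2), (73, 2)], 149488540, 574), (3, [(5, 4), (10, 6), (19, 6), (32, 4), (44, 2), (64, 2)], 207222265, 498)]⟩)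
    (by decide +kernel) (by decide +kernel) h1 h2

theorem row74 {i : ℕ} (h1 : 1051 ≤ i) (h2 : i < 1065) : KP i :=
  row_sound (r := ⟨74, 1051, 1065, 21, 5, [(10, 8), (20, 8), (40, 8), (74, 6)], 649264, 1024, [(5, [(10, 8), (20, 8), (42, 8), (74, 6)], 100472539, 968), (4, [(8, 8), (17, 8), (38, 8), (74, 6)], 101459486, 890), (4, [(6, 6), (10, 6), (24, 8), (48, 6), (74, 4)], 104100012, 813), (4, [(10, 8), (19, 6), (28, 4), (44, 4), (74, 4)], 110425305, 736), (5, [(10, 6), (20, 6), (32, 4), (56, 4), (74, 2)], 123407858, 658), (5, [(10, 6), (22, 6), (38, 4), (52, 2), (74, 2)], 151346942, 578), (4, [(9, 6), (19, 6), (34, 4), (46, 2), (66, 2)], 208724937, 503)]⟩)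
    (by decide +kernel) (by decide +kernel) h1 h2

theorem row75 {i : ℕ} (h1 : 1065 ≤ i) (h2 : i < 1080) : KP i :=
  row_sound (r := ⟨75, 1065, 1080, 21, 4, [(10, 10), (20, 8), (40, 8), (75, 6)], 735797, 1033, [(5, [(10, 8), (20, 8), (32, 6), (75, 8)], 100550722, 980), (5, [(10, 8), (22, 8), (40, 6), (75, 6)], 101478345, 900), (5, [(10, 8), (24, 8), (48, 6), (75, 4)], 104338379, 819), (4, [(8, 6), (15, 6), (28, 6), (44, 4), (75, 4)], 110664377, 745), (3, [(6, 6), (10, 6), (20, 6), (32, 4), (56, 4), (75, 2)], 124491617, 667), (4, [(6, 6), (10, 6), (22, 6), (38, 4), (52, 2), (75, 2)], 153759320, 588), (4, [(6, 4), (9, 4), (19, 6), (34, 4), (46, 2), (68, 2)], 210011067, 509)]⟩)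
    (by decide +kernel) (by decide +kernel) h1 h2

theorem row76 {i : ℕ} (h1 : 1080 ≤ i) (h2 : i < 1094) : KP i :=
  row_sound (r := ⟨76, 1080, 1094, 17, 5, [(10, 8), (20, 8), (42, 8), (76, 6)], 579032, 1054, [(5, [(10, 8), (20, 8), (44, 8), (76, 6)], 100508419, 996), (4, [(8, 8), (17, 8), (40, 8), (76, 6)], 101470235, 918), (4, [(8, 8), (19, 8), (36, 6), (76, 6)], 104269469, 836), (3, [(8, 8), (15, 6), (28, 6), (46, 4), (76, 4)], 110506507, 761), (4, [(10, 8), (21, 6), (34, 4), (56, 4), (76, 2)], 124138661, 679), (4, [(9, 6), (17, 6), (28, 4), (52, 4), (76, 2)], 151824499, 599), (5, [(10, 6), (20, 6), (34, 4), (46, 2), (66, 2)], 203192800, 522)]⟩)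
    (by decide +kernel) (by decide +kernel) h1 h2

theorem row77 {i : ℕ} (h1 : 1094 ≤ i) (h2 : i < 1108) : KP i :=
  row_sound (r := ⟨77, 1094, 1108, 21, 4, [(8, 8), (15, 8), (32, 8), (77, 8)], 718843, 1066, [(5, [(10, 8), (20, 8), (44, 8), (77, 6)], 100545609, 1002), (4, [(8, 8), (22, 10), (40, 6), (77, 6)], 101552948, 927), (4, [(8, 8), (24, 10), (48, 6), (77, 4)], 104597452, 846), (4, [(6, 4), (9, 4), (22, 8), (44, 6), (77, 4)], 110558909, 766), (4, [(9, 6), (16, 6), (32, 6), (56, 4), (77, 2)], 125375119, 686), (3, [(6, 6), (9, 4), (17, 6), (28, 4), (52, 4), (77, 2)], 153519711, 605), (3, [(6, 6), (10, 4), (20, 6), (34, 4), (48, 2), (68, 2)], 206334787, 525)]⟩)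
    (by decide +kernel) (by decide +kernel) h1 h2

theorem row78 {i : ℕ} (h1 : 1108 ≤ i) (h2 : i < 1122) : KP i :=
  row_sound (r := ⟨78, 1108, 1122, 19, 4, [(6, 6), (10, 6), (20, 8), (44, 8), (78, 6)], 628858, 1081, [(4, [(8, 8), (20, 10), (44, 8), (78, 6)], 100546980, 1019), (4, [(8, 8), (18, 8), (40, 8), (78, 6)], 101593532, 938), (4, [(8, 8), (19, 8), (38, 6), (78, 6)], 104539333, 860), (4, [(9, 8), (22, 8), (44, 6), (78, 4)], 110593932, 776), (5, [(10, 6), (21, 6), (34, 4), (60, 4), (78, 2)], 124708856, 696), (4, [(6, 4), (10, 4), (15, 4), (24, 4), (40, 4), (54, 2), (78, 2)], 152457896, 615), (5, [(10, 6), (20, 6), (34, 4), (48, 2), (70, 2)], 204843763, 534)]⟩)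
    (by decide +kernel) (by decide +kernel) h1 h2

theorem row79 {i : ℕ} (h1 : 1122 ≤ i) (h2 : i < 1136) : KP i :=
  row_sound (r := ⟨79, 1122, 1136, 21, 4, [(10, 10), (20, 8), (44, 8), (79, 6)], 633856, 1093, [(4, [(8, 8), (20, 10), (44, 8), (79, 6)], 100596616, 1025), (4, [(9, 8), (18, 8), (40, 8), (79, 6)], 101508665, 952), (5, [(9, 6), (20, 8), (36, 6), (79, 6)], 104659392, 868), (5, [(10, 6), (22, 8), (44, 6), (79, 4)], 111310447, 784), (4, [(10, 8), (21, 6), (34, 4), (60, 4), (79, 2)], 125613204, 701), (4, [(6, 4), (10, 4), (15, 4), (24, 4), (40, 4), (56, 2), (79, 2)], 153683452, 621), (3, [(6, 6), (10, 4), (21, 6), (36, 4), (48, 2), (68, 2)], 206254220, 539)]⟩)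
    (by decide +kernel) (by decide +kernel) h1 h2

theorem row80 {i : ℕ} (h1 : 1136 ≤ i) (h2 : i < 1151) : KP i :=
  row_sound (r := ⟨80, 1136, 1151, 21, 4, [(8, 8), (20, 10), (44, 8), (80, 6)], 652420, 1109, [(4, [(9, 8), (16, 8), (34, 8), (80, 8)], 100600148, 1048), (3, [(9, 10), (18, 8), (40, 8), (80, 6)], 101640116, 963), (4, [(9, 8), (19, 8), (38, 6), (80, 6)], 104624754, 880), (4, [(9, 8), (22, 8), (46, 6), (80, 4)], 110308445, 796), (4, [(8, 6), (21, 8), (34, 4), (58, 4), (80, 2)], 125904367, 710), (4, [(9, 6), (18, 6), (30, 4), (54, 4), (80, 2)], 151667764, 629), (4, [(6, 4), (10, 4), (21, 6), (36, 4), (50, 2), (70, 2)], 205670527, 545)]⟩)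
    (by decide +kernel) (by decide +kernel) h1 h2

theorem row81 {i : ℕ} (h1 : 1151 ≤ i) (h2 : i < 1165) : KP i :=
  row_sound (r := ⟨81, 1151, 1165, 19, 4, [(8, 10), (20, 10), (44, 8), (81, 6)], 708110, 1122, [(5, [(9, 6), (22, 10), (44, 8), (81, 6)], 100625544, 1064), (3, [(9, 10), (19, 8), (40, 8), (81, 6)], 101767875, 977), (4, [(8, 8), (18, 8), (34, 6), (52, 4), (81, 4)], 104842666, 892), (3, [(6, 6), (9, 4), (22, 8), (48, 6), (81, 4)], 110831118, 808), (3, [(8, 8), (21, 8), (34, 4), (60, 4), (81, 2)], 125508299, 724), (4, [(9, 6), (18, 6), (30, 4), (56, 4), (81, 2)], 151413854, 639), (3, [(5, 4), (10, 6), (21, 6), (36, 4), (50, 2), (72, 2)], 203916127, 554)]⟩)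
    (by decide +kernel) (by decide +kernel) h1 h2

theorem tabC {i : ℕ} (h1 : 796 ≤ i) (h2 : i < 1165) : KP i := by
  rcases lt_or_ge i 811 with g0 | g0
  · exact row57 h1 g0
  rcases lt_or_ge i 826 with g1 | g1
  · exact row58 g0 g1
  rcases lt_or_ge i 842 with g2 | g2
  · exact row59 g1 g2
  rcases lt_or_ge i 857 with g3 | g3
  · exact row60 g2 g3
  rcases lt_or_ge i 873 with g4 | g4
  · exact row61 g3 g4
  rcases lt_or_ge i 888 with g5 | g5
  · exact row62 g4 g5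
  rcases lt_or_ge i 904 with g6 | g6
  · exact row63 g5 g6
  rcases lt_or_ge i 920 with g7 | g7
  · exact row64 g6 g7
  rcases lt_or_ge i 935 with g8 | g8
  · exact row65 g7 g8
  rcases lt_or_ge i 951 with g9 | g9
  · exact row66 g8 g9
  rcases lt_or_ge i 966 with g10 | g10
  · exact row67 g9 g10
  rcases lt_or_ge i 980 with g11 | g11
  · exact row68 g10 g11
  rcases lt_or_ge i 994 with g12 | g12
  · exact row69 g11 g12
  rcases lt_or_ge i 1009 with g13 | g13
  · exact row70 g12 g13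
  rcases lt_or_ge i 1023 with g14 | g14
  · exact row71 g13 g14
  rcases lt_or_ge i 1037 with g15 | g15
  · exact row72 g14 g15
  rcases lt_or_ge i 1051 with g16 | g16
  · exact row73 g15 g16
  rcases lt_or_ge i 1065 with g17 | g17
  · exact row74 g16 g17
  rcases lt_or_ge i 1080 with g18 | g18
  · exact row75 g17 g18
  rcases lt_or_ge i 1094 with g19 | g19
  · exact row76 g18 g19
  rcases lt_or_ge i 1108 with g20 | g20
  · exact row77 g19 g20
  rcases lt_or_ge i 1122 with g21 | g21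
  · exact row78 g20 g21
  rcases lt_or_ge i 1136 with g22 | g22
  · exact row79 g21 g22
  rcases lt_or_ge i 1151 with g23 | g23
  · exact row80 g22 g23
  exact row81 g23 h2

end Pool.Agent.H91.Gold
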