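import Mathlib
import Pool.Agent.H91.GoldKP

/-!
Finite table, part D.
-/

namespace Pool.Agent.H91.Gold

theorem row82 {i : ℕ} (h1 : 1165 ≤ i) (h2 : i < 1179) : KP i :=
  row_sound (r := ⟨82, 1165, 1179, 17, 5, [(10, 8), (26, 10), (46, 6), (82, 6)], 730585, 1135, [(4, [(8, 8), (22, 10), (46, 8), (82, 6)], 100544563, 1079), (3, [(9, 10), (18, 8), (42, 8), (82, 6)], 101535226, 991), (5, [(9, 6), (21, 8), (38, 6), (82, 6)], 104252483, 906), (5, [(9, 6), (16, 6), (30, 6), (48, 4), (82, 4)], 110140452, 820), (3, [(6, 6), (9, 4), (17, 6), (34, 6), (60, 4), (82, 2)], 124109415, 734), (5, [(9, 6), (18, 6), (30, 4), (56, 4), (82, 2)], 151894373, 649), (4, [(6, 4), (10, 4), (21, 6), (36, 4), (52, 2), (77, 2)], 204197210, 563)]⟩)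
    (by decide +kernel) (by decide +kernel) h1 h2

theorem row83 {i : ℕ} (h1 : 1179 ≤ i) (h2 : i < 1193) : KP i :=
  row_sound (r := ⟨83, 1179, 1193, 19, 4, [(6, 6), (10, 6), (21, 8), (36, 6), (83, 8)], 763099, 1154, [(4, [(8, 8), (17, 8), (36, 8), (83, 8)], 100615641, 1088), (4, [(8, 8), (18, 8), (44, 8), (83, 6)], 101838820, 1000), (5, [(9, 6), (20, 8), (40, 6), (83, 6)], 104334482, 916), (4, [(9, 8), (16, 6), (30, 6), (48, 4), (83, 4)], 110816152, 826), (4, [(9, 8), (17, 6), (34, 6), (60, 4), (83, 2)], 125014229, 741), (4, [(6, 4), (10, 4), (19, 6), (30, 4), (56, 4), (83, 2)], 152287327, 655), (4, [(6, 4), (10, 4), (21, 6), (38, 4), (52, 2), (76, 2)], 204627514, 569)]⟩)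
    (by decide +kernel) (by decide +kernel) h1 h2

theorem row84 {i : ℕ} (h1 : 1193 ≤ i) (h2 : i < 1207) : KP i :=
  row_sound (r := ⟨84, 1193, 1207, 21, 4, [(6, 6), (10, 6), (28, 10), (46, 6), (84, 6)], 749725, 1166, [(4, [(9, 8), (22, 10), (46, 8), (84, 6)], 100582446, 1099), (4, [(9, 8), (24, 10), (42, 6), (84, 6)], 101724227, 1009), (4, [(9, 8), (20, 8), (40, 6), (84, 6)], 104567260, 924), (5, [(9, 6), (16, 6), (30, 6), (50, 4), (84, 4)], 111042375, 836), (4, [(6, 4), (9, 4), (17, 6), (36, 6), (60, 4), (84, 2)], 125683381, 749), (4, [(9, 6), (19, 6), (32, 4), (56, 4), (84, 2)], 154130459, 659), (3, [(5, 4), (10, 6), (21, 6), (38, 4), (52, 2), (76, 2)], 206641031, 574)]⟩)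
    (by decide +kernel) (by decide +kernel) h1 h2

theorem row85 {i : ℕ} (h1 : 1207 ≤ i) (h2 : i < 1222) : KP i :=
  row_sound (r := ⟨85, 1207, 1222, 19, 5, [(10, 8), (22, 8), (48, 8), (85, 6)], 738344, 1181, [(3, [(9, 10), (17, 8), (36, 8), (85, 8)], 100565365, 1117), (4, [(9, 8), (24, 10), (44, 6), (85, 6)], 101568991, 1027), (4, [(9, 8), (21, 8), (40, 6), (85, 6)], 104212212, 938), (5, [(10, 6), (24, 8), (48, 6), (85, 4)], 110360564, 848), (5, [(10, 6), (17, 6), (36, 6), (60, 4), (85, 2)], 125783071, 761), (4, [(6, 6), (10, 4), (20, 6), (34, 4), (44, 2), (60, 2), (85, 2)], 153631148, 671), (5, [(10, 6), (22, 6), (38, 4), (52, 2), (76, 2)], 205456444, 582)]⟩)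
    (by decide +kernel) (by decide +kernel) h1 h2

theorem row86 {i : ℕ} (h1 : 1222 ≤ i) (h2 : i < 1236) : KP i :=
  row_sound (r := ⟨86, 1222, 1236, 19, 4, [(9, 8), (22, 10), (46, 8), (86, 6)], 717251, 1194, [(4, [(9, 8), (22, 10), (48, 8), (86, 6)], 100569384, 1127), (5, [(9, 6), (20, 8), (44, 8), (86, 6)], 101557578, 1040), (5, [(10, 6), (21, 8), (40, 6), (86, 6)], 104486433, 947), (5, [(9, 6), (24, 8), (50, 6), (86, 4)], 110753308, 859), (3, [(6, 6), (9, 4), (17, 6), (36, 6), (64, 4), (86, 2)], 124699001, 770), (3, [(6, 6), (10, 4), (19, 6), (32, 4), (58, 4), (86, 2)], 151589816, 679), (5, [(10, 6), (22, 6), (38, 4), (54, 2), (78, 2)], 205290042, 590)]⟩)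
    (by decide +kernel) (by decide +kernel) h1 h2

theorem row87 {i : ℕ} (h1 : 1236 ≤ i) (h2 : i < 1250) : KP i :=
  row_sound (r := ⟨87, 1236, 1250, 21, 4, [(8, 8), (22, 10), (48, 8), (87, 6)], 684567, 1210, [(3, [(9, 10), (22, 10), (48, 8), (87, 6)], 100578905, 1139), (4, [(9, 8), (20, 8), (44, 8), (87, 6)], 101652118, 1048), (4, [(10, 8), (21, 8), (40, 6), (87, 6)], 104667060, 957), (5, [(9, 6), (16, 6), (32, 6), (52, 4), (87, 4)], 110800576, 868), (4, [(6, 4), (9, 4), (18, 6), (36, 6), (64, 4), (87, 2)], 125291914, 777), (3, [(6, 6), (9, 4), (19, 6), (32, 4), (60, 4), (87, 2)], 153411101, 685), (5, [(10, 6), (22, 6), (38, 4), (54, 2), (80, 2)], 207810172, 594)]⟩)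
    (by decide +kernel) (by decide +kernel) h1 h2

theorem row88 {i : ℕ} (h1 : 1250 ≤ i) (h2 : i < 1264) : KP i :=
  row_sound (r := ⟨88, 1250, 1264, 21, 4, [(9, 8), (22, 10), (48, 8), (88, 6)], 672502, 1224, [(5, [(10, 8), (22, 10), (48, 8), (88, 6)], 100602860, 1154), (4, [(10, 8), (20, 8), (44, 8), (88, 6)], 101725942, 1061), (4, [(10, 8), (16, 6), (28, 6), (54, 6), (88, 4)], 104747735, 968), (4, [(10, 8), (24, 8), (50, 6), (88, 4)], 110642654, 876), (4, [(9, 8), (18, 6), (36, 6), (64, 4), (88, 2)], 125662520, 785), (5, [(10, 6), (20, 6), (32, 4), (58, 4), (88, 2)], 152356575, 694), (4, [(6, 4), (10, 4), (22, 6), (40, 4), (56, 2), (82, 2)], 207063802, 603)]⟩)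
    (by decide +kernel) (by decide +kernel) h1 h2

theorem row89 {i : ℕ} (h1 : 1264 ≤ i) (h2 : i < 1278) : KP i :=
  row_sound (r := ⟨89, 1264, 1278, 21, 3, [(9, 10), (22, 10), (48, 8), (89, 6)], 695654, 1237, [(5, [(10, 8), (22, 10), (48, 8), (89, 6)], 100665359, 1160), (5, [(10, 8), (20, 8), (44, 8), (89, 6)], 101694605, 1074), (5, [(10, 6), (16, 6), (28, 6), (56, 6), (89, 4)], 104714609, 981), (5, [(10, 6), (24, 8), (52, 6), (89, 4)], 110442459, 888), (4, [(10, 8), (18, 6), (36, 6), (64, 4), (89, 2)], 125372534, 794), (4, [(6, 6), (10, 4), (20, 6), (32, 4), (60, 4), (89, 2)], 153793569, 701), (3, [(5, 4), (10, 6), (22, 6), (40, 4), (56, 2), (83, 2)], 207874234, 610)]⟩)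
    (by decide +kernel) (by decide +kernel) h1 h2

theorem row90 {i : ℕ} (h1 : 1278 ≤ i) (h2 : i < 1293) : KP i :=
  row_sound (r := ⟨90, 1278, 1293, 21, 4, [(9, 10), (22, 10), (48, 8), (90, 6)], 752244, 1247, [(3, [(9, 10), (18, 8), (38, 8), (90, 8)], 100596750, 1181), (3, [(9, 10), (20, 8), (46, 8), (90, 6)], 101633696, 1087), (5, [(10, 6), (22, 8), (42, 6), (90, 6)], 104448776, 991), (3, [(6, 6), (10, 6), (24, 8), (52, 6), (90, 4)], 110835210, 899), (5, [(10, 6), (18, 6), (38, 6), (64, 4), (90, 2)], 124888800, 805), (4, [(6, 6), (10, 4), (20, 6), (34, 4), (60, 4), (90, 2)], 152634501, 711), (3, [(6, 6), (9, 4), (18, 6), (30, 4), (52, 4), (76, 2)], 208569894, 617)]⟩)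
    (by decide +kernel) (by decide +kernel) h1 h2

theorem row91 {i : ℕ} (h1 : 1293 ≤ i) (h2 : i < 1307) : KP i :=
  row_sound (r := ⟨91, 1293, 1307, 21, 4, [(10, 10), (22, 10), (48, 8), (91, 6)], 809953, 1263, [(5, [(10, 8), (24, 10), (48, 8), (91, 6)], 100702004, 1192), (4, [(7, 6), (15, 8), (26, 6), (48, 6), (91, 6)], 101997008, 1099), (5, [(9, 6), (22, 8), (44, 6), (91, 6)], 104687344, 1004), (5, [(10, 6), (17, 6), (34, 6), (52, 4), (91, 4)], 111249680, 908), (5, [(10, 6), (19, 6), (38, 6), (64, 4), (91, 2)], 125264987, 813), (4, [(10, 8), (20, 6), (34, 4), (60, 4), (91, 2)], 153114907, 719), (4, [(6, 4), (9, 4), (18, 6), (30, 4), (54, 4), (76, 2)], 208454832, 624)]⟩)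
    (by decide +kernel) (by decide +kernel) h1 h2

theorem row92 {i : ℕ} (h1 : 1307 ≤ i) (h2 : i < 1321) : KP i :=
  row_sound (r := ⟨92, 1307, 1321, 19, 5, [(9, 8), (22, 10), (50, 8), (92, 6)], 753374, 1276, [(3, [(9, 10), (24, 10), (50, 8), (92, 6)], 100622867, 1205), (4, [(9, 8), (26, 10), (48, 6), (92, 6)], 101645992, 1113), (5, [(10, 6), (22, 8), (44, 6), (92, 6)], 104548639, 1015), (5, [(10, 6), (17, 6), (34, 6), (54, 4), (92, 4)], 110577594, 920), (5, [(10, 6), (19, 6), (38, 6), (66, 4), (92, 2)], 124252496, 823), (4, [(10, 8), (20, 6), (34, 4), (62, 4), (92, 2)], 151124274, 729), (3, [(6, 6), (9, 4), (18, 6), (30, 4), (54, 4), (80, 2)], 206533528, 633)]⟩)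
    (by decide +kernel) (by decide +kernel) h1 h2

theorem row93 {i : ℕ} (h1 : 1321 ≤ i) (h2 : i < 1335) : KP i :=
  row_sound (r := ⟨93, 1321, 1335, 19, 4, [(9, 8), (22, 10), (52, 8), (93, 6)], 854694, 1291, [(4, [(9, 8), (24, 10), (52, 8), (93, 6)], 100592251, 1221), (3, [(9, 10), (26, 10), (48, 6), (93, 6)], 101705082, 1124), (3, [(6, 6), (10, 6), (22, 8), (44, 6), (93, 6)], 104554640, 1028), (5, [(9, 6), (22, 8), (34, 4), (56, 4), (93, 4)], 111259334, 931), (5, [(10, 6), (19, 6), (38, 6), (68, 4), (93, 2)], 124306067, 833), (5, [(10, 6), (20, 6), (34, 4), (64, 4), (93, 2)], 151380718, 736), (4, [(6, 4), (9, 4), (18, 6), (30, 4), (56, 4), (80, 2)], 207570506, 640)]⟩)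
    (by decide +kernel) (by decide +kernel) h1 h2

theorem row94 {i : ℕ} (h1 : 1335 ≤ i) (h2 : i < 1350) : KP i :=
  row_sound (r := ⟨94, 1335, 1350, 21, 3, [(9, 10), (24, 10), (50, 8), (94, 6)], 751324, 1308, [(3, [(9, 10), (24, 10), (52, 8), (94, 6)], 100595598, 1233), (4, [(6, 6), (10, 6), (20, 8), (48, 8), (94, 6)], 101684157, 1134), (3, [(6, 6), (10, 6), (17, 6), (30, 6), (58, 6), (94, 4)], 104658246, 1037), (4, [(10, 8), (18, 6), (34, 6), (54, 4), (94, 4)], 110790403, 937), (4, [(10, 8), (19, 6), (38, 6), (68, 4), (94, 2)], 125453414, 838), (3, [(5, 4), (10, 6), (21, 6), (34, 4), (64, 4), (94, 2)], 152503664, 743), (3, [(6, 6), (9, 4), (18, 6), (30, 4), (56, 4), (82, 2)], 208611405, 645)]⟩)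
    (by decide +kernel) (by decide +kernel) h1 h2

theorem row95 {i : ℕ} (h1 : 1350 ≤ i) (h2 : i < 1364) : KP i :=
  row_sound (r := ⟨95, 1350, 1364, 21, 5, [(9, 6), (24, 10), (52, 8), (95, 6)], 721703, 1324, [(4, [(6, 6), (10, 6), (24, 10), (52, 8), (95, 6)], 100605281, 1245), (5, [(10, 8), (20, 8), (48, 8), (95, 6)], 101764046, 1142), (5, [(10, 6), (24, 8), (44, 6), (95, 6)], 104679774, 1049), (4, [(10, 8), (18, 6), (34, 6), (56, 4), (95, 4)], 110663940, 949), (5, [(10, 6), (19, 6), (40, 6), (68, 4), (95, 2)], 124619544, 849), (4, [(6, 6), (10, 4), (21, 6), (36, 4), (64, 4), (95, 2)], 152917072, 751), (4, [(9, 6), (19, 6), (32, 4), (56, 4), (80, 2)], 209158641, 651)]⟩)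
    (by decide +kernel) (by decide +kernel) h1 h2

theorem row96 {i : ℕ} (h1 : 1364 ≤ i) (h2 : i < 1378) : KP i :=
  row_sound (r := ⟨96, 1364, 1378, 21, 3, [(9, 10), (24, 10), (52, 8), (96, 6)], 696025, 1338, [(5, [(10, 8), (24, 10), (52, 8), (96, 6)], 100617508, 1254), (3, [(6, 6), (10, 6), (22, 8), (48, 8), (96, 6)], 101793801, 1160), (4, [(6, 6), (10, 6), (17, 6), (30, 6), (60, 6), (96, 4)], 104649926, 1059), (4, [(10, 8), (26, 8), (56, 6), (96, 4)], 110961198, 960), (5, [(10, 6), (19, 6), (40, 6), (70, 4), (96, 2)], 124166173, 859), (3, [(6, 6), (10, 4), (21, 6), (36, 4), (66, 4), (96, 2)], 152066815, 759), (3, [(6, 6), (9, 4), (19, 6), (32, 4), (56, 4), (82, 2)], 208477785, 659)]⟩)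
    (by decide +kernel) (by decide +kernel) h1 h2

theorem row97 {i : ℕ} (h1 : 1378 ≤ i) (h2 : i < 1392) : KP i :=
  row_sound (r := ⟨97, 1378, 1392, 21, 4, [(6, 6), (10, 6), (24, 10), (52, 8), (97, 6)], 717726, 1352, [(5, [(10, 8), (19, 8), (40, 8), (97, 8)], 100638642, 1271), (5, [(10, 8), (22, 8), (48, 8), (97, 6)], 101801090, 1170), (4, [(8, 8), (17, 8), (30, 6), (60, 6), (97, 4)], 104712535, 1071), (4, [(10, 8), (18, 6), (36, 6), (56, 4), (97, 4)], 110863879, 969), (5, [(10, 6), (19, 6), (40, 6), (72, 4), (97, 2)], 124629664, 869), (4, [(6, 4), (10, 4), (21, 6), (36, 4), (68, 4), (97, 2)], 153203078, 767), (4, [(9, 6), (19, 6), (32, 4), (58, 4), (84, 2)], 207011169, 667)]⟩)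
    (by decide +kernel) (by decide +kernel) h1 h2

theorem row98 {i : ℕ} (h1 : 1392 ≤ i) (h2 : i < 1406) : KP i :=
  row_sound (r := ⟨98, 1392, 1406, 19, 4, [(9, 8), (24, 10), (54, 8), (98, 6)], 740599, 1362, [(5, [(10, 8), (24, 10), (54, 8), (98, 6)], 100623039, 1282), (4, [(10, 8), (22, 8), (50, 8), (98, 6)], 101713054, 1185), (4, [(10, 8), (24, 8), (46, 6), (98, 6)], 104511373, 1083), (4, [(10, 8), (18, 6), (36, 6), (58, 4), (98, 4)], 110531690, 981), (4, [(10, 8), (20, 6), (40, 6), (72, 4), (98, 2)], 124931864, 880), (5, [(10, 6), (21, 6), (36, 4), (68, 4), (98, 2)], 152351938, 776), (4, [(6, 4), (10, 4), (20, 6), (32, 4), (58, 4), (82, 2)], 206038685, 675)]⟩)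
    (by decide +kernel) (by decide +kernel) h1 h2

theorem row99 {i : ℕ} (h1 : 1406 ≤ i) (h2 : i < 1421) : KP i :=
  row_sound (r := ⟨99, 1406, 1421, 21, 4, [(10, 10), (24, 10), (52, 8), (99, 6)], 813833, 1371, [(5, [(10, 8), (20, 8), (40, 8), (99, 8)], 100731700, 1295), (5, [(10, 8), (28, 10), (48, 6), (99, 6)], 102080549, 1190), (5, [(10, 8), (30, 10), (60, 6), (99, 4)], 105082296, 1089), (5, [(10, 6), (18, 6), (36, 6), (60, 4), (99, 4)], 111117562, 990), (3, [(6, 6), (10, 4), (20, 6), (42, 6), (72, 4), (99, 2)], 125829085, 886), (3, [(9, 8), (18, 6), (28, 4), (50, 4), (68, 2), (99, 2)], 153113234, 784), (3, [(6, 6), (10, 4), (20, 6), (32, 4), (58, 4), (84, 2)], 206399723, 681)]⟩)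
    (by decide +kernel) (by decide +kernel) h1 h2

theorem row100 {i : ℕ} (h1 : 1421 ≤ i) (h2 : i < 1435) : KP i :=
  row_sound (r := ⟨100, 1421, 1435, 21, 5, [(10, 8), (24, 10), (54, 8), (100, 6)], 722097, 1391, [(4, [(6, 6), (10, 6), (26, 10), (54, 8), (100, 6)], 100647071, 1311), (5, [(10, 8), (28, 10), (50, 6), (100, 6)], 101735834, 1208), (5, [(10, 6), (24, 8), (48, 6), (100, 6)], 104815099, 1103), (4, [(6, 6), (10, 6), (19, 6), (36, 6), (58, 4), (100, 4)], 111010225, 1000), (5, [(10, 6), (26, 8), (42, 4), (72, 4), (100, 2)], 124769836, 896), (5, [(9, 6), (18, 6), (28, 4), (50, 4), (70, 2), (100, 2)], 153257465, 792), (5, [(10, 6), (20, 6), (32, 4), (58, 4), (84, 2)], 207102355, 686)]⟩)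
    (by decide +kernel) (by decide +kernel) h1 h2

theorem row101 {i : ℕ} (h1 : 1435 ≤ i) (h2 : i < 1449) : KP i :=
  row_sound (r := ⟨101, 1435, 1449, 21, 5, [(9, 8), (24, 10), (56, 8), (101, 6)], 796342, 1407, [(5, [(10, 8), (24, 10), (56, 8), (101, 6)], 100731572, 1316), (4, [(10, 8), (22, 8), (52, 8), (101, 6)], 101791655, 1219), (4, [(10, 8), (22, 8), (42, 6), (64, 4), (101, 4)], 104814548, 1115), (3, [(6, 6), (10, 6), (19, 6), (36, 6), (60, 4), (101, 4)], 111275329, 1010), (3, [(6, 6), (10, 6), (26, 8), (42, 4), (72, 4), (101, 2)], 125886969, 905), (3, [(6, 6), (9, 4), (19, 6), (30, 4), (50, 4), (68, 2), (101, 2)], 153985046, 800), (4, [(6, 4), (10, 4), (20, 6), (32, 4), (60, 4), (88, 2)], 207001619, 695)]⟩)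
    (by decide +kernel) (by decide +kernel) h1 h2

theorem tabD {i : ℕ} (h1 : 1165 ≤ i) (h2 : i < 1449) : KP i := by
  rcases lt_or_ge i 1179 with g0 | g0
  · exact row82 h1 g0
  rcases lt_or_ge i 1193 with g1 | g1
  · exact row83 g0 g1
  rcases lt_or_ge i 1207 with g2 | g2
  · exact row84 g1 g2
  rcases lt_or_ge i 1222 with g3 | g3
  · exact row85 g2 g3
  rcases lt_or_ge i 1236 with g4 | g4
  · exact row86 g3 g4
  rcases lt_or_ge i 1250 with g5 | g5
  · exact row87 g4 g5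
  rcases lt_or_ge i 1264 with g6 | g6
  · exact row88 g5 g6
  rcases lt_or_ge i 1278 with g7 | g7
  · exact row89 g6 g7
  rcases lt_or_ge i 1293 with g8 | g8
  · exact row90 g7 g8
  rcases lt_or_ge i 1307 with g9 | g9
  · exact row91 g8 g9
  rcases lt_or_ge i 1321 with g10 | g10
  · exact row92 g9 g10
  rcases lt_or_ge i 1335 with g11 | g11
  · exact row93 g10 g11
  rcases lt_or_ge i 1350 with g12 | g12
  · exact row94 g11 g12
  rcases lt_or_ge i 1364 with g13 | g13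
  · exact row95 g12 g13
  rcases lt_or_ge i 1378 with g14 | g14
  · exact row96 g13 g14
  rcases lt_or_ge i 1392 with g15 | g15
  · exact row97 g14 g15
  rcases lt_or_ge i 1406 with g16 | g16
  · exact row98 g15 g16
  rcases lt_or_ge i 1421 with g17 | g17
  · exact row99 g16 g17
  rcases lt_or_ge i 1435 with g18 | g18
  · exact row100 g17 g18
  exact row101 g18 h2

end Pool.Agent.H91.Gold
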