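import Mathlib
import Pool.Agent.H91.GoldKP

/-!
Finite table, part E.
-/

namespace Pool.Agent.H91.Gold

theorem row102 {i : ℕ} (h1 : 1449 ≤ i) (h2 : i < 1463) : KP i :=
  row_sound (r := ⟨102, 1449, 1463, 19, 5, [(10, 8), (24, 10), (56, 8), (102, 6)], 772232, 1421, [(4, [(6, 6), (10, 6), (26, 10), (56, 8), (102, 6)], 100610346, 1339), (5, [(10, 8), (22, 8), (52, 8), (102, 6)], 101693232, 1232), (5, [(10, 8), (18, 6), (32, 6), (64, 6), (102, 4)], 104815855, 1127), (5, [(10, 6), (19, 6), (38, 6), (60, 4), (102, 4)], 110862657, 1020), (5, [(10, 6), (26, 8), (42, 4), (76, 4), (102, 2)], 125182785, 916), (3, [(6, 6), (10, 4), (19, 6), (30, 4), (50, 4), (70, 2), (102, 2)], 152163896, 810), (4, [(6, 4), (10, 4), (20, 6), (34, 4), (60, 4), (88, 2)], 205437623, 703)]⟩)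
    (by decide +kernel) (by decide +kernel) h1 h2

theorem row103 {i : ℕ} (h1 : 1463 ≤ i) (h2 : i < 1477) : KP i :=
  row_sound (r := ⟨103, 1463, 1477, 21, 4, [(10, 10), (24, 10), (56, 8), (103, 6)], 815790, 1431, [(5, [(10, 8), (26, 10), (56, 8), (103, 6)], 100615760, 1348), (5, [(10, 8), (22, 8), (52, 8), (103, 6)], 101804002, 1238), (3, [(8, 8), (18, 8), (32, 6), (64, 6), (103, 4)], 104787571, 1137), (3, [(6, 6), (10, 6), (19, 6), (38, 6), (60, 4), (103, 4)], 111116720, 1030), (4, [(10, 8), (26, 8), (42, 4), (76, 4), (103, 2)], 126021724, 921), (4, [(9, 6), (19, 6), (30, 4), (52, 4), (72, 2), (103, 2)], 152864411, 816), (4, [(6, 4), (10, 4), (21, 6), (34, 4), (60, 4), (88, 2)], 206426264, 709)]⟩)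
    (by decide +kernel) (by decide +kernel) h1 h2

theorem row104 {i : ℕ} (h1 : 1477 ≤ i) (h2 : i < 1492) : KP i :=
  row_sound (r := ⟨104, 1477, 1492, 21, 4, [(6, 6), (10, 6), (26, 10), (56, 8), (104, 6)], 707912, 1453, [(5, [(10, 8), (26, 10), (56, 8), (104, 6)], 100667773, 1354), (3, [(8, 8), (22, 10), (52, 8), (104, 6)], 101880581, 1257), (5, [(9, 6), (18, 8), (32, 6), (64, 6), (104, 4)], 104764247, 1149), (4, [(10, 8), (19, 6), (38, 6), (62, 4), (104, 4)], 111109286, 1039), (4, [(10, 8), (20, 6), (44, 6), (76, 4), (104, 2)], 125627944, 932), (4, [(6, 4), (10, 4), (19, 6), (30, 4), (52, 4), (72, 2), (104, 2)], 151768131, 824), (4, [(6, 4), (10, 4), (20, 6), (34, 4), (62, 4), (90, 2)], 206240313, 715)]⟩)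
    (by decide +kernel) (by decide +kernel) h1 h2

theorem row105 {i : ℕ} (h1 : 1492 ≤ i) (h2 : i < 1506) : KP i :=
  row_sound (r := ⟨105, 1492, 1506, 19, 5, [(10, 8), (26, 10), (56, 8), (105, 6)], 724068, 1462, [(5, [(10, 8), (20, 8), (44, 8), (105, 8)], 100678577, 1375), (4, [(8, 8), (22, 10), (52, 8), (105, 6)], 101910783, 1265), (5, [(9, 6), (19, 8), (32, 6), (64, 6), (105, 4)], 104856475, 1161), (4, [(8, 6), (20, 8), (38, 6), (60, 4), (105, 4)], 111299950, 1053), (5, [(10, 6), (18, 6), (28, 4), (44, 4), (76, 4), (105, 2)], 125489522, 943), (5, [(10, 6), (19, 6), (30, 4), (52, 4), (72, 2), (105, 2)], 150921881, 833), (5, [(10, 6), (20, 6), (34, 4), (62, 4), (92, 2)], 204191358, 726)]⟩)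
    (by decide +kernel) (by decide +kernel) h1 h2

theorem row106 {i : ℕ} (h1 : 1506 ≤ i) (h2 : i < 1520) : KP i :=
  row_sound (r := ⟨106, 1506, 1520, 21, 4, [(10, 10), (26, 10), (56, 8), (106, 6)], 784196, 1472, [(5, [(10, 8), (26, 10), (58, 8), (106, 6)], 100656483, 1382), (5, [(10, 8), (22, 8), (54, 8), (106, 6)], 101956329, 1272), (4, [(9, 8), (18, 8), (32, 6), (66, 6), (106, 4)], 104957430, 1171), (3, [(8, 8), (19, 8), (38, 6), (62, 4), (106, 4)], 111140616, 1061), (5, [(10, 6), (19, 6), (28, 4), (44, 4), (76, 4), (106, 2)], 125586013, 951), (5, [(10, 6), (19, 6), (30, 4), (52, 4), (74, 2), (106, 2)], 152115746, 839), (3, [(5, 4), (10, 6), (21, 6), (34, 4), (62, 4), (92, 2)], 206188146, 731)]⟩)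
    (by decide +kernel) (by decide +kernel) h1 h2

theorem row107 {i : ℕ} (h1 : 1520 ≤ i) (h2 : i < 1534) : KP i :=
  row_sound (r := ⟨107, 1520, 1534, 21, 5, [(10, 8), (20, 8), (44, 8), (107, 8)], 766242, 1494, [(5, [(10, 8), (26, 10), (60, 8), (107, 6)], 100663673, 1404), (3, [(9, 10), (22, 10), (52, 8), (107, 6)], 102106568, 1291), (4, [(6, 6), (10, 6), (18, 6), (34, 6), (68, 6), (107, 4)], 105089912, 1181), (4, [(10, 8), (19, 6), (40, 6), (64, 4), (107, 4)], 111779741, 1071), (3, [(6, 6), (10, 6), (19, 6), (28, 4), (44, 4), (76, 4), (107, 2)], 126655970, 960), (3, [(6, 6), (10, 4), (19, 6), (30, 4), (54, 4), (76, 2), (107, 2)], 153357461, 848), (4, [(6, 4), (10, 4), (21, 6), (36, 4), (48, 2), (68, 2), (101, 2)], 207850851, 738)]⟩)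
    (by decide +kernel) (by decide +kernel) h1 h2

theorem row108 {i : ℕ} (h1 : 1534 ≤ i) (h2 : i < 1548) : KP i :=
  row_sound (r := ⟨108, 1534, 1548, 21, 4, [(10, 10), (26, 10), (58, 8), (108, 6)], 749239, 1502, [(5, [(10, 8), (26, 10), (60, 8), (108, 6)], 100697643, 1410), (5, [(10, 8), (30, 10), (54, 6), (108, 6)], 101959448, 1300), (3, [(8, 8), (18, 8), (34, 6), (68, 6), (108, 4)], 104971593, 1193), (4, [(9, 8), (19, 8), (38, 6), (62, 4), (108, 4)], 111597544, 1080), (4, [(10, 8), (18, 6), (28, 4), (46, 4), (78, 4), (108, 2)], 126178985, 969), (5, [(10, 6), (19, 6), (30, 4), (54, 4), (76, 2), (108, 2)], 152560257, 855), (4, [(6, 4), (10, 4), (21, 6), (36, 4), (64, 4), (94, 2)], 206034842, 745)]⟩)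
    (by decide +kernel) (by decide +kernel) h1 h2

theorem row109 {i : ℕ} (h1 : 1548 ≤ i) (h2 : i < 1563) : KP i :=
  row_sound (r := ⟨109, 1548, 1563, 21, 5, [(10, 8), (26, 10), (60, 8), (109, 6)], 733639, 1522, [(5, [(10, 8), (26, 10), (60, 8), (109, 6)], 100735256, 1416), (5, [(10, 8), (30, 10), (56, 6), (109, 6)], 101880942, 1318), (5, [(9, 6), (18, 8), (34, 6), (68, 6), (109, 4)], 104897000, 1205), (4, [(10, 8), (26, 8), (40, 4), (64, 4), (109, 4)], 111583306, 1092), (5, [(10, 6), (18, 6), (28, 4), (46, 4), (80, 4), (109, 2)], 126047246, 975), (4, [(6, 4), (10, 4), (20, 6), (32, 4), (54, 4), (76, 2), (109, 2)], 152198827, 864), (4, [(10, 8), (21, 6), (36, 4), (64, 4), (92, 2)], 207763944, 751)]⟩)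
    (by decide +kernel) (by decide +kernel) h1 h2

theorem row110 {i : ℕ} (h1 : 1563 ≤ i) (h2 : i < 1577) : KP i :=
  row_sound (r := ⟨110, 1563, 1577, 21, 4, [(10, 10), (26, 10), (60, 8), (110, 6)], 771782, 1532, [(5, [(10, 8), (28, 10), (60, 8), (110, 6)], 100687868, 1442), (4, [(9, 8), (18, 8), (30, 6), (56, 6), (110, 6)], 101915838, 1330), (3, [(9, 8), (19, 8), (34, 6), (68, 6), (110, 4)], 105032943, 1216), (4, [(8, 6), (20, 8), (40, 6), (64, 4), (110, 4)], 111405327, 1101), (4, [(10, 8), (19, 6), (28, 4), (46, 4), (80, 4), (110, 2)], 125735356, 987), (5, [(10, 6), (20, 6), (32, 4), (54, 4), (76, 2), (110, 2)], 151148643, 873), (3, [(6, 6), (10, 4), (21, 6), (36, 4), (66, 4), (96, 2)], 206421593, 759)]⟩)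
    (by decide +kernel) (by decide +kernel) h1 h2

theorem row111 {i : ℕ} (h1 : 1577 ≤ i) (h2 : i < 1591) : KP i :=
  row_sound (r := ⟨111, 1577, 1591, 21, 5, [(10, 10), (26, 10), (60, 8), (111, 6)], 812052, 1546, [(5, [(10, 8), (28, 10), (60, 8), (111, 6)], 100733637, 1448), (3, [(7, 8), (14, 8), (30, 8), (56, 6), (111, 6)], 101986718, 1340), (4, [(9, 8), (19, 8), (34, 6), (68, 6), (111, 4)], 104871200, 1223), (4, [(8, 8), (20, 8), (40, 6), (64, 4), (111, 4)], 111480356, 1112), (4, [(8, 6), (15, 6), (28, 6), (46, 4), (80, 4), (111, 2)], 126372897, 994), (4, [(6, 6), (10, 4), (20, 6), (32, 4), (56, 4), (76, 2), (111, 2)], 152663694, 880), (5, [(10, 6), (21, 6), (36, 4), (66, 4), (96, 2)], 206710257, 764)]⟩)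
    (by decide +kernel) (by decide +kernel) h1 h2

theorem row112 {i : ℕ} (h1 : 1591 ≤ i) (h2 : i < 1605) : KP i :=
  row_sound (r := ⟨112, 1591, 1605, 21, 5, [(10, 8), (28, 10), (60, 8), (112, 6)], 782245, 1563, [(5, [(10, 8), (28, 10), (62, 8), (112, 6)], 100682613, 1470), (3, [(7, 8), (18, 10), (30, 6), (56, 6), (112, 6)], 102067906, 1353), (5, [(9, 6), (19, 8), (34, 6), (70, 6), (112, 4)], 104859070, 1237), (5, [(9, 6), (20, 8), (40, 6), (64, 4), (112, 4)], 111158335, 1122), (4, [(8, 6), (15, 6), (28, 6), (46, 4), (82, 4), (112, 2)], 126391689, 1004), (5, [(10, 6), (20, 6), (32, 4), (56, 4), (78, 2), (112, 2)], 150665976, 889), (4, [(6, 4), (10, 4), (21, 6), (36, 4), (68, 4), (100, 2)], 207467207, 773)]⟩)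
    (by decide +kernel) (by decide +kernel) h1 h2

theorem row113 {i : ℕ} (h1 : 1605 ≤ i) (h2 : i < 1619) : KP i :=
  row_sound (r := ⟨113, 1605, 1619, 21, 4, [(10, 10), (28, 10), (60, 8), (113, 6)], 834103, 1573, [(3, [(9, 10), (18, 8), (36, 8), (60, 6), (113, 6)], 100815070, 1480), (4, [(8, 8), (24, 10), (56, 8), (113, 6)], 102027175, 1365), (5, [(9, 6), (20, 8), (36, 6), (68, 6), (113, 4)], 104984617, 1249), (3, [(6, 6), (9, 4), (21, 8), (40, 6), (64, 4), (113, 4)], 111624974, 1131), (5, [(10, 6), (19, 6), (28, 4), (48, 4), (84, 4), (113, 2)], 126583103, 1013), (5, [(10, 6), (20, 6), (32, 4), (56, 4), (80, 2), (113, 2)], 152258885, 895), (5, [(10, 6), (21, 6), (36, 4), (68, 4), (100, 2)], 207079976, 780)]⟩)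
    (by decide +kernel) (by decide +kernel) h1 h2

theorem row114 {i : ℕ} (h1 : 1619 ≤ i) (h2 : i < 1634) : KP i :=
  row_sound (r := ⟨114, 1619, 1634, 19, 5, [(10, 8), (28, 10), (62, 8), (114, 6)], 759315, 1593, [(5, [(10, 8), (28, 10), (64, 8), (114, 6)], 100717177, 1498), (4, [(9, 8), (24, 10), (56, 8), (114, 6)], 101901351, 1379), (4, [(9, 8), (19, 8), (36, 6), (70, 6), (114, 4)], 104932630, 1259), (3, [(6, 6), (9, 4), (21, 8), (40, 6), (66, 4), (114, 4)], 111348148, 1143), (5, [(10, 6), (19, 6), (30, 4), (48, 4), (84, 4), (114, 2)], 125685490, 1023), (5, [(10, 6), (20, 6), (32, 4), (58, 4), (80, 2), (114, 2)], 151616412, 905), (4, [(9, 6), (18, 6), (28, 4), (50, 4), (70, 2), (102, 2)], 206430592, 788)]⟩)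
    (by decide +kernel) (by decide +kernel) h1 h2

theorem row115 {i : ℕ} (h1 : 1634 ≤ i) (h2 : i < 1648) : KP i :=
  row_sound (r := ⟨115, 1634, 1648, 21, 5, [(9, 8), (18, 8), (36, 8), (60, 6), (115, 6)], 926463, 1606, [(5, [(10, 8), (28, 10), (64, 8), (115, 6)], 100747905, 1504), (3, [(9, 10), (24, 10), (56, 8), (115, 6)], 102003280, 1391), (3, [(9, 8), (19, 8), (36, 6), (72, 6), (115, 4)], 105191047, 1272), (4, [(9, 8), (20, 8), (40, 6), (68, 4), (115, 4)], 111803674, 1152), (5, [(10, 6), (20, 6), (30, 4), (48, 4), (84, 4), (115, 2)], 125899649, 1031), (4, [(6, 4), (10, 4), (21, 6), (34, 4), (58, 4), (80, 2), (115, 2)], 152154835, 914), (4, [(6, 4), (9, 4), (18, 6), (28, 4), (50, 4), (70, 2), (104, 2)], 206694963, 795)]⟩)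
    (by decide +kernel) (by decide +kernel) h1 h2

theorem row116 {i : ℕ} (h1 : 1648 ≤ i) (h2 : i < 1662) : KP i :=
  row_sound (r := ⟨116, 1648, 1662, 21, 4, [(6, 6), (10, 6), (28, 10), (64, 8), (116, 6)], 820974, 1621, [(5, [(10, 8), (28, 10), (64, 8), (116, 6)], 100781734, 1510), (3, [(9, 10), (19, 8), (32, 6), (58, 6), (116, 6)], 101959575, 1403), (4, [(9, 8), (19, 8), (36, 6), (72, 6), (116, 4)], 104981939, 1279), (5, [(9, 6), (21, 8), (40, 6), (68, 4), (116, 4)], 111571415, 1162), (5, [(10, 6), (20, 6), (30, 4), (48, 4), (86, 4), (116, 2)], 126199977, 1041), (3, [(5, 4), (10, 6), (21, 6), (34, 4), (58, 4), (80, 2), (116, 2)], 151847318, 922), (5, [(10, 6), (18, 6), (28, 4), (50, 4), (70, 2), (102, 2)], 207626534, 801)]⟩)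
    (by decide +kernel) (by decide +kernel) h1 h2

theorem row117 {i : ℕ} (h1 : 1662 ≤ i) (h2 : i < 1676) : KP i :=
  row_sound (r := ⟨117, 1662, 1676, 21, 5, [(10, 8), (28, 10), (64, 8), (117, 6)], 816712, 1630, [(5, [(10, 8), (18, 8), (36, 8), (64, 6), (117, 6)], 100757282, 1537), (5, [(9, 6), (19, 8), (32, 6), (60, 6), (117, 6)], 101977098, 1414), (4, [(9, 8), (20, 8), (36, 6), (72, 6), (117, 4)], 104815276, 1291), (4, [(9, 8), (20, 8), (42, 6), (68, 4), (117, 4)], 111827926, 1172), (4, [(6, 4), (9, 4), (22, 8), (48, 6), (84, 4), (117, 2)], 126462344, 1051), (4, [(10, 8), (21, 6), (34, 4), (58, 4), (80, 2), (117, 2)], 152666813, 928), (5, [(10, 6), (19, 6), (30, 4), (50, 4), (68, 2), (100, 2)], 207892676, 807)]⟩)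
    (by decide +kernel) (by decide +kernel) h1 h2

theorem row118 {i : ℕ} (h1 : 1676 ≤ i) (h2 : i < 1690) : KP i :=
  row_sound (r := ⟨118, 1676, 1690, 21, 3, [(10, 12), (28, 10), (64, 8), (118, 6)], 850083, 1646, [(4, [(9, 8), (22, 10), (48, 8), (118, 8)], 100762499, 1549), (3, [(9, 10), (19, 8), (32, 6), (60, 6), (118, 6)], 101982753, 1427), (5, [(9, 6), (20, 8), (36, 6), (74, 6), (118, 4)], 104819492, 1305), (5, [(9, 6), (22, 8), (42, 6), (66, 4), (118, 4)], 111744150, 1182), (4, [(8, 6), (15, 6), (30, 6), (50, 4), (86, 4), (118, 2)], 126133639, 1060), (3, [(5, 4), (10, 6), (21, 6), (34, 4), (60, 4), (82, 2), (118, 2)], 151896274, 938), (3, [(6, 6), (9, 4), (18, 6), (30, 4), (52, 4), (72, 2), (104, 2)], 206111595, 816)]⟩)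
    (by decide +kernel) (by decide +kernel) h1 h2

theorem row119 {i : ℕ} (h1 : 1690 ≤ i) (h2 : i < 1705) : KP i :=
  row_sound (r := ⟨119, 1690, 1705, 21, 4, [(7, 8), (14, 8), (28, 8), (64, 8), (119, 6)], 880412, 1661, [(4, [(8, 8), (15, 8), (28, 8), (64, 8), (119, 6)], 100782675, 1561), (4, [(6, 6), (10, 6), (19, 8), (32, 6), (60, 6), (119, 6)], 101986860, 1440), (5, [(9, 6), (21, 8), (38, 6), (72, 6), (119, 4)], 105009899, 1317), (3, [(9, 8), (22, 8), (42, 6), (68, 4), (119, 4)], 111531727, 1193), (4, [(8, 6), (15, 6), (30, 6), (50, 4), (88, 4), (119, 2)], 126104997, 1070), (5, [(10, 6), (21, 6), (34, 4), (60, 4), (84, 2), (119, 2)], 151909213, 945), (4, [(6, 4), (9, 4), (18, 6), (30, 4), (52, 4), (72, 2), (108, 2)], 206841323, 823)]⟩)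
    (by decide +kernel) (by decide +kernel) h1 h2

theorem tabE {i : ℕ} (h1 : 1449 ≤ i) (h2 : i < 1705) : KP i := by
  rcases lt_or_ge i 1463 with g0 | g0
  · exact row102 h1 g0
  rcases lt_or_ge i 1477 with g1 | g1
  · exact row103 g0 g1
  rcases lt_or_ge i 1492 with g2 | g2
  · exact row104 g1 g2
  rcases lt_or_ge i 1506 with g3 | g3
  · exact row105 g2 g3
  rcases lt_or_ge i 1520 with g4 | g4
  · exact row106 g3 g4
  rcases lt_or_ge i 1534 with g5 | g5
  · exact row107 g4 g5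
  rcases lt_or_ge i 1548 with g6 | g6
  · exact row108 g5 g6
  rcases lt_or_ge i 1563 with g7 | g7
  · exact row109 g6 g7
  rcases lt_or_ge i 1577 with g8 | g8
  · exact row110 g7 g8
  rcases lt_or_ge i 1591 with g9 | g9
  · exact row111 g8 g9
  rcases lt_or_ge i 1605 with g10 | g10
  · exact row112 g9 g10
  rcases lt_or_ge i 1619 with g11 | g11
  · exact row113 g10 g11
  rcases lt_or_ge i 1634 with g12 | g12
  · exact row114 g11 g12
  rcases lt_or_ge i 1648 with g13 | g13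
  · exact row115 g12 g13
  rcases lt_or_ge i 1662 with g14 | g14
  · exact row116 g13 g14
  rcases lt_or_ge i 1676 with g15 | g15
  · exact row117 g14 g15
  rcases lt_or_ge i 1690 with g16 | g16
  · exact row118 g15 g16
  exact row119 g16 h2

end Pool.Agent.H91.Gold
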