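import Mathlib
import Pool.Agent.H91.GoldKP

/-!
Finite table, part F.
-/

namespace Pool.Agent.H91.Gold

theorem row120 {i : ℕ} (h1 : 1705 ≤ i) (h2 : i < 1719) : KP i :=
  row_sound (r := ⟨120, 1705, 1719, 21, 4, [(8, 8), (28, 12), (64, 8), (120, 6)], 856268, 1678, [(5, [(10, 8), (18, 8), (38, 8), (64, 6), (120, 6)], 100800110, 1571), (4, [(8, 8), (15, 8), (32, 8), (60, 6), (120, 6)], 101996395, 1452), (4, [(9, 8), (20, 8), (38, 6), (74, 6), (120, 4)], 104891214, 1327), (4, [(9, 8), (22, 8), (42, 6), (68, 4), (120, 4)], 111624603, 1200), (4, [(6, 4), (9, 4), (16, 6), (30, 6), (50, 4), (86, 4), (120, 2)], 126495117, 1078), (3, [(6, 6), (10, 6), (21, 6), (34, 4), (60, 4), (84, 2), (120, 2)], 153160382, 954), (3, [(5, 4), (10, 6), (19, 6), (30, 4), (52, 4), (72, 2), (104, 2)], 205442594, 830)]⟩)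
    (by decide +kernel) (by decide +kernel) h1 h2

theorem row121 {i : ℕ} (h1 : 1719 ≤ i) (h2 : i < 1733) : KP i :=
  row_sound (r := ⟨121, 1719, 1733, 21, 4, [(8, 8), (15, 8), (28, 8), (64, 8), (121, 6)], 882366, 1691, [(5, [(10, 8), (19, 8), (38, 8), (64, 6), (121, 6)], 100795253, 1585), (5, [(10, 8), (20, 8), (32, 6), (60, 6), (121, 6)], 102060257, 1463), (4, [(6, 6), (10, 6), (21, 8), (38, 6), (72, 6), (121, 4)], 105194357, 1339), (4, [(10, 8), (22, 8), (42, 6), (68, 4), (121, 4)], 111663370, 1211), (4, [(6, 4), (9, 4), (16, 6), (30, 6), (50, 4), (88, 4), (121, 2)], 126213824, 1088), (4, [(10, 8), (21, 6), (34, 4), (62, 4), (84, 2), (121, 2)], 153780919, 960), (4, [(6, 4), (10, 4), (19, 6), (30, 4), (52, 4), (74, 2), (108, 2)], 206017612, 836)]⟩)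
    (by decide +kernel) (by decide +kernel) h1 h2

theorem row122 {i : ℕ} (h1 : 1733 ≤ i) (h2 : i < 1747) : KP i :=
  row_sound (r := ⟨122, 1733, 1747, 19, 3, [(9, 10), (18, 8), (38, 8), (66, 6), (122, 6)], 859899, 1705, [(5, [(10, 8), (19, 8), (38, 8), (66, 6), (122, 6)], 100735318, 1603), (5, [(9, 6), (26, 10), (60, 8), (122, 6)], 101988578, 1478), (4, [(10, 8), (21, 8), (38, 6), (74, 6), (122, 4)], 104880854, 1350), (4, [(10, 8), (22, 8), (42, 6), (70, 4), (122, 4)], 111415853, 1223), (4, [(9, 8), (16, 6), (30, 6), (50, 4), (88, 4), (122, 2)], 126207099, 1097), (5, [(10, 6), (21, 6), (36, 4), (62, 4), (86, 2), (122, 2)], 152745861, 971), (3, [(5, 4), (10, 6), (19, 6), (30, 4), (52, 4), (74, 2), (110, 2)], 204864733, 846)]⟩)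
    (by decide +kernel) (by decide +kernel) h1 h2

theorem row123 {i : ℕ} (h1 : 1747 ≤ i) (h2 : i < 1761) : KP i :=
  row_sound (r := ⟨123, 1747, 1761, 21, 4, [(9, 8), (18, 8), (38, 8), (68, 6), (123, 6)], 906520, 1718, [(5, [(10, 8), (18, 8), (38, 8), (68, 6), (123, 6)], 100800743, 1613), (4, [(9, 8), (26, 10), (60, 8), (123, 6)], 102076000, 1485), (4, [(9, 8), (21, 8), (38, 6), (76, 6), (123, 4)], 104891440, 1359), (4, [(6, 4), (9, 4), (22, 8), (44, 6), (72, 4), (123, 4)], 111702757, 1233), (3, [(6, 6), (9, 4), (16, 6), (32, 6), (50, 4), (88, 4), (123, 2)], 126480524, 1106), (3, [(6, 6), (9, 4), (16, 6), (34, 6), (60, 4), (84, 2), (123, 2)], 154227258, 977), (5, [(10, 6), (19, 6), (30, 4), (54, 4), (74, 2), (108, 2)], 205282629, 851)]⟩)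
    (by decide +kernel) (by decide +kernel) h1 h2

theorem row124 {i : ℕ} (h1 : 1761 ≤ i) (h2 : i < 1776) : KP i :=
  row_sound (r := ⟨124, 1761, 1776, 19, 4, [(10, 10), (18, 8), (38, 8), (66, 6), (124, 6)], 879481, 1731, [(4, [(9, 8), (30, 12), (66, 8), (124, 6)], 100757520, 1632), (4, [(6, 6), (10, 6), (20, 8), (34, 6), (62, 6), (124, 6)], 101928183, 1502), (3, [(6, 6), (10, 6), (21, 8), (38, 6), (76, 6), (124, 4)], 104818935, 1373), (4, [(9, 8), (22, 8), (44, 6), (72, 4), (124, 4)], 111192588, 1244), (5, [(9, 6), (17, 6), (32, 6), (50, 4), (88, 4), (124, 2)], 126213957, 1117), (5, [(10, 6), (21, 6), (36, 4), (64, 4), (88, 2), (124, 2)], 153193470, 987), (5, [(10, 6), (19, 6), (30, 4), (54, 4), (76, 2), (110, 2)], 204605190, 859)]⟩)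
    (by decide +kernel) (by decide +kernel) h1 h2

theorem row125 {i : ℕ} (h1 : 1776 ≤ i) (h2 : i < 1790) : KP i :=
  row_sound (r := ⟨125, 1776, 1790, 21, 5, [(10, 8), (18, 8), (38, 8), (68, 6), (125, 6)], 868435, 1747, [(5, [(10, 8), (15, 6), (30, 8), (68, 8), (125, 6)], 100762154, 1643), (3, [(9, 10), (20, 8), (34, 6), (64, 6), (125, 6)], 102072016, 1513), (5, [(10, 8), (21, 8), (38, 6), (76, 6), (125, 4)], 104932367, 1382), (5, [(10, 6), (22, 8), (44, 6), (72, 4), (125, 4)], 111300907, 1252), (4, [(10, 8), (24, 8), (50, 6), (88, 4), (125, 2)], 126172584, 1125), (5, [(10, 6), (22, 6), (36, 4), (64, 4), (88, 2), (125, 2)], 153580250, 995), (5, [(10, 6), (20, 6), (32, 4), (54, 4), (74, 2), (108, 2)], 204900259, 865)]⟩)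
    (by decide +kernel) (by decide +kernel) h1 h2

theorem row126 {i : ℕ} (h1 : 1790 ≤ i) (h2 : i < 1804) : KP i :=
  row_sound (r := ⟨126, 1790, 1804, 21, 5, [(10, 8), (19, 8), (38, 8), (68, 6), (126, 6)], 850576, 1762, [(5, [(10, 8), (19, 8), (40, 8), (68, 6), (126, 6)], 100750138, 1655), (4, [(8, 8), (16, 8), (34, 8), (62, 6), (126, 6)], 102013698, 1524), (4, [(6, 6), (10, 6), (21, 8), (38, 6), (78, 6), (126, 4)], 104862517, 1395), (4, [(6, 6), (10, 6), (22, 8), (44, 6), (72, 4), (126, 4)], 111414801, 1264), (4, [(6, 4), (9, 4), (16, 6), (32, 6), (52, 4), (92, 4), (126, 2)], 125976027, 1134), (3, [(9, 8), (17, 6), (34, 6), (62, 4), (86, 2), (126, 2)], 154092043, 1003), (5, [(10, 6), (20, 6), (32, 4), (54, 4), (76, 2), (110, 2)], 204171380, 873)]⟩)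
    (by decide +kernel) (by decide +kernel) h1 h2

theorem row127 {i : ℕ} (h1 : 1804 ≤ i) (h2 : i < 1818) : KP i :=
  row_sound (r := ⟨127, 1804, 1818, 21, 4, [(10, 10), (19, 8), (38, 8), (68, 6), (127, 6)], 890516, 1772, [(5, [(10, 8), (20, 8), (40, 8), (68, 6), (127, 6)], 100766067, 1669), (5, [(10, 8), (20, 8), (34, 6), (64, 6), (127, 6)], 102002773, 1535), (4, [(10, 8), (21, 8), (38, 6), (80, 6), (127, 4)], 105139967, 1406), (5, [(10, 8), (22, 8), (44, 6), (72, 4), (127, 4)], 111889923, 1271), (4, [(9, 8), (16, 6), (32, 6), (52, 4), (92, 4), (127, 2)], 125890971, 1143), (5, [(9, 6), (17, 6), (34, 6), (62, 4), (88, 2), (127, 2)], 154323883, 1011), (3, [(6, 6), (10, 4), (20, 6), (32, 4), (56, 4), (76, 2), (112, 2)], 205022195, 880)]⟩)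
    (by decide +kernel) (by decide +kernel) h1 h2

theorem row128 {i : ℕ} (h1 : 1818 ≤ i) (h2 : i < 1832) : KP i :=
  row_sound (r := ⟨128, 1818, 1832, 21, 4, [(8, 8), (15, 8), (30, 8), (68, 8), (128, 6)], 864335, 1788, [(5, [(10, 8), (19, 8), (40, 8), (70, 6), (128, 6)], 100761538, 1679), (4, [(8, 8), (16, 8), (34, 8), (64, 6), (128, 6)], 102005292, 1548), (5, [(10, 6), (22, 8), (40, 6), (78, 6), (128, 4)], 105014730, 1415), (5, [(10, 6), (22, 8), (46, 6), (74, 4), (128, 4)], 111612661, 1284), (4, [(9, 8), (17, 6), (32, 6), (52, 4), (92, 4), (128, 2)], 126128571, 1151), (3, [(9, 8), (17, 6), (36, 6), (62, 4), (86, 2), (128, 2)], 153665366, 1019), (4, [(6, 4), (10, 4), (20, 6), (32, 4), (56, 4), (78, 2), (114, 2)], 204359049, 886)]⟩)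
    (by decide +kernel) (by decide +kernel) h1 h2

theorem row129 {i : ℕ} (h1 : 1832 ≤ i) (h2 : i < 1846) : KP i :=
  row_sound (r := ⟨129, 1832, 1846, 21, 4, [(10, 10), (19, 8), (40, 8), (68, 6), (129, 6)], 886083, 1802, [(3, [(9, 10), (24, 10), (52, 8), (129, 8)], 100801150, 1695), (4, [(8, 8), (16, 8), (34, 8), (64, 6), (129, 6)], 102106496, 1554), (4, [(10, 8), (21, 8), (40, 6), (80, 6), (129, 4)], 104994503, 1426), (4, [(9, 8), (22, 8), (46, 6), (76, 4), (129, 4)], 111943453, 1292), (4, [(10, 8), (24, 8), (52, 6), (92, 4), (129, 2)], 126104373, 1161), (4, [(9, 6), (17, 6), (36, 6), (64, 4), (88, 2), (129, 2)], 153472927, 1027), (4, [(6, 4), (10, 4), (20, 6), (32, 4), (56, 4), (80, 2), (116, 2)], 204385360, 894)]⟩)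
    (by decide +kernel) (by decide +kernel) h1 h2

theorem row130 {i : ℕ} (h1 : 1846 ≤ i) (h2 : i < 1861) : KP i :=
  row_sound (r := ⟨130, 1846, 1861, 21, 5, [(10, 8), (19, 8), (40, 8), (70, 6), (130, 6)], 834958, 1818, [(5, [(10, 8), (20, 8), (40, 8), (70, 6), (130, 6)], 100809808, 1699), (5, [(10, 8), (21, 8), (36, 6), (64, 6), (130, 6)], 102043460, 1573), (4, [(10, 8), (22, 8), (40, 6), (80, 6), (130, 4)], 104836638, 1438), (4, [(10, 8), (22, 8), (46, 6), (76, 4), (130, 4)], 111771464, 1303), (5, [(9, 6), (17, 6), (32, 6), (54, 4), (94, 4), (130, 2)], 126102938, 1169), (3, [(9, 8), (17, 6), (36, 6), (64, 4), (88, 2), (130, 2)], 153463203, 1035), (5, [(10, 6), (20, 6), (32, 4), (56, 4), (80, 2), (116, 2)], 203528334, 901)]⟩)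
    (by decide +kernel) (by decide +kernel) h1 h2

theorem row131 {i : ℕ} (h1 : 1861 ≤ i) (h2 : i < 1875) : KP i :=
  row_sound (r := ⟨131, 1861, 1875, 19, 4, [(6, 6), (10, 6), (19, 8), (40, 8), (72, 6), (131, 6)], 884484, 1835, [(5, [(10, 8), (20, 8), (40, 8), (72, 6), (131, 6)], 100818193, 1717), (5, [(10, 8), (21, 8), (36, 6), (64, 6), (131, 6)], 102160383, 1579), (5, [(10, 8), (22, 8), (40, 6), (80, 6), (131, 4)], 104865853, 1450), (5, [(10, 8), (22, 8), (46, 6), (76, 4), (131, 4)], 111962214, 1315), (4, [(9, 8), (17, 6), (32, 6), (54, 4), (96, 4), (131, 2)], 126054617, 1181), (5, [(9, 6), (18, 6), (36, 6), (64, 4), (88, 2), (131, 2)], 153453807, 1045), (5, [(10, 6), (20, 6), (32, 4), (58, 4), (80, 2), (116, 2)], 203542531, 909)]⟩)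
    (by decide +kernel) (by decide +kernel) h1 h2

theorem row132 {i : ℕ} (h1 : 1875 ≤ i) (h2 : i < 1889) : KP i :=
  row_sound (r := ⟨132, 1875, 1889, 19, 5, [(10, 8), (19, 8), (40, 8), (72, 6), (132, 6)], 876216, 1844, [(4, [(9, 8), (16, 8), (32, 8), (70, 8), (132, 6)], 100801040, 1734), (5, [(10, 8), (21, 8), (36, 6), (66, 6), (132, 6)], 101978587, 1597), (4, [(6, 6), (10, 6), (22, 8), (40, 6), (82, 6), (132, 4)], 104817404, 1463), (4, [(10, 8), (24, 8), (46, 6), (76, 4), (132, 4)], 111098113, 1327), (3, [(6, 6), (9, 4), (17, 6), (34, 6), (54, 4), (96, 4), (132, 2)], 125850027, 1190), (3, [(6, 6), (9, 4), (17, 6), (36, 6), (66, 4), (92, 2), (132, 2)], 153305144, 1053), (5, [(10, 6), (20, 6), (32, 4), (58, 4), (82, 2), (118, 2)], 203224321, 917)]⟩)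
    (by decide +kernel) (by decide +kernel) h1 h2

theorem row133 {i : ℕ} (h1 : 1889 ≤ i) (h2 : i < 1903) : KP i :=
  row_sound (r := ⟨133, 1889, 1903, 21, 5, [(10, 8), (20, 8), (40, 8), (72, 6), (133, 6)], 884780, 1859, [(5, [(10, 8), (20, 8), (42, 8), (72, 6), (133, 6)], 100775589, 1745), (5, [(10, 8), (20, 8), (36, 6), (68, 6), (133, 6)], 102145928, 1607), (4, [(8, 8), (17, 8), (40, 8), (80, 6), (133, 4)], 105269841, 1469), (3, [(6, 6), (10, 6), (24, 8), (46, 6), (76, 4), (133, 4)], 111493967, 1334), (4, [(9, 8), (17, 6), (34, 6), (54, 4), (96, 4), (133, 2)], 126113061, 1197), (5, [(9, 6), (17, 6), (36, 6), (66, 4), (92, 2), (133, 2)], 154094848, 1059), (5, [(10, 6), (20, 6), (32, 4), (58, 4), (82, 2), (120, 2)], 204301383, 921)]⟩)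
    (by decide +kernel) (by decide +kernel) h1 h2

theorem row134 {i : ℕ} (h1 : 1903 ≤ i) (h2 : i < 1917) : KP i :=
  row_sound (r := ⟨134, 1903, 1917, 21, 4, [(10, 10), (20, 8), (40, 8), (72, 6), (134, 6)], 920327, 1869, [(5, [(10, 8), (20, 8), (42, 8), (72, 6), (134, 6)], 100814532, 1751), (5, [(10, 8), (21, 8), (36, 6), (68, 6), (134, 6)], 102012935, 1621), (4, [(6, 6), (10, 6), (22, 8), (42, 6), (82, 6), (134, 4)], 104982691, 1483), (5, [(10, 6), (24, 8), (48, 6), (76, 4), (134, 4)], 111449049, 1344), (5, [(9, 6), (17, 6), (34, 6), (56, 4), (96, 4), (134, 2)], 125970224, 1205), (4, [(10, 8), (18, 6), (36, 6), (64, 4), (92, 2), (134, 2)], 154068298, 1067), (5, [(10, 6), (20, 6), (34, 4), (58, 4), (82, 2), (120, 2)], 204712454, 929)]⟩)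
    (by decide +kernel) (by decide +kernel) h1 h2

theorem row135 {i : ℕ} (h1 : 1917 ≤ i) (h2 : i < 1920) : KP i :=
  row_sound (r := ⟨135, 1917, 1920, 19, 5, [(10, 8), (20, 8), (42, 8), (72, 6), (135, 6)], 854345, 1889, [(5, [(10, 8), (20, 8), (42, 8), (72, 6), (135, 6)], 100856670, 1757), (5, [(10, 8), (21, 8), (36, 6), (68, 6), (135, 6)], 102094239, 1627), (4, [(6, 6), (10, 6), (22, 8), (40, 6), (84, 6), (135, 4)], 105286704, 1487), (4, [(10, 8), (24, 8), (48, 6), (76, 4), (135, 4)], 111761309, 1351), (5, [(10, 6), (17, 6), (34, 6), (56, 4), (96, 4), (135, 2)], 126278354, 1213), (4, [(6, 4), (9, 4), (23, 8), (38, 4), (66, 4), (92, 2), (135, 2)], 153448941, 1075), (5, [(10, 6), (20, 6), (34, 4), (60, 4), (82, 2), (120, 2)], 204162433, 937)]⟩)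
    (by decide +kernel) (by decide +kernel) h1 h2

theorem tabF {i : ℕ} (h1 : 1705 ≤ i) (h2 : i < 1920) : KP i := by
  rcases lt_or_ge i 1719 with g0 | g0
  · exact row120 h1 g0
  rcases lt_or_ge i 1733 with g1 | g1
  · exact row121 g0 g1
  rcases lt_or_ge i 1747 with g2 | g2
  · exact row122 g1 g2
  rcases lt_or_ge i 1761 with g3 | g3
  · exact row123 g2 g3
  rcases lt_or_ge i 1776 with g4 | g4
  · exact row124 g3 g4
  rcases lt_or_ge i 1790 with g5 | g5
  · exact row125 g4 g5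
  rcases lt_or_ge i 1804 with g6 | g6
  · exact row126 g5 g6
  rcases lt_or_ge i 1818 with g7 | g7
  · exact row127 g6 g7
  rcases lt_or_ge i 1832 with g8 | g8
  · exact row128 g7 g8
  rcases lt_or_ge i 1846 with g9 | g9
  · exact row129 g8 g9
  rcases lt_or_ge i 1861 with g10 | g10
  · exact row130 g9 g10
  rcases lt_or_ge i 1875 with g11 | g11
  · exact row131 g10 g11
  rcases lt_or_ge i 1889 with g12 | g12
  · exact row132 g11 g12
  rcases lt_or_ge i 1903 with g13 | g13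
  · exact row133 g12 g13
  rcases lt_or_ge i 1917 with g14 | g14
  · exact row134 g13 g14
  exact row135 g14 h2

end Pool.Agent.H91.Gold
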