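import Mathlib
import Pool.Agent.H91.GoldSmall
import Pool.Agent.H91.GoldTabA
import Pool.Agent.H91.GoldTabB
import Pool.Agent.H91.GoldTabC
import Pool.Agent.H91.GoldTabD
import Pool.Agent.H91.GoldTabE
import Pool.Agent.H91.GoldTabF
import Pool.Agent.H91.GoldInfC

/-!
Explicit almost prime versions of the binary Goldbach problem for all even integers.
-/

namespace Pool.Agent.H91.Gold

open ArithmeticFunction (cardFactors)

theorem KP_all {i : ℕ} (h : 12 ≤ i) : KP i := by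
  rcases lt_or_ge i 429 with h1 | h1
  · exact tabA h h1
  rcases lt_or_ge i 796 with h2 | h2
  · exact tabB h1 h2
  rcases lt_or_ge i 1165 with h3 | h3
  · exact tabC h2 h3
  rcases lt_or_ge i 1449 with h4 | h4
  · exact tabD h3 h4
  rcases lt_or_ge i 1705 with h5 | h5
  · exact tabE h4 h5
  rcases lt_or_ge i 1920 with h6 | h6
  · exact tabF h5 h6
  · exact KP_large h6

theorem main_large {n K : ℕ} (hK : 4 ≤ K) (h : 2 ^ (12 * (K + 1)) ≤ (2 * n) ^ 5) :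
    ∃ x : ℕ, (2 * x) ^ (K + 1) ≤ (2 * n) ^ 5 ∧ x + 2 ≤ n ∧ cardFactors (n - x) ≤ K
      ∧ cardFactors (n + x) ≤ K ∧ cardFactors (n - x) + cardFactors (n + x) ≤ K + 2 :=
  reduce (fun _ hi => KP_all hi) hK h

theorem main_four {n : ℕ} (hn : 2 ≤ n) :
    ∃ x : ℕ, x + 2 ≤ n ∧ cardFactors (n - x) ≤ 4 ∧ cardFactors (n + x) ≤ 4 ∧
      cardFactors (n - x) + cardFactors (n + x) ≤ 6 := by
  rcases lt_or_ge n 2048 with h | h
  · obtain ⟨x, _, h2, h3, h4, h5⟩ := small_four hn h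
    exact ⟨x, h2, h3, h4, h5⟩
  · have h1 : 2 ^ (12 * (4 + 1)) ≤ (2 * n) ^ 5 := by
      calc 2 ^ (12 * (4 + 1)) = 4096 ^ 5 := by norm_num
        _ ≤ (2 * n) ^ 5 := Nat.pow_le_pow_left (by omega) 5
    obtain ⟨x, _, h2, h3, h4, h5⟩ := main_large le_rfl h1
    exact ⟨x, h2, h3, h4, h5⟩

theorem main_short {n K : ℕ} (hn : 2 ≤ n) (hK : 4 ≤ K) :
    ∃ x : ℕ, (2 * x) ^ (K + 1) ≤ (2 * n) ^ 5 ∧ x + 2 ≤ n ∧ cardFactors (n - x) ≤ K
      ∧ cardFactors (n + x) ≤ K ∧ (2 ^ (12 * (K + 1)) ≤ (2 * n) ^ 5 →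
        cardFactors (n - x) + cardFactors (n + x) ≤ K + 2) := by
  rcases lt_or_ge ((2 * n) ^ 5) (2 ^ (12 * (K + 1))) with h | h
  · obtain ⟨x, a1, a2, a3, a4⟩ := small_K hn hK h
    exact ⟨x, a1, a2, a3, a4, fun h' => absurd h' (not_le.2 h)⟩
  · obtain ⟨x, a1, a2, a3, a4, a5⟩ := main_large hK h
    exact ⟨x, a1, a2, a3, a4, fun _ => a5⟩

end Pool.Agent.H91.Gold
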