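import Mathlib
import Pool.Agent.H91.GoldMain

/-!
# Almost prime solutions with a small shift, for all even integers

For all `n ≥ 2` and `K ≥ 5` there is an integer `x ≥ 0` with `2 x ≤ (2 n) ^ (5 / (K + 1))` such that
`n - x` and `n + x` are at least `2` and have at most `K` prime factors each, counted with multiplicity
(`ArithmeticFunction.cardFactors` is `Ω`), and at most `K + 2` together once
`(2 n) ^ (5 / (K + 1)) ≥ 2 ^ 12`.
-/

/-- For all `n ≥ 2` and `K ≥ 5` there is `x ≥ 0` with `(2 x) ^ (K + 1) ≤ (2 n) ^ 5`, `x + 2 ≤ n`,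
`Ω (n - x) ≤ K`, `Ω (n + x) ≤ K`, and `Ω (n - x) + Ω (n + x) ≤ K + 2` if `(2 n) ^ 5 ≥ 2 ^ (12 (K + 1))`. -/
theorem Pool.Agent.Results.MP_967f73_nt.ShortShift.result (n K : ℕ) (hn : 2 ≤ n) (hK : 5 ≤ K) :
    ∃ x : ℕ, (2 * x) ^ (K + 1) ≤ (2 * n) ^ 5 ∧ x + 2 ≤ n ∧
      ArithmeticFunction.cardFactors (n - x) ≤ K ∧ ArithmeticFunction.cardFactors (n + x) ≤ K ∧
      (2 ^ (12 * (K + 1)) ≤ (2 * n) ^ 5 →
        ArithmeticFunction.cardFactors (n - x) + ArithmeticFunction.cardFactors (n + x) ≤ K + 2) :=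
  Pool.Agent.H91.Gold.main_short hn (by omega)
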