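import Mathlib
import Pool.Agent.H91.GoldMain

/-!
# Goldbach for all even integers with at most six prime factors in total

For every `n ≥ 2` there is an integer `0 ≤ x ≤ n - 2` such that `n - x` and `n + x` have together
at most six prime factors, and at most four each, counted with multiplicity
(`ArithmeticFunction.cardFactors` is `Ω`).
-/

/-- Every even number `2 n ≥ 4` is the sum `(n - x) + (n + x)` of two integers `≥ 2` with at most
four prime factors each and at most six in total, counted with multiplicity. -/
theorem Pool.Agent.Results.MP_967f73_nt.SixFactorsAllN.result (n : ℕ) (hn : 2 ≤ n) :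
    ∃ x : ℕ, x + 2 ≤ n ∧
      ArithmeticFunction.cardFactors (n - x) ≤ 4 ∧ ArithmeticFunction.cardFactors (n + x) ≤ 4 ∧
      ArithmeticFunction.cardFactors (n - x) + ArithmeticFunction.cardFactors (n + x) ≤ 6 :=
  Pool.Agent.H91.Gold.main_four hn
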