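import Mathlib

/-!
A cover certificate for the mixed lonely runner problem with three runners: for all positive real
speeds `x, y, z` there is a time `t ≥ 0` at which `x t` is at distance at least `71/200` and
`y t`, `z t` are at distance at least `99/500` from the integers.
-/

namespace Pool.Agent.H91.Lonely

/-- `w` is at distance at least `d` from the integers, witnessed by consecutive integers. -/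
def Good (d w : ℝ) : Prop := ∃ m : ℤ, (m : ℝ) + d ≤ w ∧ w ≤ m + 1 - d

theorem Good.dist_ge {d w : ℝ} (h : Good d w) : d ≤ |w - round w| := by
  obtain ⟨m, h1, h2⟩ := h
  rcases le_or_gt (round w) m with hr | hr
  · have hr' : ((round w : ℤ) : ℝ) ≤ (m : ℝ) := by exact_mod_cast hr
    have : d ≤ w - round w := by linarith
    exact this.trans (le_abs_self _)
  · have hr' : (m : ℝ) + 1 ≤ ((round w : ℤ) : ℝ) := by exact_mod_cast hr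
    have : d ≤ -(w - round w) := by linarith
    exact this.trans (neg_le_abs _)

theorem Good.mono {d e w : ℝ} (h : Good d w) (he : e ≤ d) : Good e w := by
  obtain ⟨m, h1, h2⟩ := h
  exact ⟨m, by linarith, by linarith⟩

theorem Good.add_int {d w : ℝ} (h : Good d w) (n : ℤ) : Good d ((n : ℝ) + w) := by
  obtain ⟨m, h1, h2⟩ := h
  refine ⟨n + m, ?_, ?_⟩ <;> push_cast <;> linarith

theorem Good.int_sub {d w : ℝ} (h : Good d w) (n : ℤ) : Good d ((n : ℝ) - w) := by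
  obtain ⟨m, h1, h2⟩ := h
  refine ⟨n - m - 1, ?_, ?_⟩ <;> push_cast <;> linarith

/-- Cover certificates: a leaf gives a time `p / q` and the integer parts of the three
positions; an inner node splits the box at the coordinate `c` of the axis `ax`. -/
inductive Tree where
  | L : ℕ → ℕ → ℕ → ℕ → ℕ → Tree
  | S : ℕ → ℕ → Tree → Tree → Tree

/-- Check of one runner at a leaf. -/
def chkOne (e a b p q m : ℕ) : Bool :=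
  Nat.ble ((m * 1000 + e) * 10000 * q) (a * p * 1000) &&
    Nat.ble (b * p * 1000 + e * 10000 * q) ((m + 1) * 1000 * 10000 * q)

/-- Check of a certificate on the box `[a0,b0] × [a1,b1] × [a2,b2]` (in units of `1/10000`). -/
def chk (e0 e1 e2 : ℕ) : Tree → ℕ → ℕ → ℕ → ℕ → ℕ → ℕ → Bool
  | .L p q m0 m1 m2, a0, b0, a1, b1, a2, b2 =>
      Nat.blt 0 q && (chkOne e0 a0 b0 p q m0 && (chkOne e1 a1 b1 p q m1 && chkOne e2 a2 b2 p q m2))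
  | .S 0 c l r, a0, b0, a1, b1, a2, b2 =>
      chk e0 e1 e2 l a0 c a1 b1 a2 b2 && chk e0 e1 e2 r c b0 a1 b1 a2 b2
  | .S 1 c l r, a0, b0, a1, b1, a2, b2 =>
      chk e0 e1 e2 l a0 b0 a1 c a2 b2 && chk e0 e1 e2 r a0 b0 c b1 a2 b2
  | .S (_ + 2) c l r, a0, b0, a1, b1, a2, b2 =>
      chk e0 e1 e2 l a0 b0 a1 b1 a2 c && chk e0 e1 e2 r a0 b0 a1 b1 c b2

theorem chkOne_sound {e a b p q m : ℕ} (hq : 0 < q) (h : chkOne e a b p q m = true) (x : ℝ)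
    (hx1 : (a : ℝ) ≤ 10000 * x) (hx2 : 10000 * x ≤ b) :
    Good ((e : ℝ) / 1000) (x * ((p : ℝ) / q)) := by
  unfold chkOne at h
  rw [Bool.and_eq_true, Nat.ble_eq, Nat.ble_eq] at h
  obtain ⟨h1, h2⟩ := h
  have h1' : ((m : ℝ) * 1000 + e) * 10000 * q ≤ a * p * 1000 := by exact_mod_cast h1
  have h2' : (b : ℝ) * p * 1000 + e * 10000 * q ≤ (m + 1) * 1000 * 10000 * q := by
    exact_mod_cast h2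
  have hq' : (0 : ℝ) < q := by exact_mod_cast hq
  have hp' : (0 : ℝ) ≤ p := by positivity
  have k1 : (a : ℝ) * p ≤ 10000 * x * p := mul_le_mul_of_nonneg_right hx1 hp'
  have k2 : 10000 * x * p ≤ (b : ℝ) * p := mul_le_mul_of_nonneg_right hx2 hp'
  refine ⟨m, ?_, ?_⟩
  · rw [mul_div_assoc', le_div_iff₀ hq']
    push_cast
    nlinarith
  · rw [mul_div_assoc', div_le_iff₀ hq']
    push_cast
    nlinarith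

theorem chk_sound (e0 e1 e2 : ℕ) : ∀ (T : Tree) (a0 b0 a1 b1 a2 b2 : ℕ),
    chk e0 e1 e2 T a0 b0 a1 b1 a2 b2 = true → ∀ x y z : ℝ,
    (a0 : ℝ) ≤ 10000 * x → 10000 * x ≤ b0 → (a1 : ℝ) ≤ 10000 * y → 10000 * y ≤ b1 →
    (a2 : ℝ) ≤ 10000 * z → 10000 * z ≤ b2 →
    ∃ t : ℝ, Good ((e0 : ℝ) / 1000) (x * t) ∧ Good ((e1 : ℝ) / 1000) (y * t) ∧
      Good ((e2 : ℝ) / 1000) (z * t) := by
  intro T
  induction T with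
  | L p q m0 m1 m2 =>
    intro a0 b0 a1 b1 a2 b2 h x y z hx1 hx2 hy1 hy2 hz1 hz2
    simp only [chk, Bool.and_eq_true] at h
    obtain ⟨hq, h0, h1, h2⟩ := h
    have hq' : 0 < q := by simpa [Nat.blt_eq] using hq
    exact ⟨(p : ℝ) / q, chkOne_sound hq' h0 x hx1 hx2, chkOne_sound hq' h1 y hy1 hy2,
      chkOne_sound hq' h2 z hz1 hz2⟩
  | S ax c l r ihl ihr =>
    intro a0 b0 a1 b1 a2 b2 h x y z hx1 hx2 hy1 hy2 hz1 hz2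
    match ax with
    | 0 =>
      simp only [chk, Bool.and_eq_true] at h
      rcases le_total (10000 * x) (c : ℝ) with hc | hc
      · exact ihl _ _ _ _ _ _ h.1 x y z hx1 hc hy1 hy2 hz1 hz2
      · exact ihr _ _ _ _ _ _ h.2 x y z hc hx2 hy1 hy2 hz1 hz2
    | 1 =>
      simp only [chk, Bool.and_eq_true] at h
      rcases le_total (10000 * y) (c : ℝ) with hc | hc
      · exact ihl _ _ _ _ _ _ h.1 x y z hx1 hx2 hy1 hc hz1 hz2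
      · exact ihr _ _ _ _ _ _ h.2 x y z hx1 hx2 hc hy2 hz1 hz2
    | ax + 2 =>
      simp only [chk, Bool.and_eq_true] at h
      rcases le_total (10000 * z) (c : ℝ) with hc | hc
      · exact ihl _ _ _ _ _ _ h.1 x y z hx1 hx2 hy1 hy2 hz1 hc
      · exact ihr _ _ _ _ _ _ h.2 x y z hx1 hx2 hy1 hy2 hc hz2

/-- Certificate for `x = 1`, `1 ≤ y ≤ 4.1`, `1 ≤ z ≤ 9`. -/
def tree1 : Tree :=
    (.S 2 50000 (.S 2 30000 (.S 1 25500 (.S 2 20000 (.S 1 17750 (.L 2 5 0 0 0) (.S 2 15000 (.S 1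
    21625 (.L 4 11 0 0 0) (.S 2 12500 (.L 3 5 0 1 0) (.S 1 23562 (.S 2 13750 (.L 4 7 0 1 0) (.L 8 5
    1 3 2)) (.L 8 15 0 1 0)))) (.S 1 21625 (.L 4 11 0 0 0) (.S 2 17500 (.L 37 25 1 3 2) (.S 1 23562
    (.S 2 18750 (.L 37 25 1 3 2) (.L 9 14 0 1 1)) (.L 7 5 1 3 2)))))) (.S 1 17750 (.S 2 25000 (.S 1
    13875 (.S 2 22500 (.L 16 45 0 0 0) (.L 4 7 0 0 1)) (.S 2 22500 (.L 16 45 0 0 0) (.S 1 15812 (.S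
    2 23750 (.L 8 5 1 2 3) (.L 36 71 0 0 1)) (.L 3 2 1 2 3)))) (.S 1 13875 (.L 1 2 0 0 1) (.S 2
    27500 (.S 1 15812 (.L 1 2 0 0 1) (.S 2 26250 (.L 7 5 1 2 3) (.S 1 16781 (.L 6 13 0 0 1) (.L 11 8
    1 2 3)))) (.L 4 9 0 0 1)))) (.S 2 25000 (.S 1 21625 (.S 2 22500 (.L 16 45 0 0 0) (.S 1 19687 (.L
    37 26 1 2 3) (.L 5 8 0 1 1))) (.L 3 5 0 1 1)) (.S 1 21625 (.S 2 27500 (.S 1 19687 (.L 11 8 1 2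
    3) (.L 5 8 0 1 1)) (.S 1 19687 (.S 2 28750 (.L 97 41 2 4 6) (.S 1 18718 (.L 8 19 0 0 1) (.S 2
    29375 (.S 1 19202 (.L 38 91 0 0 1) (.L 61 14 4 8 12)) (.S 1 19202 (.L 5 12 0 0 1) (.S 2 29687
    (.S 1 19444 (.L 7 17 0 0 1) (.L 103 11 9 18 27)) (.L 13 32 0 0 1)))))) (.S 2 28750 (.L 5 8 0 1
    1) (.S 1 20656 (.S 2 29375 (.L 11 18 0 1 1) (.S 1 20171 (.S 2 29687 (.S 1 19929 (.L 103 11 9 18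
    27) (.L 20 33 0 1 1)) (.S 1 19929 (.S 2 29843 (.S 1 19808 (.L 17 42 0 0 1) (.S 2 29765 (.L 23 38
    0 1 1) (.S 1 19868 (.L 23 57 0 0 1) (.L 32 53 0 1 1)))) (.L 35 87 0 0 1)) (.S 2 29843 (.L 32 53
    0 1 1) (.S 1 20050 (.S 2 29921 (.L 56 93 0 1 1) (.S 1 19989 (.L 67 167 0 0 1) (.L 3 5 0 1 1)))
    (.L 3 5 0 1 1))))) (.L 3 5 0 1 1))) (.L 3 5 0 1 1))))) (.L 3 5 0 1 1))))) (.S 2 20000 (.S 1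
    33250 (.S 2 15000 (.L 1 2 0 1 0) (.S 1 29375 (.S 2 17500 (.S 1 27437 (.S 2 16250 (.L 8 17 0 1 0)
    (.L 11 8 1 3 2)) (.L 4 9 0 1 0)) (.S 1 27437 (.L 11 8 1 3 2) (.S 2 18750 (.S 1 28406 (.S 2 18125
    (.L 7 16 0 1 0) (.L 19 8 2 6 4)) (.L 11 26 0 1 0)) (.S 1 28406 (.L 19 8 2 6 4) (.S 2 19375 (.S 1
    28890 (.L 27 8 3 9 6) (.S 2 19062 (.L 5 12 0 1 0) (.L 61 14 4 12 8))) (.L 61 14 4 12 8)))))) (.S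
    2 17500 (.L 3 7 0 1 0) (.S 1 31312 (.S 2 18750 (.L 5 12 0 1 0) (.S 1 30343 (.S 2 19375 (.L 7 17
    0 1 0) (.S 1 29859 (.S 2 19687 (.S 1 29617 (.L 103 14 7 21 14) (.L 13 32 0 1 0)) (.S 1 29617 (.L
    103 14 7 21 14) (.S 2 19843 (.S 1 29738 (.L 145 14 10 30 20) (.L 21 52 0 1 0)) (.S 1 29738 (.L
    23 38 0 1 1) (.S 2 19921 (.S 1 29798 (.L 26 43 0 1 1) (.L 33 82 0 1 0)) (.L 35 58 0 1 1))))))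
    (.S 2 19687 (.L 13 32 0 1 0) (.S 1 30101 (.S 2 19843 (.L 21 52 0 1 0) (.S 1 29980 (.S 2 19921
    (.L 33 82 0 1 0) (.S 1 29919 (.L 53 88 0 1 1) (.L 81 202 0 1 0))) (.L 2 5 0 1 0))) (.L 2 5 0 1
    0))))) (.L 2 5 0 1 0))) (.L 2 5 0 1 0))))) (.L 2 5 0 1 0)) (.S 1 33250 (.S 2 25000 (.S 1 29375
    (.L 3 5 0 1 1) (.S 2 22500 (.S 1 31312 (.S 2 21250 (.S 1 30343 (.S 2 20625 (.S 1 29859 (.L 3 5 0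
    1 1) (.S 2 20312 (.S 1 30101 (.S 2 20156 (.S 1 29980 (.L 3 5 0 1 1) (.S 2 20078 (.S 1 30040 (.L
    121 202 0 1 1) (.L 67 168 0 1 0)) (.L 37 62 0 1 1))) (.L 22 37 0 1 1)) (.S 2 20156 (.S 1 30222
    (.S 2 20078 (.L 41 103 0 1 0) (.S 1 30161 (.L 37 62 0 1 1) (.L 29 73 0 1 0))) (.L 23 58 0 1 0))
    (.S 1 30222 (.L 22 37 0 1 1) (.S 2 20234 (.S 1 30282 (.L 22 37 0 1 1) (.L 19 48 0 1 0)) (.L 16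
    27 0 1 1))))) (.L 13 22 0 1 1))) (.L 7 12 0 1 1)) (.S 2 20625 (.S 1 30827 (.S 2 20312 (.L 107
    271 0 1 0) (.S 1 30585 (.S 2 20468 (.L 95 11 8 26 17) (.L 10 17 0 1 1)) (.L 65 14 4 14 9))) (.L
    82 211 0 1 0)) (.S 1 30827 (.L 7 12 0 1 1) (.L 40 11 3 11 7)))) (.L 4 7 0 1 1)) (.S 2 21250 (.L
    21 8 2 8 5) (.S 1 32281 (.S 2 21875 (.L 21 8 2 8 5) (.L 5 9 0 1 1)) (.L 13 8 1 5 3)))) (.L 7 13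
    0 1 1))) (.L 1 2 0 1 1)) (.S 2 25000 (.S 1 37125 (.S 2 22500 (.S 1 35187 (.L 8 5 1 5 3) (.L 16
    45 0 1 0)) (.S 1 35187 (.S 2 23750 (.L 8 5 1 5 3) (.L 22 43 0 1 1)) (.L 5 8 0 2 1))) (.L 3 5 0 2
    1)) (.S 1 37125 (.L 12 25 0 1 1) (.L 3 5 0 2 1)))))) (.S 1 25500 (.S 2 40000 (.S 1 17750 (.L 2 5
    0 0 1) (.S 2 35000 (.S 1 21625 (.S 2 32500 (.S 1 19687 (.L 2 5 0 0 1) (.S 2 31250 (.S 1 20656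
    (.S 2 30625 (.S 1 20171 (.S 2 30312 (.S 1 19929 (.L 2 5 0 0 1) (.S 2 30156 (.S 1 20050 (.L 2 5 0
    0 1) (.L 144 241 0 1 1)) (.L 31 78 0 0 1))) (.L 17 43 0 0 1)) (.S 2 30312 (.L 41 69 0 1 1) (.S 1
    20413 (.L 121 14 8 17 26) (.L 10 17 0 1 1)))) (.S 1 20171 (.L 9 23 0 0 1) (.L 51 11 4 9 14)))
    (.S 2 30625 (.L 7 12 0 1 1) (.S 1 21140 (.L 51 11 4 9 14) (.L 4 7 0 1 1)))) (.L 37 14 2 5 8)))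
    (.L 10 27 0 0 1)) (.S 2 32500 (.L 41 74 0 1 1) (.S 1 23562 (.L 8 5 1 3 5) (.L 18 35 0 1 1))))
    (.S 1 21625 (.L 4 11 0 0 1) (.L 7 11 0 1 2)))) (.S 1 17750 (.L 5 14 0 0 1) (.S 2 45000 (.S 1
    21625 (.L 4 11 0 0 1) (.L 3 5 0 1 2)) (.S 1 21625 (.L 5 14 0 0 1) (.L 5 9 0 1 2))))) (.S 2 40000
    (.S 1 33250 (.S 2 35000 (.L 1 2 0 1 1) (.S 1 29375 (.S 2 37500 (.L 8 17 0 1 1) (.L 3 5 0 1 2))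
    (.L 3 7 0 1 1))) (.L 2 5 0 1 1)) (.S 1 33250 (.S 2 45000 (.S 1 29375 (.L 3 5 0 1 2) (.S 2 42500
    (.L 5 12 0 1 1) (.L 7 13 0 1 2))) (.L 1 2 0 1 2)) (.L 40 111 0 1 1))))) (.S 2 70000 (.S 1 25500
    (.S 2 60000 (.S 1 17750 (.L 4 9 0 0 2) (.S 2 55000 (.S 1 21625 (.S 2 52500 (.S 1 19687 (.S 2
    51250 (.S 1 18718 (.L 13 9 1 2 7) (.L 9 14 0 1 3)) (.L 17 12 1 2 7)) (.L 9 14 0 1 3)) (.S 1
    19687 (.L 7 5 1 2 7) (.L 5 8 0 1 3))) (.L 9 14 0 1 3)) (.S 1 21625 (.S 2 57500 (.S 1 19687 (.L 2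
    5 0 0 2) (.L 5 8 0 1 3)) (.S 1 19687 (.L 2 5 0 0 2) (.L 5 8 0 1 3))) (.L 3 5 0 1 3)))) (.S 1
    17750 (.L 2 5 0 0 2) (.S 2 65000 (.S 1 21625 (.L 7 19 0 0 2) (.L 4 7 0 1 3)) (.S 1 21625 (.L 4
    11 0 0 2) (.S 2 67500 (.L 5 9 0 1 3) (.L 5 8 0 1 4)))))) (.S 2 60000 (.S 1 33250 (.S 2 55000 (.L
    1 2 0 1 2) (.S 1 29375 (.L 3 5 0 1 3) (.L 3 7 0 1 2))) (.S 2 55000 (.S 1 37125 (.L 4 9 0 1 2)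
    (.L 9 14 0 2 3)) (.L 2 5 0 1 2))) (.S 1 33250 (.L 7 13 0 1 3) (.L 2 5 0 1 2)))) (.S 1 25500 (.S
    2 80000 (.S 1 17750 (.S 2 75000 (.L 4 11 0 0 2) (.L 3 7 0 0 3)) (.S 2 75000 (.S 1 21625 (.L 4 11
    0 0 2) (.L 3 5 0 1 4)) (.S 1 21625 (.S 2 77500 (.L 5 14 0 0 2) (.S 1 19687 (.S 2 78750 (.L 16 45
    0 0 2) (.L 13 32 0 0 3)) (.S 2 78750 (.L 16 45 0 0 2) (.S 1 20656 (.S 2 79375 (.L 61 45 1 2 10)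
    (.S 1 20171 (.S 2 79687 (.L 103 76 1 2 10) (.S 1 19929 (.L 35 87 0 0 3) (.S 2 79843 (.L 86 143 0
    1 4) (.S 1 20050 (.S 2 79921 (.L 407 76 5 10 42) (.S 1 19989 (.L 67 167 0 0 3) (.L 3 5 0 1 4)))
    (.L 3 5 0 1 4))))) (.L 3 5 0 1 4))) (.L 3 5 0 1 4))))) (.L 3 5 0 1 4)))) (.S 1 17750 (.L 2 5 0 0
    3) (.S 2 85000 (.S 1 21625 (.S 2 82500 (.S 1 19687 (.L 2 5 0 0 3) (.S 2 81250 (.S 1 20656 (.S 2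
    80625 (.S 1 20171 (.S 2 80312 (.S 1 19929 (.L 2 5 0 0 3) (.S 2 80156 (.S 1 20050 (.L 2 5 0 0 3)
    (.L 49 82 0 1 4)) (.L 201 76 2 5 21))) (.L 74 45 1 3 13)) (.L 22 37 0 1 4)) (.L 49 76 0 1 5))
    (.L 7 12 0 1 4)) (.L 9 14 0 1 5))) (.S 1 19687 (.L 2 5 0 0 3) (.L 7 11 0 1 5))) (.L 5 9 0 1 4))
    (.S 1 21625 (.S 2 87500 (.S 1 19687 (.L 2 5 0 0 3) (.L 5 8 0 1 5)) (.L 7 19 0 0 3)) (.L 5 8 0 1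
    5))))) (.S 2 80000 (.S 1 33250 (.L 8 17 0 1 3) (.S 2 75000 (.L 4 11 0 1 2) (.L 3 7 0 1 3))) (.S
    1 33250 (.L 8 15 0 1 4) (.L 2 5 0 1 3))))))

/-- Certificate for `y = 1`, `1 ≤ x ≤ 10`, `1 ≤ z ≤ 14`. -/
def tree2 : Tree :=
    (.S 2 75000 (.S 0 55000 (.S 2 42500 (.S 0 32500 (.S 2 26250 (.S 0 21250 (.S 2 18125 (.S 0 15625
    (.L 2 5 0 0 0) (.L 1 4 0 0 0)) (.S 0 15625 (.S 2 22187 (.L 5 14 0 0 0) (.S 0 12812 (.S 2 24218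
    (.S 0 11406 (.L 5 9 0 0 1) (.L 5 16 0 0 0)) (.L 1 2 0 0 1)) (.L 2 7 0 0 0))) (.L 1 4 0 0 0)))
    (.L 20 101 0 0 0)) (.S 0 21250 (.S 2 34375 (.S 0 15625 (.S 2 30312 (.S 0 12812 (.L 1 2 0 0 1)
    (.S 2 28281 (.L 5 18 0 0 0) (.S 0 14218 (.L 3 7 0 0 1) (.L 1 4 0 0 0)))) (.L 2 5 0 0 1)) (.L 3
    13 0 0 0)) (.S 0 15625 (.L 2 5 0 0 1) (.S 2 38437 (.S 0 18437 (.L 15 43 0 0 1) (.L 1 5 0 0 0))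
    (.S 0 18437 (.L 1 3 0 0 1) (.S 2 40468 (.L 20 101 0 0 0) (.L 3 10 0 0 1)))))) (.S 2 34375 (.L 20
    101 0 0 0) (.S 0 26875 (.S 2 38437 (.L 1 5 0 0 0) (.S 0 24062 (.L 9 14 1 0 2) (.L 3 5 1 0 2)))
    (.S 2 38437 (.L 20 101 0 0 0) (.S 0 29687 (.S 2 40468 (.L 20 101 0 0 0) (.L 6 11 1 0 2)) (.S 2
    40468 (.L 20 101 0 0 0) (.L 4 5 2 0 3)))))))) (.S 2 26250 (.S 0 43750 (.S 2 18125 (.S 0 38125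
    (.L 3 7 1 0 0) (.L 3 8 1 0 0)) (.S 0 38125 (.S 2 22187 (.S 0 35312 (.L 8 11 2 0 1) (.L 9 13 2 0
    1)) (.S 0 35312 (.S 2 24218 (.L 8 11 2 0 1) (.S 0 33906 (.L 15 11 4 1 3) (.S 2 25234 (.L 7 10 2
    0 1) (.L 9 7 4 1 3)))) (.L 13 19 2 0 1))) (.S 2 22187 (.L 5 14 1 0 0) (.S 0 40937 (.L 5 8 2 0 1)
    (.L 3 5 2 0 1))))) (.S 2 18125 (.S 0 49375 (.L 5 16 1 0 0) (.L 2 7 1 0 0)) (.S 0 49375 (.S 2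
    22187 (.L 5 16 1 0 0) (.S 0 46562 (.L 5 9 2 0 1) (.L 3 10 1 0 0))) (.L 2 7 1 0 0)))) (.S 0 43750
    (.S 2 34375 (.S 0 38125 (.S 2 30312 (.S 0 35312 (.L 6 13 1 0 1) (.S 2 28281 (.S 0 36718 (.L 5 4
    4 1 3) (.L 173 142 4 1 3)) (.L 3 7 1 0 1))) (.L 3 7 1 0 1)) (.S 2 30312 (.S 0 40937 (.S 2 28281
    (.L 5 8 2 0 1) (.S 0 39531 (.S 2 29296 (.S 0 38828 (.L 61 144 1 0 1) (.L 11 18 2 0 1)) (.L 7 17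
    1 0 1)) (.S 2 29296 (.L 3 5 2 0 1) (.S 0 40234 (.S 2 29804 (.L 3 5 2 0 1) (.L 11 27 1 0 1)) (.L
    10 17 2 0 1))))) (.L 7 12 2 0 1)) (.S 0 40937 (.L 2 5 1 0 1) (.S 2 32343 (.S 0 42343 (.S 2 31327
    (.L 9 5 7 1 5) (.L 5 13 1 0 1)) (.L 39 70 2 0 1)) (.L 3 8 1 0 1))))) (.S 0 38125 (.L 8 19 1 0 1)
    (.L 3 8 1 0 1))) (.S 2 34375 (.S 0 49375 (.S 2 30312 (.S 0 46562 (.L 5 9 2 0 1) (.L 8 15 2 0 1))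
    (.S 0 46562 (.L 7 9 3 0 2) (.L 11 21 2 0 1))) (.L 11 23 2 0 1)) (.S 0 49375 (.S 2 38437 (.S 0
    46562 (.L 6 17 1 0 1) (.L 8 11 3 0 2)) (.L 5 16 1 0 1)) (.S 2 38437 (.S 0 52187 (.L 9 13 3 0 2)
    (.L 5 11 2 0 1)) (.S 0 52187 (.L 5 16 1 0 1) (.L 11 17 3 0 2)))))))) (.S 0 32500 (.S 2 58750 (.S
    0 21250 (.S 2 50625 (.S 0 15625 (.L 16 45 0 0 1) (.L 2 7 0 0 1)) (.S 0 15625 (.S 2 54687 (.S 0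
    12812 (.L 1 2 0 0 2) (.L 2 7 0 0 1)) (.L 7 17 0 0 2)) (.L 1 4 0 0 1))) (.S 2 50625 (.S 0 26875
    (.S 2 46562 (.S 0 24062 (.S 2 44531 (.S 0 22656 (.L 11 39 0 0 1) (.L 3 5 1 0 2)) (.S 0 22656 (.L
    3 11 0 0 1) (.L 3 5 1 0 2))) (.L 3 5 1 0 2)) (.S 0 24062 (.L 4 15 0 0 1) (.S 2 48593 (.L 4 7 1 0
    2) (.S 0 25468 (.L 1 4 0 0 1) (.L 6 11 1 0 2))))) (.S 2 46562 (.S 0 29687 (.L 6 11 1 0 2) (.L 4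
    5 2 0 3)) (.L 42 83 1 0 2))) (.S 0 26875 (.L 5 21 0 0 1) (.S 2 54687 (.L 42 83 1 0 2) (.S 0
    29687 (.S 2 56718 (.S 0 28281 (.L 2 9 0 0 1) (.L 12 25 1 0 2)) (.L 3 14 0 0 1)) (.L 6 13 1 0
    2)))))) (.S 0 21250 (.S 2 66875 (.S 0 15625 (.L 2 5 0 0 2) (.L 1 4 0 0 1)) (.S 0 15625 (.L 4 11
    0 0 2) (.L 3 13 0 0 1))) (.S 2 66875 (.S 0 26875 (.L 2 9 0 0 1) (.S 2 62812 (.S 0 29687 (.L 3 14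
    0 0 1) (.S 2 60781 (.L 11 24 1 0 2) (.L 20 101 0 0 1))) (.L 20 101 0 0 1))) (.L 20 101 0 0 1))))
    (.S 2 58750 (.S 0 43750 (.S 2 50625 (.S 0 38125 (.S 2 46562 (.S 0 35312 (.S 2 44531 (.S 0 33906
    (.L 7 9 2 0 3) (.L 2 5 1 0 1)) (.L 8 11 2 0 3)) (.L 5 13 1 0 1)) (.S 0 35312 (.L 8 11 2 0 3) (.L
    9 13 2 0 3))) (.L 16 45 1 0 1)) (.S 0 38125 (.S 2 54687 (.S 0 35312 (.L 4 9 1 0 2) (.L 9 13 2 0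
    3)) (.L 3 7 1 0 2)) (.S 2 54687 (.S 0 40937 (.L 7 11 2 0 3) (.S 2 52656 (.L 1 3 1 0 1) (.S 0
    42343 (.L 8 13 2 0 3) (.L 9 28 1 0 1)))) (.S 0 40937 (.L 5 8 2 0 3) (.L 3 5 2 0 3))))) (.S 2
    50625 (.S 0 49375 (.L 5 16 1 0 1) (.L 2 7 1 0 1)) (.S 0 49375 (.S 2 54687 (.L 5 16 1 0 1) (.S 0
    46562 (.L 7 9 3 0 4) (.L 3 10 1 0 1))) (.L 2 7 1 0 1)))) (.S 0 43750 (.S 2 66875 (.S 0 38125 (.L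
    18 43 1 0 2) (.L 3 8 1 0 2)) (.S 0 38125 (.S 2 70937 (.S 0 35312 (.S 2 68906 (.S 0 33906 (.L 11
    23 1 0 3) (.L 2 5 1 0 2)) (.L 13 28 1 0 3)) (.L 5 13 1 0 2)) (.S 0 35312 (.L 5 11 1 0 3) (.S 2
    72968 (.L 38 99 1 0 2) (.S 0 36718 (.L 4 9 1 0 3) (.L 10 27 1 0 2))))) (.L 4 11 1 0 2))) (.S 2
    66875 (.S 0 49375 (.S 2 62812 (.S 0 46562 (.L 5 9 2 0 3) (.L 8 11 3 0 4)) (.S 0 46562 (.L 6 17 1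
    0 2) (.L 8 15 2 0 3))) (.S 2 62812 (.L 2 7 1 0 1) (.S 0 52187 (.L 9 13 3 0 4) (.L 4 15 1 0 1))))
    (.S 0 49375 (.L 24 73 1 0 2) (.L 11 23 2 0 3))))))) (.S 2 42500 (.S 0 77500 (.S 2 26250 (.S 0
    66250 (.L 17 69 1 0 0) (.L 4 19 1 0 0)) (.S 0 66250 (.S 2 34375 (.S 0 60625 (.S 2 30312 (.L 1 4
    1 0 0) (.L 3 7 2 0 1)) (.L 3 13 1 0 0)) (.S 0 60625 (.S 2 38437 (.L 3 7 2 0 1) (.S 0 57812 (.L 5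
    8 3 0 2) (.L 5 12 2 0 1))) (.L 7 18 2 0 1))) (.S 2 34375 (.L 4 19 1 0 0) (.S 0 71875 (.L 4 11 2
    0 1) (.S 2 38437 (.L 1 5 1 0 0) (.L 1 3 2 0 1)))))) (.S 2 26250 (.S 0 88750 (.S 2 18125 (.S 0
    83125 (.L 4 13 2 0 0) (.L 2 7 2 0 0)) (.S 0 83125 (.L 7 23 2 0 0) (.L 2 7 2 0 0))) (.S 2 18125
    (.S 0 94375 (.L 3 11 2 0 0) (.L 1 4 2 0 0)) (.S 0 94375 (.L 3 11 2 0 0) (.L 1 4 2 0 0)))) (.S 0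
    88750 (.S 2 34375 (.S 0 83125 (.S 2 30312 (.S 0 80312 (.L 1 5 1 0 0) (.L 5 9 4 0 1)) (.L 7 16 3
    0 1)) (.S 2 30312 (.S 0 85937 (.L 7 13 4 0 1) (.L 12 23 4 0 1)) (.L 9 22 3 0 1))) (.S 0 83125
    (.S 2 38437 (.L 7 16 3 0 1) (.L 5 16 2 0 1)) (.L 9 22 3 0 1))) (.S 2 34375 (.S 0 94375 (.L 27 55
    4 0 1) (.L 6 13 4 0 1)) (.S 0 94375 (.L 5 13 3 0 1) (.L 4 11 3 0 1)))))) (.S 0 77500 (.S 2 58750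
    (.S 0 66250 (.S 2 50625 (.S 0 60625 (.S 2 46562 (.S 0 57812 (.L 11 39 1 0 1) (.L 3 5 3 0 2)) (.L
    4 15 1 0 1)) (.S 2 46562 (.S 0 63437 (.L 4 7 3 0 2) (.L 3 8 2 0 1)) (.S 0 63437 (.L 7 27 1 0 1)
    (.L 6 11 3 0 2)))) (.L 17 69 1 0 1)) (.S 2 50625 (.S 0 71875 (.L 16 45 2 0 1) (.L 1 3 2 0 1))
    (.S 0 71875 (.S 2 54687 (.L 36 71 3 0 2) (.L 2 9 1 0 1)) (.L 15 32 3 0 2)))) (.S 0 66250 (.S 2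
    66875 (.L 17 69 1 0 1) (.S 0 60625 (.S 2 70937 (.L 1 4 1 0 1) (.S 0 57812 (.L 5 11 2 0 3) (.L 4
    17 1 0 1))) (.L 3 13 1 0 1))) (.L 4 19 1 0 1))) (.S 2 58750 (.S 0 88750 (.S 2 50625 (.S 0 83125
    (.L 4 13 2 0 1) (.L 2 7 2 0 1)) (.S 0 83125 (.L 7 23 2 0 1) (.L 2 7 2 0 1))) (.S 2 50625 (.S 0
    94375 (.S 2 46562 (.L 5 13 3 0 1) (.L 3 11 2 0 1)) (.L 16 45 3 0 1)) (.S 0 94375 (.L 3 11 2 0 1)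
    (.L 1 4 2 0 1)))) (.S 0 88750 (.S 2 66875 (.S 0 83125 (.S 2 62812 (.L 7 16 3 0 2) (.S 0 80312
    (.L 1 5 1 0 1) (.L 18 43 3 0 2))) (.L 9 22 3 0 2)) (.S 0 83125 (.S 2 70937 (.S 0 80312 (.L 1 5 1
    0 1) (.L 23 34 5 0 4)) (.L 5 16 2 0 2)) (.S 2 70937 (.S 0 85937 (.L 8 15 4 0 3) (.L 9 23 3 0 2))
    (.S 0 85937 (.L 10 13 6 0 5) (.L 37 73 4 0 3))))) (.S 2 66875 (.S 0 94375 (.L 4 15 2 0 1) (.L 1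
    4 2 0 1)) (.S 0 94375 (.L 27 55 4 0 3) (.L 4 11 3 0 2)))))))) (.S 0 55000 (.S 2 107500 (.S 0
    32500 (.S 2 91250 (.S 0 21250 (.S 2 83125 (.S 0 15625 (.S 2 79062 (.S 0 12812 (.L 3 7 0 0 3) (.L
    1 3 0 0 2)) (.L 7 17 0 0 3)) (.L 3 10 0 0 2)) (.S 0 15625 (.L 2 5 0 0 3) (.L 2 7 0 0 2))) (.S 2
    83125 (.L 20 101 0 0 1) (.S 0 26875 (.S 2 87187 (.L 1 5 0 0 1) (.S 0 24062 (.L 4 15 0 0 2) (.L 3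
    5 1 0 5))) (.L 42 83 1 0 4)))) (.S 0 21250 (.S 2 99375 (.S 0 15625 (.L 3 8 0 0 3) (.L 1 4 0 0
    2)) (.S 0 15625 (.S 2 103437 (.L 4 11 0 0 3) (.L 7 17 0 0 4)) (.L 1 4 0 0 2))) (.S 2 99375 (.S 0
    26875 (.S 2 95312 (.S 0 24062 (.L 1 4 0 0 2) (.L 3 5 1 0 5)) (.L 3 13 0 0 2)) (.S 2 95312 (.S 0
    29687 (.S 2 93281 (.L 18 35 1 0 4) (.S 0 28281 (.L 4 7 1 0 5) (.L 1 2 1 0 4))) (.L 1 2 1 0 4))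
    (.S 0 29687 (.L 6 11 1 0 5) (.L 6 13 1 0 4)))) (.S 0 26875 (.L 2 9 0 0 2) (.S 2 103437 (.S 0
    29687 (.L 6 11 1 0 5) (.L 6 13 1 0 4)) (.L 42 83 1 0 5)))))) (.S 2 91250 (.S 0 43750 (.S 2 83125
    (.S 0 38125 (.L 3 7 1 0 3) (.S 2 79062 (.S 0 40937 (.S 2 77031 (.L 4 11 1 0 2) (.S 0 39531 (.L
    27 65 1 0 3) (.L 6 17 1 0 2))) (.L 1 3 1 0 2)) (.S 0 40937 (.S 2 81093 (.S 0 39531 (.L 7 17 1 0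
    3) (.L 10 29 1 0 2)) (.L 2 5 1 0 3)) (.L 1 3 1 0 2)))) (.S 0 38125 (.S 2 87187 (.L 3 7 1 0 3)
    (.S 0 35312 (.L 8 11 2 0 6) (.L 2 5 1 0 3))) (.S 2 87187 (.S 0 40937 (.L 2 5 1 0 3) (.S 2 85156
    (.S 0 42343 (.L 12 31 1 0 3) (.L 9 28 1 0 2)) (.L 47 125 1 0 3))) (.L 3 8 1 0 3)))) (.S 2 83125
    (.S 0 49375 (.L 5 16 1 0 2) (.L 5 17 1 0 2)) (.S 0 49375 (.S 2 87187 (.L 5 16 1 0 2) (.S 0 46562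
    (.S 2 89218 (.L 5 16 1 0 2) (.S 0 45156 (.L 4 11 1 0 3) (.L 7 23 1 0 2))) (.L 3 10 1 0 2))) (.L
    2 7 1 0 2)))) (.S 0 43750 (.S 2 99375 (.S 0 38125 (.S 2 95312 (.S 0 35312 (.L 6 13 1 0 4) (.L 5
    13 1 0 3)) (.S 0 35312 (.L 4 9 1 0 4) (.L 13 19 2 0 6))) (.L 3 8 1 0 3)) (.S 0 38125 (.L 3 7 1 0
    4) (.S 2 103437 (.L 4 11 1 0 3) (.S 0 40937 (.L 5 8 2 0 6) (.L 1 3 1 0 3))))) (.S 2 99375 (.S 0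
    49375 (.S 2 95312 (.S 0 46562 (.L 6 17 1 0 3) (.L 7 24 1 0 2)) (.S 0 46562 (.L 6 17 1 0 3) (.S 2
    97343 (.S 0 47968 (.L 12 35 1 0 3) (.L 2 7 1 0 2)) (.L 23 70 1 0 3)))) (.L 5 18 1 0 2)) (.S 0
    49375 (.L 10 31 1 0 3) (.S 2 103437 (.S 0 52187 (.S 2 101406 (.L 8 29 1 0 2) (.S 0 50781 (.L 6
    19 1 0 3) (.L 7 26 1 0 2))) (.L 4 15 1 0 2)) (.S 0 52187 (.L 5 16 1 0 3) (.L 13 50 1 0 2))))))))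
    (.S 0 32500 (.S 2 123750 (.S 0 21250 (.S 2 115625 (.S 0 15625 (.L 2 5 0 0 4) (.L 3 13 0 0 2))
    (.S 0 15625 (.L 3 8 0 0 4) (.L 2 7 0 0 3))) (.S 2 115625 (.S 0 26875 (.L 2 9 0 0 2) (.S 2 111562
    (.L 42 83 1 0 5) (.L 20 101 0 0 2))) (.L 20 101 0 0 2))) (.S 0 21250 (.S 2 131875 (.S 0 15625
    (.L 4 11 0 0 4) (.L 2 7 0 0 3)) (.S 0 15625 (.L 2 5 0 0 5) (.L 1 4 0 0 3))) (.L 20 101 0 0 2)))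
    (.S 2 123750 (.S 0 43750 (.S 2 115625 (.S 0 38125 (.S 2 111562 (.L 3 7 1 0 4) (.S 0 35312 (.L 14
    19 2 0 8) (.L 2 5 1 0 4))) (.S 2 111562 (.S 0 40937 (.L 2 5 1 0 4) (.L 1 3 1 0 3)) (.S 0 40937
    (.L 2 5 1 0 4) (.L 7 12 2 0 6)))) (.S 0 38125 (.S 2 119687 (.S 0 35312 (.L 5 11 1 0 5) (.L 2 5 1
    0 4)) (.S 0 35312 (.L 4 9 1 0 5) (.L 5 13 1 0 4))) (.L 3 8 1 0 4))) (.S 2 115625 (.S 0 49375 (.L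
    5 16 1 0 3) (.L 14 47 1 0 3)) (.S 0 49375 (.S 2 119687 (.L 5 16 1 0 3) (.S 0 46562 (.L 6 17 1 0
    4) (.L 3 10 1 0 3))) (.L 2 7 1 0 3)))) (.S 0 43750 (.S 2 131875 (.S 0 38125 (.L 3 7 1 0 5) (.L 4
    11 1 0 4)) (.S 0 38125 (.S 2 135937 (.L 8 19 1 0 5) (.S 0 35312 (.L 6 13 1 0 6) (.L 2 5 1 0 5)))
    (.S 2 135937 (.S 0 40937 (.L 2 5 1 0 5) (.L 1 3 1 0 4)) (.S 0 40937 (.L 2 5 1 0 5) (.L 1 3 1 0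
    4))))) (.S 2 131875 (.S 0 49375 (.S 2 127812 (.S 0 46562 (.L 6 17 1 0 4) (.L 5 17 1 0 3)) (.L 23
    70 1 0 4)) (.L 2 7 1 0 3)) (.S 0 49375 (.L 8 25 1 0 4) (.L 11 23 2 0 6))))))) (.S 2 107500 (.S 0
    77500 (.S 2 91250 (.S 0 66250 (.S 2 83125 (.S 0 60625 (.L 3 7 2 0 3) (.S 2 79062 (.L 5 22 1 0 1)
    (.S 0 63437 (.L 5 12 2 0 3) (.L 3 14 1 0 1)))) (.S 0 60625 (.L 4 15 1 0 2) (.L 7 18 2 0 3))) (.S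
    2 83125 (.L 4 19 1 0 1) (.S 0 71875 (.L 36 71 3 0 4) (.S 2 87187 (.L 1 5 1 0 1) (.S 0 74687 (.L
    14 29 3 0 4) (.L 34 57 4 0 5)))))) (.S 0 66250 (.L 17 69 1 0 2) (.S 2 99375 (.S 0 71875 (.L 4 11
    2 0 3) (.L 15 32 3 0 4)) (.S 0 71875 (.L 2 9 1 0 2) (.L 1 3 2 0 3))))) (.S 2 91250 (.S 0 88750
    (.S 2 83125 (.S 0 83125 (.L 4 13 2 0 2) (.L 5 17 2 0 2)) (.S 0 83125 (.L 7 23 2 0 2) (.L 2 7 2 0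
    2))) (.S 2 83125 (.S 0 94375 (.S 2 79062 (.S 0 91562 (.L 17 28 5 0 4) (.L 10 21 4 0 3)) (.L 7 25
    2 0 2)) (.S 2 79062 (.L 6 13 4 0 3) (.S 0 97187 (.L 4 7 5 0 4) (.L 5 11 4 0 3)))) (.S 0 94375
    (.L 3 11 2 0 2) (.L 32 121 2 0 2)))) (.S 0 88750 (.S 2 99375 (.S 0 83125 (.S 2 95312 (.S 0 80312
    (.L 4 7 4 0 5) (.L 22 75 2 0 2)) (.S 0 80312 (.L 4 9 3 0 4) (.L 5 9 4 0 5))) (.S 2 95312 (.L 2 7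
    2 0 2) (.S 0 85937 (.L 15 23 5 0 6) (.L 5 18 2 0 2)))) (.S 0 83125 (.L 7 16 3 0 4) (.S 2 103437
    (.S 0 85937 (.L 11 26 3 0 4) (.L 34 65 4 0 5)) (.L 9 22 3 0 4)))) (.S 2 99375 (.S 0 94375 (.L 3
    11 2 0 2) (.L 1 4 2 0 2)) (.S 0 94375 (.S 2 103437 (.L 4 15 2 0 2) (.S 0 91562 (.L 35 69 4 0 5)
    (.L 7 27 2 0 2))) (.L 1 4 2 0 2)))))) (.S 0 77500 (.S 2 123750 (.S 0 66250 (.S 2 115625 (.S 0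
    60625 (.S 2 111562 (.L 1 4 1 0 2) (.S 0 57812 (.S 2 113593 (.L 17 69 1 0 2) (.L 11 39 1 0 3))
    (.L 4 17 1 0 2))) (.L 3 13 1 0 2)) (.S 0 60625 (.S 2 119687 (.S 0 57812 (.L 5 18 1 0 3) (.S 2
    117656 (.L 4 17 1 0 2) (.S 0 59218 (.L 3 11 1 0 3) (.L 3 13 1 0 2)))) (.L 7 26 1 0 3)) (.L 7 31
    1 0 2))) (.L 4 19 1 0 2)) (.S 0 66250 (.S 2 131875 (.S 0 60625 (.L 4 15 1 0 3) (.S 2 127812 (.S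
    0 63437 (.L 7 27 1 0 3) (.L 3 14 1 0 2)) (.S 0 63437 (.L 7 27 1 0 3) (.S 2 129843 (.L 3 14 1 0
    2) (.L 17 69 1 0 3))))) (.L 17 69 1 0 3)) (.S 2 131875 (.L 4 19 1 0 2) (.S 0 71875 (.S 2 135937
    (.L 7 34 1 0 2) (.S 0 69062 (.L 4 17 1 0 3) (.L 1 5 1 0 2))) (.L 1 5 1 0 2))))) (.S 2 123750 (.S
    0 88750 (.S 2 115625 (.S 0 83125 (.L 4 13 2 0 3) (.L 14 47 2 0 3)) (.S 0 83125 (.L 7 23 2 0 3)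
    (.L 2 7 2 0 3))) (.S 2 115625 (.S 0 94375 (.L 27 55 4 0 5) (.S 2 111562 (.L 1 4 2 0 2) (.S 0
    97187 (.L 7 15 4 0 5) (.L 71 293 2 0 2)))) (.S 0 94375 (.L 5 18 2 0 3) (.L 4 11 3 0 4)))) (.S 0
    88750 (.S 2 131875 (.S 0 83125 (.L 7 16 3 0 5) (.L 2 7 2 0 3)) (.S 0 83125 (.S 2 135937 (.S 0
    80312 (.L 1 5 1 0 2) (.L 8 19 3 0 5)) (.L 5 16 2 0 4)) (.L 9 22 3 0 5))) (.S 2 131875 (.S 0
    94375 (.L 3 11 2 0 3) (.L 5 19 2 0 3)) (.S 0 94375 (.L 4 15 2 0 3) (.L 1 4 2 0 3)))))))))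

set_option maxRecDepth 100000 in
theorem chk_tree1 : chk 355 198 198 tree1 10000 10000 10000 41000 10000 90000 = true := by
  decide +kernel

set_option maxRecDepth 100000 in
theorem chk_tree2 : chk 355 198 198 tree2 10000 100000 10000 10000 10000 140000 = true := by
  decide +kernel

end Pool.Agent.H91.Lonely
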