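import Mathlib
import Pool.Agent.H91.LonelyCover

/-!
The mixed lonely runner statement with distances `(71/200, 99/500, 99/500)` for all positive real
speeds, and the classical lonely runner statement with three distances `1/4`.
-/

namespace Pool.Agent.H91.Lonely

/-- Any interval of length `2 b` contains a point at distance at least `b` from the integers. -/
theorem hit {b : ℝ} (hb0 : 0 ≤ b) (hb : b ≤ 1 / 2) (v : ℝ) :
    ∃ w : ℝ, v ≤ w ∧ w ≤ v + 2 * b ∧ Good b w := by
  have h1 := Int.floor_le (v + b)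
  have h2 := Int.lt_floor_add_one (v + b)
  rcases le_total v ((⌊v + b⌋ : ℝ) + b) with h | h
  · exact ⟨(⌊v + b⌋ : ℝ) + b, h, by linarith, ⌊v + b⌋, le_refl _, by linarith⟩
  · exact ⟨v, le_refl _, by linarith, ⌊v + b⌋, h, by linarith⟩

/-- Any interval of length `6 b` contains an interval of length `2 b` all of whose points are at
distance at least `b` from the integers. -/
theorem sub_interval {b : ℝ} (hb0 : 0 ≤ b) (hb : b ≤ 1 / 4) (u : ℝ) :
    ∃ s : ℝ, ∃ m : ℤ, u ≤ s ∧ s + 2 * b ≤ u + 6 * b ∧ (m : ℝ) + b ≤ s ∧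
      s + 2 * b ≤ m + 1 - b := by
  have h1 := Int.le_ceil (u - 1 + 3 * b)
  have h2 := Int.ceil_lt_add_one (u - 1 + 3 * b)
  set m := ⌈u - 1 + 3 * b⌉
  rcases le_total u ((m : ℝ) + b) with h | h
  · exact ⟨(m : ℝ) + b, m, h, by linarith, le_refl _, by linarith⟩
  · exact ⟨u, m, le_refl _, by linarith, h, by linarith⟩

/-- A runner of speed `x > 0` visits a point at distance at least `a` from the integers during any
time interval `[t1, t2]` with `2 a ≤ x (t2 - t1)`. -/
theorem hit_time {a x t1 t2 : ℝ} (ha0 : 0 ≤ a) (ha : a ≤ 1 / 2) (hx : 0 < x)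
    (h : 2 * a ≤ x * (t2 - t1)) : ∃ t : ℝ, t1 ≤ t ∧ t ≤ t2 ∧ Good a (x * t) := by
  obtain ⟨w, h1, h2, h3⟩ := hit ha0 ha (x * t1)
  refine ⟨w / x, ?_, ?_, ?_⟩
  · rw [le_div_iff₀ hx]; linarith
  · rw [div_le_iff₀ hx]; linarith
  · rwa [mul_div_cancel₀ _ hx.ne']

/-- Two runners of speeds `0 < y ≤ z` are simultaneously at distance at least `b ≤ 1/4` from the
integers at some time of any time interval of length at least `6 b / y`. -/
theorem two_hit {b y z A B : ℝ} (hb0 : 0 ≤ b) (hb : b ≤ 1 / 4) (hy : 0 < y) (hyz : y ≤ z)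
    (h : 6 * b ≤ y * (B - A)) :
    ∃ t : ℝ, A ≤ t ∧ t ≤ B ∧ Good b (y * t) ∧ Good b (z * t) := by
  obtain ⟨s, m, h1, h2, h3, h4⟩ := sub_interval hb0 hb (y * A)
  have hz : 0 < z := lt_of_lt_of_le hy hyz
  have hlen : 2 * b ≤ z * ((s + 2 * b) / y - s / y) := by
    have : (s + 2 * b) / y - s / y = 2 * b / y := by ring
    rw [this, mul_div_assoc', le_div_iff₀ hy]
    nlinarith
  obtain ⟨t, ht1, ht2, ht3⟩ := hit_time hb0 (by linarith) hz hlen
  rw [div_le_iff₀ hy] at ht1
  rw [le_div_iff₀ hy] at ht2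
  refine ⟨t, ?_, ?_, ⟨m, by linarith, by linarith⟩, ht3⟩
  · nlinarith
  · nlinarith

/-- The point `(a, b, b)` used below: `a = 71 / 200`. -/
noncomputable def aa : ℝ := 355 / 1000
/-- The point `(a, b, b)` used below: `b = 99 / 500`. -/
noncomputable def bb : ℝ := 198 / 1000

/-- The first runner has speed `1` and is the slowest. -/
theorem case_one {y z : ℝ} (hy : 1 ≤ y) (hyz : y ≤ z) :
    ∃ t : ℝ, Good aa t ∧ Good bb (y * t) ∧ Good bb (z * t) := by
  have hb0 : (0 : ℝ) ≤ bb := by norm_num [bb]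
  have hb4 : bb ≤ 1 / 4 := by norm_num [bb]
  have hb2 : bb ≤ 1 / 2 := by norm_num [bb]
  rcases le_total (41 / 10) y with h1 | h1
  · obtain ⟨t, ht1, ht2, ht3, ht4⟩ := two_hit (A := aa) (B := 1 - aa) hb0 hb4
      (by linarith : (0 : ℝ) < y) hyz (by norm_num [aa, bb]; linarith)
    exact ⟨t, ⟨0, by push_cast; linarith, by push_cast; linarith⟩, ht3, ht4⟩
  rcases le_total z 9 with h2 | h2
  · obtain ⟨t, ht1, ht2, ht3⟩ := chk_sound 355 198 198 tree1 10000 10000 10000 41000 10000 90000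
      chk_tree1 1 y z (by norm_num) (by norm_num) (by push_cast; linarith) (by push_cast; linarith)
      (by push_cast; linarith) (by push_cast; linarith)
    rw [one_mul] at ht1
    exact ⟨t, by simpa [aa] using ht1, by simpa [bb] using ht2, by simpa [bb] using ht3⟩
  -- `z` is large: use a time interval on which the first two runners are good
  have key : ∀ (t1 t2 : ℝ) (m : ℤ), aa ≤ t1 → t2 ≤ 1 - aa → (m : ℝ) + bb ≤ y * t1 →
      y * t2 ≤ m + 1 - bb → 44 / 1000 ≤ t2 - t1 →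
      ∃ t : ℝ, Good aa t ∧ Good bb (y * t) ∧ Good bb (z * t) := by
    intro t1 t2 m k1 k2 k3 k4 k5
    obtain ⟨t, ht1, ht2, ht3⟩ := hit_time (x := z) (t1 := t1) (t2 := t2) hb0 hb2 (by linarith)
      (by
        have : (9 : ℝ) * (44 / 1000) ≤ z * (t2 - t1) :=
          mul_le_mul h2 k5 (by norm_num) (by linarith)
        have : 2 * bb ≤ 9 * (44 / 1000) := by norm_num [bb]
        linarith)
    have hy0 : (0 : ℝ) ≤ y := by linarith
    have e1 : y * t1 ≤ y * t := mul_le_mul_of_nonneg_left ht1 hy0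
    have e2 : y * t ≤ y * t2 := mul_le_mul_of_nonneg_left ht2 hy0
    exact ⟨t, ⟨0, by push_cast; linarith, by push_cast; linarith⟩,
      ⟨m, by linarith, by linarith⟩, ht3⟩
  rcases le_total y (3 / 2) with h3 | h3
  · refine key (355 / 1000) (534 / 1000) 0 ?_ ?_ ?_ ?_ ?_ <;> norm_num [aa, bb] <;> linarith
  rcases le_total y 2 with h4 | h4
  · refine key (355 / 1000) (401 / 1000) 0 ?_ ?_ ?_ ?_ ?_ <;> norm_num [aa, bb] <;> linarith
  rcases le_total y (27 / 10) with h5 | h5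
  · refine key (599 / 1000) (645 / 1000) 1 ?_ ?_ ?_ ?_ ?_ <;> norm_num [aa, bb] <;> linarith
  rcases le_total y (34 / 10) with h6 | h6
  · refine key (444 / 1000) (530 / 1000) 1 ?_ ?_ ?_ ?_ ?_ <;> norm_num [aa, bb] <;> linarith
  · refine key (355 / 1000) (439 / 1000) 1 ?_ ?_ ?_ ?_ ?_ <;> norm_num [aa, bb] <;> linarith

/-- During `[99/500, 401/500]` a runner of speed `x ≥ 2.2` stays at distance at least `aa` from
the integers for a time `29 / (100 x)`; a runner `z ≥ (396/290) x` is good within this time. -/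
theorem case_fast {x z : ℝ} (hx : 22 / 10 ≤ x) (hz : 396 * x ≤ 290 * z) :
    ∃ t : ℝ, Good aa (x * t) ∧ Good bb t ∧ Good bb (z * t) := by
  have hb0 : (0 : ℝ) ≤ bb := by norm_num [bb]
  have hb2 : bb ≤ 1 / 2 := by norm_num [bb]
  have hx0 : 0 < x := by linarith
  have hz0 : 0 < z := by linarith
  have h1 := Int.le_ceil (bb * x - aa)
  have h2 := Int.ceil_lt_add_one (bb * x - aa)
  set m := ⌈bb * x - aa⌉
  have hlen : 2 * bb ≤ z * (((m : ℝ) + 1 - aa) / x - ((m : ℝ) + aa) / x) := by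
    have : ((m : ℝ) + 1 - aa) / x - ((m : ℝ) + aa) / x = (1 - 2 * aa) / x := by ring
    rw [this, mul_div_assoc', le_div_iff₀ hx0]
    norm_num [aa, bb]; linarith
  obtain ⟨t, ht1, ht2, ht3⟩ := hit_time hb0 hb2 hz0 hlen
  rw [div_le_iff₀ hx0] at ht1
  rw [le_div_iff₀ hx0] at ht2
  refine ⟨t, ⟨m, by linarith, by linarith⟩, ⟨0, ?_, ?_⟩, ht3⟩
  · push_cast
    have : bb * x ≤ t * x := by linarith
    have := le_of_mul_le_mul_right this hx0
    linarith
  · push_cast
    have : t * x ≤ (1 - bb) * x := by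
      have e1 : t * x ≤ bb * x - aa + 1 + 1 - aa := by linarith
      norm_num [aa, bb] at e1 ⊢
      linarith
    have := le_of_mul_le_mul_right this hx0
    linarith

/-- Symmetric situation: `z` makes long good intervals and `x` is good within them. -/
theorem case_slow {x z : ℝ} (hz : 266 / 100 ≤ z) (hx : 710 * z ≤ 604 * x) :
    ∃ t : ℝ, Good aa (x * t) ∧ Good bb t ∧ Good bb (z * t) := by
  have ha0 : (0 : ℝ) ≤ aa := by norm_num [aa]
  have ha2 : aa ≤ 1 / 2 := by norm_num [aa]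
  have hz0 : 0 < z := by linarith
  have hx0 : 0 < x := by linarith
  have h1 := Int.le_ceil (bb * z - bb)
  have h2 := Int.ceil_lt_add_one (bb * z - bb)
  set m := ⌈bb * z - bb⌉
  have hlen : 2 * aa ≤ x * (((m : ℝ) + 1 - bb) / z - ((m : ℝ) + bb) / z) := by
    have : ((m : ℝ) + 1 - bb) / z - ((m : ℝ) + bb) / z = (1 - 2 * bb) / z := by ring
    rw [this, mul_div_assoc', le_div_iff₀ hz0]
    norm_num [aa, bb]; linarith
  obtain ⟨t, ht1, ht2, ht3⟩ := hit_time ha0 ha2 hx0 hlen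
  rw [div_le_iff₀ hz0] at ht1
  rw [le_div_iff₀ hz0] at ht2
  refine ⟨t, ht3, ⟨0, ?_, ?_⟩, ⟨m, by linarith, by linarith⟩⟩
  · push_cast
    have : bb * z ≤ t * z := by linarith
    have := le_of_mul_le_mul_right this hz0
    linarith
  · push_cast
    have : t * z ≤ (1 - bb) * z := by
      have e1 : t * z ≤ bb * z - bb + 1 + 1 - bb := by linarith
      norm_num [bb] at e1 ⊢
      linarith
    have := le_of_mul_le_mul_right this hz0
    linarith

/-- A runner of speed `x` is at a half-integer at some time of any interval `[t1, t2]` with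
`1 ≤ x (t2 - t1)`. -/
theorem half_time {x t1 t2 : ℝ} (hx : 0 < x) (h : 1 ≤ x * (t2 - t1)) :
    ∃ t : ℝ, ∃ m : ℤ, t1 ≤ t ∧ t ≤ t2 ∧ x * t = m + 1 / 2 := by
  have h1 := Int.le_ceil (x * t1 - 1 / 2)
  have h2 := Int.ceil_lt_add_one (x * t1 - 1 / 2)
  set m := ⌈x * t1 - 1 / 2⌉
  refine ⟨((m : ℝ) + 1 / 2) / x, m, ?_, ?_, ?_⟩
  · rw [le_div_iff₀ hx]; linarith
  · rw [div_le_iff₀ hx]; linarith
  · rw [mul_div_cancel₀ _ hx.ne']

/-- The two fast runners have nearly the same speed. -/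
theorem case_near {x z : ℝ} (hx : 10 ≤ x) (h1 : 85 * x ≤ 100 * z) (h2 : 290 * z ≤ 396 * x) :
    ∃ t : ℝ, Good aa (x * t) ∧ Good bb t ∧ Good bb (z * t) := by
  have hx0 : 0 < x := by linarith
  have ha2 : aa ≤ 1 / 2 := by norm_num [aa]
  -- it is enough to find `t` with `x t` a half-integer and `1/2 + |z - x| t` good
  suffices H : ∃ t : ℝ, ∃ m : ℤ, bb ≤ t ∧ t ≤ 1 - bb ∧ x * t = m + 1 / 2 ∧
      Good bb (1 / 2 + |z - x| * t) by
    obtain ⟨t, m, k1, k2, k3, k4⟩ := H
    refine ⟨t, ⟨m, by linarith, by linarith⟩, ⟨0, by push_cast; linarith, by push_cast; linarith⟩,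
      ?_⟩
    rcases le_total 0 (z - x) with h | h
    · rw [abs_of_nonneg h] at k4
      have := k4.add_int m
      have e : (m : ℝ) + (1 / 2 + (z - x) * t) = z * t := by linarith
      rwa [e] at this
    · rw [abs_of_nonpos h] at k4
      have := k4.int_sub (m + 1)
      have e : ((m + 1 : ℤ) : ℝ) - (1 / 2 + -(z - x) * t) = z * t := by push_cast; linarith
      rwa [e] at this
  set δ := |z - x| with hδ
  have hδ0 : 0 ≤ δ := abs_nonneg _
  have hδx : 290 * δ ≤ 106 * x := by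
    rw [hδ]
    rcases abs_cases (z - x) with ⟨h, _⟩ | ⟨h, _⟩ <;> rw [h] <;> linarith
  have key : ∀ (t1 t2 : ℝ) (n : ℤ), bb ≤ t1 → t2 ≤ 1 - bb → 1 / 10 ≤ t2 - t1 →
      (n : ℝ) + bb ≤ 1 / 2 + δ * t1 → 1 / 2 + δ * t2 ≤ n + 1 - bb →
      ∃ t : ℝ, ∃ m : ℤ, bb ≤ t ∧ t ≤ 1 - bb ∧ x * t = m + 1 / 2 ∧ Good bb (1 / 2 + δ * t) := by
    intro t1 t2 n k1 k2 k3 k4 k5
    obtain ⟨t, m, ht1, ht2, ht3⟩ := half_time (t1 := t1) (t2 := t2) hx0 (by nlinarith)
    have e1 : δ * t1 ≤ δ * t := mul_le_mul_of_nonneg_left ht1 hδ0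
    have e2 : δ * t ≤ δ * t2 := mul_le_mul_of_nonneg_left ht2 hδ0
    exact ⟨t, m, by linarith, by linarith, ht3, n, by linarith, by linarith⟩
  rcases le_total δ 1 with d1 | d1
  · refine key (2 / 10) (3 / 10) 0 ?_ ?_ ?_ ?_ ?_ <;> norm_num [bb] <;> linarith
  rcases le_total δ (3 / 2) with d2 | d2
  · refine key (7 / 10) (8 / 10) 1 ?_ ?_ ?_ ?_ ?_ <;> norm_num [bb] <;> linarith
  rcases le_total δ (21 / 10) with d3 | d3
  · refine key (5 / 10) (6 / 10) 1 ?_ ?_ ?_ ?_ ?_ <;> norm_num [bb] <;> linarith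
  · -- `δ` is large
    have hδp : 0 < δ := by linarith
    have hb0 : (0 : ℝ) ≤ bb := by norm_num [bb]
    have hb4 : bb ≤ 1 / 4 := by norm_num [bb]
    obtain ⟨s, n, e1, e2, e3, e4⟩ := sub_interval hb0 hb4 (1 / 2 + δ * bb)
    obtain ⟨t, m, ht1, ht2, ht3⟩ := half_time (x := x) (t1 := (s - 1 / 2) / δ)
      (t2 := (s + 2 * bb - 1 / 2) / δ) hx0 (by
        have : (s + 2 * bb - 1 / 2) / δ - (s - 1 / 2) / δ = 2 * bb / δ := by ring
        rw [this, mul_div_assoc', le_div_iff₀ hδp]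
        norm_num [bb]; linarith)
    rw [div_le_iff₀ hδp] at ht1
    rw [le_div_iff₀ hδp] at ht2
    refine ⟨t, m, ?_, ?_, ht3, n, by linarith, by linarith⟩
    · have : bb * δ ≤ t * δ := by linarith
      exact le_of_mul_le_mul_right this hδp
    · have : t * δ ≤ (1 - bb) * δ := by
        have f : t * δ ≤ δ * bb + 6 * bb := by linarith
        norm_num [bb] at f ⊢
        linarith
      exact le_of_mul_le_mul_right this hδp

/-- The second runner has speed `1` and is the slowest. -/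
theorem case_two {x z : ℝ} (hx : 1 ≤ x) (hz : 1 ≤ z) :
    ∃ t : ℝ, Good aa (x * t) ∧ Good bb t ∧ Good bb (z * t) := by
  have ha0 : (0 : ℝ) ≤ aa := by norm_num [aa]
  have ha2 : aa ≤ 1 / 2 := by norm_num [aa]
  have hb0 : (0 : ℝ) ≤ bb := by norm_num [bb]
  have hb2 : bb ≤ 1 / 2 := by norm_num [bb]
  rcases le_total x 10 with h1 | h1
  · rcases le_total z 14 with h2 | h2
    · obtain ⟨t, ht1, ht2, ht3⟩ := chk_sound 355 198 198 tree2 10000 100000 10000 10000 10000
        140000 chk_tree2 x 1 z (by push_cast; linarith) (by push_cast; linarith) (by norm_num)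
        (by norm_num) (by push_cast; linarith) (by push_cast; linarith)
      rw [one_mul] at ht2
      exact ⟨t, by simpa [aa] using ht1, by simpa [bb] using ht2, by simpa [bb] using ht3⟩
    rcases le_total (22 / 10) x with h3 | h3
    · exact case_fast h3 (by linarith)
    have key : ∀ (t1 t2 : ℝ), bb ≤ t1 → t2 ≤ 1 - bb → aa ≤ x * t1 →
        x * t2 ≤ 1 - aa → 38 / 1000 ≤ t2 - t1 →
        ∃ t : ℝ, Good aa (x * t) ∧ Good bb t ∧ Good bb (z * t) := by
      intro t1 t2 k1 k2 k3 k4 k5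
      obtain ⟨t, ht1, ht2, ht3⟩ := hit_time (x := z) (t1 := t1) (t2 := t2) hb0 hb2 (by linarith)
        (by
          have : (14 : ℝ) * (38 / 1000) ≤ z * (t2 - t1) :=
            mul_le_mul h2 k5 (by norm_num) (by linarith)
          have : 2 * bb ≤ 14 * (38 / 1000) := by norm_num [bb]
          linarith)
      have hx0 : (0 : ℝ) ≤ x := by linarith
      have e1 : x * t1 ≤ x * t := mul_le_mul_of_nonneg_left ht1 hx0
      have e2 : x * t ≤ x * t2 := mul_le_mul_of_nonneg_left ht2 hx0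
      exact ⟨t, ⟨0, by push_cast; linarith, by push_cast; linarith⟩,
        ⟨0, by push_cast; linarith, by push_cast; linarith⟩, ht3⟩
    rcases le_total x (14 / 10) with h4 | h4
    · refine key (355 / 1000) (460 / 1000) ?_ ?_ ?_ ?_ ?_ <;> norm_num [aa, bb] <;> linarith
    · refine key (254 / 1000) (293 / 1000) ?_ ?_ ?_ ?_ ?_ <;> norm_num [aa, bb] <;> linarith
  · rcases le_total (396 * x) (290 * z) with h2 | h2
    · exact case_fast (by linarith) h2
    rcases le_total z (266 / 100) with h3 | h3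
    · obtain ⟨t, ht1, ht2, ht3⟩ := hit_time (x := x) (t1 := 2 / 10) (t2 := 3 / 10) ha0 ha2
        (by linarith) (by norm_num [aa]; linarith)
      have hz0 : (0 : ℝ) ≤ z := by linarith
      have e1 : z * (2 / 10) ≤ z * t := mul_le_mul_of_nonneg_left ht1 hz0
      have e2 : z * t ≤ z * (3 / 10) := mul_le_mul_of_nonneg_left ht2 hz0
      refine ⟨t, ht3, ⟨0, ?_, ?_⟩, ⟨0, ?_, ?_⟩⟩ <;> norm_num [bb] <;> linarith
    rcases le_total (710 * z) (604 * x) with h4 | h4
    · exact case_slow h3 h4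
    · exact case_near h1 (by linarith) h2

/-- Mixed lonely runner statement for all positive real speeds, with distances
`71/200, 99/500, 99/500`. -/
theorem mixed {x y z : ℝ} (hx : 0 < x) (hy : 0 < y) (hz : 0 < z) :
    ∃ t : ℝ, Good aa (x * t) ∧ Good bb (y * t) ∧ Good bb (z * t) := by
  have main : ∀ {x y z : ℝ}, 0 < x → 0 < y → y ≤ z →
      ∃ t : ℝ, Good aa (x * t) ∧ Good bb (y * t) ∧ Good bb (z * t) := by
    intro x y z hx hy hyz
    rcases le_total x y with h | h
    · obtain ⟨t, h1, h2, h3⟩ := case_one (y := y / x) (z := z / x) ((one_le_div hx).mpr h)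
        (by gcongr)
      refine ⟨t / x, ?_, ?_, ?_⟩
      · rwa [mul_div_cancel₀ _ hx.ne']
      · rwa [mul_div_assoc', mul_comm, ← mul_div_assoc', mul_comm]
      · rwa [mul_div_assoc', mul_comm, ← mul_div_assoc', mul_comm]
    · obtain ⟨t, h1, h2, h3⟩ := case_two (x := x / y) (z := z / y) ((one_le_div hy).mpr h)
        ((one_le_div hy).mpr hyz)
      refine ⟨t / y, ?_, ?_, ?_⟩
      · rwa [mul_div_assoc', mul_comm, ← mul_div_assoc', mul_comm]
      · rwa [mul_div_cancel₀ _ hy.ne']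
      · rwa [mul_div_assoc', mul_comm, ← mul_div_assoc', mul_comm]
  rcases le_total y z with h | h
  · exact main hx hy h
  · obtain ⟨t, h1, h2, h3⟩ := main hx hz h
    exact ⟨t, h1, h3, h2⟩

end Pool.Agent.H91.Lonely
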