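import Mathlib
import Pool.Agent.H91.LonelyReal

/-!
The lonely runner statement for four runners (three moving runners, distance `1/4`), for all
positive real speeds.
-/

namespace Pool.Agent.H91.Lonely

/-- The slowest of the three runners has speed `1`. -/
theorem quarter_one {y z : ℝ} (hy : 1 ≤ y) (hyz : y ≤ z) :
    ∃ t : ℝ, Good (1 / 4) t ∧ Good (1 / 4) (y * t) ∧ Good (1 / 4) (z * t) := by
  have hy0 : (0 : ℝ) < y := by linarith
  have hz0 : (0 : ℝ) < z := by linarith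
  rcases le_total 3 y with h1 | h1
  · obtain ⟨t, ht1, ht2, ht3, ht4⟩ := two_hit (b := 1 / 4) (A := 1 / 4) (B := 3 / 4)
      (by norm_num) (by norm_num) hy0 hyz (by norm_num; linarith)
    exact ⟨t, ⟨0, by push_cast; linarith, by push_cast; linarith⟩, ht3, ht4⟩
  -- intervals on which the first two runners are good
  have key : ∀ (t1 t2 : ℝ) (m : ℤ), 1 / 4 ≤ t1 → t2 ≤ 3 / 4 → (m : ℝ) + 1 / 4 ≤ y * t1 →
      y * t2 ≤ m + 3 / 4 → 1 / 2 ≤ z * (t2 - t1) →
      ∃ t : ℝ, Good (1 / 4) t ∧ Good (1 / 4) (y * t) ∧ Good (1 / 4) (z * t) := by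
    intro t1 t2 m k1 k2 k3 k4 k5
    obtain ⟨t, ht1, ht2, ht3⟩ := hit_time (a := 1 / 4) (x := z) (t1 := t1) (t2 := t2)
      (by norm_num) (by norm_num) hz0 (by linarith)
    have e1 : y * t1 ≤ y * t := mul_le_mul_of_nonneg_left ht1 hy0.le
    have e2 : y * t ≤ y * t2 := mul_le_mul_of_nonneg_left ht2 hy0.le
    exact ⟨t, ⟨0, by push_cast; linarith, by push_cast; linarith⟩,
      ⟨m, by linarith, by linarith⟩, ht3⟩
  have pt : ∀ (t : ℝ) (m n k : ℤ), (m : ℝ) + 1 / 4 ≤ t → t ≤ m + 3 / 4 →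
      (n : ℝ) + 1 / 4 ≤ y * t → y * t ≤ n + 3 / 4 → (k : ℝ) + 1 / 4 ≤ z * t →
      z * t ≤ k + 3 / 4 →
      ∃ t : ℝ, Good (1 / 4) t ∧ Good (1 / 4) (y * t) ∧ Good (1 / 4) (z * t) := by
    intro t m n k k1 k2 k3 k4 k5 k6
    exact ⟨t, ⟨m, by linarith, by linarith⟩, ⟨n, by linarith, by linarith⟩,
      ⟨k, by linarith, by linarith⟩⟩
  rcases le_total z 3 with h2 | h2
  · refine pt (1 / 4) 0 0 0 ?_ ?_ ?_ ?_ ?_ ?_ <;> norm_num <;> linarith
  rcases le_total y (9 / 5) with h3 | h3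
  · refine key (1 / 4) (5 / 12) 0 ?_ ?_ ?_ ?_ ?_ <;> norm_num <;> linarith
  rcases le_total (7 / 3) y with h4 | h4
  · -- the full good interval `[5 / (4 y), 7 / (4 y)]` of the second runner
    refine key (5 / (4 * y)) (7 / (4 * y)) 1 ?_ ?_ ?_ ?_ ?_
    · rw [le_div_iff₀ (by linarith)]; linarith
    · rw [div_le_iff₀ (by linarith)]; linarith
    · have : y * (5 / (4 * y)) = 5 / 4 := by field_simp
      rw [this]; norm_num
    · have : y * (7 / (4 * y)) = 7 / 4 := by field_simp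
      rw [this]; norm_num
    · have : z * (7 / (4 * y) - 5 / (4 * y)) = z / y * (1 / 2) := by field_simp; ring
      rw [this]
      have : 1 ≤ z / y := (one_le_div hy0).mpr hyz
      linarith
  rcases le_total z (11 / 3) with h5 | h5
  · refine pt (3 / 4) 0 1 2 ?_ ?_ ?_ ?_ ?_ ?_ <;> norm_num <;> linarith
  rcases le_total y (194 / 100) with h6 | h6
  · refine key (1 / 4) (3865 / 10000) 0 ?_ ?_ ?_ ?_ ?_ <;> norm_num <;> linarith
  rcases le_total (204 / 100) y with h7 | h7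
  · refine key (613 / 1000) (3 / 4) 1 ?_ ?_ ?_ ?_ ?_ <;> norm_num <;> linarith
  rcases le_total z (15 / 4) with h8 | h8
  · refine pt (35 / 100) 0 0 1 ?_ ?_ ?_ ?_ ?_ ?_ <;> norm_num <;> linarith
  rcases le_total z (21 / 4) with h9 | h9
  · refine pt (1 / 3) 0 0 1 ?_ ?_ ?_ ?_ ?_ ?_ <;> norm_num <;> linarith
  · refine key (1 / 4) (367 / 1000) 0 ?_ ?_ ?_ ?_ ?_ <;> norm_num <;> linarith

theorem quarter_sorted {x y z : ℝ} (hx : 0 < x) (hxy : x ≤ y) (hyz : y ≤ z) :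
    ∃ t : ℝ, Good (1 / 4) (x * t) ∧ Good (1 / 4) (y * t) ∧ Good (1 / 4) (z * t) := by
  obtain ⟨t, h1, h2, h3⟩ := quarter_one (y := y / x) (z := z / x) ((one_le_div hx).mpr hxy)
    (by gcongr)
  refine ⟨t / x, ?_, ?_, ?_⟩
  · rwa [mul_div_cancel₀ _ hx.ne']
  · rwa [mul_div_assoc', mul_comm, ← mul_div_assoc', mul_comm]
  · rwa [mul_div_assoc', mul_comm, ← mul_div_assoc', mul_comm]

/-- The lonely runner statement with three moving runners, for all positive real speeds. -/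
theorem quarter {x y z : ℝ} (hx : 0 < x) (hy : 0 < y) (hz : 0 < z) :
    ∃ t : ℝ, Good (1 / 4) (x * t) ∧ Good (1 / 4) (y * t) ∧ Good (1 / 4) (z * t) := by
  rcases le_total x y with h1 | h1
  · rcases le_total y z with h2 | h2
    · exact quarter_sorted hx h1 h2
    · rcases le_total x z with h3 | h3
      · obtain ⟨t, a, b, c⟩ := quarter_sorted hx h3 h2
        exact ⟨t, a, c, b⟩
      · obtain ⟨t, a, b, c⟩ := quarter_sorted hz h3 h1
        exact ⟨t, b, c, a⟩
  · rcases le_total x z with h2 | h2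
    · obtain ⟨t, a, b, c⟩ := quarter_sorted hy h1 h2
      exact ⟨t, b, a, c⟩
    · rcases le_total y z with h3 | h3
      · obtain ⟨t, a, b, c⟩ := quarter_sorted hy h3 h2
        exact ⟨t, c, a, b⟩
      · obtain ⟨t, a, b, c⟩ := quarter_sorted hz h3 h1
        exact ⟨t, c, b, a⟩

end Pool.Agent.H91.Lonely
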