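import Mathlib

/-!
Definitions for the mixed lonely runner parameter space (problem file MP_b0d7fb_nt) and general
facts about it.
-/

namespace Pool.Agent.H91.LonelySpace

/-- The distance from `x` to the nearest integer. -/
noncomputable def distInt (x : ℝ) : ℝ := |x - round x|

/-- `MLRC d`: for all pairwise distinct positive integers `s i` there is a real time `t` at which
each `s i * t` is at distance at least `d i` from the integers. -/
def MLRC {k : ℕ} (d : Fin k → ℝ) : Prop :=
  ∀ s : Fin k → ℕ, (∀ i, 1 ≤ s i) → Function.Injective s →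
    ∃ t : ℝ, ∀ i, d i ≤ distInt ((s i : ℝ) * t)

/-- The mixed lonely runner parameter space. -/
def MLPS (k : ℕ) : Set (Fin k → ℝ) :=
  {d | (∀ i, 0 < d i ∧ d i ≤ 1 / 2) ∧ MLRC d}

/-- The upper boundary: the points of `MLPS k` that are maximal for the coordinatewise order. -/
def upperBoundary (k : ℕ) : Set (Fin k → ℝ) :=
  {d | d ∈ MLPS k ∧ ∀ e ∈ MLPS k, (∀ i, d i ≤ e i) → e = d}

/-- The diagonal point `(1/(k+1), ..., 1/(k+1))`. -/
noncomputable def diag (k : ℕ) : Fin k → ℝ := fun _ => 1 / ((k : ℝ) + 1)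

theorem distInt_le_abs_sub (x : ℝ) (m : ℤ) : distInt x ≤ |x - m| := round_le x m

theorem distInt_sub_le (x y : ℝ) : distInt x ≤ |x - y| + distInt y := by
  have h1 := distInt_le_abs_sub x (round y)
  have h2 : |x - round y| ≤ |x - y| + |y - round y| := by
    have := abs_add_le (x - y) (y - round y)
    have e : x - y + (y - round y) = x - round y := by ring
    rwa [e] at this
  exact h1.trans h2

theorem continuous_distInt : Continuous distInt := by
  have : LipschitzWith 1 distInt := by
    refine LipschitzWith.of_le_add_mul 1 fun x y => ?_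
    have := distInt_sub_le x y
    rw [Real.dist_eq]
    push_cast
    linarith
  exact this.continuous

theorem distInt_add_int (x : ℝ) (n : ℤ) : distInt (x + n) = distInt x := by
  unfold distInt
  rw [round_add_intCast]
  congr 1
  push_cast
  ring

theorem distInt_nonneg (x : ℝ) : 0 ≤ distInt x := abs_nonneg _

theorem distInt_le_half (x : ℝ) : distInt x ≤ 1 / 2 := abs_sub_round x

theorem distInt_two_mul (x : ℝ) : distInt (2 * x) ≤ 1 - 2 * distInt x := by
  have hh := distInt_le_half x
  have key : ∀ y : ℝ, y = x - round x → distInt (2 * x) ≤ 1 - 2 * |y| := by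
    intro y hy
    rcases le_total 0 y with h | h
    · have h1 := distInt_le_abs_sub (2 * x) (2 * round x + 1)
      rw [abs_of_nonneg h]
      have e : 2 * x - ((2 * round x + 1 : ℤ) : ℝ) = -(1 - 2 * y) := by rw [hy]; push_cast; ring
      have h2 : y ≤ 1 / 2 := by
        have := hh
        unfold distInt at this
        rw [← hy, abs_of_nonneg h] at this
        exact this
      rw [e, abs_neg, abs_of_nonneg (by linarith)] at h1
      exact h1
    · have h1 := distInt_le_abs_sub (2 * x) (2 * round x - 1)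
      rw [abs_of_nonpos h]
      have e : 2 * x - ((2 * round x - 1 : ℤ) : ℝ) = 1 + 2 * y := by rw [hy]; push_cast; ring
      have h2 : -y ≤ 1 / 2 := by
        have := hh
        unfold distInt at this
        rw [← hy, abs_of_nonpos h] at this
        exact this
      rw [e, abs_of_nonneg (by linarith)] at h1
      linarith
  exact key _ rfl

/-- One may take `t ∈ [0, 1]`. -/
theorem exists_time_mem_Icc {k : ℕ} (s : Fin k → ℕ) (d : Fin k → ℝ)
    (h : ∃ t : ℝ, ∀ i, d i ≤ distInt ((s i : ℝ) * t)) :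
    ∃ t ∈ Set.Icc (0 : ℝ) 1, ∀ i, d i ≤ distInt ((s i : ℝ) * t) := by
  obtain ⟨t, ht⟩ := h
  refine ⟨Int.fract t, ⟨Int.fract_nonneg t, (Int.fract_lt_one t).le⟩, fun i => ?_⟩
  have e : (s i : ℝ) * t = (s i : ℝ) * Int.fract t + (((s i : ℤ) * ⌊t⌋ : ℤ) : ℝ) := by
    push_cast
    rw [← mul_add, Int.fract_add_floor]
  have := ht i
  rw [e, distInt_add_int] at this
  exact this

/-- For fixed speeds the set of admissible distance vectors is closed. -/
theorem isClosed_admissible {k : ℕ} (s : Fin k → ℕ) :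
    IsClosed {d : Fin k → ℝ | ∃ t : ℝ, ∀ i, d i ≤ distInt ((s i : ℝ) * t)} := by
  have e : {d : Fin k → ℝ | ∃ t : ℝ, ∀ i, d i ≤ distInt ((s i : ℝ) * t)}
      = Prod.snd '' {p : (Set.Icc (0 : ℝ) 1) × (Fin k → ℝ) |
          ∀ i, p.2 i ≤ distInt ((s i : ℝ) * (p.1 : ℝ))} := by
    ext d
    constructor
    · intro h
      obtain ⟨t, ht, h'⟩ := exists_time_mem_Icc s d h
      exact ⟨(⟨t, ht⟩, d), h', rfl⟩
    · rintro ⟨⟨t, d'⟩, h, rfl⟩
      exact ⟨t, h⟩
  rw [e]
  refine isClosedMap_snd_of_compactSpace _ ?_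
  simp only [Set.ofPred_forall]
  refine isClosed_iInter fun i => ?_
  refine isClosed_le ?_ ?_
  · exact (continuous_apply i).comp continuous_snd
  · exact continuous_distInt.comp
      (continuous_const.mul (continuous_subtype_val.comp continuous_fst))

/-- Each point of `MLPS k` lies below a point of the upper boundary. -/
theorem exists_upperBoundary_ge {k : ℕ} {u : Fin k → ℝ} (hu : u ∈ MLPS k) :
    ∃ w ∈ upperBoundary k, ∀ i, u i ≤ w i := by
  set K : Set (Fin k → ℝ) := {e | (∀ i, u i ≤ e i) ∧ e ∈ MLPS k} with hK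
  have hKsub : K = Set.Icc u (fun _ => 1 / 2) ∩ ⋂ s ∈ {s : Fin k → ℕ | (∀ i, 1 ≤ s i) ∧
      Function.Injective s}, {d : Fin k → ℝ | ∃ t : ℝ, ∀ i, d i ≤ distInt ((s i : ℝ) * t)} := by
    ext e
    rw [hK]
    constructor
    · rintro ⟨h1, h2, h3⟩
      refine ⟨⟨h1, fun i => (h2 i).2⟩, ?_⟩
      simp only [Set.mem_iInter]
      intro s hs
      exact h3 s hs.1 hs.2
    · rintro ⟨⟨h1, h2⟩, h3⟩
      refine ⟨h1, fun i => ⟨lt_of_lt_of_le (hu.1 i).1 (h1 i), h2 i⟩, ?_⟩
      intro s hs1 hs2
      simp only [Set.mem_iInter] at h3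
      exact h3 s ⟨hs1, hs2⟩
  have hcomp : IsCompact K := by
    rw [hKsub]
    refine isCompact_Icc.inter_right ?_
    exact isClosed_biInter fun s _ => isClosed_admissible s
  have hne : K.Nonempty := ⟨u, fun i => le_refl _, hu⟩
  have hcont : ContinuousOn (fun e : Fin k → ℝ => ∑ i, e i) K :=
    (continuous_finsetSum _ fun i _ => continuous_apply i).continuousOn
  obtain ⟨w, hw, hmax⟩ := hcomp.exists_isMaxOn hne hcont
  refine ⟨w, ⟨hw.2, ?_⟩, hw.1⟩
  intro e he hle
  have heK : e ∈ K := ⟨fun i => (hw.1 i).trans (hle i), he⟩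
  have hsum : ∑ i, e i ≤ ∑ i, w i := hmax heK
  have heq : ∀ i ∈ Finset.univ, w i = e i :=
    (Finset.sum_eq_sum_iff_of_le fun i _ => hle i).mp
      (le_antisymm (Finset.sum_le_sum fun i _ => hle i) hsum)
  funext i
  exact (heq i (Finset.mem_univ i)).symm

/-- `MLPS k` is invariant under permutations of the coordinates. -/
theorem MLPS_comp_perm {k : ℕ} {d : Fin k → ℝ} (hd : d ∈ MLPS k) (σ : Equiv.Perm (Fin k)) :
    (fun i => d (σ i)) ∈ MLPS k := by
  refine ⟨fun i => hd.1 (σ i), ?_⟩
  intro s hs1 hs2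
  obtain ⟨t, ht⟩ := hd.2 (fun i => s (σ.symm i)) (fun i => hs1 _)
    (hs2.comp σ.symm.injective)
  refine ⟨t, fun i => ?_⟩
  have := ht (σ i)
  simpa using this

/-- The upper boundary is invariant under permutations of the coordinates. -/
theorem upperBoundary_comp_perm {k : ℕ} {d : Fin k → ℝ} (hd : d ∈ upperBoundary k)
    (σ : Equiv.Perm (Fin k)) : (fun i => d (σ i)) ∈ upperBoundary k := by
  refine ⟨MLPS_comp_perm hd.1 σ, ?_⟩
  intro e he hle
  have h1 := MLPS_comp_perm he σ.symm
  have h2 := hd.2 _ h1 (fun i => by simpa using hle (σ.symm i))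
  funext i
  have := congrFun h2 (σ i)
  simpa using this

/-- Union bound: `d` is in `MLRC` as soon as `∑ 2 d i < 1`. -/
theorem MLRC_of_sum_lt {k : ℕ} {d : Fin k → ℝ} (hd : ∀ i, 0 ≤ d i) (h : ∑ i, 2 * d i < 1) :
    MLRC d := by
  intro s hs1 _
  by_contra hcon
  push Not at hcon
  have hvol : ∀ i, MeasureTheory.volume {t : UnitAddCircle | ‖(s i : ℤ) • t‖ ≤ d i}
      ≤ ENNReal.ofReal (2 * d i) := by
    intro i
    have hne : (s i : ℤ) ≠ 0 := by
      have := hs1 i
      omega
    have hmp := MeasureTheory.Measure.measurePreserving_zsmul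
      (MeasureTheory.volume : MeasureTheory.Measure UnitAddCircle) hne
    have e : {t : UnitAddCircle | ‖(s i : ℤ) • t‖ ≤ d i}
        = (fun t : UnitAddCircle => (s i : ℤ) • t) ⁻¹' Metric.closedBall 0 (d i) := by
      ext t
      simp
    rw [e, hmp.measure_preimage measurableSet_closedBall.nullMeasurableSet,
      AddCircle.volume_closedBall]
    exact ENNReal.ofReal_le_ofReal (min_le_right _ _)
  have hcover : (Set.univ : Set UnitAddCircle)
      ⊆ ⋃ i, {t : UnitAddCircle | ‖(s i : ℤ) • t‖ ≤ d i} := by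
    intro t _
    induction t using QuotientAddGroup.induction_on with
    | H τ =>
      obtain ⟨i, hi⟩ := hcon τ
      rw [Set.mem_iUnion]
      refine ⟨i, ?_⟩
      have e : (s i : ℤ) • (τ : UnitAddCircle) = (((s i : ℝ) * τ : ℝ) : UnitAddCircle) := by
        rw [← AddCircle.coe_zsmul]
        congr 1
        simp
      show ‖(s i : ℤ) • (τ : UnitAddCircle)‖ ≤ d i
      rw [e, UnitAddCircle.norm_eq]
      exact hi.le
  have h1 := MeasureTheory.measure_mono (μ := (MeasureTheory.volume :
    MeasureTheory.Measure UnitAddCircle)) hcover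
  have h2 := h1.trans (MeasureTheory.measure_iUnion_fintype_le _ _)
  rw [UnitAddCircle.measure_univ] at h2
  have h3 : ∑ i, MeasureTheory.volume {t : UnitAddCircle | ‖(s i : ℤ) • t‖ ≤ d i}
      ≤ ENNReal.ofReal (∑ i, 2 * d i) := by
    rw [ENNReal.ofReal_sum_of_nonneg (fun i _ => by have := hd i; positivity)]
    exact Finset.sum_le_sum fun i _ => hvol i
  have h4 : (1 : ENNReal) ≤ ENNReal.ofReal (∑ i, 2 * d i) := h2.trans h3
  rw [ENNReal.one_le_ofReal] at h4
  linarith

end Pool.Agent.H91.LonelySpace
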